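import Pool.Agent.GOS.StA

/-!
# Module AB2: skew operators with irreducible subspaces of dimension at most two
-/

namespace GOS

open scoped InnerProductSpace

/-- orthonormal pairs, written out -/
def OPair {V : Type} [NormedAddCommGroup V] [InnerProductSpace ℝ V] {n : ℕ} (e e' : Fin n → V) :
    Prop :=
  (∀ i j, ⟪e i, e j⟫_ℝ = if i = j then 1 else 0) ∧
  (∀ i j, ⟪e' i, e' j⟫_ℝ = if i = j then 1 else 0) ∧ ∀ i j, ⟪e i, e' j⟫_ℝ = 0

theorem OPair.orthonormal {V : Type} [NormedAddCommGroup V] [InnerProductSpace ℝ V] {n : ℕ}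
    {e e' : Fin n → V} (h : OPair e e') : Orthonormal ℝ (Sum.elim e e') := by
  rw [orthonormal_iff_ite]
  rintro (i | i) (j | j)
  · simp only [Sum.elim_inl, h.1 i j, Sum.inl.injEq]
  · simp [h.2.2 i j]
  · simp only [Sum.elim_inl, Sum.elim_inr, reduceCtorEq, if_false]
    rw [real_inner_comm]
    exact h.2.2 j i
  · simp only [Sum.elim_inr, h.2.1 i j, Sum.inr.injEq]

theorem ab2_aux (h1 : St_GEN) (V : Type) [NormedAddCommGroup V] [InnerProductSpace ℝ V]
    [FiniteDimensional ℝ V] (H : Submodule ℝ (V →ₗ[ℝ] V)) (hH : SkewLie H) :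
    ∀ (d : ℕ) (W : Submodule ℝ V), Module.finrank ℝ W = d → Inv H W →
    (∀ U : Submodule ℝ V, U ≤ W → Irr H U → Module.finrank ℝ U ≤ 2) →
    ∃ (n : ℕ) (e e' : Fin n → V), OPair e e' ∧ (∀ i, e i ∈ W ∧ e' i ∈ W) ∧
      ∀ A ∈ H, ∀ x ∈ W,
        A x = ∑ i, ⟪A (e i), e' i⟫_ℝ • (⟪e i, x⟫_ℝ • e' i - ⟪e' i, x⟫_ℝ • e i) := by
  intro d
  induction d using Nat.strong_induction_on with
  | _ d ih =>
  intro W hd hW hirr
  by_cases h0 : ∀ x ∈ W, ∀ A ∈ H, A x = 0
  · refine ⟨0, Fin.elim0, Fin.elim0, ⟨fun i => i.elim0, fun i => i.elim0, fun i => i.elim0⟩,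
      fun i => i.elim0, fun A hA x hx => ?_⟩
    simp [h0 x hx A hA]
  · -- the part killed by `H`
    let W₀ : Submodule ℝ V :=
      { carrier := {x | x ∈ W ∧ ∀ A ∈ H, A x = 0}
        add_mem' := fun {a c} ha hc =>
          ⟨W.add_mem ha.1 hc.1, fun A hA => by rw [map_add, ha.2 A hA, hc.2 A hA, add_zero]⟩
        zero_mem' := ⟨W.zero_mem, fun A _ => map_zero A⟩
        smul_mem' := fun r a ha =>
          ⟨W.smul_mem r ha.1, fun A hA => by rw [map_smul, ha.2 A hA, smul_zero]⟩ }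
    have hW₀ : ∀ x, x ∈ W₀ ↔ x ∈ W ∧ ∀ A ∈ H, A x = 0 := fun x => Iff.rfl
    have hinv1 : Inv H (W ⊓ W₀ᗮ) := by
      intro A hA x hx
      refine ⟨hW A hA x hx.1, (Submodule.mem_orthogonal W₀ _).2 fun y hy => ?_⟩
      have h := hH.skew A hA y x
      rw [((hW₀ y).1 hy).2 A hA, inner_zero_left] at h
      linarith
    have hne1 : W ⊓ W₀ᗮ ≠ ⊥ := by
      intro hbot
      apply h0
      intro x hx A hA
      have hp : (W₀.starProjection x) ∈ W₀ := Submodule.starProjection_apply_mem W₀ x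
      have hq : x - W₀.starProjection x ∈ W₀ᗮ := Submodule.sub_starProjection_mem_orthogonal x
      have hq' : x - W₀.starProjection x ∈ W ⊓ W₀ᗮ :=
        ⟨W.sub_mem hx ((hW₀ _).1 hp).1, hq⟩
      rw [hbot, Submodule.mem_bot, sub_eq_zero] at hq'
      rw [hq']
      exact ((hW₀ _).1 hp).2 A hA
    obtain ⟨U, hU1, hU⟩ := (h1 V H hH).2.2.2.1 _ hinv1 hne1
    have hUW : U ≤ W := hU1.trans inf_le_left
    have hfin2 : Module.finrank ℝ U ≤ 2 := hirr U hUW hU
    -- elements of `U` killed by `H` vanish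
    have hkill : ∀ u ∈ U, (∀ A ∈ H, A u = 0) → u = 0 := by
      intro u hu hA
      have h2 : u ∈ W₀ := (hW₀ u).2 ⟨hUW hu, hA⟩
      have h3 : u ∈ W₀ᗮ := (hU1 hu).2
      have h4 := (Submodule.mem_orthogonal W₀ u).1 h3 u h2
      exact inner_self_eq_zero.1 h4
    have hpos : 0 < Module.finrank ℝ U := by
      rw [Module.finrank_pos_iff, Submodule.nontrivial_iff_ne_bot]
      exact hU.1
    have hskew0 : ∀ A ∈ H, ∀ x : V, ⟪A x, x⟫_ℝ = 0 := by
      intro A hA x
      have h := hH.skew A hA x x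
      rw [real_inner_comm] at h
      rw [real_inner_comm]
      linarith
    have hf2 : Module.finrank ℝ U = 2 := by
      by_contra hne
      have hf1 : Module.finrank ℝ U = 1 := by omega
      obtain ⟨v, hv0, hv⟩ := finrank_eq_one_iff'.1 hf1
      have hv0' : (v : V) ≠ 0 := fun h => hv0 (Subtype.ext h)
      apply hv0'
      refine hkill v v.2 fun A hA => ?_
      obtain ⟨c, hc⟩ := hv ⟨A v, hU.2.1 A hA v v.2⟩
      have hc' : c • (v : V) = A v := congrArg Subtype.val hc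
      have h := hskew0 A hA v
      rw [← hc', real_inner_smul_left] at h
      have hvv : ⟪(v : V), (v : V)⟫_ℝ ≠ 0 := inner_self_ne_zero.2 hv0'
      have hc0 : c = 0 := (mul_eq_zero.1 h).resolve_right hvv
      rw [← hc', hc0, zero_smul]
    let B : OrthonormalBasis (Fin 2) ℝ U := (stdOrthonormalBasis ℝ U).reindex (finCongr hf2)
    let u0 : V := (B 0 : V)
    let u1 : V := (B 1 : V)
    have hu0 : u0 ∈ U := (B 0).2
    have hu1 : u1 ∈ U := (B 1).2
    have hon := orthonormal_iff_ite.1 B.orthonormal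
    have h00 : ⟪u0, u0⟫_ℝ = 1 := (hon 0 0).trans (if_pos rfl)
    have h11 : ⟪u1, u1⟫_ℝ = 1 := (hon 1 1).trans (if_pos rfl)
    have h01 : ⟪u0, u1⟫_ℝ = 0 := (hon 0 1).trans (if_neg (by decide))
    have h10 : ⟪u1, u0⟫_ℝ = 0 := by rw [real_inner_comm]; exact h01
    have hrep : ∀ x ∈ U, x = ⟪u0, x⟫_ℝ • u0 + ⟪u1, x⟫_ℝ • u1 := by
      intro x hx
      have h := B.sum_repr' ⟨x, hx⟩
      rw [Fin.sum_univ_two] at h
      have h' := congrArg Subtype.val h
      simp only [Submodule.coe_add, Submodule.coe_smul, Submodule.coe_inner] at h'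
      exact h'.symm
    have hA0 : ∀ A ∈ H, A u0 = ⟪A u0, u1⟫_ℝ • u1 := by
      intro A hA
      have h := hrep (A u0) (hU.2.1 A hA u0 hu0)
      rw [real_inner_comm (A u0) u0, hskew0 A hA u0, zero_smul, zero_add,
        real_inner_comm (A u0) u1] at h
      exact h
    have hA1 : ∀ A ∈ H, A u1 = -(⟪A u0, u1⟫_ℝ • u0) := by
      intro A hA
      have h := hrep (A u1) (hU.2.1 A hA u1 hu1)
      rw [real_inner_comm (A u1) u1, hskew0 A hA u1, zero_smul, add_zero] at h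
      have h2 := hH.skew A hA u0 u1
      rw [h, h2, neg_smul, neg_neg]
    -- induction
    have hinv2 : Inv H (W ⊓ Uᗮ) := by
      intro A hA x hx
      refine ⟨hW A hA x hx.1, ?_⟩
      exact (h1 V H hH).1 U hU.2.1 A hA x hx.2
    have hlt : W ⊓ Uᗮ < W := by
      refine lt_of_le_of_ne inf_le_left fun h => ?_
      have h2 : u0 ∈ W ⊓ Uᗮ := by rw [h]; exact hUW hu0
      have h3 := (Submodule.mem_orthogonal U u0).1 h2.2 u0 hu0
      rw [h00] at h3
      exact one_ne_zero h3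
    have hfin : Module.finrank ℝ (W ⊓ Uᗮ : Submodule ℝ V) < d := by
      rw [← hd]
      exact Submodule.finrank_lt_finrank_of_lt hlt
    obtain ⟨n, f, f', hf, hfW, hform⟩ := ih _ hfin (W ⊓ Uᗮ) rfl hinv2
      (fun U' hU' hI => hirr U' (hU'.trans inf_le_left) hI)
    have hfU : ∀ i, ∀ u ∈ U, ⟪u, f i⟫_ℝ = 0 := fun i u hu =>
      (Submodule.mem_orthogonal U (f i)).1 (hfW i).1.2 u hu
    have hfU' : ∀ i, ∀ u ∈ U, ⟪u, f' i⟫_ℝ = 0 := fun i u hu =>
      (Submodule.mem_orthogonal U (f' i)).1 (hfW i).2.2 u hu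
    have hfUr : ∀ i, ∀ u ∈ U, ⟪f i, u⟫_ℝ = 0 := fun i u hu => by
      rw [real_inner_comm]; exact hfU i u hu
    have hfUr' : ∀ i, ∀ u ∈ U, ⟪f' i, u⟫_ℝ = 0 := fun i u hu => by
      rw [real_inner_comm]; exact hfU' i u hu
    refine ⟨n + 1, Fin.cons u0 f, Fin.cons u1 f', ⟨?_, ?_, ?_⟩, ?_, ?_⟩
    · intro i j
      refine Fin.cases ?_ (fun i => ?_) i <;> refine Fin.cases ?_ (fun j => ?_) j
      · exact h00.trans (if_pos rfl).symm
      · simp [hfU j u0 hu0, (Fin.succ_ne_zero j).symm]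
      · simp [hfUr i u0 hu0]
      · simp [hf.1 i j]
    · intro i j
      refine Fin.cases ?_ (fun i => ?_) i <;> refine Fin.cases ?_ (fun j => ?_) j
      · exact h11.trans (if_pos rfl).symm
      · simp [hfU' j u1 hu1, (Fin.succ_ne_zero j).symm]
      · simp [hfUr' i u1 hu1]
      · simp [hf.2.1 i j]
    · intro i j
      refine Fin.cases ?_ (fun i => ?_) i <;> refine Fin.cases ?_ (fun j => ?_) j
      · simp [h01]
      · simp [hfU' j u0 hu0]
      · simp [hfUr i u1 hu1]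
      · simp [hf.2.2 i j]
    · intro i
      refine Fin.cases ?_ (fun i => ?_) i
      · simp only [Fin.cons_zero]
        exact ⟨hUW hu0, hUW hu1⟩
      · simp only [Fin.cons_succ]
        exact ⟨(hfW i).1.1, (hfW i).2.1⟩
    · intro A hA x hx
      rw [Fin.sum_univ_succ]
      simp only [Fin.cons_zero, Fin.cons_succ]
      set p : V := ⟪u0, x⟫_ℝ • u0 + ⟪u1, x⟫_ℝ • u1 with hp
      have hpU : p ∈ U := U.add_mem (U.smul_mem _ hu0) (U.smul_mem _ hu1)
      have hq : x - p ∈ W ⊓ Uᗮ := by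
        refine ⟨W.sub_mem hx (hUW hpU), (Submodule.mem_orthogonal U _).2 fun y hy => ?_⟩
        rw [hrep y hy, hp]
        simp only [inner_sub_right, inner_add_left, inner_add_right, real_inner_smul_left,
          real_inner_smul_right, h00, h01, h10, h11]
        ring
      have h2 := hform A hA (x - p) hq
      have h3 : ∀ i, ⟪f i, x - p⟫_ℝ = ⟪f i, x⟫_ℝ := fun i => by
        rw [inner_sub_right, hfUr i p hpU, sub_zero]
      have h4 : ∀ i, ⟪f' i, x - p⟫_ℝ = ⟪f' i, x⟫_ℝ := fun i => by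
        rw [inner_sub_right, hfUr' i p hpU, sub_zero]
      simp only [h3, h4] at h2
      rw [← h2]
      have h5 : A x = A p + A (x - p) := by rw [← map_add]; congr 1; abel
      rw [h5]
      congr 1
      rw [hp, map_add, map_smul, map_smul, hA0 A hA, hA1 A hA]
      have h6 : ⟪⟪A u0, u1⟫_ℝ • u1, u1⟫_ℝ = ⟪A u0, u1⟫_ℝ := by
        rw [real_inner_smul_left, h11, mul_one]
      rw [smul_sub, smul_neg, ← sub_eq_add_neg, smul_comm _ ⟪u0, x⟫_ℝ,
        smul_comm _ ⟪u1, x⟫_ℝ]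
      simp only [h6]

/-- **Module AB2.** -/
theorem thm_AB2 (h1 : St_GEN) : GOS.St_AB2 := by
  intro V _ _ _ H hH W hW hirr
  obtain ⟨n, e, e', ho, hm, hf⟩ := ab2_aux h1 V H hH _ W rfl hW hirr
  exact ⟨n, e, e', ho.orthonormal, hm, hf⟩

end GOS
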