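import Pool.Agent.GOS.StA

/-!
# Seven-dimensional g.o. spaces (MP_cdb478_gt): module ABL, the torus case
-/

namespace GOS

open scoped InnerProductSpace

namespace ABL

/-- Step (a): the cubic identity gives a linear form. -/
theorem lem_f {V : Type} [AddCommGroup V] [Module ℝ V] (α β : V →ₗ[ℝ] V →ₗ[ℝ] ℝ)
    (hα : ∀ x y, α x y = α y x) (hβ : ∀ x y, β x y = β y x) (s t : V →ₗ[ℝ] ℝ) (e e' : V)
    (hse : s e = 1) (hse' : s e' = 0) (hte : t e = 0) (hte' : t e' = 1)
    (h : ∀ x, s x * α x x + t x * β x x = 0) :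
    ∃ f : V →ₗ[ℝ] ℝ, ∀ x, α x x = -(f x * t x) ∧ β x x = f x * s x := by
  have expα : ∀ (a c : ℝ) (u : V), α (a • e + c • e' + u) (a • e + c • e' + u) =
      a ^ 2 * α e e + 2 * a * c * α e e' + c ^ 2 * α e' e' + 2 * a * α e u
        + 2 * c * α e' u + α u u := by
    intro a c u
    simp only [map_add, map_smul, LinearMap.add_apply, LinearMap.smul_apply, smul_eq_mul,
      hα e' e, hα u e, hα u e']
    ring
  have expβ : ∀ (a c : ℝ) (u : V), β (a • e + c • e' + u) (a • e + c • e' + u) =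
      a ^ 2 * β e e + 2 * a * c * β e e' + c ^ 2 * β e' e' + 2 * a * β e u
        + 2 * c * β e' u + β u u := by
    intro a c u
    simp only [map_add, map_smul, LinearMap.add_apply, LinearMap.smul_apply, smul_eq_mul,
      hβ e' e, hβ u e, hβ u e']
    ring
  have key : ∀ (a c : ℝ) (u : V), s u = 0 → t u = 0 →
      a * (a ^ 2 * α e e + 2 * a * c * α e e' + c ^ 2 * α e' e' + 2 * a * α e u
        + 2 * c * α e' u + α u u)
      + c * (a ^ 2 * β e e + 2 * a * c * β e e' + c ^ 2 * β e' e' + 2 * a * β e u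
        + 2 * c * β e' u + β u u) = 0 := by
    intro a c u hu hu'
    have h1 := h (a • e + c • e' + u)
    have hs : s (a • e + c • e' + u) = a := by
      simp [hse, hse', hu]
    have ht : t (a • e + c • e' + u) = c := by
      simp [hte, hte', hu']
    rw [expα, expβ, hs, ht] at h1
    exact h1
  refine ⟨(2 : ℝ) • β e - (β e e) • s, fun x => ?_⟩
  obtain ⟨u, hu⟩ : ∃ u, u = x - s x • e - t x • e' := ⟨_, rfl⟩
  have hsu : s u = 0 := by rw [hu]; simp [hse, hse']
  have htu : t u = 0 := by rw [hu]; simp [hte, hte']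
  have hx : x = s x • e + t x • e' + u := by rw [hu]; abel
  have hnu : s (-u) = 0 ∧ t (-u) = 0 := by simp [hsu, htu]
  have z1 := key 1 0 0 (map_zero _) (map_zero _)
  have z2 := key 0 1 0 (map_zero _) (map_zero _)
  have z3 := key 1 1 0 (map_zero _) (map_zero _)
  have z4 := key 1 (-1) 0 (map_zero _) (map_zero _)
  have y1 := key 1 0 u hsu htu
  have y2 := key 1 0 (-u) hnu.1 hnu.2
  have y3 := key 0 1 u hsu htu
  have y4 := key 0 1 (-u) hnu.1 hnu.2
  have y5 := key 1 1 u hsu htu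
  simp only [map_zero, map_neg, LinearMap.neg_apply, neg_neg] at z1 z2 z3 z4 y2 y4
  have a1 : α e e = 0 := by linarith
  have a2 : β e' e' = 0 := by linarith
  have a3 : 2 * α e e' + β e e = 0 := by linarith
  have a4 : α e' e' + 2 * β e e' = 0 := by linarith
  have a5 : α e u = 0 := by linarith
  have a6 : α u u = 0 := by linarith
  have a7 : β e' u = 0 := by linarith
  have a8 : β u u = 0 := by linarith
  have a9 : α e' u + β e u = 0 := by linarith
  have hf : ((2 : ℝ) • β e - (β e e) • s) x =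
      s x * β e e + 2 * t x * β e e' + 2 * β e u := by
    have : β e x = s x * β e e + t x * β e e' + β e u := by
      conv_lhs => rw [hx]
      simp
    simp only [LinearMap.sub_apply, LinearMap.smul_apply, smul_eq_mul, this]
    ring
  have hαx : α x x = (s x) ^ 2 * α e e + 2 * (s x) * (t x) * α e e' + (t x) ^ 2 * α e' e'
      + 2 * (s x) * α e u + 2 * (t x) * α e' u + α u u := by
    have := expα (s x) (t x) u
    rwa [← hx] at this
  have hβx : β x x = (s x) ^ 2 * β e e + 2 * (s x) * (t x) * β e e' + (t x) ^ 2 * β e' e'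
      + 2 * (s x) * β e u + 2 * (t x) * β e' u + β u u := by
    have := expβ (s x) (t x) u
    rwa [← hx] at this
  rw [hf, hαx, hβx]
  constructor
  · linear_combination (s x) ^ 2 * a1 + (s x) * (t x) * a3 + (t x) ^ 2 * a4
      + 2 * (s x) * a5 + 2 * (t x) * a9 + a6
  · linear_combination (t x) ^ 2 * a2 + 2 * (t x) * a7 + a8

end ABL

theorem thm_ABL : St_ABL := by
  intro V _ _ _ H b hsym htan n e e' hon hA
  -- inner products of the family
  have hee : ∀ i j, ⟪e i, e j⟫_ℝ = if i = j then 1 else 0 := by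
    intro i j
    have := orthonormal_iff_ite.mp hon (Sum.inl i) (Sum.inl j)
    simpa using this
  have hee' : ∀ i j, ⟪e i, e' j⟫_ℝ = 0 := by
    intro i j
    have := orthonormal_iff_ite.mp hon (Sum.inl i) (Sum.inr j)
    simpa using this
  have he'e : ∀ i j, ⟪e' i, e j⟫_ℝ = 0 := by
    intro i j
    have := orthonormal_iff_ite.mp hon (Sum.inr i) (Sum.inl j)
    simpa using this
  have he'e' : ∀ i j, ⟪e' i, e' j⟫_ℝ = if i = j then 1 else 0 := by
    intro i j
    have := orthonormal_iff_ite.mp hon (Sum.inr i) (Sum.inr j)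
    simpa using this
  -- components of `A x`
  have hA1 : ∀ A ∈ H, ∀ x i, ⟪e i, A x⟫_ℝ = -(⟪A (e i), e' i⟫_ℝ * ⟪e' i, x⟫_ℝ) := by
    intro A hAH x i
    rw [hA A hAH x, inner_sum]
    rw [Finset.sum_eq_single i]
    · rw [inner_smul_right, inner_sub_right, inner_smul_right, inner_smul_right, hee', hee]
      simp
    · intro j _ hj
      rw [inner_smul_right, inner_sub_right, inner_smul_right, inner_smul_right, hee', hee]
      simp [Ne.symm hj]
    · intro h; exact absurd (Finset.mem_univ i) h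
  have hA2 : ∀ A ∈ H, ∀ x i, ⟪e' i, A x⟫_ℝ = ⟪A (e i), e' i⟫_ℝ * ⟪e i, x⟫_ℝ := by
    intro A hAH x i
    rw [hA A hAH x, inner_sum]
    rw [Finset.sum_eq_single i]
    · rw [inner_smul_right, inner_sub_right, inner_smul_right, inner_smul_right, he'e', he'e]
      simp
    · intro j _ hj
      rw [inner_smul_right, inner_sub_right, inner_smul_right, inner_smul_right, he'e', he'e]
      simp [Ne.symm hj]
    · intro h; exact absurd (Finset.mem_univ i) h
  -- the linear forms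
  have hf : ∀ i, ∃ f : V →ₗ[ℝ] ℝ, ∀ x, ⟪e i, b x x⟫_ℝ = -(f x * ⟪e' i, x⟫_ℝ) ∧
      ⟪e' i, b x x⟫_ℝ = f x * ⟪e i, x⟫_ℝ := by
    intro i
    have := ABL.lem_f (b.compr₂ (innerₗ V (e i))) (b.compr₂ (innerₗ V (e' i)))
      (fun x y => by simp [hsym x y]) (fun x y => by simp [hsym x y])
      (innerₗ V (e i)) (innerₗ V (e' i)) (e i) (e' i)
      (by rw [innerₗ_apply_apply, hee, if_pos rfl]) (by rw [innerₗ_apply_apply, hee'])
      (by rw [innerₗ_apply_apply, he'e]) (by rw [innerₗ_apply_apply, he'e', if_pos rfl])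
      (fun x => by
        obtain ⟨A, hAH, hAx⟩ := htan x
        simp only [LinearMap.compr₂_apply, innerₗ_apply_apply, hAx, hA1 A hAH x i, hA2 A hAH x i]
        ring)
    obtain ⟨f, hf⟩ := this
    exact ⟨f, fun x => by simpa using hf x⟩
  choose f hf using hf
  -- the linear map `A ↦ (λ_i(A))`
  let ℓ : (V →ₗ[ℝ] V) →ₗ[ℝ] (Fin n → ℝ) :=
    LinearMap.pi (fun i => (innerₗ V (e' i)) ∘ₗ (LinearMap.applyₗ (e i)))
  have hℓ : ∀ A i, ℓ A i = ⟪A (e i), e' i⟫_ℝ := by
    intro A i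
    simp [ℓ, real_inner_comm]
  let F : V →ₗ[ℝ] (Fin n → ℝ) := LinearMap.pi f
  have hFapp : ∀ x i, F x i = f i x := fun x i => rfl
  -- good vectors
  have hgood : ∀ x, (∀ i, ⟪e i, x⟫_ℝ ≠ 0) → F x ∈ H.map ℓ := by
    intro x hx
    obtain ⟨A, hAH, hAx⟩ := htan x
    refine ⟨A, hAH, ?_⟩
    funext i
    rw [hℓ, hFapp]
    have h1 := (hf i x).2
    rw [hAx, hA2 A hAH x i] at h1
    exact mul_right_cancel₀ (hx i) h1
  let x₀ : V := ∑ i, e i
  have hx₀ : ∀ i, ⟪e i, x₀⟫_ℝ = 1 := by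
    intro i
    simp [x₀, inner_sum, hee]
  have hF : ∀ y, F y ∈ H.map ℓ := by
    intro y
    let r : ℝ := 1 + ∑ i, |⟪e i, y⟫_ℝ|
    have h1 : F (y + r • x₀) ∈ H.map ℓ := by
      apply hgood
      intro i
      rw [inner_add_right, inner_smul_right, hx₀, mul_one]
      have h2 : |⟪e i, y⟫_ℝ| ≤ ∑ j, |⟪e j, y⟫_ℝ| :=
        Finset.single_le_sum (f := fun j => |⟪e j, y⟫_ℝ|) (fun j _ => abs_nonneg _)
          (Finset.mem_univ i)
      have h3 := neg_abs_le (⟪e i, y⟫_ℝ)
      have : 0 < ⟪e i, y⟫_ℝ + r := by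
        simp only [r]; linarith
      exact ne_of_gt this
    have h2 : F x₀ ∈ H.map ℓ := by
      apply hgood
      intro i
      rw [hx₀]; exact one_ne_zero
    have h3 : F y = F (y + r • x₀) - r • F x₀ := by
      rw [map_add, map_smul]; abel
    rw [h3]
    exact Submodule.sub_mem _ h1 (Submodule.smul_mem _ _ h2)
  -- the right inverse
  let ℓH : H →ₗ[ℝ] (H.map ℓ) :=
    LinearMap.codRestrict (H.map ℓ) (ℓ ∘ₗ H.subtype) (fun A => ⟨A.1, A.2, rfl⟩)
  have hsurj : LinearMap.range ℓH = ⊤ := by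
    rw [LinearMap.range_eq_top]
    rintro ⟨v, A, hAH, hv⟩
    refine ⟨⟨A, hAH⟩, ?_⟩
    apply Subtype.ext
    exact hv
  obtain ⟨g, hg⟩ := LinearMap.exists_rightInverse_of_surjective ℓH hsurj
  have hg' : ∀ v : H.map ℓ, ℓ (g v).1 = v.1 := by
    intro v
    have := congrArg (fun T => (T v).1) hg
    exact this
  let Fc : V →ₗ[ℝ] (H.map ℓ) := LinearMap.codRestrict (H.map ℓ) F hF
  refine ⟨H.subtype ∘ₗ g ∘ₗ Fc, fun x => ?_, fun x => ?_⟩
  · exact (g (Fc x)).2
  · obtain ⟨A, hAH, hAx⟩ := htan x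
    have hφ : (H.subtype ∘ₗ g ∘ₗ Fc) x ∈ H := (g (Fc x)).2
    have hφi : ∀ i, ⟪(H.subtype ∘ₗ g ∘ₗ Fc) x (e i), e' i⟫_ℝ = f i x := by
      intro i
      rw [← hℓ]
      have := congrFun (hg' (Fc x)) i
      exact this
    rw [hA _ hφ x, hAx, hA A hAH x]
    refine Finset.sum_congr rfl (fun i _ => ?_)
    rw [hφi i]
    have h1 := (hf i x).1
    have h2 := (hf i x).2
    rw [hAx, hA1 A hAH x i] at h1
    rw [hAx, hA2 A hAH x i] at h2
    rw [smul_sub, smul_sub, smul_smul, smul_smul, smul_smul, smul_smul, h2]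
    have h1' : ⟪A (e i), e' i⟫_ℝ * ⟪e' i, x⟫_ℝ = f i x * ⟪e' i, x⟫_ℝ := by linarith
    rw [h1']

end GOS
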