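import Pool.Agent.GOS.StB

/-!
# Module AS1: assembly of the first part (helper56)
-/

namespace GOS

open scoped InnerProductSpace Quaternion

theorem thm_AS1 (h1 : St_CPL) (h2 : St_TRN) (h3 : St_AVL) (h4 : St_EXN) (h5 : St_T1)
    (h6 : St_CIR) (h7 : St_QLI) : St_AS1 := by
  intro g _ _ _ k B hM hE hGO hdim
  obtain ⟨m, hR⟩ := h1 g k B hM hE
  have hm : Module.finrank ℝ m = 7 := by
    have e1 := Submodule.finrank_add_eq_of_isCompl hR.isCompl
    have e2 : Module.finrank ℝ k.toSubmodule = Module.finrank ℝ k := rfl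
    omega
  have hAct : Act B k.toSubmodule m := by
    refine ⟨hM.symm, fun X hX h0 => ?_, fun A hA A' hA' => k.lie_mem hA hA', hR.inv,
      fun A hA => hM.inv A hA⟩
    refine hM.pos X fun hk => h0 ?_
    exact (Submodule.mem_bot ℝ).mp (hR.isCompl.disjoint.le_bot ⟨hk, hX⟩)
  have hGOW : GOW B k.toSubmodule m := by
    intro X hX
    obtain ⟨A, hA, h⟩ := hGO X
    refine ⟨-A, k.toSubmodule.neg_mem hA, fun Y hY => ?_⟩
    have e1 := h Y
    rw [add_lie, map_add, LinearMap.add_apply] at e1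
    have e2 := hM.inv A hA X Y
    have e3 := hM.symm X ⁅A, Y⁆
    have e4 : B ⁅Y, X⁆ X = -B ⁅X, Y⁆ X := by
      rw [← lie_skew, map_neg, LinearMap.neg_apply]
    have e5 : B ⁅-A, X⁆ Y = -B ⁅A, X⁆ Y := by
      rw [neg_lie, map_neg, LinearMap.neg_apply]
    rw [e4, e5]
    linarith
  obtain ⟨ι, H, b, hF⟩ := h2 g B k.toSubmodule m hAct hGOW
  have hV : Module.finrank ℝ (EuclideanSpace ℝ (Fin (Module.finrank ℝ m))) = 7 := by
    rw [finrank_euclideanSpace_fin, hm]
  rcases h5 _ H b hF.sit hV with hL | hQ | ⟨U, hU, hU5⟩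
  · obtain ⟨φ, f1, f2, f3⟩ := h3 g B k.toSubmodule m hAct hR.neg _ ι H b hF hL
    left
    refine h4 g k B m hM hR.isCompl hR.inv φ 0 0 ?_ ?_ ?_ ?_ f1 f2 ?_ ?_ ?_ ?_
    · intro X Y
      simp
    · intro A _
      rfl
    · intro X _
      exact m.zero_mem
    · intro X Y
      simp
    · intro X _
      simp
    · intro A _ X _
      rfl
    · intro X _
      simp
    · intro X hX Y hY
      rw [f3 X hX Y hY]
      simp
  · right
    exact h7 g _ k B m ι H b hM hE hR hF hV hQ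
  · left
    exact h6 g _ k B m ι H b U hM hE hR hF hV hU hU5

end GOS
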