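import Pool.Agent.GOS.StB

/-!
# Module AVL: from a linear map to an equivariant one
-/

namespace GOS

open scoped InnerProductSpace

namespace AVL

variable {g : Type} [LieRing g] [LieAlgebra ℝ g]
  {V : Type} [NormedAddCommGroup V] [InnerProductSpace ℝ V]

/-- The action of `A` (with operator `T` on `V`) on linear maps `V → g`. -/
def act (A : g) (T : V →ₗ[ℝ] V) (φ : V →ₗ[ℝ] g) : V →ₗ[ℝ] g :=
  (LieAlgebra.ad ℝ g A) ∘ₗ φ - φ ∘ₗ T

theorem act_apply (A : g) (T : V →ₗ[ℝ] V) (φ : V →ₗ[ℝ] g) (x : V) :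
    act A T φ x = ⁅A, φ x⁆ - φ (T x) := rfl

/-- The form `-∑ K(φ eᵢ, ψ eᵢ)`. -/
noncomputable def Q {ι : Type} [Fintype ι] (e : ι → V) : LinearMap.BilinForm ℝ (V →ₗ[ℝ] g) :=
  LinearMap.mk₂ ℝ (fun φ ψ => - ∑ i, killingForm ℝ g (φ (e i)) (ψ (e i)))
    (by intro a b c; simp [Finset.sum_add_distrib]; ring)
    (by intro r a c; simp [Finset.mul_sum])
    (by intro a b c; simp [Finset.sum_add_distrib]; ring)
    (by intro r a c; simp [Finset.mul_sum])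

theorem Q_apply {ι : Type} [Fintype ι] (e : ι → V) (φ ψ : V →ₗ[ℝ] g) :
    Q e φ ψ = - ∑ i, killingForm ℝ g (φ (e i)) (ψ (e i)) := rfl

theorem killing_symm (X Y : g) : killingForm ℝ g X Y = killingForm ℝ g Y X :=
  LieModule.traceForm_comm ℝ g g X Y

theorem killing_inv (A X Y : g) : killingForm ℝ g ⁅A, X⁆ Y = - killingForm ℝ g X ⁅A, Y⁆ := by
  have h := LieModule.traceForm_apply_lie_apply ℝ g g X A Y
  have h2 : (⁅A, X⁆ : g) = -⁅X, A⁆ := (lie_skew A X).symm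
  rw [h2]
  simp only [map_neg, LinearMap.neg_apply]
  exact congrArg Neg.neg h

theorem Q_symm {ι : Type} [Fintype ι] (e : ι → V) (φ ψ : V →ₗ[ℝ] g) : Q e φ ψ = Q e ψ φ := by
  rw [Q_apply, Q_apply]
  congr 1
  exact Finset.sum_congr rfl fun i _ => killing_symm _ _

theorem Q_pos {ι : Type} [Fintype ι] (e : Module.Basis ι ℝ V) {h : Submodule ℝ g}
    (hK : ∀ A ∈ h, A ≠ 0 → killingForm ℝ g A A < 0) (φ : V →ₗ[ℝ] g) (hφ : ∀ x, φ x ∈ h)
    (h0 : Q (e : ι → V) φ φ = 0) : φ = 0 := by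
  have hle : ∀ i, killingForm ℝ g (φ (e i)) (φ (e i)) ≤ 0 := by
    intro i
    by_cases hz : φ (e i) = 0
    · simp [hz]
    · exact (hK _ (hφ _) hz).le
  rw [Q_apply, neg_eq_zero] at h0
  have h1 := (Finset.sum_eq_zero_iff_of_nonpos (fun i _ => hle i)).1 h0
  refine e.ext fun i => ?_
  by_contra hz
  have := hK _ (hφ (e i)) (by simpa using hz)
  have h2 := h1 i (Finset.mem_univ i)
  linarith

theorem Q_skew {ι : Type} [Fintype ι] (e : OrthonormalBasis ι ℝ V) (A : g) (T : V →ₗ[ℝ] V)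
    (hT : ∀ x y : V, ⟪T x, y⟫_ℝ = - ⟪x, T y⟫_ℝ) (φ ψ : V →ₗ[ℝ] g) :
    Q (e : ι → V) (act A T φ) ψ = - Q (e : ι → V) φ (act A T ψ) := by
  have key : ∑ i, killingForm ℝ g (φ (T (e i))) (ψ (e i))
      = - ∑ i, killingForm ℝ g (φ (e i)) (ψ (T (e i))) := by
    have h1 : ∀ i, killingForm ℝ g (φ (T (e i))) (ψ (e i))
        = ∑ j, ⟪e j, T (e i)⟫_ℝ * killingForm ℝ g (φ (e j)) (ψ (e i)) := by
      intro i
      conv_lhs => rw [← e.sum_repr' (T (e i))]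
      simp
    have h2 : ∀ j, killingForm ℝ g (φ (e j)) (ψ (T (e j)))
        = ∑ i, ⟪e i, T (e j)⟫_ℝ * killingForm ℝ g (φ (e j)) (ψ (e i)) := by
      intro j
      conv_lhs => rw [← e.sum_repr' (T (e j))]
      simp
    simp only [h1, h2]
    rw [Finset.sum_comm, ← Finset.sum_neg_distrib]
    refine Finset.sum_congr rfl fun j _ => ?_
    rw [← Finset.sum_neg_distrib]
    refine Finset.sum_congr rfl fun i _ => ?_
    have h3 : ⟪e j, T (e i)⟫_ℝ = - ⟪e i, T (e j)⟫_ℝ := by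
      rw [real_inner_comm, hT]
    rw [h3]; ring
  rw [Q_apply, Q_apply]
  simp only [act_apply, map_sub, LinearMap.sub_apply, Finset.sum_sub_distrib, killing_inv, key,
    Finset.sum_neg_distrib]
  ring

end AVL

open AVL in
theorem thm_AVL : St_AVL := by
  intro g _ _ _ B h W hact hK V _ _ _ ι H b hfr hlin
  obtain ⟨Φ, hΦH, hΦb⟩ := hlin
  have hinj : Function.Injective ι := by
    rw [injective_iff_map_eq_zero]
    intro x hx
    have h1 := hfr.iso x x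
    rw [hx] at h1
    simpa using h1.symm
  obtain ⟨π, hπ⟩ := LinearMap.exists_leftInverse_of_injective ι (LinearMap.ker_eq_bot.2 hinj)
  have hπ' : ∀ x, π (ι x) = x := fun x => by
    have := congrArg (fun f => f x) hπ
    simpa using this
  let e := stdOrthonormalBasis ℝ V
  -- the lift
  have hlift : ∀ x : V, ∃ X ∈ h, ∀ y, ι (Φ x y) = ⁅X, ι y⁆ := fun x => (hfr.mem (Φ x)).1 (hΦH x)
  choose L hLh hL using hlift
  let φ₀ : V →ₗ[ℝ] g := e.toBasis.constr ℝ (fun i => L (e i))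
  have hφ₀h : ∀ x, φ₀ x ∈ h := by
    intro x
    simp only [φ₀, Module.Basis.constr_apply_fintype]
    exact h.sum_mem fun i _ => h.smul_mem _ (hLh _)
  have hφ₀ : ∀ x y, ⁅φ₀ x, ι y⁆ = ι (Φ x y) := by
    intro x y
    have hx : Φ x y = ∑ i, (e.toBasis.equivFun x i) • Φ (e i) y := by
      conv_lhs => rw [← e.toBasis.sum_equivFun x]
      simp
    rw [hx]
    simp only [φ₀, Module.Basis.constr_apply_fintype, map_sum, map_smul, hL, sum_lie]
    refine Finset.sum_congr rfl fun i _ => ?_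
    rw [smul_lie]
  have hpol : ∀ x y, (2 : ℝ) • b x y = Φ x y + Φ y x := by
    intro x y
    have h1 := hΦb (x + y)
    simp only [map_add, LinearMap.add_apply] at h1
    rw [hΦb x, hΦb y, hfr.sit.symm y x] at h1
    have h2 : b x y + b x y = Φ x y + Φ y x := by
      have h3 : Φ x x + b x y + (b x y + Φ y y) = Φ x x + Φ y x + (Φ x y + Φ y y) := h1
      have h4 : (b x y + b x y) + (Φ x x + Φ y y) = (Φ x y + Φ y x) + (Φ x x + Φ y y) := by
        calc (b x y + b x y) + (Φ x x + Φ y y) = Φ x x + b x y + (b x y + Φ y y) := by abel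
          _ = Φ x x + Φ y x + (Φ x y + Φ y y) := h3
          _ = _ := by abel
      exact add_right_cancel h4
    rw [two_smul]; exact h2
  -- the subspace
  let U₀ : Submodule ℝ (V →ₗ[ℝ] g) :=
    { carrier := {φ | (∀ x, φ x ∈ h) ∧ ∀ x, ⁅φ x, ι x⁆ = 0}
      add_mem' := by
        rintro a c ⟨ha, ha'⟩ ⟨hc, hc'⟩
        exact ⟨fun x => h.add_mem (ha x) (hc x), fun x => by
          rw [LinearMap.add_apply, add_lie, ha', hc', add_zero]⟩
      zero_mem' := ⟨fun x => h.zero_mem, fun x => by simp⟩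
      smul_mem' := by
        rintro r a ⟨ha, ha'⟩
        exact ⟨fun x => h.smul_mem _ (ha x), fun x => by
          rw [LinearMap.smul_apply, smul_lie, ha', smul_zero]⟩ }
  have hU₀ : ∀ φ, φ ∈ U₀ ↔ (∀ x, φ x ∈ h) ∧ ∀ x, ⁅φ x, ι x⁆ = 0 := fun φ => Iff.rfl
  have hval : ∀ A ∈ h, ∀ T : V →ₗ[ℝ] V, ∀ φ : V →ₗ[ℝ] g, (∀ x, φ x ∈ h) →
      ∀ x, act A T φ x ∈ h := by
    intro A hA T φ hφ x
    rw [act_apply]
    exact h.sub_mem (hact.hh _ hA _ (hφ x)) (hφ _)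
  have hstab : ∀ A ∈ h, ∀ T ∈ H, (∀ x, ι (T x) = ⁅A, ι x⁆) → ∀ u ∈ U₀, act A T u ∈ U₀ := by
    intro A hA T _ hAT u hu
    obtain ⟨hu1, hu2⟩ := (hU₀ u).1 hu
    refine (hU₀ _).2 ⟨hval A hA T u hu1, fun x => ?_⟩
    have hp : ⁅u x, ι (T x)⁆ + ⁅u (T x), ι x⁆ = 0 := by
      have h1 := hu2 (x + T x)
      simp only [map_add, add_lie, lie_add] at h1
      rw [hu2 x, hu2 (T x)] at h1
      simpa [add_comm] using h1
    rw [act_apply, sub_lie]
    have h2 : ⁅⁅A, u x⁆, ι x⁆ = ⁅A, ⁅u x, ι x⁆⁆ - ⁅u x, ⁅A, ι x⁆⁆ := by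
      rw [leibniz_lie A (u x) (ι x)]; abel
    rw [h2, hu2 x, ← hAT x, lie_zero, zero_sub]
    have h3 : -⁅u x, ι (T x)⁆ - ⁅u (T x), ι x⁆ = -(⁅u x, ι (T x)⁆ + ⁅u (T x), ι x⁆) := by abel
    rw [h3, hp, neg_zero]
  have hstab0 : ∀ A ∈ h, ∀ T ∈ H, (∀ x, ι (T x) = ⁅A, ι x⁆) → act A T φ₀ ∈ U₀ := by
    intro A hA T hT hAT
    refine (hU₀ _).2 ⟨hval A hA T φ₀ hφ₀h, fun x => ?_⟩
    rw [act_apply, sub_lie]
    have h2 : ⁅⁅A, φ₀ x⁆, ι x⁆ = ⁅A, ⁅φ₀ x, ι x⁆⁆ - ⁅φ₀ x, ⁅A, ι x⁆⁆ := by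
      rw [leibniz_lie A (φ₀ x) (ι x)]; abel
    rw [h2, ← hAT x, hφ₀, hφ₀, hφ₀, ← hΦb x, ← hAT]
    have h4 : T (b x x) = Φ x (T x) + Φ (T x) x := by
      rw [hfr.sit.eqv T hT x x, hfr.sit.symm (T x) x, ← hpol x (T x), two_smul]
    rw [h4, map_add]
    abel
  -- the projection
  have hrefl : (Q (g := g) (e : _ → V)).IsRefl := by
    intro x y hxy
    rw [Q_symm]; exact hxy
  have hnd : ((Q (g := g) (e : _ → V)).restrict U₀).Nondegenerate := by
    have hker : ∀ u : U₀, (∀ w : U₀, (Q (g := g) (e : _ → V)).restrict U₀ u w = 0) → u = 0 := by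
      intro u hu
      have h1 := hu u
      have h2 : Q (e : _ → V) u.1 u.1 = 0 := h1
      have h3 := Q_pos e.toBasis hK u.1 ((hU₀ _).1 u.2).1 (by simpa using h2)
      exact Subtype.ext h3
    constructor
    · exact hker
    · intro u hu
      refine hker u fun w => ?_
      have := hu w
      have h5 : Q (e : _ → V) w.1 u.1 = 0 := this
      change Q (e : _ → V) u.1 w.1 = 0
      rw [Q_symm]; exact h5
  have hcompl := LinearMap.BilinForm.isCompl_orthogonal_of_restrict_nondegenerate hrefl hnd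
  obtain ⟨u, hu, φ₁, hφ₁, hsum⟩ : ∃ u ∈ U₀, ∃ φ₁ ∈ (Q (g := g) (e : _ → V)).orthogonal U₀,
      u + φ₁ = φ₀ := by
    have : φ₀ ∈ U₀ ⊔ (Q (g := g) (e : _ → V)).orthogonal U₀ := by
      rw [hcompl.sup_eq_top]; trivial
    exact Submodule.mem_sup.1 this
  have hφ₁eq : φ₁ = φ₀ - u := by rw [← hsum]; abel
  obtain ⟨hu1, hu2⟩ := (hU₀ u).1 hu
  have hφ₁h : ∀ x, φ₁ x ∈ h := by
    intro x
    rw [hφ₁eq, LinearMap.sub_apply]
    exact h.sub_mem (hφ₀h x) (hu1 x)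
  have hφ₁b : ∀ x, ⁅φ₁ x, ι x⁆ = ι (b x x) := by
    intro x
    rw [hφ₁eq, LinearMap.sub_apply, sub_lie, hu2, sub_zero, hφ₀, hΦb]
  have horth : ∀ w ∈ U₀, Q (e : _ → V) w φ₁ = 0 := by
    intro w hw
    exact (LinearMap.BilinForm.mem_orthogonal_iff.1 hφ₁) w hw
  have hequiv : ∀ A ∈ h, ∀ T ∈ H, (∀ x, ι (T x) = ⁅A, ι x⁆) → act A T φ₁ = 0 := by
    intro A hA T hT hAT
    have hmem : act A T φ₁ ∈ U₀ := by
      have h1 : act A T φ₁ = act A T φ₀ - act A T u := by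
        refine LinearMap.ext fun x => ?_
        simp only [act_apply, hφ₁eq, LinearMap.sub_apply, lie_sub]
        abel
      rw [h1]
      exact U₀.sub_mem (hstab0 A hA T hT hAT) (hstab A hA T hT hAT u hu)
    have hz : Q (e : _ → V) (act A T φ₁) (act A T φ₁) = 0 := by
      rw [Q_skew e A T (hfr.sit.skew T hT), Q_symm,
        horth _ (hstab A hA T hT hAT _ hmem), neg_zero]
    exact Q_pos e.toBasis hK _ ((hU₀ _).1 hmem).1 (by simpa using hz)
  refine ⟨φ₁ ∘ₗ π, ?_, ?_, ?_⟩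
  · intro X _
    exact hφ₁h _
  · intro A hA X hX
    obtain ⟨x, rfl⟩ : X ∈ LinearMap.range ι := by rw [hfr.rng]; exact hX
    obtain ⟨T, hT, hAT⟩ := hfr.lift A hA
    rw [← hAT x, LinearMap.comp_apply, LinearMap.comp_apply, hπ', hπ']
    have h1 := congrArg (fun f => f x) (hequiv A hA T hT hAT)
    simp only [act_apply, LinearMap.zero_apply] at h1
    exact (sub_eq_zero.1 h1).symm
  · intro X hX Y hY
    obtain ⟨x, rfl⟩ : X ∈ LinearMap.range ι := by rw [hfr.rng]; exact hX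
    rw [LinearMap.comp_apply, hπ', hφ₁b]
    have h1 := hfr.bdef x x Y hY
    linarith

end GOS
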