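import Pool.Agent.GOS.StC

/-!
# GOS [BSY]: the operator `β = ρ τ`
-/

set_option autoImplicit false

namespace GOS

open scoped InnerProductSpace Quaternion

private theorem BSY_im {a : ℍ} (h : a.re = 0) : a.im = a := by
  ext
  · rw [Quaternion.re_im, h]
  · rfl
  · rfl
  · rfl

private theorem BSY_star {a : ℍ} (h : a.re = 0) : star a = -a := by
  ext
  · rw [Quaternion.re_star, Quaternion.re_neg, h, neg_zero]
  · rfl
  · rfl
  · rfl

/-- the Jacobi identity for `E p, E q, E 1` -/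
private theorem BSY_master {g : Type} [LieRing g] [LieAlgebra ℝ g] {k : LieSubalgebra ℝ g}
    {B : g →ₗ[ℝ] g →ₗ[ℝ] ℝ} {c h W : Submodule ℝ g} {σ E τ : ℍ →ₗ[ℝ] g} {ρ : g →ₗ[ℝ] ℍ}
    {lam : ℝ} (hQ : QD k B c h W σ E τ ρ lam) (p q : ℍ) (hp : p.re = 0) (hq : q.re = 0) :
    ρ (τ (p * q)) + lam • (p * q).im + p * ρ (τ q) - lam • (q * p) - q * ρ (τ p) +
      lam • (p * q) = 0 := by
  have hinj : ∀ x, E x = 0 → x = 0 := by
    intro x hx
    exact (hQ.ind 0 x 0 c.zero_mem (by rw [map_zero, hx, zero_add, add_zero])).2.1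
  have hbr : ∀ x y z, ⁅⁅E x, E y⁆, E z⁆ =
      E (-(z * ρ (τ (star x * y))) - lam • ((x * star y).im * z)) := by
    intro x y z
    rw [hQ.EEb, sub_lie, smul_lie, hQ.cE _ (hQ.τc _), hQ.σE, map_sub, map_neg, map_smul]
  have hJ : ⁅⁅E p, E q⁆, E 1⁆ + ⁅⁅E q, E 1⁆, E p⁆ + ⁅⁅E 1, E p⁆, E q⁆ = 0 := by
    have h := lie_jacobi (E p) (E q) (E 1)
    rw [← neg_eq_zero] at h
    rw [← lie_skew ⁅E p, E q⁆ (E 1), ← lie_skew ⁅E q, E 1⁆ (E p), ← lie_skew ⁅E 1, E p⁆ (E q), ← h]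
    abel
  rw [hbr, hbr, hbr, ← map_add, ← map_add] at hJ
  have h1 := hinj _ hJ
  simp only [BSY_star hp, BSY_star hq, star_one, one_mul, mul_one, map_neg, Quaternion.im_neg,
    BSY_im hp, BSY_im hq, neg_mul, mul_neg, smul_neg, neg_neg, sub_neg_eq_add] at h1
  rw [← h1]
  abel

/-- [BSY] -/
theorem thm_BSY : St_BSY := by
  intro g _ _ _ k B c h W σ E τ ρ lam hQ
  have hre : ∀ p, (ρ (τ p)).re = 0 := fun p => hQ.ρre _ (hQ.τc p)
  refine ⟨fun p q hp hq => ?_, ?_, fun p q hp hq => ?_⟩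
  · have h1 := congrArg (fun x : ℍ => x.re) (BSY_master hQ p q hp hq)
    have h2 := hre (p * q)
    have h3 := hre p
    have h4 := hre q
    simp only [Quaternion.re_add, Quaternion.re_sub, Quaternion.re_smul, Quaternion.re_im,
      Quaternion.re_mul, Quaternion.re_zero, smul_eq_mul, h2, h3, h4, hp, hq] at h1
    rw [Quaternion.inner_def, Quaternion.inner_def, BSY_star hq, BSY_star (hre q)]
    simp only [Quaternion.re_mul, Quaternion.re_neg, Quaternion.imI_neg, Quaternion.imJ_neg,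
      Quaternion.imK_neg, h3, h4, hp, hq]
    linarith
  · obtain ⟨I, hI⟩ : ∃ I : ℍ, I = ⟨0, 1, 0, 0⟩ := ⟨_, rfl⟩
    obtain ⟨J, hJ⟩ : ∃ J : ℍ, J = ⟨0, 0, 1, 0⟩ := ⟨_, rfl⟩
    obtain ⟨K, hK⟩ : ∃ K : ℍ, K = ⟨0, 0, 0, 1⟩ := ⟨_, rfl⟩
    have hij : I * J = K := by
      ext
      · rw [Quaternion.re_mul, hI, hJ, hK]; norm_num
      · rw [Quaternion.imI_mul, hI, hJ, hK]; norm_num
      · rw [Quaternion.imJ_mul, hI, hJ, hK]; norm_num
      · rw [Quaternion.imK_mul, hI, hJ, hK]; norm_num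
    have hI0 : I.re = 0 := by rw [hI]
    have hI1 : I.imI = 1 := by rw [hI]
    have hI2 : I.imJ = 0 := by rw [hI]
    have hI3 : I.imK = 0 := by rw [hI]
    have hJ0 : J.re = 0 := by rw [hJ]
    have hJ1 : J.imI = 0 := by rw [hJ]
    have hJ2 : J.imJ = 1 := by rw [hJ]
    have hJ3 : J.imK = 0 := by rw [hJ]
    have hK3 : K.imK = 1 := by rw [hK]
    rw [← hI, ← hJ, ← hK]
    have h1 := congrArg (fun x : ℍ => x.imK) (BSY_master hQ I J hI0 hJ0)
    rw [hij] at h1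
    simp only [Quaternion.imK_add, Quaternion.imK_sub, Quaternion.imK_smul, Quaternion.imK_im,
      Quaternion.imK_mul, Quaternion.imK_zero, smul_eq_mul, hI0, hI1, hI2, hI3, hJ0, hJ1, hJ2,
      hJ3, hK3] at h1
    linarith
  · have h1 := hQ.cτ (τ q) (hQ.τc q) p hp
    have h2 := hQ.cτ (τ p) (hQ.τc p) q hq
    rw [map_add, ← h1, ← h2, ← lie_skew (τ q) (τ p), neg_add_cancel]

end GOS
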