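import Pool.Agent.GOS.StB

/-!
# GOS, module CIR: an irreducible subspace of dimension at least 5
-/

set_option autoImplicit false

namespace GOS

open scoped InnerProductSpace Quaternion

namespace Cirx

theorem natRed_of_zero (h5 : St_EXN) {g : Type} [LieRing g] [LieAlgebra ℝ g]
    [FiniteDimensional ℝ g] {V : Type} [NormedAddCommGroup V] [InnerProductSpace ℝ V]
    {k : LieSubalgebra ℝ g} {B : g →ₗ[ℝ] g →ₗ[ℝ] ℝ} {m : Submodule ℝ g} {ι : V →ₗ[ℝ] g}
    {H : Submodule ℝ (V →ₗ[ℝ] V)} {b : V →ₗ[ℝ] V →ₗ[ℝ] V}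
    (hm : IsModel k B) (hr : Red k m) (hf : Fr B k.toSubmodule m ι H b)
    (hb : ∀ x, b x x = 0) : NatRed k B := by
  refine h5 g k B m hm hr.isCompl hr.inv 0 0 0 ?_ ?_ ?_ ?_ ?_ ?_ ?_ ?_ ?_ ?_
  · intro X Y
    simp
  · intro A _
    simp
  · intro X _
    simp
  · intro X Y
    simp
  · intro X _
    simp
  · intro A _ X _
    simp
  · intro X _
    simp
  · intro A _ X _
    simp
  · intro X _
    simp
  · intro X hX Y hY
    rw [← hf.rng] at hX
    obtain ⟨x, rfl⟩ := hX
    have h := hf.bdef x x Y hY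
    rw [hb x] at h
    have h' : B (ι (0 : V)) Y = 0 := by simp
    rw [h'] at h
    simp only [LinearMap.zero_apply, zero_lie, map_zero, zero_mul, add_zero]
    linarith

end Cirx

/-- **Module CIR.** -/
theorem thm_CIR (h1 : St_KIR) (h2 : St_D5V) (h3 : St_D6V) (h4 : St_D6D) (h5 : St_EXN) :
    St_CIR := by
  intro g _ _ _ V _ _ _ k B m ι H b U hm he hr hf hd hI hU5
  -- injectivity
  have hinj : Function.Injective ι := by
    rw [injective_iff_map_eq_zero]
    intro x hx
    have h := hf.iso x x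
    rw [hx] at h
    have h' : B (0 : g) (0 : g) = 0 := by simp
    rw [h'] at h
    exact inner_self_eq_zero.1 h.symm
  have hιm : ∀ x, ι x ∈ m := by
    intro x
    rw [← hf.rng]
    exact LinearMap.mem_range_self ι x
  have hm7 : Module.finrank ℝ m = 7 := by
    rw [← hf.rng, LinearMap.finrank_range_of_inj hinj, hd]
  have hmap : Module.finrank ℝ (U.map ι) = Module.finrank ℝ U :=
    (Submodule.equivMapOfInjective ι hinj U).finrank_eq.symm
  have hle : U.map ι ≤ m := by
    rintro _ ⟨u, _, rfl⟩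
    exact hιm u
  have hirr : IrrK k (U.map ι) := by
    refine ⟨?_, ?_, ?_⟩
    · intro h0
      apply hI.1
      rw [Submodule.eq_bot_iff]
      intro u hu
      have h6 : ι u ∈ U.map ι := Submodule.mem_map_of_mem hu
      rw [h0, Submodule.mem_bot] at h6
      exact hinj (h6.trans (map_zero ι).symm)
    · rintro A hA _ ⟨u, hu, rfl⟩
      obtain ⟨A', hA', hl⟩ := hf.lift A hA
      rw [← hl u]
      exact Submodule.mem_map_of_mem (hI.2.1 A' hA' u hu)
    · intro W hW hinv
      have h6 := hI.2.2 (W.comap ι ⊓ U) inf_le_right (by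
        intro A hA x hx
        obtain ⟨X, hX, hl⟩ := (hf.mem A).1 hA
        refine ⟨?_, hI.2.1 A hA x hx.2⟩
        show ι (A x) ∈ W
        rw [hl x]
        exact hinv X hX (ι x) hx.1)
      rcases h6 with h6 | h6
      · left
        rw [Submodule.eq_bot_iff]
        intro w hw
        obtain ⟨u, hu, rfl⟩ := hW hw
        have h7 : u ∈ W.comap ι ⊓ U := ⟨hw, hu⟩
        rw [h6, Submodule.mem_bot] at h7
        rw [h7, map_zero]
      · right
        refine le_antisymm hW ?_
        rintro _ ⟨u, hu, rfl⟩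
        have h7 : u ∈ W.comap ι ⊓ U := by
          rw [h6]
          exact hu
        exact h7.1
  obtain ⟨hA, hB⟩ := h1 g k B m hm hr hm7 (U.map ι) hle hirr (by rw [hmap]; exact hU5)
  have hbU : ∀ x ∈ U, b x x = 0 := by
    intro x hx
    obtain ⟨A, hAH, hAx⟩ := hf.sit.tan x
    have hmem : b x x ∈ U := by
      rw [hAx]
      exact hI.2.1 A hAH x hx
    have h6 : ∀ z ∈ U, ⟪b x x, z⟫_ℝ = 0 := by
      intro z hz
      have h7 := hf.bdef x x (ι z) (hιm z)
      rw [hA (ι x) (Submodule.mem_map_of_mem hx) (ι z) (Submodule.mem_map_of_mem hz), hf.iso] at h7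
      linarith
    exact inner_self_eq_zero.1 (h6 _ hmem)
  have hU7 : Module.finrank ℝ U ≤ 7 := by
    rw [← hd]
    exact Submodule.finrank_le U
  obtain h7 | h7 | h7 : Module.finrank ℝ U = 5 ∨ Module.finrank ℝ U = 6 ∨
      Module.finrank ℝ U = 7 := by omega
  · exact Cirx.natRed_of_zero h5 hm hr hf (h2 V H b hf.sit hd U hI h7 hbU)
  · rcases h3 V H b hf.sit hd U hI h7 hbU with h8 | ⟨J, t, c, hc, ht1, htU, hJt, hJU, hJs, hJH,
      hHt, hbf⟩
    · exact Cirx.natRed_of_zero h5 hm hr hf h8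
    · refine h4 g V k B m ι H b U J t c
        { model := hm, effp := he, red := hr, fr := hf, dimV := hd, irr := hI, dimU := h7,
          alt := ?_, ort := ?_, c0 := hc, t1 := ht1, tU := htU, Jt := hJt, JU := hJU,
          Jskew := hJs, JH := hJH, Ht := hHt, bf := hbf }
      · intro x hx y hy
        exact hA (ι x) (Submodule.mem_map_of_mem hx) (ι y) (Submodule.mem_map_of_mem hy)
      · intro x hx y hy
        refine hB (ι x) (Submodule.mem_map_of_mem hx) (ι y) (hιm y) ?_
        rintro _ ⟨u, hu, rfl⟩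
        rw [hf.iso]
        exact (Submodule.mem_orthogonal U y).1 hy u hu
  · refine Cirx.natRed_of_zero h5 hm hr hf ?_
    intro x
    have h8 : U = ⊤ := Submodule.eq_top_of_finrank_eq (by rw [h7, hd])
    exact hbU x (by rw [h8]; exact Submodule.mem_top)

end GOS
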