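import Pool.Agent.GOS.StB

/-!
# GOS/CPL: the Killing-orthogonal complement (helper42, after the plan of helper15)
-/

set_option autoImplicit false

namespace GOS

theorem thm_CPL (h1 : St_KND) : St_CPL := by
  intro g _ _ _ k B hB hE
  have hneg := h1 g k B hB hE
  have hrefl : (killingForm ℝ g).IsRefl := (LieModule.traceForm_isSymm ℝ g g).isRefl
  refine ⟨LinearMap.BilinForm.orthogonal (killingForm ℝ g) k.toSubmodule, hneg, ?_, ?_, ?_⟩
  · refine LinearMap.BilinForm.isCompl_orthogonal_of_restrict_nondegenerate hrefl ?_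
    refine ⟨?_, ?_⟩
    · intro A hA
      by_contra hne
      have h2 : (A : g) ≠ 0 := fun h => hne (Subtype.ext h)
      exact absurd (hA A) (ne_of_lt (hneg A A.2 h2))
    · intro A hA
      by_contra hne
      have h2 : (A : g) ≠ 0 := fun h => hne (Subtype.ext h)
      exact absurd (hA A) (ne_of_lt (hneg A A.2 h2))
  · intro A hA X hX
    rw [LinearMap.BilinForm.mem_orthogonal_iff] at hX ⊢
    intro A' hA'
    have h := hX ⁅A', A⁆ (k.lie_mem hA' hA)
    show killingForm ℝ g A' ⁅A, X⁆ = 0
    rw [← LieModule.traceForm_apply_lie_apply]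
    exact h
  · intro A hA X hX
    rw [LinearMap.BilinForm.mem_orthogonal_iff] at hX
    exact hX A hA

end GOS
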