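import Pool.Agent.GOS.StC

namespace GOS

open scoped InnerProductSpace Quaternion

namespace CV1x

/-- The imaginary quaternions. -/
def ImH : Submodule ℝ ℍ where
  carrier := {a | a.re = 0}
  add_mem' := by
    intro a b ha hb
    change (a + b).re = 0
    rw [Quaternion.re_add]
    change a.re = 0 at ha
    change b.re = 0 at hb
    rw [ha, hb, add_zero]
  zero_mem' := rfl
  smul_mem' := by
    intro t a ha
    change (t • a).re = 0
    change a.re = 0 at ha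
    rw [Quaternion.re_smul, ha, smul_zero]

theorem mem_ImH (a : ℍ) : a ∈ ImH ↔ a.re = 0 := Iff.rfl

variable (τ : ℍ →ₗ[ℝ] EuclideanSpace ℝ (Fin 3))

/-- The semidirect product of `Im ℍ` and `Nil τ`. -/
def G (_τ : ℍ →ₗ[ℝ] EuclideanSpace ℝ (Fin 3)) : Type := ImH × ℍ × EuclideanSpace ℝ (Fin 3)

noncomputable instance : AddCommGroup (G τ) :=
  inferInstanceAs (AddCommGroup (ImH × ℍ × EuclideanSpace ℝ (Fin 3)))

noncomputable instance : Module ℝ (G τ) :=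
  inferInstanceAs (Module ℝ (ImH × ℍ × EuclideanSpace ℝ (Fin 3)))

instance : FiniteDimensional ℝ (G τ) :=
  inferInstanceAs (FiniteDimensional ℝ (ImH × ℍ × EuclideanSpace ℝ (Fin 3)))

/-- Commutator in `Im ℍ`. -/
noncomputable def cm (a b : ImH) : ImH :=
  ⟨a.1 * b.1 - b.1 * a.1, by
    rw [mem_ImH]
    simp only [Quaternion.re_sub, Quaternion.re_mul]
    ring⟩

noncomputable instance : Bracket (G τ) (G τ) where
  bracket := fun X Y => (cm X.1 Y.1, X.1.1 * Y.2.1 - Y.1.1 * X.2.1,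
    τ (Nil.imL (star X.2.1 * Y.2.1)))

theorem im_swap (x y c : ℍ) (hc : c.re = 0) :
    Nil.imL (star x * (c * y)) = Nil.imL (star y * (c * x)) := by
  change (star x * (c * y)).im = (star y * (c * x)).im
  ext <;> simp [hc] <;> ring

noncomputable instance : LieRing (G τ) where
  add_lie := by
    intro X Y Z
    refine Prod.ext (Subtype.ext ?_) (Prod.ext ?_ ?_)
    · change (X.1.1 + Y.1.1) * Z.1.1 - Z.1.1 * (X.1.1 + Y.1.1) =
        (X.1.1 * Z.1.1 - Z.1.1 * X.1.1) + (Y.1.1 * Z.1.1 - Z.1.1 * Y.1.1)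
      noncomm_ring
    · change (X.1.1 + Y.1.1) * Z.2.1 - Z.1.1 * (X.2.1 + Y.2.1) =
        (X.1.1 * Z.2.1 - Z.1.1 * X.2.1) + (Y.1.1 * Z.2.1 - Z.1.1 * Y.2.1)
      noncomm_ring
    · change τ (Nil.imL (star (X.2.1 + Y.2.1) * Z.2.1)) = τ (Nil.imL (star X.2.1 * Z.2.1)) +
        τ (Nil.imL (star Y.2.1 * Z.2.1))
      rw [star_add, add_mul, map_add, map_add]
  lie_add := by
    intro X Y Z
    refine Prod.ext (Subtype.ext ?_) (Prod.ext ?_ ?_)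
    · change X.1.1 * (Y.1.1 + Z.1.1) - (Y.1.1 + Z.1.1) * X.1.1 =
        (X.1.1 * Y.1.1 - Y.1.1 * X.1.1) + (X.1.1 * Z.1.1 - Z.1.1 * X.1.1)
      noncomm_ring
    · change X.1.1 * (Y.2.1 + Z.2.1) - (Y.1.1 + Z.1.1) * X.2.1 =
        (X.1.1 * Y.2.1 - Y.1.1 * X.2.1) + (X.1.1 * Z.2.1 - Z.1.1 * X.2.1)
      noncomm_ring
    · change τ (Nil.imL (star X.2.1 * (Y.2.1 + Z.2.1))) = τ (Nil.imL (star X.2.1 * Y.2.1)) +
        τ (Nil.imL (star X.2.1 * Z.2.1))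
      rw [mul_add, map_add, map_add]
  lie_self := by
    intro X
    refine Prod.ext (Subtype.ext ?_) (Prod.ext ?_ ?_)
    · change X.1.1 * X.1.1 - X.1.1 * X.1.1 = 0
      rw [sub_self]
    · change X.1.1 * X.2.1 - X.1.1 * X.2.1 = 0
      rw [sub_self]
    · change τ (Nil.imL (star X.2.1 * X.2.1)) = 0
      have h : Nil.imL (star X.2.1 * X.2.1) = 0 := by
        ext <;> simp [Nil.imL] <;> ring
      rw [h, map_zero]
  leibniz_lie := by
    intro X Y Z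
    refine Prod.ext (Subtype.ext ?_) (Prod.ext ?_ ?_)
    · change X.1.1 * (Y.1.1 * Z.1.1 - Z.1.1 * Y.1.1) - (Y.1.1 * Z.1.1 - Z.1.1 * Y.1.1) * X.1.1 =
        ((X.1.1 * Y.1.1 - Y.1.1 * X.1.1) * Z.1.1 - Z.1.1 * (X.1.1 * Y.1.1 - Y.1.1 * X.1.1)) +
        (Y.1.1 * (X.1.1 * Z.1.1 - Z.1.1 * X.1.1) - (X.1.1 * Z.1.1 - Z.1.1 * X.1.1) * Y.1.1)
      noncomm_ring
    · change X.1.1 * (Y.1.1 * Z.2.1 - Z.1.1 * Y.2.1) - (Y.1.1 * Z.1.1 - Z.1.1 * Y.1.1) * X.2.1 =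
        ((X.1.1 * Y.1.1 - Y.1.1 * X.1.1) * Z.2.1 - Z.1.1 * (X.1.1 * Y.2.1 - Y.1.1 * X.2.1)) +
        (Y.1.1 * (X.1.1 * Z.2.1 - Z.1.1 * X.2.1) - (X.1.1 * Z.1.1 - Z.1.1 * X.1.1) * Y.2.1)
      noncomm_ring
    · change τ (Nil.imL (star X.2.1 * (Y.1.1 * Z.2.1 - Z.1.1 * Y.2.1))) =
        τ (Nil.imL (star (X.1.1 * Y.2.1 - Y.1.1 * X.2.1) * Z.2.1)) +
        τ (Nil.imL (star Y.2.1 * (X.1.1 * Z.2.1 - Z.1.1 * X.2.1)))
      rw [← map_add, ← map_add]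
      congr 1
      have hX : star X.1.1 = - X.1.1 := by
        have := (mem_ImH _).mp X.1.2
        ext <;> simp [this]
      have hY : star Y.1.1 = - Y.1.1 := by
        have := (mem_ImH _).mp Y.1.2
        ext <;> simp [this]
      have e1 : star (X.1.1 * Y.2.1 - Y.1.1 * X.2.1) * Z.2.1 +
          star Y.2.1 * (X.1.1 * Z.2.1 - Z.1.1 * X.2.1) =
          star X.2.1 * (Y.1.1 * Z.2.1) - star Y.2.1 * (Z.1.1 * X.2.1) := by
        rw [star_sub, star_mul, star_mul, hX, hY]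
        noncomm_ring
      rw [e1, mul_sub, map_sub, map_sub, im_swap X.2.1 Y.2.1 Z.1.1 ((mem_ImH _).mp Z.1.2)]

noncomputable instance : LieAlgebra ℝ (G τ) where
  lie_smul := by
    intro t X Y
    refine Prod.ext (Subtype.ext ?_) (Prod.ext ?_ ?_)
    · change X.1.1 * (t • Y.1.1) - (t • Y.1.1) * X.1.1 = t • (X.1.1 * Y.1.1 - Y.1.1 * X.1.1)
      rw [mul_smul_comm, smul_mul_assoc, smul_sub]
    · change X.1.1 * (t • Y.2.1) - (t • Y.1.1) * X.2.1 = t • (X.1.1 * Y.2.1 - Y.1.1 * X.2.1)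
      rw [mul_smul_comm, smul_mul_assoc, smul_sub]
    · change τ (Nil.imL (star X.2.1 * (t • Y.2.1))) = t • τ (Nil.imL (star X.2.1 * Y.2.1))
      rw [mul_smul_comm, map_smul, map_smul]

theorem br (X Y : G τ) : ⁅X, Y⁆ = (cm X.1 Y.1, X.1.1 * Y.2.1 - Y.1.1 * X.2.1,
    τ (Nil.imL (star X.2.1 * Y.2.1))) := rfl

/-- The isotropy algebra. -/
noncomputable def K : LieSubalgebra ℝ (G τ) where
  carrier := {X | X.2.1 = 0 ∧ X.2.2 = 0}
  add_mem' := by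
    rintro X Y ⟨h1, h2⟩ ⟨h3, h4⟩
    refine ⟨?_, ?_⟩
    · change X.2.1 + Y.2.1 = 0
      rw [h1, h3, add_zero]
    · change X.2.2 + Y.2.2 = 0
      rw [h2, h4, add_zero]
  zero_mem' := ⟨rfl, rfl⟩
  smul_mem' := by
    rintro t X ⟨h1, h2⟩
    refine ⟨?_, ?_⟩
    · change t • X.2.1 = 0
      rw [h1, smul_zero]
    · change t • X.2.2 = 0
      rw [h2, smul_zero]
  lie_mem' := by
    rintro X Y ⟨h1, h2⟩ ⟨h3, h4⟩
    refine ⟨?_, ?_⟩
    · change X.1.1 * Y.2.1 - Y.1.1 * X.2.1 = 0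
      rw [h1, h3, mul_zero, mul_zero, sub_zero]
    · change τ (Nil.imL (star X.2.1 * Y.2.1)) = 0
      rw [h3, mul_zero, map_zero, map_zero]

theorem mem_K (X : G τ) : X ∈ K τ ↔ X.2.1 = 0 ∧ X.2.2 = 0 := Iff.rfl

/-- The form. -/
noncomputable def Bf : G τ →ₗ[ℝ] G τ →ₗ[ℝ] ℝ :=
  LinearMap.mk₂ ℝ (fun X Y : G τ => ⟪X.2.1, Y.2.1⟫_ℝ + ⟪X.2.2, Y.2.2⟫_ℝ)
    (by intro X Y Z
        change ⟪X.2.1 + Y.2.1, Z.2.1⟫_ℝ + ⟪X.2.2 + Y.2.2, Z.2.2⟫_ℝ = _
        rw [inner_add_left, inner_add_left]; ring)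
    (by intro t X Y
        change ⟪t • X.2.1, Y.2.1⟫_ℝ + ⟪t • X.2.2, Y.2.2⟫_ℝ = _
        rw [real_inner_smul_left, real_inner_smul_left, smul_eq_mul]; ring)
    (by intro X Y Z
        change ⟪X.2.1, Y.2.1 + Z.2.1⟫_ℝ + ⟪X.2.2, Y.2.2 + Z.2.2⟫_ℝ = _
        rw [inner_add_right, inner_add_right]; ring)
    (by intro t X Y
        change ⟪X.2.1, t • Y.2.1⟫_ℝ + ⟪X.2.2, t • Y.2.2⟫_ℝ = _
        rw [real_inner_smul_right, real_inner_smul_right, smul_eq_mul]; ring)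

theorem Bf_apply (X Y : G τ) : Bf τ X Y = ⟪X.2.1, Y.2.1⟫_ℝ + ⟪X.2.2, Y.2.2⟫_ℝ := rfl

/-- The complement. -/
noncomputable def M : Submodule ℝ (G τ) where
  carrier := {X | X.1 = 0}
  add_mem' := by
    intro X Y h1 h2
    change X.1 + Y.1 = 0
    change X.1 = 0 at h1
    change Y.1 = 0 at h2
    rw [h1, h2, add_zero]
  zero_mem' := rfl
  smul_mem' := by
    intro t X h1
    change t • X.1 = 0
    change X.1 = 0 at h1
    rw [h1, smul_zero]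

theorem mem_M (X : G τ) : X ∈ M τ ↔ X.1 = 0 := Iff.rfl

theorem inn (p q : ℍ) :
    ⟪p, q⟫_ℝ = p.re * q.re + p.imI * q.imI + p.imJ * q.imJ + p.imK * q.imK := by
  rw [Quaternion.inner_def]; simp

theorem skew_left (a x y : ℍ) (ha : a.re = 0) : ⟪a * x, y⟫_ℝ = - ⟪x, a * y⟫_ℝ := by
  rw [inn, inn]
  simp [ha]
  ring

theorem isCompl_KM : IsCompl (K τ).toSubmodule (M τ) := by
  constructor
  · rw [Submodule.disjoint_def]
    intro X h1 h2
    obtain ⟨h3, h4⟩ := h1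
    exact Prod.ext h2 (Prod.ext h3 h4)
  · rw [codisjoint_iff, eq_top_iff]
    intro X _
    have : X = ((X.1, 0, 0) : G τ) + ((0, X.2.1, X.2.2) : G τ) := by
      refine Prod.ext ?_ (Prod.ext ?_ ?_)
      · exact (add_zero X.1).symm
      · exact (zero_add X.2.1).symm
      · exact (zero_add X.2.2).symm
    rw [this]
    exact Submodule.add_mem_sup (show ((X.1, 0, 0) : G τ) ∈ (K τ).toSubmodule from ⟨rfl, rfl⟩) rfl

theorem model : IsModel (K τ) (Bf τ) where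
  symm := by
    intro X Y
    rw [Bf_apply, Bf_apply, real_inner_comm, real_inner_comm Y.2.2]
  pos := by
    intro X hX
    rw [Bf_apply]
    rw [mem_K] at hX
    by_cases h1 : X.2.1 = 0
    · have h2 : X.2.2 ≠ 0 := fun h2 => hX ⟨h1, h2⟩
      have h3 : 0 < ⟪X.2.2, X.2.2⟫_ℝ := real_inner_self_pos.mpr h2
      have h4 : 0 ≤ ⟪X.2.1, X.2.1⟫_ℝ := real_inner_self_nonneg
      linarith
    · have h3 : 0 < ⟪X.2.1, X.2.1⟫_ℝ := real_inner_self_pos.mpr h1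
      have h4 : 0 ≤ ⟪X.2.2, X.2.2⟫_ℝ := real_inner_self_nonneg
      linarith
  ker := by
    rintro A ⟨h1, h2⟩ X
    rw [Bf_apply, h1, h2, inner_zero_left, inner_zero_left, add_zero]
  inv := by
    rintro A ⟨h1, h2⟩ X Y
    rw [Bf_apply, Bf_apply]
    change ⟪A.1.1 * X.2.1 - X.1.1 * A.2.1, Y.2.1⟫_ℝ + ⟪τ (Nil.imL (star A.2.1 * X.2.1)), Y.2.2⟫_ℝ
      + (⟪X.2.1, A.1.1 * Y.2.1 - Y.1.1 * A.2.1⟫_ℝ +
        ⟪X.2.2, τ (Nil.imL (star A.2.1 * Y.2.1))⟫_ℝ) = 0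
    rw [h1, mul_zero, mul_zero, sub_zero, sub_zero, star_zero, zero_mul, zero_mul, map_zero,
      map_zero, inner_zero_left, inner_zero_right, skew_left _ _ _ ((mem_ImH _).mp A.1.2)]
    ring
  compl := by
    refine ⟨M τ, isCompl_KM τ, ?_⟩
    rintro A ⟨h1, h2⟩ X hX
    rw [mem_M] at hX ⊢
    change cm A.1 X.1 = 0
    rw [hX]
    apply Subtype.ext
    change A.1.1 * 0 - 0 * A.1.1 = 0
    rw [mul_zero, zero_mul, sub_zero]

theorem eff : Eff (K τ) := by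
  intro I hI
  rw [eq_bot_iff]
  intro X hX
  obtain ⟨h1, h2⟩ := hI X hX
  obtain ⟨Z, hZ⟩ : ∃ Z : G τ, Z = (0, 1, 0) := ⟨_, rfl⟩
  have h3 : ⁅X, Z⁆ ∈ I := lie_mem_left ℝ (G τ) I X _ hX
  have h4 := (hI _ h3).1
  rw [hZ] at h4
  change X.1.1 * 1 - 0 * X.2.1 = 0 at h4
  rw [mul_one, zero_mul, sub_zero] at h4
  have : X = 0 := Prod.ext (Subtype.ext h4) (Prod.ext h1 h2)
  rw [this]
  exact Submodule.zero_mem _

/-- Transpose of `τ` on imaginary quaternions. -/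
noncomputable def ts (v : EuclideanSpace ℝ (Fin 3)) : ℍ :=
  ⟨0, ⟪τ ⟨0, 1, 0, 0⟩, v⟫_ℝ, ⟪τ ⟨0, 0, 1, 0⟩, v⟫_ℝ, ⟪τ ⟨0, 0, 0, 1⟩, v⟫_ℝ⟩

theorem ts_spec (q : ℍ) (v : EuclideanSpace ℝ (Fin 3)) :
    ⟪τ (Nil.imL q), v⟫_ℝ = ⟪q, ts τ v⟫_ℝ := by
  have h : Nil.imL q = q.imI • (⟨0, 1, 0, 0⟩ : Quaternion ℝ) +
      (q.imJ • (⟨0, 0, 1, 0⟩ : Quaternion ℝ) + q.imK • (⟨0, 0, 0, 1⟩ : Quaternion ℝ)) := by
    change q.im = _
    ext <;> simp
  have h2 : τ (Nil.imL q) = q.imI • τ ⟨0, 1, 0, 0⟩ + (q.imJ • τ ⟨0, 0, 1, 0⟩ +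
      q.imK • τ ⟨0, 0, 0, 1⟩) := by
    rw [h]
    erw [map_add, map_add, map_smul, map_smul, map_smul]
  rw [h2, inner_add_left, inner_add_left, real_inner_smul_left, real_inner_smul_left,
    real_inner_smul_left, inn, ts]
  simp
  ring

theorem go : IsGO (K τ) (Bf τ) := by
  intro X
  obtain ⟨b, hb⟩ : ∃ b : ImH, (X.1.1 + b.1) * X.2.1 = X.2.1 * ts τ X.2.2 := by
    by_cases hx : X.2.1 = 0
    · exact ⟨0, by rw [hx, mul_zero, zero_mul]⟩
    · refine ⟨⟨X.2.1 * ts τ X.2.2 * (X.2.1)⁻¹ - X.1.1, ?_⟩, ?_⟩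
      · rw [mem_ImH, Quaternion.re_sub, (mem_ImH _).mp X.1.2, sub_zero]
        have e : (X.2.1)⁻¹ = (Quaternion.normSq X.2.1)⁻¹ • star X.2.1 := by
          rw [Quaternion.inv_def]
        rw [e, mul_smul_comm, Quaternion.re_smul]
        have : (X.2.1 * ts τ X.2.2 * star X.2.1).re = 0 := by
          simp [ts]
          ring
        rw [this, smul_zero]
      · change (X.1.1 + (X.2.1 * ts τ X.2.2 * (X.2.1)⁻¹ - X.1.1)) * X.2.1 = _
        rw [add_sub_cancel, mul_assoc, inv_mul_cancel₀ hx, mul_one]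
  refine ⟨((b, 0, 0) : G τ), ⟨rfl, rfl⟩, ?_⟩
  intro Y
  rw [Bf_apply]
  change ⟪(X.1.1 + b.1) * Y.2.1 - Y.1.1 * (X.2.1 + 0), X.2.1⟫_ℝ +
    ⟪τ (Nil.imL (star (X.2.1 + 0) * Y.2.1)), X.2.2⟫_ℝ = 0
  have hab : (X.1.1 + b.1).re = 0 := by
    rw [Quaternion.re_add, (mem_ImH _).mp X.1.2, (mem_ImH _).mp b.2, add_zero]
  rw [add_zero, inner_sub_left, skew_left _ _ _ hab, ts_spec, hb]
  have h1 : ⟪Y.1.1 * X.2.1, X.2.1⟫_ℝ = 0 := by
    rw [inn]
    have := (mem_ImH _).mp Y.1.2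
    simp [this]
    ring
  rw [h1, inn, inn]
  simp [ts]
  ring

theorem fr : Module.finrank ℝ (G τ) = Module.finrank ℝ (K τ) + 7 := by
  have h1 : Module.finrank ℝ (G τ) = Module.finrank ℝ ImH + 7 := by
    have : Module.finrank ℝ (ImH × ℍ × EuclideanSpace ℝ (Fin 3)) = Module.finrank ℝ ImH + 7 := by
      rw [Module.finrank_prod, Module.finrank_prod, Quaternion.finrank_eq_four,
        finrank_euclideanSpace_fin]
    exact this
  let e : ImH ≃ₗ[ℝ] (K τ) :=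
    { toFun := fun a => ⟨((a, 0, 0) : G τ), ⟨rfl, rfl⟩⟩
      invFun := fun X => X.1.1
      map_add' := by
        intro a b
        apply Subtype.ext
        refine Prod.ext rfl (Prod.ext ?_ ?_)
        · exact (add_zero (0 : ℍ)).symm
        · exact (add_zero (0 : EuclideanSpace ℝ (Fin 3))).symm
      map_smul' := by
        intro t a
        apply Subtype.ext
        refine Prod.ext rfl (Prod.ext ?_ ?_)
        · exact (smul_zero t).symm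
        · exact (smul_zero t).symm
      left_inv := by intro a; rfl
      right_inv := by
        rintro ⟨X, h1, h2⟩
        apply Subtype.ext
        exact Prod.ext rfl (Prod.ext h1.symm h2.symm) }
  rw [h1, e.finrank_eq]

/-- The homomorphism from the nilpotent group. -/
noncomputable def F : Nil τ →ₗ⁅ℝ⁆ G τ where
  toFun := fun X => ((0, X.1, X.2) : G τ)
  map_add' := by
    intro X Y
    exact Prod.ext (add_zero (0 : ImH)).symm rfl
  map_smul' := by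
    intro t X
    exact Prod.ext (smul_zero t).symm rfl
  map_lie' := by
    intro X Y
    refine Prod.ext (Subtype.ext ?_) (Prod.ext ?_ rfl)
    · change (0 : ℍ) = 0 * 0 - 0 * 0
      simp
    · change (0 : ℍ) = 0 * Y.1 - 0 * X.1
      simp

end CV1x

theorem thm_CV1 : St_CV1 := by
  intro τ
  refine ⟨CV1x.G τ, inferInstance, inferInstance, CV1x.K τ, CV1x.Bf τ, inferInstance,
    CV1x.model τ, CV1x.eff τ, CV1x.go τ, CV1x.fr τ, CV1x.F τ, fun X Y => rfl, ?_⟩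
  intro Z
  refine ⟨((Z.2.1, Z.2.2) : Nil τ), ?_, ?_⟩
  · change Z.2.1 - Z.2.1 = 0
    rw [sub_self]
  · change Z.2.2 - Z.2.2 = 0
    rw [sub_self]

end GOS
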