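import Pool.Agent.GOS.SPX

/-!
# GOS, module CV2 (helper1 for helper15)
-/

set_option autoImplicit false

namespace GOS

open scoped InnerProductSpace Quaternion

namespace CV2x

open SPX

variable {ε : ℝ}

/-- the element with the coordinates `a, x, p, r` -/
noncomputable def el (hε : ε = 1 ∨ ε = -1) (a x p : ℍ) (r : ℝ) : SpR ε :=
  ((⟨mat ε 1 a.im x p.im, mat_mem 1 hε x (by simp) (by simp)⟩, r) : sp ε × ℝ)

theorem el00 (hε : ε = 1 ∨ ε = -1) (a x p : ℍ) (r : ℝ) : (el hε a x p r).1.1 0 0 = a.im := rfl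

theorem el01 (hε : ε = 1 ∨ ε = -1) (a x p : ℍ) (r : ℝ) : (el hε a x p r).1.1 0 1 = x := by
  show (1 : ℝ) • x = x
  rw [one_smul]

theorem el11 (hε : ε = 1 ∨ ε = -1) (a x p : ℍ) (r : ℝ) : (el hε a x p r).1.1 1 1 = p.im := rfl

theorem el2 (hε : ε = 1 ∨ ε = -1) (a x p : ℍ) (r : ℝ) : (el hε a x p r).2 = r := rfl

theorem e10 (hε : ε = 1 ∨ ε = -1) (X : SpR ε) : X.1.1 1 0 = -ε • star (X.1.1 0 1) :=
  (of_mem hε X.1.2).2.2

theorem re00 (hε : ε = 1 ∨ ε = -1) (X : SpR ε) : (X.1.1 0 0).re = 0 := (of_mem hε X.1.2).1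

theorem re11 (hε : ε = 1 ∨ ε = -1) (X : SpR ε) : (X.1.1 1 1).re = 0 := (of_mem hε X.1.2).2.1

theorem ext' (hε : ε = 1 ∨ ε = -1) {X Y : SpR ε} (h1 : X.1.1 0 0 = Y.1.1 0 0)
    (h2 : X.1.1 0 1 = Y.1.1 0 1) (h3 : X.1.1 1 1 = Y.1.1 1 1) (h4 : X.2 = Y.2) : X = Y := by
  refine Prod.ext (Subtype.ext (Matrix.ext fun i j => ?_)) h4
  fin_cases i <;> fin_cases j
  · exact h1
  · exact h2
  · show X.1.1 1 0 = Y.1.1 1 0
    rw [e10 hε, e10 hε, h2]
  · exact h3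

theorem lie_apply (X Y : SpR ε) (i j : Fin 2) : ⁅X, Y⁆.1.1 i j =
    X.1.1 i 0 * Y.1.1 0 j + X.1.1 i 1 * Y.1.1 1 j -
      (Y.1.1 i 0 * X.1.1 0 j + Y.1.1 i 1 * X.1.1 1 j) := by
  change (X.1.1 * Y.1.1 - Y.1.1 * X.1.1) i j = _
  rw [Matrix.sub_apply, Matrix.mul_apply, Matrix.mul_apply, Fin.sum_univ_two,
    Fin.sum_univ_two]

theorem lie2 (X Y : SpR ε) : ⁅X, Y⁆.2 = 0 := by
  change X.2 * Y.2 - Y.2 * X.2 = 0
  ring

theorem spB_apply (ε α β s : ℝ) (X Y : SpR ε) : spB ε α β s X Y =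
    α * ⟪X.1.1 0 1, Y.1.1 0 1⟫_ℝ +
      β * ((X.1.1 1 1).imJ * (Y.1.1 1 1).imJ + (X.1.1 1 1).imK * (Y.1.1 1 1).imK) +
      (s * (X.1.1 1 1).imI - X.2) * (s * (Y.1.1 1 1).imI - Y.2) := rfl

theorem mem_k {s : ℝ} {X : SpR ε} : X ∈ spK ε s ↔ X.1.1 0 1 = 0 ∧ X.1.1 1 0 = 0 ∧
    (X.1.1 1 1).imJ = 0 ∧ (X.1.1 1 1).imK = 0 ∧ X.2 = s * (X.1.1 1 1).imI := Iff.rfl

theorem inner_eq (x y : ℍ) :
    ⟪x, y⟫_ℝ = x.re * y.re + x.imI * y.imI + x.imJ * y.imJ + x.imK * y.imK := by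
  rw [Quaternion.inner_def]
  simp

theorem add_apply (X Y : SpR ε) (i j : Fin 2) : (X + Y).1.1 i j = X.1.1 i j + Y.1.1 i j := rfl

theorem sub_apply (X Y : SpR ε) (i j : Fin 2) : (X - Y).1.1 i j = X.1.1 i j - Y.1.1 i j := rfl

theorem sub2 (X Y : SpR ε) : (X - Y).2 = X.2 - Y.2 := rfl

theorem smul_apply (t : ℝ) (X : SpR ε) (i j : Fin 2) : (t • X).1.1 i j = t • X.1.1 i j := rfl

theorem add2 (X Y : SpR ε) : (X + Y).2 = X.2 + Y.2 := rfl

theorem smul2 (t : ℝ) (X : SpR ε) : (t • X).2 = t * X.2 := rfl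

/-- the complement -/
noncomputable def cm (ε s : ℝ) : Submodule ℝ (SpR ε) where
  carrier := {X | X.1.1 0 0 = 0 ∧ (X.1.1 1 1).imI + s * X.2 = 0}
  zero_mem' := by
    refine ⟨rfl, ?_⟩
    show (0 : ℝ) + s * 0 = 0
    ring
  add_mem' := by
    rintro X Y ⟨h1, h2⟩ ⟨k1, k2⟩
    refine ⟨?_, ?_⟩
    · rw [add_apply, h1, k1, add_zero]
    · rw [add_apply, add2, Quaternion.imI_add]
      linear_combination h2 + k2
  smul_mem' := by
    rintro t X ⟨h1, h2⟩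
    refine ⟨?_, ?_⟩
    · rw [smul_apply, h1, smul_zero]
    · rw [smul_apply, smul2, Quaternion.imI_smul, smul_eq_mul]
      linear_combination t * h2

theorem isCompl (hε : ε = 1 ∨ ε = -1) (s : ℝ) : IsCompl (spK ε s).toSubmodule (cm ε s) := by
  refine isCompl_iff.2 ⟨Submodule.disjoint_def.2 ?_, codisjoint_iff.2 (eq_top_iff.2 ?_)⟩
  · rintro X ⟨h1, h2, h3, h4, h5⟩ ⟨k1, k2⟩
    rw [h5] at k2
    have h6 : (1 + s ^ 2) * (X.1.1 1 1).imI = 0 := by linear_combination k2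
    have h7 : (X.1.1 1 1).imI = 0 := by
      rcases mul_eq_zero.1 h6 with h | h
      · nlinarith [sq_nonneg s]
      · exact h
    refine ext' hε k1 h1 ?_ ?_
    · show X.1.1 1 1 = 0
      ext
      · exact re11 hε X
      · exact h7
      · exact h3
      · exact h4
    · rw [h5, h7, mul_zero]
      rfl
  · intro X _
    obtain ⟨t, ht⟩ : ∃ t : ℝ, (1 + s ^ 2) * t = (X.1.1 1 1).imI + s * X.2 :=
      ⟨((X.1.1 1 1).imI + s * X.2) / (1 + s ^ 2), by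
        have : (1 + s ^ 2) ≠ 0 := by positivity
        field_simp⟩
    obtain ⟨A, hA⟩ : ∃ A : SpR ε, A = el hε (X.1.1 0 0) 0 ⟨0, t, 0, 0⟩ (s * t) := ⟨_, rfl⟩
    have hAk : A ∈ spK ε s := by
      rw [hA]
      refine mem_k.2 ⟨el01 hε _ _ _ _, ?_, rfl, rfl, rfl⟩
      rw [e10 hε, el01, star_zero, smul_zero]
    rw [← add_sub_cancel A X]
    refine Submodule.add_mem_sup hAk ⟨?_, ?_⟩
    · rw [sub_apply, hA, el00, im_eq (re00 hε X), sub_self]
    · rw [sub_apply, sub2, hA, el11, el2]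
      simp
      linear_combination -ht

theorem isModel (hε : ε = 1 ∨ ε = -1) {α β s : ℝ} (hα : 0 < α) (hβ : 0 < β) :
    IsModel (spK ε s) (spB ε α β s) := by
  refine ⟨?_, ?_, ?_, ?_, ⟨cm ε s, isCompl hε s, ?_⟩⟩
  · intro X Y
    rw [spB_apply, spB_apply, real_inner_comm]
    ring
  · intro X hX
    rw [spB_apply]
    by_contra h
    have h := not_lt.1 h
    have t1 : 0 ≤ α * ⟪X.1.1 0 1, X.1.1 0 1⟫_ℝ := mul_nonneg hα.le real_inner_self_nonneg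
    have t2 : 0 ≤ β * ((X.1.1 1 1).imJ * (X.1.1 1 1).imJ + (X.1.1 1 1).imK * (X.1.1 1 1).imK) :=
      mul_nonneg hβ.le (add_nonneg (mul_self_nonneg _) (mul_self_nonneg _))
    have t3 : 0 ≤ (s * (X.1.1 1 1).imI - X.2) * (s * (X.1.1 1 1).imI - X.2) := mul_self_nonneg _
    have u1 : α * ⟪X.1.1 0 1, X.1.1 0 1⟫_ℝ = 0 := by linarith
    have u2 : β * ((X.1.1 1 1).imJ * (X.1.1 1 1).imJ + (X.1.1 1 1).imK * (X.1.1 1 1).imK) = 0 := by
      linarith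
    have u3 : (s * (X.1.1 1 1).imI - X.2) * (s * (X.1.1 1 1).imI - X.2) = 0 := by linarith
    have v1 : X.1.1 0 1 = 0 :=
      inner_self_eq_zero.1 ((mul_eq_zero.1 u1).resolve_left hα.ne')
    have v2 := mul_self_add_mul_self_eq_zero.1 ((mul_eq_zero.1 u2).resolve_left hβ.ne')
    have v3 := mul_self_eq_zero.1 u3
    apply hX
    refine mem_k.2 ⟨v1, ?_, v2.1, v2.2, by linarith⟩
    rw [e10 hε, v1, star_zero, smul_zero]
  · rintro A ⟨h1, h2, h3, h4, h5⟩ X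
    rw [spB_apply, h1, h3, h4, h5, inner_zero_left]
    ring
  · rintro A ⟨h1, h2, h3, h4, h5⟩ X Y
    rw [spB_apply, spB_apply, lie_apply, lie_apply, lie_apply, lie_apply, lie2, lie2, h1, h2,
      inner_eq, inner_eq]
    have ha := re00 hε A
    have hp := re11 hε A
    simp [ha, hp, h3, h4]
    ring
  · rintro A ⟨h1, h2, h3, h4, h5⟩ X ⟨k1, k2⟩
    refine ⟨?_, ?_⟩
    · rw [lie_apply, h1, h2, k1]
      simp
    · have hp := re11 hε A
      have hp' := re11 hε X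
      rw [lie_apply, lie2, h1, h2]
      simp [h3, h4, hp, hp']

theorem eff (hε : ε = 1 ∨ ε = -1) (s : ℝ) : Eff (spK ε s) := by
  intro I hI
  rw [eq_bot_iff]
  intro X hX
  rw [LieSubmodule.mem_bot]
  obtain ⟨h1, h2, h3, h4, h5⟩ := hI X hX
  have key : ∀ Y : SpR ε, X.1.1 0 0 * Y.1.1 0 1 - Y.1.1 0 1 * X.1.1 1 1 = 0 := by
    intro Y
    have k1 : ⁅X, Y⁆ ∈ I := by
      rw [← lie_skew]
      exact I.neg_mem (I.lie_mem hX)
    have k2 := (hI _ k1).1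
    rw [lie_apply, h1] at k2
    simpa using k2
  have k1 := key (el hε 0 1 0 0)
  have k2 := key (el hε 0 ⟨0, 0, 1, 0⟩ 0 0)
  rw [el01, mul_one, one_mul, sub_eq_zero] at k1
  rw [el01, k1] at k2
  have k3 := congrArg QuaternionAlgebra.imK k2
  simp [h3, h4] at k3
  have hp := re11 hε X
  have hp0 : X.1.1 1 1 = 0 := by
    ext
    · exact hp
    · show (X.1.1 1 1).imI = 0
      linarith
    · exact h3
    · exact h4
  refine ext' hε (k1.trans hp0) h1 hp0 ?_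
  rw [h5, hp0]
  show s * 0 = 0
  rw [mul_zero]

theorem exists_a (x n : ℍ) (hn : n.re = 0) : ∃ a : ℍ, a.re = 0 ∧ a * x = x * n := by
  by_cases hx : x = 0
  · exact ⟨0, rfl, by rw [hx, mul_zero, zero_mul]⟩
  · have h1 : Quaternion.normSq x ≠ 0 := fun h => hx (Quaternion.normSq_eq_zero.1 h)
    refine ⟨(Quaternion.normSq x)⁻¹ • (x * n * star x), ?_, ?_⟩
    · have h2 : (x * n * star x).re = 0 := by
        simp [hn]
        ring
      rw [Quaternion.re_smul, h2, smul_zero]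
    · rw [smul_mul_assoc, mul_assoc (x * n), Quaternion.star_mul_self, Quaternion.mul_coe_eq_smul,
        smul_smul, inv_mul_cancel₀ h1, one_smul]

theorem isGO (hε : ε = 1 ∨ ε = -1) {α β : ℝ} (s : ℝ) (hα : 0 < α) (hβ : 0 < β) :
    IsGO (spK ε s) (spB ε α β s) := by
  intro X
  obtain ⟨u, hu⟩ : ∃ u : ℝ, α * u = ε := ⟨ε / α, by field_simp⟩
  obtain ⟨d, hd⟩ : ∃ d : ℝ, d = s * (X.1.1 1 1).imI - X.2 := ⟨_, rfl⟩
  obtain ⟨v, hv⟩ : ∃ v : ℝ, β * v = s * d := ⟨s * d / β, by field_simp⟩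
  obtain ⟨n, hn⟩ : ∃ n : ℍ, n = ⟨0, v - 2 * u * (s * d), (X.1.1 1 1).imJ -
    2 * u * (β * (X.1.1 1 1).imJ), (X.1.1 1 1).imK - 2 * u * (β * (X.1.1 1 1).imK)⟩ := ⟨_, rfl⟩
  obtain ⟨a', ha', ha'x⟩ := exists_a (X.1.1 0 1) n (by rw [hn])
  obtain ⟨A, hA⟩ : ∃ A : SpR ε, A = el hε (a' - X.1.1 0 0) 0 ⟨0, v - (X.1.1 1 1).imI, 0, 0⟩
    (s * (v - (X.1.1 1 1).imI)) := ⟨_, rfl⟩
  have hAk : A ∈ spK ε s := by
    rw [hA]
    refine mem_k.2 ⟨el01 hε _ _ _ _, ?_, rfl, rfl, rfl⟩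
    rw [e10 hε, el01, star_zero, smul_zero]
  refine ⟨A, hAk, fun Y => ?_⟩
  have ha := re00 hε X
  have hp := re11 hε X
  have hb := re00 hε Y
  have hq := re11 hε Y
  have h0 : (X + A).1.1 0 0 = a' := by
    rw [add_apply, hA, el00]
    ext <;> simp [ha', ha]
  have h1 : (X + A).1.1 0 1 = X.1.1 0 1 := by
    rw [add_apply, hA, el01, add_zero]
  have h3 : (X + A).1.1 1 0 = -ε • star (X.1.1 0 1) := by
    rw [e10 hε, h1]
  have h2 : (X + A).1.1 1 1 = ⟨0, v, (X.1.1 1 1).imJ, (X.1.1 1 1).imK⟩ := by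
    rw [add_apply, hA, el11]
    ext <;> simp [hp]
  rw [spB_apply, lie_apply, lie_apply, lie2, h0, h1, h2, h3, e10 hε Y, inner_eq, ← hd]
  generalize X.1.1 0 1 = x at *
  generalize Y.1.1 0 1 = y at *
  generalize Y.1.1 0 0 = e at *
  generalize Y.1.1 1 1 = q at *
  generalize X.1.1 1 1 = p at *
  have r0 := congrArg QuaternionAlgebra.re ha'x
  have r1 := congrArg QuaternionAlgebra.imI ha'x
  have r2 := congrArg QuaternionAlgebra.imJ ha'x
  have r3 := congrArg QuaternionAlgebra.imK ha'x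
  simp [hn, ha'] at r0 r1 r2 r3
  simp [ha', hb, hq]
  linear_combination (-α * y.re) * r0 + (-α * y.imI) * r1 + (-α * y.imJ) * r2 +
    (-α * y.imK) * r3 + (2 * (q.imJ * p.imK - q.imK * p.imJ)) * hv +
    (2 * (y.re * (-(x.imI * (s * d) + x.imJ * (β * p.imJ) + x.imK * (β * p.imK))) +
      y.imI * (x.re * (s * d) + x.imJ * (β * p.imK) - x.imK * (β * p.imJ)) +
      y.imJ * (x.re * (β * p.imJ) - x.imI * (β * p.imK) + x.imK * (s * d)) +
      y.imK * (x.re * (β * p.imK) + x.imI * (β * p.imJ) - x.imJ * (s * d)))) * hu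

/-- the coordinates of `g / k` -/
noncomputable def T (ε s : ℝ) : SpR ε →ₗ[ℝ] ℍ × ℝ × ℝ × ℝ where
  toFun X := (X.1.1 0 1, (X.1.1 1 1).imJ, (X.1.1 1 1).imK, X.2 - s * (X.1.1 1 1).imI)
  map_add' := by
    intro X Y
    refine Prod.ext rfl (Prod.ext rfl (Prod.ext rfl ?_))
    show (X + Y).2 - s * ((X + Y).1.1 1 1).imI = _ + _
    rw [add_apply, add2, Quaternion.imI_add]
    show _ = X.2 - s * (X.1.1 1 1).imI + (Y.2 - s * (Y.1.1 1 1).imI)
    ring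
  map_smul' := by
    intro t X
    refine Prod.ext rfl (Prod.ext rfl (Prod.ext rfl ?_))
    show (t • X).2 - s * ((t • X).1.1 1 1).imI = t * _
    rw [smul_apply, smul2, Quaternion.imI_smul, smul_eq_mul]
    show _ = t * (X.2 - s * (X.1.1 1 1).imI)
    ring

theorem finrank_eq (hε : ε = 1 ∨ ε = -1) (s : ℝ) :
    Module.finrank ℝ (SpR ε) = Module.finrank ℝ (spK ε s) + 7 := by
  have : Module.Finite ℝ (SpR ε) := inferInstanceAs (Module.Finite ℝ (sp ε × ℝ))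
  have h1 := LinearMap.finrank_range_add_finrank_ker (T ε s)
  have h2 : LinearMap.range (T ε s) = ⊤ := by
    rw [LinearMap.range_eq_top]
    rintro ⟨x, a, b, r⟩
    refine ⟨el hε 0 x ⟨0, 0, a, b⟩ r, ?_⟩
    refine Prod.ext (el01 hε 0 x ⟨0, 0, a, b⟩ r) (Prod.ext rfl (Prod.ext rfl ?_))
    show r - s * 0 = r
    ring
  have h3 : LinearMap.ker (T ε s) = (spK ε s).toSubmodule := by
    ext X
    constructor
    · intro hX
      have hX' : T ε s X = 0 := hX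
      have k1 : X.1.1 0 1 = 0 := congrArg Prod.fst hX'
      have k2 : (X.1.1 1 1).imJ = 0 := congrArg (fun z => z.2.1) hX'
      have k3 : (X.1.1 1 1).imK = 0 := congrArg (fun z => z.2.2.1) hX'
      have k4 : X.2 - s * (X.1.1 1 1).imI = 0 := congrArg (fun z => z.2.2.2) hX'
      exact mem_k.2 ⟨k1, by rw [e10 hε, k1, star_zero, smul_zero], k2, k3, by linarith⟩
    · rintro ⟨k1, k2, k3, k4, k5⟩
      show T ε s X = 0
      refine Prod.ext k1 (Prod.ext k3 (Prod.ext k4 ?_))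
      show X.2 - s * (X.1.1 1 1).imI = 0
      rw [k5, sub_self]
  rw [h2, finrank_top, h3, Module.finrank_prod, Module.finrank_prod, Module.finrank_prod,
    Quaternion.finrank_eq_four, Module.finrank_self] at h1
  have h4 : Module.finrank ℝ (spK ε s).toSubmodule = Module.finrank ℝ (spK ε s) := rfl
  omega

end CV2x

open CV2x in
/-- **CV2** -/
theorem thm_CV2 : St_CV2 := by
  intro ε α β s hε hα hβ
  exact ⟨isModel hε hα hβ, eff hε s, isGO hε s hα hβ, finrank_eq hε s⟩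

end GOS
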