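import Pool.Agent.GOS.StC

/-!
# GOS, helper file SPX: recognition of the second family (helper1; for the modules SP3 and SP4)
-/

set_option autoImplicit false

namespace GOS

open scoped InnerProductSpace Quaternion

namespace SPX

theorem im_eq {q : ℍ} (h : q.re = 0) : q.im = q := by
  ext <;> simp [h]

/-- the matrix with the coordinates `a, x, q` -/
noncomputable def mat (ε μ : ℝ) (a x q : ℍ) : Matrix (Fin 2) (Fin 2) ℍ :=
  !![a, μ • x; -(ε * μ) • star x, q]

theorem mat_mem {ε : ℝ} (μ : ℝ) (hε : ε = 1 ∨ ε = -1) {a q : ℍ} (x : ℍ) (ha : a.re = 0)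
    (hq : q.re = 0) : mat ε μ a x q ∈ sp ε := by
  change (mat ε μ a x q).conjTranspose * S ε + S ε * mat ε μ a x q = 0
  refine Matrix.ext fun i j => ?_
  rw [Matrix.add_apply, Matrix.mul_apply, Matrix.mul_apply, Fin.sum_univ_two, Fin.sum_univ_two]
  rcases hε with rfl | rfl <;> fin_cases i <;> fin_cases j <;> simp [mat, S] <;> ext <;>
    simp [ha, hq]

theorem of_mem {ε : ℝ} (hε : ε = 1 ∨ ε = -1) {M : Matrix (Fin 2) (Fin 2) ℍ} (hM : M ∈ sp ε) :
    (M 0 0).re = 0 ∧ (M 1 1).re = 0 ∧ M 1 0 = -ε • star (M 0 1) := by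
  have h : M.conjTranspose * S ε + S ε * M = 0 := hM
  have h1 := congrFun (congrFun h 0) 0
  have h2 := congrFun (congrFun h 1) 1
  have h3 := congrFun (congrFun h 1) 0
  rw [Matrix.add_apply, Matrix.mul_apply, Matrix.mul_apply, Fin.sum_univ_two,
    Fin.sum_univ_two] at h1 h2 h3
  rcases hε with rfl | rfl
  · simp [S] at h1 h2 h3
    refine ⟨?_, ?_, ?_⟩
    · have := congrArg QuaternionAlgebra.re h1
      simp at this
      linarith
    · have := congrArg QuaternionAlgebra.re h2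
      simp at this
      linarith
    · rw [eq_neg_of_add_eq_zero_right h3]
      simp
  · simp [S] at h1 h2 h3
    refine ⟨?_, ?_, ?_⟩
    · have := congrArg QuaternionAlgebra.re h1
      simp at this
      linarith
    · have := congrArg QuaternionAlgebra.re h2
      simp at this
      linarith
    · have h4 := eq_neg_of_add_eq_zero_right h3
      rw [neg_neg, one_smul]
      exact neg_injective h4

theorem mat_lie {ε μ lam : ℝ} (hlam : lam = 2 * ε * μ ^ 2) (a x q b y r : ℍ) (ha : a.re = 0)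
    (hq : q.re = 0) (hb : b.re = 0) (hr : r.re = 0) :
    mat ε μ a x q * mat ε μ b y r - mat ε μ b y r * mat ε μ a x q =
      mat ε μ ((a * b - b * a - lam • (x * star y)).im) (a * y - b * x + x * r - y * q)
        (q * r - r * q - lam • (star x * y).im) := by
  refine Matrix.ext fun i j => ?_
  rw [Matrix.sub_apply, Matrix.mul_apply, Matrix.mul_apply, Fin.sum_univ_two, Fin.sum_univ_two]
  subst hlam
  fin_cases i <;> fin_cases j <;> simp [mat] <;> ext <;> simp [ha, hq, hb, hr] <;> ring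

theorem mat_add (ε μ : ℝ) (a x q b y r : ℍ) :
    mat ε μ (a + b) (x + y) (q + r) = mat ε μ a x q + mat ε μ b y r := by
  refine Matrix.ext fun i j => ?_
  rw [Matrix.add_apply]
  fin_cases i <;> fin_cases j <;> simp [mat]

theorem mat_smul (ε μ t : ℝ) (a x q : ℍ) :
    mat ε μ (t • a) (t • x) (t • q) = t • mat ε μ a x q := by
  refine Matrix.ext fun i j => ?_
  rw [Matrix.smul_apply]
  fin_cases i <;> fin_cases j <;> simp [mat, smul_smul, mul_comm]

/-- the recognition of the second family from coordinates `pa, px, pq, pr` -/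
theorem sp_case {g : Type} [LieRing g] [LieAlgebra ℝ g] {k : LieSubalgebra ℝ g}
    {B : g →ₗ[ℝ] g →ₗ[ℝ] ℝ} {lam : ℝ} (hlam : lam ≠ 0) (pa px pq : g →ₗ[ℝ] ℍ)
    (pr : g →ₗ[ℝ] ℝ) (ha : ∀ X, (pa X).re = 0) (hq : ∀ X, (pq X).re = 0)
    (la : ∀ X Y : g, pa ⁅X, Y⁆ = (pa X * pa Y - pa Y * pa X - lam • (px X * star (px Y))).im)
    (lx : ∀ X Y : g, px ⁅X, Y⁆ = pa X * px Y - pa Y * px X + px X * pq Y - px Y * pq X)
    (lq : ∀ X Y : g, pq ⁅X, Y⁆ = pq X * pq Y - pq Y * pq X - lam • (star (px X) * px Y).im)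
    (lr : ∀ X Y : g, pr ⁅X, Y⁆ = 0) {β s : ℝ} (hβ : 0 < β)
    (hB : ∀ X Y : g, B X Y = ⟪px X, px Y⟫_ℝ +
      β * ((pq X).imJ * (pq Y).imJ + (pq X).imK * (pq Y).imK) +
      (s * (pq X).imI - pr X) * (s * (pq Y).imI - pr Y))
    (hs : ∀ (x q : ℍ) (r : ℝ), q.re = 0 → ∃ X, px X = x ∧ (pq X).imJ = q.imJ ∧
      (pq X).imK = q.imK ∧ s * (pq X).imI - pr X = s * q.imI - r) : SpCase k B := by
  obtain ⟨ε, hε, hεl⟩ : ∃ ε : ℝ, (ε = 1 ∨ ε = -1) ∧ lam = ε * |lam| := by
    rcases lt_or_gt_of_ne hlam with h | h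
    · exact ⟨-1, Or.inr rfl, by rw [abs_of_neg h]; ring⟩
    · exact ⟨1, Or.inl rfl, by rw [abs_of_pos h]; ring⟩
  have hl0 : 0 < |lam| := abs_pos.2 hlam
  obtain ⟨μ, hμ, hμ0⟩ : ∃ μ : ℝ, μ ^ 2 = |lam| / 2 ∧ 0 < μ :=
    ⟨Real.sqrt (|lam| / 2), Real.sq_sqrt (by positivity), Real.sqrt_pos.2 (by positivity)⟩
  have hlμ : lam = 2 * ε * μ ^ 2 := by
    rw [hμ]
    linear_combination hεl
  let f : g →ₗ⁅ℝ⁆ SpR ε :=
    { toFun := fun X => ((⟨mat ε μ (pa X) (px X) (pq X), mat_mem μ hε _ (ha X) (hq X)⟩, pr X) :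
        sp ε × ℝ)
      map_add' := by
        intro X Y
        refine Prod.ext (Subtype.ext ?_) (map_add pr X Y)
        change mat ε μ (pa (X + Y)) (px (X + Y)) (pq (X + Y)) =
          mat ε μ (pa X) (px X) (pq X) + mat ε μ (pa Y) (px Y) (pq Y)
        rw [map_add, map_add, map_add, mat_add]
      map_smul' := by
        intro t X
        refine Prod.ext (Subtype.ext ?_) (map_smul pr t X)
        change mat ε μ (pa (t • X)) (px (t • X)) (pq (t • X)) = t • mat ε μ (pa X) (px X) (pq X)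
        rw [map_smul, map_smul, map_smul, mat_smul]
      map_lie' := by
        intro X Y
        refine Prod.ext (Subtype.ext ?_) ?_
        · change mat ε μ (pa ⁅X, Y⁆) (px ⁅X, Y⁆) (pq ⁅X, Y⁆) =
            mat ε μ (pa X) (px X) (pq X) * mat ε μ (pa Y) (px Y) (pq Y) -
              mat ε μ (pa Y) (px Y) (pq Y) * mat ε μ (pa X) (px X) (pq X)
          rw [mat_lie hlμ _ _ _ _ _ _ (ha X) (hq X) (ha Y) (hq Y), la, lx, lq]
        · change pr ⁅X, Y⁆ = pr X * pr Y - pr Y * pr X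
          rw [lr]
          ring }
  refine ⟨ε, (μ ^ 2)⁻¹, β, s, hε, by positivity, hβ, f, fun X Y => ?_, fun Z => ?_⟩
  · change (μ ^ 2)⁻¹ * ⟪μ • px X, μ • px Y⟫_ℝ +
      β * ((pq X).imJ * (pq Y).imJ + (pq X).imK * (pq Y).imK) +
      (s * (pq X).imI - pr X) * (s * (pq Y).imI - pr Y) = B X Y
    rw [hB, real_inner_smul_left, real_inner_smul_right]
    field_simp
  · obtain ⟨h1, h2, h3⟩ := of_mem hε Z.1.2
    obtain ⟨X, hX1, hX2, hX3, hX4⟩ := hs (μ⁻¹ • Z.1.1 0 1) (Z.1.1 1 1) Z.2 h2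
    refine ⟨X, ?_⟩
    have e1 : μ • px X = Z.1.1 0 1 := by
      rw [hX1, smul_smul, mul_inv_cancel₀ hμ0.ne', one_smul]
    refine ⟨?_, ?_, ?_, ?_, ?_⟩
    · change Z.1.1 0 1 - μ • px X = 0
      rw [e1, sub_self]
    · change Z.1.1 1 0 - -(ε * μ) • star (px X) = 0
      rw [h3, ← e1, Quaternion.star_smul, smul_smul, neg_mul, sub_self]
    · change (Z.1.1 1 1 - pq X).imJ = 0
      rw [Quaternion.imJ_sub, hX2, sub_self]
    · change (Z.1.1 1 1 - pq X).imK = 0
      rw [Quaternion.imK_sub, hX3, sub_self]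
    · change Z.2 - pr X = s * (Z.1.1 1 1 - pq X).imI
      rw [Quaternion.imI_sub]
      linear_combination hX4

end SPX
end GOS
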