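import Pool.Agent.GOS.StD
import Pool.Agent.GOS.CV1
import Pool.Agent.GOS.CV2
import Pool.Agent.GOS.SPX

/-!
# Seven-dimensional g.o. spaces: from the working definitions to the final ones
-/

namespace GOS

open scoped InnerProductSpace Quaternion

section conv

variable {g : Type} [LieRing g] [LieAlgebra ℝ g]

/-- The bilinear map of a model. -/
noncomputable def linB {k : LieSubalgebra ℝ g} {B : g → g → ℝ} (h : GOS7.Model k B) :
    g →ₗ[ℝ] g →ₗ[ℝ] ℝ :=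
  LinearMap.mk₂ ℝ B h.add h.smul
    (by intro X Y Z; rw [h.symm X (Y + Z), h.add, h.symm Y X, h.symm Z X])
    (by intro t X Y; rw [h.symm X (t • Y), h.smul, h.symm Y X, smul_eq_mul])

theorem linB_apply {k : LieSubalgebra ℝ g} {B : g → g → ℝ} (h : GOS7.Model k B) (X Y : g) :
    linB h X Y = B X Y := rfl

theorem isModel_of {k : LieSubalgebra ℝ g} {B : g → g → ℝ} (h : GOS7.Model k B) :
    IsModel k (linB h) :=
  ⟨h.symm, h.pos, h.ker, h.inv, h.compl⟩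

theorem model_of {k : LieSubalgebra ℝ g} {B : g →ₗ[ℝ] g →ₗ[ℝ] ℝ} (h : IsModel k B) :
    GOS7.Model k (fun X Y => B X Y) :=
  ⟨by intro X Y Z; simp, by intro t X Z; simp, h.symm, h.ker, h.pos, h.inv, h.compl⟩

theorem natRed_of {k : LieSubalgebra ℝ g} {B : g → g → ℝ} (h : GOS7.Model k B)
    (hn : NatRed k (linB h)) : GOS7.NatRed B := by
  obtain ⟨g₁, i1, i2, k₁, B₁, h1, h2, h3, f, h4, h5⟩ := hn
  exact ⟨g₁, i1, i2, k₁, fun X Y => B₁ X Y, h1, model_of h2, h3, f, h4, h5⟩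

theorem nilFamily_of (hS : St_SVD) {k : LieSubalgebra ℝ g} {B : g →ₗ[ℝ] g →ₗ[ℝ] ℝ}
    (τ : ℍ →ₗ[ℝ] EuclideanSpace ℝ (Fin 3)) (h : SameSpace ⊥ (Nil.form τ) k B) :
    ∃ l₁ l₂ l₃ : ℝ, l₂ ≤ l₁ ∧ l₃ ≤ l₂ ∧ 0 ≤ l₃ ∧
      GOS7.NilFamily l₁ l₂ l₃ k (fun X Y => B X Y) := by
  obtain ⟨φ, z, l₁, l₂, l₃, h1, h2, h3, hz, hm, hst, hno, him, hτ⟩ := hS τ
  obtain ⟨f, hf, hs⟩ := h
  refine ⟨l₁, l₂, l₃, h1, h2, h3, ?_⟩
  let iE : ℍ →ₗ[ℝ] Nil τ :=
    { toFun := fun x => ((x, 0) : ℍ × EuclideanSpace ℝ (Fin 3))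
      map_add' := fun x y => Prod.ext rfl (add_zero (0 : EuclideanSpace ℝ (Fin 3))).symm
      map_smul' := fun t x => Prod.ext rfl (smul_zero t).symm }
  let iV : EuclideanSpace ℝ (Fin 3) →ₗ[ℝ] Nil τ :=
    { toFun := fun v => ((0, v) : ℍ × EuclideanSpace ℝ (Fin 3))
      map_add' := fun x y => Prod.ext (add_zero (0 : ℍ)).symm rfl
      map_smul' := fun t x => Prod.ext (smul_zero t).symm rfl }
  have bEE : ∀ x y : ℍ, ⁅iE x, iE y⁆ = iV (τ (Nil.imL (star x * y))) := fun x y => rfl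
  have bEV : ∀ (x : ℍ) (v : EuclideanSpace ℝ (Fin 3)), ⁅iE x, iV v⁆ = 0 := by
    intro x v
    have : ⁅iE x, iV v⁆ = iV (τ (Nil.imL (star x * 0))) := rfl
    rw [this, mul_zero, map_zero, map_zero, map_zero]
  have bVV : ∀ v w : EuclideanSpace ℝ (Fin 3), ⁅iV v, iV w⁆ = 0 := by
    intro v w
    have : ⁅iV v, iV w⁆ = iV (τ (Nil.imL (star (0 : ℍ) * 0))) := rfl
    rw [this, mul_zero, map_zero, map_zero, map_zero]
  have fE : ∀ (x : ℍ) (v : EuclideanSpace ℝ (Fin 3)),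
      B (f (iE x + iV v)) (f (iE x + iV v)) = ‖x‖ ^ 2 + ‖v‖ ^ 2 := by
    intro x v
    rw [hf]
    have : Nil.form τ (iE x + iV v) (iE x + iV v) =
        ⟪x + 0, x + 0⟫_ℝ + ⟪0 + v, 0 + v⟫_ℝ := rfl
    rw [this, add_zero, zero_add, real_inner_self_eq_norm_sq, real_inner_self_eq_norm_sq]
  let E : ℍ →ₗ[ℝ] g := (f : Nil τ →ₗ[ℝ] g) ∘ₗ iE ∘ₗ φ
  have hE : ∀ x, E x = f (iE (φ x)) := fun x => rfl
  have comb : ∀ (x : ℍ) (a b c : ℝ), E x + a • f (iV (z 0)) + b • f (iV (z 1)) +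
      c • f (iV (z 2)) = f (iE (φ x) + iV (a • z 0 + b • z 1 + c • z 2)) := by
    intro x a b c
    rw [hE, map_add, map_add, map_add, map_add, map_add, map_smul, map_smul, map_smul, map_smul,
      map_smul, map_smul]
    abel
  refine ⟨E, f (iV (z 0)), f (iV (z 1)), f (iV (z 2)), ?_, ?_, ?_, ?_, ?_, ?_, ?_⟩
  · intro x y
    rw [hE, hE, ← LieHom.map_lie, bEE]
    have e1 : Nil.imL (star (φ x) * φ y) = φ (star x * y).im := by
      rw [← hst, ← hm, him]; rfl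
    rw [e1, hτ, map_add, map_add, map_add, map_add, map_smul, map_smul, map_smul, map_smul,
      map_smul, map_smul]
  · intro x
    refine ⟨?_, ?_, ?_⟩ <;> rw [hE, ← LieHom.map_lie, bEV, map_zero]
  · rw [← LieHom.map_lie, bVV, map_zero]
  · rw [← LieHom.map_lie, bVV, map_zero]
  · rw [← LieHom.map_lie, bVV, map_zero]
  · intro x a b c
    change B (E x + a • f (iV (z 0)) + b • f (iV (z 1)) + c • f (iV (z 2)))
      (E x + a • f (iV (z 0)) + b • f (iV (z 1)) + c • f (iV (z 2))) = _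
    rw [comb, fE, hno]
    have e2 : ‖a • z 0 + b • z 1 + c • z 2‖ ^ 2 = a ^ 2 + b ^ 2 + c ^ 2 := by
      have o01 : ⟪z 0, z 1⟫_ℝ = 0 := hz.2 (by decide)
      have o02 : ⟪z 0, z 2⟫_ℝ = 0 := hz.2 (by decide)
      have o12 : ⟪z 1, z 2⟫_ℝ = 0 := hz.2 (by decide)
      have n0 : ‖z 0‖ = 1 := hz.1 0
      have n1 : ‖z 1‖ = 1 := hz.1 1
      have n2 : ‖z 2‖ = 1 := hz.1 2
      rw [norm_add_sq_real, norm_add_sq_real, inner_add_left, real_inner_smul_left,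
        real_inner_smul_right, real_inner_smul_left, real_inner_smul_right,
        real_inner_smul_left, real_inner_smul_right, o01, o02, o12, norm_smul, norm_smul,
        norm_smul, n0, n1, n2]
      simp [sq_abs]
    rw [e2]; ring
  · intro X
    obtain ⟨Y, hY⟩ := hs X
    -- `φ` is surjective
    have hφinj : Function.Injective φ := by
      rw [← LinearMap.ker_eq_bot, LinearMap.ker_eq_bot']
      intro x hx
      rw [← norm_eq_zero, ← hno, hx, norm_zero]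
    have hφs : Function.Surjective φ := LinearMap.surjective_of_injective hφinj
    obtain ⟨x, hx⟩ := hφs Y.1
    have hsp : ∃ a b c : ℝ, Y.2 = a • z 0 + b • z 1 + c • z 2 := by
      have hli := hz.linearIndependent
      have hspan := hli.span_eq_top_of_card_eq_finrank (by simp)
      have hm : Y.2 ∈ Submodule.span ℝ (Set.range z) := by rw [hspan]; trivial
      rw [Submodule.mem_span_range_iff_exists_fun] at hm
      obtain ⟨cc, hcc⟩ := hm
      refine ⟨cc 0, cc 1, cc 2, ?_⟩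
      rw [← hcc, Fin.sum_univ_three]
    obtain ⟨a, b, c, habc⟩ := hsp
    refine ⟨x, a, b, c, ?_⟩
    rw [comb, hx, ← habc]
    have : iE Y.1 + iV Y.2 = Y := Prod.ext (add_zero Y.1) (zero_add Y.2)
    rw [this]
    exact hY

end conv

section nilc

theorem nilFamily_diag (l₁ l₂ l₃ : ℝ) : ∃ τ : ℍ →ₗ[ℝ] EuclideanSpace ℝ (Fin 3),
    ∀ (g : Type) [LieRing g] [LieAlgebra ℝ g] (k : LieSubalgebra ℝ g)
      (B : g →ₗ[ℝ] g →ₗ[ℝ] ℝ), SameSpace ⊥ (Nil.form τ) k B →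
      GOS7.NilFamily l₁ l₂ l₃ k (fun X Y => B X Y) := by
  let z : Fin 3 → EuclideanSpace ℝ (Fin 3) := fun i => EuclideanSpace.single i 1
  let τ : ℍ →ₗ[ℝ] EuclideanSpace ℝ (Fin 3) :=
    { toFun := fun x => (l₁ * x.imI) • z 0 + (l₂ * x.imJ) • z 1 + (l₃ * x.imK) • z 2
      map_add' := by
        intro x y
        rw [Quaternion.imI_add, Quaternion.imJ_add, Quaternion.imK_add, mul_add, mul_add,
          mul_add, add_smul, add_smul, add_smul]
        abel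
      map_smul' := by
        intro t x
        rw [Quaternion.imI_smul, Quaternion.imJ_smul, Quaternion.imK_smul]
        simp only [smul_add, smul_smul, smul_eq_mul, RingHom.id_apply]
        congr 1
        · congr 1
          · congr 1; ring
          · congr 1; ring
        · congr 1; ring }
  refine ⟨τ, ?_⟩
  intro g _ _ k B h
  have hz : Orthonormal ℝ z := EuclideanSpace.orthonormal_single
  obtain ⟨f, hf, hs⟩ := h
  let iE : ℍ →ₗ[ℝ] Nil τ :=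
    { toFun := fun x => ((x, 0) : ℍ × EuclideanSpace ℝ (Fin 3))
      map_add' := fun x y => Prod.ext rfl (add_zero (0 : EuclideanSpace ℝ (Fin 3))).symm
      map_smul' := fun t x => Prod.ext rfl (smul_zero t).symm }
  let iV : EuclideanSpace ℝ (Fin 3) →ₗ[ℝ] Nil τ :=
    { toFun := fun v => ((0, v) : ℍ × EuclideanSpace ℝ (Fin 3))
      map_add' := fun x y => Prod.ext (add_zero (0 : ℍ)).symm rfl
      map_smul' := fun t x => Prod.ext (smul_zero t).symm rfl }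
  have bEE : ∀ x y : ℍ, ⁅iE x, iE y⁆ = iV (τ (Nil.imL (star x * y))) := fun x y => rfl
  have bEV : ∀ (x : ℍ) (v : EuclideanSpace ℝ (Fin 3)), ⁅iE x, iV v⁆ = 0 := by
    intro x v
    have : ⁅iE x, iV v⁆ = iV (τ (Nil.imL (star x * 0))) := rfl
    rw [this, mul_zero, map_zero, map_zero, map_zero]
  have bVV : ∀ v w : EuclideanSpace ℝ (Fin 3), ⁅iV v, iV w⁆ = 0 := by
    intro v w
    have : ⁅iV v, iV w⁆ = iV (τ (Nil.imL (star (0 : ℍ) * 0))) := rfl
    rw [this, mul_zero, map_zero, map_zero, map_zero]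
  have fE : ∀ (x : ℍ) (v : EuclideanSpace ℝ (Fin 3)),
      B (f (iE x + iV v)) (f (iE x + iV v)) = ‖x‖ ^ 2 + ‖v‖ ^ 2 := by
    intro x v
    rw [hf]
    have : Nil.form τ (iE x + iV v) (iE x + iV v) =
        ⟪x + 0, x + 0⟫_ℝ + ⟪0 + v, 0 + v⟫_ℝ := rfl
    rw [this, add_zero, zero_add, real_inner_self_eq_norm_sq, real_inner_self_eq_norm_sq]
  let E : ℍ →ₗ[ℝ] g := (f : Nil τ →ₗ[ℝ] g) ∘ₗ iE
  have hE : ∀ x, E x = f (iE x) := fun x => rfl
  have comb : ∀ (x : ℍ) (a b c : ℝ), E x + a • f (iV (z 0)) + b • f (iV (z 1)) +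
      c • f (iV (z 2)) = f (iE x + iV (a • z 0 + b • z 1 + c • z 2)) := by
    intro x a b c
    rw [hE, map_add, map_add, map_add, map_add, map_add, map_smul, map_smul, map_smul, map_smul,
      map_smul, map_smul]
    abel
  refine ⟨E, f (iV (z 0)), f (iV (z 1)), f (iV (z 2)), ?_, ?_, ?_, ?_, ?_, ?_, ?_⟩
  · intro x y
    rw [hE, hE, ← LieHom.map_lie, bEE]
    have e1 : τ (Nil.imL (star x * y)) = (l₁ * (star x * y).imI) • z 0 +
      (l₂ * (star x * y).imJ) • z 1 + (l₃ * (star x * y).imK) • z 2 := rfl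
    rw [e1, map_add, map_add, map_add, map_add, map_smul, map_smul, map_smul, map_smul,
      map_smul, map_smul]
  · intro x
    refine ⟨?_, ?_, ?_⟩ <;> rw [hE, ← LieHom.map_lie, bEV, map_zero]
  · rw [← LieHom.map_lie, bVV, map_zero]
  · rw [← LieHom.map_lie, bVV, map_zero]
  · rw [← LieHom.map_lie, bVV, map_zero]
  · intro x a b c
    change B (E x + a • f (iV (z 0)) + b • f (iV (z 1)) + c • f (iV (z 2)))
      (E x + a • f (iV (z 0)) + b • f (iV (z 1)) + c • f (iV (z 2))) = _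
    rw [comb, fE]
    have e2 : ‖a • z 0 + b • z 1 + c • z 2‖ ^ 2 = a ^ 2 + b ^ 2 + c ^ 2 := by
      have o01 : ⟪z 0, z 1⟫_ℝ = 0 := hz.2 (by decide)
      have o02 : ⟪z 0, z 2⟫_ℝ = 0 := hz.2 (by decide)
      have o12 : ⟪z 1, z 2⟫_ℝ = 0 := hz.2 (by decide)
      have n0 : ‖z 0‖ = 1 := hz.1 0
      have n1 : ‖z 1‖ = 1 := hz.1 1
      have n2 : ‖z 2‖ = 1 := hz.1 2
      rw [norm_add_sq_real, norm_add_sq_real, inner_add_left, real_inner_smul_left,
        real_inner_smul_right, real_inner_smul_left, real_inner_smul_right,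
        real_inner_smul_left, real_inner_smul_right, o01, o02, o12, norm_smul, norm_smul,
        norm_smul, n0, n1, n2]
      simp [sq_abs]
    rw [e2]; ring
  · intro X
    obtain ⟨Y, hY⟩ := hs X
    have hsp : ∃ a b c : ℝ, Y.2 = a • z 0 + b • z 1 + c • z 2 := by
      have hli := hz.linearIndependent
      have hspan := hli.span_eq_top_of_card_eq_finrank (by simp)
      have hm : Y.2 ∈ Submodule.span ℝ (Set.range z) := by rw [hspan]; trivial
      rw [Submodule.mem_span_range_iff_exists_fun] at hm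
      obtain ⟨cc, hcc⟩ := hm
      refine ⟨cc 0, cc 1, cc 2, ?_⟩
      rw [← hcc, Fin.sum_univ_three]
    obtain ⟨a, b, c, habc⟩ := hsp
    refine ⟨Y.1, a, b, c, ?_⟩
    rw [comb, ← habc]
    have : iE Y.1 + iV Y.2 = Y := Prod.ext (add_zero Y.1) (zero_add Y.2)
    rw [this]
    exact hY

end nilc

section spc

variable {g : Type} [LieRing g] [LieAlgebra ℝ g]

/-- The matrix of an element. -/
noncomputable def spM (ε : ℝ) : SpR ε →ₗ[ℝ] Matrix (Fin 2) (Fin 2) ℍ where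
  toFun := fun X => X.1.1
  map_add' := fun _ _ => rfl
  map_smul' := fun _ _ => rfl

/-- The real component of an element. -/
noncomputable def spr (ε : ℝ) : SpR ε →ₗ[ℝ] ℝ where
  toFun := fun X => X.2
  map_add' := fun _ _ => rfl
  map_smul' := fun _ _ => rfl

theorem spM_cond (ε : ℝ) (X : SpR ε) :
    (spM ε X).conjTranspose * !![1, 0; 0, (ε : ℍ)] + !![1, 0; 0, (ε : ℍ)] * spM ε X = 0 :=
  X.1.2

theorem spM_lie (ε : ℝ) (X Y : SpR ε) :
    spM ε ⁅X, Y⁆ = spM ε X * spM ε Y - spM ε Y * spM ε X := rfl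

theorem spr_lie (ε : ℝ) (X Y : SpR ε) : spr ε ⁅X, Y⁆ = 0 := by
  change X.2 * Y.2 - Y.2 * X.2 = 0
  ring

theorem spM_re (ε : ℝ) (hε : ε = 1 ∨ ε = -1) (X : SpR ε) : (spM ε X 1 1).re = 0 :=
  (SPX.of_mem hε X.1.2).2.1

theorem exists_sp (ε : ℝ) (hε : ε = 1 ∨ ε = -1) (x p : ℍ) (hp : p.re = 0) (c : ℝ) :
    ∃ Z : SpR ε, spM ε Z 0 1 = x ∧ spM ε Z 1 1 = p ∧ spr ε Z = c := by
  refine ⟨(⟨SPX.mat ε 1 0 x p, SPX.mat_mem 1 hε x rfl hp⟩, c), ?_, rfl, rfl⟩
  change (1 : ℝ) • x = x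
  rw [one_smul]

theorem spFamily_of {k : LieSubalgebra ℝ g} {B : g →ₗ[ℝ] g →ₗ[ℝ] ℝ} (h : SpCase k B) :
    ∃ ε α β s : ℝ, (ε = 1 ∨ ε = -1) ∧ 0 < α ∧ 0 < β ∧ 0 ≤ s ∧
      GOS7.SpFamily ε α β s (fun X Y => B X Y) := by
  obtain ⟨ε, α, β, s, hε, hα, hβ, f, hf, hs⟩ := h
  -- the general statement for any sign of `s`
  have key : ∃ (M : g →ₗ[ℝ] Matrix (Fin 2) (Fin 2) ℍ) (r : g →ₗ[ℝ] ℝ),
      (∀ X, (M X).conjTranspose * !![1, 0; 0, (ε : ℍ)] + !![1, 0; 0, (ε : ℍ)] * M X = 0) ∧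
      (∀ X Y, M ⁅X, Y⁆ = M X * M Y - M Y * M X ∧ r ⁅X, Y⁆ = 0) ∧
      (∀ X, B X X = α * ‖M X 0 1‖ ^ 2 + β * ((M X 1 1).imJ ^ 2 + (M X 1 1).imK ^ 2) +
        (s * (M X 1 1).imI - r X) ^ 2) ∧
      ∀ (x p : ℍ) (c : ℝ), p.re = 0 → ∃ (X : g) (t : ℝ),
        M X 0 1 = x ∧ M X 1 1 = p + ⟨0, t, 0, 0⟩ ∧ r X = c + t * s := by
    refine ⟨spM ε ∘ₗ (f : g →ₗ[ℝ] SpR ε), spr ε ∘ₗ (f : g →ₗ[ℝ] SpR ε), ?_, ?_, ?_, ?_⟩
    · intro X
      exact spM_cond ε (f X)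
    · intro X Y
      refine ⟨?_, ?_⟩
      · change spM ε (f ⁅X, Y⁆) = _
        rw [LieHom.map_lie, spM_lie]
        rfl
      · change spr ε (f ⁅X, Y⁆) = 0
        rw [LieHom.map_lie, spr_lie]
    · intro X
      rw [← hf X X]
      change α * ⟪(f X).1.1 0 1, (f X).1.1 0 1⟫_ℝ + β * (((f X).1.1 1 1).imJ *
        ((f X).1.1 1 1).imJ + ((f X).1.1 1 1).imK * ((f X).1.1 1 1).imK) +
        (s * ((f X).1.1 1 1).imI - (f X).2) * (s * ((f X).1.1 1 1).imI - (f X).2) =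
        α * ‖(f X).1.1 0 1‖ ^ 2 + β * (((f X).1.1 1 1).imJ ^ 2 + ((f X).1.1 1 1).imK ^ 2) +
        (s * ((f X).1.1 1 1).imI - (f X).2) ^ 2
      rw [real_inner_self_eq_norm_sq]
      ring
    · intro x p c hp
      obtain ⟨Z, hZ1, hZ2, hZ3⟩ := exists_sp ε hε x p hp c
      obtain ⟨X, hX⟩ := hs Z
      obtain ⟨h1, h2, h3, h4, h5⟩ := hX
      change Z.1.1 0 1 = x at hZ1
      change Z.1.1 1 1 = p at hZ2
      change Z.2 = c at hZ3
      change Z.1.1 0 1 - (f X).1.1 0 1 = 0 at h1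
      change (Z.1.1 1 1 - (f X).1.1 1 1).imJ = 0 at h3
      change (Z.1.1 1 1 - (f X).1.1 1 1).imK = 0 at h4
      change Z.2 - (f X).2 = s * (Z.1.1 1 1 - (f X).1.1 1 1).imI at h5
      refine ⟨X, ((f X).1.1 1 1).imI - p.imI, ?_, ?_, ?_⟩
      · change (f X).1.1 0 1 = x
        rw [← hZ1]
        exact (sub_eq_zero.mp h1).symm
      · change (f X).1.1 1 1 = _
        rw [Quaternion.imJ_sub, hZ2] at h3
        rw [Quaternion.imK_sub, hZ2] at h4
        have h6 := spM_re ε hε (f X)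
        change ((f X).1.1 1 1).re = 0 at h6
        ext
        · simp [h6, hp]
        · simp
        · simp; linarith
        · simp; linarith
      · change (f X).2 = _
        rw [Quaternion.imI_sub, hZ2, hZ3] at h5
        linarith
  obtain ⟨M, r, k1, k2, k3, k4⟩ := key
  rcases le_total 0 s with h0 | h0
  · exact ⟨ε, α, β, s, hε, hα, hβ, h0, M, r, k1, k2, k3, k4⟩
  · refine ⟨ε, α, β, -s, hε, hα, hβ, by linarith, M, -r, k1, ?_, ?_, ?_⟩
    · intro X Y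
      refine ⟨(k2 X Y).1, ?_⟩
      rw [LinearMap.neg_apply, (k2 X Y).2, neg_zero]
    · intro X
      change B X X = _
      rw [k3 X, LinearMap.neg_apply]
      ring
    · intro x p c hp
      obtain ⟨X, t, e1, e2, e3⟩ := k4 x p (-c) hp
      refine ⟨X, t, e1, e2, ?_⟩
      rw [LinearMap.neg_apply, e3]
      ring

theorem spFamily_self (ε α β s : ℝ) (hε : ε = 1 ∨ ε = -1) :
    GOS7.SpFamily ε α β s (fun X Y => spB ε α β s X Y) := by
  refine ⟨spM ε, spr ε, spM_cond ε, fun X Y => ⟨spM_lie ε X Y, spr_lie ε X Y⟩, ?_, ?_⟩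
  · intro X
    change α * ⟪X.1.1 0 1, X.1.1 0 1⟫_ℝ + β * ((X.1.1 1 1).imJ *
        (X.1.1 1 1).imJ + (X.1.1 1 1).imK * (X.1.1 1 1).imK) +
        (s * (X.1.1 1 1).imI - X.2) * (s * (X.1.1 1 1).imI - X.2) =
        α * ‖X.1.1 0 1‖ ^ 2 + β * ((X.1.1 1 1).imJ ^ 2 + (X.1.1 1 1).imK ^ 2) +
        (s * (X.1.1 1 1).imI - X.2) ^ 2
    rw [real_inner_self_eq_norm_sq]
    ring
  · intro x p c hp
    obtain ⟨Z, hZ1, hZ2, hZ3⟩ := exists_sp ε hε x p hp c
    refine ⟨Z, 0, hZ1, ?_, ?_⟩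
    · rw [hZ2]
      ext <;> simp
    · rw [hZ3]; ring

end spc

end GOS
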