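import Pool.Agent.GOS.StB

/-!
# GOS [D5V]: irreducible subspaces of dimension five (helper25)

For an orthonormal basis `w₁, w₂` of `W = Uᗮ` let `T_i x = b(w_i, x)` on `U`.  `T₁T₂ - T₂T₁` and
`T₁² + T₂²` commute with `H`; the first is skew, so `0` (odd dimension), the second is a scalar `c`.
The complex matrix `T₁ + √(-1) T₂` is skew of odd size, so `c⁵ = det(T₁ - √(-1) T₂) det(T₁ + √(-1) T₂) = 0`.
-/

set_option autoImplicit false

namespace GOS

open scoped InnerProductSpace Quaternion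
open Matrix

namespace D5Vx

lemma det_skew (M : Matrix (Fin 5) (Fin 5) ℂ) (hM : Mᵀ = -M) : M.det = 0 := by
  have h1 : M.det = -M.det := by
    conv_lhs => rw [← Matrix.det_transpose, hM, Matrix.det_neg, Fintype.card_fin]
    ring
  linear_combination (1 / 2) * h1

variable {V : Type} [NormedAddCommGroup V] [InnerProductSpace ℝ V] [FiniteDimensional ℝ V]

lemma odd {U : Submodule ℝ V} (hU : Module.finrank ℝ U = 5) (S T : V →ₗ[ℝ] V)
    (hS : ∀ x ∈ U, S x ∈ U) (hT : ∀ x ∈ U, T x ∈ U)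
    (sS : ∀ x ∈ U, ∀ y ∈ U, ⟪S x, y⟫_ℝ = -⟪x, S y⟫_ℝ)
    (sT : ∀ x ∈ U, ∀ y ∈ U, ⟪T x, y⟫_ℝ = -⟪x, T y⟫_ℝ)
    (hST : ∀ x ∈ U, S (T x) = T (S x)) (c : ℝ) (hc : ∀ x ∈ U, S (S x) + T (T x) = c • x) :
    c = 0 := by
  obtain ⟨e, -⟩ : ∃ e : OrthonormalBasis (Fin 5) ℝ U, True :=
    ⟨(stdOrthonormalBasis ℝ U).reindex (finCongr hU), trivial⟩
  have eU : ∀ i, (e i : V) ∈ U := fun i => (e i).2
  have hexp : ∀ y ∈ U, y = ∑ k, ⟪(e k : V), y⟫_ℝ • (e k : V) := by
    intro y hy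
    have h1 := congrArg (Subtype.val) (e.sum_repr' ⟨y, hy⟩)
    rw [Submodule.coe_sum] at h1
    exact h1.symm
  obtain ⟨mt, hmt⟩ : ∃ mt : (V →ₗ[ℝ] V) → Matrix (Fin 5) (Fin 5) ℝ,
      ∀ A i j, mt A i j = ⟪(e i : V), A (e j)⟫_ℝ :=
    ⟨fun A => Matrix.of fun i j => ⟪(e i : V), A (e j)⟫_ℝ, fun _ _ _ => rfl⟩
  have hmul : ∀ A B : V →ₗ[ℝ] V, (∀ x ∈ U, B x ∈ U) → mt A * mt B = mt (A ∘ₗ B) := by
    intro A B hB
    ext i j
    rw [Matrix.mul_apply, hmt, LinearMap.comp_apply, hexp (B (e j)) (hB _ (eU j)), map_sum,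
      inner_sum]
    refine Finset.sum_congr rfl fun k _ => ?_
    rw [hmt, hmt, map_smul, real_inner_smul_right]
    ring
  have hskew : ∀ A : V →ₗ[ℝ] V, (∀ x ∈ U, ∀ y ∈ U, ⟪A x, y⟫_ℝ = -⟪x, A y⟫_ℝ) →
      (mt A)ᵀ = -mt A := by
    intro A hA
    ext i j
    rw [Matrix.transpose_apply, Matrix.neg_apply, hmt, hmt, real_inner_comm, hA _ (eU i) _ (eU j)]
  obtain ⟨P, hP⟩ : ∃ P : Matrix (Fin 5) (Fin 5) ℂ, P = (mt S).map Complex.ofRealHom := ⟨_, rfl⟩
  obtain ⟨Q, hQ⟩ : ∃ Q : Matrix (Fin 5) (Fin 5) ℂ, Q = (mt T).map Complex.ofRealHom := ⟨_, rfl⟩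
  have hPt : Pᵀ = -P := by
    rw [hP, ← Matrix.transpose_map, hskew S sS]
    ext i j
    simp
  have hQt : Qᵀ = -Q := by
    rw [hQ, ← Matrix.transpose_map, hskew T sT]
    ext i j
    simp
  have hPQ : P * Q = Q * P := by
    rw [hP, hQ, ← Matrix.map_mul, ← Matrix.map_mul, hmul S T hT, hmul T S hS]
    congr 1
    ext i j
    rw [hmt, hmt, LinearMap.comp_apply, LinearMap.comp_apply, hST _ (eU j)]
  have hsum : P * P + Q * Q = (c : ℂ) • 1 := by
    rw [hP, hQ, ← Matrix.map_mul, ← Matrix.map_mul, hmul S S hS, hmul T T hT]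
    ext i j
    rw [Matrix.add_apply, Matrix.map_apply, Matrix.map_apply, hmt, hmt, LinearMap.comp_apply,
      LinearMap.comp_apply, ← map_add, ← inner_add_right, hc _ (eU j), real_inner_smul_right,
      Matrix.smul_apply, Matrix.one_apply]
    have h1 : ⟪(e i : V), (e j : V)⟫_ℝ = if i = j then 1 else 0 := by
      have h2 := e.inner_eq_ite i j
      rw [← h2]
      rfl
    rw [h1]
    by_cases hij : i = j
    · simp [hij]
    · simp [hij]
  have hM : (P + Complex.I • Q)ᵀ = -(P + Complex.I • Q) := by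
    rw [Matrix.transpose_add, Matrix.transpose_smul, hPt, hQt, smul_neg, neg_add]
  have h1 : (P - Complex.I • Q) * (P + Complex.I • Q) = (c : ℂ) • 1 := by
    rw [Matrix.sub_mul, Matrix.mul_add, Matrix.mul_add, Matrix.mul_smul, Matrix.smul_mul,
      Matrix.smul_mul, Matrix.mul_smul, smul_smul, Complex.I_mul_I, hPQ, ← hsum, neg_one_smul]
    abel
  have h2 := congrArg Matrix.det h1
  rw [Matrix.det_mul, det_skew _ hM, mul_zero, Matrix.det_smul, Matrix.det_one, mul_one,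
    Fintype.card_fin] at h2
  have h3 : (c : ℂ) = 0 := pow_eq_zero_iff (n := 5) (by norm_num) |>.1 h2.symm
  exact_mod_cast h3

end D5Vx

open D5Vx in
theorem thm_D5V (h1 : St_GEN) : St_D5V := by
  intro V _ _ _ H b hS h7 U hU h5 hb0
  obtain ⟨g1, g2, g3, -, g5⟩ := h1 V H hS.toSkewLie
  have hUinv := hU.2.1
  have hW := g1 U hUinv
  have hUU : Uᗮᗮ = U := Submodule.orthogonal_orthogonal U
  have hf : Module.finrank ℝ Uᗮ = 2 := by
    have h2 := Submodule.finrank_add_finrank_orthogonal U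
    omega
  obtain ⟨f, -⟩ : ∃ f : OrthonormalBasis (Fin 2) ℝ Uᗮ, True :=
    ⟨(stdOrthonormalBasis ℝ Uᗮ).reindex (finCongr hf), trivial⟩
  have fin : ∀ i j, ⟪(f i : V), (f j : V)⟫_ℝ = if i = j then 1 else 0 := by
    intro i j
    have h2 := f.inner_eq_ite i j
    rw [← h2]
    rfl
  have fex : ∀ y ∈ Uᗮ, y = ∑ k, ⟪(f k : V), y⟫_ℝ • (f k : V) := by
    intro y hy
    have h1 := congrArg (Subtype.val) (f.sum_repr' ⟨y, hy⟩)
    rw [Submodule.coe_sum] at h1
    exact h1.symm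
  obtain ⟨w1, hw1⟩ : ∃ w : V, w = (f 0 : V) := ⟨_, rfl⟩
  obtain ⟨w2, hw2⟩ : ∃ w : V, w = (f 1 : V) := ⟨_, rfl⟩
  have m1 : w1 ∈ Uᗮ := by rw [hw1]; exact (f 0).2
  have m2 : w2 ∈ Uᗮ := by rw [hw2]; exact (f 1).2
  have n12 : ⟪w1, w2⟫_ℝ = 0 := by rw [hw1, hw2, fin]; rfl
  have hexp : ∀ w ∈ Uᗮ, w = ⟪w1, w⟫_ℝ • w1 + ⟪w2, w⟫_ℝ • w2 := by
    intro w hw
    have h2 := fex w hw
    rw [Fin.sum_univ_two, ← hw1, ← hw2] at h2
    exact h2
  have self0 : ∀ A ∈ H, ∀ x, ⟪x, A x⟫_ℝ = 0 := by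
    intro A hA x
    have h2 := hS.skew A hA x x
    rw [real_inner_comm] at h2
    linarith
  -- the action on `W`
  have hl : ∀ A ∈ H, ∃ l : ℝ, A w1 = l • w2 ∧ A w2 = -(l • w1) := by
    intro A hA
    refine ⟨⟪w2, A w1⟫_ℝ, ?_, ?_⟩
    · have h2 := hexp _ (hW A hA w1 m1)
      rw [self0 A hA w1, zero_smul, zero_add] at h2
      exact h2
    · have h2 := hexp _ (hW A hA w2 m2)
      rw [self0 A hA w2, zero_smul, add_zero] at h2
      have h3 : ⟪w1, A w2⟫_ℝ = -⟪w2, A w1⟫_ℝ := by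
        have h4 := hS.skew A hA w1 w2
        rw [real_inner_comm] at h4
        linarith
      rw [h3, neg_smul] at h2
      exact h2
  -- (1)
  have hbU : ∀ x ∈ U, ∀ w ∈ Uᗮ, b w x ∈ U := by
    let U₀ : Submodule ℝ V :=
      { carrier := {x | x ∈ U ∧ ∀ w ∈ Uᗮ, ∀ w' ∈ Uᗮ, ⟪b x w, w'⟫_ℝ = 0}
        add_mem' := by
          rintro x y ⟨hx, hx'⟩ ⟨hy, hy'⟩
          refine ⟨U.add_mem hx hy, fun w hw w' hw' => ?_⟩
          rw [map_add, LinearMap.add_apply, inner_add_left, hx' w hw w' hw', hy' w hw w' hw',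
            add_zero]
        zero_mem' := by
          refine ⟨U.zero_mem, fun w hw w' hw' => ?_⟩
          rw [map_zero, LinearMap.zero_apply, inner_zero_left]
        smul_mem' := by
          rintro r x ⟨hx, hx'⟩
          refine ⟨U.smul_mem r hx, fun w hw w' hw' => ?_⟩
          rw [map_smul, LinearMap.smul_apply, real_inner_smul_left, hx' w hw w' hw', mul_zero] }
    have hinv : Inv H U₀ := by
      rintro A hA x ⟨hx, hx'⟩
      refine ⟨hUinv A hA x hx, fun w hw w' hw' => ?_⟩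
      have h2 : b (A x) w = A (b x w) - b x (A w) := by
        rw [hS.eqv A hA]
        abel
      rw [h2, inner_sub_left, hS.skew A hA, hx' w hw _ (hW A hA w' hw'),
        hx' _ (hW A hA w hw) w' hw', neg_zero, sub_zero]
    have hle : U₀ ≤ U := fun x hx => hx.1
    have hne : U₀ ≠ ⊥ := by
      let Ψ : U →ₗ[ℝ] (Fin 4 → ℝ) :=
        { toFun := fun x => ![⟪b x w1, w1⟫_ℝ, ⟪b x w1, w2⟫_ℝ, ⟪b x w2, w1⟫_ℝ, ⟪b x w2, w2⟫_ℝ]
          map_add' := by
            intro x y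
            ext i
            fin_cases i <;> simp [inner_add_left]
          map_smul' := by
            intro r x
            ext i
            fin_cases i <;> simp [real_inner_smul_left] }
      have hk : LinearMap.ker Ψ ≠ ⊥ := by
        apply LinearMap.ker_ne_bot_of_finrank_lt
        rw [h5, Module.finrank_fin_fun]
        norm_num
      obtain ⟨x, hx, hx0⟩ := Submodule.exists_mem_ne_zero_of_ne_bot hk
      have hx' : Ψ x = 0 := hx
      have k0 : ⟪b x w1, w1⟫_ℝ = 0 := congrFun hx' 0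
      have k1 : ⟪b x w1, w2⟫_ℝ = 0 := congrFun hx' 1
      have k2 : ⟪b x w2, w1⟫_ℝ = 0 := congrFun hx' 2
      have k3 : ⟪b x w2, w2⟫_ℝ = 0 := congrFun hx' 3
      intro hbot
      apply hx0
      have hmem : (x : V) ∈ U₀ := by
        refine ⟨x.2, fun w hw w' hw' => ?_⟩
        rw [hexp w hw, hexp w' hw', map_add, map_smul, map_smul, inner_add_left, inner_add_right,
          inner_add_right, real_inner_smul_left, real_inner_smul_left, real_inner_smul_right,
          real_inner_smul_right, real_inner_smul_left, real_inner_smul_left,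
          real_inner_smul_right, real_inner_smul_right, k0, k1, k2, k3]
        ring
      rw [hbot, Submodule.mem_bot] at hmem
      exact Subtype.ext hmem
    have heq : U₀ = U := (hU.2.2 U₀ hle hinv).resolve_left hne
    intro x hx w hw
    have h2 : x ∈ U₀ := by rw [heq]; exact hx
    rw [← hUU, Submodule.mem_orthogonal']
    intro w' hw'
    rw [hS.symm]
    exact h2.2 w hw w' hw'
  have hbW : ∀ w ∈ Uᗮ, ∀ w' ∈ Uᗮ, b w w' ∈ Uᗮ := g2 b Uᗮ hS hW
  have bexp : ∀ x w, b (x + w) (x + w) = b x x + (2 : ℝ) • b w x + b w w := by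
    intro x w
    simp only [map_add, LinearMap.add_apply]
    rw [hS.symm x w, two_smul]
    abel
  -- (2) skewness
  have hself : ∀ w ∈ Uᗮ, ∀ x ∈ U, ⟪b w x, x⟫_ℝ = 0 := by
    intro w hw x hx
    have h2 := g3 b U hS hUinv x hx w hw
    rw [bexp, hb0 x hx, zero_add, inner_add_left, real_inner_smul_left,
      Submodule.inner_left_of_mem_orthogonal hx (hbW w hw w hw)] at h2
    linarith
  have hsk : ∀ w ∈ Uᗮ, ∀ x ∈ U, ∀ y ∈ U, ⟪b w x, y⟫_ℝ = -⟪x, b w y⟫_ℝ := by
    intro w hw x hx y hy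
    have h2 := hself w hw (x + y) (U.add_mem hx hy)
    rw [map_add, inner_add_left, inner_add_right, inner_add_right, hself w hw x hx,
      hself w hw y hy, real_inner_comm x (b w y)] at h2
    linarith
  obtain ⟨T1, hT1⟩ : ∃ T : V →ₗ[ℝ] V, T = b w1 := ⟨_, rfl⟩
  obtain ⟨T2, hT2⟩ : ∃ T : V →ₗ[ℝ] V, T = b w2 := ⟨_, rfl⟩
  have u1 : ∀ x ∈ U, T1 x ∈ U := fun x hx => by rw [hT1]; exact hbU x hx w1 m1
  have u2 : ∀ x ∈ U, T2 x ∈ U := fun x hx => by rw [hT2]; exact hbU x hx w2 m2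
  have s1 : ∀ x ∈ U, ∀ y ∈ U, ⟪T1 x, y⟫_ℝ = -⟪x, T1 y⟫_ℝ := by rw [hT1]; exact hsk w1 m1
  have s2 : ∀ x ∈ U, ∀ y ∈ U, ⟪T2 x, y⟫_ℝ = -⟪x, T2 y⟫_ℝ := by rw [hT2]; exact hsk w2 m2
  have e1 : ∀ A ∈ H, ∀ l : ℝ, A w1 = l • w2 → ∀ x, A (T1 x) = l • T2 x + T1 (A x) := by
    intro A hA l hl x
    rw [hT1, hT2, hS.eqv A hA, hl, map_smul, LinearMap.smul_apply]
  have e2 : ∀ A ∈ H, ∀ l : ℝ, A w2 = -(l • w1) → ∀ x, A (T2 x) = -(l • T1 x) + T2 (A x) := by
    intro A hA l hl x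
    rw [hT1, hT2, hS.eqv A hA, hl, map_neg, map_smul, LinearMap.neg_apply, LinearMap.smul_apply]
  -- the commutator
  obtain ⟨K, hK⟩ : ∃ K : V →ₗ[ℝ] V, K = T1 ∘ₗ T2 - T2 ∘ₗ T1 := ⟨_, rfl⟩
  have hKx : ∀ x, K x = T1 (T2 x) - T2 (T1 x) := fun x => by rw [hK]; rfl
  have uK : ∀ x ∈ U, K x ∈ U := by
    intro x hx
    rw [hKx]
    exact U.sub_mem (u1 _ (u2 x hx)) (u2 _ (u1 x hx))
  have sK : ∀ x ∈ U, ∀ y ∈ U, ⟪K x, y⟫_ℝ = -⟪x, K y⟫_ℝ := by
    intro x hx y hy
    rw [hKx, hKx, inner_sub_left, inner_sub_right, s1 _ (u2 x hx) y hy, s2 x hx _ (u1 y hy),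
      s2 _ (u1 x hx) y hy, s1 x hx _ (u2 y hy)]
    ring
  have cK : ∀ A ∈ H, ∀ x, K (A x) = A (K x) := by
    intro A hA x
    obtain ⟨l, l1, l2⟩ := hl A hA
    rw [hKx, hKx, map_sub, e1 A hA l l1, e2 A hA l l2, e2 A hA l l2, e1 A hA l l1]
    simp only [map_add, map_neg, map_smul]
    abel
  have hK0 : ∀ x ∈ U, K x = 0 := by
    obtain ⟨d, hd⟩ := g5 U (K ∘ₗ K) hU (fun x hx => uK _ (uK x hx))
      (fun x hx y hy => by
        rw [LinearMap.comp_apply, LinearMap.comp_apply, sK _ (uK x hx) y hy, sK x hx _ (uK y hy),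
          neg_neg])
      (fun A hA x hx => by
        rw [LinearMap.comp_apply, LinearMap.comp_apply, cK A hA, cK A hA])
    have hd0 : d = 0 := by
      refine odd h5 K 0 uK (fun x hx => by rw [LinearMap.zero_apply]; exact U.zero_mem) sK
        (fun x hx y hy => by simp) (fun x hx => by simp) d fun x hx => ?_
      rw [LinearMap.zero_apply, add_zero]
      exact hd x hx
    intro x hx
    have h2 := hd x hx
    rw [hd0, zero_smul, LinearMap.comp_apply] at h2
    have h3 := sK x hx _ (uK x hx)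
    rw [h2, inner_zero_right, neg_zero] at h3
    exact inner_self_eq_zero.1 h3
  -- the sum of the squares
  have hT0 : ∀ x ∈ U, T1 x = 0 ∧ T2 x = 0 := by
    have hcom : ∀ x ∈ U, T1 (T2 x) = T2 (T1 x) := by
      intro x hx
      have h2 := hK0 x hx
      rw [hKx] at h2
      exact sub_eq_zero.1 h2
    obtain ⟨d, hd⟩ := g5 U (T1 ∘ₗ T1 + T2 ∘ₗ T2) hU
      (fun x hx => U.add_mem (u1 _ (u1 x hx)) (u2 _ (u2 x hx)))
      (fun x hx y hy => by
        rw [LinearMap.add_apply, LinearMap.add_apply, LinearMap.comp_apply, LinearMap.comp_apply,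
          LinearMap.comp_apply, LinearMap.comp_apply, inner_add_left, inner_add_right,
          s1 _ (u1 x hx) y hy, s1 x hx _ (u1 y hy), s2 _ (u2 x hx) y hy, s2 x hx _ (u2 y hy)]
        ring)
      (fun A hA x hx => by
        obtain ⟨l, l1, l2⟩ := hl A hA
        rw [LinearMap.add_apply, LinearMap.add_apply, LinearMap.comp_apply, LinearMap.comp_apply,
          LinearMap.comp_apply, LinearMap.comp_apply, map_add, e1 A hA l l1, e2 A hA l l2,
          e2 A hA l l2, e1 A hA l l1]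
        simp only [map_add, map_neg, map_smul]
        abel)
    have hd0 : d = 0 := by
      refine odd h5 T1 T2 u1 u2 s1 s2 hcom d fun x hx => ?_
      exact hd x hx
    intro x hx
    have h2 := hd x hx
    rw [hd0, zero_smul, LinearMap.add_apply, LinearMap.comp_apply, LinearMap.comp_apply] at h2
    have h3 : ⟪T1 (T1 x) + T2 (T2 x), x⟫_ℝ = 0 := by rw [h2, inner_zero_left]
    rw [inner_add_left, s1 _ (u1 x hx) x hx, s2 _ (u2 x hx) x hx] at h3
    have h4 := real_inner_self_nonneg (x := T1 x)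
    have h5 := real_inner_self_nonneg (x := T2 x)
    exact ⟨(inner_self_eq_zero (𝕜 := ℝ)).1 (by linarith),
      (inner_self_eq_zero (𝕜 := ℝ)).1 (by linarith)⟩
  have hmix : ∀ w ∈ Uᗮ, ∀ x ∈ U, b w x = 0 := by
    intro w hw x hx
    obtain ⟨h2, h3⟩ := hT0 x hx
    rw [hT1] at h2
    rw [hT2] at h3
    rw [hexp w hw, map_add, map_smul, map_smul, LinearMap.add_apply, LinearMap.smul_apply,
      LinearMap.smul_apply, h2, h3, smul_zero, smul_zero, add_zero]
  -- (3)
  have h3 : b w1 w1 = 0 ∧ b w1 w2 = 0 ∧ b w2 w2 = 0 := by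
    by_cases hz : ∀ A ∈ H, A w1 = 0 ∧ A w2 = 0
    · have h4 : ∀ w ∈ Uᗮ, b w w = 0 := by
        intro w hw
        obtain ⟨A, hA, hAw⟩ := hS.tan w
        rw [hAw, hexp w hw, map_add, map_smul, map_smul, (hz A hA).1, (hz A hA).2, smul_zero,
          smul_zero, add_zero]
      have h5 := h4 _ (Uᗮ.add_mem m1 m2)
      rw [bexp, h4 w1 m1, h4 w2 m2, hS.symm w2 w1, zero_add, add_zero] at h5
      exact ⟨h4 w1 m1, (smul_eq_zero.1 h5).resolve_left two_ne_zero, h4 w2 m2⟩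
    · push Not at hz
      obtain ⟨A, hA, hAz⟩ := hz
      obtain ⟨l, l1, l2⟩ := hl A hA
      have hl0 : l ≠ 0 := by
        intro h4
        rw [h4, zero_smul] at l1 l2
        exact hAz l1 (by rw [l2, neg_zero])
      have hAA : ∀ w ∈ Uᗮ, A (A w) = -((l * l) • w) := by
        intro w hw
        obtain ⟨a, c, hac⟩ : ∃ a c : ℝ, w = a • w1 + c • w2 := ⟨_, _, hexp w hw⟩
        rw [hac]
        simp only [map_add, map_smul, map_neg, l1, l2]
        module
      have ap : A (b w1 w1) = (2 * l) • b w1 w2 := by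
        rw [hS.eqv A hA, l1, map_smul, LinearMap.smul_apply, map_smul, hS.symm w2 w1, mul_smul,
          two_smul]
      have ar : A (b w2 w2) = -((2 * l) • b w1 w2) := by
        rw [hS.eqv A hA, l2, map_neg, map_neg, map_smul, LinearMap.neg_apply,
          LinearMap.smul_apply, map_smul, hS.symm w2 w1, mul_smul, two_smul, neg_add]
      have aq : A (b w1 w2) = l • b w2 w2 - l • b w1 w1 := by
        rw [hS.eqv A hA, l1, l2, map_neg, map_smul, LinearMap.smul_apply, map_smul,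
          sub_eq_add_neg]
      have aap := hAA _ (hbW w1 m1 w1 m1)
      have aar := hAA _ (hbW w2 m2 w2 m2)
      rw [ap, map_smul, aq] at aap
      rw [ar, map_neg, map_smul, aq] at aar
      obtain ⟨p, hp⟩ : ∃ p, p = b w1 w1 := ⟨_, rfl⟩
      obtain ⟨q, hq⟩ : ∃ q, q = b w1 w2 := ⟨_, rfl⟩
      obtain ⟨r, hr⟩ : ∃ r, r = b w2 w2 := ⟨_, rfl⟩
      rw [← hp, ← hr] at aap aar
      have hll : l * l ≠ 0 := mul_ne_zero hl0 hl0
      have f1 : (l * l) • (p - (2 : ℝ) • r) = 0 := by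
        have h4 : (2 * l) • (l • r - l • p) = (l * l) • ((2 : ℝ) • r - (2 : ℝ) • p) := by
          simp only [smul_sub, smul_smul]
          congr 1 <;> congr 1 <;> ring
        rw [h4] at aap
        have h5 : (l * l) • (p - (2 : ℝ) • r) =
            -((l * l) • ((2 : ℝ) • r - (2 : ℝ) • p)) - (l * l) • p := by
          simp only [smul_sub, two_smul, smul_add]
          abel
        rw [h5, aap]
        abel
      have f2 : (l * l) • (r - (2 : ℝ) • p) = 0 := by
        have h4 : (2 * l) • (l • r - l • p) = (l * l) • ((2 : ℝ) • r - (2 : ℝ) • p) := by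
          simp only [smul_sub, smul_smul]
          congr 1 <;> congr 1 <;> ring
        rw [h4] at aar
        have h5 : (l * l) • (r - (2 : ℝ) • p) =
            (l * l) • ((2 : ℝ) • r - (2 : ℝ) • p) - (l * l) • r := by
          simp only [smul_sub, two_smul, smul_add]
          abel
        have h6 := neg_eq_iff_eq_neg.1 aar
        rw [neg_neg] at h6
        rw [h5, h6]
        abel
      have f3 := (smul_eq_zero.1 f1).resolve_left hll
      have f4 := (smul_eq_zero.1 f2).resolve_left hll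
      have hp0 : p = 0 := by
        have h4 : r = (2 : ℝ) • p := sub_eq_zero.1 f4
        rw [h4, smul_smul] at f3
        have h5 : (-3 : ℝ) • p = 0 := by
          rw [← f3]
          have h6 : p - (2 * 2 : ℝ) • p = (1 : ℝ) • p - (2 * 2 : ℝ) • p := by rw [one_smul]
          rw [h6, ← sub_smul]
          norm_num
        exact (smul_eq_zero.1 h5).resolve_left (by norm_num)
      have hr0 : r = 0 := by
        have h4 : r = (2 : ℝ) • p := sub_eq_zero.1 f4
        rw [h4, hp0, smul_zero]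
      have hq0 : b w1 w2 = 0 := by
        have h4 : b w1 w1 = 0 := by rw [← hp, hp0]
        rw [h4, map_zero] at ap
        exact (smul_eq_zero.1 ap.symm).resolve_left (mul_ne_zero two_ne_zero hl0)
      exact ⟨by rw [← hp, hp0], hq0, by rw [← hr, hr0]⟩
  obtain ⟨p0, q0, r0⟩ := h3
  have hww : ∀ w ∈ Uᗮ, b w w = 0 := by
    intro w hw
    rw [hexp w hw]
    simp only [map_add, map_smul, LinearMap.add_apply, LinearMap.smul_apply, p0, q0, r0,
      hS.symm w2 w1, smul_zero, add_zero]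
  intro x
  obtain ⟨u, hu, w, hw, rfl⟩ := U.exists_add_mem_mem_orthogonal x
  rw [bexp, hb0 u hu, hmix w hw u hu, hww w hw, smul_zero, add_zero, add_zero]

end GOS
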