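import Pool.Agent.GOS.StB

/-!
# Seven-dimensional g.o. spaces (MP_cdb478_gt), module D6A (helper51)
-/

namespace GOS

open scoped InnerProductSpace

private theorem d6a_riesz {V : Type} [NormedAddCommGroup V] [InnerProductSpace ℝ V]
    [FiniteDimensional ℝ V] (ω : V →ₗ[ℝ] V →ₗ[ℝ] ℝ) :
    ∃ F : V →ₗ[ℝ] V, ∀ x y, ⟪F x, y⟫_ℝ = ω x y := by
  have hF : ∀ x, ∃ v : V, ∀ y, ⟪v, y⟫_ℝ = ω x y := by
    intro x
    refine ⟨(InnerProductSpace.toDual ℝ V).symm (LinearMap.toContinuousLinearMap (ω x)),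
      fun y => ?_⟩
    rw [InnerProductSpace.toDual_symm_apply]
    rfl
  choose f hf using hF
  refine ⟨{ toFun := f, map_add' := fun x y => ?_, map_smul' := fun r x => ?_ }, hf⟩
  · refine ext_inner_right ℝ fun z => ?_
    rw [inner_add_left, hf, hf, hf, map_add, LinearMap.add_apply]
  · refine ext_inner_right ℝ fun z => ?_
    rw [RingHom.id_apply, real_inner_smul_left, hf, hf, map_smul, LinearMap.smul_apply,
      smul_eq_mul]

/-- the orthogonal complement of `U` is spanned by `t` -/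
private theorem d6a_mem {V : Type} [NormedAddCommGroup V] [InnerProductSpace ℝ V]
    [FiniteDimensional ℝ V] {U : Submodule ℝ V} {t : V} (hV : Module.finrank ℝ V = 7)
    (hU : Module.finrank ℝ U = 6) (ht : ‖t‖ = 1) (htU : t ∈ Uᗮ) {v : V} (hv : ⟪v, t⟫_ℝ = 0) :
    v ∈ U := by
  have h1 : Module.finrank ℝ Uᗮ = 1 := by
    have h2 := Submodule.finrank_add_finrank_orthogonal U
    omega
  have ht0 : t ≠ 0 := by
    intro h2
    rw [h2, norm_zero] at ht
    exact zero_ne_one ht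
  have hspan : Uᗮ = Submodule.span ℝ {t} := by
    symm
    apply Submodule.eq_of_le_of_finrank_eq
    · rw [Submodule.span_singleton_le_iff_mem]
      exact htU
    · rw [h1, finrank_span_singleton ht0]
  have h3 : v ∈ Uᗮᗮ := by
    rw [Submodule.mem_orthogonal']
    intro u hu
    rw [hspan, Submodule.mem_span_singleton] at hu
    obtain ⟨a, rfl⟩ := hu
    rw [real_inner_smul_right, hv, mul_zero]
  rwa [Submodule.orthogonal_orthogonal] at h3

theorem thm_D6A (h1 : St_SCM) : St_D6A := by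
  intro g _ _ _ V _ _ _ k B m ι H b U J t c D
  have hS := D.fr.sit
  have hιm : ∀ x, ι x ∈ m := by
    intro x
    rw [← D.fr.rng]
    exact ⟨x, rfl⟩
  have hAt : ∀ A ∈ k, ⁅A, ι t⁆ = 0 := by
    intro A hA
    obtain ⟨A', hA', h2⟩ := D.fr.lift A hA
    rw [← h2, D.Ht A' hA', map_zero]
  refine ⟨hAt, ?_⟩
  -- the polarised form of `bf`
  have hpol : ∀ x ∈ U, ∀ Z ∈ m,
      c * B (ι (J x)) Z = B ⁅Z, ι x⁆ (ι t) + B ⁅Z, ι t⁆ (ι x) := by
    intro x hx Z hZ
    have e1 := D.bf x hx 1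
    have e2 := D.bf x hx 0
    have e3 := D.bf 0 U.zero_mem 1
    rw [one_smul] at e1 e3
    rw [zero_smul, add_zero, zero_mul, zero_smul] at e2
    rw [zero_add, map_zero, smul_zero] at e3
    rw [map_add b, LinearMap.add_apply, map_add, map_add, e2, e3, zero_add, add_zero,
      hS.symm t x, one_mul] at e1
    have e4 : (2 : ℝ) • b x t = c • J x := by rw [two_smul, e1]
    have e5 := D.fr.bdef x t Z hZ
    rw [← e5]
    calc c * B (ι (J x)) Z = B (ι (c • J x)) Z := by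
          rw [map_smul, map_smul, LinearMap.smul_apply, smul_eq_mul]
      _ = B (ι ((2 : ℝ) • b x t)) Z := by rw [e4]
      _ = 2 * B (ι (b x t)) Z := by
          rw [map_smul, map_smul, LinearMap.smul_apply, smul_eq_mul]
  -- `[t, x] = v`, `v ∈ U`
  have htt : ∀ x ∈ U, ⟪x, t⟫_ℝ = 0 := fun x hx => (Submodule.mem_orthogonal _ _).1 D.tU x hx
  have hbr : ∀ x ∈ U, B ⁅ι t, ι x⁆ (ι t) = 0 := by
    intro x hx
    have e1 := hpol x hx (ι t) (hιm t)
    rw [D.fr.iso, htt _ (D.JU x hx).1, mul_zero, lie_self, map_zero, LinearMap.zero_apply,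
      add_zero] at e1
    exact e1.symm
  have hv : ∀ x ∈ U, ∃ v ∈ U, ⁅ι t, ι x⁆ = ι v := by
    intro x hx
    have hm : ⁅ι t, ι x⁆ ∈ m := by
      have hK : ∀ A ∈ k, killingForm ℝ g ⁅ι t, ι x⁆ A = 0 := by
        intro A hA
        obtain ⟨A', hA', h2⟩ := D.fr.lift A hA
        have e1 : killingForm ℝ g ⁅ι t, ι x⁆ A = killingForm ℝ g (ι t) ⁅ι x, A⁆ :=
          LieModule.traceForm_apply_lie_apply ℝ g g _ _ _
        rw [e1, ← lie_skew, ← h2, map_neg, LieModule.traceForm_comm,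
          D.ort (A' x) (D.irr.2.1 A' hA' x hx) t D.tU, neg_zero]
      obtain ⟨A₀, hA₀, M, hM, hAM⟩ := Submodule.mem_sup.1
        (by rw [D.red.isCompl.sup_eq_top]; trivial : ⁅ι t, ι x⁆ ∈ k.toSubmodule ⊔ m)
      have e2 := hK A₀ hA₀
      rw [← hAM, map_add, LinearMap.add_apply, LieModule.traceForm_comm ℝ g g M A₀,
        D.red.orth A₀ hA₀ M hM, add_zero] at e2
      have e3 : A₀ = 0 := by
        by_contra h0
        exact absurd e2 (D.red.neg A₀ hA₀ h0).ne
      rw [← hAM, e3, zero_add]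
      exact hM
    rw [← D.fr.rng] at hm
    obtain ⟨v, hv⟩ := hm
    refine ⟨v, ?_, hv.symm⟩
    apply d6a_mem D.dimV D.dimU D.t1 D.tU
    rw [← D.fr.iso, hv]
    exact hbr x hx
  -- the form `ω`
  obtain ⟨F, hF⟩ := d6a_riesz (V := V)
    (LinearMap.mk₂ ℝ (fun x y => B ⁅ι x, ι y⁆ (ι t))
      (fun x x' y => by rw [map_add, add_lie, map_add, LinearMap.add_apply])
      (fun r x y => by rw [map_smul, smul_lie, map_smul, LinearMap.smul_apply])
      (fun x y y' => by rw [map_add, lie_add, map_add, LinearMap.add_apply])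
      (fun r x y => by rw [map_smul, lie_smul, map_smul, LinearMap.smul_apply]))
  have hF' : ∀ x y, ⟪F x, y⟫_ℝ = B ⁅ι x, ι y⁆ (ι t) := by
    intro x y
    rw [hF]
    rfl
  have hFsk : ∀ x y, ⟪F x, y⟫_ℝ = - ⟪x, F y⟫_ℝ := by
    intro x y
    rw [real_inner_comm (F y) x, hF', hF', ← lie_skew, map_neg, LinearMap.neg_apply]
  have hFU : ∀ x ∈ U, F x ∈ U := by
    intro x hx
    apply d6a_mem D.dimV D.dimU D.t1 D.tU
    rw [hF', ← lie_skew, map_neg, LinearMap.neg_apply, hbr x hx, neg_zero]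
  have hFH : ∀ A ∈ H, ∀ x, F (A x) = A (F x) := by
    intro A hA x
    refine ext_inner_right ℝ fun y => ?_
    obtain ⟨X, hX, h2⟩ := (D.fr.mem A).1 hA
    rw [hS.skew A hA, hF', hF', h2, h2]
    have e1 := D.model.inv X hX ⁅ι x, ι y⁆ (ι t)
    rw [hAt X hX, map_zero, add_zero, leibniz_lie X, map_add, LinearMap.add_apply] at e1
    linarith
  obtain ⟨e₀, he⟩ := h1 V H hS.toSkewLie U J D.irr D.dimU D.JU (fun x _ y _ => D.Jskew x y)
    (fun A hA x _ => D.JH A hA x) F hFU (fun x _ y _ => hFsk x y) (fun A hA x _ => hFH A hA x)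
  have hω : ∀ x ∈ U, ∀ y, B ⁅ι x, ι y⁆ (ι t) = e₀ * ⟪J x, y⟫_ℝ := by
    intro x hx y
    rw [← hF', he x hx, real_inner_smul_left]
  refine ⟨e₀ + c, e₀, rfl, ?_, fun x hx y _ => hω x hx y⟩
  intro x hx
  obtain ⟨v, hvU, hv⟩ := hv x hx
  have h3 : ∀ z ∈ U, ⟪v - (e₀ + c) • J x, z⟫_ℝ = 0 := by
    intro z hz
    have e1 := hpol z hz (ι x) (hιm x)
    rw [D.fr.iso, hω x hx z, ← lie_skew, map_neg, LinearMap.neg_apply, hv, D.fr.iso,
      D.Jskew z x, real_inner_comm (J x) z] at e1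
    rw [inner_sub_left, real_inner_smul_left]
    linarith
  have h4 : v - (e₀ + c) • J x ∈ U :=
    U.sub_mem hvU (U.smul_mem _ (D.JU x hx).1)
  have h5 : v - (e₀ + c) • J x = 0 := inner_self_eq_zero.1 (h3 _ h4)
  rw [hv, sub_eq_zero.1 h5, map_smul]

end GOS
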