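import Pool.Agent.GOS.StB

/-!
# Seven-dimensional g.o. spaces (MP_cdb478_gt), module D6B
-/

set_option autoImplicit false

namespace GOS

open scoped InnerProductSpace

/-- the orthogonal complement of `U` is spanned by `t` -/
private theorem d6b_mem {V : Type} [NormedAddCommGroup V] [InnerProductSpace ℝ V]
    [FiniteDimensional ℝ V] {U : Submodule ℝ V} {t : V} (hV : Module.finrank ℝ V = 7)
    (hU : Module.finrank ℝ U = 6) (ht : ‖t‖ = 1) (htU : t ∈ Uᗮ) {v : V} (hv : ⟪v, t⟫_ℝ = 0) :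
    v ∈ U := by
  have h1 : Module.finrank ℝ Uᗮ = 1 := by
    have h2 := Submodule.finrank_add_finrank_orthogonal U
    omega
  have ht0 : t ≠ 0 := by
    intro h2
    rw [h2, norm_zero] at ht
    exact zero_ne_one ht
  have hspan : Uᗮ = Submodule.span ℝ {t} := by
    symm
    apply Submodule.eq_of_le_of_finrank_eq
    · rw [Submodule.span_singleton_le_iff_mem]
      exact htU
    · rw [h1, finrank_span_singleton ht0]
  have h3 : v ∈ Uᗮᗮ := by
    rw [Submodule.mem_orthogonal']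
    intro u hu
    rw [hspan, Submodule.mem_span_singleton] at hu
    obtain ⟨a, rfl⟩ := hu
    rw [real_inner_smul_right, hv, mul_zero]
  rwa [Submodule.orthogonal_orthogonal] at h3

theorem thm_D6B : St_D6B := by
  intro g _ _ _ V _ _ _ k B m ι H b U J t c D htx e₀ he₀ hω
  have hS := D.fr.sit
  have hιm : ∀ x, ι x ∈ m := by
    intro x
    rw [← D.fr.rng]
    exact ⟨x, rfl⟩
  have htt : ⟪t, t⟫_ℝ = 1 := by
    rw [real_inner_self_eq_norm_sq, D.t1, one_pow]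
  have hdec : ∀ X : g, ∃ A ∈ k, ∃ u ∈ U, ∃ τ : ℝ, X = A + (ι u + τ • ι t) := by
    intro X
    have h1 : X ∈ k.toSubmodule ⊔ m := by
      rw [D.red.isCompl.sup_eq_top]
      exact Submodule.mem_top
    obtain ⟨A, hA, M, hM, h2⟩ := Submodule.mem_sup.1 h1
    rw [← D.fr.rng] at hM
    obtain ⟨v, rfl⟩ := hM
    refine ⟨A, hA, v - ⟪v, t⟫_ℝ • t, ?_, ⟪v, t⟫_ℝ, ?_⟩
    · apply d6b_mem D.dimV D.dimU D.t1 D.tU
      rw [inner_sub_left, real_inner_smul_left, htt, mul_one, sub_self]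
    · rw [map_sub, map_smul, sub_add_cancel, h2]
  have hAt : ∀ A ∈ k, ∀ z, B ⁅A, ι z⁆ (ι t) = 0 := by
    intro A hA z
    obtain ⟨A', hA', h2⟩ := D.fr.lift A hA
    rw [← h2, D.fr.iso, hS.skew A' hA', D.Ht A' hA', inner_zero_right, neg_zero]
  have hUt : ∀ z ∈ U, ⟪t, z⟫_ℝ = 0 := by
    intro z hz
    rw [real_inner_comm]
    exact Submodule.inner_right_of_mem_orthogonal hz D.tU
  -- the key identity
  have hkey : ∀ x ∈ U, ∀ y ∈ U, ∀ z ∈ U,
      B ⁅⁅ι x, ι y⁆, ι z⁆ (ι t) = -(e₀ * B ⁅ι x, ι y⁆ (ι (J z))) := by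
    intro x hx y hy z hz
    obtain ⟨A, hA, u, hu, τ, h1⟩ := hdec ⁅ι x, ι y⁆
    have h2 : ∀ z' ∈ U, B ⁅ι x, ι y⁆ (ι z') = ⟪u, z'⟫_ℝ := by
      intro z' hz'
      rw [h1, map_add, map_add, LinearMap.add_apply, LinearMap.add_apply, map_smul,
        LinearMap.smul_apply, D.model.ker A hA, D.fr.iso, D.fr.iso, hUt z' hz', smul_zero,
        add_zero, zero_add]
    rw [h2 _ (D.JU z hz).1, h1, add_lie, add_lie, smul_lie, htx z hz, smul_zero, add_zero,
      map_add, LinearMap.add_apply, hAt A hA, hω u hu z hz, D.Jskew u z]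
    ring
  have hskew : ∀ x y z, B ⁅ι x, ι y⁆ (ι z) = -B ⁅ι y, ι x⁆ (ι z) := by
    intro x y z
    rw [← lie_skew (ι x) (ι y), map_neg, LinearMap.neg_apply]
  have halt : ∀ y ∈ U, ∀ x ∈ U, ∀ z ∈ U, B ⁅ι y, ι x⁆ (ι z) = -B ⁅ι y, ι z⁆ (ι x) := by
    intro y hy x hx z hz
    have h1 := D.alt (x + z) (U.add_mem hx hz) y hy
    rw [map_add ι, lie_add, map_add B, LinearMap.add_apply, map_add, map_add, D.alt x hx y hy,
      D.alt z hz y hy] at h1
    linarith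
  have hcyc : ∀ x ∈ U, ∀ y ∈ U, ∀ z ∈ U, B ⁅ι x, ι y⁆ (ι z) = B ⁅ι z, ι x⁆ (ι y) := by
    intro x hx y hy z hz
    rw [halt x hx y hy z hz, hskew x z y, neg_neg]
  have hJU : ∀ x ∈ U, J x ∈ U := fun x hx => (D.JU x hx).1
  have hJJ : ∀ x ∈ U, J (J x) = -x := fun x hx => (D.JU x hx).2
  have hstar : ∀ x ∈ U, ∀ y ∈ U, ∀ z ∈ U,
      B ⁅ι (J x), ι y⁆ (ι z) + B ⁅ι x, ι (J y)⁆ (ι z) + B ⁅ι x, ι y⁆ (ι (J z)) = 0 := by
    intro x hx y hy z hz
    have h1 := congrArg (fun X => B X (ι t)) (lie_jacobi (ι x) (ι y) (ι z))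
    simp only [map_add, LinearMap.add_apply, map_zero, LinearMap.zero_apply] at h1
    rw [← lie_skew (ι x) ⁅ι y, ι z⁆, ← lie_skew (ι y) ⁅ι z, ι x⁆, ← lie_skew (ι z) ⁅ι x, ι y⁆,
      map_neg, map_neg, map_neg, LinearMap.neg_apply, LinearMap.neg_apply, LinearMap.neg_apply,
      hkey y hy z hz x hx, hkey z hz x hx y hy, hkey x hx y hy z hz,
      hcyc y hy z hz (J x) (hJU x hx), ← hcyc x hx (J y) (hJU y hy) z hz] at h1
    have h2 : e₀ * (B ⁅ι (J x), ι y⁆ (ι z) + B ⁅ι x, ι (J y)⁆ (ι z) +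
        B ⁅ι x, ι y⁆ (ι (J z))) = 0 := by
      linarith
    exact (mul_eq_zero.1 h2).resolve_left he₀
  have hhalf : ∀ x ∈ U, ∀ y ∈ U, ∀ z ∈ U,
      2 * B ⁅ι (J x), ι (J y)⁆ (ι z) = B ⁅ι x, ι y⁆ (ι z) := by
    intro x hx y hy z hz
    have h1 := hstar (J x) (hJU x hx) y hy z hz
    have h2 := hstar x hx (J y) (hJU y hy) z hz
    have h3 := hstar x hx y hy (J z) (hJU z hz)
    rw [hJJ x hx, map_neg, neg_lie, map_neg, LinearMap.neg_apply] at h1
    rw [hJJ y hy, map_neg, lie_neg, map_neg, LinearMap.neg_apply] at h2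
    rw [hJJ z hz, map_neg, map_neg] at h3
    linarith
  intro x hx y hy z hz
  have h1 := hhalf x hx y hy z hz
  have h2 := hhalf (J x) (hJU x hx) (J y) (hJU y hy) z hz
  rw [hJJ x hx, hJJ y hy, map_neg, map_neg, neg_lie, lie_neg, neg_neg] at h2
  linarith

end GOS
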