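import Pool.Agent.GOS.StB

/-!
# GOS, module D6C (helper1 for helper15)
-/

set_option autoImplicit false

namespace GOS

open scoped InnerProductSpace

/-- **D6C** -/
theorem thm_D6C : St_D6C := by
  intro g _ _ _ V _ _ _ k B m ι H b U J t c h6 ht0 e₀ he hz
  obtain ⟨hM, hE, hR, hF, hV, hI, hU, -, -, -, ht1, htU, -, hJU, hJs, hJH, hHt, -⟩ := h6
  have htt : ⟪t, t⟫_ℝ = 1 := by
    rw [real_inner_self_eq_norm_sq, ht1]
    norm_num
  have htU' : ∀ u ∈ U, ⟪u, t⟫_ℝ = 0 := (Submodule.mem_orthogonal U t).1 htU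
  have htU'' : ∀ u ∈ U, ⟪t, u⟫_ℝ = 0 := fun u hu => by rw [real_inner_comm, htU' u hu]
  have h1 : Module.finrank ℝ Uᗮ = 1 := by
    have h2 := Submodule.finrank_add_finrank_orthogonal U
    rw [hU, hV] at h2
    omega
  have ht0' : (⟨t, htU⟩ : Uᗮ) ≠ 0 := by
    intro h2
    have h3 : t = 0 := congrArg Subtype.val h2
    rw [h3, inner_zero_left] at htt
    exact zero_ne_one htt
  have h2 := (finrank_eq_one_iff_of_nonzero' (⟨t, htU⟩ : Uᗮ) ht0').1 h1
  have hdec : ∀ v : V, v - ⟪t, v⟫_ℝ • t ∈ U := by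
    intro v
    rw [← Submodule.orthogonal_orthogonal U, Submodule.mem_orthogonal]
    intro w hw
    obtain ⟨r, hr⟩ := h2 ⟨w, hw⟩
    have h3 : r • t = w := congrArg Subtype.val hr
    rw [← h3, inner_sub_right, real_inner_smul_left, real_inner_smul_left, real_inner_smul_right,
      htt, mul_one, sub_self]
  -- a vector orthogonal to `U` and `t` is zero
  have hzero : ∀ v : V, (∀ u ∈ U, ⟪v, u⟫_ℝ = 0) → ⟪v, t⟫_ℝ = 0 → v = 0 := by
    intro v h3 h4
    have h5 := h3 _ (hdec v)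
    rw [inner_sub_right, real_inner_smul_right, h4, mul_zero, sub_zero] at h5
    exact inner_self_eq_zero.1 h5
  -- decomposition of `g`
  have hg : ∀ X : g, ∃ A ∈ k, ∃ v : V, X = A + ι v := by
    intro X
    have h3 : X ∈ k.toSubmodule ⊔ m := by
      rw [hR.isCompl.sup_eq_top]
      trivial
    obtain ⟨A, hA, M, hM', h4⟩ := Submodule.mem_sup.1 h3
    rw [← hF.rng] at hM'
    obtain ⟨v, rfl⟩ := hM'
    exact ⟨A, hA, v, h4.symm⟩
  obtain ⟨a, ha⟩ : ∃ a : V → V → g, ∀ x y, a x y = ⁅ι x, ι y⁆ - (e₀ * ⟪J x, y⟫_ℝ) • ι t :=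
    ⟨_, fun _ _ => rfl⟩
  have hak : ∀ x ∈ U, ∀ y ∈ U, a x y ∈ k := by
    intro x hx y hy
    obtain ⟨A, hA, v, hAv⟩ := hg (a x y)
    have h3 : ∀ z, ⟪v, z⟫_ℝ = B (a x y) (ι z) := by
      intro z
      rw [hAv, map_add, LinearMap.add_apply, hM.ker A hA, zero_add, hF.iso]
    have h4 : v = 0 := by
      apply hzero
      · intro u hu
        rw [h3, ha, map_sub, map_smul, LinearMap.sub_apply, LinearMap.smul_apply, hz x hx y hy u hu,
          hF.iso, htU'' u hu, smul_zero, sub_zero]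
      · rw [h3, ha, map_sub, map_smul, LinearMap.sub_apply, LinearMap.smul_apply, he x hx y hy,
          hF.iso, htt, smul_eq_mul, mul_one, sub_self]
    rw [hAv, h4, map_zero, add_zero]
    exact hA
  -- the curvature
  obtain ⟨R, hRd⟩ : ∃ R : V → V → V → V → ℝ, ∀ x y z w, R x y z w = B ⁅a x y, ι z⁆ (ι w) :=
    ⟨_, fun _ _ _ _ => rfl⟩
  have hJJ : ∀ x y, ⟪J y, x⟫_ℝ = -⟪J x, y⟫_ℝ := by
    intro x y
    rw [hJs, real_inner_comm]
  have R1 : ∀ x y z w, R x y z w = -R y x z w := by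
    intro x y z w
    have h3 : a x y = -a y x := by
      rw [ha, ha, ← lie_skew (ι x) (ι y), hJJ x y, mul_neg, neg_smul]
      abel
    rw [hRd, hRd, h3, neg_lie, map_neg, LinearMap.neg_apply]
  have R2 : ∀ x ∈ U, ∀ y ∈ U, ∀ z w, R x y z w = -R x y w z := by
    intro x hx y hy z w
    have h3 := hM.inv _ (hak x hx y hy) (ι z) (ι w)
    rw [hM.symm (ι z)] at h3
    rw [hRd, hRd]
    linarith
  have R3 : ∀ x ∈ U, ∀ y ∈ U, ∀ z ∈ U, ∀ w, R x y z w + R y z x w + R z x y w = 0 := by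
    intro x hx y hy z hz' w
    have h3 : ⁅a x y, ι z⁆ + ⁅a y z, ι x⁆ + ⁅a z x, ι y⁆ = 0 := by
      rw [ha, ha, ha, sub_lie, sub_lie, sub_lie, smul_lie, smul_lie, smul_lie, ht0 x hx, ht0 y hy,
        ht0 z hz', smul_zero, smul_zero, smul_zero, sub_zero, sub_zero, sub_zero]
      have h4 := lie_jacobi (ι x) (ι y) (ι z)
      rw [← lie_skew ⁅ι x, ι y⁆ (ι z), ← lie_skew ⁅ι y, ι z⁆ (ι x), ← lie_skew ⁅ι z, ι x⁆ (ι y)]
      have h5 : -⁅ι z, ⁅ι x, ι y⁆⁆ + -⁅ι x, ⁅ι y, ι z⁆⁆ + -⁅ι y, ⁅ι z, ι x⁆⁆ =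
          -(⁅ι x, ⁅ι y, ι z⁆⁆ + ⁅ι y, ⁅ι z, ι x⁆⁆ + ⁅ι z, ⁅ι x, ι y⁆⁆) := by abel
      rw [h5, h4, neg_zero]
    rw [hRd, hRd, hRd, ← LinearMap.add_apply, ← map_add, ← LinearMap.add_apply, ← map_add, h3,
      map_zero, LinearMap.zero_apply]
  have R4 : ∀ x ∈ U, ∀ y ∈ U, ∀ z ∈ U, ∀ w ∈ U, R x y z w = R z w x y := by
    intro x hx y hy z hz' w hw
    have s1 := R3 x hx y hy z hz' w
    have s2 := R3 x hx y hy w hw z
    have s3 := R3 x hx z hz' w hw y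
    have s4 := R3 y hy z hz' w hw x
    have t1 := R1 z x y w
    have t2 := R2 x hx y hy w z
    have t3 := R1 w x y z
    have t4 := R2 x hx z hz' w y
    have t5 := R1 w x z y
    have t6 := R2 x hx w hw z y
    have t7 := R2 y hy z hz' w x
    have t8 := R2 z hz' w hw y x
    have t9 := R1 w y z x
    have t10 := R2 y hy w hw z x
    linarith
  have R5 : ∀ x ∈ U, ∀ y ∈ U, ∀ z, ∀ w ∈ U, R x y (J z) (J w) = R x y z w := by
    intro x hx y hy z w hw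
    obtain ⟨A, hA, hAι⟩ := hF.lift _ (hak x hx y hy)
    rw [hRd, hRd, ← hAι, ← hAι, hF.iso, hF.iso, ← hJH A hA, hJs, (hJU w hw).2, inner_neg_right,
      neg_neg]
  -- equality of the operators
  have key : ∀ z ∈ U, ∀ w ∈ U, ⁅ι (J z), ι (J w)⁆ = ⁅ι z, ι w⁆ := by
    intro z hz' w hw
    have hJz := (hJU z hz').1
    have hJw := (hJU w hw).1
    have hC : a (J z) (J w) - a z w ∈ k := k.sub_mem (hak _ hJz _ hJw) (hak _ hz' _ hw)
    have h3 : a (J z) (J w) - a z w = 0 := by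
      obtain ⟨A, hA, hAι⟩ := hF.lift _ hC
      have h4 : ∀ x ∈ U, A x = 0 := by
        intro x hx
        apply hzero
        · intro y hy
          rw [← hF.iso, hAι, sub_lie, map_sub, LinearMap.sub_apply, ← hRd, ← hRd,
            R4 _ hJz _ hJw _ hx _ hy, R5 _ hx _ hy _ _ hw, R4 _ hz' _ hw _ hx _ hy, sub_self]
        · exact htU' _ (hI.2.1 A hA x hx)
      apply hE _ hC
      intro X
      obtain ⟨A', hA', v, rfl⟩ := hg X
      have h5 : A v = 0 := by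
        have h6 : v = (v - ⟪t, v⟫_ℝ • t) + ⟪t, v⟫_ℝ • t := by abel
        rw [h6, map_add, map_smul, hHt A hA, smul_zero, add_zero, h4 _ (hdec v)]
      rw [lie_add, ← hAι, h5, map_zero, add_zero]
      exact k.lie_mem hC hA'
    have h4 : ⁅ι (J z), ι (J w)⁆ = a (J z) (J w) + (e₀ * ⟪J (J z), J w⟫_ℝ) • ι t := by
      rw [ha, sub_add_cancel]
    have h5 : ⁅ι z, ι w⁆ = a z w + (e₀ * ⟪J z, w⟫_ℝ) • ι t := by
      rw [ha, sub_add_cancel]
    rw [h4, h5, sub_eq_zero.1 h3, (hJU z hz').2, inner_neg_left, ← hJs]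
  intro x hx y hy
  have h3 := key x hx (J y) (hJU y hy).1
  rw [(hJU y hy).2, map_neg, lie_neg] at h3
  rw [← h3, add_neg_cancel]

end GOS
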