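import Pool.Agent.GOS.StB

/-!
# GOS/D6D: the case `dim U = 6`, `b ≠ 0`: natural reductivity after adding a derivation
-/

set_option autoImplicit false

namespace GOS

open scoped InnerProductSpace

section D6Daux

variable {g : Type} [LieRing g] [LieAlgebra ℝ g]
  {V : Type} [NormedAddCommGroup V] [InnerProductSpace ℝ V] [FiniteDimensional ℝ V]

/-- the projection of `g` to `V` defined by `B` -/
noncomputable def d6q (B : g →ₗ[ℝ] g →ₗ[ℝ] ℝ) (ι : V →ₗ[ℝ] g) : g →ₗ[ℝ] V :=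
  ∑ i, (LinearMap.toSpanSingleton ℝ V (stdOrthonormalBasis ℝ V i)) ∘ₗ
    (B.flip (ι (stdOrthonormalBasis ℝ V i)))

theorem d6q_apply (B : g →ₗ[ℝ] g →ₗ[ℝ] ℝ) (ι : V →ₗ[ℝ] g) (X : g) :
    d6q B ι X = ∑ i, (B X (ι (stdOrthonormalBasis ℝ V i))) • (stdOrthonormalBasis ℝ V i) := by
  unfold d6q
  simp [LinearMap.sum_apply]

theorem d6q_iota (B : g →ₗ[ℝ] g →ₗ[ℝ] ℝ) (ι : V →ₗ[ℝ] g) (hiso : ∀ x y, B (ι x) (ι y) = ⟪x, y⟫_ℝ)
    (v : V) : d6q B ι (ι v) = v := by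
  rw [d6q_apply]
  conv_rhs => rw [← (stdOrthonormalBasis ℝ V).sum_repr' v]
  refine Finset.sum_congr rfl fun i _ => ?_
  rw [hiso, real_inner_comm]

theorem d6q_ker (B : g →ₗ[ℝ] g →ₗ[ℝ] ℝ) (ι : V →ₗ[ℝ] g) (A : g) (hA : ∀ X, B A X = 0) :
    d6q B ι A = 0 := by
  rw [d6q_apply]
  refine Finset.sum_eq_zero fun i _ => ?_
  rw [hA, zero_smul]

end D6Daux

theorem thm_D6D (h1 : St_D6A) (h2 : St_D6B) (h3 : St_D6C) (h4 : St_EXN) : St_D6D := by
  intro g _ _ _ V _ _ _ k B m ι H b U J t c hD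
  obtain ⟨hAt, d₀, e₀, hde, htx, hxy⟩ := h1 g V k B m ι H b U J t c hD
  have hiso := hD.fr.iso
  have hrng : LinearMap.range ι = m := hD.fr.rng
  have hιm : ∀ v, ι v ∈ m := fun v => hrng ▸ LinearMap.mem_range_self ι v
  -- decomposition of `V`
  have hVdec : ∀ v : V, ∃ x ∈ U, ∃ τ : ℝ, v = x + τ • t := by
    intro v
    have hrank : Module.finrank ℝ Uᗮ = 1 := by
      have := Submodule.finrank_add_finrank_orthogonal (K := U)
      rw [hD.dimU, hD.dimV] at this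
      omega
    have ht0 : (⟨t, hD.tU⟩ : Uᗮ) ≠ 0 := by
      intro h
      have : t = 0 := congrArg Subtype.val h
      have h1 := hD.t1
      rw [this, norm_zero] at h1
      exact zero_ne_one h1
    obtain ⟨x, hx, y, hy, hxy'⟩ := Submodule.exists_add_mem_mem_orthogonal (K := U) v
    obtain ⟨τ, hτ⟩ := (finrank_eq_one_iff_of_nonzero' (⟨t, hD.tU⟩ : Uᗮ) ht0).mp hrank ⟨y, hy⟩
    refine ⟨x, hx, τ, ?_⟩
    have : τ • t = y := congrArg Subtype.val hτ
    rw [this, hxy']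
  -- decomposition of `g`
  have hgdec : ∀ X : g, ∃ A ∈ k, ∃ v : V, X = A + ι v := by
    intro X
    have hX : X ∈ (k.toSubmodule ⊔ m : Submodule ℝ g) := by
      rw [hD.red.isCompl.sup_eq_top]
      exact Submodule.mem_top
    obtain ⟨A, hA, M, hM, hAM⟩ := Submodule.mem_sup.mp hX
    rw [← hrng] at hM
    obtain ⟨v, rfl⟩ := hM
    exact ⟨A, hA, v, hAM.symm⟩
  set q : g →ₗ[ℝ] V := d6q B ι with hq
  have hqι : ∀ v, q (ι v) = v := fun v => d6q_iota B ι hiso v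
  have hqk : ∀ A ∈ k, q A = 0 := fun A hA => d6q_ker B ι A (hD.model.ker A hA)
  have hBq : ∀ X z, B X (ι z) = ⟪q X, z⟫_ℝ := by
    intro X z
    obtain ⟨A, hA, v, rfl⟩ := hgdec X
    rw [map_add, LinearMap.add_apply, hD.model.ker A hA, zero_add, hiso, map_add, hqk A hA, zero_add,
      hqι]
  set D : g →ₗ[ℝ] g := ι ∘ₗ J ∘ₗ q with hDdef
  have hDι : ∀ v, D (ι v) = ι (J v) := by
    intro v
    rw [hDdef, LinearMap.comp_apply, LinearMap.comp_apply, hqι]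
  have hDk : ∀ A ∈ k, D A = 0 := by
    intro A hA
    rw [hDdef, LinearMap.comp_apply, LinearMap.comp_apply, hqk A hA, map_zero, map_zero]
  have hDm : ∀ X, D X ∈ m := fun X => hιm _
  have hskew : ∀ X Y, B (D X) Y + B X (D Y) = 0 := by
    intro X Y
    have e1 : B (D X) Y = ⟪J (q X), q Y⟫_ℝ := by
      rw [hD.model.symm, hDdef, LinearMap.comp_apply, LinearMap.comp_apply, hBq, real_inner_comm]
    have e2 : B X (D Y) = ⟪q X, J (q Y)⟫_ℝ := by
      rw [hDdef, LinearMap.comp_apply, LinearMap.comp_apply, hBq]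
    rw [e1, e2, hD.Jskew]
    ring
  -- the derivation property
  have hder : ∀ X Y, D ⁅X, Y⁆ = ⁅D X, Y⁆ + ⁅X, D Y⁆ := by
    by_cases hd : d₀ = 0
    · have he0 : e₀ ≠ 0 := by
        intro he
        rw [hd, he, zero_add] at hde
        exact hD.c0 hde.symm
      have htx0 : ∀ x ∈ U, ⁅ι t, ι x⁆ = 0 := by
        intro x hx
        rw [htx x hx, hd, zero_smul]
      have hBt := h2 g V k B m ι H b U J t c hD htx0 e₀ he0 hxy
      have hC := h3 g V k B m ι H b U J t c hD htx0 e₀ hxy hBt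
      -- symmetry
      have hsym : ∀ X Y, D ⁅X, Y⁆ = ⁅D X, Y⁆ + ⁅X, D Y⁆ → D ⁅Y, X⁆ = ⁅D Y, X⁆ + ⁅Y, D X⁆ := by
        intro X Y h
        rw [← lie_skew, map_neg, h, ← lie_skew (D Y) X, ← lie_skew Y (D X)]
        abel
      have hadd : ∀ X Y Y', D ⁅X, Y⁆ = ⁅D X, Y⁆ + ⁅X, D Y⁆ → D ⁅X, Y'⁆ = ⁅D X, Y'⁆ + ⁅X, D Y'⁆ →
          D ⁅X, Y + Y'⁆ = ⁅D X, Y + Y'⁆ + ⁅X, D (Y + Y')⁆ := by
        intro X Y Y' h h'
        rw [lie_add, map_add, h, h', lie_add, map_add, lie_add]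
        abel
      have hsmul : ∀ X Y (r : ℝ), D ⁅X, Y⁆ = ⁅D X, Y⁆ + ⁅X, D Y⁆ →
          D ⁅X, r • Y⁆ = ⁅D X, r • Y⁆ + ⁅X, D (r • Y)⁆ := by
        intro X Y r h
        rw [lie_smul, map_smul, h, lie_smul, map_smul, lie_smul, smul_add]
      have hkk : ∀ A ∈ k, ∀ A' ∈ k, D ⁅A, A'⁆ = ⁅D A, A'⁆ + ⁅A, D A'⁆ := by
        intro A hA A' hA'
        rw [hDk A hA, hDk A' hA', zero_lie, lie_zero, add_zero, hDk _ (k.lie_mem hA hA')]
      have hkm : ∀ A ∈ k, ∀ v, D ⁅A, ι v⁆ = ⁅D A, ι v⁆ + ⁅A, D (ι v)⁆ := by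
        intro A hA v
        obtain ⟨T, hT, hTA⟩ := hD.fr.lift A hA
        rw [hDk A hA, zero_lie, zero_add, hDι, ← hTA, hDι, ← hTA, hD.JH T hT]
      have htt : D ⁅ι t, ι t⁆ = ⁅D (ι t), ι t⁆ + ⁅ι t, D (ι t)⁆ := by
        rw [hDι, hD.Jt, map_zero, lie_self, map_zero, zero_lie, lie_zero, add_zero]
      have htU : ∀ x ∈ U, D ⁅ι t, ι x⁆ = ⁅D (ι t), ι x⁆ + ⁅ι t, D (ι x)⁆ := by
        intro x hx
        rw [hDι, hDι, hD.Jt, map_zero, zero_lie, zero_add, htx0 x hx, map_zero,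
          htx0 (J x) (hD.JU x hx).1]
      have hUU : ∀ x ∈ U, ∀ y ∈ U, D ⁅ι x, ι y⁆ = ⁅D (ι x), ι y⁆ + ⁅ι x, D (ι y)⁆ := by
        intro x hx y hy
        rw [hDι, hDι, hC x hx y hy, hDdef, LinearMap.comp_apply, LinearMap.comp_apply]
        obtain ⟨x', hx', τ, hτ⟩ := hVdec (q ⁅ι x, ι y⁆)
        have h0 : ⟪q ⁅ι x, ι y⁆, x'⟫_ℝ = 0 := by
          rw [← hBq]
          exact hBt x hx y hy x' hx'
        have htx' : ⟪t, x'⟫_ℝ = 0 := by
          rw [real_inner_comm]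
          exact hD.tU x' hx'
        rw [hτ, inner_add_left, real_inner_smul_left, htx', mul_zero, add_zero] at h0
        have hx0 : x' = 0 := inner_self_eq_zero.mp h0
        rw [hτ, hx0, zero_add, map_smul, hD.Jt, smul_zero, map_zero]
      have htV : ∀ v, D ⁅ι t, ι v⁆ = ⁅D (ι t), ι v⁆ + ⁅ι t, D (ι v)⁆ := by
        intro v
        obtain ⟨x, hx, τ, rfl⟩ := hVdec v
        rw [map_add, map_smul]
        exact hadd _ _ _ (htU x hx) (hsmul _ _ _ htt)
      have hUV : ∀ x ∈ U, ∀ v, D ⁅ι x, ι v⁆ = ⁅D (ι x), ι v⁆ + ⁅ι x, D (ι v)⁆ := by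
        intro x hx v
        obtain ⟨y, hy, τ, rfl⟩ := hVdec v
        rw [map_add, map_smul]
        exact hadd _ _ _ (hUU x hx y hy) (hsmul _ _ _ (hsym _ _ (htU x hx)))
      have hVV : ∀ v w, D ⁅ι v, ι w⁆ = ⁅D (ι v), ι w⁆ + ⁅ι v, D (ι w)⁆ := by
        intro v w
        apply hsym
        obtain ⟨x, hx, τ, rfl⟩ := hVdec v
        rw [map_add, map_smul]
        exact hadd _ _ _ (hsym _ _ (hUV x hx w)) (hsmul _ _ _ (hsym _ _ (htV w)))
      intro X Y
      obtain ⟨A, hA, v, rfl⟩ := hgdec X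
      obtain ⟨A', hA', w, rfl⟩ := hgdec Y
      apply hsym
      refine hadd _ _ _ (hsym _ _ ?_) (hsym _ _ ?_)
      · exact hadd _ _ _ (hkk A hA A' hA') (hkm A hA w)
      · exact hadd _ _ _ (hsym _ _ (hkm A' hA' v)) (hVV v w)
    · have hDad : ∀ X, D X = d₀⁻¹ • ⁅ι t, X⁆ := by
        intro X
        obtain ⟨A, hA, v, rfl⟩ := hgdec X
        obtain ⟨x, hx, τ, rfl⟩ := hVdec v
        have e1 : D (A + ι (x + τ • t)) = ι (J x) := by
          rw [map_add, hDk A hA, zero_add, hDι, map_add, map_smul, hD.Jt, smul_zero, add_zero]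
        have e2 : ⁅ι t, A + ι (x + τ • t)⁆ = d₀ • ι (J x) := by
          rw [lie_add, ← lie_skew, hAt A hA, neg_zero, zero_add, map_add, map_smul, lie_add, htx x hx,
            lie_smul, lie_self, smul_zero, add_zero]
        rw [e1, e2, smul_smul, inv_mul_cancel₀ hd, one_smul]
      intro X Y
      rw [hDad, hDad, hDad, leibniz_lie, smul_add, smul_lie, lie_smul]
  refine h4 g k B m hD.model hD.red.isCompl hD.red.inv 0 D (c • B (ι t)) hder hDk
    (fun X _ => hDm X) hskew ?_ ?_ ?_ ?_ ?_ ?_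
  · intro X _
    exact k.zero_mem
  · intro A _ X _
    simp
  · intro X _
    simp
  · intro A hA X _
    have h := hD.model.inv A hA (ι t) X
    rw [hAt A hA, map_zero, LinearMap.zero_apply, zero_add] at h
    rw [LinearMap.smul_apply, h, smul_zero]
  · intro X _
    have h : B (ι t) (D X) = 0 := by
      rw [hDdef, LinearMap.comp_apply, LinearMap.comp_apply, hiso]
      have := hD.Jskew t (q X)
      rw [hD.Jt, inner_zero_left] at this
      linarith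
    rw [LinearMap.smul_apply, h, smul_zero]
  · intro X hX Y hY
    rw [← hrng] at hX
    obtain ⟨v, rfl⟩ := hX
    obtain ⟨x, hx, τ, hv⟩ := hVdec v
    have hb := hD.fr.bdef v v Y hY
    have e1 : B ⁅Y, ι v⁆ (ι v) = B (ι (b v v)) Y := by linarith
    have hbv : b v v = (τ * c) • J x := by
      rw [hv]
      exact hD.bf x hx τ
    have hJv : J v = J x := by
      rw [hv, map_add, map_smul, hD.Jt, smul_zero, add_zero]
    have hc : B (ι t) (ι v) = τ := by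
      have htx' : ⟪t, x⟫_ℝ = 0 := by
        rw [real_inner_comm]
        exact hD.tU x hx
      rw [hiso, hv, inner_add_right, real_inner_smul_right, htx', real_inner_self_eq_norm_sq, hD.t1]
      ring
    rw [e1, hbv, hDι, hJv, LinearMap.smul_apply, hc]
    simp only [LinearMap.zero_apply, zero_lie, map_zero, map_smul, LinearMap.smul_apply, smul_eq_mul,
      zero_add]
    ring

end GOS
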