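import Pool.Agent.GOS.StB

/-!
# GOS/D6V (helper55): the case `dim U = 6`
-/

namespace GOS

open scoped InnerProductSpace Quaternion

theorem d6v_unit {V : Type} [NormedAddCommGroup V] [InnerProductSpace ℝ V] [FiniteDimensional ℝ V]
    {U : Submodule ℝ V} (h : Module.finrank ℝ Uᗮ = 1) :
    ∃ t : V, t ∈ Uᗮ ∧ ‖t‖ = 1 ∧ ∀ w ∈ Uᗮ, ∃ c : ℝ, w = c • t := by
  obtain ⟨v, hv0, hv⟩ := finrank_eq_one_iff'.1 h
  have hv0' : (v : V) ≠ 0 := fun h0 => hv0 (Subtype.ext h0)
  have hn : ‖(v : V)‖ ≠ 0 := norm_ne_zero_iff.2 hv0'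
  refine ⟨‖(v : V)‖⁻¹ • (v : V), Uᗮ.smul_mem _ v.2, ?_, fun w hw => ?_⟩
  · rw [norm_smul, norm_inv, norm_norm, inv_mul_cancel₀ hn]
  · obtain ⟨c, hc⟩ := hv ⟨w, hw⟩
    have hc' : c • (v : V) = w := congrArg Subtype.val hc
    refine ⟨c * ‖(v : V)‖, ?_⟩
    rw [smul_smul, mul_assoc, mul_inv_cancel₀ hn, mul_one, hc']

/-- `St_D6V`. -/
theorem thm_D6V (h1 : St_GEN) : St_D6V := by
  intro V _ _ _ H b hS hV U hU hdU hb0
  obtain ⟨g1, g2, g3, -, g5⟩ := h1 V H hS.toSkewLie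
  have hInv : Inv H U := hU.2.1
  have hUo : Module.finrank ℝ Uᗮ = 1 := by
    have := Submodule.finrank_add_finrank_orthogonal U
    omega
  obtain ⟨t, htU, ht1, hspan⟩ := d6v_unit hUo
  have htt : ⟪t, t⟫_ℝ = 1 := by
    rw [real_inner_self_eq_norm_sq, ht1]
    norm_num
  have hskew := hS.skew
  -- `A t = 0`
  have hAt : ∀ A ∈ H, A t = 0 := by
    intro A hA
    obtain ⟨c, hc⟩ := hspan (A t) (g1 U hInv A hA t htU)
    have h2 := hskew A hA t t
    rw [real_inner_comm (A t) t] at h2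
    have h3 : ⟪A t, t⟫_ℝ = 0 := by linarith
    rw [hc, inner_smul_left, htt] at h3
    simp only [conj_trivial, mul_one] at h3
    rw [hc, h3, zero_smul]
  have hbtt : b t t = 0 := by
    obtain ⟨A, hA, h⟩ := hS.tan t
    rw [h, hAt A hA]
  -- membership in `U`
  have hmem : ∀ y : V, ⟪t, y⟫_ℝ = 0 → y ∈ U := by
    intro y hy
    rw [← Submodule.orthogonal_orthogonal U, Submodule.mem_orthogonal]
    intro w hw
    obtain ⟨c, rfl⟩ := hspan w hw
    rw [inner_smul_left, hy, mul_zero]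
  have htx : ∀ x ∈ U, ⟪t, x⟫_ℝ = 0 := fun x hx => by
    rw [real_inner_comm]
    exact (Submodule.mem_orthogonal U t).1 htU x hx
  have hdec : ∀ x : V, ∃ u ∈ U, ∃ τ : ℝ, x = u + τ • t := by
    intro x
    refine ⟨x - ⟪t, x⟫_ℝ • t, hmem _ ?_, ⟪t, x⟫_ℝ, by abel⟩
    rw [inner_sub_right, inner_smul_right, htt, mul_one, sub_self]
  -- equivariance
  have heq : ∀ A ∈ H, ∀ x, A (b x t) = b (A x) t := by
    intro A hA x
    rw [hS.eqv A hA, hAt A hA, map_zero, add_zero]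
  -- the linear form
  have hl : ∀ x ∈ U, ⟪b x t, t⟫_ℝ = 0 := by
    set l : V →ₗ[ℝ] ℝ := (innerₛₗ ℝ t) ∘ₗ (b.flip t) with hldef
    have hlx : ∀ x, l x = ⟪t, b x t⟫_ℝ := fun x => rfl
    have hlA : ∀ A ∈ H, ∀ x, l (A x) = 0 := by
      intro A hA x
      rw [hlx, ← heq A hA, real_inner_comm, hskew A hA, hAt A hA, inner_zero_right, neg_zero]
    have hI : Inv H (U ⊓ LinearMap.ker l) := by
      intro A hA x hx
      exact ⟨hInv A hA x hx.1, hlA A hA x⟩
    rcases hU.2.2 _ inf_le_left hI with h | h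
    · exfalso
      have hinj : Function.Injective (l.domRestrict U) := by
        rw [injective_iff_map_eq_zero]
        intro x hx
        have : (x : V) ∈ U ⊓ LinearMap.ker l := ⟨x.2, hx⟩
        rw [h] at this
        exact Subtype.ext this
      have h6 := LinearMap.finrank_le_finrank_of_injective hinj
      rw [hdU, Module.finrank_self] at h6
      omega
    · intro x hx
      have : x ∈ U ⊓ LinearMap.ker l := by rw [h]; exact hx
      rw [real_inner_comm]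
      exact this.2
  -- the operator `C`
  obtain ⟨C, hC⟩ : ∃ C : V →ₗ[ℝ] V, ∀ x, C x = (2 : ℝ) • b x t := ⟨(2 : ℝ) • b.flip t, fun x => rfl⟩
  have hCU : ∀ x ∈ U, C x ∈ U := by
    intro x hx
    rw [hC]
    refine U.smul_mem _ (hmem _ ?_)
    rw [real_inner_comm]
    exact hl x hx
  have hCH : ∀ A ∈ H, ∀ x, C (A x) = A (C x) := by
    intro A hA x
    rw [hC, hC, map_smul, heq A hA]
  have hCt : C t = 0 := by rw [hC, hbtt, smul_zero]
  have hbxt : ∀ x ∈ U, ∀ τ : ℝ, b (x + τ • t) (x + τ • t) = τ • C x := by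
    intro x hx τ
    simp only [map_add, map_smul, LinearMap.add_apply, LinearMap.smul_apply, hbtt, hb0 x hx, hS.symm t x, hC]
    module
  have hC0 : ∀ x ∈ U, ⟪C x, x⟫_ℝ = 0 := by
    intro x hx
    have h2 := g3 b U hS hInv x hx t htU
    have h3 := hbxt x hx 1
    rw [one_smul, one_smul] at h3
    rw [h3] at h2
    exact h2
  have hCs : ∀ x ∈ U, ∀ y ∈ U, ⟪C x, y⟫_ℝ = - ⟪x, C y⟫_ℝ := by
    intro x hx y hy
    have h2 := hC0 (x + y) (U.add_mem hx hy)
    rw [map_add, inner_add_left, inner_add_right, inner_add_right, hC0 x hx, hC0 y hy] at h2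
    rw [real_inner_comm (C y) x]
    linarith
  obtain ⟨s, hs⟩ := g5 U (C ∘ₗ C) hU (fun x hx => hCU _ (hCU x hx))
    (fun x hx y hy => by
      rw [LinearMap.comp_apply, LinearMap.comp_apply, hCs _ (hCU x hx) y hy, hCs x hx _ (hCU y hy), neg_neg])
    (fun A hA x hx => by
      rw [LinearMap.comp_apply, LinearMap.comp_apply, hCH A hA, hCH A hA])
  have hs' : ∀ x ∈ U, C (C x) = s • x := hs
  have hsn : ∀ x ∈ U, ⟪C x, C x⟫_ℝ = - (s * ⟪x, x⟫_ℝ) := by
    intro x hx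
    have h2 := hCs x hx (C x) (hCU x hx)
    rw [hs' x hx, inner_smul_right] at h2
    exact h2
  obtain ⟨x₀, hx₀, hx₀0⟩ := (Submodule.ne_bot_iff U).1 hU.1
  have hx₀p : 0 < ⟪x₀, x₀⟫_ℝ := real_inner_self_pos.2 hx₀0
  have hs0 : s ≤ 0 := by
    by_contra hcon
    push Not at hcon
    have h2 := hsn x₀ hx₀
    have h3 : 0 ≤ ⟪C x₀, C x₀⟫_ℝ := real_inner_self_nonneg
    have h4 : 0 < s * ⟪x₀, x₀⟫_ℝ := mul_pos hcon hx₀p
    linarith
  rcases hs0.lt_or_eq with hneg | hzero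
  · right
    set c := Real.sqrt (-s) with hcdef
    have hcpos : 0 < c := Real.sqrt_pos.2 (by linarith)
    have hc2 : c * c = -s := Real.mul_self_sqrt (by linarith)
    have hcne : c ≠ 0 := hcpos.ne'
    obtain ⟨J, hJ⟩ : ∃ J : V →ₗ[ℝ] V, ∀ x, J x = c⁻¹ • C x := ⟨c⁻¹ • C, fun x => rfl⟩
    have hJU : ∀ x ∈ U, J x ∈ U := fun x hx => by
      rw [hJ]
      exact U.smul_mem _ (hCU x hx)
    have hJt : J t = 0 := by rw [hJ, hCt, smul_zero]
    have hJs : ∀ x ∈ U, ∀ y ∈ U, ⟪J x, y⟫_ℝ = - ⟪x, J y⟫_ℝ := by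
      intro x hx y hy
      rw [hJ, hJ, real_inner_smul_left, real_inner_smul_right, hCs x hx y hy]
      ring
    refine ⟨J, t, c, hcne, ht1, htU, hJt, fun x hx => ⟨hJU x hx, ?_⟩, ?_, ?_, hAt, ?_⟩
    · rw [hJ, hJ, map_smul, hs' x hx, smul_smul, smul_smul]
      have : c⁻¹ * (c⁻¹ * s) = -1 := by
        have hs2 : s = -(c * c) := by linarith
        rw [hs2]
        field_simp
      rw [← mul_assoc] at this
      rw [this, neg_one_smul]
    · intro x y
      obtain ⟨u, hu, τ, rfl⟩ := hdec x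
      obtain ⟨u', hu', τ', rfl⟩ := hdec y
      have e1 : J (u + τ • t) = J u := by rw [map_add, map_smul, hJt, smul_zero, add_zero]
      have e2 : J (u' + τ' • t) = J u' := by rw [map_add, map_smul, hJt, smul_zero, add_zero]
      have e3 : ⟪J u, t⟫_ℝ = 0 := by
        rw [real_inner_comm]
        exact htx _ (hJU u hu)
      rw [e1, e2, inner_add_right, inner_add_left, real_inner_smul_right, real_inner_smul_left,
        htx _ (hJU u' hu'), e3, hJs u hu u' hu']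
      ring
    · intro A hA x
      rw [hJ, hJ, hCH A hA, map_smul]
    · intro x hx τ
      rw [hbxt x hx, hJ, smul_smul, mul_assoc, mul_inv_cancel₀ hcne, mul_one]
  · left
    have hC00 : ∀ x ∈ U, C x = 0 := by
      intro x hx
      have h2 := hsn x hx
      rw [hzero, zero_mul, neg_zero] at h2
      exact inner_self_eq_zero.1 h2
    intro x
    obtain ⟨u, hu, τ, rfl⟩ := hdec x
    rw [hbxt u hu, hC00 u hu, smul_zero]

end GOS
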