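import Pool.Agent.GOS.StC

/-!
# Module DCS: the map of rank one
-/

namespace GOS

open scoped InnerProductSpace Quaternion

namespace DCSx

theorem inn (x y : ℍ) : ⟪x, y⟫_ℝ =
    x.re * y.re + x.imI * y.imI + x.imJ * y.imJ + x.imK * y.imK := by
  rw [Quaternion.inner_def]
  simp
  try ring

theorem nrm {u : ℍ} (hu : u.re = 0) (h1 : ‖u‖ = 1) : u.imI ^ 2 + u.imJ ^ 2 + u.imK ^ 2 = 1 := by
  have h := real_inner_self_eq_norm_sq u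
  rw [inn, hu, h1] at h
  linarith

theorem comm_im (r u : ℍ) (hr : r.re = 0) (hu : u.re = 0) :
    ⟪r * (u * r - r * u) - (u * r - r * u) * r, u⟫_ℝ = ⟪u * r - r * u, u * r - r * u⟫_ℝ := by
  rw [inn, inn]
  simp [hr, hu]
  ring

theorem comm_re (z u : ℍ) : (z * u - u * z).re = 0 := by
  simp
  ring

theorem comm_perp (z u : ℍ) (hu : u.re = 0) : ⟪z * u - u * z, u⟫_ℝ = 0 := by
  rw [inn]
  simp [hu]
  ring

theorem mul_of (r u : ℍ) (hr : r.re = 0) (hu : u.re = 0) (h1 : ‖u‖ = 1) (h : u * r - r * u = 0) :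
    r = ⟪r, u⟫_ℝ • u := by
  have hn := nrm hu h1
  have e1 := congrArg (fun q : ℍ => q.imI) h
  have e2 := congrArg (fun q : ℍ => q.imJ) h
  have e3 := congrArg (fun q : ℍ => q.imK) h
  simp [hr, hu] at e1 e2 e3
  rw [inn, hr, hu]
  ext
  · simp [hr, hu]
  · simp
    linear_combination -r.imI * hn + (1 / 2 : ℝ) * (u.imK * e2 - u.imJ * e3)
  · simp
    linear_combination -r.imJ * hn + (1 / 2 : ℝ) * (u.imI * e3 - u.imK * e1)
  · simp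
    linear_combination -r.imK * hn + (1 / 2 : ℝ) * (u.imJ * e1 - u.imI * e2)

theorem innu (x y u : ℍ) (hu : u.re = 0) : ⟪x * u, y⟫_ℝ + ⟪x, y * u⟫_ℝ = 0 := by
  rw [inn, inn]
  simp [hu]
  ring

theorem star_im {u : ℍ} (hu : u.re = 0) : star u = -u := by
  ext <;> simp [hu]

section lin

variable {g : Type} [LieRing g] [LieAlgebra ℝ g]

/-- basis -/
def q0 : ℍ := ⟨1, 0, 0, 0⟩
/-- basis -/
def q1 : ℍ := ⟨0, 1, 0, 0⟩
/-- basis -/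
def q2 : ℍ := ⟨0, 0, 1, 0⟩
/-- basis -/
def q3 : ℍ := ⟨0, 0, 0, 1⟩

/-- the coordinate `x` of `σ a + E x + C` -/
noncomputable def prE (B : g →ₗ[ℝ] g →ₗ[ℝ] ℝ) (E : ℍ →ₗ[ℝ] g) : g →ₗ[ℝ] ℍ :=
  (B (E q0)).smulRight q0 + (B (E q1)).smulRight q1 + (B (E q2)).smulRight q2 +
    (B (E q3)).smulRight q3

theorem q_dec (y : ℍ) : y = y.re • q0 + y.imI • q1 + y.imJ • q2 + y.imK • q3 := by
  ext <;> simp [q0, q1, q2, q3]

theorem prE_apply (B : g →ₗ[ℝ] g →ₗ[ℝ] ℝ) (E : ℍ →ₗ[ℝ] g) (X : g) :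
    prE B E X = B (E q0) X • q0 + B (E q1) X • q1 + B (E q2) X • q2 + B (E q3) X • q3 := rfl

theorem prE_inn (B : g →ₗ[ℝ] g →ₗ[ℝ] ℝ) (E : ℍ →ₗ[ℝ] g) (y : ℍ) (X : g) :
    ⟪y, prE B E X⟫_ℝ = B (E y) X := by
  conv_rhs => rw [q_dec y]
  simp only [map_add, map_smul, LinearMap.add_apply, LinearMap.smul_apply]
  rw [inn, prE_apply]
  simp [q0, q1, q2, q3]

end lin

section main

variable {g : Type} [LieRing g] [LieAlgebra ℝ g] [FiniteDimensional ℝ g] {k : LieSubalgebra ℝ g}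
  {B : g →ₗ[ℝ] g →ₗ[ℝ] ℝ} {c h W : Submodule ℝ g} {σ E τ : ℍ →ₗ[ℝ] g} {ρ : g →ₗ[ℝ] ℍ} {lam : ℝ}

theorem σk (Q : QD k B c h W σ E τ ρ lam) (a : ℍ) : σ a ∈ k := by
  have h1 : σ a ∈ k.toSubmodule := by
    rw [Q.kdec]
    exact Submodule.mem_sup_left (LinearMap.mem_range_self σ a)
  exact h1

theorem hk (Q : QD k B c h W σ E τ ρ lam) {A : g} (hA : A ∈ h) : A ∈ k := by
  have h1 : A ∈ k.toSubmodule := by
    rw [Q.kdec]
    exact Submodule.mem_sup_right hA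
  exact h1

theorem hc (Q : QD k B c h W σ E τ ρ lam) {A : g} (hA : A ∈ h) : A ∈ c := by
  rw [Q.chW]
  exact Submodule.mem_sup_left hA

theorem Wc (Q : QD k B c h W σ E τ ρ lam) {A : g} (hA : A ∈ W) : A ∈ c := by
  rw [Q.chW]
  exact Submodule.mem_sup_right hA

theorem pr_k (Q : QD k B c h W σ E τ ρ lam) {A : g} (hA : A ∈ k) : prE B E A = 0 := by
  apply ext_inner_left ℝ
  intro v
  rw [prE_inn, Q.model.symm, Q.model.ker A hA, inner_zero_right]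

theorem pr_σ (Q : QD k B c h W σ E τ ρ lam) (a : ℍ) : prE B E (σ a) = 0 := pr_k Q (σk Q a)

theorem pr_c (Q : QD k B c h W σ E τ ρ lam) {C : g} (hC : C ∈ c) : prE B E C = 0 := by
  apply ext_inner_left ℝ
  intro v
  rw [prE_inn, Q.BEc v C hC, inner_zero_right]

theorem pr_E (Q : QD k B c h W σ E τ ρ lam) (x : ℍ) : prE B E (E x) = x := by
  apply ext_inner_left ℝ
  intro v
  rw [prE_inn, Q.BEE]

theorem τ_smul {u : ℍ} (hu : u.re = 0) (h1 : ‖u‖ = 1)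
    (hp : ∀ p : ℍ, p.re = 0 → ⟪p, u⟫_ℝ = 0 → τ p = 0) (q : ℍ) (hq : q.re = 0) :
    τ q = ⟪q, u⟫_ℝ • τ u := by
  have h2 : τ (q - ⟪q, u⟫_ℝ • u) = 0 := by
    apply hp
    · simp [hq, hu]
    · rw [inner_sub_left, inner_smul_left, real_inner_self_eq_norm_sq, h1]
      simp
  rw [map_sub, map_smul, sub_eq_zero] at h2
  exact h2

theorem comm (Q : QD k B c h W σ E τ ρ lam) {u : ℍ} (hu : u.re = 0) (h1 : ‖u‖ = 1)
    (h0 : τ u ≠ 0) (hp : ∀ p : ℍ, p.re = 0 → ⟪p, u⟫_ℝ = 0 → τ p = 0) {C : g} (hC : C ∈ c) :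
    u * ρ C - ρ C * u = 0 := by
  have hr := Q.ρre C hC
  have e1 : (u * ρ C - ρ C * u).re = 0 := comm_re u (ρ C)
  have e2 : ⟪u * ρ C - ρ C * u, u⟫_ℝ = 0 := by
    rw [← neg_sub, inner_neg_left, comm_perp _ _ hu, neg_zero]
  have e3 := Q.cτ C hC _ e1
  rw [hp _ e1 e2, lie_zero, τ_smul hu h1 hp _ (comm_re _ _), eq_comm, smul_eq_zero] at e3
  have e4 := e3.resolve_right h0
  rw [comm_im _ _ hr hu] at e4
  exact inner_self_eq_zero.1 e4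

theorem ρ_mul (Q : QD k B c h W σ E τ ρ lam) {u : ℍ} (hu : u.re = 0) (h1 : ‖u‖ = 1)
    (h0 : τ u ≠ 0) (hp : ∀ p : ℍ, p.re = 0 → ⟪p, u⟫_ℝ = 0 → τ p = 0) {C : g} (hC : C ∈ c) :
    ρ C = ⟪ρ C, u⟫_ℝ • u :=
  mul_of _ _ (Q.ρre C hC) hu h1 (comm Q hu h1 h0 hp hC)

/-- the derivation `E x ↦ E (x u)` -/
noncomputable def der (B : g →ₗ[ℝ] g →ₗ[ℝ] ℝ) (E : ℍ →ₗ[ℝ] g) (u : ℍ) : g →ₗ[ℝ] g :=
  E ∘ₗ (LinearMap.mulRight ℝ u) ∘ₗ (prE B E)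

theorem der_def (u : ℍ) (X : g) : der B E u X = E (prE B E X * u) := rfl

theorem der_k (Q : QD k B c h W σ E τ ρ lam) (u : ℍ) {A : g} (hA : A ∈ k) : der B E u A = 0 := by
  rw [der_def, pr_k Q hA, zero_mul, map_zero]

theorem der_c (Q : QD k B c h W σ E τ ρ lam) (u : ℍ) {A : g} (hA : A ∈ c) : der B E u A = 0 := by
  rw [der_def, pr_c Q hA, zero_mul, map_zero]

theorem der_E (Q : QD k B c h W σ E τ ρ lam) (u x : ℍ) : der B E u (E x) = E (x * u) := by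
  rw [der_def, pr_E Q]

theorem der_EE (Q : QD k B c h W σ E τ ρ lam) (u x y : ℍ) : der B E u ⁅E x, E y⁆ = 0 := by
  rw [Q.EEb, map_sub, map_smul, der_c Q u (Q.τc _), der_k Q u (σk Q _)]
  simp

theorem der_der (Q : QD k B c h W σ E τ ρ lam) {u : ℍ} (hu : u.re = 0) (h1 : ‖u‖ = 1)
    (h0 : τ u ≠ 0) (hp : ∀ p : ℍ, p.re = 0 → ⟪p, u⟫_ℝ = 0 → τ p = 0) (X Y : g) :
    der B E u ⁅X, Y⁆ = ⁅der B E u X, Y⁆ + ⁅X, der B E u Y⁆ := by
  obtain ⟨a, x, C, hC, rfl⟩ := Q.dec X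
  obtain ⟨b, y, C', hC', rfl⟩ := Q.dec Y
  have hcm : ρ C * u = u * ρ C := (sub_eq_zero.1 (comm Q hu h1 h0 hp hC)).symm
  have hcm' : ρ C' * u = u * ρ C' := (sub_eq_zero.1 (comm Q hu h1 h0 hp hC')).symm
  have kσ : ∀ a, der B E u (σ a) = 0 := fun a => der_k Q u (σk Q a)
  have kc : ∀ C ∈ c, der B E u C = 0 := fun C hC => der_c Q u hC
  have Eσ : ∀ x b, ⁅E x, σ b⁆ = - E (b.im * x) := fun x b => by rw [← lie_skew, Q.σE]
  have Ec : ∀ x, ∀ C ∈ c, ⁅E x, C⁆ = E (x * ρ C) := fun x C hC => by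
    rw [← lie_skew, Q.cE C hC, neg_neg]
  have cσ : ∀ C ∈ c, ∀ a, ⁅C, σ a⁆ = 0 := fun C hC a => by rw [← lie_skew, Q.σc a C hC, neg_zero]
  -- the `τ` and `σ` terms
  have t1 : ⁅E (x * u), E y⁆ + ⁅E x, E (y * u)⁆ = 0 := by
    rw [Q.EEb, Q.EEb]
    have a1 : star (x * u) * y = - (u * (star x * y)) := by
      rw [star_mul, star_im hu]
      noncomm_ring
    have a2 : star x * (y * u) = star x * y * u := by rw [mul_assoc]
    have a4 : x * star (y * u) = - (x * u * star y) := by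
      rw [star_mul, star_im hu]
      noncomm_ring
    have a5 : τ (star x * y * u - u * (star x * y)) = 0 :=
      hp _ (comm_re _ _) (comm_perp _ _ hu)
    rw [a1, a2, a4, map_neg, map_neg]
    rw [map_sub] at a5
    have a6 : -τ (u * (star x * y)) - lam • σ (x * u * star y) +
        (τ (star x * y * u) - lam • -σ (x * u * star y)) =
        τ (star x * y * u) - τ (u * (star x * y)) := by
      rw [smul_neg]
      abel
    rw [a6, a5]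
  have d1 : der B E u (σ a + E x + C) = E (x * u) := by
    rw [map_add, map_add, kσ, kc C hC, der_E Q, zero_add, add_zero]
  have d2 : der B E u (σ b + E y + C') = E (y * u) := by
    rw [map_add, map_add, kσ, kc C' hC', der_E Q, zero_add, add_zero]
  rw [d1, d2]
  simp only [lie_add, add_lie, map_add]
  rw [Q.σσ, kσ, Q.σE, der_E Q, Q.σc a C' hC', map_zero, Eσ, map_neg, der_E Q, der_EE Q,
    Ec x C' hC', der_E Q, cσ C hC, map_zero, Q.cE C hC, map_neg, der_E Q, kc _ (Q.cc C hC C' hC'),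
    Eσ, Ec _ C' hC', Q.σE, Q.cE C hC]
  have b1 : y * ρ C * u = y * u * ρ C := by rw [mul_assoc, hcm, mul_assoc]
  have b2 : x * ρ C' * u = x * u * ρ C' := by rw [mul_assoc, hcm', mul_assoc]
  have b3 : a.im * y * u = a.im * (y * u) := mul_assoc _ _ _
  have b4 : b.im * x * u = b.im * (x * u) := mul_assoc _ _ _
  rw [b1, b2, b3, b4]
  have t2 : ⁅E (x * u), E y⁆ = - ⁅E x, E (y * u)⁆ := eq_neg_of_add_eq_zero_left t1
  rw [t2]
  abel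

/-- the part `C` of `E x + C` -/
noncomputable def prC (B : g →ₗ[ℝ] g →ₗ[ℝ] ℝ) (E : ℍ →ₗ[ℝ] g) : g →ₗ[ℝ] g :=
  LinearMap.id - E ∘ₗ prE B E

theorem prC_def (X : g) : prC B E X = X - E (prE B E X) := rfl

theorem prE_m (Q : QD k B c h W σ E τ ρ lam) (x : ℍ) {w : g} (hw : w ∈ c) :
    prE B E (E x + w) = x := by
  rw [map_add, pr_E Q, pr_c Q hw, add_zero]

theorem prC_m (Q : QD k B c h W σ E τ ρ lam) (x : ℍ) {w : g} (hw : w ∈ c) :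
    prC B E (E x + w) = w := by
  rw [prC_def, prE_m Q x hw, add_sub_cancel_left]

theorem prC_E (Q : QD k B c h W σ E τ ρ lam) (x : ℍ) : prC B E (E x) = 0 := by
  rw [prC_def, pr_E Q, sub_self]

/-- bracket with an element of `k` -/
theorem lie_m (Q : QD k B c h W σ E τ ρ lam) (a x : ℍ) {A w : g} (hA : A ∈ h) (hw : w ∈ W) :
    ⁅σ a + A, E x + w⁆ = E (a.im * x - x * ρ A) + ⁅A, w⁆ := by
  rw [lie_add, add_lie, add_lie, Q.σE, Q.cE A (hc Q hA), Q.σc a w (Wc Q hw), map_sub]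
  abel

theorem memk (Q : QD k B c h W σ E τ ρ lam) {A : g} (hA : A ∈ k) :
    ∃ a : ℍ, ∃ A' ∈ h, A = σ a + A' := by
  have h1 : A ∈ k.toSubmodule := hA
  rw [Q.kdec, Submodule.mem_sup] at h1
  obtain ⟨y, ⟨a, rfl⟩, z, hz, rfl⟩ := h1
  exact ⟨a, z, hz, rfl⟩

theorem memm {X : g} (hX : X ∈ LinearMap.range E ⊔ W) : ∃ x : ℍ, ∃ w ∈ W, X = E x + w := by
  rw [Submodule.mem_sup] at hX
  obtain ⟨y, ⟨a, rfl⟩, z, hz, rfl⟩ := hX
  exact ⟨a, z, hz, rfl⟩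

theorem J_mul {u : ℍ} (hu : u.re = 0) (h1 : ‖u‖ = 1)
    (hp : ∀ p : ℍ, p.re = 0 → ⟪p, u⟫_ℝ = 0 → τ p = 0) {J : g →ₗ[ℝ] ℍ}
    (hJ0 : ∀ w ∈ W, (J w).re = 0)
    (hJ : ∀ p : ℍ, p.re = 0 → ∀ w ∈ W, ⟪p, J w⟫_ℝ = B (τ p) w + ⟪p, ρ w⟫_ℝ)
    (hρ : ∀ w ∈ W, ρ w = ⟪ρ w, u⟫_ℝ • u) {w : g} (hw : w ∈ W) : J w = ⟪J w, u⟫_ℝ • u := by
  have hq0 : (J w - ⟪J w, u⟫_ℝ • u).re = 0 := by simp [hJ0 w hw, hu]
  have hqu : ⟪J w - ⟪J w, u⟫_ℝ • u, u⟫_ℝ = 0 := by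
    rw [inner_sub_left, inner_smul_left, real_inner_self_eq_norm_sq, h1]
    simp
  have e1 := hJ _ hq0 w hw
  rw [hp _ hq0 hqu, map_zero, LinearMap.zero_apply, zero_add, hρ w hw, inner_smul_right, hqu,
    mul_zero] at e1
  have e2 : ⟪J w - ⟪J w, u⟫_ℝ • u, J w - ⟪J w, u⟫_ℝ • u⟫_ℝ = 0 := by
    rw [inner_sub_right, e1, inner_smul_right, hqu, mul_zero, sub_zero]
  exact sub_eq_zero.1 (inner_self_eq_zero.1 e2)

end main

end DCSx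

open DCSx in
theorem thm_DCS (h1 : St_QM) (h2 : St_QN3) (h3 : St_EXN) : St_DCS := by
  intro g _ _ _ k B c h W σ E τ ρ lam Q u hu hu1 h0 hp
  obtain ⟨hcompl, hinv, J, hJ0, hJ1, hJ2, hJ3⟩ := h1 g k B c h W σ E τ ρ lam Q
  obtain ⟨ψ, ψh, ψe, ψg⟩ := h2 g k B c h W σ E τ ρ lam Q
  have hρ : ∀ C ∈ c, ρ C = ⟪ρ C, u⟫_ℝ • u := fun C hC => ρ_mul Q hu hu1 h0 hp hC
  have hJu : ∀ w ∈ W, J w = ⟪J w, u⟫_ℝ • u := fun w hw =>
    J_mul hu hu1 hp hJ0 hJ1 (fun w hw => hρ w (Wc Q hw)) hw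
  have comm2 : ∀ s t : ℝ, (s • u) * (t • u) - (t • u) * (s • u) = 0 := by
    intro s t
    rw [smul_mul_smul_comm, smul_mul_smul_comm, mul_comm s t, sub_self]
  let χ : g →ₗ[ℝ] ℝ := (innerₗ ℍ u) ∘ₗ (ρ ∘ₗ ψ ∘ₗ prC B E - J ∘ₗ prC B E)
  have χdef : ∀ X, χ X = ⟪u, ρ (ψ (prC B E X)) - J (prC B E X)⟫_ℝ := fun X => rfl
  let φ : g →ₗ[ℝ] g := ψ ∘ₗ prC B E
  have φdef : ∀ X, φ X = ψ (prC B E X) := fun X => rfl
  refine h3 g k B (LinearMap.range E ⊔ W) Q.model hcompl hinv φ (der B E u) χ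
    (der_der Q hu hu1 h0 hp) (fun A hA => der_k Q u hA) ?_ ?_ ?_ ?_ ?_ ?_ ?_ ?_
  · intro X _
    exact Submodule.mem_sup_left ⟨_, (der_def u X).symm⟩
  · intro X Y
    rw [der_def, der_def, Q.model.symm X, ← prE_inn, ← prE_inn]
    rw [real_inner_comm (prE B E X)]
    exact innu _ _ _ hu
  · intro X hX
    obtain ⟨x, w, hw, rfl⟩ := memm hX
    rw [φdef, prC_m Q x (Wc Q hw)]
    exact hk Q (ψh w hw)
  · intro A hA X hX
    obtain ⟨x, w, hw, rfl⟩ := memm hX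
    obtain ⟨a, A', hA', rfl⟩ := memk Q hA
    rw [lie_m Q a x hA' hw, φdef, φdef, prC_m Q _ (Wc Q (Q.hWW A' hA' w hw)),
      prC_m Q x (Wc Q hw), ψe A' hA' w hw, add_lie, Q.σc a _ (hc Q (ψh w hw)), zero_add]
  · intro X _
    rw [φdef, der_def, prC_E Q, map_zero]
  · intro A hA X hX
    obtain ⟨x, w, hw, rfl⟩ := memm hX
    obtain ⟨a, A', hA', rfl⟩ := memk Q hA
    rw [lie_m Q a x hA' hw, χdef, prC_m Q _ (Wc Q (Q.hWW A' hA' w hw)), ψe A' hA' w hw,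
      Q.ρlie A' (hc Q hA') _ (hc Q (ψh w hw)), hJ3 A' hA' w hw, hρ A' (hc Q hA'),
      hρ (ψ w) (hc Q (ψh w hw)), hJu w hw, comm2, comm2, sub_zero, inner_zero_right]
  · intro X _
    rw [χdef, der_def, prC_E Q, map_zero, map_zero, map_zero, sub_zero, inner_zero_right]
  · intro X hX Y hY
    obtain ⟨x, w, hw, rfl⟩ := memm hX
    obtain ⟨y, w', hw', rfl⟩ := memm hY
    have hA := ψh w hw
    have e1 : ⁅ψ w, E x + w⁆ = - E (x * ρ (ψ w)) + ⁅ψ w, w⁆ := by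
      rw [lie_add, Q.cE _ (hc Q hA)]
    have e3 : B (E (x * ρ (ψ w))) w' = 0 := Q.BEc _ _ (Wc Q hw')
    have e4 : B ⁅ψ w, w⁆ (E y) = 0 := by
      rw [Q.model.symm]
      exact Q.BEc _ _ (Wc Q (Q.hWW _ hA w hw))
    have e5 : B (E (x * u)) w' = 0 := Q.BEc _ _ (Wc Q hw')
    rw [hJ2 x y w hw w' hw', φdef, χdef, der_def, prC_m Q x (Wc Q hw), prE_m Q x (Wc Q hw), e1]
    simp only [map_add, map_neg, LinearMap.add_apply, LinearMap.neg_apply, Q.BEE, e3, e4, e5]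
    rw [ψg w hw w' hw']
    have f1 : ⟪x * ρ (ψ w), y⟫_ℝ = ⟪ρ (ψ w), u⟫_ℝ * ⟪x * u, y⟫_ℝ := by
      conv_lhs => rw [hρ (ψ w) (hc Q hA)]
      rw [mul_smul_comm, inner_smul_left]
      rfl
    have f2 : ⟪x * J w, y⟫_ℝ = ⟪J w, u⟫_ℝ * ⟪x * u, y⟫_ℝ := by
      conv_lhs => rw [hJu w hw]
      rw [mul_smul_comm, inner_smul_left]
      rfl
    rw [f1, f2, inner_sub_right, real_inner_comm u (ρ (ψ w)), real_inner_comm u (J w)]
    ring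

end GOS
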