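import Pool.Agent.GOS.StC

/-!
# GOS [DH3]: faithful actions on a space of dimension three (helper25)

With a `B`-orthonormal basis `v₁, v₂, v₃` of `W` every `A ∈ h` acts as `z ↦ q(A) × z`.  (`St_SK3` is not
used.)
-/

set_option autoImplicit false
set_option linter.unusedVariables false

namespace GOS

open scoped InnerProductSpace Quaternion

namespace DH3x

/-- orthonormal bases for a positive form -/
lemma basis {g : Type} [AddCommGroup g] [Module ℝ g] [FiniteDimensional ℝ g]
    (B : g →ₗ[ℝ] g →ₗ[ℝ] ℝ) (W : Submodule ℝ g) (hs : ∀ X Y, B X Y = B Y X)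
    (hp : ∀ X ∈ W, X ≠ 0 → 0 < B X X) (n : ℕ) (hn : Module.finrank ℝ W = n) :
    ∃ w : Fin n → g, (∀ i, w i ∈ W) ∧
      (∀ i j, B (w i) (w j) = if i = j then 1 else 0) ∧
      ∀ X ∈ W, X = ∑ i, B (w i) X • w i := by
  subst hn
  let c : InnerProductSpace.Core ℝ W :=
    { inner := fun x y => B (x : g) (y : g)
      conj_inner_symm := fun x y => by
        show B (y : g) (x : g) = B (x : g) (y : g)
        exact hs _ _
      re_inner_nonneg := fun x => by
        show 0 ≤ B (x : g) (x : g)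
        by_cases h : (x : g) = 0
        · rw [h, map_zero]
        · exact (hp x x.2 h).le
      add_left := fun x y z => by
        show B ((x : g) + (y : g)) (z : g) = B (x : g) (z : g) + B (y : g) (z : g)
        rw [map_add, LinearMap.add_apply]
      smul_left := fun x y r => by
        show B (r • (x : g)) (y : g) = r * B (x : g) (y : g)
        rw [map_smul, LinearMap.smul_apply, smul_eq_mul]
      definite := fun x h => by
        have h' : B (x : g) (x : g) = 0 := h
        by_contra h0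
        exact (hp x x.2 fun h1 => h0 (Subtype.ext h1)).ne' h' }
  letI : NormedAddCommGroup W := c.toNormedAddCommGroup
  letI : InnerProductSpace ℝ W := InnerProductSpace.ofCore c.toCore
  have hin : ∀ x y : W, ⟪x, y⟫_ℝ = B (x : g) (y : g) := fun x y => rfl
  let v := stdOrthonormalBasis ℝ W
  refine ⟨fun i => (v i : g), fun i => (v i).2, fun i j => ?_, fun X hX => ?_⟩
  · rw [← hin]
    exact (orthonormal_iff_ite.mp v.orthonormal) i j
  · have h1 := v.sum_repr' (⟨X, hX⟩ : W)
    have h2 : W.subtype (∑ i, ⟪v i, (⟨X, hX⟩ : W)⟫_ℝ • v i) = X := by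
      rw [h1]
      rfl
    rw [map_sum] at h2
    exact h2.symm

end DH3x

open DH3x in
theorem thm_DH3 (h1 : St_SK3) (h2 : St_LS3) : St_DH3 := by
  intro g _ _ _ B h W hA hW3 hfaith
  obtain ⟨w, hw, hww, hexp⟩ := basis B W hA.symm hA.pos 3 hW3
  obtain ⟨v1, hv1⟩ : ∃ v, v = w 0 := ⟨_, rfl⟩
  obtain ⟨v2, hv2⟩ : ∃ v, v = w 1 := ⟨_, rfl⟩
  obtain ⟨v3, hv3⟩ : ∃ v, v = w 2 := ⟨_, rfl⟩
  have m1 : v1 ∈ W := by rw [hv1]; exact hw 0
  have m2 : v2 ∈ W := by rw [hv2]; exact hw 1
  have m3 : v3 ∈ W := by rw [hv3]; exact hw 2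
  have ex : ∀ X ∈ W, X = B v1 X • v1 + B v2 X • v2 + B v3 X • v3 := by
    intro X hX
    have h3 := hexp X hX
    rw [Fin.sum_univ_three, ← hv1, ← hv2, ← hv3] at h3
    exact h3
  have sk : ∀ A ∈ h, ∀ X Y, B ⁅A, X⁆ Y = -B ⁅A, Y⁆ X := by
    intro A hA' X Y
    have h3 := hA.inv A hA' X Y
    rw [hA.symm X] at h3
    linarith
  have sk0 : ∀ A ∈ h, ∀ X, B X ⁅A, X⁆ = 0 := by
    intro A hA' X
    have h3 := sk A hA' X X
    rw [hA.symm]
    linarith
  -- the three coordinates
  obtain ⟨al, hal⟩ : ∃ f : g →ₗ[ℝ] ℝ, ∀ A, f A = B ⁅A, v2⁆ v3 :=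
    ⟨{ toFun := fun A => B ⁅A, v2⁆ v3
       map_add' := fun x y => by rw [add_lie, map_add, LinearMap.add_apply]
       map_smul' := fun r x => by
        rw [smul_lie, map_smul, LinearMap.smul_apply]
        rfl }, fun _ => rfl⟩
  obtain ⟨be, hbe⟩ : ∃ f : g →ₗ[ℝ] ℝ, ∀ A, f A = B ⁅A, v3⁆ v1 :=
    ⟨{ toFun := fun A => B ⁅A, v3⁆ v1
       map_add' := fun x y => by rw [add_lie, map_add, LinearMap.add_apply]
       map_smul' := fun r x => by
        rw [smul_lie, map_smul, LinearMap.smul_apply]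
        rfl }, fun _ => rfl⟩
  obtain ⟨ga, hga⟩ : ∃ f : g →ₗ[ℝ] ℝ, ∀ A, f A = B ⁅A, v1⁆ v2 :=
    ⟨{ toFun := fun A => B ⁅A, v1⁆ v2
       map_add' := fun x y => by rw [add_lie, map_add, LinearMap.add_apply]
       map_smul' := fun r x => by
        rw [smul_lie, map_smul, LinearMap.smul_apply]
        rfl }, fun _ => rfl⟩
  have a1 : ∀ A ∈ h, ⁅A, v1⁆ = ga A • v2 - be A • v3 := by
    intro A hA'
    have h3 := ex _ (hA.hW A hA' v1 m1)
    rw [sk0 A hA', hA.symm v2, hA.symm v3, sk A hA' v1 v3, ← hga, ← hbe] at h3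
    rw [h3]
    module
  have a2 : ∀ A ∈ h, ⁅A, v2⁆ = al A • v3 - ga A • v1 := by
    intro A hA'
    have h3 := ex _ (hA.hW A hA' v2 m2)
    rw [sk0 A hA', hA.symm v1, hA.symm v3, sk A hA' v2 v1, ← hga, ← hal] at h3
    rw [h3]
    module
  have a3 : ∀ A ∈ h, ⁅A, v3⁆ = be A • v1 - al A • v2 := by
    intro A hA'
    have h3 := ex _ (hA.hW A hA' v3 m3)
    rw [sk0 A hA', hA.symm v1, hA.symm v2, sk A hA' v3 v2, ← hbe, ← hal] at h3
    rw [h3]
    module
  have inj : ∀ A ∈ h, al A = 0 → be A = 0 → ga A = 0 → A = 0 := by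
    intro A hA' e1 e2 e3
    apply hfaith A hA'
    intro X hX
    rw [ex X hX, lie_add, lie_add, lie_smul, lie_smul, lie_smul, a1 A hA', a2 A hA', a3 A hA', e1,
      e2, e3]
    simp
  -- brackets
  have o11 : B v1 v1 = 1 := by rw [hv1, hww]; rfl
  have o22 : B v2 v2 = 1 := by rw [hv2, hww]; rfl
  have o33 : B v3 v3 = 1 := by rw [hv3, hww]; rfl
  have o12 : B v1 v2 = 0 := by rw [hv1, hv2, hww]; rfl
  have o13 : B v1 v3 = 0 := by rw [hv1, hv3, hww]; rfl
  have o23 : B v2 v3 = 0 := by rw [hv2, hv3, hww]; rfl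
  have o21 : B v2 v1 = 0 := by rw [hA.symm]; exact o12
  have o31 : B v3 v1 = 0 := by rw [hA.symm]; exact o13
  have o32 : B v3 v2 = 0 := by rw [hA.symm]; exact o23
  have bal : ∀ A ∈ h, ∀ A' ∈ h, al ⁅A, A'⁆ = be A * ga A' - ga A * be A' := by
    intro A hA1 A' hA2
    rw [hal, lie_lie, a2 A hA1, a2 A' hA2, lie_sub, lie_sub, lie_smul, lie_smul, lie_smul,
      lie_smul, a3 A hA1, a3 A' hA2, a1 A hA1, a1 A' hA2]
    simp only [map_sub, map_smul, LinearMap.sub_apply, LinearMap.smul_apply, o11, o22, o33, o12,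
      o13, o23, o21, o31, o32, smul_eq_mul]
    ring
  have bbe : ∀ A ∈ h, ∀ A' ∈ h, be ⁅A, A'⁆ = ga A * al A' - al A * ga A' := by
    intro A hA1 A' hA2
    rw [hbe, lie_lie, a3 A hA1, a3 A' hA2, lie_sub, lie_sub, lie_smul, lie_smul, lie_smul,
      lie_smul, a2 A hA1, a2 A' hA2, a1 A hA1, a1 A' hA2]
    simp only [map_sub, map_smul, LinearMap.sub_apply, LinearMap.smul_apply, o11, o22, o33, o12,
      o13, o23, o21, o31, o32, smul_eq_mul]
    ring
  have bga : ∀ A ∈ h, ∀ A' ∈ h, ga ⁅A, A'⁆ = al A * be A' - be A * al A' := by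
    intro A hA1 A' hA2
    rw [hga, lie_lie, a1 A hA1, a1 A' hA2, lie_sub, lie_sub, lie_smul, lie_smul, lie_smul,
      lie_smul, a2 A hA1, a2 A' hA2, a3 A hA1, a3 A' hA2]
    simp only [map_sub, map_smul, LinearMap.sub_apply, LinearMap.smul_apply, o11, o22, o33, o12,
      o13, o23, o21, o31, o32, smul_eq_mul]
    ring
  -- the map to the quaternions
  obtain ⟨p, hp⟩ : ∃ p : g →ₗ[ℝ] ℍ, ∀ A, p A = ⟨0, al A / 2, be A / 2, ga A / 2⟩ :=
    ⟨{ toFun := fun A => ⟨0, al A / 2, be A / 2, ga A / 2⟩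
       map_add' := fun x y => by
        ext <;> simp <;> ring
       map_smul' := fun r x => by
        ext <;> simp <;> ring }, fun _ => rfl⟩
  rcases h2 (h.map p) (by
      rintro _ ⟨A, hA', rfl⟩
      rw [hp]) (by
      rintro _ ⟨A, hA1, rfl⟩ _ ⟨A', hA2, rfl⟩
      refine ⟨⁅A, A'⁆, hA.hh A hA1 A' hA2, ?_⟩
      rw [hp, hp, hp, bal A hA1 A' hA2, bbe A hA1 A' hA2, bga A hA1 A' hA2]
      ext <;> simp <;> ring) with hall | ⟨p₀, -, hp₀, hline⟩
  · right
    have sur : ∀ a b c : ℝ, ∃ A ∈ h, al A = a ∧ be A = b ∧ ga A = c := by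
      intro a b c
      obtain ⟨A, hA', hpA⟩ := hall ⟨0, a / 2, b / 2, c / 2⟩ rfl
      rw [hp] at hpA
      have e1 := congrArg QuaternionAlgebra.imI hpA
      have e2 := congrArg QuaternionAlgebra.imJ hpA
      have e3 := congrArg QuaternionAlgebra.imK hpA
      simp only at e1 e2 e3
      exact ⟨A, hA', by linarith, by linarith, by linarith⟩
    constructor
    · let q : h →ₗ[ℝ] (Fin 3 → ℝ) :=
        { toFun := fun A => ![al A, be A, ga A]
          map_add' := by
            intro x y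
            ext i
            fin_cases i <;> simp
          map_smul' := by
            intro r x
            ext i
            fin_cases i <;> simp }
      have hq : Function.Bijective q := by
        constructor
        · rw [← LinearMap.ker_eq_bot, LinearMap.ker_eq_bot']
          intro A hA0
          have e1 : al A = 0 := congrFun hA0 0
          have e2 : be A = 0 := congrFun hA0 1
          have e3 : ga A = 0 := congrFun hA0 2
          exact Subtype.ext (inj A A.2 e1 e2 e3)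
        · intro x
          obtain ⟨A, hA', e1, e2, e3⟩ := sur (x 0) (x 1) (x 2)
          refine ⟨⟨A, hA'⟩, ?_⟩
          ext i
          fin_cases i
          · exact e1
          · exact e2
          · exact e3
      rw [(LinearEquiv.ofBijective q hq).finrank_eq, Module.finrank_fin_fun]
    · intro W' hW' hinv
      obtain ⟨A1, hA1, x11, x12, x13⟩ := sur 1 0 0
      obtain ⟨A2, hA2, x21, x22, x23⟩ := sur 0 1 0
      obtain ⟨A3, hA3, x31, x32, x33⟩ := sur 0 0 1
      have t11 : ⁅A1, v1⁆ = 0 := by rw [a1 A1 hA1, x12, x13]; simp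
      have t12 : ⁅A1, v2⁆ = v3 := by rw [a2 A1 hA1, x11, x13]; simp
      have t13 : ⁅A1, v3⁆ = -v2 := by rw [a3 A1 hA1, x11, x12]; simp
      have t21 : ⁅A2, v1⁆ = -v3 := by rw [a1 A2 hA2, x22, x23]; simp
      have t22 : ⁅A2, v2⁆ = 0 := by rw [a2 A2 hA2, x21, x23]; simp
      have t23 : ⁅A2, v3⁆ = v1 := by rw [a3 A2 hA2, x21, x22]; simp
      have t31 : ⁅A3, v1⁆ = v2 := by rw [a1 A3 hA3, x32, x33]; simp
      have t32 : ⁅A3, v2⁆ = -v1 := by rw [a2 A3 hA3, x31, x33]; simp
      have t33 : ⁅A3, v3⁆ = 0 := by rw [a3 A3 hA3, x31, x32]; simp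
      by_cases hbot : W' = ⊥
      · exact Or.inl hbot
      right
      obtain ⟨z, hz, hz0⟩ := Submodule.exists_mem_ne_zero_of_ne_bot hbot
      have hzx := ex z (hW' hz)
      obtain ⟨z1, hz1⟩ : ∃ r, r = B v1 z := ⟨_, rfl⟩
      obtain ⟨z2, hz2⟩ : ∃ r, r = B v2 z := ⟨_, rfl⟩
      obtain ⟨z3, hz3⟩ : ∃ r, r = B v3 z := ⟨_, rfl⟩
      rw [← hz1, ← hz2, ← hz3] at hzx
      have f1 : ⁅A1, z⁆ = z2 • v3 - z3 • v2 := by
        rw [hzx, lie_add, lie_add, lie_smul, lie_smul, lie_smul, t11, t12, t13]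
        module
      have f2 : ⁅A2, z⁆ = z3 • v1 - z1 • v3 := by
        rw [hzx, lie_add, lie_add, lie_smul, lie_smul, lie_smul, t21, t22, t23]
        module
      have f3 : ⁅A3, z⁆ = z1 • v2 - z2 • v1 := by
        rw [hzx, lie_add, lie_add, lie_smul, lie_smul, lie_smul, t31, t32, t33]
        module
      have hmem : ∀ A ∈ h, ∀ A' ∈ h, ⁅A, ⁅A', z⁆⁆ ∈ W' := fun A hA' A' hA'' =>
        hinv A hA' _ (hinv A' hA'' z hz)
      have g13 : z1 • v3 ∈ W' := by
        have h3 := hmem A1 hA1 A3 hA3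
        rw [f3, lie_sub, lie_smul, lie_smul, t12, t11, smul_zero, sub_zero] at h3
        exact h3
      have g12 : z1 • v2 ∈ W' := by
        have h3 := hmem A1 hA1 A2 hA2
        rw [f2, lie_sub, lie_smul, lie_smul, t13, t11, smul_zero, zero_sub, smul_neg, neg_neg]
          at h3
        exact h3
      have g21 : z2 • v1 ∈ W' := by
        have h3 := hmem A2 hA2 A1 hA1
        rw [f1, lie_sub, lie_smul, lie_smul, t23, t22, smul_zero, sub_zero] at h3
        exact h3
      have g31 : z3 • v1 ∈ W' := by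
        have h3 := hmem A3 hA3 A1 hA1
        rw [f1, lie_sub, lie_smul, lie_smul, t33, t32, smul_zero, zero_sub, smul_neg, neg_neg]
          at h3
        exact h3
      have all : v1 ∈ W' → v2 ∈ W' ∧ v3 ∈ W' := by
        intro h3
        have h4 := hinv A3 hA3 _ h3
        rw [t31] at h4
        have h5 := hinv A1 hA1 _ h4
        rw [t12] at h5
        exact ⟨h4, h5⟩
      have hv : v1 ∈ W' := by
        by_cases q1 : z1 = 0
        · by_cases q2 : z2 = 0
          · have q3 : z3 ≠ 0 := by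
              intro q3
              apply hz0
              rw [hzx, q1, q2, q3]
              simp
            exact (W'.smul_mem_iff q3).1 g31
          · exact (W'.smul_mem_iff q2).1 g21
        · have h3 := (W'.smul_mem_iff q1).1 g13
          have h4 := hinv A2 hA2 _ h3
          rw [t23] at h4
          exact h4
      obtain ⟨hv2', hv3'⟩ := all hv
      apply le_antisymm hW'
      intro X hX
      rw [ex X hX]
      exact W'.add_mem (W'.add_mem (W'.smul_mem _ hv) (W'.smul_mem _ hv2')) (W'.smul_mem _ hv3')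
  · left
    let q : h →ₗ[ℝ] (Submodule.span ℝ {p₀} : Submodule ℝ ℍ) :=
      (p.domRestrict h).codRestrict _ (by
        intro A
        obtain ⟨t, ht⟩ := hline (p A) ⟨A, A.2, rfl⟩
        show p A ∈ _
        rw [ht]
        exact Submodule.smul_mem _ _ (Submodule.mem_span_singleton_self p₀))
    have hq : Function.Injective q := by
      rw [← LinearMap.ker_eq_bot, LinearMap.ker_eq_bot']
      intro A hA0
      have h3 : p A = 0 := congrArg Subtype.val hA0
      rw [hp] at h3
      have e1 := congrArg QuaternionAlgebra.imI h3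
      have e2 := congrArg QuaternionAlgebra.imJ h3
      have e3 := congrArg QuaternionAlgebra.imK h3
      simp at e1 e2 e3
      exact Subtype.ext (inj A A.2 e1 e2 e3)
    have h3 := LinearMap.finrank_le_finrank_of_injective hq
    rw [finrank_span_singleton hp₀] at h3
    exact h3

end GOS
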