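import Mathlib

/-!
# Seven-dimensional g.o. spaces (MP_cdb478_gt): the definitions of the final statement

A connected homogeneous Riemannian manifold `M = G/K` is described, up to local isometry, by
`(g, k, B)`: the Lie algebras of `G` and of the isotropy group `K`, and the pull-back `B` to `g` of
the inner product of `T_o M = g/k`.  For a g.o. space take for `G` the identity component of the
isometry group: it is transitive and effective, and `K` is compact.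
-/

namespace GOS7

open scoped InnerProductSpace Quaternion

section general

variable {g g' : Type} [LieRing g] [LieAlgebra ℝ g] [LieRing g'] [LieAlgebra ℝ g']

/-- `(g, k, B)` describes a homogeneous Riemannian space: `B` is bilinear, symmetric, vanishes on
`k`, is positive off `k` and `ad k`-invariant, and `k` has an `ad k`-invariant complement. -/
structure Model (k : LieSubalgebra ℝ g) (B : g → g → ℝ) : Prop where
  add : ∀ X Y Z, B (X + Y) Z = B X Z + B Y Z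
  smul : ∀ (t : ℝ) (X Z : g), B (t • X) Z = t * B X Z
  symm : ∀ X Y, B X Y = B Y X
  ker : ∀ A ∈ k, ∀ X, B A X = 0
  pos : ∀ X, X ∉ k → 0 < B X X
  inv : ∀ A ∈ k, ∀ X Y, B ⁅A, X⁆ Y + B X ⁅A, Y⁆ = 0
  compl : ∃ m : Submodule ℝ g, IsCompl k.toSubmodule m ∧ ∀ A ∈ k, ∀ X ∈ m, ⁅A, X⁆ ∈ m

/-- `k` contains no nonzero ideal of `g`. -/
def Effective (k : LieSubalgebra ℝ g) : Prop :=
  ∀ I : LieIdeal ℝ g, (∀ X ∈ I, X ∈ k) → I = ⊥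

/-- The g.o. condition.  By the geodesic lemma (Kostant, Vinberg, Kowalski-Vanhecke)
`B([X + A, Y], X) = 0` for all `Y` means that the orbit of `o` under `exp t(X + A)` is a geodesic
with affine parameter `t`; its initial vector is the class of `X` in `g/k`. -/
def GO (k : LieSubalgebra ℝ g) (B : g → g → ℝ) : Prop :=
  ∀ X, ∃ A ∈ k, ∀ Y, B ⁅X + A, Y⁆ X = 0

/-- Naturally reductive with respect to `G`. -/
def NR (k : LieSubalgebra ℝ g) (B : g → g → ℝ) : Prop :=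
  ∃ m : Submodule ℝ g, IsCompl k.toSubmodule m ∧ (∀ A ∈ k, ∀ X ∈ m, ⁅A, X⁆ ∈ m) ∧
    ∀ X ∈ m, ∀ Y ∈ m, B ⁅X, Y⁆ X = 0

/-- `(g, k, B)` and `(g', k', B')` describe the same Riemannian space, `G` acting through the
homomorphism `f` to `G'` (both groups are transitive). -/
def SameSpace (B : g → g → ℝ) (k' : LieSubalgebra ℝ g') (B' : g' → g' → ℝ) : Prop :=
  ∃ f : g →ₗ⁅ℝ⁆ g', (∀ X Y, B' (f X) (f Y) = B X Y) ∧ ∀ Z, ∃ X, Z - f X ∈ k'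

/-- The space is naturally reductive with respect to some group of isometries (containing the
given one). -/
def NatRed (B : g → g → ℝ) : Prop :=
  ∃ (g₁ : Type) (_ : LieRing g₁) (_ : LieAlgebra ℝ g₁) (k₁ : LieSubalgebra ℝ g₁)
    (B₁ : g₁ → g₁ → ℝ), FiniteDimensional ℝ g₁ ∧ Model k₁ B₁ ∧ NR k₁ B₁ ∧ SameSpace B k₁ B₁

/-- The nilpotent family.  `g` contains the Lie algebra `𝔫 = E(ℍ) ⊕ ⟨Z₁, Z₂, Z₃⟩` of a simply
transitive group, with `[E x, E y] = l₁ (x̄ y)_i Z₁ + l₂ (x̄ y)_j Z₂ + l₃ (x̄ y)_k Z₃`, `Z₁, Z₂, Z₃`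
central in `𝔫`, and `E : ℍ → 𝔫`, `Z₁, Z₂, Z₃` orthonormal. -/
def NilFamily (l₁ l₂ l₃ : ℝ) (k : LieSubalgebra ℝ g) (B : g → g → ℝ) : Prop :=
  ∃ (E : ℍ →ₗ[ℝ] g) (Z₁ Z₂ Z₃ : g),
    (∀ x y : ℍ, ⁅E x, E y⁆ = (l₁ * (star x * y).imI) • Z₁ + (l₂ * (star x * y).imJ) • Z₂ +
      (l₃ * (star x * y).imK) • Z₃) ∧
    (∀ x : ℍ, ⁅E x, Z₁⁆ = 0 ∧ ⁅E x, Z₂⁆ = 0 ∧ ⁅E x, Z₃⁆ = 0) ∧
    ⁅Z₁, Z₂⁆ = 0 ∧ ⁅Z₂, Z₃⁆ = 0 ∧ ⁅Z₃, Z₁⁆ = 0 ∧
    (∀ (x : ℍ) (a b c : ℝ), B (E x + a • Z₁ + b • Z₂ + c • Z₃) (E x + a • Z₁ + b • Z₂ + c • Z₃) =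
      ‖x‖ ^ 2 + a ^ 2 + b ^ 2 + c ^ 2) ∧
    ∀ X : g, ∃ (x : ℍ) (a b c : ℝ), X - (E x + a • Z₁ + b • Z₂ + c • Z₃) ∈ k

/-- The family `(SO(5) × SO(2))/U(2)` (`ε = 1`), `(SO(4,1) × SO(2))/U(2)` (`ε = -1`).
`X ↦ (M X, r X)` is a homomorphism from `g` to `𝔰𝔭(2) ⊕ ℝ` (`ε = 1`) or `𝔰𝔭(1,1) ⊕ ℝ` (`ε = -1`),
the quaternionic `2 × 2` matrices with `M* S + S M = 0`, `S = diag(1, ε)`, plus `ℝ`.  The isotropy
algebra there is `{(diag(a, t i), t s)}`, isomorphic to `𝔲(2)`, and the metric is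
`α |x|² + β (p_j² + p_k²) + (s p_i - r)²` with `x = M₀₁`, `p = M₁₁`; `g` is transitive. -/
def SpFamily (ε α β s : ℝ) (B : g → g → ℝ) : Prop :=
  ∃ (M : g →ₗ[ℝ] Matrix (Fin 2) (Fin 2) ℍ) (r : g →ₗ[ℝ] ℝ),
    (∀ X, (M X).conjTranspose * !![1, 0; 0, (ε : ℍ)] + !![1, 0; 0, (ε : ℍ)] * M X = 0) ∧
    (∀ X Y, M ⁅X, Y⁆ = M X * M Y - M Y * M X ∧ r ⁅X, Y⁆ = 0) ∧
    (∀ X, B X X = α * ‖M X 0 1‖ ^ 2 + β * ((M X 1 1).imJ ^ 2 + (M X 1 1).imK ^ 2) +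
      (s * (M X 1 1).imI - r X) ^ 2) ∧
    ∀ (x p : ℍ) (c : ℝ), p.re = 0 → ∃ (X : g) (t : ℝ),
      M X 0 1 = x ∧ M X 1 1 = p + ⟨0, t, 0, 0⟩ ∧ r X = c + t * s

end general

end GOS7
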