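import Pool.Agent.GOS.StB

/-!
# Module EFF of MP_cdb478_gt (helper90): effectivity is pointwise
-/

namespace GOS

theorem thm_EFF : St_EFF := by
  intro g _ _ k B hM hE
  obtain ⟨m, hc, hm⟩ := hM.compl
  have key : ∀ A ∈ k, (∀ X, ⁅A, X⁆ ∈ k) → ∀ X ∈ m, ⁅A, X⁆ = 0 := by
    intro A hA h X hX
    have h1 : ⁅A, X⁆ ∈ k.toSubmodule ⊓ m := ⟨h X, hm A hA X hX⟩
    rw [hc.inf_eq_bot] at h1
    exact (Submodule.mem_bot ℝ).1 h1
  have dec : ∀ X : g, ∃ a ∈ k, ∃ b ∈ m, a + b = X := by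
    intro X
    have hX : X ∈ k.toSubmodule ⊔ m := by
      rw [hc.sup_eq_top]
      exact Submodule.mem_top
    obtain ⟨a, ha, b, hb, h⟩ := Submodule.mem_sup.1 hX
    exact ⟨a, ha, b, hb, h⟩
  have back : ∀ A ∈ k, (∀ X ∈ m, ⁅A, X⁆ = 0) → ∀ X, ⁅A, X⁆ ∈ k := by
    intro A hA h X
    obtain ⟨a, ha, b, hb, rfl⟩ := dec X
    rw [lie_add, h b hb, add_zero]
    exact k.lie_mem hA ha
  let I : LieIdeal ℝ g :=
    { carrier := {A | A ∈ k ∧ ∀ X, ⁅A, X⁆ ∈ k}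
      add_mem' := by
        rintro a b ⟨ha, ha'⟩ ⟨hb, hb'⟩
        refine ⟨k.add_mem ha hb, fun X => ?_⟩
        rw [add_lie]
        exact k.add_mem (ha' X) (hb' X)
      zero_mem' := by
        refine ⟨k.zero_mem, fun X => ?_⟩
        rw [zero_lie]
        exact k.zero_mem
      smul_mem' := by
        rintro c a ⟨ha, ha'⟩
        refine ⟨k.smul_mem c ha, fun X => ?_⟩
        rw [smul_lie]
        exact k.smul_mem c (ha' X)
      lie_mem := by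
        rintro Z A ⟨hA, hA'⟩
        obtain ⟨C, hC, Y, hY, rfl⟩ := dec Z
        have h1 : ⁅Y, A⁆ = 0 := by
          rw [← lie_skew, key A hA hA' Y hY, neg_zero]
        have h2 : ⁅C + Y, A⁆ = ⁅C, A⁆ := by rw [add_lie, h1, add_zero]
        have h3 : ⁅C, A⁆ ∈ k := k.lie_mem hC hA
        show ⁅C + Y, A⁆ ∈ k ∧ ∀ X, ⁅⁅C + Y, A⁆, X⁆ ∈ k
        rw [h2]
        refine ⟨h3, back _ h3 ?_⟩
        intro X hX
        rw [lie_lie, key A hA hA' X hX, lie_zero, key A hA hA' _ (hm C hC X hX), sub_zero] }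
  have hI : I = ⊥ := hE I (fun X hX => hX.1)
  intro A hA h
  have hAI : A ∈ I := ⟨hA, h⟩
  rw [hI] at hAI
  exact (LieSubmodule.mem_bot A).1 hAI

end GOS
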