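import Pool.Agent.GOS.StA

/-!
# Module EQ1: equivariant maps of the quaternions
-/

set_option autoImplicit false

namespace GOS

open scoped InnerProductSpace Quaternion

private def qI : ℍ := ⟨0, 1, 0, 0⟩
private def qJ : ℍ := ⟨0, 0, 1, 0⟩
private def qK : ℍ := ⟨0, 0, 0, 1⟩

private theorem qI_re : qI.re = 0 := rfl
private theorem qI_i : qI.imI = 1 := rfl
private theorem qI_j : qI.imJ = 0 := rfl
private theorem qI_k : qI.imK = 0 := rfl
private theorem qJ_re : qJ.re = 0 := rfl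
private theorem qJ_i : qJ.imI = 0 := rfl
private theorem qJ_j : qJ.imJ = 1 := rfl
private theorem qJ_k : qJ.imK = 0 := rfl
private theorem qK_re : qK.re = 0 := rfl
private theorem qK_i : qK.imI = 0 := rfl
private theorem qK_j : qK.imJ = 0 := rfl
private theorem qK_k : qK.imK = 1 := rfl

private theorem II : qI * qI = -1 := by
  apply Quaternion.ext <;> simp [qI_re, qI_i, qI_j, qI_k]
private theorem IJ : qI * qJ = qK := by
  apply Quaternion.ext <;>
    simp [qI_re, qI_i, qI_j, qI_k, qJ_re, qJ_i, qJ_j, qJ_k, qK_re, qK_i, qK_j, qK_k]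
private theorem JI : qJ * qI = -qK := by
  apply Quaternion.ext <;>
    simp [qI_re, qI_i, qI_j, qI_k, qJ_re, qJ_i, qJ_j, qJ_k, qK_re, qK_i, qK_j, qK_k]
private theorem IK : qI * qK = -qJ := by
  apply Quaternion.ext <;>
    simp [qI_re, qI_i, qI_j, qI_k, qJ_re, qJ_i, qJ_j, qJ_k, qK_re, qK_i, qK_j, qK_k]
private theorem KI : qK * qI = qJ := by
  apply Quaternion.ext <;>
    simp [qI_re, qI_i, qI_j, qI_k, qJ_re, qJ_i, qJ_j, qJ_k, qK_re, qK_i, qK_j, qK_k]
private theorem JK : qJ * qK = qI := by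
  apply Quaternion.ext <;>
    simp [qI_re, qI_i, qI_j, qI_k, qJ_re, qJ_i, qJ_j, qJ_k, qK_re, qK_i, qK_j, qK_k]
private theorem KJ : qK * qJ = -qI := by
  apply Quaternion.ext <;>
    simp [qI_re, qI_i, qI_j, qI_k, qJ_re, qJ_i, qJ_j, qJ_k, qK_re, qK_i, qK_j, qK_k]
private theorem JJ : qJ * qJ = -1 := by
  apply Quaternion.ext <;> simp [qJ_re, qJ_i, qJ_j, qJ_k]

private theorem dec (z : ℍ) (hz : z.re = 0) :
    z = z.imI • qI + z.imJ • qJ + z.imK • qK := by
  apply Quaternion.ext <;>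
    simp [qI_re, qI_i, qI_j, qI_k, qJ_re, qJ_i, qJ_j, qJ_k, qK_re, qK_i, qK_j, qK_k, hz]

private theorem sq_im (z : ℍ) (hz : z.re = 0) :
    z * z = -((z.imI ^ 2 + z.imJ ^ 2 + z.imK ^ 2) • (1 : ℍ)) := by
  apply Quaternion.ext <;> simp [hz] <;> ring

private theorem part1 (β : ℍ →ₗ[ℝ] ℍ →ₗ[ℝ] ℍ)
    (h : ∀ a x y : ℍ, a.re = 0 → a * β x y = β (a * x) y + β x (a * y)) (x y : ℍ) :
    β x y = 0 := by
  have h1 : ∀ x y, β (qI * x) (qI * y) = (1 / 2 : ℝ) • β x y := by
    intro x y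
    have e1 := h qI x y rfl
    have e2 := h qI (qI * x) y rfl
    have e3 := h qI x (qI * y) rfl
    have e4 : qI * (qI * β x y) = -β x y := by rw [← mul_assoc, II, neg_one_mul]
    have e5 : qI * (qI * x) = -x := by rw [← mul_assoc, II, neg_one_mul]
    have e6 : qI * (qI * y) = -y := by rw [← mul_assoc, II, neg_one_mul]
    rw [e1, mul_add, e2, e3, e5, e6, map_neg, map_neg, LinearMap.neg_apply] at e4
    have e7 : (2 : ℝ) • β (qI * x) (qI * y) = β x y := by
      have e8 : β (qI * x) (qI * y) + β (qI * x) (qI * y) = β x y := by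
        have e9 : -β x y + β (qI * x) (qI * y) + (β (qI * x) (qI * y) + -β x y) +
            (β x y + β x y) = -β x y + (β x y + β x y) :=
          congrArg (fun t => t + (β x y + β x y)) e4
        calc β (qI * x) (qI * y) + β (qI * x) (qI * y)
            = -β x y + β (qI * x) (qI * y) + (β (qI * x) (qI * y) + -β x y) +
                (β x y + β x y) := by abel
          _ = -β x y + (β x y + β x y) := e9
          _ = β x y := by abel
      rw [two_smul, e8]
    rw [← e7, smul_smul]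
    norm_num
  have h2 := h1 (qI * x) (qI * y)
  have e5 : qI * (qI * x) = -x := by rw [← mul_assoc, II, neg_one_mul]
  have e6 : qI * (qI * y) = -y := by rw [← mul_assoc, II, neg_one_mul]
  rw [h1 x y, e5, e6, map_neg, map_neg, LinearMap.neg_apply, neg_neg, smul_smul] at h2
  have h3 : (3 / 4 : ℝ) • β x y = 0 := by
    have h4 : (3 / 4 : ℝ) • β x y = β x y - (1 / 2 * (1 / 2) : ℝ) • β x y := by module
    rw [h4, ← h2, sub_self]
  rcases smul_eq_zero.1 h3 with h5 | h5
  · norm_num at h5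
  · exact h5

private theorem part2 (η : ℍ →ₗ[ℝ] ℍ →ₗ[ℝ] ℍ) (hre : ∀ x z : ℍ, z.re = 0 → (η x z).re = 0)
    (h : ∀ a x z : ℍ, a.re = 0 → z.re = 0 →
      a * η x z - η x z * a = η (a * x) z + η x (a * z - z * a)) (x z : ℍ) (hz : z.re = 0) :
    η x z = 0 := by
  have e1 := h z x z hz hz
  have e2 := h z (z * x) z hz hz
  rw [sub_self, map_zero, add_zero] at e1 e2
  rw [← mul_assoc, sq_im z hz, neg_mul, smul_mul_assoc, one_mul, map_neg, map_smul,
    LinearMap.neg_apply, LinearMap.smul_apply, ← e1] at e2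
  generalize hq : η x z = w at e2
  have hw : w.re = 0 := by rw [← hq]; exact hre x z hz
  have c1 := congrArg (fun t : ℍ => t.imI) e2
  have c2 := congrArg (fun t : ℍ => t.imJ) e2
  have c3 := congrArg (fun t : ℍ => t.imK) e2
  simp only [Quaternion.imI_mul, Quaternion.imI_sub, Quaternion.imJ_mul, Quaternion.imJ_sub,
    Quaternion.imK_mul, Quaternion.imK_sub, Quaternion.re_mul, Quaternion.re_sub,
    Quaternion.imI_neg, Quaternion.imJ_neg, Quaternion.imK_neg, Quaternion.imI_smul,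
    Quaternion.imJ_smul, Quaternion.imK_smul, smul_eq_mul, hw, hz] at c1 c2 c3
  by_cases hN : z.imI ^ 2 + z.imJ ^ 2 + z.imK ^ 2 = 0
  · have hz1 : z.imI = 0 := by nlinarith [sq_nonneg z.imI, sq_nonneg z.imJ, sq_nonneg z.imK]
    have hz2 : z.imJ = 0 := by nlinarith [sq_nonneg z.imI, sq_nonneg z.imJ, sq_nonneg z.imK]
    have hz3 : z.imK = 0 := by nlinarith [sq_nonneg z.imI, sq_nonneg z.imJ, sq_nonneg z.imK]
    have h0 : z = 0 := by
      apply Quaternion.ext
      · exact hz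
      · exact hz1
      · exact hz2
      · exact hz3
    rw [← hq, h0, map_zero]
  · have hd : z.imI * w.imI + z.imJ * w.imJ + z.imK * w.imK = 0 := by
      have : (z.imI ^ 2 + z.imJ ^ 2 + z.imK ^ 2) *
          (z.imI * w.imI + z.imJ * w.imJ + z.imK * w.imK) = 0 := by
        linear_combination z.imI * c1 + z.imJ * c2 + z.imK * c3
      exact (mul_eq_zero.1 this).resolve_left hN
    have hw1 : w.imI = 0 := by
      have : (z.imI ^ 2 + z.imJ ^ 2 + z.imK ^ 2) * w.imI = 0 := by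
        linear_combination (-1 / 3 : ℝ) * c1 + (4 / 3 : ℝ) * z.imI * hd
      exact (mul_eq_zero.1 this).resolve_left hN
    have hw2 : w.imJ = 0 := by
      have : (z.imI ^ 2 + z.imJ ^ 2 + z.imK ^ 2) * w.imJ = 0 := by
        linear_combination (-1 / 3 : ℝ) * c2 + (4 / 3 : ℝ) * z.imJ * hd
      exact (mul_eq_zero.1 this).resolve_left hN
    have hw3 : w.imK = 0 := by
      have : (z.imI ^ 2 + z.imJ ^ 2 + z.imK ^ 2) * w.imK = 0 := by
        linear_combination (-1 / 3 : ℝ) * c3 + (4 / 3 : ℝ) * z.imK * hd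
      exact (mul_eq_zero.1 this).resolve_left hN
    apply Quaternion.ext
    · exact hw
    · exact hw1
    · exact hw2
    · exact hw3

private theorem part3 (δ : ℍ →ₗ[ℝ] ℍ →ₗ[ℝ] ℍ)
    (h : ∀ a x z : ℍ, a.re = 0 → z.re = 0 → a * δ x z = δ (a * x) z + δ x (a * z - z * a)) :
    ∃ q : ℍ, ∀ x z : ℍ, z.re = 0 → δ x z = z * x * q := by
  have ha : ∀ a z : ℍ, a.re = 0 → z.re = 0 → δ a z = a * δ 1 z - δ 1 (a * z - z * a) := by
    intro a z h1 h2
    have h3 := h a 1 z h1 h2
    rw [mul_one] at h3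
    rw [h3]
    abel
  have hz : ∀ a z : ℍ, z.re = 0 → z * δ a z = δ (z * a) z := by
    intro a z h1
    have h3 := h z a z h1 h1
    rwa [sub_self, map_zero, add_zero] at h3
  refine ⟨-(qI * δ 1 qI), ?_⟩
  have gI : δ 1 qI = qI * -(qI * δ 1 qI) := by
    rw [mul_neg, ← mul_assoc, II, neg_one_mul, neg_neg]
  generalize hq : -(qI * δ 1 qI) = q at gI
  have gK : δ 1 qK = qK * q := by
    have e1 := hz qI qJ rfl
    rw [ha qI qJ rfl rfl, JI, IJ, sub_neg_eq_add, map_neg, LinearMap.neg_apply,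
      ha qK qJ rfl rfl, KJ, JK] at e1
    have e2 : (-qI - qI : ℍ) = -(qI + qI) := by abel
    rw [e2, map_add, map_neg, map_add, mul_sub, ← mul_assoc, JI, mul_add, neg_mul] at e1
    have e3 : qJ * δ 1 qK + qJ * δ 1 qK = δ 1 qI + δ 1 qI := by
      have e4 := congrArg (fun t : ℍ => -(t + qK * δ 1 qJ)) e1
      calc qJ * δ 1 qK + qJ * δ 1 qK
          = -(-(qK * δ 1 qJ) - (qJ * δ 1 qK + qJ * δ 1 qK) + qK * δ 1 qJ) := by abel
        _ = _ := e4
        _ = δ 1 qI + δ 1 qI := by abel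
    have e5 : qJ * δ 1 qK = δ 1 qI := by
      have e6 : (2 : ℝ) • (qJ * δ 1 qK) = (2 : ℝ) • δ 1 qI := by rw [two_smul, two_smul, e3]
      exact smul_right_injective ℍ (two_ne_zero) e6
    have e7 : δ 1 qK = -(qJ * (qJ * δ 1 qK)) := by
      rw [← mul_assoc, JJ, neg_one_mul, neg_neg]
    rw [e7, e5, gI, ← mul_assoc, JI, neg_mul, neg_neg]
  have gJ : δ 1 qJ = qJ * q := by
    have e1 := hz qJ qI rfl
    rw [ha qJ qI rfl rfl, IJ, JI, ha qK qI rfl rfl, KI, IK, sub_neg_eq_add] at e1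
    have e2 : (-qK - qK : ℍ) = -(qK + qK) := by abel
    rw [e2, map_neg, map_add, map_add, mul_sub, mul_neg, mul_add, ← mul_assoc, IJ] at e1
    have e3 : δ 1 qJ + δ 1 qJ = -(qI * δ 1 qK + qI * δ 1 qK) := by
      have e4 := congrArg (fun t : ℍ => -t + qK * δ 1 qI) e1
      calc δ 1 qJ + δ 1 qJ = -(qK * δ 1 qI - (δ 1 qJ + δ 1 qJ)) + qK * δ 1 qI := by abel
        _ = _ := e4.symm
        _ = -(qI * δ 1 qK + qI * δ 1 qK) := by abel
    have e5 : δ 1 qJ = -(qI * δ 1 qK) := by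
      have e6 : (2 : ℝ) • δ 1 qJ = (2 : ℝ) • (-(qI * δ 1 qK)) := by
        rw [two_smul, two_smul, e3]
        abel
      exact smul_right_injective ℍ (two_ne_zero) e6
    rw [e5, gK, ← mul_assoc, IK, neg_mul, neg_neg]
  have g : ∀ z : ℍ, z.re = 0 → δ 1 z = z * q := by
    intro z hz0
    rw [dec z hz0, map_add, map_add, map_smul, map_smul, map_smul, gI, gJ, gK, add_mul, add_mul,
      smul_mul_assoc, smul_mul_assoc, smul_mul_assoc]
  intro x z hz0
  have hx : x = x.re • (1 : ℍ) + x.im := by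
    ext <;> simp
  have hc : (x.im * z - z * x.im).re = 0 := by
    simp [hz0]
    ring
  rw [hx, map_add, LinearMap.add_apply, map_smul, LinearMap.smul_apply, g z hz0,
    ha x.im z (by simp) hz0, g z hz0, g _ hc, mul_add, add_mul, sub_mul, mul_smul_comm, mul_one,
    smul_mul_assoc, mul_assoc x.im z q]
  abel

/-- equivariant maps of the quaternions -/
theorem thm_EQ1 : St_EQ1 :=
  ⟨fun β h x y => part1 β h x y, fun η h1 h2 x z hz => part2 η h1 h2 x z hz,
    fun δ h => part3 δ h⟩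

end GOS
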