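import Pool.Agent.GOS.StA

/-!
# GOS: module EQ3 (equivariant maps of the imaginary quaternions)
-/

set_option autoImplicit false

namespace GOS

open scoped Quaternion

/-- the quaternion `i` -/
def eq3_i : ℍ := ⟨0, 1, 0, 0⟩
/-- the quaternion `j` -/
def eq3_j : ℍ := ⟨0, 0, 1, 0⟩
/-- the quaternion `k` -/
def eq3_k : ℍ := ⟨0, 0, 0, 1⟩

theorem eq3_ci (q : ℍ) : eq3_i * q - q * eq3_i = ⟨0, 0, -2 * q.imK, 2 * q.imJ⟩ := by
  ext <;> simp [eq3_i] <;> ring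

theorem eq3_cj (q : ℍ) : eq3_j * q - q * eq3_j = ⟨0, 2 * q.imK, 0, -2 * q.imI⟩ := by
  ext <;> simp [eq3_j] <;> ring

theorem eq3_ck (q : ℍ) : eq3_k * q - q * eq3_k = ⟨0, -2 * q.imJ, 2 * q.imI, 0⟩ := by
  ext <;> simp [eq3_k] <;> ring

theorem eq3_ii : eq3_i * eq3_i - eq3_i * eq3_i = 0 := sub_self _
theorem eq3_jj : eq3_j * eq3_j - eq3_j * eq3_j = 0 := sub_self _
theorem eq3_kk : eq3_k * eq3_k - eq3_k * eq3_k = 0 := sub_self _

theorem eq3_ij : eq3_i * eq3_j - eq3_j * eq3_i = (2 : ℝ) • eq3_k := by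
  rw [eq3_ci]
  ext <;> simp [eq3_j, eq3_k]

theorem eq3_ik : eq3_i * eq3_k - eq3_k * eq3_i = (-2 : ℝ) • eq3_j := by
  rw [eq3_ci]
  ext <;> simp [eq3_j, eq3_k]

theorem eq3_ji : eq3_j * eq3_i - eq3_i * eq3_j = (-2 : ℝ) • eq3_k := by
  rw [eq3_cj]
  ext <;> simp [eq3_i, eq3_k]

theorem eq3_jk : eq3_j * eq3_k - eq3_k * eq3_j = (2 : ℝ) • eq3_i := by
  rw [eq3_cj]
  ext <;> simp [eq3_i, eq3_k]

theorem eq3_ki : eq3_k * eq3_i - eq3_i * eq3_k = (2 : ℝ) • eq3_j := by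
  rw [eq3_ck]
  ext <;> simp [eq3_i, eq3_j]

theorem eq3_kj : eq3_k * eq3_j - eq3_j * eq3_k = (-2 : ℝ) • eq3_i := by
  rw [eq3_ck]
  ext <;> simp [eq3_i, eq3_j]

theorem eq3_dec {x : ℍ} (h : x.re = 0) : x = x.imI • eq3_i + x.imJ • eq3_j + x.imK • eq3_k := by
  ext
  · simp [eq3_i, eq3_j, eq3_k, h]
  · simp [eq3_i, eq3_j, eq3_k]
  · simp [eq3_i, eq3_j, eq3_k]
  · simp [eq3_i, eq3_j, eq3_k]

theorem eq3_cmp {a b c d : ℝ} {q : ℍ} (h : (⟨a, b, c, d⟩ : ℍ) = q) :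
    b = q.imI ∧ c = q.imJ ∧ d = q.imK := by
  subst h
  exact ⟨rfl, rfl, rfl⟩

/-- part (2) -/
theorem eq3_two (η : ℍ →ₗ[ℝ] ℍ) (h0 : ∀ z : ℍ, z.re = 0 → (η z).re = 0)
    (h : ∀ a z : ℍ, a.re = 0 → z.re = 0 → a * η z - η z * a = η (a * z - z * a)) :
    ∃ c : ℝ, ∀ z : ℍ, z.re = 0 → η z = c • z := by
  have hi : (η eq3_i).re = 0 := h0 _ rfl
  have hj : (η eq3_j).re = 0 := h0 _ rfl
  have hk : (η eq3_k).re = 0 := h0 _ rfl
  have e1 := h eq3_i eq3_i rfl rfl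
  have e2 := h eq3_j eq3_j rfl rfl
  have e3 := h eq3_k eq3_k rfl rfl
  have e4 := h eq3_i eq3_j rfl rfl
  have e5 := h eq3_j eq3_k rfl rfl
  rw [eq3_ci, eq3_ii, map_zero] at e1
  rw [eq3_cj, eq3_jj, map_zero] at e2
  rw [eq3_ck, eq3_kk, map_zero] at e3
  rw [eq3_ci, eq3_ij, map_smul] at e4
  rw [eq3_cj, eq3_jk, map_smul] at e5
  obtain ⟨-, a1, b1⟩ := eq3_cmp e1
  obtain ⟨a2, -, b2⟩ := eq3_cmp e2
  obtain ⟨a3, b3, -⟩ := eq3_cmp e3
  obtain ⟨a4, b4, c4⟩ := eq3_cmp e4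
  obtain ⟨a5, b5, c5⟩ := eq3_cmp e5
  simp only [Quaternion.imI_zero, Quaternion.imJ_zero, Quaternion.imK_zero, Quaternion.imI_smul,
    Quaternion.imJ_smul, Quaternion.imK_smul, smul_eq_mul] at a1 b1 a2 b2 a3 b3 a4 b4 c4 a5 b5 c5
  have c1 : (η eq3_i).imJ = 0 := by linarith
  have c2 : (η eq3_i).imK = 0 := by linarith
  have c3 : (η eq3_j).imI = 0 := by linarith
  have c4' : (η eq3_j).imK = 0 := by linarith
  have c5' : (η eq3_k).imI = 0 := by linarith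
  have c6 : (η eq3_k).imJ = 0 := by linarith
  have c7 : (η eq3_j).imJ = (η eq3_i).imI := by linarith
  have c8 : (η eq3_k).imK = (η eq3_i).imI := by linarith
  refine ⟨(η eq3_i).imI, fun z hz => ?_⟩
  have hd := eq3_dec hz
  have hη : η z = z.imI • η eq3_i + z.imJ • η eq3_j + z.imK • η eq3_k := by
    conv_lhs => rw [hd]
    simp only [map_add, map_smul]
  rw [hη]
  ext
  · simp [hi, hj, hk, hz]
  · simp [c3, c5']
    ring
  · simp [c1, c6, c7]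
    ring
  · simp [c2, c4', c8]
    ring

/-- part (1) -/
theorem eq3_one (β : ℍ →ₗ[ℝ] ℍ →ₗ[ℝ] ℍ)
    (h0 : ∀ x y : ℍ, x.re = 0 → y.re = 0 → (β x y).re = 0)
    (h : ∀ a x y : ℍ, a.re = 0 → x.re = 0 → y.re = 0 →
      a * β x y - β x y * a = β (a * x - x * a) y + β x (a * y - y * a)) :
    ∃ κ : ℝ, ∀ x y : ℍ, x.re = 0 → y.re = 0 → β x y = κ • (x * y - y * x) := by
  have r1 : (β eq3_i eq3_i).re = 0 := h0 _ _ rfl rfl
  have r2 : (β eq3_i eq3_j).re = 0 := h0 _ _ rfl rfl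
  have r3 : (β eq3_i eq3_k).re = 0 := h0 _ _ rfl rfl
  have r4 : (β eq3_j eq3_i).re = 0 := h0 _ _ rfl rfl
  have r5 : (β eq3_j eq3_j).re = 0 := h0 _ _ rfl rfl
  have r6 : (β eq3_j eq3_k).re = 0 := h0 _ _ rfl rfl
  have r7 : (β eq3_k eq3_i).re = 0 := h0 _ _ rfl rfl
  have r8 : (β eq3_k eq3_j).re = 0 := h0 _ _ rfl rfl
  have r9 : (β eq3_k eq3_k).re = 0 := h0 _ _ rfl rfl
  have e1 := h eq3_i eq3_i eq3_j rfl rfl rfl
  have e2 := h eq3_i eq3_i eq3_k rfl rfl rfl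
  have e3 := h eq3_j eq3_i eq3_j rfl rfl rfl
  have e4 := h eq3_j eq3_k eq3_j rfl rfl rfl
  have e5 := h eq3_j eq3_j eq3_i rfl rfl rfl
  have e6 := h eq3_j eq3_j eq3_k rfl rfl rfl
  have e7 := h eq3_i eq3_j eq3_i rfl rfl rfl
  have e8 := h eq3_i eq3_k eq3_i rfl rfl rfl
  have e9 := h eq3_k eq3_k eq3_i rfl rfl rfl
  have f1 := h eq3_i eq3_i eq3_i rfl rfl rfl
  have f2 := h eq3_j eq3_j eq3_j rfl rfl rfl
  have f3 := h eq3_k eq3_i eq3_j rfl rfl rfl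
  have f4 := h eq3_i eq3_j eq3_k rfl rfl rfl
  rw [eq3_ci, eq3_ii, eq3_ij, map_zero, map_smul, LinearMap.zero_apply, zero_add] at e1
  rw [eq3_ci, eq3_ii, eq3_ik, map_zero, map_smul, LinearMap.zero_apply, zero_add] at e2
  rw [eq3_cj, eq3_jj, eq3_ji, map_zero, map_smul, LinearMap.smul_apply, add_zero] at e3
  rw [eq3_cj, eq3_jj, eq3_jk, map_zero, map_smul, LinearMap.smul_apply, add_zero] at e4
  rw [eq3_cj, eq3_jj, eq3_ji, map_zero, map_smul, LinearMap.zero_apply, zero_add] at e5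
  rw [eq3_cj, eq3_jj, eq3_jk, map_zero, map_smul, LinearMap.zero_apply, zero_add] at e6
  rw [eq3_ci, eq3_ii, eq3_ij, map_zero, map_smul, LinearMap.smul_apply, add_zero] at e7
  rw [eq3_ci, eq3_ii, eq3_ik, map_zero, map_smul, LinearMap.smul_apply, add_zero] at e8
  rw [eq3_ck, eq3_kk, eq3_ki, map_zero, map_smul, LinearMap.zero_apply, zero_add] at e9
  rw [eq3_ci, eq3_ii, map_zero, map_zero, LinearMap.zero_apply, zero_add] at f1
  rw [eq3_cj, eq3_jj, map_zero, map_zero, LinearMap.zero_apply, zero_add] at f2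
  rw [eq3_ck, eq3_ki, eq3_kj, map_smul, map_smul, LinearMap.smul_apply] at f3
  rw [eq3_ci, eq3_ij, eq3_ik, map_smul, map_smul, LinearMap.smul_apply] at f4
  obtain ⟨a1, b1, c1⟩ := eq3_cmp e1
  obtain ⟨a2, b2, c2⟩ := eq3_cmp e2
  obtain ⟨a3, b3, c3⟩ := eq3_cmp e3
  obtain ⟨a4, b4, c4⟩ := eq3_cmp e4
  obtain ⟨a5, b5, c5⟩ := eq3_cmp e5
  obtain ⟨a6, b6, c6⟩ := eq3_cmp e6
  obtain ⟨a7, b7, c7⟩ := eq3_cmp e7
  obtain ⟨a8, b8, c8⟩ := eq3_cmp e8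
  obtain ⟨a9, b9, c9⟩ := eq3_cmp e9
  obtain ⟨-, s1, t1⟩ := eq3_cmp f1
  obtain ⟨s2, -, t2⟩ := eq3_cmp f2
  obtain ⟨u3, s3, t3⟩ := eq3_cmp f3
  obtain ⟨u4, s4, t4⟩ := eq3_cmp f4
  simp only [Quaternion.imI_zero, Quaternion.imJ_zero, Quaternion.imK_zero, Quaternion.imI_smul,
    Quaternion.imJ_smul, Quaternion.imK_smul, smul_eq_mul, Quaternion.imI_add, Quaternion.imJ_add,
    Quaternion.imK_add] at a1 b1 c1 a2 b2 c2 a3 b3 c3 a4 b4 c4 a5 b5 c5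
  simp only [Quaternion.imI_zero, Quaternion.imJ_zero, Quaternion.imK_zero, Quaternion.imI_smul,
    Quaternion.imJ_smul, Quaternion.imK_smul, smul_eq_mul, Quaternion.imI_add, Quaternion.imJ_add,
    Quaternion.imK_add] at a6 b6 c6 a7 b7 c7 a8 b8 c8 a9 b9 c9
  simp only [Quaternion.imI_zero, Quaternion.imJ_zero, Quaternion.imK_zero, Quaternion.imI_smul,
    Quaternion.imJ_smul, Quaternion.imK_smul, smul_eq_mul, Quaternion.imI_add, Quaternion.imJ_add,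
    Quaternion.imK_add] at s1 t1 s2 t2 u3 s3 t3 u4 s4 t4
  -- the entries
  have ij1 : (β eq3_i eq3_j).imI = 0 := by linarith
  have ij2 : (β eq3_i eq3_j).imJ = 0 := by linarith
  have ik1 : (β eq3_i eq3_k).imI = 0 := by linarith
  have ik2 : (β eq3_i eq3_k).imJ = -(β eq3_i eq3_j).imK := by linarith
  have ik3 : (β eq3_i eq3_k).imK = 0 := by linarith
  have kj1 : (β eq3_k eq3_j).imI = -(β eq3_i eq3_j).imK := by linarith
  have kj2 : (β eq3_k eq3_j).imJ = 0 := by linarith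
  have kj3 : (β eq3_k eq3_j).imK = 0 := by linarith
  have ji2 : (β eq3_j eq3_i).imJ = 0 := by linarith
  have ji1 : (β eq3_j eq3_i).imI = 0 := by linarith
  have ki2 : (β eq3_k eq3_i).imJ = -(β eq3_j eq3_i).imK := by linarith
  have ji3 : (β eq3_j eq3_i).imK = -(β eq3_i eq3_j).imK := by linarith
  have ki1 : (β eq3_k eq3_i).imI = 0 := by linarith
  have ki3 : (β eq3_k eq3_i).imK = 0 := by linarith
  have jk1 : (β eq3_j eq3_k).imI = -(β eq3_j eq3_i).imK := by linarith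
  have jk2 : (β eq3_j eq3_k).imJ = 0 := by linarith
  have jk3 : (β eq3_j eq3_k).imK = 0 := by linarith
  have ii2 : (β eq3_i eq3_i).imJ = 0 := by linarith
  have ii3 : (β eq3_i eq3_i).imK = 0 := by linarith
  have jj1 : (β eq3_j eq3_j).imI = 0 := by linarith
  have jj3 : (β eq3_j eq3_j).imK = 0 := by linarith
  have ii1 : (β eq3_i eq3_i).imI = 0 := by linarith
  have jj2 : (β eq3_j eq3_j).imJ = 0 := by linarith
  have kk1 : (β eq3_k eq3_k).imI = 0 := by linarith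
  have kk2 : (β eq3_k eq3_k).imJ = 0 := by linarith
  have kk3 : (β eq3_k eq3_k).imK = 0 := by linarith
  refine ⟨(β eq3_i eq3_j).imK / 2, fun x y hx hy => ?_⟩
  have hx' := eq3_dec hx
  have hy' := eq3_dec hy
  have hβ : β x y = x.imI • (y.imI • β eq3_i eq3_i + y.imJ • β eq3_i eq3_j + y.imK • β eq3_i eq3_k) +
      x.imJ • (y.imI • β eq3_j eq3_i + y.imJ • β eq3_j eq3_j + y.imK • β eq3_j eq3_k) +
      x.imK • (y.imI • β eq3_k eq3_i + y.imJ • β eq3_k eq3_j + y.imK • β eq3_k eq3_k) := by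
    conv_lhs => rw [hx', hy']
    simp only [map_add, map_smul, LinearMap.add_apply, LinearMap.smul_apply]
    module
  rw [hβ]
  set κ := (β eq3_i eq3_j).imK
  ext
  · simp only [Quaternion.re_add, Quaternion.re_smul, Quaternion.re_sub, Quaternion.re_mul, r1, r2, r3,
      r4, r5, r6, r7, r8, r9, smul_eq_mul, hx, hy]
    ring
  · simp only [Quaternion.imI_add, Quaternion.imI_smul, Quaternion.imI_sub, Quaternion.imI_mul, ii1,
      ij1, ik1, ji1, jj1, jk1, ki1, kj1, kk1, ji3, smul_eq_mul, hx, hy]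
    ring
  · simp only [Quaternion.imJ_add, Quaternion.imJ_smul, Quaternion.imJ_sub, Quaternion.imJ_mul, ii2,
      ij2, ik2, ji2, jj2, jk2, ki2, kj2, kk2, ji3, smul_eq_mul, hx, hy]
    ring
  · simp only [Quaternion.imK_add, Quaternion.imK_smul, Quaternion.imK_sub, Quaternion.imK_mul, ii3,
      ik3, jj3, jk3, ki3, kj3, kk3, ji3, smul_eq_mul, hx, hy]
    change _ = κ / 2 * _
    ring

/-- `St_EQ3`. -/
theorem thm_EQ3 : St_EQ3 := ⟨eq3_one, eq3_two⟩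

end GOS
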