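import Pool.Agent.GOS.StB

/-!
# GOS, module EXN: natural reductivity after adding a skew derivation (helper1 for helper15)
-/

set_option autoImplicit false

namespace GOS

section ext

variable {g : Type} [LieRing g] [LieAlgebra ℝ g]

/-- the semidirect product of `g` with `ℝ D` -/
def EXNG (_D : LieDerivation ℝ g g) : Type := g × ℝ

namespace EXNG

variable (D : LieDerivation ℝ g g)

noncomputable instance : AddCommGroup (EXNG D) := inferInstanceAs (AddCommGroup (g × ℝ))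

noncomputable instance : Module ℝ (EXNG D) := inferInstanceAs (Module ℝ (g × ℝ))

noncomputable instance : Bracket (EXNG D) (EXNG D) where
  bracket := fun X Y => (⁅X.1, Y.1⁆ + X.2 • D Y.1 - Y.2 • D X.1, (0 : ℝ))

theorem bracket_def (X Y : EXNG D) :
    ⁅X, Y⁆ = (⁅X.1, Y.1⁆ + X.2 • D Y.1 - Y.2 • D X.1, (0 : ℝ)) := rfl

noncomputable instance : LieRing (EXNG D) where
  add_lie := by
    intro X Y Z
    change ((⁅X.1 + Y.1, Z.1⁆ + (X.2 + Y.2) • D Z.1 - Z.2 • D (X.1 + Y.1), (0 : ℝ)) : g × ℝ) =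
      ((⁅X.1, Z.1⁆ + X.2 • D Z.1 - Z.2 • D X.1) + (⁅Y.1, Z.1⁆ + Y.2 • D Z.1 - Z.2 • D Y.1),
        (0 : ℝ) + 0)
    rw [add_lie, map_add, add_smul, smul_add, add_zero]
    congr 1
    abel
  lie_add := by
    intro X Y Z
    change ((⁅X.1, Y.1 + Z.1⁆ + X.2 • D (Y.1 + Z.1) - (Y.2 + Z.2) • D X.1, (0 : ℝ)) : g × ℝ) =
      ((⁅X.1, Y.1⁆ + X.2 • D Y.1 - Y.2 • D X.1) + (⁅X.1, Z.1⁆ + X.2 • D Z.1 - Z.2 • D X.1),
        (0 : ℝ) + 0)
    rw [lie_add, map_add, add_smul, smul_add, add_zero]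
    congr 1
    abel
  lie_self := by
    intro X
    change ((⁅X.1, X.1⁆ + X.2 • D X.1 - X.2 • D X.1, (0 : ℝ)) : g × ℝ) = (0, 0)
    rw [lie_self, zero_add, sub_self]
  leibniz_lie := by
    rintro ⟨x, s⟩ ⟨y, t⟩ ⟨z, u⟩
    change ((⁅x, ⁅y, z⁆ + t • D z - u • D y⁆ + s • D (⁅y, z⁆ + t • D z - u • D y) -
        (0 : ℝ) • D x, (0 : ℝ)) : g × ℝ) =
      ((⁅⁅x, y⁆ + s • D y - t • D x, z⁆ + (0 : ℝ) • D z - u • D (⁅x, y⁆ + s • D y - t • D x)) +
        (⁅y, ⁅x, z⁆ + s • D z - u • D x⁆ + t • D (⁅x, z⁆ + s • D z - u • D x) - (0 : ℝ) • D y),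
        (0 : ℝ) + 0)
    rw [add_zero]
    congr 1
    simp only [lie_sub, lie_add, sub_lie, add_lie, lie_smul, smul_lie, map_add, map_sub, map_smul,
      LieDerivation.apply_lie_eq_add, smul_add, smul_sub, zero_smul]
    rw [leibniz_lie x y z, smul_comm u s (D (D y)), smul_comm u t (D (D x)),
      smul_comm t s (D (D z)), ← lie_skew (D x) y, smul_neg]
    abel

noncomputable instance : LieAlgebra ℝ (EXNG D) where
  lie_smul := by
    intro r X Y
    change ((⁅X.1, r • Y.1⁆ + X.2 • D (r • Y.1) - (r * Y.2) • D X.1, (0 : ℝ)) : g × ℝ) =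
      (r • (⁅X.1, Y.1⁆ + X.2 • D Y.1 - Y.2 • D X.1), r * (0 : ℝ))
    rw [mul_zero, lie_smul, map_smul, smul_sub, smul_add, smul_comm X.2 r, mul_smul]

end EXNG

end ext

/-- **EXN** -/
theorem thm_EXN : St_EXN := by
  intro g _ _ _ k B m hM hc hm φ D₀ c hD hDk hDm hDB hφ hφA hφD hcA hcD hgo
  let D : LieDerivation ℝ g g :=
    { toLinearMap := D₀
      leibniz' := by
        intro a b
        rw [hD, ← lie_skew (D₀ a) b]
        abel }
  have hDD : ∀ X, D X = D₀ X := fun _ => rfl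
  let k₁ : LieSubalgebra ℝ (EXNG D) :=
    { carrier := {X | X.1 ∈ k}
      add_mem' := fun {X Y} hX hY => k.add_mem hX hY
      zero_mem' := k.zero_mem
      smul_mem' := fun r X hX => k.smul_mem r hX
      lie_mem' := by
        intro X Y hX hY
        change ⁅X.1, Y.1⁆ + X.2 • D Y.1 - Y.2 • D X.1 ∈ k
        rw [hDD, hDD, hDk _ hX, hDk _ hY, smul_zero, smul_zero, add_zero, sub_zero]
        exact k.lie_mem hX hY }
  have hk₁ : ∀ X : EXNG D, X ∈ k₁ ↔ X.1 ∈ k := fun _ => Iff.rfl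
  let p : EXNG D →ₗ[ℝ] g := LinearMap.fst ℝ g ℝ
  have hp : ∀ X, p X = X.1 := fun _ => rfl
  let B₁ : EXNG D →ₗ[ℝ] EXNG D →ₗ[ℝ] ℝ := B.compl₁₂ p p
  have hB₁ : ∀ X Y : EXNG D, B₁ X Y = B X.1 Y.1 := fun _ _ => rfl
  have hBk : ∀ X, ∀ A ∈ k, B X A = 0 := fun X A hA => by rw [hM.symm, hM.ker A hA]
  have hBxx : ∀ A ∈ k, ∀ X, B ⁅A, X⁆ X = 0 := by
    intro A hA X
    have h1 := hM.inv A hA X X
    rw [hM.symm X] at h1
    linarith
  have hDxx : ∀ X, B (D₀ X) X = 0 := by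
    intro X
    have h1 := hDB X X
    rw [hM.symm X] at h1
    linarith
  refine ⟨EXNG D, inferInstance, inferInstance, k₁, B₁,
    inferInstanceAs (FiniteDimensional ℝ (g × ℝ)), ?_, ?_, ?_⟩
  · -- the model
    refine ⟨fun X Y => hM.symm _ _, fun X hX => hM.pos _ hX, fun A hA X => hM.ker _ hA _, ?_, ?_⟩
    · intro A hA X Y
      have hA' : A.1 ∈ k := hA
      change B (⁅A.1, X.1⁆ + A.2 • D X.1 - X.2 • D A.1) Y.1 +
        B X.1 (⁅A.1, Y.1⁆ + A.2 • D Y.1 - Y.2 • D A.1) = 0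
      rw [hDD, hDD, hDD, hDk _ hA', smul_zero, smul_zero, sub_zero, sub_zero, map_add,
        LinearMap.add_apply, map_add, map_smul, map_smul, LinearMap.smul_apply, smul_eq_mul,
        smul_eq_mul]
      have h1 := hM.inv _ hA' X.1 Y.1
      have h2 := hDB X.1 Y.1
      linear_combination h1 + A.2 * h2
    · refine ⟨m.prod ⊥, ?_, ?_⟩
      · rw [isCompl_iff]
        constructor
        · rw [Submodule.disjoint_def]
          intro X hX hX'
          have h1 : X.1 ∈ k := hX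
          have h2 : X.1 ∈ m ∧ X.2 ∈ (⊥ : Submodule ℝ ℝ) := Submodule.mem_prod.1 hX'
          have h3 : X.1 = 0 := (Submodule.disjoint_def.1 hc.disjoint) X.1 h1 h2.1
          exact Prod.ext h3 ((Submodule.mem_bot ℝ).1 h2.2)
        · rw [codisjoint_iff, eq_top_iff]
          intro X _
          have h1 : X.1 ∈ k.toSubmodule ⊔ m := by
            rw [hc.sup_eq_top]
            trivial
          obtain ⟨A, hA, Y, hY, hAY⟩ := Submodule.mem_sup.1 h1
          rw [Submodule.mem_sup]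
          refine ⟨((A, X.2) : g × ℝ), hA, ((Y, 0) : g × ℝ), Submodule.mem_prod.2
            ⟨hY, Submodule.zero_mem _⟩, ?_⟩
          exact Prod.ext hAY (add_zero X.2)
      · intro A hA X hX
        have h2 : X.1 ∈ m ∧ X.2 ∈ (⊥ : Submodule ℝ ℝ) := Submodule.mem_prod.1 hX
        have hA' : A.1 ∈ k := hA
        have h3 : X.2 = 0 := (Submodule.mem_bot ℝ).1 h2.2
        refine Submodule.mem_prod.2 ⟨?_, Submodule.zero_mem _⟩
        change ⁅A.1, X.1⁆ + A.2 • D X.1 - X.2 • D A.1 ∈ m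
        rw [h3, zero_smul, sub_zero]
        exact m.add_mem (hm _ hA' _ h2.1) (m.smul_mem _ (hDm _ h2.1))
  · -- natural reductivity
    let q : m →ₗ[ℝ] g × ℝ := (m.subtype - φ ∘ₗ m.subtype).prod (-(c ∘ₗ m.subtype))
    let q' : m →ₗ[ℝ] EXNG D := q
    have hq : ∀ X : m, q' X = ((X.1 - φ X.1, -c X.1) : g × ℝ) := fun _ => rfl
    refine ⟨LinearMap.range q', ?_, ?_, ?_⟩
    · rw [isCompl_iff]
      constructor
      · rw [Submodule.disjoint_def]
        rintro _ hX ⟨X, rfl⟩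
        have h1 : X.1 - φ X.1 ∈ k := hX
        have h2 : X.1 ∈ k := by
          have h3 := k.add_mem h1 (hφ X.1 X.2)
          rwa [sub_add_cancel] at h3
        have h3 : X.1 = 0 := (Submodule.disjoint_def.1 hc.disjoint) X.1 h2 X.2
        have h4 : X = 0 := Subtype.ext h3
        rw [h4, map_zero]
      · rw [codisjoint_iff, eq_top_iff]
        intro Z _
        have h1 : Z.1 ∈ k.toSubmodule ⊔ m := by
          rw [hc.sup_eq_top]
          trivial
        obtain ⟨A, hA, Y, hY, hAY⟩ := Submodule.mem_sup.1 h1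
        rw [Submodule.mem_sup]
        refine ⟨((A + φ Y, Z.2 + c Y) : g × ℝ), k.add_mem hA (hφ Y hY), q' ⟨Y, hY⟩, ⟨_, rfl⟩, ?_⟩
        rw [hq]
        refine Prod.ext ?_ ?_
        · change A + φ Y + (Y - φ Y) = Z.1
          rw [← hAY]
          abel
        · change Z.2 + c Y + -c Y = Z.2
          ring
    · rintro A hA _ ⟨X, rfl⟩
      have hA' : A.1 ∈ k := hA
      have h1 : ⁅A.1, X.1⁆ + A.2 • D₀ X.1 ∈ m :=
        m.add_mem (hm _ hA' _ X.2) (m.smul_mem _ (hDm _ X.2))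
      refine ⟨⟨_, h1⟩, ?_⟩
      rw [hq, hq]
      refine Prod.ext ?_ ?_
      · change ⁅A.1, X.1⁆ + A.2 • D₀ X.1 - φ (⁅A.1, X.1⁆ + A.2 • D₀ X.1) =
          ⁅A.1, X.1 - φ X.1⁆ + A.2 • D₀ (X.1 - φ X.1) - (-c X.1) • D₀ A.1
        rw [hDk _ hA', smul_zero, sub_zero, map_add, map_smul, hφA _ hA' _ X.2, hφD _ X.2,
          smul_zero, add_zero, lie_sub, map_sub, hDk _ (hφ _ X.2), sub_zero]
        abel
      · change -c (⁅A.1, X.1⁆ + A.2 • D₀ X.1) = 0
        rw [map_add, map_smul, hcA _ hA' _ X.2, hcD _ X.2, smul_zero, add_zero, neg_zero]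
    · rintro _ ⟨X, rfl⟩ _ ⟨Y, rfl⟩
      rw [hq, hq]
      change B (⁅X.1 - φ X.1, Y.1 - φ Y.1⁆ + (-c X.1) • D₀ (Y.1 - φ Y.1) -
        (-c Y.1) • D₀ (X.1 - φ X.1)) (X.1 - φ X.1) = 0
      have hφX := hφ _ X.2
      have hφY := hφ _ Y.2
      rw [map_sub D₀, map_sub D₀, hDk _ hφX, hDk _ hφY, sub_zero, sub_zero, map_sub (B _),
        hBk _ _ hφX, sub_zero, lie_sub, sub_lie, sub_lie]
      simp only [map_sub, map_add, map_smul, LinearMap.sub_apply, LinearMap.add_apply,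
        LinearMap.smul_apply, smul_eq_mul]
      have h1 := hgo _ X.2 _ Y.2
      have h2 : B ⁅X.1, Y.1⁆ X.1 = -B ⁅Y.1, X.1⁆ X.1 := by
        rw [← lie_skew, map_neg, LinearMap.neg_apply]
      have h3 : B ⁅φ X.1, Y.1⁆ X.1 = -B ⁅φ X.1, X.1⁆ Y.1 := by
        have h4 := hM.inv _ hφX Y.1 X.1
        rw [hM.symm Y.1] at h4
        linarith
      have h4 : B ⁅X.1, φ Y.1⁆ X.1 = 0 := by
        rw [← lie_skew, map_neg, LinearMap.neg_apply, hBxx _ hφY, neg_zero]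
      have h5 : B ⁅φ X.1, φ Y.1⁆ X.1 = 0 := hM.ker _ (k.lie_mem hφX hφY) _
      have h6 := hDxx X.1
      have h7 : B (D₀ Y.1) X.1 = -B (D₀ X.1) Y.1 := by
        have h8 := hDB Y.1 X.1
        rw [hM.symm Y.1] at h8
        linarith
      rw [h2, h3, h4, h5, h6, h7]
      linear_combination -h1
  · let f : g →ₗ⁅ℝ⁆ EXNG D :=
      { toFun := fun X => ((X, 0) : g × ℝ)
        map_add' := fun X Y => Prod.ext rfl (add_zero (0 : ℝ)).symm
        map_smul' := fun r X => Prod.ext rfl (mul_zero r).symm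
        map_lie' := by
          intro X Y
          refine Prod.ext ?_ rfl
          change ⁅X, Y⁆ = ⁅X, Y⁆ + (0 : ℝ) • D Y - (0 : ℝ) • D X
          rw [zero_smul, zero_smul, add_zero, sub_zero] }
    refine ⟨f, fun X Y => rfl, fun Z => ⟨Z.1, ?_⟩⟩
    change Z.1 - Z.1 ∈ k
    rw [sub_self]
    exact k.zero_mem

end GOS
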