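import Pool.Agent.GOS.StC

/-!
# GOS/FIN: the classification (helper42, after the plan of helper15)
-/

set_option autoImplicit false

namespace GOS

theorem thm_FIN (h1 : St_EFF) (h2 : St_KND) (h3 : St_AS1) (h4 : St_QB1) (h5 : St_QB2)
    (h6 : St_QB3) (h7 : St_QFI) : St_FIN := by
  intro g _ _ _ k B hB hE hG hdim
  have hP : EffP k := h1 g k B hB hE
  have hneg := h2 g k B hB hP
  rcases h3 g k B hB hP hG hdim with hN | ⟨W, σ, E, hQA⟩
  · exact Or.inl hN
  · obtain ⟨c, h, ρ, hQB⟩ := h4 g k B hB hP W σ E hQA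
    obtain ⟨τ, lam, hτ1, hτc, hEE⟩ := h5 g k B c h W σ E ρ hQB
    exact h7 g k B c h W σ E τ ρ lam (h6 g k B c h W σ E τ ρ lam hB hP hneg hG hQB hτ1 hτc hEE)

end GOS
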