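import Pool.Agent.GOS.StA

/-!
# GOS [FIX]: Lie endomorphisms of the imaginary quaternions (helper25)

For `u = θ(i), v = θ(j), w = θ(k)` and `T(x) = i x u + j x v + k x w` every `x₀ = T(x) - x` satisfies
`a x₀ = x₀ θ(a)`, and `T` is not the identity (trace `0`).
-/

set_option autoImplicit false

namespace GOS

open scoped InnerProductSpace Quaternion

namespace FIXx

/-- `i` -/
def qi : ℍ := ⟨0, 1, 0, 0⟩
/-- `j` -/
def qj : ℍ := ⟨0, 0, 1, 0⟩
/-- `k` -/
def qk : ℍ := ⟨0, 0, 0, 1⟩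

lemma ii : qi * qi = -1 := by ext <;> simp [qi]
lemma jj : qj * qj = -1 := by ext <;> simp [qj]
lemma kk : qk * qk = -1 := by ext <;> simp [qk]
lemma ij : qi * qj = qk := by ext <;> simp [qi, qj, qk]
lemma ji : qj * qi = -qk := by ext <;> simp [qi, qj, qk]
lemma jk : qj * qk = qi := by ext <;> simp [qi, qj, qk]
lemma kj : qk * qj = -qi := by ext <;> simp [qi, qj, qk]
lemma ki : qk * qi = qj := by ext <;> simp [qi, qj, qk]
lemma ik : qi * qk = -qj := by ext <;> simp [qi, qj, qk]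

lemma dec (a : ℍ) (ha : a.re = 0) : a = a.imI • qi + a.imJ • qj + a.imK • qk := by
  ext
  · simp [qi, qj, qk, ha]
  · simp [qi, qj, qk]
  · simp [qi, qj, qk]
  · simp [qi, qj, qk]

lemma sq3 {a b c : ℝ} (h : a ^ 2 + b ^ 2 + c ^ 2 = 0) : a = 0 ∧ b = 0 ∧ c = 0 := by
  have ha := sq_nonneg a
  have hb := sq_nonneg b
  have hc := sq_nonneg c
  exact ⟨pow_eq_zero_iff two_ne_zero |>.1 (by linarith),
    pow_eq_zero_iff two_ne_zero |>.1 (by linarith), pow_eq_zero_iff two_ne_zero |>.1 (by linarith)⟩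

lemma sq_one {b : ℝ} (h0 : 0 ≤ b) (h : b * b - 1 = 0) : b = 1 := by
  nlinarith

/-- the multiplication table of `u, v, w` -/
lemma table {u v w : ℍ} (hu : u.re = 0) (hv : v.re = 0) (hw : w.re = 0)
    (h1 : u * v - v * u = (2 : ℝ) • w) (h2 : v * w - w * v = (2 : ℝ) • u)
    (h3 : w * u - u * w = (2 : ℝ) • v) (hne : u ≠ 0 ∨ v ≠ 0 ∨ w ≠ 0) :
    u * u = -1 ∧ v * v = -1 ∧ w * w = -1 ∧ u * v = w ∧ v * u = -w ∧ v * w = u ∧ w * v = -u ∧
      w * u = v ∧ u * w = -v := by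
  obtain ⟨u0, u1, u2, u3⟩ := u
  obtain ⟨v0, v1, v2, v3⟩ := v
  obtain ⟨w0, w1, w2, w3⟩ := w
  simp only at hu hv hw
  subst hu hv hw
  have a1 := congrArg QuaternionAlgebra.imI h1
  have a2 := congrArg QuaternionAlgebra.imJ h1
  have a3 := congrArg QuaternionAlgebra.imK h1
  have b1 := congrArg QuaternionAlgebra.imI h2
  have b2 := congrArg QuaternionAlgebra.imJ h2
  have b3 := congrArg QuaternionAlgebra.imK h2
  have c1 := congrArg QuaternionAlgebra.imI h3
  have c2 := congrArg QuaternionAlgebra.imJ h3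
  have c3 := congrArg QuaternionAlgebra.imK h3
  simp at a1 a2 a3 b1 b2 b3 c1 c2 c3
  have a1' : w1 = u2 * v3 - u3 * v2 := by linarith
  have a2' : w2 = u3 * v1 - u1 * v3 := by linarith
  have a3' : w3 = u1 * v2 - u2 * v1 := by linarith
  have b1' : u1 = v2 * w3 - v3 * w2 := by linarith
  have b2' : u2 = v3 * w1 - v1 * w3 := by linarith
  have b3' : u3 = v1 * w2 - v2 * w1 := by linarith
  have c1' : v1 = w2 * u3 - w3 * u2 := by linarith
  have c2' : v2 = w3 * u1 - w1 * u3 := by linarith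
  have c3' : v3 = w1 * u2 - w2 * u1 := by linarith
  have duv : u1 * v1 + u2 * v2 + u3 * v3 = 0 := by
    linear_combination v1 * b1' + v2 * b2' + v3 * b3'
  have dvw : v1 * w1 + v2 * w2 + v3 * w3 = 0 := by
    linear_combination w1 * c1' + w2 * c2' + w3 * c3'
  have dwu : w1 * u1 + w2 * u2 + w3 * u3 = 0 := by
    linear_combination u1 * a1' + u2 * a2' + u3 * a3'
  obtain ⟨a, ha⟩ : ∃ a, a = u1 ^ 2 + u2 ^ 2 + u3 ^ 2 := ⟨_, rfl⟩
  obtain ⟨b, hb⟩ : ∃ b, b = v1 ^ 2 + v2 ^ 2 + v3 ^ 2 := ⟨_, rfl⟩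
  obtain ⟨c, hc⟩ : ∃ c, c = w1 ^ 2 + w2 ^ 2 + w3 ^ 2 := ⟨_, rfl⟩
  have ha0 : 0 ≤ a := by rw [ha]; positivity
  have hb0 : 0 ≤ b := by rw [hb]; positivity
  have hc0 : 0 ≤ c := by rw [hc]; positivity
  have eab : c = a * b := by
    have e : c = (u2 * v3 - u3 * v2) ^ 2 + (u3 * v1 - u1 * v3) ^ 2 + (u1 * v2 - u2 * v1) ^ 2 := by
      rw [hc, ← a1', ← a2', ← a3']
    rw [e, ha, hb]
    linear_combination (-(u1 * v1 + u2 * v2 + u3 * v3)) * duv
  have ebc : a = b * c := by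
    have e : a = (v2 * w3 - v3 * w2) ^ 2 + (v3 * w1 - v1 * w3) ^ 2 + (v1 * w2 - v2 * w1) ^ 2 := by
      rw [ha, ← b1', ← b2', ← b3']
    rw [e, hb, hc]
    linear_combination (-(v1 * w1 + v2 * w2 + v3 * w3)) * dvw
  have eca : b = c * a := by
    have e : b = (w2 * u3 - w3 * u2) ^ 2 + (w3 * u1 - w1 * u3) ^ 2 + (w1 * u2 - w2 * u1) ^ 2 := by
      rw [hb, ← c1', ← c2', ← c3']
    rw [e, hc, ha]
    linear_combination (-(w1 * u1 + w2 * u2 + w3 * u3)) * dwu
  have hane : a ≠ 0 := by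
    intro h0
    have hb0' : b = 0 := by rw [eca, h0, mul_zero]
    have hc0' : c = 0 := by rw [eab, h0, zero_mul]
    rw [ha] at h0
    rw [hb] at hb0'
    rw [hc] at hc0'
    obtain ⟨q1, q2, q3⟩ := sq3 h0
    obtain ⟨r1, r2, r3⟩ := sq3 hb0'
    obtain ⟨s1, s2, s3⟩ := sq3 hc0'
    rw [q1, q2, q3, r1, r2, r3, s1, s2, s3] at hne
    rcases hne with h | h | h <;> exact h rfl
  have hb1 : b = 1 := by
    have e : a * (b * b - 1) = 0 := by
      have : a = b * (a * b) := by rw [← eab]; exact ebc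
      linarith [this, mul_comm a (b * b)]
    rcases mul_eq_zero.1 e with h | h
    · exact absurd h hane
    · exact sq_one hb0 h
  have hca : c = a := by rw [eab, hb1, mul_one]
  have ha1 : a = 1 := by
    rw [hb1, hca] at eca
    exact sq_one ha0 (by linarith)
  have hc1 : c = 1 := by rw [hca, ha1]
  rw [ha1] at ha
  rw [hb1] at hb
  rw [hc1] at hc
  refine ⟨?_, ?_, ?_, ?_, ?_, ?_, ?_, ?_, ?_⟩
  · ext <;> simp
    · linarith
    · ring
    · ring
    · ring
  · ext <;> simp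
    · linarith
    · ring
    · ring
    · ring
  · ext <;> simp
    · linarith
    · ring
    · ring
    · ring
  · ext <;> simp <;> linarith
  · ext <;> simp <;> linarith
  · ext <;> simp <;> linarith
  · ext <;> simp <;> linarith
  · ext <;> simp <;> linarith
  · ext <;> simp <;> linarith

end FIXx

open FIXx in
theorem thm_FIX : St_FIX := by
  intro θ hre hbr hne
  obtain ⟨u, hu⟩ : ∃ u, u = θ qi := ⟨_, rfl⟩
  obtain ⟨v, hv⟩ : ∃ v, v = θ qj := ⟨_, rfl⟩
  obtain ⟨w, hw⟩ : ∃ w, w = θ qk := ⟨_, rfl⟩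
  have hi0 : qi.re = 0 := rfl
  have hj0 : qj.re = 0 := rfl
  have hk0 : qk.re = 0 := rfl
  have hu0 : u.re = 0 := by rw [hu]; exact hre _ hi0
  have hv0 : v.re = 0 := by rw [hv]; exact hre _ hj0
  have hw0 : w.re = 0 := by rw [hw]; exact hre _ hk0
  have two : ∀ x : ℍ, x - -x = (2 : ℝ) • x := fun x => by rw [sub_neg_eq_add, two_smul]
  have h1 : u * v - v * u = (2 : ℝ) • w := by
    rw [hu, hv, hw, ← hbr _ _ hi0 hj0, ij, ji, two, map_smul]
  have h2 : v * w - w * v = (2 : ℝ) • u := by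
    rw [hu, hv, hw, ← hbr _ _ hj0 hk0, jk, kj, two, map_smul]
  have h3 : w * u - u * w = (2 : ℝ) • v := by
    rw [hu, hv, hw, ← hbr _ _ hk0 hi0, ki, ik, two, map_smul]
  have hθ : ∀ a : ℍ, a.re = 0 → θ a = a.imI • u + a.imJ • v + a.imK • w := by
    intro a ha
    conv_lhs => rw [dec a ha]
    rw [map_add, map_add, map_smul, map_smul, map_smul, hu, hv, hw]
  have hne' : u ≠ 0 ∨ v ≠ 0 ∨ w ≠ 0 := by
    by_contra hcon
    simp only [not_or, not_not] at hcon
    obtain ⟨p, hp, hp'⟩ := hne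
    apply hp'
    rw [hθ p hp, hcon.1, hcon.2.1, hcon.2.2, smul_zero, smul_zero, smul_zero, add_zero, add_zero]
  obtain ⟨uu, vv, ww, uv, vu, vw, wv, wu, uw⟩ := table hu0 hv0 hw0 h1 h2 h3 hne'
  obtain ⟨T, hT⟩ : ∃ T : ℍ → ℍ, ∀ x, T x = qi * x * u + qj * x * v + qk * x * w :=
    ⟨_, fun _ => rfl⟩
  have hx : ∃ x, T x - x ≠ 0 := by
    by_contra hcon
    push Not at hcon
    have e : ∀ x, qi * x * u + qj * x * v + qk * x * w = x := fun x => by
      rw [← hT]
      exact sub_eq_zero.1 (hcon x)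
    have e0 := congrArg QuaternionAlgebra.re (e 1)
    have e1 := congrArg QuaternionAlgebra.imI (e qi)
    have e2 := congrArg QuaternionAlgebra.imJ (e qj)
    have e3 := congrArg QuaternionAlgebra.imK (e qk)
    simp [qi, qj, qk] at e0 e1 e2 e3
    linarith
  obtain ⟨x, hx⟩ := hx
  refine ⟨T x - x, hx, ?_⟩
  have ei : qi * (T x - x) = (T x - x) * u := by
    have f1 : qi * (T x - x) = (qi * qi) * x * u + (qi * qj) * x * v + (qi * qk) * x * w -
        qi * x := by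
      rw [hT]
      noncomm_ring
    have f2 : (T x - x) * u = qi * x * (u * u) + qj * x * (v * u) + qk * x * (w * u) - x * u := by
      rw [hT]
      noncomm_ring
    rw [f1, f2, ii, ij, ik, uu, vu, wu]
    noncomm_ring
  have ej : qj * (T x - x) = (T x - x) * v := by
    have f1 : qj * (T x - x) = (qj * qi) * x * u + (qj * qj) * x * v + (qj * qk) * x * w -
        qj * x := by
      rw [hT]
      noncomm_ring
    have f2 : (T x - x) * v = qi * x * (u * v) + qj * x * (v * v) + qk * x * (w * v) - x * v := by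
      rw [hT]
      noncomm_ring
    rw [f1, f2, ji, jj, jk, uv, vv, wv]
    noncomm_ring
  have ek : qk * (T x - x) = (T x - x) * w := by
    have f1 : qk * (T x - x) = (qk * qi) * x * u + (qk * qj) * x * v + (qk * qk) * x * w -
        qk * x := by
      rw [hT]
      noncomm_ring
    have f2 : (T x - x) * w = qi * x * (u * w) + qj * x * (v * w) + qk * x * (w * w) - x * w := by
      rw [hT]
      noncomm_ring
    rw [f1, f2, ki, kj, kk, uw, vw, ww]
    noncomm_ring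
  intro a ha
  rw [hθ a ha]
  conv_lhs => rw [dec a ha]
  rw [add_mul, add_mul, mul_add, mul_add, smul_mul_assoc, smul_mul_assoc, smul_mul_assoc,
    mul_smul_comm, mul_smul_comm, mul_smul_comm, ei, ej, ek]

end GOS
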