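import Pool.Agent.GOS.StD

/-!
# Seven-dimensional g.o. spaces (MP_cdb478_gt): module SVD (singular values on `Im ℍ`)
-/

set_option autoImplicit false

namespace GOS

open scoped InnerProductSpace Quaternion

namespace SVDaux

/-- The inclusion of `ℝ³` into the quaternions as the imaginary quaternions. -/
noncomputable def io : EuclideanSpace ℝ (Fin 3) →ₗ[ℝ] ℍ where
  toFun v := ⟨0, v 0, v 1, v 2⟩
  map_add' u v := by ext <;> simp
  map_smul' c v := by ext <;> simp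

theorem io_re (v : EuclideanSpace ℝ (Fin 3)) : (io v).re = 0 := rfl

theorem io_imI (v : EuclideanSpace ℝ (Fin 3)) : (io v).imI = v 0 := rfl

theorem io_imJ (v : EuclideanSpace ℝ (Fin 3)) : (io v).imJ = v 1 := rfl

theorem io_imK (v : EuclideanSpace ℝ (Fin 3)) : (io v).imK = v 2 := rfl

theorem inner3 (u v : EuclideanSpace ℝ (Fin 3)) :
    ⟪u, v⟫_ℝ = u 0 * v 0 + u 1 * v 1 + u 2 * v 2 := by
  rw [PiLp.inner_apply, Fin.sum_univ_three]
  simp only [RCLike.inner_apply, conj_trivial]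
  ring

/-- The cross product. -/
noncomputable def cr (u v : EuclideanSpace ℝ (Fin 3)) : EuclideanSpace ℝ (Fin 3) :=
  !₂[u 1 * v 2 - u 2 * v 1, u 2 * v 0 - u 0 * v 2, u 0 * v 1 - u 1 * v 0]

theorem cr_0 (u v : EuclideanSpace ℝ (Fin 3)) : cr u v 0 = u 1 * v 2 - u 2 * v 1 := rfl

theorem cr_1 (u v : EuclideanSpace ℝ (Fin 3)) : cr u v 1 = u 2 * v 0 - u 0 * v 2 := rfl

theorem cr_2 (u v : EuclideanSpace ℝ (Fin 3)) : cr u v 2 = u 0 * v 1 - u 1 * v 0 := rfl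

/-- The product of orthogonal imaginary quaternions. -/
theorem io_mul (u v : EuclideanSpace ℝ (Fin 3)) (h : ⟪u, v⟫_ℝ = 0) :
    io u * io v = io (cr u v) := by
  rw [inner3] at h
  ext
  · rw [Quaternion.re_mul, io_re, io_re, io_re, io_imI, io_imI, io_imJ, io_imJ, io_imK, io_imK]
    linarith
  · rw [Quaternion.imI_mul, io_re, io_re, io_imI, io_imI, io_imI, io_imJ, io_imJ, io_imK, io_imK,
      cr_0]
    ring
  · rw [Quaternion.imJ_mul, io_re, io_re, io_imI, io_imI, io_imJ, io_imJ, io_imJ, io_imK, io_imK,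
      cr_1]
    ring
  · rw [Quaternion.imK_mul, io_re, io_re, io_imI, io_imI, io_imJ, io_imJ, io_imK, io_imK, io_imK,
      cr_2]
    ring

theorem io_sq (u : EuclideanSpace ℝ (Fin 3)) (h : ⟪u, u⟫_ℝ = 1) : io u * io u = -1 := by
  rw [inner3] at h
  ext
  · rw [Quaternion.re_mul, io_re, io_imI, io_imJ, io_imK, Quaternion.re_neg, Quaternion.re_one]
    linarith
  · rw [Quaternion.imI_mul, io_re, io_imI, io_imJ, io_imK, Quaternion.imI_neg,
      Quaternion.imI_one]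
    ring
  · rw [Quaternion.imJ_mul, io_re, io_imI, io_imJ, io_imK, Quaternion.imJ_neg,
      Quaternion.imJ_one]
    ring
  · rw [Quaternion.imK_mul, io_re, io_imI, io_imJ, io_imK, Quaternion.imK_neg,
      Quaternion.imK_one]
    ring

theorem cr_anti (u v : EuclideanSpace ℝ (Fin 3)) : cr v u = -cr u v := by
  ext i
  fin_cases i
  · change v 1 * u 2 - v 2 * u 1 = -(u 1 * v 2 - u 2 * v 1)
    ring
  · change v 2 * u 0 - v 0 * u 2 = -(u 2 * v 0 - u 0 * v 2)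
    ring
  · change v 0 * u 1 - v 1 * u 0 = -(u 0 * v 1 - u 1 * v 0)
    ring

/-- The quaternion basis given by an orthonormal pair. -/
noncomputable def qb (u v : EuclideanSpace ℝ (Fin 3)) (hu : ⟪u, u⟫_ℝ = 1) (hv : ⟪v, v⟫_ℝ = 1)
    (huv : ⟪u, v⟫_ℝ = 0) : QuaternionAlgebra.Basis ℍ (-1 : ℝ) (0 : ℝ) (-1 : ℝ) where
  i := io u
  j := io v
  k := io (cr u v)
  i_mul_i := by rw [io_sq u hu, neg_one_smul, zero_smul, add_zero]
  j_mul_j := by rw [io_sq v hv, neg_one_smul]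
  i_mul_j := io_mul u v huv
  j_mul_i := by
    rw [io_mul v u (by rw [real_inner_comm]; exact huv), cr_anti u v, map_neg, zero_smul,
      zero_sub]

/-- The automorphism of the quaternions given by an orthonormal pair. -/
noncomputable def ph (u v : EuclideanSpace ℝ (Fin 3)) (hu : ⟪u, u⟫_ℝ = 1) (hv : ⟪v, v⟫_ℝ = 1)
    (huv : ⟪u, v⟫_ℝ = 0) : ℍ →ₐ[ℝ] ℍ := (qb u v hu hv huv).liftHom

theorem ph_apply (u v : EuclideanSpace ℝ (Fin 3)) (hu : ⟪u, u⟫_ℝ = 1) (hv : ⟪v, v⟫_ℝ = 1)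
    (huv : ⟪u, v⟫_ℝ = 0) (x : ℍ) : ph u v hu hv huv x =
      algebraMap ℝ ℍ x.re + io (x.imI • u + x.imJ • v + x.imK • cr u v) := by
  have h1 : ph u v hu hv huv x =
    algebraMap ℝ ℍ x.re + x.imI • io u + x.imJ • io v + x.imK • io (cr u v) := rfl
  rw [h1, map_add, map_add, map_smul, map_smul, map_smul]
  abel

theorem alg_re (r : ℝ) : (algebraMap ℝ ℍ r).re = r := rfl

theorem alg_imI (r : ℝ) : (algebraMap ℝ ℍ r).imI = 0 := rfl

theorem alg_imJ (r : ℝ) : (algebraMap ℝ ℍ r).imJ = 0 := rfl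

theorem alg_imK (r : ℝ) : (algebraMap ℝ ℍ r).imK = 0 := rfl

theorem ph_im (u v : EuclideanSpace ℝ (Fin 3)) (hu : ⟪u, u⟫_ℝ = 1) (hv : ⟪v, v⟫_ℝ = 1)
    (huv : ⟪u, v⟫_ℝ = 0) (x : ℍ) : ph u v hu hv huv x.im =
      io (x.imI • u + x.imJ • v + x.imK • cr u v) := by
  rw [ph_apply]
  change algebraMap ℝ ℍ 0 + io (x.imI • u + x.imJ • v + x.imK • cr u v) = _
  rw [map_zero, zero_add]

theorem ph_im' (u v : EuclideanSpace ℝ (Fin 3)) (hu : ⟪u, u⟫_ℝ = 1) (hv : ⟪v, v⟫_ℝ = 1)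
    (huv : ⟪u, v⟫_ℝ = 0) (x : ℍ) : (ph u v hu hv huv x).im =
      io (x.imI • u + x.imJ • v + x.imK • cr u v) := by
  rw [ph_apply]
  set w := x.imI • u + x.imJ • v + x.imK • cr u v
  ext
  · rfl
  · change (algebraMap ℝ ℍ x.re).imI + (io w).imI = (io w).imI
    rw [alg_imI, zero_add]
  · change (algebraMap ℝ ℍ x.re).imJ + (io w).imJ = (io w).imJ
    rw [alg_imJ, zero_add]
  · change (algebraMap ℝ ℍ x.re).imK + (io w).imK = (io w).imK
    rw [alg_imK, zero_add]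

theorem star_io (w : EuclideanSpace ℝ (Fin 3)) : star (io w) = -io w := by
  ext
  · change (0 : ℝ) + 0 * _ = -0
    ring
  · rfl
  · rfl
  · rfl

theorem ph_star (u v : EuclideanSpace ℝ (Fin 3)) (hu : ⟪u, u⟫_ℝ = 1) (hv : ⟪v, v⟫_ℝ = 1)
    (huv : ⟪u, v⟫_ℝ = 0) (x : ℍ) :
    ph u v hu hv huv (star x) = star (ph u v hu hv huv x) := by
  rw [ph_apply, ph_apply, star_add, star_io, ← map_neg io]
  have h1 : star (algebraMap ℝ ℍ x.re) = algebraMap ℝ ℍ x.re := Quaternion.star_coe x.re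
  rw [h1, Quaternion.re_star, Quaternion.imI_star, Quaternion.imJ_star, Quaternion.imK_star]
  congr 2
  module

theorem ph_norm (u v : EuclideanSpace ℝ (Fin 3)) (hu : ⟪u, u⟫_ℝ = 1) (hv : ⟪v, v⟫_ℝ = 1)
    (huv : ⟪u, v⟫_ℝ = 0) (x : ℍ) : ‖ph u v hu hv huv x‖ = ‖x‖ := by
  have h1 : ((Quaternion.normSq (ph u v hu hv huv x) : ℝ) : ℍ) = (Quaternion.normSq x : ℝ) := by
    rw [← Quaternion.self_mul_star, ← ph_star, ← map_mul, Quaternion.self_mul_star]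
    exact (ph u v hu hv huv).commutes _
  have h2 : Quaternion.normSq (ph u v hu hv huv x) = Quaternion.normSq x :=
    Quaternion.coe_injective h1
  rw [Quaternion.normSq_eq_norm_mul_self, Quaternion.normSq_eq_norm_mul_self] at h2
  exact (mul_self_inj (norm_nonneg _) (norm_nonneg _)).1 h2

/-- Completion of an orthogonal system. -/
theorem exists_z (W : Fin 3 → EuclideanSpace ℝ (Fin 3))
    (hW : ∀ i j, i ≠ j → ⟪W i, W j⟫_ℝ = 0) :
    ∃ z : Fin 3 → EuclideanSpace ℝ (Fin 3), Orthonormal ℝ z ∧ ∀ i, W i = ‖W i‖ • z i := by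
  have hv : Orthonormal ℝ (({i | W i ≠ 0} : Set (Fin 3)).domRestrict
      (fun i => ‖W i‖⁻¹ • W i)) := by
    constructor
    · rintro ⟨i, hi⟩
      change ‖‖W i‖⁻¹ • W i‖ = 1
      rw [norm_smul, norm_inv, norm_norm, inv_mul_cancel₀ (norm_ne_zero_iff.2 hi)]
    · rintro ⟨i, hi⟩ ⟨j, hj⟩ hij
      have hij' : i ≠ j := fun h => hij (Subtype.ext h)
      change ⟪‖W i‖⁻¹ • W i, ‖W j‖⁻¹ • W j⟫_ℝ = 0
      rw [real_inner_smul_left, real_inner_smul_right, hW i j hij', mul_zero, mul_zero]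
  obtain ⟨b, hb⟩ := hv.exists_orthonormalBasis_extension_of_card_eq (by simp)
  refine ⟨b, b.orthonormal, fun i => ?_⟩
  by_cases hi : W i = 0
  · rw [hi, norm_zero, zero_smul]
  · rw [hb i hi, smul_smul, mul_inv_cancel₀ (norm_ne_zero_iff.2 hi), one_smul]

/-- The cross product of the first two vectors of an orthonormal basis. -/
theorem cr_basis (b : OrthonormalBasis (Fin 3) ℝ (EuclideanSpace ℝ (Fin 3))) :
    ∃ s : ℝ, s * s = 1 ∧ cr (b 0) (b 1) = s • b 2 := by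
  have h00 : ⟪b 0, b 0⟫_ℝ = 1 := by simp
  have h11 : ⟪b 1, b 1⟫_ℝ = 1 := by simp
  have h22 : ⟪b 2, b 2⟫_ℝ = 1 := by simp
  have h01 : ⟪b 0, b 1⟫_ℝ = 0 := b.orthonormal.2 (by decide)
  have h1 := b.sum_repr' (cr (b 0) (b 1))
  rw [Fin.sum_univ_three] at h1
  have h2 : ⟪b 0, cr (b 0) (b 1)⟫_ℝ = 0 := by
    rw [inner3, cr_0, cr_1, cr_2]
    ring
  have h3 : ⟪b 1, cr (b 0) (b 1)⟫_ℝ = 0 := by
    rw [inner3, cr_0, cr_1, cr_2]
    ring
  rw [h2, h3, zero_smul, zero_smul, zero_add, zero_add] at h1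
  refine ⟨⟪b 2, cr (b 0) (b 1)⟫_ℝ, ?_, h1.symm⟩
  have h4 : ⟪cr (b 0) (b 1), cr (b 0) (b 1)⟫_ℝ = 1 := by
    have h5 : ⟪cr (b 0) (b 1), cr (b 0) (b 1)⟫_ℝ =
        ⟪b 0, b 0⟫_ℝ * ⟪b 1, b 1⟫_ℝ - ⟪b 0, b 1⟫_ℝ ^ 2 := by
      rw [inner3, inner3, inner3, inner3, cr_0, cr_1, cr_2]
      ring
    rw [h5, h00, h11, h01]
    ring
  calc ⟪b 2, cr (b 0) (b 1)⟫_ℝ * ⟪b 2, cr (b 0) (b 1)⟫_ℝ
      = ⟪⟪b 2, cr (b 0) (b 1)⟫_ℝ • b 2, ⟪b 2, cr (b 0) (b 1)⟫_ℝ • b 2⟫_ℝ := by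
        rw [real_inner_smul_left, real_inner_smul_right, h22, mul_one]
    _ = ⟪cr (b 0) (b 1), cr (b 0) (b 1)⟫_ℝ := by rw [h1]
    _ = 1 := h4

/-- A singular basis. -/
theorem exists_basis (T : EuclideanSpace ℝ (Fin 3) →ₗ[ℝ] EuclideanSpace ℝ (Fin 3)) :
    ∃ (b : OrthonormalBasis (Fin 3) ℝ (EuclideanSpace ℝ (Fin 3))) (m : Fin 3 → ℝ), Antitone m ∧
      (∀ i j, i ≠ j → ⟪T (b i), T (b j)⟫_ℝ = 0) ∧ ∀ i, ⟪T (b i), T (b i)⟫_ℝ = m i := by
  have hS : (T.adjoint * T).IsSymmetric := T.isSymmetric_adjoint_mul_self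
  have hn : Module.finrank ℝ (EuclideanSpace ℝ (Fin 3)) = 3 := by simp
  have key : ∀ i j, ⟪T (hS.eigenvectorBasis hn i), T (hS.eigenvectorBasis hn j)⟫_ℝ =
      hS.eigenvalues hn i * ⟪hS.eigenvectorBasis hn i, hS.eigenvectorBasis hn j⟫_ℝ := by
    intro i j
    rw [← LinearMap.adjoint_inner_left]
    have h1 := hS.apply_eigenvectorBasis hn i
    rw [Module.End.mul_apply] at h1
    rw [h1]
    exact real_inner_smul_left _ _ _
  refine ⟨hS.eigenvectorBasis hn, hS.eigenvalues hn, hS.eigenvalues_antitone hn, ?_, ?_⟩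
  · intro i j hij
    rw [key, (hS.eigenvectorBasis hn).orthonormal.2 hij, mul_zero]
  · intro i
    rw [key, real_inner_self_eq_norm_sq, (hS.eigenvectorBasis hn).orthonormal.1 i, one_pow,
      mul_one]

end SVDaux

open SVDaux

theorem thm_SVD : St_SVD := by
  intro τ
  obtain ⟨b, m, hm, h0, h1⟩ := exists_basis (τ ∘ₗ io)
  obtain ⟨s, hs, hcr⟩ := cr_basis b
  have hu : ⟪b 0, b 0⟫_ℝ = 1 := by simp
  have hv : ⟪b 1, b 1⟫_ℝ = 1 := by simp
  have huv : ⟪b 0, b 1⟫_ℝ = 0 := b.orthonormal.2 (by decide)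
  set e : Fin 3 → ℝ := ![1, 1, s] with he
  have hee : ∀ i, e i * e i = 1 := by
    intro i
    fin_cases i
    · exact one_mul 1
    · exact one_mul 1
    · exact hs
  set W : Fin 3 → EuclideanSpace ℝ (Fin 3) := fun i => e i • (τ ∘ₗ io) (b i) with hW
  have hW0 : ∀ i j, i ≠ j → ⟪W i, W j⟫_ℝ = 0 := by
    intro i j hij
    rw [hW]
    simp only
    rw [real_inner_smul_left, real_inner_smul_right, h0 i j hij, mul_zero, mul_zero]
  have hW1 : ∀ i, ‖W i‖ ^ 2 = m i := by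
    intro i
    rw [← real_inner_self_eq_norm_sq, hW]
    simp only
    rw [real_inner_smul_left, real_inner_smul_right, h1 i, ← mul_assoc, hee, one_mul]
  obtain ⟨z, hz, hzW⟩ := exists_z W hW0
  have hle : ∀ i j : Fin 3, i ≤ j → ‖W j‖ ≤ ‖W i‖ := by
    intro i j hij
    have h2 : ‖W j‖ ^ 2 ≤ ‖W i‖ ^ 2 := by
      rw [hW1, hW1]
      exact hm hij
    exact (pow_le_pow_iff_left₀ (norm_nonneg _) (norm_nonneg _) two_ne_zero).1 h2
  refine ⟨(ph (b 0) (b 1) hu hv huv).toLinearMap, z, ‖W 0‖, ‖W 1‖, ‖W 2‖,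
    hle 0 1 (by decide), hle 1 2 (by decide), norm_nonneg _, hz, ?_, ?_, ?_, ?_, ?_⟩
  · intro x y
    exact map_mul (ph (b 0) (b 1) hu hv huv) x y
  · intro x
    exact ph_star _ _ hu hv huv x
  · intro x
    exact ph_norm _ _ hu hv huv x
  · intro x
    exact (ph_im _ _ hu hv huv x).trans (ph_im' _ _ hu hv huv x).symm
  · intro x
    have h2 : (ph (b 0) (b 1) hu hv huv).toLinearMap x.im =
      io (x.imI • b 0 + x.imJ • b 1 + x.imK • cr (b 0) (b 1)) := ph_im _ _ hu hv huv x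
    rw [h2, hcr]
    have h3 : τ (io (x.imI • b 0 + x.imJ • b 1 + x.imK • s • b 2)) =
        x.imI • W 0 + x.imJ • W 1 + x.imK • W 2 := by
      have h4 : W 0 = τ (io (b 0)) := one_smul _ _
      have h5 : W 1 = τ (io (b 1)) := one_smul _ _
      have h6 : W 2 = s • τ (io (b 2)) := rfl
      rw [h4, h5, h6, map_add, map_add, map_add, map_add, map_smul, map_smul, map_smul, map_smul,
        map_smul, map_smul, map_smul, map_smul]
    rw [h3]
    conv_lhs => rw [hzW 0, hzW 1, hzW 2]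
    rw [smul_smul, smul_smul, smul_smul, mul_comm x.imI, mul_comm x.imJ, mul_comm x.imK]

end GOS
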