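import Pool.Agent.GOS.Main
import Pool.Agent.GOS.Cnv
import Pool.Agent.GOS.SVD

/-!
# Seven-dimensional g.o. spaces: the final theorem in the definitions of `Defs.lean`
-/

namespace GOS

open scoped InnerProductSpace Quaternion

theorem final :
    (∀ (g : Type) [LieRing g] [LieAlgebra ℝ g] [FiniteDimensional ℝ g] (k : LieSubalgebra ℝ g)
      (B : g → g → ℝ), GOS7.Model k B → GOS7.Effective k → GOS7.GO k B →
      Module.finrank ℝ g = Module.finrank ℝ k + 7 →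
      GOS7.NatRed B ∨
      (∃ l₁ l₂ l₃ : ℝ, l₂ ≤ l₁ ∧ l₃ ≤ l₂ ∧ 0 ≤ l₃ ∧ GOS7.NilFamily l₁ l₂ l₃ k B) ∨
      (∃ ε α β s : ℝ, (ε = 1 ∨ ε = -1) ∧ 0 < α ∧ 0 < β ∧ 0 ≤ s ∧
        GOS7.SpFamily ε α β s B)) ∧
    (∀ l₁ l₂ l₃ : ℝ, ∃ (g : Type) (_ : LieRing g) (_ : LieAlgebra ℝ g)
      (k : LieSubalgebra ℝ g) (B : g → g → ℝ), FiniteDimensional ℝ g ∧ GOS7.Model k B ∧
      GOS7.Effective k ∧ GOS7.GO k B ∧ Module.finrank ℝ g = Module.finrank ℝ k + 7 ∧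
      GOS7.NilFamily l₁ l₂ l₃ k B) ∧
    (∀ ε α β s : ℝ, (ε = 1 ∨ ε = -1) → 0 < α → 0 < β →
      ∃ (g : Type) (_ : LieRing g) (_ : LieAlgebra ℝ g)
      (k : LieSubalgebra ℝ g) (B : g → g → ℝ), FiniteDimensional ℝ g ∧ GOS7.Model k B ∧
      GOS7.Effective k ∧ GOS7.GO k B ∧ Module.finrank ℝ g = Module.finrank ℝ k + 7 ∧
      GOS7.SpFamily ε α β s B) := by
  refine ⟨?_, ?_, ?_⟩
  · intro g _ _ _ k B hM hE hG h7
    rcases classification g k (linB hM) (isModel_of hM) hE hG h7 with h | h | h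
    · exact Or.inl (natRed_of hM h)
    · obtain ⟨τ, hτ⟩ := h
      exact Or.inr (Or.inl (nilFamily_of thm_SVD τ hτ))
    · exact Or.inr (Or.inr (spFamily_of h))
  · intro l₁ l₂ l₃
    obtain ⟨τ, h0⟩ := nilFamily_diag l₁ l₂ l₃
    obtain ⟨g, i1, i2, k, B, h1, h2, h3, h4, h5, h6⟩ := thm_CV1 τ
    exact ⟨g, i1, i2, k, fun X Y => B X Y, h1, model_of h2, h3, h4, h5, h0 g k B h6⟩
  · intro ε α β s hε hα hβ
    obtain ⟨h1, h2, h3, h4⟩ := thm_CV2 ε α β s hε hα hβ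
    refine ⟨SpR ε, inferInstance, inferInstance, spK ε s, fun X Y => spB ε α β s X Y, ?_,
      model_of h1, h2, h3, h4, spFamily_self ε α β s hε⟩
    apply Module.finite_of_finrank_pos
    rw [h4]
    omega

end GOS
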