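import Pool.Agent.GOS.StA

/-!
# Module GEN: invariant subspaces, tangency, Schur
-/

namespace GOS

open scoped InnerProductSpace Quaternion

theorem thm_GEN : St_GEN := by
  intro V _ _ _ H hH
  have h1 : ∀ U : Submodule ℝ V, Inv H U → Inv H Uᗮ := by
    intro U hU A hA w hw
    rw [Submodule.mem_orthogonal] at hw ⊢
    intro u hu
    have h := hH.skew A hA u w
    have h2 := hw (A u) (hU A hA u hu)
    linarith
  refine ⟨h1, ?_, ?_, ?_, ?_⟩
  · intro b U hS hU x hx y hy
    have hq : ∀ z ∈ U, b z z ∈ U := by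
      intro z hz
      obtain ⟨A, hA, h⟩ := hS.tan z
      rw [h]
      exact hU A hA z hz
    have h : b x y = (1 / 2 : ℝ) • (b (x + y) (x + y) - b x x - b y y) := by
      simp only [map_add, LinearMap.add_apply]
      rw [hS.symm y x]
      module
    rw [h]
    exact U.smul_mem _ (U.sub_mem (U.sub_mem (hq _ (U.add_mem hx hy)) (hq x hx)) (hq y hy))
  · intro b U hS hU u hu w hw
    obtain ⟨A, hA, h⟩ := hS.tan (u + w)
    have h2 := hH.skew A hA u u
    have h3 : ⟪u, A w⟫_ℝ = 0 := (Submodule.mem_orthogonal _ _).mp (h1 U hU A hA w hw) u hu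
    rw [real_inner_comm] at h2
    rw [h, map_add, inner_add_left, real_inner_comm u (A w), h3, real_inner_comm]
    linarith
  · have key : ∀ (n : ℕ) (U : Submodule ℝ V), Module.finrank ℝ U = n → Inv H U → U ≠ ⊥ →
        ∃ U' : Submodule ℝ V, U' ≤ U ∧ Irr H U' := by
      intro n
      induction n using Nat.strong_induction_on with
      | _ n ih =>
        intro U hn hU hU0
        by_cases hI : ∀ U' : Submodule ℝ V, U' ≤ U → Inv H U' → U' = ⊥ ∨ U' = U
        · exact ⟨U, le_rfl, hU0, hU, hI⟩
        · push Not at hI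
          obtain ⟨U', hle, hU', h0, h1⟩ := hI
          have hlt : U' < U := lt_of_le_of_ne hle h1
          have hd : Module.finrank ℝ U' < n := by
            rw [← hn]
            exact Submodule.finrank_lt_finrank_of_lt hlt
          obtain ⟨U'', h2, h3⟩ := ih _ hd U' rfl hU' h0
          exact ⟨U'', h2.trans hle, h3⟩
    intro U hU h0
    exact key _ U rfl hU h0
  · intro U S hI hSU hsym hcomm
    let T : U →ₗ[ℝ] U := S.restrict hSU
    have hT : T.IsSymmetric := by
      intro x y
      exact hsym x x.2 y y.2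
    have : Nontrivial U := by
      rw [Submodule.nontrivial_iff_ne_bot]
      exact hI.1
    have hev := hT.hasEigenvalue_iSup_of_finiteDimensional
    obtain ⟨v, hv⟩ := hev.exists_hasEigenvector
    generalize (⨆ x : { x : U // x ≠ 0 }, RCLike.re ⟪T x, x⟫_ℝ / ‖(x : U)‖ ^ 2 : ℝ) = c at hv
    refine ⟨c, ?_⟩
    let E : Submodule ℝ V := U ⊓ LinearMap.ker (S - c • LinearMap.id)
    have hE : ∀ x, x ∈ E ↔ x ∈ U ∧ S x = c • x := by
      intro x
      simp only [E, Submodule.mem_inf, LinearMap.mem_ker, LinearMap.sub_apply,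
        LinearMap.smul_apply, LinearMap.id_apply, sub_eq_zero]
    have hEi : Inv H E := by
      intro A hA x hx
      obtain ⟨hx1, hx2⟩ := (hE x).mp hx
      refine (hE _).mpr ⟨hI.2.1 A hA x hx1, ?_⟩
      rw [hcomm A hA x hx1, hx2, map_smul]
    have hv1 : S (v : V) = c • (v : V) := by
      have := congrArg Subtype.val hv.apply_eq_smul
      exact this
    rcases hI.2.2 E inf_le_left hEi with h | h
    · exfalso
      have hvE : (v : V) ∈ E := (hE _).mpr ⟨v.2, hv1⟩
      rw [h, Submodule.mem_bot] at hvE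
      exact hv.2 (Subtype.ext hvE)
    · intro x hx
      rw [← h] at hx
      exact ((hE x).mp hx).2

end GOS
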