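import Pool.Agent.GOS.StA

/-!
# GOS [IDL]: ideals complementary to a kernel
-/

set_option autoImplicit false
set_option linter.unusedSectionVars false

namespace GOS

open scoped InnerProductSpace Quaternion

section

variable {V : Type} [NormedAddCommGroup V] [InnerProductSpace ℝ V] [FiniteDimensional ℝ V]

/-- the trace form -/
private noncomputable def IDL_B (V : Type) [NormedAddCommGroup V] [InnerProductSpace ℝ V] :
    LinearMap.BilinForm ℝ (V →ₗ[ℝ] V) :=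
  LinearMap.mk₂ ℝ (fun X Y => LinearMap.trace ℝ V (X ∘ₗ Y))
    (fun X X' Y => by rw [LinearMap.add_comp, map_add])
    (fun r X Y => by rw [LinearMap.smul_comp, map_smul])
    (fun X Y Y' => by rw [LinearMap.comp_add, map_add])
    (fun r X Y => by rw [LinearMap.comp_smul, map_smul])

private theorem IDL_B_apply (X Y : V →ₗ[ℝ] V) :
    IDL_B V X Y = LinearMap.trace ℝ V (X ∘ₗ Y) := rfl

private theorem IDL_symm (X Y : V →ₗ[ℝ] V) : IDL_B V X Y = IDL_B V Y X := by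
  rw [IDL_B_apply, IDL_B_apply]
  exact LinearMap.trace_mul_comm ℝ X Y

private theorem IDL_def (X : V →ₗ[ℝ] V) (hX : ∀ x y, ⟪X x, y⟫_ℝ = -⟪x, X y⟫_ℝ)
    (h : IDL_B V X X = 0) : X = 0 := by
  have b := stdOrthonormalBasis ℝ V
  rw [IDL_B_apply, LinearMap.trace_eq_sum_inner _ b] at h
  have h1 : ∀ i, ⟪b i, (X ∘ₗ X) (b i)⟫_ℝ = -(‖X (b i)‖ ^ 2) := by
    intro i
    have h2 := hX (b i) (X (b i))
    rw [real_inner_self_eq_norm_sq] at h2
    rw [LinearMap.comp_apply, h2, neg_neg]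
  rw [Finset.sum_congr rfl fun i _ => h1 i, Finset.sum_neg_distrib, neg_eq_zero,
    Finset.sum_eq_zero_iff_of_nonneg fun i _ => sq_nonneg _] at h
  refine b.toBasis.ext fun i => ?_
  rw [OrthonormalBasis.coe_toBasis, LinearMap.zero_apply]
  have h3 := h i (Finset.mem_univ i)
  exact norm_eq_zero.mp (pow_eq_zero_iff two_ne_zero |>.mp h3)

/-- the trace form is invariant -/
private theorem IDL_inv (A X N : V →ₗ[ℝ] V) :
    IDL_B V (A ∘ₗ X - X ∘ₗ A) N = -IDL_B V X (A ∘ₗ N - N ∘ₗ A) := by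
  rw [IDL_B_apply, IDL_B_apply, LinearMap.sub_comp, LinearMap.comp_sub, map_sub, map_sub]
  have h1 : LinearMap.trace ℝ V ((A ∘ₗ X) ∘ₗ N) = LinearMap.trace ℝ V (X ∘ₗ N ∘ₗ A) := by
    rw [LinearMap.comp_assoc]
    exact LinearMap.trace_mul_comm ℝ A (X ∘ₗ N)
  rw [h1, LinearMap.comp_assoc]
  ring

end

/-- [IDL] -/
theorem thm_IDL : St_IDL := by
  intro V _ _ _ H hH e L hI hL
  -- the kernel
  obtain ⟨N, hN⟩ : ∃ N : Submodule ℝ (V →ₗ[ℝ] V), ∀ A, A ∈ N ↔ A ∈ H ∧ A ∘ₗ e = 0 := by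
    refine ⟨H ⊓ LinearMap.ker (LinearMap.lcomp ℝ V e), fun A => ?_⟩
    rw [Submodule.mem_inf, LinearMap.mem_ker]
    rfl
  have hrefl : (IDL_B V).IsRefl := fun X Y h => by rw [IDL_symm, h]
  have hnd : ((IDL_B V).restrict N).Nondegenerate := by
    refine ⟨?_, ?_⟩
    · intro X hX
      have h1 : IDL_B V X X = 0 := hX X
      exact Subtype.ext (IDL_def (X : V →ₗ[ℝ] V) (hH.skew X ((hN X).mp X.2).1) h1)
    · intro X hX
      have h1 : IDL_B V X X = 0 := hX X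
      exact Subtype.ext (IDL_def (X : V →ₗ[ℝ] V) (hH.skew X ((hN X).mp X.2).1) h1)
  have hc := LinearMap.BilinForm.isCompl_orthogonal_of_restrict_nondegenerate hrefl hnd
  -- the complement
  obtain ⟨P, hP⟩ : ∃ P : Submodule ℝ (V →ₗ[ℝ] V), ∀ A, A ∈ P ↔ A ∈ H ∧ ∀ X ∈ N,
      IDL_B V X A = 0 := by
    refine ⟨H ⊓ (IDL_B V).orthogonal N, fun A => ?_⟩
    rw [Submodule.mem_inf, LinearMap.BilinForm.mem_orthogonal_iff]
  -- the restriction to the image of `e`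
  let T : P →ₗ[ℝ] (ℍ →ₗ[ℝ] V) := (LinearMap.lcomp ℝ V e).comp P.subtype
  have hT : ∀ A : P, T A = (A : V →ₗ[ℝ] V) ∘ₗ e := fun A => rfl
  have hTinj : ∀ A : V →ₗ[ℝ] V, A ∈ P → A ∘ₗ e = 0 → A = 0 := by
    intro A hA hAe
    obtain ⟨h1, h2⟩ := (hP A).mp hA
    exact IDL_def A (hH.skew A h1) (h2 A ((hN A).mpr ⟨h1, hAe⟩))
  have hker : LinearMap.ker T = ⊥ := by
    rw [LinearMap.ker_eq_bot']
    intro A hA
    exact Subtype.ext (hTinj A A.2 hA)
  obtain ⟨g, hg⟩ := LinearMap.exists_leftInverse_of_injective T hker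
  have hex : ∀ a, ∃ A : P, T A = L a := by
    intro a
    obtain ⟨A, hA, hAe⟩ := hL a
    have h1 : A ∈ N ⊔ (IDL_B V).orthogonal N := by
      rw [hc.sup_eq_top]
      exact Submodule.mem_top
    obtain ⟨X, hX, Y, hY, hXY⟩ := Submodule.mem_sup.mp h1
    have hXN := (hN X).mp hX
    have hYH : Y ∈ H := by
      rw [show Y = A - X by rw [← hXY]; abel]
      exact H.sub_mem hA hXN.1
    refine ⟨⟨Y, (hP Y).mpr ⟨hYH, fun Z hZ => ?_⟩⟩, ?_⟩
    · exact (LinearMap.BilinForm.mem_orthogonal_iff.mp hY) Z hZ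
    · rw [hT]
      show Y ∘ₗ e = L a
      rw [← hAe, ← hXY, LinearMap.add_comp, hXN.2, zero_add]
  have hσ : ∀ a, ((g (L a) : P) : V →ₗ[ℝ] V) ∘ₗ e = L a := by
    intro a
    obtain ⟨A, hA⟩ := hex a
    have h1 : g (T A) = A := by
      have := LinearMap.congr_fun hg A
      exact this
    rw [← hA, h1]
    exact (hT A).symm
  refine ⟨P.subtype.comp (g.comp L), ?_, ?_, ?_, ?_⟩
  · intro a
    exact ((hP _).mp (g (L a)).2).1
  · intro a
    exact hσ a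
  · intro A hA a a' h
    have hs := (hP _).mp (g (L a)).2
    have hs' := (g (L a')).2
    show A ∘ₗ ((g (L a) : P) : V →ₗ[ℝ] V) - ((g (L a) : P) : V →ₗ[ℝ] V) ∘ₗ A =
      ((g (L a') : P) : V →ₗ[ℝ] V)
    have h' : (A ∘ₗ ((g (L a) : P) : V →ₗ[ℝ] V) - ((g (L a) : P) : V →ₗ[ℝ] V) ∘ₗ A) ∘ₗ e =
      L a' := h
    have hmem : A ∘ₗ ((g (L a) : P) : V →ₗ[ℝ] V) - ((g (L a) : P) : V →ₗ[ℝ] V) ∘ₗ A ∈ P := by
      refine (hP _).mpr ⟨hH.lie A hA _ hs.1, fun X hX => ?_⟩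
      rw [IDL_symm, IDL_inv]
      have hXH := (hN X).mp hX
      have h3 : A ∘ₗ X - X ∘ₗ A ∈ N := by
        refine (hN _).mpr ⟨hH.lie A hA X hXH.1, ?_⟩
        apply LinearMap.ext
        intro z
        obtain ⟨z', hz'⟩ := hI A hA (e z) (LinearMap.mem_range_self e z)
        have h4 : ∀ z, X (e z) = 0 := fun z => LinearMap.congr_fun hXH.2 z
        show A (X (e z)) - X (A (e z)) = 0
        rw [h4, ← hz', h4, map_zero, sub_zero]
      rw [IDL_symm, hs.2 _ h3, neg_zero]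
    have h5 := hTinj _ (P.sub_mem hmem hs') (by
      rw [LinearMap.sub_comp, h', hσ a', sub_self])
    exact sub_eq_zero.mp h5
  · intro a ha
    show ((g (L a) : P) : V →ₗ[ℝ] V) = 0
    rw [ha, map_zero]
    rfl

end GOS
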