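import Pool.Agent.GOS.StB

/-!
# Module KIR
-/

namespace GOS

open scoped InnerProductSpace Quaternion

namespace KIRx

theorem exists_eig {g : Type} [AddCommGroup g] [Module ℝ g] [FiniteDimensional ℝ g]
    (W : Submodule ℝ g) (B K : g →ₗ[ℝ] g →ₗ[ℝ] ℝ) (hB : ∀ x y, B x y = B y x)
    (hpos : ∀ x ∈ W, x ≠ 0 → 0 < B x x) (hK : ∀ x y, K x y = K y x) (hW : W ≠ ⊥) :
    ∃ c : ℝ, ∃ x ∈ W, x ≠ 0 ∧ ∀ y ∈ W, K x y = c * B x y := by
  let core : InnerProductSpace.Core ℝ W :=
    { inner := fun x y => B x y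
      conj_inner_symm := fun x y => by
        change B y x = B x y
        exact hB _ _
      re_inner_nonneg := fun x => by
        change 0 ≤ B x x
        by_cases h : x = 0
        · simp [h]
        · exact (hpos x x.2 (fun h' => h (Subtype.ext h'))).le
      add_left := fun x y z => by
        change B ((x : g) + y) z = _
        rw [map_add]
        rfl
      smul_left := fun x y r => by
        change B (r • (x : g)) y = _
        rw [map_smul]
        rfl
      definite := fun x h => by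
        by_contra hx
        exact absurd h (ne_of_gt (hpos x x.2 (fun h' => hx (Subtype.ext h')))) }
  let _ : NormedAddCommGroup W := core.toNormedAddCommGroup
  let _ : InnerProductSpace ℝ W := InnerProductSpace.ofCore core.toCore
  have hin : ∀ x y : W, ⟪x, y⟫_ℝ = B x y := fun _ _ => rfl
  let bs := stdOrthonormalBasis ℝ W
  let S : W →ₗ[ℝ] W := ∑ i, ((K.flip (bs i)).comp W.subtype).smulRight (bs i)
  have hS : ∀ x, S x = ∑ i, K x (bs i) • bs i := by
    intro x
    simp only [S, LinearMap.sum_apply, LinearMap.smulRight_apply]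
    rfl
  have hSi : ∀ x y : W, ⟪S x, y⟫_ℝ = K x y := by
    intro x y
    rw [hS, sum_inner]
    have h1 : (y : g) = ∑ i, ⟪bs i, y⟫_ℝ • (bs i : g) := by
      have h2 := congrArg (fun z : W => (z : g)) (bs.sum_repr' y)
      simp only [Submodule.coe_sum, Submodule.coe_smul] at h2
      exact h2.symm
    conv_rhs => rw [h1, map_sum]
    refine Finset.sum_congr rfl fun i _ => ?_
    rw [real_inner_smul_left, map_smul, smul_eq_mul, mul_comm]
  have hT : S.IsSymmetric := by
    intro x y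
    rw [hSi, real_inner_comm, hSi, hK]
  have : Nontrivial W := by
    rw [Submodule.nontrivial_iff_ne_bot]
    exact hW
  have hev := hT.hasEigenvalue_iSup_of_finiteDimensional
  obtain ⟨v, hv⟩ := hev.exists_hasEigenvector
  generalize (⨆ x : { x : W // x ≠ 0 }, RCLike.re ⟪S x, x⟫_ℝ / ‖(x : W)‖ ^ 2 : ℝ) = c at hv
  refine ⟨c, v, v.2, fun h => hv.2 (Subtype.ext h), fun y hy => ?_⟩
  have h1 := hSi v ⟨y, hy⟩
  rw [hv.apply_eq_smul, real_inner_smul_left, hin] at h1
  exact h1.symm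

variable {g : Type} [AddCommGroup g] [Module ℝ g] [FiniteDimensional ℝ g]

theorem rk_le (P Q : Submodule ℝ g) (F : g →ₗ[ℝ] g →ₗ[ℝ] ℝ)
    (h : ∀ x ∈ P, (∀ y ∈ Q, F x y = 0) → x = 0) :
    Module.finrank ℝ P ≤ Module.finrank ℝ Q := by
  let f : P →ₗ[ℝ] Module.Dual ℝ Q := (LinearMap.lcomp ℝ ℝ Q.subtype) ∘ₗ F ∘ₗ P.subtype
  have hf : ∀ (x : P) (y : Q), f x y = F x y := fun _ _ => rfl
  have hinj : Function.Injective f := by
    rw [← LinearMap.ker_eq_bot, LinearMap.ker_eq_bot']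
    intro x hx
    refine Subtype.ext (h x x.2 fun y hy => ?_)
    rw [← hf x ⟨y, hy⟩, hx]
    rfl
  have h1 := LinearMap.finrank_le_finrank_of_injective hinj
  rwa [Subspace.dual_finrank_eq] at h1

theorem dec (U : Submodule ℝ g) (B : g →ₗ[ℝ] g →ₗ[ℝ] ℝ)
    (hpos : ∀ x ∈ U, x ≠ 0 → 0 < B x x) (M : g) : ∃ u ∈ U, ∀ v ∈ U, B v u = B v M := by
  let f : U →ₗ[ℝ] Module.Dual ℝ U := (LinearMap.lcomp ℝ ℝ U.subtype) ∘ₗ B.flip ∘ₗ U.subtype
  have hf : ∀ (x : U) (y : U), f x y = B y x := fun _ _ => rfl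
  have hinj : Function.Injective f := by
    rw [← LinearMap.ker_eq_bot, LinearMap.ker_eq_bot']
    intro x hx
    by_contra h0
    have h1 := hpos x x.2 (fun h => h0 (Subtype.ext h))
    rw [← hf x x, hx] at h1
    exact lt_irrefl _ h1
  have hsur : Function.Surjective f :=
    (LinearMap.injective_iff_surjective_of_finrank_eq_finrank
      (Subspace.dual_finrank_eq (K := ℝ) (V := U)).symm).mp hinj
  obtain ⟨u, hu⟩ := hsur ((B.flip M).comp U.subtype)
  refine ⟨u, u.2, fun v hv => ?_⟩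
  have h1 := congrArg (fun z => z ⟨v, hv⟩) hu
  exact h1

end KIRx

open KIRx

theorem thm_KIR : St_KIR := by
  intro g _ _ _ k B m hM hR hm U hUm hU h5
  obtain ⟨hU0, hUk, hUirr⟩ := hU
  have hBs := hM.symm
  have hpos : ∀ x ∈ m, x ≠ 0 → 0 < B x x := by
    intro x hx h0
    apply hM.pos
    intro hxk
    have h1 : x ∈ k.toSubmodule ⊓ m := ⟨hxk, hx⟩
    rw [hR.isCompl.inf_eq_bot] at h1
    exact h0 ((Submodule.mem_bot ℝ).mp h1)
  have hKs : ∀ x y, killingForm ℝ g x y = killingForm ℝ g y x :=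
    LieModule.traceForm_comm ℝ g g
  have hKl : ∀ x y z : g, killingForm ℝ g ⁅x, y⁆ z = killingForm ℝ g x ⁅y, z⁆ :=
    LieModule.traceForm_apply_lie_apply ℝ g g
  have hKi : ∀ A x y : g, killingForm ℝ g ⁅A, x⁆ y = - killingForm ℝ g x ⁅A, y⁆ := by
    intro A x y
    rw [← lie_skew A x, map_neg, LinearMap.neg_apply, hKl]
  have hBi : ∀ A ∈ k, ∀ x y, B ⁅A, x⁆ y = - B x ⁅A, y⁆ := by
    intro A hA x y
    linarith [hM.inv A hA x y]
  let U' : Submodule ℝ g :=
    { carrier := {y | y ∈ m ∧ ∀ u ∈ U, B u y = 0}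
      zero_mem' := ⟨m.zero_mem, fun u _ => map_zero _⟩
      add_mem' := by
        rintro y z ⟨h1, h2⟩ ⟨h3, h4⟩
        exact ⟨m.add_mem h1 h3, fun u hu => by rw [map_add, h2 u hu, h4 u hu, add_zero]⟩
      smul_mem' := by
        rintro c y ⟨h1, h2⟩
        exact ⟨m.smul_mem c h1, fun u hu => by rw [map_smul, h2 u hu, smul_zero]⟩ }
  have hU' : ∀ y, y ∈ U' ↔ y ∈ m ∧ ∀ u ∈ U, B u y = 0 := fun _ => Iff.rfl
  have hU'k : ∀ A ∈ k, ∀ y ∈ U', ⁅A, y⁆ ∈ U' := by
    rintro A hA y ⟨h1, h2⟩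
    refine (hU' _).mpr ⟨hR.inv A hA y h1, fun u hu => ?_⟩
    have h3 := hBi A hA u y
    rw [h2 _ (hUk A hA u hu)] at h3
    linarith
  have hinf : U ⊓ U' = ⊥ := by
    rw [eq_bot_iff]
    rintro x ⟨h1, h2⟩
    rw [Submodule.mem_bot]
    by_contra h0
    exact absurd (((hU' x).mp h2).2 x h1) (ne_of_gt (hpos x (hUm h1) h0))
  have hd2 : Module.finrank ℝ U' ≤ 2 := by
    have h1 := Submodule.finrank_sup_add_finrank_inf_eq U U'
    rw [hinf, finrank_bot, add_zero] at h1
    have h2 : U ⊔ U' ≤ m := sup_le hUm fun y hy => hy.1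
    have h3 := Submodule.finrank_mono h2
    omega
  -- (1)
  have hK1 : ∀ x ∈ U, ∀ y ∈ U', killingForm ℝ g x y = 0 := by
    let N : Submodule ℝ g :=
      { carrier := {x | x ∈ U ∧ ∀ y ∈ U', killingForm ℝ g x y = 0}
        zero_mem' := ⟨U.zero_mem, fun u _ => by rw [map_zero, LinearMap.zero_apply]⟩
        add_mem' := by
          rintro y z ⟨h1, h2⟩ ⟨h3, h4⟩
          exact ⟨U.add_mem h1 h3, fun u hu => by
            rw [map_add, LinearMap.add_apply, h2 u hu, h4 u hu, add_zero]⟩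
        smul_mem' := by
          rintro c y ⟨h1, h2⟩
          exact ⟨U.smul_mem c h1, fun u hu => by
            rw [map_smul, LinearMap.smul_apply, h2 u hu, smul_zero]⟩ }
    have hN : ∀ x, x ∈ N ↔ x ∈ U ∧ ∀ y ∈ U', killingForm ℝ g x y = 0 := fun _ => Iff.rfl
    rcases hUirr N (fun x hx => hx.1) (by
      rintro A hA x ⟨h1, h2⟩
      refine (hN _).mpr ⟨hUk A hA x h1, fun y hy => ?_⟩
      rw [hKi, h2 _ (hU'k A hA y hy), neg_zero]) with h | h
    · exfalso
      have h1 := rk_le U U' (killingForm ℝ g) (fun x hx h2 => by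
        have h3 : x ∈ N := (hN x).mpr ⟨hx, h2⟩
        rw [h, Submodule.mem_bot] at h3
        exact h3)
      omega
    · intro x hx
      rw [← h] at hx
      exact hx.2
  refine ⟨?_, fun x hx y hy h => hK1 x hx y ((hU' y).mpr ⟨hy, h⟩)⟩
  -- (2)
  obtain ⟨κ, x₀, hx₀, hx₀0, hκ⟩ := exists_eig U B (killingForm ℝ g) hBs
    (fun x hx => hpos x (hUm hx)) hKs hU0
  have hK2 : ∀ x ∈ U, ∀ y ∈ U, killingForm ℝ g x y = κ * B x y := by
    let N : Submodule ℝ g :=
      { carrier := {x | x ∈ U ∧ ∀ y ∈ U, killingForm ℝ g x y = κ * B x y}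
        zero_mem' := ⟨U.zero_mem, fun u _ => by simp⟩
        add_mem' := by
          rintro y z ⟨h1, h2⟩ ⟨h3, h4⟩
          exact ⟨U.add_mem h1 h3, fun u hu => by
            rw [map_add, LinearMap.add_apply, h2 u hu, h4 u hu, map_add, LinearMap.add_apply,
              mul_add]⟩
        smul_mem' := by
          rintro c y ⟨h1, h2⟩
          exact ⟨U.smul_mem c h1, fun u hu => by
            rw [map_smul, LinearMap.smul_apply, h2 u hu, map_smul, LinearMap.smul_apply,
              smul_eq_mul, smul_eq_mul]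
            ring⟩ }
    have hN : ∀ x, x ∈ N ↔ x ∈ U ∧ ∀ y ∈ U, killingForm ℝ g x y = κ * B x y :=
      fun _ => Iff.rfl
    rcases hUirr N (fun x hx => hx.1) (by
      rintro A hA x ⟨h1, h2⟩
      refine (hN _).mpr ⟨hUk A hA x h1, fun y hy => ?_⟩
      rw [hKi, h2 _ (hUk A hA y hy), hBi A hA]
      ring) with h | h
    · exfalso
      have h3 : x₀ ∈ N := (hN x₀).mpr ⟨hx₀, hκ⟩
      rw [h, Submodule.mem_bot] at h3
      exact hx₀0 h3
    · intro x hx
      rw [← h] at hx
      exact hx.2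
  -- (3)
  have hK3 : ∀ x ∈ U, ∀ Z, killingForm ℝ g x Z = κ * B x Z := by
    intro x hx Z
    obtain ⟨A, hA, M, hM', rfl⟩ : ∃ A ∈ k, ∃ M ∈ m, A + M = Z := by
      have h1 : Z ∈ k.toSubmodule ⊔ m := by
        rw [hR.isCompl.sup_eq_top]
        trivial
      obtain ⟨A, hA, M, hM', h⟩ := Submodule.mem_sup.mp h1
      exact ⟨A, hA, M, hM', h⟩
    obtain ⟨u, hu, huv⟩ := dec U B (fun x hx => hpos x (hUm hx)) M
    have h2 : M - u ∈ U' := (hU' _).mpr ⟨m.sub_mem hM' (hUm hu), fun v hv => by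
      rw [map_sub, huv v hv, sub_self]⟩
    have h3 := hK1 x hx _ h2
    have h4 := ((hU' _).mp h2).2 x hx
    have h5 := hK2 x hx u hu
    have h6 : killingForm ℝ g x A = 0 := by
      rw [hKs]
      exact hR.orth A hA x (hUm hx)
    have h7 : B x A = 0 := by
      rw [hBs]
      exact hM.ker A hA x
    rw [map_sub] at h3 h4
    rw [map_add, map_add, h6, h7]
    linear_combination h3 + h5 - κ * h4
  have hK4 : ∀ x ∈ U, ∀ y ∈ U, κ * B ⁅y, x⁆ x = 0 := by
    intro x hx y hy
    rw [hBs, ← hK3 x hx, hKs, hKl, lie_self, map_zero]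
  by_cases hκ0 : κ = 0
  swap
  · intro x hx y hy
    exact (mul_eq_zero.mp (hK4 x hx y hy)).resolve_left hκ0
  -- (4)
  by_contra hcon
  push Not at hcon
  obtain ⟨x₁, hx₁, y₁, hy₁, hne⟩ := hcon
  let R : LieIdeal ℝ g := LieIdeal.killingCompl ℝ g ⊤
  have hRmem : ∀ x, x ∈ R ↔ ∀ y, killingForm ℝ g y x = 0 := by
    intro x
    rw [LieIdeal.mem_killingCompl]
    exact ⟨fun h y => h y trivial, fun h y _ => h y⟩
  have hUR : ∀ x ∈ U, x ∈ R := by
    intro x hx
    rw [hRmem]
    intro y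
    rw [hKs, hK3 x hx, hκ0, zero_mul]
  have hRm : ∀ x ∈ R, x ∈ m := by
    intro x hx
    obtain ⟨A, hA, M, hM', rfl⟩ : ∃ A ∈ k, ∃ M ∈ m, A + M = x := by
      have h1 : x ∈ k.toSubmodule ⊔ m := by
        rw [hR.isCompl.sup_eq_top]
        trivial
      obtain ⟨A, hA, M, hM', h⟩ := Submodule.mem_sup.mp h1
      exact ⟨A, hA, M, hM', h⟩
    have h1 := (hRmem _).mp hx A
    rw [map_add, hR.orth A hA M hM', add_zero] at h1
    have h2 : A = 0 := by
      by_contra h0
      exact absurd h1 (ne_of_lt (hR.neg A hA h0))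
    rw [h2, zero_add]
    exact hM'
  have hsolv : LieAlgebra.IsSolvable R :=
    (LieAlgebra.LieIdeal.solvable_iff_le_radical ℝ g R).mpr
      (LieAlgebra.killingCompl_top_le_radical ℝ g)
  obtain ⟨n, hn⟩ := (LieAlgebra.isSolvable_iff ℝ R).mp hsolv
  rw [LieIdeal.derivedSeries_eq_bot_iff] at hn
  have hall : ∀ i, ∀ x ∈ U, x ∈ LieAlgebra.derivedSeriesOfIdeal ℝ g i R := by
    intro i
    induction i with
    | zero => exact hUR
    | succ i ih =>
      set D := LieAlgebra.derivedSeriesOfIdeal ℝ g (i + 1) R with hD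
      have hDm : ∀ x ∈ D, x ∈ m := fun x hx =>
        hRm x (LieAlgebra.derivedSeriesOfIdeal_le_self R (i + 1) hx)
      have hDk : ∀ A x, x ∈ D → ⁅A, x⁆ ∈ D := fun A x hx => D.lie_mem hx
      have hyx : ⁅y₁, x₁⁆ ∈ D := by
        rw [hD, LieAlgebra.derivedSeriesOfIdeal_succ]
        exact LieSubmodule.lie_mem_lie (ih y₁ hy₁) (ih x₁ hx₁)
      let N : Submodule ℝ g :=
        { carrier := {x | x ∈ U ∧ ∀ y ∈ D, B x y = 0}
          zero_mem' := ⟨U.zero_mem, fun u _ => by rw [map_zero, LinearMap.zero_apply]⟩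
          add_mem' := by
            rintro y z ⟨h1, h2⟩ ⟨h3, h4⟩
            exact ⟨U.add_mem h1 h3, fun u hu => by
              rw [map_add, LinearMap.add_apply, h2 u hu, h4 u hu, add_zero]⟩
          smul_mem' := by
            rintro c y ⟨h1, h2⟩
            exact ⟨U.smul_mem c h1, fun u hu => by
              rw [map_smul, LinearMap.smul_apply, h2 u hu, smul_zero]⟩ }
      have hN : ∀ x, x ∈ N ↔ x ∈ U ∧ ∀ y ∈ D, B x y = 0 := fun _ => Iff.rfl
      rcases hUirr N (fun x hx => hx.1) (by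
        rintro A hA x ⟨h1, h2⟩
        refine (hN _).mpr ⟨hUk A hA x h1, fun y hy => ?_⟩
        rw [hBi A hA, h2 _ (hDk A y hy), neg_zero]) with h | h
      · have h1 := rk_le U D.toSubmodule B (fun x hx h2 => by
          have h3 : x ∈ N := (hN x).mpr ⟨hx, h2⟩
          rw [h, Submodule.mem_bot] at h3
          exact h3)
        have h2 := Submodule.finrank_sup_add_finrank_inf_eq U D.toSubmodule
        have h3 : U ⊔ D.toSubmodule ≤ m := sup_le hUm hDm
        have h4 := Submodule.finrank_mono h3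
        have h6 : U ⊓ D.toSubmodule ≠ ⊥ := by
          intro h7
          rw [h7, finrank_bot] at h2
          omega
        rcases hUirr (U ⊓ D.toSubmodule) inf_le_left (by
          rintro A hA x ⟨h7, h8⟩
          exact ⟨hUk A hA x h7, hDk A x h8⟩) with h7 | h7
        · exact absurd h7 h6
        · intro x hx
          rw [← h7] at hx
          exact hx.2
      · exfalso
        apply hne
        rw [hBs]
        rw [← h] at hx₁
        exact hx₁.2 _ hyx
  apply hU0
  rw [eq_bot_iff]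
  intro x hx
  have h1 := hall n x hx
  rw [hn] at h1
  exact h1

end GOS
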