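import Pool.Agent.GOS.StB

/-!
# GOS [KND] (helper80): the Killing form is negative definite on the isotropy algebra
-/

set_option autoImplicit false

namespace GOS

open Module

namespace KNDx

/-- the trace of the square of a skew operator -/
theorem tr_skew {V : Type} [AddCommGroup V] [Module ℝ V] [FiniteDimensional ℝ V]
    (Q : V →ₗ[ℝ] V →ₗ[ℝ] ℝ) (hs : ∀ x y, Q x y = Q y x) (hp : ∀ x, x ≠ 0 → 0 < Q x x)
    (T : V →ₗ[ℝ] V) (hT : ∀ x y, Q (T x) y + Q x (T y) = 0) :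
    LinearMap.trace ℝ V (T * T) ≤ 0 ∧ (LinearMap.trace ℝ V (T * T) = 0 → T = 0) := by
  classical
  obtain ⟨v, hv⟩ := LinearMap.BilinForm.exists_orthogonal_basis (K := ℝ) (V := V) (B := Q) ⟨hs⟩
  have hr : ∀ x i, Q (v i) x = v.repr x i * Q (v i) (v i) := by
    intro x i
    conv_lhs => rw [← v.sum_repr x]
    rw [map_sum, Finset.sum_eq_single i]
    · rw [map_smul, smul_eq_mul]
    · intro j _ hj
      have h1 : Q (v i) (v j) = 0 := hv (Ne.symm hj)
      rw [map_smul, h1, smul_zero]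
    · intro h
      exact absurd (Finset.mem_univ i) h
  have hpos : ∀ i, 0 < Q (v i) (v i) := fun i => hp _ (v.ne_zero i)
  have htr : LinearMap.trace ℝ V (T * T) = -∑ i, Q (T (v i)) (T (v i)) / Q (v i) (v i) := by
    rw [LinearMap.trace_eq_matrix_trace ℝ v, Matrix.trace, ← Finset.sum_neg_distrib]
    refine Finset.sum_congr rfl fun i _ => ?_
    rw [Matrix.diag_apply, LinearMap.toMatrix_apply]
    have h1 := hr (T (T (v i))) i
    have h2 := hT (v i) (T (v i))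
    have h3 := (hpos i).ne'
    show v.repr (T (T (v i))) i = _
    rw [eq_neg_iff_add_eq_zero, ← mul_left_inj' h3, zero_mul, add_mul, div_mul_cancel₀ _ h3, ← h1]
    linarith
  have hnn : ∀ x, 0 ≤ Q x x := fun x => by
    by_cases hx : x = 0
    · rw [hx, map_zero]
    · exact (hp x hx).le
  have hterm : ∀ i ∈ Finset.univ, 0 ≤ Q (T (v i)) (T (v i)) / Q (v i) (v i) := fun i _ =>
    div_nonneg (hnn _) (hpos i).le
  refine ⟨?_, fun h0 => ?_⟩
  · rw [htr]
    have := Finset.sum_nonneg hterm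
    linarith
  · rw [htr, neg_eq_zero, Finset.sum_eq_zero_iff_of_nonneg hterm] at h0
    refine v.ext fun i => ?_
    have h1 := h0 i (Finset.mem_univ i)
    rw [div_eq_zero_iff] at h1
    rw [LinearMap.zero_apply]
    by_contra h2
    rcases h1 with h1 | h1
    · exact (hp _ h2).ne' h1
    · exact (hpos i).ne' h1

/-- a positive definite symmetric form -/
theorem exists_pos (V : Type) [AddCommGroup V] [Module ℝ V] [FiniteDimensional ℝ V] :
    ∃ Q : V →ₗ[ℝ] V →ₗ[ℝ] ℝ, (∀ x y, Q x y = Q y x) ∧ ∀ x, x ≠ 0 → 0 < Q x x := by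
  classical
  let b := Module.finBasis ℝ V
  refine ⟨∑ i, (b.coord i).smulRight (b.coord i), fun x y => ?_, fun x hx => ?_⟩
  · simp only [LinearMap.sum_apply, LinearMap.smulRight_apply, LinearMap.smul_apply, smul_eq_mul]
    exact Finset.sum_congr rfl fun i _ => mul_comm _ _
  · simp only [LinearMap.sum_apply, LinearMap.smulRight_apply, LinearMap.smul_apply, smul_eq_mul]
    obtain ⟨i, hi⟩ : ∃ i, b.coord i x ≠ 0 := by
      by_contra h
      push Not at h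
      exact hx (b.ext_elem fun i => by
        rw [map_zero]
        exact h i)
    exact Finset.sum_pos' (fun i _ => mul_self_nonneg _) ⟨i, Finset.mem_univ i, mul_self_pos.2 hi⟩

end KNDx

/-- [KND] -/
theorem thm_KND : St_KND := by
  classical
  intro g _ _ _ k B hM hE A hA hA0
  obtain ⟨m, hkm, hm⟩ := hM.compl
  let P : g →ₗ[ℝ] g := Submodule.projection m k.toSubmodule hkm.symm
  have hP1 : ∀ x, P x ∈ m := fun x => Submodule.projection_apply_mem hkm.symm x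
  have hP2 : ∀ x, x - P x ∈ k := fun x => Submodule.sub_projection_mem hkm.symm x
  have hP3 : ∀ x ∈ m, P x = x := fun x hx => Submodule.projection_apply_of_mem_left hkm.symm hx
  have hP4 : ∀ x ∈ k, P x = 0 := fun x hx =>
    (Submodule.projection_apply_eq_zero_iff hkm.symm).2 hx
  have hPc : ∀ C ∈ k, ∀ x, P ⁅C, x⁆ = ⁅C, P x⁆ := by
    intro C hC x
    have h1 : ⁅C, x⁆ = ⁅C, P x⁆ + ⁅C, x - P x⁆ := by
      rw [← lie_add, add_sub_cancel]
    rw [h1, map_add, hP3 _ (hm C hC _ (hP1 x)), hP4 _ (k.lie_mem hC (hP2 x)), add_zero]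
  have hBP : ∀ x y, B (P x) y = B x y := by
    intro x y
    have h1 := hM.ker _ (hP2 x) y
    rw [map_sub, LinearMap.sub_apply] at h1
    linarith
  have hBP' : ∀ x y, B x (P y) = B x y := by
    intro x y
    rw [hM.symm, hBP, hM.symm]
  have hBnn : ∀ x, 0 ≤ B x x := by
    intro x
    by_cases hx : x ∈ k
    · rw [hM.ker x hx]
    · exact (hM.pos x hx).le
  -- the trace on `m`
  obtain ⟨β, hβs, hβp⟩ := KNDx.exists_pos g
  let R : g →ₗ[ℝ] g := 1 - P
  have hRk : ∀ x, R x ∈ k := hP2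
  have hRm : ∀ x ∈ m, R x = 0 := by
    intro x hx
    show x - P x = 0
    rw [hP3 x hx, sub_self]
  have hRkk : ∀ x ∈ k, R x = x := by
    intro x hx
    show x - P x = x
    rw [hP4 x hx, sub_zero]
  have hpd : ∀ (β' : g →ₗ[ℝ] g →ₗ[ℝ] ℝ), (∀ x ∈ k, x ≠ 0 → 0 < β' x x) → ∀ x, x ≠ 0 →
      0 < B x x + β' (R x) (R x) := by
    intro β' hβ' x hx
    by_cases hx' : R x = 0
    · have h1 : x ∉ k := fun h => hx (by rw [← hRkk x h, hx'])
      rw [hx', map_zero, add_zero]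
      exact hM.pos x h1
    · have h1 := hβ' _ (hRk x) hx'
      have h2 := hBnn x
      linarith
  have hneg : ∀ C ∈ k, C ≠ 0 → LinearMap.trace ℝ g
      ((LieAlgebra.ad ℝ g C * P) * (LieAlgebra.ad ℝ g C * P)) < 0 := by
    intro C hC hC0
    obtain ⟨h1, h2⟩ := KNDx.tr_skew (B + (β.comp R).compl₂ R) (fun x y => by
      show B x y + β (R x) (R y) = B y x + β (R y) (R x)
      rw [hM.symm, hβs]) (fun x hx => hpd β (fun x _ hx => hβp x hx) x hx)
      (LieAlgebra.ad ℝ g C * P) (fun x y => by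
        show B ⁅C, P x⁆ y + β (R ⁅C, P x⁆) (R y) + (B x ⁅C, P y⁆ + β (R x) (R ⁅C, P y⁆)) = 0
        rw [hRm _ (hm C hC _ (hP1 x)), hRm _ (hm C hC _ (hP1 y)), map_zero, map_zero,
          LinearMap.zero_apply, add_zero, add_zero, ← hPc C hC, ← hPc C hC, hBP, hBP']
        exact hM.inv C hC x y)
    refine lt_of_le_of_ne h1 fun h0 => hC0 (hE C hC fun X => ?_)
    have h3 : ⁅C, P X⁆ = 0 := congrArg (fun T : g →ₗ[ℝ] g => T X) (h2 h0)
    have h4 : ⁅C, X⁆ = ⁅C, P X⁆ + ⁅C, X - P X⁆ := by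
      rw [← lie_add, add_sub_cancel]
    rw [h4, h3, zero_add]
    exact k.lie_mem hC (hP2 X)
  have hadP : ∀ C ∈ k, LieAlgebra.ad ℝ g C * P = P * LieAlgebra.ad ℝ g C := by
    intro C hC
    refine LinearMap.ext fun x => ?_
    show ⁅C, P x⁆ = P ⁅C, x⁆
    rw [hPc C hC]
  have hPP : P * P = P := by
    refine LinearMap.ext fun x => ?_
    show P (P x) = P x
    exact hP3 _ (hP1 x)
  -- the form `Q`
  let Q : g →ₗ[ℝ] g →ₗ[ℝ] ℝ := LinearMap.mk₂ ℝ
    (fun X Y => -LinearMap.trace ℝ g (LieAlgebra.ad ℝ g X * LieAlgebra.ad ℝ g Y * P))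
    (fun X X' Y => by
      rw [map_add, add_mul, add_mul, map_add]
      ring)
    (fun c X Y => by
      rw [map_smul, smul_mul_assoc, smul_mul_assoc, map_smul, smul_eq_mul, smul_eq_mul]
      ring)
    (fun X Y Y' => by
      rw [map_add, mul_add, add_mul, map_add]
      ring)
    (fun c X Y => by
      rw [map_smul, mul_smul_comm, smul_mul_assoc, map_smul, smul_eq_mul, smul_eq_mul]
      ring)
  have hQ : ∀ X Y, Q X Y = -LinearMap.trace ℝ g (LieAlgebra.ad ℝ g X * LieAlgebra.ad ℝ g Y * P) :=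
    fun X Y => rfl
  have hQs : ∀ X ∈ k, ∀ Y ∈ k, Q X Y = Q Y X := by
    intro X hX Y hY
    rw [hQ, hQ, mul_assoc, LinearMap.trace_mul_comm, mul_assoc, ← hadP X hX, ← mul_assoc]
  have hadl : ∀ X Y, LieAlgebra.ad ℝ g ⁅X, Y⁆ =
      LieAlgebra.ad ℝ g X * LieAlgebra.ad ℝ g Y - LieAlgebra.ad ℝ g Y * LieAlgebra.ad ℝ g X := by
    intro X Y
    refine LinearMap.ext fun z => ?_
    show ⁅⁅X, Y⁆, z⁆ = ⁅X, ⁅Y, z⁆⁆ - ⁅Y, ⁅X, z⁆⁆
    rw [lie_lie]
  have hQi : ∀ C ∈ k, ∀ X Y, Q ⁅C, X⁆ Y + Q X ⁅C, Y⁆ = 0 := by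
    intro C hC X Y
    have h1 : LinearMap.trace ℝ g (LieAlgebra.ad ℝ g C *
        (LieAlgebra.ad ℝ g X * LieAlgebra.ad ℝ g Y * P)) =
        LinearMap.trace ℝ g (LieAlgebra.ad ℝ g X * LieAlgebra.ad ℝ g Y *
          (LieAlgebra.ad ℝ g C * P)) := by
      rw [LinearMap.trace_mul_comm, hadP C hC, ← mul_assoc]
    rw [hQ, hQ, hadl, hadl]
    have h2 : (LieAlgebra.ad ℝ g C * LieAlgebra.ad ℝ g X - LieAlgebra.ad ℝ g X *
        LieAlgebra.ad ℝ g C) * LieAlgebra.ad ℝ g Y * P =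
        LieAlgebra.ad ℝ g C * (LieAlgebra.ad ℝ g X * LieAlgebra.ad ℝ g Y * P) -
          LieAlgebra.ad ℝ g X * LieAlgebra.ad ℝ g C * LieAlgebra.ad ℝ g Y * P := by
      simp only [sub_mul, mul_assoc]
    have h3 : LieAlgebra.ad ℝ g X * (LieAlgebra.ad ℝ g C * LieAlgebra.ad ℝ g Y -
        LieAlgebra.ad ℝ g Y * LieAlgebra.ad ℝ g C) * P =
        LieAlgebra.ad ℝ g X * LieAlgebra.ad ℝ g C * LieAlgebra.ad ℝ g Y * P -
          LieAlgebra.ad ℝ g X * LieAlgebra.ad ℝ g Y * (LieAlgebra.ad ℝ g C * P) := by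
      simp only [sub_mul, mul_sub, mul_assoc]
    rw [h2, h3, map_sub, map_sub, h1]
    ring
  have hQp : ∀ C ∈ k, C ≠ 0 → 0 < Q C C := by
    intro C hC hC0
    have h1 := hneg C hC hC0
    have h2 : (LieAlgebra.ad ℝ g C * P) * (LieAlgebra.ad ℝ g C * P) =
        LieAlgebra.ad ℝ g C * LieAlgebra.ad ℝ g C * P := by
      rw [mul_assoc, ← mul_assoc P, ← hadP C hC, mul_assoc _ P P, hPP, mul_assoc]
    rw [h2] at h1
    rw [hQ]
    linarith
  obtain ⟨h1, h2⟩ := KNDx.tr_skew (B + (Q.comp R).compl₂ R) (fun x y => by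
    show B x y + Q (R x) (R y) = B y x + Q (R y) (R x)
    rw [hM.symm, hQs _ (hRk x) _ (hRk y)]) (fun x hx => hpd Q hQp x hx)
    (LieAlgebra.ad ℝ g A) (fun x y => by
      show B ⁅A, x⁆ y + Q (R ⁅A, x⁆) (R y) + (B x ⁅A, y⁆ + Q (R x) (R ⁅A, y⁆)) = 0
      have hR : ∀ x, R ⁅A, x⁆ = ⁅A, R x⁆ := by
        intro x
        show ⁅A, x⁆ - P ⁅A, x⁆ = ⁅A, x - P x⁆
        rw [hPc A hA, lie_sub]
      have h1 := hM.inv A hA x y
      have h2 := hQi A hA (R x) (R y)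
      rw [hR, hR]
      linarith)
  rw [killingForm_apply_apply]
  refine lt_of_le_of_ne h1 fun h0 => hA0 (hE A hA fun X => ?_)
  have h3 : ⁅A, X⁆ = 0 := congrArg (fun T : g →ₗ[ℝ] g => T X) (h2 h0)
  rw [h3]
  exact k.zero_mem

end GOS
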