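import Pool.Agent.GOS.StA

/-!
# GOS: LM3, the ideal acting on a three-dimensional summand only (helper21)
-/

namespace GOS

open scoped InnerProductSpace Quaternion

namespace LM3x

variable {V : Type} [NormedAddCommGroup V] [InnerProductSpace ℝ V]

/-- the imaginary quaternion with given components -/
def mk3 (a b c : ℝ) : ℍ := ⟨0, a, b, c⟩

lemma mk3_re (a b c : ℝ) : (mk3 a b c).re = 0 := rfl
lemma mk3_imI (a b c : ℝ) : (mk3 a b c).imI = a := rfl
lemma mk3_imJ (a b c : ℝ) : (mk3 a b c).imJ = b := rfl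
lemma mk3_imK (a b c : ℝ) : (mk3 a b c).imK = c := rfl

lemma mk3_im (a b c : ℝ) : (mk3 a b c).im = mk3 a b c := by
  ext
  · rw [Quaternion.re_im, mk3_re]
  · rw [Quaternion.imI_im]
  · rw [Quaternion.imJ_im]
  · rw [Quaternion.imK_im]

lemma inner_im (x y : ℍ) :
    ⟪x.im, y.im⟫_ℝ = x.imI * y.imI + x.imJ * y.imJ + x.imK * y.imK := by
  rw [Quaternion.inner_def]
  simp
  ring

lemma im_of_re (z : ℍ) (hz : z.re = 0) : z.im = z := by
  ext
  · rw [Quaternion.re_im, hz]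
  · rw [Quaternion.imI_im]
  · rw [Quaternion.imJ_im]
  · rw [Quaternion.imK_im]

/-- coordinates on the range of `e`, a linear map to the imaginary quaternions -/
noncomputable def D (e : ℍ →ₗ[ℝ] V) : V →ₗ[ℝ] ℍ :=
  (innerₛₗ ℝ (e (mk3 1 0 0))).smulRight (mk3 1 0 0) +
    (innerₛₗ ℝ (e (mk3 0 1 0))).smulRight (mk3 0 1 0) +
    (innerₛₗ ℝ (e (mk3 0 0 1))).smulRight (mk3 0 0 1)

lemma D_apply (e : ℍ →ₗ[ℝ] V) (v : V) :
    D e v = mk3 ⟪e (mk3 1 0 0), v⟫_ℝ ⟪e (mk3 0 1 0), v⟫_ℝ ⟪e (mk3 0 0 1), v⟫_ℝ := by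
  have h : D e v = ⟪e (mk3 1 0 0), v⟫_ℝ • mk3 1 0 0 + ⟪e (mk3 0 1 0), v⟫_ℝ • mk3 0 1 0 +
      ⟪e (mk3 0 0 1), v⟫_ℝ • mk3 0 0 1 := rfl
  rw [h]
  ext <;> simp [mk3_re, mk3_imI, mk3_imJ, mk3_imK]

lemma D_re (e : ℍ →ₗ[ℝ] V) (v : V) : (D e v).re = 0 := by
  rw [D_apply]
  exact mk3_re _ _ _

lemma D_e (U : Submodule ℝ V) (e : ℍ →ₗ[ℝ] V) (he : Emb3 U e) (z : ℍ) : D e (e z) = z.im := by
  rw [D_apply, he.iso, he.iso, he.iso, inner_im, inner_im, inner_im]
  ext <;> simp [mk3_re, mk3_imI, mk3_imJ, mk3_imK]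

lemma e_im (U : Submodule ℝ V) (e : ℍ →ₗ[ℝ] V) (he : Emb3 U e) (z : ℍ) : e z.im = e z := by
  have h : z = z.re • (1 : ℍ) + z.im := by
    ext <;> simp
  conv_rhs => rw [h, map_add, map_smul, he.one, smul_zero, zero_add]

lemma e_D (U : Submodule ℝ V) (e : ℍ →ₗ[ℝ] V) (he : Emb3 U e) (u : V) (hu : u ∈ U) :
    e (D e u) = u := by
  rw [← he.rng] at hu
  obtain ⟨z, rfl⟩ := hu
  rw [D_e U e he, e_im U e he]

lemma D_perp (U : Submodule ℝ V) (e : ℍ →ₗ[ℝ] V) (he : Emb3 U e) (w : V) (hw : w ∈ Uᗮ) :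
    D e w = 0 := by
  have h : ∀ z : ℍ, ⟪e z, w⟫_ℝ = 0 := fun z =>
    (Submodule.mem_orthogonal U w).1 hw _ (he.rng ▸ LinearMap.mem_range_self e z)
  rw [D_apply, h, h, h]
  ext <;> simp [mk3_re, mk3_imI, mk3_imJ, mk3_imK]

lemma e_mem (U : Submodule ℝ V) (e : ℍ →ₗ[ℝ] V) (he : Emb3 U e) (z : ℍ) : e z ∈ U :=
  he.rng ▸ LinearMap.mem_range_self e z

/-- every vector is a sum -/
lemma split [FiniteDimensional ℝ V] (U : Submodule ℝ V) (v : V) :
    ∃ u ∈ U, ∃ w ∈ Uᗮ, v = u + w :=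
  ⟨U.starProjection v, U.starProjection_apply_mem v, v - U.starProjection v,
    U.sub_starProjection_mem_orthogonal v, by abel⟩

end LM3x

open LM3x in
theorem thm_LM3 (h1 : St_GEN) (h2 : St_EQ3) : St_LM3 := by
  intro V _ _ _ H b hS U e σ he hU hσ hσe hσw u hu v
  obtain ⟨g1, g2, g3, -, -⟩ := h1 V H hS.toSkewLie
  have hUp := g1 U hU
  obtain ⟨q1, q2⟩ := h2
  -- the operators on coordinates
  have hD : ∀ a : ℍ, a.re = 0 → ∀ x : V, D e (σ a x) = a * D e x - D e x * a := by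
    intro a ha x
    obtain ⟨u', hu', w', hw', rfl⟩ := split U x
    rw [map_add, map_add, map_add, hσw a w' hw', map_zero, add_zero, D_perp U e he w' hw',
      add_zero]
    conv_lhs => rw [← e_D U e he u' hu', hσe, D_e U e he, im_of_re a ha,
      im_of_re _ (D_re e u')]
    exact im_of_re _ (by
      simp only [Quaternion.re_sub, Quaternion.re_mul]
      ring)
  -- U times U
  have hUU : ∀ z z' : ℍ, b (e z) (e z') = 0 := by
    have hmem : ∀ z z' : ℍ, b (e z) (e z') ∈ U := fun z z' =>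
      g2 b U hS hU _ (e_mem U e he z) _ (e_mem U e he z')
    obtain ⟨κ, hκ⟩ := q1 ((b.compl₁₂ e e).compr₂ (D e)) (fun x y _ _ => D_re e _) (by
      intro a x y ha hx hy
      have h := hD a ha (b (e x) (e y))
      rw [hS.eqv _ (hσ a), map_add, hσe, hσe, im_of_re a ha, im_of_re x hx, im_of_re y hy] at h
      exact h.symm)
    have hκ' : ∀ x y : ℍ, x.re = 0 → y.re = 0 → D e (b (e x) (e y)) = κ • (x * y - y * x) := hκ
    have h0 : ∀ x y : ℍ, x.re = 0 → y.re = 0 → b (e x) (e y) = 0 := by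
      intro x y hx hy
      have k1 := hκ' x y hx hy
      have k2 := hκ' y x hy hx
      rw [hS.symm (e y) (e x)] at k2
      have k3 : D e (b (e x) (e y)) = 0 := by
        have k4 : D e (b (e x) (e y)) = - D e (b (e x) (e y)) := by
          conv_lhs => rw [k1]
          rw [k2, ← smul_neg, neg_sub]
        have k5 : (2 : ℝ) • D e (b (e x) (e y)) = 0 := by
          rw [two_smul]
          exact add_eq_zero_iff_eq_neg.2 k4
        exact (smul_eq_zero.1 k5).resolve_left two_ne_zero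
      rw [← e_D U e he _ (hmem x y), k3, map_zero]
    intro z z'
    rw [← e_im U e he z, ← e_im U e he z']
    exact h0 _ _ (by rw [Quaternion.re_im]) (by rw [Quaternion.re_im])
  -- U times the complement
  have hUW : ∀ w ∈ Uᗮ, ∀ z : ℍ, b (e z) w = 0 := by
    intro w hw
    have hc : ∀ a z : ℍ, a.re = 0 → z.re = 0 →
        σ a (b (e z) w) = b (e (a * z - z * a)) w := by
      intro a z ha hz
      rw [hS.eqv _ (hσ a), hσw a w hw, map_zero, add_zero, hσe, im_of_re a ha, im_of_re z hz]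
    obtain ⟨c, hcc⟩ := q2 ((D e).comp ((b.flip w).comp e)) (fun z _ => D_re e _) (by
      intro a z ha hz
      have h := hD a ha (b (e z) w)
      rw [hc a z ha hz] at h
      exact h.symm)
    have hcc' : ∀ z : ℍ, z.re = 0 → D e (b (e z) w) = c • z := hcc
    have hperp : ∀ a z : ℍ, a.re = 0 → z.re = 0 → b (e (a * z - z * a)) w ∈ U := by
      intro a z ha hz
      rw [← hc a z ha hz]
      obtain ⟨u', hu', w', hw', hx⟩ := split U (b (e z) w)
      rw [hx, map_add, hσw a w' hw', add_zero]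
      exact hU _ (hσ a) _ hu'
    have hbr : ∀ z : ℍ, z.re = 0 → b (e z) w ∈ U := by
      intro z hz
      have hz' : z = (z.imI / 2) • (mk3 0 1 0 * mk3 0 0 1 - mk3 0 0 1 * mk3 0 1 0) +
          (z.imJ / 2) • (mk3 0 0 1 * mk3 1 0 0 - mk3 1 0 0 * mk3 0 0 1) +
          (z.imK / 2) • (mk3 1 0 0 * mk3 0 1 0 - mk3 0 1 0 * mk3 1 0 0) := by
        ext
        · simp [mk3_re, mk3_imI, mk3_imJ, mk3_imK, hz]
        · simp [mk3_re, mk3_imI, mk3_imJ, mk3_imK]
          ring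
        · simp [mk3_re, mk3_imI, mk3_imJ, mk3_imK]
          ring
        · simp [mk3_re, mk3_imI, mk3_imJ, mk3_imK]
          ring
      have hT : b (e z) w = ((b.flip w).comp e) z := rfl
      rw [hT, hz', map_add, map_add, map_smul, map_smul, map_smul]
      exact U.add_mem (U.add_mem
        (U.smul_mem _ (hperp _ _ (mk3_re _ _ _) (mk3_re _ _ _)))
        (U.smul_mem _ (hperp _ _ (mk3_re _ _ _) (mk3_re _ _ _))))
        (U.smul_mem _ (hperp _ _ (mk3_re _ _ _) (mk3_re _ _ _)))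
    have hval : ∀ z : ℍ, z.re = 0 → b (e z) w = c • e z := by
      intro z hz
      rw [← e_D U e he _ (hbr z hz), hcc' z hz, map_smul]
    have hc0 : c = 0 := by
      have h := g3 b U hS hU _ (e_mem U e he (mk3 1 0 0)) w hw
      have hww : ⟪b w w, e (mk3 1 0 0)⟫_ℝ = 0 := by
        have := (Submodule.mem_orthogonal U _).1 (g2 b _ hS hUp w hw w hw) _
          (e_mem U e he (mk3 1 0 0))
        rw [real_inner_comm]
        exact this
      have hsum : b (e (mk3 1 0 0) + w) (e (mk3 1 0 0) + w) =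
          (2 * c) • e (mk3 1 0 0) + b w w := by
        simp only [map_add, LinearMap.add_apply]
        rw [hUU, hS.symm w (e (mk3 1 0 0)), zero_add, hval _ (mk3_re _ _ _), ← add_assoc,
          ← two_smul ℝ (c • e (mk3 1 0 0)), smul_smul]
      rw [hsum, inner_add_left, hww, add_zero, inner_smul_left, he.iso, inner_im] at h
      simp [mk3_imI, mk3_imJ, mk3_imK] at h
      exact h
    intro z
    rw [← e_im U e he z, hval _ (by rw [Quaternion.re_im]), hc0, zero_smul]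
  obtain ⟨u', hu', w', hw', rfl⟩ := split U v
  rw [map_add, ← e_D U e he u hu, ← e_D U e he u' hu', hUU, hUW w' hw', add_zero]

end GOS
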