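import Pool.Agent.GOS.StA

/-!
# GOS: LS3, Lie subalgebras of the imaginary quaternions (helper21)
-/

namespace GOS

open scoped InnerProductSpace Quaternion

private theorem ls3_span (u v z : ℍ) (hu : u.re = 0) (hv : v.re = 0) (hz : z.re = 0)
    (hn : (u.imJ * v.imK - u.imK * v.imJ) ^ 2 + (u.imK * v.imI - u.imI * v.imK) ^ 2 +
      (u.imI * v.imJ - u.imJ * v.imI) ^ 2 ≠ 0) :
    ∃ a b c : ℝ, z = a • u + b • v + c • (u * v - v * u) := by
  set n1 := u.imJ * v.imK - u.imK * v.imJ with hn1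
  set n2 := u.imK * v.imI - u.imI * v.imK with hn2
  set n3 := u.imI * v.imJ - u.imJ * v.imI with hn3
  set d := n1 ^ 2 + n2 ^ 2 + n3 ^ 2 with hd
  refine ⟨(z.imI * (v.imJ * n3 - v.imK * n2) + z.imJ * (v.imK * n1 - v.imI * n3) +
      z.imK * (v.imI * n2 - v.imJ * n1)) / d,
    (z.imI * (n2 * u.imK - n3 * u.imJ) + z.imJ * (n3 * u.imI - n1 * u.imK) +
      z.imK * (n1 * u.imJ - n2 * u.imI)) / d,
    (z.imI * n1 + z.imJ * n2 + z.imK * n3) / (2 * d), ?_⟩
  ext
  · simp only [Quaternion.re_add, Quaternion.re_smul, Quaternion.re_sub, Quaternion.re_mul,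
      smul_eq_mul, hu, hv, hz]
    ring
  · simp only [Quaternion.imI_add, Quaternion.imI_smul, Quaternion.imI_sub, Quaternion.imI_mul,
      smul_eq_mul, hu, hv]
    field_simp
    rw [hd, hn1, hn2, hn3]
    ring
  · simp only [Quaternion.imJ_add, Quaternion.imJ_smul, Quaternion.imJ_sub, Quaternion.imJ_mul,
      smul_eq_mul, hu, hv]
    field_simp
    rw [hd, hn1, hn2, hn3]
    ring
  · simp only [Quaternion.imK_add, Quaternion.imK_smul, Quaternion.imK_sub, Quaternion.imK_mul,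
      smul_eq_mul, hu, hv]
    field_simp
    rw [hd, hn1, hn2, hn3]
    ring

private theorem ls3_line (u v : ℍ) (hu : u.re = 0) (hv : v.re = 0) (hu0 : u ≠ 0)
    (hn : (u.imJ * v.imK - u.imK * v.imJ) ^ 2 + (u.imK * v.imI - u.imI * v.imK) ^ 2 +
      (u.imI * v.imJ - u.imJ * v.imI) ^ 2 = 0) : ∃ t : ℝ, v = t • u := by
  have h1 : u.imJ * v.imK - u.imK * v.imJ = 0 := by
    have := sq_nonneg (u.imJ * v.imK - u.imK * v.imJ)
    have := sq_nonneg (u.imK * v.imI - u.imI * v.imK)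
    have := sq_nonneg (u.imI * v.imJ - u.imJ * v.imI)
    exact pow_eq_zero_iff (two_ne_zero) |>.1 (by linarith)
  have h2 : u.imK * v.imI - u.imI * v.imK = 0 := by
    have := sq_nonneg (u.imJ * v.imK - u.imK * v.imJ)
    have := sq_nonneg (u.imK * v.imI - u.imI * v.imK)
    have := sq_nonneg (u.imI * v.imJ - u.imJ * v.imI)
    exact pow_eq_zero_iff (two_ne_zero) |>.1 (by linarith)
  have h3 : u.imI * v.imJ - u.imJ * v.imI = 0 := by
    have := sq_nonneg (u.imJ * v.imK - u.imK * v.imJ)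
    have := sq_nonneg (u.imK * v.imI - u.imI * v.imK)
    have := sq_nonneg (u.imI * v.imJ - u.imJ * v.imI)
    exact pow_eq_zero_iff (two_ne_zero) |>.1 (by linarith)
  set d := u.imI ^ 2 + u.imJ ^ 2 + u.imK ^ 2 with hd
  have hd0 : d ≠ 0 := by
    intro h0
    apply hu0
    have := sq_nonneg u.imI
    have := sq_nonneg u.imJ
    have := sq_nonneg u.imK
    ext
    · exact hu
    · exact pow_eq_zero_iff (two_ne_zero) |>.1 (by linarith : u.imI ^ 2 = 0)
    · exact pow_eq_zero_iff (two_ne_zero) |>.1 (by linarith : u.imJ ^ 2 = 0)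
    · exact pow_eq_zero_iff (two_ne_zero) |>.1 (by linarith : u.imK ^ 2 = 0)
  refine ⟨(u.imI * v.imI + u.imJ * v.imJ + u.imK * v.imK) / d, ?_⟩
  ext
  · rw [Quaternion.re_smul, hu, hv, smul_zero]
  · rw [Quaternion.imI_smul, smul_eq_mul, div_mul_eq_mul_div, eq_div_iff hd0, hd]
    linear_combination u.imK * h2 - u.imJ * h3
  · rw [Quaternion.imJ_smul, smul_eq_mul, div_mul_eq_mul_div, eq_div_iff hd0, hd]
    linear_combination u.imI * h3 - u.imK * h1
  · rw [Quaternion.imK_smul, smul_eq_mul, div_mul_eq_mul_div, eq_div_iff hd0, hd]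
    linear_combination u.imJ * h1 - u.imI * h2

theorem thm_LS3 : St_LS3 := by
  intro P hre hlie
  by_cases h0 : ∀ p ∈ P, p = 0
  · right
    obtain ⟨p₀, hp, hp0⟩ : ∃ p₀ : ℍ, p₀.re = 0 ∧ p₀ ≠ 0 := by
      refine ⟨⟨0, 1, 0, 0⟩, rfl, ?_⟩
      intro h1
      have h2 : (⟨0, 1, 0, 0⟩ : ℍ).imI = (0 : ℍ).imI := by rw [h1]
      exact one_ne_zero h2
    exact ⟨p₀, hp, hp0, fun p hp => ⟨0, (h0 p hp).trans (zero_smul ℝ p₀).symm⟩⟩
  · push Not at h0
    obtain ⟨u, hu, hu0⟩ := h0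
    by_cases hl : ∀ p ∈ P, ∃ t : ℝ, p = t • u
    · exact Or.inr ⟨u, hre u hu, hu0, hl⟩
    · left
      push Not at hl
      obtain ⟨v, hv, hvt⟩ := hl
      intro z hz
      obtain ⟨a, b, c, habc⟩ := ls3_span u v z (hre u hu) (hre v hv) hz (by
        intro h1
        obtain ⟨t, ht⟩ := ls3_line u v (hre u hu) (hre v hv) hu0 h1
        exact hvt t ht)
      rw [habc]
      exact P.add_mem (P.add_mem (P.smul_mem a hu) (P.smul_mem b hv))
        (P.smul_mem c (hlie u hu v hv))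

end GOS
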