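import Pool.Agent.GOS.StC

/-!
# Module NI0: the recognition of the nilpotent family
-/

namespace GOS

open scoped InnerProductSpace Quaternion

namespace NI0

variable {g : Type} [LieRing g] [LieAlgebra ℝ g]

theorem im_add (q : ℍ) : q = q.re • (1 : ℍ) + q.im := by
  ext <;> simp

/-- coordinates -/
noncomputable def tp (B : g →ₗ[ℝ] g →ₗ[ℝ] ℝ) (τ : ℍ →ₗ[ℝ] g) (v : Fin 3 → g) :
    ℍ →ₗ[ℝ] EuclideanSpace ℝ (Fin 3) where
  toFun := fun p => WithLp.toLp 2 fun i => B (τ p) (v i)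
  map_add' := by
    intro a b
    ext i
    simp
  map_smul' := by
    intro t a
    ext i
    simp

theorem tp_apply (B : g →ₗ[ℝ] g →ₗ[ℝ] ℝ) (τ : ℍ →ₗ[ℝ] g) (v : Fin 3 → g) (p : ℍ) (i : Fin 3) :
    tp B τ v p i = B (τ p) (v i) := rfl

/-- the linear map -/
noncomputable def fl (E : ℍ →ₗ[ℝ] g) (v : Fin 3 → g) :
    (ℍ × EuclideanSpace ℝ (Fin 3)) →ₗ[ℝ] g where
  toFun := fun X => E X.1 + ∑ i, X.2 i • v i
  map_add' := by
    intro X Y
    have h : ∑ i, (X.2 i + Y.2 i) • v i = ∑ i, X.2 i • v i + ∑ i, Y.2 i • v i := by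
      rw [← Finset.sum_add_distrib]
      exact Finset.sum_congr rfl fun i _ => add_smul _ _ _
    change E (X.1 + Y.1) + ∑ i, (X.2 i + Y.2 i) • v i = _
    rw [h, map_add]
    abel
  map_smul' := by
    intro t X
    have h : ∑ i, (t * X.2 i) • v i = t • ∑ i, X.2 i • v i := by
      rw [Finset.smul_sum]
      exact Finset.sum_congr rfl fun i _ => mul_smul _ _ _
    change E (t • X.1) + ∑ i, (t * X.2 i) • v i = t • (E X.1 + ∑ i, X.2 i • v i)
    rw [h, map_smul, smul_add]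

theorem fl_apply (E : ℍ →ₗ[ℝ] g) (v : Fin 3 → g) (x : ℍ) (u : EuclideanSpace ℝ (Fin 3)) :
    fl E v (x, u) = E x + ∑ i, u i • v i := rfl

theorem Bsum (B : g →ₗ[ℝ] g →ₗ[ℝ] ℝ) (v : Fin 3 → g)
    (hv : ∀ i j, B (v i) (v j) = if i = j then 1 else 0) (c : Fin 3 → ℝ) (j : Fin 3) :
    B (∑ i, c i • v i) (v j) = c j := by
  rw [map_sum, LinearMap.sum_apply]
  have h : ∀ i ∈ (Finset.univ : Finset (Fin 3)), B (c i • v i) (v j) =
      if i = j then c i else 0 := by
    intro i _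
    rw [map_smul, LinearMap.smul_apply, hv, smul_eq_mul, mul_ite, mul_one, mul_zero]
  rw [Finset.sum_congr rfl h, Finset.sum_ite_eq' Finset.univ j c, if_pos (Finset.mem_univ _)]

theorem Badd (B : g →ₗ[ℝ] g →ₗ[ℝ] ℝ) (a b a' b' : g) :
    B (a + b) (a' + b') = B a a' + B a b' + (B b a' + B b b') := by
  simp only [map_add, LinearMap.add_apply]
  ring

theorem Bsum2 (B : g →ₗ[ℝ] g →ₗ[ℝ] ℝ) (v : Fin 3 → g)
    (hv : ∀ i j, B (v i) (v j) = if i = j then 1 else 0) (c d : Fin 3 → ℝ) :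
    B (∑ i, c i • v i) (∑ i, d i • v i) = ∑ i, c i * d i := by
  rw [map_sum]
  refine Finset.sum_congr rfl fun j _ => ?_
  rw [map_smul, Bsum B v hv, smul_eq_mul, mul_comm]

end NI0

open NI0 in
theorem thm_NI0 : St_NI0 := by
  intro g _ _ _ k B c h W σ E τ ρ lam hD hlam v hvc hvv hρ hvl hτs
  have hexp : ∀ p : ℍ, τ p = ∑ i, B (τ p) (v i) • v i := by
    intro p
    obtain ⟨d, hd⟩ := (Submodule.mem_span_range_iff_exists_fun ℝ).1 (hτs p)
    have h2 : ∀ i, B (τ p) (v i) = d i := fun i => by rw [← hd]; exact Bsum B v hvv d i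
    rw [← hd]
    exact Finset.sum_congr rfl fun i _ => by rw [hd, h2]
  have hhk : ∀ A ∈ h, A ∈ k := by
    intro A hA
    have : A ∈ k.toSubmodule := by rw [hD.kdec]; exact Submodule.mem_sup_right hA
    exact this
  have hvE : ∀ i x, ⁅v i, E x⁆ = 0 := fun i x => by
    rw [hD.cE _ (hvc i), hρ, mul_zero, map_zero, neg_zero]
  have hsE : ∀ (u : EuclideanSpace ℝ (Fin 3)) (x : ℍ), ⁅∑ i, u i • v i, E x⁆ = 0 := by
    intro u x
    rw [sum_lie]
    exact Finset.sum_eq_zero fun i _ => by rw [smul_lie, hvE, smul_zero]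
  have hEs : ∀ (u : EuclideanSpace ℝ (Fin 3)) (x : ℍ), ⁅E x, ∑ i, u i • v i⁆ = 0 := by
    intro u x
    rw [← lie_skew, hsE, neg_zero]
  have hss : ∀ u u' : EuclideanSpace ℝ (Fin 3), ⁅∑ i, u i • v i, ∑ i, u' i • v i⁆ = 0 := by
    intro u u'
    rw [sum_lie]
    refine Finset.sum_eq_zero fun i _ => ?_
    rw [smul_lie, lie_sum]
    rw [Finset.sum_eq_zero fun j _ => by rw [lie_smul, hvl, smul_zero], smul_zero]
  have hsc : ∀ u : EuclideanSpace ℝ (Fin 3), ∑ i, u i • v i ∈ c := fun u =>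
    Submodule.sum_mem _ fun i _ => Submodule.smul_mem _ _ (hvc i)
  have hτim : ∀ q : ℍ, τ q = τ (Nil.imL q) := by
    intro q
    have h1 : τ q = τ (q.re • (1 : ℍ) + q.im) := congrArg τ (im_add q)
    rw [h1, map_add, map_smul, hD.τ1, smul_zero, zero_add]
    rfl
  refine ⟨tp B τ v, ⟨{ toLinearMap := fl E v, map_lie' := ?_ }, ?_, ?_⟩⟩
  · intro X Y
    obtain ⟨x, u⟩ := X
    obtain ⟨y, u'⟩ := Y
    change fl E v ((0 : ℍ), tp B τ v (Nil.imL (star x * y))) = ⁅fl E v (x, u), fl E v (y, u')⁆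
    rw [fl_apply, fl_apply, fl_apply, map_zero, zero_add, add_lie, lie_add, lie_add, hEs, hsE, hss,
      hD.EEb, hlam, zero_smul, sub_zero, add_zero, zero_add, add_zero, hτim (star x * y),
      hexp (Nil.imL (star x * y))]
    exact Finset.sum_congr rfl fun i _ => by rw [tp_apply]
  · intro X Y
    obtain ⟨x, u⟩ := X
    obtain ⟨y, u'⟩ := Y
    change B (fl E v (x, u)) (fl E v (y, u')) = ⟪x, y⟫_ℝ + ⟪u, u'⟫_ℝ
    rw [fl_apply, fl_apply, Badd, hD.BEE,
      hD.BEc _ _ (hsc u'), hD.model.symm (∑ i, u i • v i) (E y), hD.BEc _ _ (hsc u),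
      Bsum2 B v hvv, add_zero, zero_add, PiLp.inner_apply]
    congr 1
    exact Finset.sum_congr rfl fun i _ => by
      rw [RCLike.inner_apply, conj_trivial, mul_comm]
  · have hdec : ∀ i, ∃ A ∈ h, ∃ w ∈ W, A + w = v i := by
      intro i
      have := hvc i
      rw [hD.chW] at this
      exact Submodule.mem_sup.1 this
    choose A hA w hw hAw using hdec
    have hww : ∀ i j, B (w i) (w j) = if i = j then 1 else 0 := by
      intro i j
      rw [← hvv i j, ← hAw i, ← hAw j, Badd,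
        hD.model.ker _ (hhk _ (hA i)), hD.model.ker _ (hhk _ (hA i)), hD.model.symm (w i) (A j),
        hD.model.ker _ (hhk _ (hA j)), zero_add, zero_add, zero_add]
    let w' : Fin 3 → W := fun i => ⟨w i, hw i⟩
    have hli : LinearIndependent ℝ w' := by
      rw [Fintype.linearIndependent_iff]
      intro d hd j
      have h1 : ∑ i, d i • w i = 0 := by
        have := congrArg (Submodule.subtype W) hd
        rw [map_sum, map_zero] at this
        exact this
      have h2 := Bsum B w hww d j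
      rw [h1, map_zero, LinearMap.zero_apply] at h2
      exact h2.symm
    have hsp : Submodule.span ℝ (Set.range w') = ⊤ :=
      hli.span_eq_top_of_card_eq_finrank' (by rw [hD.dimW]; rfl)
    intro Z
    obtain ⟨a, x, C, hC, hZ⟩ := hD.dec Z
    rw [hD.chW] at hC
    obtain ⟨A₀, hA₀, w₀, hw₀, hC'⟩ := Submodule.mem_sup.1 hC
    have hmem : (⟨w₀, hw₀⟩ : W) ∈ Submodule.span ℝ (Set.range w') := by
      rw [hsp]; exact Submodule.mem_top
    obtain ⟨d, hd⟩ := (Submodule.mem_span_range_iff_exists_fun ℝ).1 hmem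
    have hd' : ∑ i, d i • w i = w₀ := by
      have := congrArg (Submodule.subtype W) hd
      rw [map_sum] at this
      exact this
    refine ⟨(x, WithLp.toLp 2 d), ?_⟩
    change Z - fl E v (x, WithLp.toLp 2 d) ∈ k
    have h3 : Z - fl E v (x, WithLp.toLp 2 d) = σ a + A₀ - ∑ i, d i • A i := by
      rw [fl_apply, hZ, ← hC', ← hd']
      have h4 : ∑ i, (WithLp.toLp 2 d : EuclideanSpace ℝ (Fin 3)) i • v i =
          ∑ i, d i • A i + ∑ i, d i • w i := by
        rw [← Finset.sum_add_distrib]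
        exact Finset.sum_congr rfl fun i _ => by rw [← hAw i, smul_add]
      rw [h4]
      abel
    rw [h3]
    have h5 : σ a ∈ k := by
      have : σ a ∈ k.toSubmodule := by
        rw [hD.kdec]; exact Submodule.mem_sup_left ⟨a, rfl⟩
      exact this
    have h6 : ∑ i, d i • A i ∈ k.toSubmodule :=
      Submodule.sum_mem _ fun i _ => Submodule.smul_mem _ _ (hhk _ (hA i))
    exact k.toSubmodule.sub_mem (k.toSubmodule.add_mem h5 (hhk _ hA₀)) h6

end GOS
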