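import Pool.Agent.GOS.StC

/-!
# Seven-dimensional g.o. spaces (MP_cdb478_gt): module NI2
-/

namespace GOS

open scoped InnerProductSpace Quaternion

namespace NI2x

/-- A unit imaginary quaternion orthogonal to a given unit imaginary quaternion. -/
theorem perp (u : ℍ) :
    ∃ p : ℍ, p.re = 0 ∧ ‖p‖ = 1 ∧ ⟪p, u⟫_ℝ = 0 := by
  have mk : ∀ a b : ℝ, ∃ p : ℍ, p.re = 0 ∧ p.imI = a ∧ p.imJ = b ∧ p.imK = 0 :=
    fun a b => ⟨⟨0, a, b, 0⟩, rfl, rfl, rfl, rfl⟩
  have key : ∃ p : ℍ, p.re = 0 ∧ p ≠ 0 ∧ ⟪p, u⟫_ℝ = 0 := by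
    by_cases h : u.imI = 0
    · obtain ⟨p, h1, h2, h3, h4⟩ := mk 1 0
      refine ⟨p, h1, ?_, ?_⟩
      · rintro rfl
        simp at h2
      · simp [Quaternion.inner_def, h1, h2, h3, h4, h]
    · obtain ⟨p, h1, h2, h3, h4⟩ := mk u.imJ (-u.imI)
      refine ⟨p, h1, ?_, ?_⟩
      · rintro rfl
        simp at h3
        exact h h3
      · simp [Quaternion.inner_def, h1, h2, h3, h4]
        ring
  obtain ⟨p, h1, h2, h3⟩ := key
  have hp : ‖p‖ ≠ 0 := norm_ne_zero_iff.2 h2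
  refine ⟨‖p‖⁻¹ • p, by simp [h1], ?_, ?_⟩
  · rw [norm_smul, norm_inv, norm_norm, inv_mul_cancel₀ hp]
  · rw [real_inner_smul_left, h3, mul_zero]

theorem frame (u : ℍ) (hu : u.re = 0) (hn : ‖u‖ = 1) :
    ∃ p q : ℍ, p.re = 0 ∧ q.re = 0 ∧ ⟪p, u⟫_ℝ = 0 ∧ ⟪q, u⟫_ℝ = 0 ∧
      u * p - p * u = (2 : ℝ) • q ∧ u * q - q * u = (-2 : ℝ) • p ∧
      (∀ a b : ℝ, a • p + b • q = 0 → a = 0 ∧ b = 0) ∧
      ∀ x : ℍ, ∃ r s a b : ℝ, x = r • (1 : ℍ) + s • u + a • p + b • q := by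
  obtain ⟨p, hp, hpn, hpu⟩ := perp u
  have n1 : u.imI ^ 2 + u.imJ ^ 2 + u.imK ^ 2 = 1 := by
    have h := real_inner_self_eq_norm_sq u
    rw [hn, Quaternion.inner_def] at h
    simp [hu] at h
    linarith
  have n2 : p.imI ^ 2 + p.imJ ^ 2 + p.imK ^ 2 = 1 := by
    have h := real_inner_self_eq_norm_sq p
    rw [hpn, Quaternion.inner_def] at h
    simp [hp] at h
    linarith
  have n3 : p.imI * u.imI + p.imJ * u.imJ + p.imK * u.imK = 0 := by
    have h := hpu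
    rw [Quaternion.inner_def] at h
    simp [hp, hu] at h
    linarith
  have ho : Orthonormal ℝ ![(1 : ℍ), u, p, u * p] := by
    rw [orthonormal_iff_ite]
    intro i j
    fin_cases i <;> fin_cases j <;>
      simp [Quaternion.inner_def, Quaternion.re_mul, hu, hp, hn, hpn] <;>
      linarith
  have hq : (u * p).re = 0 := by
    simp [hu, hp]
    linarith
  refine ⟨p, u * p, hp, hq, hpu, ?_, ?_, ?_, ?_, ?_⟩
  · exact ho.2 (i := 3) (j := 1) (by decide)
  · ext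
    · simp [hu, hp]; linarith
    · simp [hu, hp]; linarith
    · simp [hu, hp]; linarith
    · simp [hu, hp]; linarith
  · ext
    · simp [hu, hp]; linarith
    · simp [hu, hp]; linear_combination (2 * u.imI) * n3 - 2 * p.imI * n1
    · simp [hu, hp]; linear_combination (2 * u.imJ) * n3 - 2 * p.imJ * n1
    · simp [hu, hp]; linear_combination (2 * u.imK) * n3 - 2 * p.imK * n1
  · intro a b hab
    have h := Fintype.linearIndependent_iff.1 ho.linearIndependent ![0, 0, a, b]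
      (by simpa [Fin.sum_univ_four] using hab)
    exact ⟨h 2, h 3⟩
  · intro x
    have hs := ho.linearIndependent.span_eq_top_of_card_eq_finrank'
      (by rw [Quaternion.finrank_eq_four]; rfl)
    have hx : x ∈ Submodule.span ℝ (Set.range ![(1 : ℍ), u, p, u * p]) := by
      rw [hs]; trivial
    obtain ⟨c, hc⟩ := (Submodule.mem_span_range_iff_exists_fun ℝ).1 hx
    refine ⟨c 0, c 1, c 2, c 3, ?_⟩
    rw [← hc, Fin.sum_univ_four]
    rfl

section vec

variable {g : Type} [AddCommGroup g] [Module ℝ g]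

theorem w3 (B : g →ₗ[ℝ] g →ₗ[ℝ] ℝ) (W : Submodule ℝ g) (hW : Module.finrank ℝ W = 3)
    (hp : ∀ w ∈ W, w ≠ 0 → 0 < B w w) (a b : g) (ha : a ∈ W)
    (hb : b ∈ W) (hab : ∀ s t : ℝ, s • a + t • b = 0 → s = 0 ∧ t = 0) :
    ∃ e ∈ W, B e e = 1 ∧ B e a = 0 ∧ B e b = 0 ∧
      ∀ w ∈ W, ∃ s t r : ℝ, w = s • a + t • b + r • e := by
  have : FiniteDimensional ℝ W := FiniteDimensional.of_finrank_pos (by rw [hW]; norm_num)
  have hk := LinearMap.ker_ne_bot_of_finrank_lt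
    (f := ((B.flip a).prod (B.flip b)).comp W.subtype) (by
      rw [hW, Module.finrank_prod, Module.finrank_self]; norm_num)
  obtain ⟨⟨x, hxW⟩, hx, hx0⟩ := (Submodule.ne_bot_iff _).1 hk
  have hxa : B x a = 0 := congrArg Prod.fst (LinearMap.mem_ker.1 hx)
  have hxb : B x b = 0 := congrArg Prod.snd (LinearMap.mem_ker.1 hx)
  have hx1 : x ≠ 0 := fun h => hx0 (Subtype.ext h)
  have hxx := hp x hxW hx1
  have hr : 0 < Real.sqrt (B x x) := Real.sqrt_pos.2 hxx
  have hr2 : Real.sqrt (B x x) * Real.sqrt (B x x) = B x x := Real.mul_self_sqrt hxx.le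
  obtain ⟨e, he⟩ : ∃ e : g, e = (Real.sqrt (B x x))⁻¹ • x := ⟨_, rfl⟩
  have heW : e ∈ W := he ▸ W.smul_mem _ hxW
  have hee : B e e = 1 := by
    rw [he, map_smul, map_smul, LinearMap.smul_apply, smul_eq_mul, smul_eq_mul]
    field_simp
    rw [Real.sq_sqrt hxx.le]
  have hea : B e a = 0 := by
    rw [he, map_smul, LinearMap.smul_apply, hxa, smul_zero]
  have heb : B e b = 0 := by
    rw [he, map_smul, LinearMap.smul_apply, hxb, smul_zero]
  refine ⟨e, heW, hee, hea, heb, fun w hw => ?_⟩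
  have hli : LinearIndependent ℝ (![⟨a, ha⟩, ⟨b, hb⟩, ⟨e, heW⟩] : Fin 3 → W) := by
    rw [Fintype.linearIndependent_iff]
    intro c hc
    rw [Fin.sum_univ_three] at hc
    have h1 : c 0 • a + c 1 • b + c 2 • e = 0 := congrArg Subtype.val hc
    have h2 : c 2 = 0 := by
      have h := congrArg (B e) h1
      rw [map_add, map_add, map_smul, map_smul, map_smul, hea, heb, hee, map_zero] at h
      simpa using h
    rw [h2, zero_smul, add_zero] at h1
    obtain ⟨h3, h4⟩ := hab _ _ h1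
    intro i
    fin_cases i
    · exact h3
    · exact h4
    · exact h2
  have hsp := hli.span_eq_top_of_card_eq_finrank' (by rw [hW]; rfl)
  have hwm : (⟨w, hw⟩ : W) ∈ Submodule.span ℝ
      (Set.range (![⟨a, ha⟩, ⟨b, hb⟩, ⟨e, heW⟩] : Fin 3 → W)) := by
    rw [hsp]; trivial
  obtain ⟨c, hc⟩ := (Submodule.mem_span_range_iff_exists_fun ℝ).1 hwm
  rw [Fin.sum_univ_three] at hc
  exact ⟨c 0, c 1, c 2, (congrArg Subtype.val hc).symm⟩

theorem gs (B : g →ₗ[ℝ] g →ₗ[ℝ] ℝ) (a b : g)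
    (hp : ∀ s t : ℝ, s • a + t • b ≠ 0 → 0 < B (s • a + t • b) (s • a + t • b))
    (hab : ∀ s t : ℝ, s • a + t • b = 0 → s = 0 ∧ t = 0) :
    ∃ x y : g, B x x = 1 ∧ B x y = 0 ∧ B y y = 1 ∧ (∃ s : ℝ, x = s • a) ∧
      (∃ s t : ℝ, y = s • a + t • b) ∧ (∃ s : ℝ, a = s • x) ∧ (∃ s t : ℝ, b = s • x + t • y) := by
  have ha : 0 < B a a := by
    have h := hp 1 0 (by
      intro h
      exact one_ne_zero (hab 1 0 h).1)
    simpa using h
  obtain ⟨κ, hκ⟩ : ∃ κ : ℝ, κ = B a b / B a a := ⟨_, rfl⟩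
  obtain ⟨d, hd⟩ : ∃ d : g, d = (-κ) • a + (1 : ℝ) • b := ⟨_, rfl⟩
  have hdd : 0 < B d d := by
    rw [hd]
    apply hp
    intro h
    exact one_ne_zero (hab _ _ h).2
  have had : B a d = 0 := by
    rw [hd, map_add, map_smul, map_smul, hκ, smul_eq_mul, smul_eq_mul]
    field_simp
    ring
  have r1 : 0 < Real.sqrt (B a a) := Real.sqrt_pos.2 ha
  have r2 : 0 < Real.sqrt (B d d) := Real.sqrt_pos.2 hdd
  refine ⟨(Real.sqrt (B a a))⁻¹ • a, (Real.sqrt (B d d))⁻¹ • d, ?_, ?_, ?_, ⟨_, rfl⟩,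
    ⟨(Real.sqrt (B d d))⁻¹ * (-κ), (Real.sqrt (B d d))⁻¹, ?_⟩, ⟨Real.sqrt (B a a), ?_⟩,
    ⟨κ * Real.sqrt (B a a), Real.sqrt (B d d), ?_⟩⟩
  · rw [map_smul, map_smul, LinearMap.smul_apply, smul_eq_mul, smul_eq_mul]
    field_simp
    rw [Real.sq_sqrt ha.le]
  · rw [map_smul, map_smul, LinearMap.smul_apply, had, smul_zero, smul_zero]
  · rw [map_smul, map_smul, LinearMap.smul_apply, smul_eq_mul, smul_eq_mul]
    field_simp
    rw [Real.sq_sqrt hdd.le]
  · rw [hd, smul_add, smul_smul, smul_smul, mul_one]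
  · rw [smul_smul, mul_inv_cancel₀ r1.ne', one_smul]
  · rw [smul_smul, smul_smul, mul_assoc, mul_inv_cancel₀ r1.ne', mul_inv_cancel₀ r2.ne', mul_one,
      one_smul, hd, one_smul]
    rw [← add_assoc, ← add_smul, add_neg_cancel, zero_smul, zero_add]

end vec

end NI2x

theorem thm_NI2 (h1 : St_VH0) (h2 : St_NI0) : St_NI2 := by
  intro g _ _ _ k B c h W σ E τ ρ lam D hlam hρτ u hu hn hτu hinj
  obtain ⟨p, q, hp, hq, hpu, hqu, e1, e2, hli, hdec⟩ := NI2x.frame u hu hn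
  have hhk : ∀ A ∈ h, A ∈ k := by
    intro A hA
    have h3 : A ∈ k.toSubmodule := by
      rw [D.kdec]
      exact Submodule.mem_sup_right hA
    exact h3
  have hhc : ∀ A ∈ h, A ∈ c := by
    intro A hA
    rw [D.chW]
    exact Submodule.mem_sup_left hA
  have hWc : ∀ w ∈ W, w ∈ c := by
    intro A hA
    rw [D.chW]
    exact Submodule.mem_sup_right hA
  have hcd : ∀ C ∈ c, ∃ A ∈ h, ∃ w ∈ W, C = A + w := by
    intro C hC
    rw [D.chW] at hC
    obtain ⟨A, hA, w, hw, e⟩ := Submodule.mem_sup.1 hC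
    exact ⟨A, hA, w, hw, e.symm⟩
  have hck : ∀ C ∈ c, C ∈ k → C ∈ h := by
    intro C hC hk
    have h3 : C ∈ k.toSubmodule := hk
    rw [D.kdec] at h3
    obtain ⟨_, ⟨a, rfl⟩, A, hA, e⟩ := Submodule.mem_sup.1 h3
    have h4 := (D.ind a 0 (A - C) (c.sub_mem (hhc A hA) hC) (by
      rw [map_zero, add_zero, ← e]; abel)).2.2
    rw [← sub_eq_zero.1 h4]
    exact hA
  have hhW : ∀ x ∈ h, x ∈ W → x = 0 := fun x hx hw => Submodule.disjoint_def.1 D.hW0 x hx hw
  have hWk : ∀ w ∈ W, w ∈ k → w = 0 := fun w hw hk => hhW w (hck w (hWc w hw) hk) hw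
  have Bpos : ∀ w ∈ W, w ≠ 0 → 0 < B w w := fun w hw h0 =>
    D.model.pos w (fun hk => h0 (hWk w hw hk))
  -- the linear form `r`
  have hrc : ∀ C ∈ c, ∃ r : ℝ, ρ C = r • u := by
    intro C hC
    obtain ⟨r, s, a, b, e⟩ := hdec (ρ C)
    have hre := D.ρre C hC
    have hr : r = 0 := by
      rw [e] at hre
      simpa [hu, hp, hq] using hre
    have h3 := D.cτ C hC u hu
    rw [hτu, lie_zero, e, hr] at h3
    have h4 : (((0 : ℝ) • (1 : ℍ) + s • u + a • p + b • q) * u -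
        u * ((0 : ℝ) • (1 : ℍ) + s • u + a • p + b • q)) =
        (-a) • (u * p - p * u) + (-b) • (u * q - q * u) := by
      simp only [zero_smul, zero_add, add_mul, mul_add, smul_mul_assoc, mul_smul_comm, smul_sub,
        neg_smul]
      abel
    rw [h4, e1, e2, smul_smul, smul_smul] at h3
    have h5 := hinj ((-a * 2) • q + (-b * -2) • p) (by simp [hp, hq])
      (by rw [inner_add_left, real_inner_smul_left, real_inner_smul_left, hpu, hqu]; ring) h3.symm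
    rw [add_comm] at h5
    obtain ⟨h6, h7⟩ := hli _ _ h5
    refine ⟨s, ?_⟩
    have ha : a = 0 := by linarith
    have hb : b = 0 := by linarith
    rw [e, hr, ha, hb]
    simp
  -- the plane `V₀`
  obtain ⟨t₁, ht₁⟩ : ∃ t : g, t = τ p := ⟨_, rfl⟩
  obtain ⟨t₂, ht₂⟩ : ∃ t : g, t = τ q := ⟨_, rfl⟩
  have hc1 : t₁ ∈ c := ht₁ ▸ D.τc p
  have hc2 : t₂ ∈ c := ht₂ ▸ D.τc q
  have hspan : ∀ x : ℍ, ∃ a b : ℝ, τ x = a • t₁ + b • t₂ := by
    intro x
    obtain ⟨r, s, a, b, e⟩ := hdec x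
    refine ⟨a, b, ?_⟩
    rw [e, map_add, map_add, map_add, map_smul, map_smul, map_smul, map_smul, D.τ1, hτu, ht₁, ht₂]
    simp
  have htli : ∀ a b : ℝ, a • t₁ + b • t₂ = 0 → a = 0 ∧ b = 0 := by
    intro a b hab
    rw [ht₁, ht₂, ← map_smul, ← map_smul, ← map_add] at hab
    refine hli _ _ (hinj _ (by simp [hp, hq]) ?_ hab)
    rw [inner_add_left, real_inner_smul_left, real_inner_smul_left, hpu, hqu]
    ring
  have htτ : ∀ a b : ℝ, a • t₁ + b • t₂ = τ (a • p + b • q) := by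
    intro a b
    rw [ht₁, ht₂, map_add, map_smul, map_smul]
  have hth : ∀ a b : ℝ, a • t₁ + b • t₂ ∈ h → a • t₁ + b • t₂ = 0 := by
    intro a b hab
    rw [htτ] at hab ⊢
    exact h1 g k B c h W σ E τ ρ lam D hρτ _ hab
  have hbr1 : ∀ C ∈ c, ∀ r : ℝ, ρ C = r • u → ⁅C, t₁⁆ = (2 * r) • t₂ := by
    intro C hC r hr
    rw [ht₁, D.cτ C hC p hp, hr, smul_mul_assoc, mul_smul_comm, ← smul_sub, e1, ht₂, map_smul,
      map_smul, smul_smul, mul_comm]
  have hbr2 : ∀ C ∈ c, ∀ r : ℝ, ρ C = r • u → ⁅C, t₂⁆ = (-2 * r) • t₁ := by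
    intro C hC r hr
    rw [ht₂, D.cτ C hC q hq, hr, smul_mul_assoc, mul_smul_comm, ← smul_sub, e2, ht₁, map_smul,
      map_smul, smul_smul, mul_comm]
  have hρ1 : ρ t₁ = 0 := ht₁ ▸ hρτ p
  have hρ2 : ρ t₂ = 0 := ht₂ ▸ hρτ q
  have h12 : ⁅t₁, t₂⁆ = 0 := by
    rw [hbr2 t₁ hc1 0 (by rw [hρ1, zero_smul]), mul_zero, zero_smul]
  -- `(3)`
  obtain ⟨A₁, hA₁, w₁, hw₁, d1⟩ := hcd t₁ hc1
  obtain ⟨A₂, hA₂, w₂, hw₂, d2⟩ := hcd t₂ hc2
  have hwli : ∀ s t : ℝ, s • w₁ + t • w₂ = 0 → s = 0 ∧ t = 0 := by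
    intro s t hst
    refine htli s t (hth s t ?_)
    have h3 : s • t₁ + t • t₂ = s • A₁ + t • A₂ := by
      rw [d1, d2, smul_add, smul_add]
      have h4 : s • A₁ + s • w₁ + (t • A₂ + t • w₂) =
        s • A₁ + t • A₂ + (s • w₁ + t • w₂) := by abel
      rw [h4, hst, add_zero]
    rw [h3]
    exact h.add_mem (h.smul_mem _ hA₁) (h.smul_mem _ hA₂)
  have h30 : ∀ A ∈ h, ρ A = 0 → A = 0 := by
    intro A hA hρ
    have hAc := hhc A hA
    have b1 : ⁅A, w₁⁆ = 0 := by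
      refine hhW _ ?_ (D.hWW A hA w₁ hw₁)
      have h3 := hbr1 A hAc 0 (by rw [hρ, zero_smul])
      rw [mul_zero, zero_smul, d1, lie_add] at h3
      rw [eq_neg_of_add_eq_zero_right h3]
      exact h.neg_mem (D.hh A hA A₁ hA₁)
    have b2 : ⁅A, w₂⁆ = 0 := by
      refine hhW _ ?_ (D.hWW A hA w₂ hw₂)
      have h3 := hbr2 A hAc 0 (by rw [hρ, zero_smul])
      rw [mul_zero, zero_smul, d2, lie_add] at h3
      rw [eq_neg_of_add_eq_zero_right h3]
      exact h.neg_mem (D.hh A hA A₂ hA₂)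
    obtain ⟨e, heW, hee, hea, heb, hsp⟩ := NI2x.w3 B W D.dimW Bpos w₁ w₂ hw₁ hw₂ hwli
    have b3 : ⁅A, e⁆ = 0 := by
      have hm := D.hWW A hA e heW
      by_contra hne
      have hpos := Bpos _ hm hne
      obtain ⟨s, t, r, hst⟩ := hsp _ hm
      have c1 : B ⁅A, e⁆ w₁ = 0 := by
        have := D.model.inv A (hhk A hA) e w₁
        rw [b1, map_zero, add_zero] at this
        exact this
      have c2 : B ⁅A, e⁆ w₂ = 0 := by
        have := D.model.inv A (hhk A hA) e w₂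
        rw [b2, map_zero, add_zero] at this
        exact this
      have c3 : B ⁅A, e⁆ e = 0 := by
        have := D.model.inv A (hhk A hA) e e
        rw [D.model.symm e ⁅A, e⁆] at this
        linarith
      have c4 : B ⁅A, e⁆ ⁅A, e⁆ = 0 := by
        conv_lhs => rw [hst]
        rw [D.model.symm, map_add, map_add, map_smul, map_smul, map_smul]
        rw [hst] at c1 c2 c3
        rw [c1, c2, c3]
        simp
      linarith
    have b4 : ∀ w ∈ W, ⁅A, w⁆ = 0 := by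
      intro w hw
      obtain ⟨s, t, r, rfl⟩ := hsp w hw
      rw [lie_add, lie_add, lie_smul, lie_smul, lie_smul, b1, b2, b3]
      simp
    refine D.effp A (hhk A hA) fun X => ?_
    obtain ⟨a, x, C, hC, rfl⟩ := D.dec X
    obtain ⟨A', hA', w, hw, rfl⟩ := hcd C hC
    rw [lie_add, lie_add, lie_add, D.cE A hAc, hρ, mul_zero, map_zero, neg_zero, b4 w hw,
      ← lie_skew, D.σc a A hAc, neg_zero, add_zero, zero_add, add_zero]
    exact hhk _ (D.hh A hA A' hA')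
  -- `(4), (5)`: the third vector
  have main : ∃ X₁ ∈ c, B X₁ X₁ = 1 ∧ B X₁ t₁ = 0 ∧ B X₁ t₂ = 0 ∧ ρ X₁ = 0 := by
    by_cases hh0 : ∀ A ∈ h, A = 0
    · have hcW : ∀ C ∈ c, C ∈ W := by
        intro C hC
        obtain ⟨A, hA, w, hw, rfl⟩ := hcd C hC
        rw [hh0 A hA, zero_add]
        exact hw
      obtain ⟨e, heW, hee, hea, heb, hsp⟩ := NI2x.w3 B W D.dimW Bpos t₁ t₂
        (hcW _ hc1) (hcW _ hc2) htli
      have hgo : ∀ w ∈ W, ∀ w' ∈ W, B ⁅w', w⁆ w = 0 := by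
        intro w hw w' hw'
        obtain ⟨A, hA, hh⟩ := D.go w hw
        rw [hh w' hw', hh0 A hA, zero_lie, map_zero, LinearMap.zero_apply]
      have hpol : ∀ w ∈ W, ∀ x ∈ W, ∀ y ∈ W, B ⁅w, x⁆ y = - B ⁅w, y⁆ x := by
        intro w hw x hx y hy
        have h3 := hgo (x + y) (W.add_mem hx hy) w hw
        rw [lie_add, map_add, map_add, LinearMap.add_apply, LinearMap.add_apply, hgo x hx w hw,
          hgo y hy w hw] at h3
        linarith
      obtain ⟨r, hr⟩ := hrc e (hWc e heW)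
      have hte : ⁅t₁, e⁆ = 0 := by
        have hm : ⁅t₁, e⁆ ∈ W := hcW _ (D.cc _ hc1 _ (hWc e heW))
        by_contra hne
        have hpos := Bpos _ hm hne
        have c1 : B ⁅t₁, e⁆ t₁ = 0 := by
          rw [hpol _ (hcW _ hc1) e heW _ (hcW _ hc1), lie_self, map_zero, LinearMap.zero_apply,
            neg_zero]
        have c2 : B ⁅t₁, e⁆ t₂ = 0 := by
          rw [hpol _ (hcW _ hc1) e heW _ (hcW _ hc2), h12, map_zero, LinearMap.zero_apply,
            neg_zero]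
        have c3 : B ⁅t₁, e⁆ e = 0 := hgo e heW _ (hcW _ hc1)
        obtain ⟨s, t, r, hst⟩ := hsp _ hm
        have c4 : B ⁅t₁, e⁆ ⁅t₁, e⁆ = 0 := by
          conv_lhs => rw [hst]
          rw [D.model.symm, map_add, map_add, map_smul, map_smul, map_smul]
          rw [hst] at c1 c2 c3
          rw [c1, c2, c3]
          simp
        linarith
      have hr0 : r = 0 := by
        have h3 := hbr1 e (hWc e heW) r hr
        rw [← lie_skew, hte, neg_zero] at h3
        have h4 := htli 0 (2 * r) (by rw [← h3]; simp)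
        linarith [h4.2]
      refine ⟨e, hWc e heW, hee, hea, heb, ?_⟩
      rw [hr, hr0, zero_smul]
    · push Not at hh0
      obtain ⟨A, hA, hA0⟩ := hh0
      obtain ⟨r, hr⟩ := hrc A (hhc A hA)
      have hr0 : r ≠ 0 := by
        intro h3
        exact hA0 (h30 A hA (by rw [hr, h3, zero_smul]))
      have hline : ∀ A' ∈ h, ∃ s : ℝ, A' = s • A := by
        intro A' hA'
        obtain ⟨r', hr'⟩ := hrc A' (hhc A' hA')
        refine ⟨r' / r, sub_eq_zero.1 (h30 _ (h.sub_mem hA' (h.smul_mem _ hA)) ?_)⟩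
        rw [map_sub, map_smul, hr, hr', smul_smul, div_mul_cancel₀ _ hr0, sub_self]
      have hW1 : t₂ ∈ W := by
        have h3 := hbr1 A (hhc A hA) r hr
        obtain ⟨s, hs⟩ := hline A₁ hA₁
        have h4 : (2 * r) • t₂ ∈ W := by
          rw [← h3, d1, lie_add, hs, lie_smul, lie_self, smul_zero, zero_add]
          exact D.hWW A hA w₁ hw₁
        exact (W.smul_mem_iff (mul_ne_zero two_ne_zero hr0)).1 h4
      have hW2 : t₁ ∈ W := by
        have h3 := hbr2 A (hhc A hA) r hr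
        obtain ⟨s, hs⟩ := hline A₂ hA₂
        have h4 : (-2 * r) • t₁ ∈ W := by
          rw [← h3, d2, lie_add, hs, lie_smul, lie_self, smul_zero, zero_add]
          exact D.hWW A hA w₂ hw₂
        exact (W.smul_mem_iff (mul_ne_zero (by norm_num) hr0)).1 h4
      obtain ⟨e, heW, hee, hea, heb, hsp⟩ := NI2x.w3 B W D.dimW Bpos t₁ t₂
        hW2 hW1 htli
      obtain ⟨r', hr'⟩ := hrc e (hWc e heW)
      have hz : ∀ X, B A X = 0 := D.model.ker A (hhk A hA)
      refine ⟨e - (r' / r) • A, c.sub_mem (hWc e heW) (c.smul_mem _ (hhc A hA)), ?_, ?_, ?_, ?_⟩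
      · rw [map_sub, map_sub, map_smul, map_smul, LinearMap.sub_apply, LinearMap.sub_apply,
          LinearMap.smul_apply, LinearMap.smul_apply, hz, hz, D.model.symm e A, hz, hee]
        simp
      · rw [map_sub, map_smul, LinearMap.sub_apply, LinearMap.smul_apply, hz, hea]
        simp
      · rw [map_sub, map_smul, LinearMap.sub_apply, LinearMap.smul_apply, hz, heb]
        simp
      · rw [map_sub, map_smul, hr, hr', smul_smul, div_mul_cancel₀ _ hr0, sub_self]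
  obtain ⟨X₁, hXc, hXX, hX1, hX2, hXρ⟩ := main
  have hXt1 : ⁅X₁, t₁⁆ = 0 := by
    rw [hbr1 X₁ hXc 0 (by rw [hXρ, zero_smul]), mul_zero, zero_smul]
  have hXt2 : ⁅X₁, t₂⁆ = 0 := by
    rw [hbr2 X₁ hXc 0 (by rw [hXρ, zero_smul]), mul_zero, zero_smul]
  have hpos : ∀ s t : ℝ, s • t₁ + t • t₂ ≠ 0 → 0 < B (s • t₁ + t • t₂) (s • t₁ + t • t₂) := by
    intro s t hne
    refine D.model.pos _ fun hk => hne (hth s t (hck _ ?_ hk))
    exact c.add_mem (c.smul_mem _ hc1) (c.smul_mem _ hc2)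
  obtain ⟨x, y, hxx, hxy, hyy, ⟨a1, hx⟩, ⟨a2, b2, hy⟩, ⟨a3, h3⟩, ⟨a4, b4, h4⟩⟩ :=
    NI2x.gs B t₁ t₂ hpos htli
  have hxc : x ∈ c := hx ▸ c.smul_mem _ hc1
  have hyc : y ∈ c := hy ▸ c.add_mem (c.smul_mem _ hc1) (c.smul_mem _ hc2)
  have hXx : B X₁ x = 0 := by rw [hx, map_smul, hX1, smul_zero]
  have hXy : B X₁ y = 0 := by rw [hy, map_add, map_smul, map_smul, hX1, hX2, smul_zero, smul_zero,
    add_zero]
  have lXx : ⁅X₁, x⁆ = 0 := by rw [hx, lie_smul, hXt1, smul_zero]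
  have lXy : ⁅X₁, y⁆ = 0 := by rw [hy, lie_add, lie_smul, lie_smul, hXt1, hXt2, smul_zero,
    smul_zero, add_zero]
  have lxy : ⁅x, y⁆ = 0 := by
    rw [hx, hy, lie_add, lie_smul, lie_smul, smul_lie, smul_lie, lie_self, h12]
    simp
  have sk : ∀ X Y : g, ⁅X, Y⁆ = 0 → ⁅Y, X⁆ = 0 := by
    intro X Y hXY
    rw [← lie_skew, hXY, neg_zero]
  refine h2 g k B c h W σ E τ ρ lam D hlam ![x, y, X₁] ?_ ?_ ?_ ?_ ?_
  · intro i
    fin_cases i
    · exact hxc
    · exact hyc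
    · exact hXc
  · intro i j
    fin_cases i <;> fin_cases j
    · exact hxx
    · exact hxy
    · exact (D.model.symm _ _).trans hXx
    · exact (D.model.symm _ _).trans hxy
    · exact hyy
    · exact (D.model.symm _ _).trans hXy
    · exact hXx
    · exact hXy
    · exact hXX
  · intro i
    fin_cases i
    · change ρ x = 0
      rw [hx, map_smul, hρ1, smul_zero]
    · change ρ y = 0
      rw [hy, map_add, map_smul, map_smul, hρ1, hρ2, smul_zero, smul_zero, add_zero]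
    · exact hXρ
  · intro i j
    fin_cases i <;> fin_cases j
    · exact lie_self x
    · exact lxy
    · exact sk _ _ lXx
    · exact sk _ _ lxy
    · exact lie_self y
    · exact sk _ _ lXy
    · exact lXx
    · exact lXy
    · exact lie_self X₁
  · intro z
    obtain ⟨a, b, hz⟩ := hspan z
    have m1 : x ∈ Submodule.span ℝ (Set.range ![x, y, X₁]) := Submodule.subset_span ⟨0, rfl⟩
    have m2 : y ∈ Submodule.span ℝ (Set.range ![x, y, X₁]) := Submodule.subset_span ⟨1, rfl⟩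
    rw [hz]
    refine Submodule.add_mem _ (Submodule.smul_mem _ _ ?_) (Submodule.smul_mem _ _ ?_)
    · rw [h3]
      exact Submodule.smul_mem _ _ m1
    · rw [h4]
      exact Submodule.add_mem _ (Submodule.smul_mem _ _ m1) (Submodule.smul_mem _ _ m2)

end GOS
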