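import Pool.Agent.GOS.StC

/-!
# Module NI3: `τ` injective on the imaginary quaternions
-/

namespace GOS

open scoped InnerProductSpace Quaternion

namespace NI3aux

/-- A subspace on which `B` is positive definite has a `B`-orthonormal basis. -/
theorem onb {g : Type} [AddCommGroup g] [Module ℝ g] [FiniteDimensional ℝ g]
    (B : g →ₗ[ℝ] g →ₗ[ℝ] ℝ) (hs : ∀ X Y, B X Y = B Y X) (V : Submodule ℝ g)
    (hp : ∀ X ∈ V, X ≠ 0 → 0 < B X X) (n : ℕ) (hn : Module.finrank ℝ V = n) :
    ∃ v : Fin n → g, (∀ i, v i ∈ V) ∧ (∀ i j, B (v i) (v j) = if i = j then 1 else 0) ∧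
      V ≤ Submodule.span ℝ (Set.range v) := by
  let core : InnerProductSpace.Core ℝ V :=
    { inner := fun x y => B x y
      conj_inner_symm := fun x y => hs y x
      re_inner_nonneg := fun x => by
        by_cases h : x = 0
        · subst h
          change (0 : ℝ) ≤ B ((0 : V) : g) ((0 : V) : g)
          rw [Submodule.coe_zero, map_zero]
        · exact (hp x x.2 (fun h' => h (Subtype.ext h'))).le
      add_left := fun x y z => by
        change B ((x : g) + y) z = B x z + B y z
        rw [map_add, LinearMap.add_apply]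
      smul_left := fun x y r => by
        change B (r • (x : g)) y = r * B x y
        rw [map_smul, LinearMap.smul_apply, smul_eq_mul]
      definite := fun x h => by
        by_contra hx
        exact absurd h (hp x x.2 (fun h' => hx (Subtype.ext h'))).ne' }
  let _ : NormedAddCommGroup V := core.toNormedAddCommGroup
  let _ : InnerProductSpace ℝ V := InnerProductSpace.ofCore core.toCore
  let b := (stdOrthonormalBasis ℝ V).reindex (finCongr hn)
  refine ⟨fun i => (b i : g), fun i => (b i).2, fun i j => ?_, fun X hX => ?_⟩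
  · exact orthonormal_iff_ite.1 b.orthonormal i j
  · have h := b.sum_repr ⟨X, hX⟩
    have h' : ∑ i, b.repr ⟨X, hX⟩ i • (b i : g) = X := by
      have h2 := congrArg (Submodule.subtype V) h
      rw [map_sum] at h2
      simpa using h2
    rw [← h']
    exact Submodule.sum_mem _ fun i _ =>
      Submodule.smul_mem _ _ (Submodule.subset_span (Set.mem_range_self i))

/-- the coordinates of the imaginary quaternions -/
def iota : (Fin 3 → ℝ) →ₗ[ℝ] ℍ where
  toFun := fun a => ⟨0, a 0, a 1, a 2⟩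
  map_add' := by
    intro a b
    apply Quaternion.ext
    · exact (zero_add (0 : ℝ)).symm
    · rfl
    · rfl
    · rfl
  map_smul' := by
    intro t b
    apply Quaternion.ext
    · exact (mul_zero t).symm
    · rfl
    · rfl
    · rfl

theorem iota_re (a : Fin 3 → ℝ) : (iota a).re = 0 := rfl

theorem iota_inj (a : Fin 3 → ℝ) (h : iota a = 0) : a = 0 := by
  have h1 : (iota a).imI = 0 := by rw [h]; rfl
  have h2 : (iota a).imJ = 0 := by rw [h]; rfl
  have h3 : (iota a).imK = 0 := by rw [h]; rfl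
  funext i
  fin_cases i
  · exact h1
  · exact h2
  · exact h3

theorem eq_iota (p : ℍ) : p = p.re • (1 : ℍ) + iota ![p.imI, p.imJ, p.imK] := by
  apply Quaternion.ext
  · change p.re = p.re * 1 + 0
    ring
  · change p.imI = p.re * 0 + p.imI
    ring
  · change p.imJ = p.re * 0 + p.imJ
    ring
  · change p.imK = p.re * 0 + p.imK
    ring

end NI3aux

open NI3aux

theorem thm_NI3 (h1 : St_VH0) (h2 : St_NI0) : St_NI3 := by
  intro g _ _ _ k B c h W σ E τ ρ lam hQ hlam hρ hinj
  have hV : ∀ p, τ p ∈ LinearMap.range (τ ∘ₗ iota) := by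
    intro p
    refine ⟨![p.imI, p.imJ, p.imK], ?_⟩
    conv_rhs => rw [eq_iota p, map_add, map_smul, hQ.τ1, smul_zero, zero_add]
    rfl
  have hfr : Module.finrank ℝ (LinearMap.range (τ ∘ₗ iota)) = 3 := by
    rw [LinearMap.finrank_range_of_inj]
    · simp
    · rw [← LinearMap.ker_eq_bot, LinearMap.ker_eq_bot']
      intro a ha
      exact iota_inj a (hinj _ (iota_re a) ha)
  have hpos : ∀ X ∈ LinearMap.range (τ ∘ₗ iota), X ≠ 0 → 0 < B X X := by
    rintro X ⟨a, rfl⟩ hX
    refine hQ.model.pos _ fun hk => hX ?_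
    have hk' : (τ ∘ₗ iota) a ∈ k.toSubmodule := hk
    rw [hQ.kdec, Submodule.mem_sup] at hk'
    obtain ⟨_, ⟨s, rfl⟩, A, hA, hs⟩ := hk'
    have hAc : A ∈ c := by
      rw [hQ.chW]
      exact Submodule.mem_sup_left hA
    have h3 : σ s + E 0 + (A - (τ ∘ₗ iota) a) = 0 := by
      rw [← hs, map_zero]; abel
    obtain ⟨-, -, h4⟩ := hQ.ind s 0 _ (c.sub_mem hAc (hQ.τc _)) h3
    have h5 : τ (iota a) ∈ h := by
      have h6 : (τ ∘ₗ iota) a = A := (sub_eq_zero.1 h4).symm
      change (τ ∘ₗ iota) a ∈ h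
      rw [h6]; exact hA
    exact h1 g k B c h W σ E τ ρ lam hQ hρ _ h5
  obtain ⟨v, hv1, hv2, hv3⟩ := onb B hQ.model.symm _ hpos 3 hfr
  refine h2 g k B c h W σ E τ ρ lam hQ hlam v ?_ hv2 ?_ ?_ (fun p => hv3 (hV p))
  · intro i
    obtain ⟨a, ha⟩ := hv1 i
    rw [← ha]
    exact hQ.τc _
  · intro i
    obtain ⟨a, ha⟩ := hv1 i
    rw [← ha]
    exact hρ _
  · intro i j
    obtain ⟨a, ha⟩ := hv1 i
    obtain ⟨b, hb⟩ := hv1 j
    rw [← ha, ← hb]
    change ⁅τ (iota a), τ (iota b)⁆ = 0
    rw [hQ.cτ _ (hQ.τc _) _ (iota_re b), hρ, zero_mul, mul_zero, sub_zero, map_zero]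

end GOS
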