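import Pool.Agent.GOS.StC

/-!
# Module QB1: from the first to the second form of the quaternionic data
-/

namespace GOS

open scoped InnerProductSpace Quaternion

namespace QB1

theorem im_comm (x y : ℍ) : (x.im * y.im - y.im * x.im).im = x.im * y.im - y.im * x.im := by
  ext <;> simp
  ring

/-- the unit `i` -/
def qi : ℍ := ⟨0, 1, 0, 0⟩

/-- the unit `j` -/
def qj : ℍ := ⟨0, 0, 1, 0⟩

theorem qi_im : qi.im = qi := by ext <;> simp [qi]

theorem qi_sq : qi * qi = -1 := by ext <;> simp [qi]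

theorem comm_zero (a : ℍ) (h : ∀ b : ℍ, b.im * a.im - a.im * b.im = 0) : a.im = 0 := by
  have h1 := h qi
  have h2 := h qj
  have e1 := congrArg (fun z : ℍ => z.imJ) h1
  have e2 := congrArg (fun z : ℍ => z.imK) h1
  have e3 := congrArg (fun z : ℍ => z.imK) h2
  simp [qi, qj] at e1 e2 e3
  ext <;> simp <;> linarith

theorem i_part (a : ℍ) (h : (qi * (qi * a.im - a.im * qi) - (qi * a.im - a.im * qi) * qi
    + a.im).im = 0) : a.im = 0 := by
  have e1 := congrArg (fun z : ℍ => z.imI) h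
  have e2 := congrArg (fun z : ℍ => z.imJ) h
  have e3 := congrArg (fun z : ℍ => z.imK) h
  simp [qi] at e1 e2 e3
  ext <;> simp <;> linarith

variable {g : Type} [LieRing g] [LieAlgebra ℝ g] {k : LieSubalgebra ℝ g}
  {B : g →ₗ[ℝ] g →ₗ[ℝ] ℝ} {W : Submodule ℝ g} {σ E : ℍ →ₗ[ℝ] g}

theorem E_inj (hq : QA k B W σ E) : Function.Injective E := by
  rw [← LinearMap.ker_eq_bot, LinearMap.ker_eq_bot']
  intro x hx
  have h := hq.EE x x
  rw [hx, map_zero] at h
  exact inner_self_eq_zero.1 h.symm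

theorem uniq (he : EffP k) (hq : QA k B W σ E) {X : g} (hX : X ∈ k) (h0 : ∀ x, ⁅X, E x⁆ = 0)
    (h1 : ∀ w ∈ W, ⁅X, w⁆ = 0) : X = 0 := by
  refine he X hX fun Y => ?_
  have hY : Y ∈ k.toSubmodule ⊔ (LinearMap.range E ⊔ W) := by
    rw [hq.compl.sup_eq_top]; exact Submodule.mem_top
  obtain ⟨c, hc, d, hd, rfl⟩ := Submodule.mem_sup.1 hY
  obtain ⟨e, ⟨x, rfl⟩, w, hw, rfl⟩ := Submodule.mem_sup.1 hd
  rw [lie_add, lie_add, h0, h1 w hw, add_zero, add_zero]
  exact k.lie_mem hX hc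

theorem σσ (he : EffP k) (hq : QA k B W σ E) (a b : ℍ) :
    ⁅σ a, σ b⁆ = σ (a.im * b.im - b.im * a.im) := by
  refine sub_eq_zero.1 (uniq he hq (k.sub_mem (k.lie_mem (hq.σk a) (hq.σk b)) (hq.σk _)) ?_ ?_)
  · intro x
    rw [sub_lie, lie_lie, hq.σE, hq.σE, hq.σE, hq.σE, hq.σE, im_comm, ← map_sub, ← map_sub]
    rw [show a.im * (b.im * x) - b.im * (a.im * x) - (a.im * b.im - b.im * a.im) * x = 0 by
      simp only [sub_mul, mul_assoc, sub_self]]
    exact map_zero E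
  · intro w hw
    rw [sub_lie, lie_lie, hq.σW _ _ hw, hq.σW _ _ hw, hq.σW _ _ hw]
    simp

theorem σim (hq : QA k B W σ E) (a : ℍ) : σ a = σ a.im := by
  have h : a = a.re • (1 : ℍ) + a.im := by
    ext <;> simp
  conv_lhs => rw [h]
  rw [map_add, map_smul, hq.σ1, smul_zero, zero_add]

theorem σzero (hq : QA k B W σ E) (a : ℍ) (h : σ a = 0) : a.im = 0 := by
  have h1 := hq.σE a 1
  rw [h, zero_lie, mul_one] at h1
  exact E_inj hq (by rw [← h1, map_zero])

end QB1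

open QB1 in
theorem thm_QB1 (h1 : St_SK4) : St_QB1 := by
  intro g _ _ _ k B hM he W σ E hq
  have hEi := E_inj hq
  obtain ⟨π, hπ0⟩ := LinearMap.exists_leftInverse_of_injective E (LinearMap.ker_eq_bot.2 hEi)
  have hπ : ∀ x, π (E x) = x := fun x => by
    have := congrArg (fun f => f x) hπ0
    simpa using this
  -- the subspaces
  let h : Submodule ℝ g :=
    { carrier := {A | A ∈ k ∧ ∀ a, ⁅σ a, A⁆ = 0}
      add_mem' := by
        rintro A C ⟨hA, hA'⟩ ⟨hC, hC'⟩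
        exact ⟨k.add_mem hA hC, fun a => by rw [lie_add, hA', hC', add_zero]⟩
      zero_mem' := ⟨k.zero_mem, fun a => lie_zero _⟩
      smul_mem' := by
        rintro r A ⟨hA, hA'⟩
        exact ⟨k.smul_mem r hA, fun a => by rw [lie_smul, hA', smul_zero]⟩ }
  let c : Submodule ℝ g :=
    { carrier := {C | ∀ a, ⁅σ a, C⁆ = 0}
      add_mem' := by
        rintro A C hA' hC' a
        rw [lie_add, hA', hC', add_zero]
      zero_mem' := fun a => lie_zero _
      smul_mem' := by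
        rintro r A hA' a
        rw [lie_smul, hA', smul_zero] }
  have mem_h : ∀ A, A ∈ h ↔ A ∈ k ∧ ∀ a, ⁅σ a, A⁆ = 0 := fun A => Iff.rfl
  have mem_c : ∀ A, A ∈ c ↔ ∀ a, ⁅σ a, A⁆ = 0 := fun A => Iff.rfl
  have hhc : ∀ A ∈ h, A ∈ c := fun A hA => hA.2
  have hWc : ∀ w ∈ W, w ∈ c := fun w hw a => hq.σW a w hw
  have hdisj : ∀ A ∈ k, ∀ X ∈ LinearMap.range E ⊔ W, A + X = 0 → A = 0 ∧ X = 0 := by
    intro A hA X hX hAX
    have hA' : A = -X := eq_neg_of_add_eq_zero_left hAX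
    have h2 : A ∈ k.toSubmodule ⊓ (LinearMap.range E ⊔ W) := by
      refine ⟨hA, ?_⟩
      rw [hA']
      exact Submodule.neg_mem _ hX
    rw [hq.compl.inf_eq_bot] at h2
    have h3 : A = 0 := (Submodule.mem_bot ℝ).1 h2
    refine ⟨h3, ?_⟩
    rw [h3, zero_add] at hAX
    exact hAX
  have hErange : ∀ x, E x ∈ LinearMap.range E ⊔ W := fun x =>
    Submodule.mem_sup_left ⟨x, rfl⟩
  have hWrange : ∀ w ∈ W, w ∈ LinearMap.range E ⊔ W := fun w hw => Submodule.mem_sup_right hw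
  -- the decomposition of k
  have hk : ∀ A ∈ k, ∃ p : ℍ, A - σ p ∈ h := by
    intro A hA
    let T : ℍ →ₗ[ℝ] ℍ := π ∘ₗ (LieAlgebra.ad ℝ g A) ∘ₗ E
    have hT : ∀ x, E (T x) = ⁅A, E x⁆ := by
      intro x
      obtain ⟨y, hy⟩ := hq.kE A hA x
      have : T x = π ⁅A, E x⁆ := rfl
      rw [this, hy, hπ]
    have hE4 : Emb4 (⊤ : Submodule ℝ ℍ) (LinearMap.id : ℍ →ₗ[ℝ] ℍ) :=
      ⟨fun z w => rfl, LinearMap.range_id⟩
    have hfr : Module.finrank ℝ (⊤ : Submodule ℝ ℍ) = 4 := by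
      rw [finrank_top]; exact Quaternion.finrank_eq_four
    obtain ⟨p, q, hp, hq0, hpq⟩ := (h1 ℍ ⊤ hfr).2 LinearMap.id T hE4
      (fun x _ => Submodule.mem_top) (fun x _ y _ => by
        rw [← hq.EE, ← hq.EE, hT, hT]
        have := hM.inv A hA (E x) (E y)
        linarith)
    have hpim : p.im = p := by
      ext <;> simp [hp]
    have hact : ∀ x, ⁅A - σ p, E x⁆ = - E (x * q) := by
      intro x
      rw [sub_lie, ← hT, hq.σE, hpim]
      have h2 : T x = p * x - x * q := by simpa using hpq x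
      rw [h2, map_sub]
      abel
    refine ⟨p, (mem_h _).2 ⟨k.sub_mem hA (hq.σk p), fun a => ?_⟩⟩
    refine uniq he hq (k.lie_mem (hq.σk a) (k.sub_mem hA (hq.σk p))) ?_ ?_
    · intro x
      rw [lie_lie, hact, lie_neg, hq.σE, hq.σE, hact, mul_assoc]
      abel
    · intro w hw
      have h3 : ⁅A - σ p, w⁆ ∈ W := by
        rw [sub_lie, hq.σW _ _ hw, sub_zero]
        exact hq.kW A hA w hw
      rw [lie_lie, hq.σW _ _ h3, hq.σW _ _ hw, lie_zero, sub_zero]
  have dec0 : ∀ X : g, ∃ a x : ℍ, ∃ A ∈ h, ∃ w ∈ W, X = σ a + E x + (A + w) := by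
    intro X
    have hY : X ∈ k.toSubmodule ⊔ (LinearMap.range E ⊔ W) := by
      rw [hq.compl.sup_eq_top]; exact Submodule.mem_top
    obtain ⟨A, hA, d, hd, rfl⟩ := Submodule.mem_sup.1 hY
    obtain ⟨e, ⟨x, rfl⟩, w, hw, rfl⟩ := Submodule.mem_sup.1 hd
    obtain ⟨p, hp⟩ := hk A hA
    exact ⟨p, x, A - σ p, hp, w, hw, by abel⟩
  have ind : ∀ a x : ℍ, ∀ C ∈ c, σ a + E x + C = 0 → a.im = 0 ∧ x = 0 ∧ C = 0 := by
    intro a x C hC h0
    have hb : ∀ b : ℍ, σ (b.im * a.im - a.im * b.im) = 0 ∧ E (b.im * x) = 0 := by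
      intro b
      have h2 : ⁅σ b, σ a + E x + C⁆ = 0 := by rw [h0, lie_zero]
      rw [lie_add, lie_add, (mem_c C).1 hC, add_zero, σσ he hq, hq.σE] at h2
      exact hdisj _ (hq.σk _) _ (hErange _) h2
    have ha : a.im = 0 := by
      refine comm_zero a fun b => ?_
      have h3 := σzero hq _ (hb b).1
      rw [im_comm] at h3
      exact h3
    have hx : x = 0 := by
      have h3 := (hb qi).2
      have h4 : qi.im * x = 0 := hEi (by rw [h3, map_zero])
      rw [qi_im] at h4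
      have h5 : qi * (qi * x) = 0 := by rw [h4, mul_zero]
      rw [← mul_assoc, qi_sq] at h5
      simpa using h5
    refine ⟨ha, hx, ?_⟩
    rw [σim hq a, ha, hx, map_zero, map_zero, zero_add, zero_add] at h0
    exact h0
  -- the action of c on the range of E
  have hcE0 : ∀ C ∈ c, ∀ x, ∃ y, ⁅C, E x⁆ = E y := by
    intro C hC x
    obtain ⟨a, y, A, hA, w, hw, hX⟩ := dec0 ⁅C, E x⁆
    have hAw : A + w ∈ c := c.add_mem (hhc A hA) (hWc w hw)
    have hcomm : ∀ Y : g, ⁅σ qi, ⁅C, Y⁆⁆ = ⁅C, ⁅σ qi, Y⁆⁆ := by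
      intro Y
      rw [leibniz_lie (σ qi) C Y, (mem_c C).1 hC, zero_lie, zero_add]
    have h2 : ⁅σ qi, ⁅σ qi, ⁅C, E x⁆⁆⁆ = - ⁅C, E x⁆ := by
      rw [hcomm, hcomm, hq.σE, hq.σE, qi_im, ← mul_assoc, qi_sq, neg_one_mul, map_neg, lie_neg]
    have h3 : ⁅σ qi, ⁅σ qi, ⁅C, E x⁆⁆⁆
        = σ (qi * (qi * a.im - a.im * qi) - (qi * a.im - a.im * qi) * qi) - E y := by
      have h5 : (qi * a.im - a.im * qi).im = qi * a.im - a.im * qi := by
        have := im_comm qi a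
        rw [qi_im] at this
        exact this
      have h7 : ⁅σ qi, ⁅C, E x⁆⁆ = σ (qi * a.im - a.im * qi) + E (qi * y) := by
        rw [hX, lie_add, (mem_c _).1 hAw, add_zero, lie_add, σσ he hq, hq.σE, qi_im]
      rw [h7, lie_add, σσ he hq, hq.σE, qi_im, h5, ← mul_assoc qi qi y, qi_sq, neg_one_mul,
        map_neg]
      abel
    have h4 : σ (qi * (qi * a.im - a.im * qi) - (qi * a.im - a.im * qi) * qi + a.im) + E 0
        + (A + w) = 0 := by
      rw [h2, hX, σim hq a] at h3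
      rw [map_add, map_zero, add_zero]
      have h6 : σ (qi * (qi * a.im - a.im * qi) - (qi * a.im - a.im * qi) * qi)
          = -(σ a.im + E y + (A + w)) + E y := by
        rw [h3]; abel
      rw [h6]; abel
    obtain ⟨ha, _, hAw0⟩ := ind _ _ _ hAw h4
    have ha' := i_part a ha
    refine ⟨y, ?_⟩
    rw [hX, hAw0, σim hq a, ha', map_zero, zero_add, add_zero]
  let ρ : g →ₗ[ℝ] ℍ := π ∘ₗ (LieAlgebra.ad ℝ g (E 1))
  have hcE : ∀ C ∈ c, ∀ x, ⁅C, E x⁆ = - E (x * ρ C) := by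
    intro C hC x
    let T : ℍ →ₗ[ℝ] ℍ := π ∘ₗ (LieAlgebra.ad ℝ g C) ∘ₗ E
    have hT : ∀ x, E (T x) = ⁅C, E x⁆ := by
      intro x
      obtain ⟨y, hy⟩ := hcE0 C hC x
      have : T x = π ⁅C, E x⁆ := rfl
      rw [this, hy, hπ]
    have hTa : ∀ a x : ℍ, T (a.im * x) = a.im * T x := by
      intro a x
      refine hEi ?_
      rw [hT, ← hq.σE, ← hq.σE, hT, leibniz_lie (σ a) C (E x), (mem_c C).1 hC, zero_lie, zero_add]
    have hρ : ρ C = - T 1 := by
      have h3 : ρ C = π ⁅E 1, C⁆ := rfl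
      have h4 : T 1 = π ⁅C, E 1⁆ := rfl
      rw [h3, h4, ← lie_skew, map_neg]
    have hTx : T x = x * T 1 := by
      have h3 : x = x.re • (1 : ℍ) + x.im * 1 := by
        ext <;> simp
      have h5 : T x = x.re • T 1 + x.im * T 1 := by
        conv_lhs => rw [h3]
        rw [map_add, map_smul, hTa]
      rw [h5]
      conv_rhs => rw [h3]
      rw [add_mul, smul_mul_assoc, one_mul, mul_one]
    rw [hρ, mul_neg, map_neg, neg_neg, ← hTx, hT]
  have chW : c = h ⊔ W := by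
    refine le_antisymm ?_ (sup_le hhc hWc)
    intro C hC
    obtain ⟨a, x, A, hA, w, hw, hX⟩ := dec0 C
    have hAw : A + w ∈ c := c.add_mem (hhc A hA) (hWc w hw)
    have h3 : σ a + E x + (A + w - C) = 0 := by
      rw [hX]; abel
    have h4 := (ind _ _ _ (c.sub_mem hAw hC) h3).2.2
    rw [← sub_eq_zero.1 h4]
    exact Submodule.add_mem_sup hA hw
  refine ⟨c, h, ρ, ?_⟩
  refine
    { σ1 := hq.σ1
      dec := ?_
      ind := ind
      chW := chW
      hW0 := ?_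
      kdec := ?_
      dimW := hq.dimW
      σσ := σσ he hq
      σE := hq.σE
      σc := fun a C hC => hC a
      cc := ?_
      hh := ?_
      hWW := fun A hA w hw => hq.kW A hA.1 w hw
      cE := hcE
      BEE := hq.EE
      BEc := ?_ }
  · intro X
    obtain ⟨a, x, A, hA, w, hw, hX⟩ := dec0 X
    exact ⟨a, x, A + w, c.add_mem (hhc A hA) (hWc w hw), hX⟩
  · rw [Submodule.disjoint_def]
    intro X hX hXW
    have := hdisj X hX.1 (-X) (Submodule.neg_mem _ (hWrange X hXW)) (add_neg_cancel X)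
    exact this.1
  · refine le_antisymm ?_ (sup_le ?_ ?_)
    · intro A hA
      obtain ⟨p, hp⟩ := hk A hA
      refine Submodule.mem_sup.2 ⟨σ p, ⟨p, rfl⟩, A - σ p, hp, by abel⟩
    · rintro _ ⟨a, rfl⟩
      exact hq.σk a
    · exact fun A hA => hA.1
  · intro C hC C' hC' a
    rw [leibniz_lie, (mem_c C).1 hC, (mem_c C').1 hC', zero_lie, lie_zero, add_zero]
  · intro A hA A' hA'
    refine ⟨k.lie_mem hA.1 hA'.1, fun a => ?_⟩
    rw [leibniz_lie, hA.2, hA'.2, zero_lie, lie_zero, add_zero]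
  · intro x C hC
    rw [chW] at hC
    obtain ⟨A, hA, w, hw, rfl⟩ := Submodule.mem_sup.1 hC
    rw [map_add, hq.EW x w hw, hM.symm, hM.ker A hA.1, add_zero]

end GOS
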