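import Pool.Agent.GOS.StC

/-!
# GOS [QB2]: the brackets of the quaternionic part (helper25)
-/

set_option autoImplicit false

namespace GOS

open scoped InnerProductSpace Quaternion

namespace QB2x

/-- `i` -/
def qi : ℍ := ⟨0, 1, 0, 0⟩
/-- `j` -/
def qj : ℍ := ⟨0, 0, 1, 0⟩
/-- `k` -/
def qk : ℍ := ⟨0, 0, 0, 1⟩

lemma im_of_re {a : ℍ} (ha : a.re = 0) : a.im = a := by
  ext <;> simp [ha]

lemma dec_im (z : ℍ) : z = z.re • (1 : ℍ) + z.im := by
  ext <;> simp

lemma dec3 (a : ℍ) (ha : a.re = 0) : a = a.imI • qi + a.imJ • qj + a.imK • qk := by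
  ext
  · simp [qi, qj, qk, ha]
  · simp [qi, qj, qk]
  · simp [qi, qj, qk]
  · simp [qi, qj, qk]

lemma comm_re (a b : ℍ) : (a * b - b * a).re = 0 := by
  simp
  ring

lemma sq_re {a : ℍ} (ha : a.re = 0) : ∃ r : ℝ, a * a = r • (1 : ℍ) := by
  refine ⟨-(a.imI ^ 2 + a.imJ ^ 2 + a.imK ^ 2), ?_⟩
  ext
  · simp [ha]
    ring
  · simp [ha]
    ring
  · simp [ha]
    ring
  · simp [ha]
    ring

/-- a linear map of the imaginary quaternions with `u(a)` parallel to `a` is a scalar -/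
lemma scalar (u : ℍ →ₗ[ℝ] ℍ) (hre : ∀ a, (u a).re = 0)
    (hc : ∀ a : ℍ, a.re = 0 → a * u a = u a * a) (h1 : u 1 = 0) :
    ∃ lam : ℝ, ∀ y, u y = lam • y.im := by
  have e1 := hc qi rfl
  have e2 := hc qj rfl
  have e3 := hc qk rfl
  have e12 := hc (qi + qj) (by simp [qi, qj])
  have e13 := hc (qi + qk) (by simp [qi, qk])
  have r1 := hre qi
  have r2 := hre qj
  have r3 := hre qk
  rw [map_add] at e12 e13
  have hu : ∀ y, u y = y.imI • u qi + y.imJ • u qj + y.imK • u qk := by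
    intro y
    conv_lhs => rw [dec_im y, dec3 y.im (by simp)]
    rw [map_add, map_add, map_add, map_smul, map_smul, map_smul, map_smul, h1, smul_zero, zero_add]
    simp
  generalize u qi = p at *
  generalize u qj = q at *
  generalize u qk = r at *
  have a1 := congrArg QuaternionAlgebra.imJ e1
  have a2 := congrArg QuaternionAlgebra.imK e1
  have b1 := congrArg QuaternionAlgebra.imI e2
  have b2 := congrArg QuaternionAlgebra.imK e2
  have c1 := congrArg QuaternionAlgebra.imI e3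
  have c2 := congrArg QuaternionAlgebra.imJ e3
  have d1 := congrArg QuaternionAlgebra.imK e12
  have d2 := congrArg QuaternionAlgebra.imJ e13
  simp [qi, qj, qk] at a1 a2 b1 b2 c1 c2 d1 d2
  have p2 : p.imJ = 0 := by linarith
  have p3 : p.imK = 0 := by linarith
  have q1 : q.imI = 0 := by linarith
  have q3 : q.imK = 0 := by linarith
  have s1 : r.imI = 0 := by linarith
  have s2 : r.imJ = 0 := by linarith
  have t1 : q.imJ = p.imI := by linarith
  have t2 : r.imK = p.imI := by linarith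
  refine ⟨p.imI, fun y => ?_⟩
  rw [hu y]
  ext
  · simp [r1, r2, r3]
  · simp [q1, s1]
    ring
  · simp [p2, s2, t1]
    ring
  · simp [p3, q3, t2]
    ring

/-- the final formula -/
lemma formula (lam : ℝ) (x y : ℍ) :
    x.re • (lam • y.im) + (x.im * (lam • y.im) - (lam • y.im) * x.im - lam • (x.im * y).im) =
      -(lam • (x * star y).im) := by
  ext
  · simp
    ring
  · simp
    ring
  · simp
    ring
  · simp
    ring

section

variable {g : Type} [LieRing g] [LieAlgebra ℝ g] {k : LieSubalgebra ℝ g}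
  {B : g →ₗ[ℝ] g →ₗ[ℝ] ℝ} {c h W : Submodule ℝ g} {σ E : ℍ →ₗ[ℝ] g} {ρ : g →ₗ[ℝ] ℍ}

lemma σ_im (h : QB k B c h W σ E ρ) (a : ℍ) : σ a = σ a.im := by
  conv_lhs => rw [dec_im a]
  rw [map_add, map_smul, h.σ1, smul_zero, zero_add]

/-- the coordinates -/
lemma coords (H : QB k B c h W σ E ρ) : ∃ (S P : g →ₗ[ℝ] ℍ) (Γ : g →ₗ[ℝ] g),
    (∀ X, (S X).re = 0) ∧ (∀ X, Γ X ∈ c) ∧ (∀ X, X = σ (S X) + E (P X) + Γ X) ∧
    ∀ a x C, C ∈ c → S (σ a + E x + C) = a.im ∧ P (σ a + E x + C) = x ∧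
      Γ (σ a + E x + C) = C := by
  choose fa fx fC hC hX using H.dec
  have uni : ∀ a x C, C ∈ c → ∀ X, X = σ a + E x + C → (fa X).im = a.im ∧ fx X = x ∧ fC X = C := by
    intro a x C hC' X hX'
    have h1 : σ (fa X - a) + E (fx X - x) + (fC X - C) = 0 := by
      have h2 : σ (fa X) + E (fx X) + fC X = σ a + E x + C := by rw [← hX X, hX']
      rw [map_sub, map_sub]
      have h3 : σ (fa X) - σ a + (E (fx X) - E x) + (fC X - C) =
          (σ (fa X) + E (fx X) + fC X) - (σ a + E x + C) := by abel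
      rw [h3, h2, sub_self]
    obtain ⟨h2, h3, h4⟩ := H.ind _ _ _ (c.sub_mem (hC X) hC') h1
    rw [Quaternion.im_sub] at h2
    exact ⟨sub_eq_zero.1 h2, sub_eq_zero.1 h3, sub_eq_zero.1 h4⟩
  have add : ∀ X Y, X + Y = σ (fa X + fa Y) + E (fx X + fx Y) + (fC X + fC Y) := by
    intro X Y
    conv_lhs => rw [hX X, hX Y]
    rw [map_add, map_add]
    abel
  have sm : ∀ (r : ℝ) X, r • X = σ (r • fa X) + E (r • fx X) + r • fC X := by
    intro r X
    conv_lhs => rw [hX X]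
    rw [map_smul, map_smul, smul_add, smul_add]
  refine ⟨{ toFun := fun X => (fa X).im, map_add' := fun X Y => ?_, map_smul' := fun r X => ?_ },
    { toFun := fx, map_add' := fun X Y => ?_, map_smul' := fun r X => ?_ },
    { toFun := fC, map_add' := fun X Y => ?_, map_smul' := fun r X => ?_ }, fun X => ?_, hC,
    fun X => ?_, fun a x C hC' => uni a x C hC' _ rfl⟩
  · rw [(uni _ _ _ (c.add_mem (hC X) (hC Y)) _ (add X Y)).1, Quaternion.im_add]
  · rw [(uni _ _ _ (c.smul_mem r (hC X)) _ (sm r X)).1, Quaternion.im_smul]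
    rfl
  · exact (uni _ _ _ (c.add_mem (hC X) (hC Y)) _ (add X Y)).2.1
  · exact (uni _ _ _ (c.smul_mem r (hC X)) _ (sm r X)).2.1
  · exact (uni _ _ _ (c.add_mem (hC X) (hC Y)) _ (add X Y)).2.2
  · exact (uni _ _ _ (c.smul_mem r (hC X)) _ (sm r X)).2.2
  · show ((fa X).im).re = 0
    simp
  · show X = σ (fa X).im + E (fx X) + fC X
    rw [← σ_im H]
    exact hX X

end

end QB2x

open QB2x in
theorem thm_QB2 (h1 : St_EQ1) : St_QB2 := by
  intro g _ _ _ k B c h W σ E ρ H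
  obtain ⟨S, P, Γ, hS, hΓ, hX, hco⟩ := coords H
  have jac : ∀ a : ℍ, a.re = 0 → ∀ x y : ℍ,
      ⁅E (a * x), E y⁆ + ⁅E x, E (a * y)⁆ = σ (a * S ⁅E x, E y⁆ - S ⁅E x, E y⁆ * a) +
        E (a * P ⁅E x, E y⁆) + 0 := by
    intro a ha x y
    have h2 : ⁅σ a, ⁅E x, E y⁆⁆ = ⁅⁅σ a, E x⁆, E y⁆ + ⁅E x, ⁅σ a, E y⁆⁆ := leibniz_lie _ _ _
    rw [H.σE, H.σE, im_of_re ha] at h2
    rw [← h2]
    conv_lhs => rw [hX ⁅E x, E y⁆]
    rw [lie_add, lie_add, H.σσ, H.σE, H.σc a _ (hΓ _), im_of_re ha, im_of_re (hS _)]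
  have jS : ∀ a : ℍ, a.re = 0 → ∀ x y : ℍ, S ⁅E (a * x), E y⁆ + S ⁅E x, E (a * y)⁆ =
      a * S ⁅E x, E y⁆ - S ⁅E x, E y⁆ * a := by
    intro a ha x y
    rw [← map_add, jac a ha, (hco _ _ 0 c.zero_mem).1]
    exact im_of_re (comm_re _ _)
  have jP : ∀ a : ℍ, a.re = 0 → ∀ x y : ℍ, P ⁅E (a * x), E y⁆ + P ⁅E x, E (a * y)⁆ =
      a * P ⁅E x, E y⁆ := by
    intro a ha x y
    rw [← map_add, jac a ha, (hco _ _ 0 c.zero_mem).2.1]
  have jΓ : ∀ a : ℍ, a.re = 0 → ∀ x y : ℍ, Γ ⁅E (a * x), E y⁆ + Γ ⁅E x, E (a * y)⁆ = 0 := by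
    intro a ha x y
    rw [← map_add, jac a ha, (hco _ _ 0 c.zero_mem).2.2]
  -- (1)
  have hP0 : ∀ x y, P ⁅E x, E y⁆ = 0 := by
    refine h1.1 (LinearMap.mk₂ ℝ (fun x y => P ⁅E x, E y⁆) ?_ ?_ ?_ ?_) fun a x y ha =>
      (jP a ha x y).symm
    · intro x y z
      rw [map_add, add_lie, map_add]
    · intro r x y
      rw [map_smul, smul_lie, map_smul]
    · intro x y z
      rw [map_add, lie_add, map_add]
    · intro r x y
      rw [map_smul, lie_smul, map_smul]
  -- (2)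
  have hγ : ∀ x y, Γ ⁅E x, E y⁆ = Γ ⁅E 1, E (star x * y)⁆ := by
    intro x y
    have h2 := jΓ x.im (by simp) 1 y
    rw [mul_one] at h2
    have h3 : star x * y = x.re • y - x.im * y := by
      ext
      · simp
        ring
      · simp
        ring
      · simp
        ring
      · simp
        ring
    rw [h3, map_sub, map_smul, lie_sub, lie_smul, map_sub, map_smul]
    have h4 : Γ ⁅E x, E y⁆ = x.re • Γ ⁅E 1, E y⁆ + Γ ⁅E x.im, E y⁆ := by
      conv_lhs => rw [dec_im x]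
      rw [map_add, map_smul, add_lie, smul_lie, map_add, map_smul]
    rw [h4, eq_neg_of_add_eq_zero_left h2, sub_eq_add_neg]
  -- (3)
  obtain ⟨u, hu⟩ : ∃ u : ℍ →ₗ[ℝ] ℍ, ∀ y, u y = S ⁅E 1, E y⁆ :=
    ⟨{ toFun := fun y => S ⁅E 1, E y⁆
       map_add' := fun x y => by rw [map_add, lie_add, map_add]
       map_smul' := fun r x => by
        rw [map_smul, lie_smul, map_smul]
        rfl }, fun _ => rfl⟩
  have u1 : u 1 = 0 := by rw [hu, lie_self, map_zero]
  have hs : ∀ a : ℍ, a.re = 0 → ∀ y, S ⁅E a, E y⁆ = a * u y - u y * a - u (a * y) := by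
    intro a ha y
    have h2 := jS a ha 1 y
    rw [mul_one, ← hu, ← hu] at h2
    rw [← h2]
    abel
  have hcm : ∀ a : ℍ, a.re = 0 → a * u a = u a * a := by
    intro a ha
    have h2 := hs a ha a
    rw [lie_self, map_zero] at h2
    obtain ⟨r, hr⟩ := sq_re ha
    rw [hr, map_smul, u1, smul_zero, sub_zero] at h2
    exact (sub_eq_zero.1 h2.symm)
  obtain ⟨lam, hlam⟩ := scalar u (fun a => by rw [hu]; exact hS _) hcm u1
  have hsf : ∀ x y, S ⁅E x, E y⁆ = -(lam • (x * star y).im) := by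
    intro x y
    have h4 : S ⁅E x, E y⁆ = x.re • u y + S ⁅E x.im, E y⁆ := by
      conv_lhs => rw [dec_im x]
      rw [map_add, map_smul, add_lie, smul_lie, map_add, map_smul, hu]
    rw [h4, hs x.im (by simp), hlam y, hlam (x.im * y)]
    exact formula lam x y
  refine ⟨{ toFun := fun p => Γ ⁅E 1, E p⁆
            map_add' := fun x y => by rw [map_add, lie_add, map_add]
            map_smul' := fun r x => by
              rw [map_smul, lie_smul, map_smul]
              rfl }, lam, ?_, fun p => hΓ _, fun x y => ?_⟩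
  · show Γ ⁅E 1, E 1⁆ = 0
    rw [lie_self, map_zero]
  · show ⁅E x, E y⁆ = Γ ⁅E 1, E (star x * y)⁆ - lam • σ (x * star y)
    conv_lhs => rw [hX ⁅E x, E y⁆]
    rw [hP0, hγ, hsf, map_zero, add_zero, map_neg, map_smul, ← σ_im H]
    abel

end GOS
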