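import Pool.Agent.GOS.StC

namespace GOS

open scoped InnerProductSpace Quaternion

theorem thm_QB3 : St_QB3 := by
  intro g _ _ _ k B c h W σ E τ ρ lam hM hE hN hG hQ hτ1 hτc hEE
  have hk : ∀ A ∈ h, A ∈ k := by
    intro A hA
    have : A ∈ k.toSubmodule := by rw [hQ.kdec]; exact Submodule.mem_sup_right hA
    exact this
  have hσk : ∀ a, σ a ∈ k := by
    intro a
    have : σ a ∈ k.toSubmodule := by
      rw [hQ.kdec]; exact Submodule.mem_sup_left ⟨a, rfl⟩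
    exact this
  have hhc : ∀ A ∈ h, A ∈ c := by
    intro A hA; rw [hQ.chW]; exact Submodule.mem_sup_left hA
  have hWc : ∀ A ∈ W, A ∈ c := by
    intro A hA; rw [hQ.chW]; exact Submodule.mem_sup_right hA
  have hkd : ∀ A ∈ k, ∃ a : ℍ, ∃ A' ∈ h, A = σ a + A' := by
    intro A hA
    have hA' : A ∈ k.toSubmodule := hA
    rw [hQ.kdec, Submodule.mem_sup] at hA'
    obtain ⟨y, ⟨a, rfl⟩, z, hz, hyz⟩ := hA'
    exact ⟨a, z, hz, hyz.symm⟩
  have hEinj : ∀ x : ℍ, E x = 0 → x = 0 := by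
    intro x hx
    have h1 := hQ.BEE x x
    rw [hx, map_zero] at h1
    exact inner_self_eq_zero.mp h1.symm
  have hlie : ∀ C ∈ c, ∀ C' ∈ c, ρ ⁅C, C'⁆ = ρ C * ρ C' - ρ C' * ρ C := by
    intro C hC C' hC'
    have h1 : ⁅⁅C, C'⁆, E 1⁆ = ⁅C, ⁅C', E 1⁆⁆ - ⁅C', ⁅C, E 1⁆⁆ := lie_lie C C' (E 1)
    rw [hQ.cE _ (hQ.cc C hC C' hC'), hQ.cE _ hC', hQ.cE _ hC, lie_neg, lie_neg, hQ.cE _ hC,
      hQ.cE _ hC'] at h1
    have h2 : E (1 * ρ ⁅C, C'⁆ - (1 * ρ C * ρ C' - 1 * ρ C' * ρ C)) = 0 := by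
      rw [map_sub, map_sub]
      have : E (1 * ρ ⁅C, C'⁆) = E (1 * ρ C * ρ C') - E (1 * ρ C' * ρ C) := by
        have h3 := congrArg Neg.neg h1
        rw [neg_neg] at h3
        rw [h3]; abel
      rw [this, sub_self]
    have h3 := hEinj _ h2
    rw [one_mul, one_mul, one_mul] at h3
    exact sub_eq_zero.mp h3
  have hre : ∀ C ∈ c, (ρ C).re = 0 := by
    have e1 : ∀ q : ℍ, ⟪q, (1 : ℍ)⟫_ℝ = q.re := by
      intro q; rw [Quaternion.inner_def, star_one, mul_one]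
    have hh : ∀ A ∈ h, (ρ A).re = 0 := by
      intro A hA
      have h1 := hM.inv A (hk A hA) (E 1) (E 1)
      rw [hQ.cE A (hhc A hA), map_neg, LinearMap.neg_apply, map_neg, hQ.BEE, hQ.BEE, one_mul,
        real_inner_comm (ρ A) 1, e1] at h1
      linarith
    have hw : ∀ w ∈ W, (ρ w).re = 0 := by
      intro w hw
      obtain ⟨A, hA, hAY⟩ := hG (E 1)
      have h1 := hAY w
      rw [add_lie, map_add, LinearMap.add_apply] at h1
      obtain ⟨a, A', hA', rfl⟩ := hkd A hA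
      rw [add_lie, hQ.σc a w (hWc w hw), zero_add, hM.symm ⁅A', w⁆ (E 1),
        hQ.BEc 1 _ (hQ.cc _ (hhc _ hA') _ (hWc w hw)), add_zero, ← lie_skew,
        hQ.cE w (hWc w hw), neg_neg, hQ.BEE, one_mul, e1] at h1
      exact h1
    intro C hC
    rw [hQ.chW, Submodule.mem_sup] at hC
    obtain ⟨A, hA, w, hw', rfl⟩ := hC
    rw [map_add, Quaternion.re_add, hh A hA, hw w hw', add_zero]
  refine { toQB := hQ, model := hM, effp := hE, neg := hN, τ1 := hτ1, τc := hτc, EEb := hEE,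
           ρre := hre, ρlie := hlie, cτ := ?_, go := ?_ }
  · intro C hC p hp
    have hsC : ∀ a, ⁅C, σ a⁆ = 0 := by
      intro a
      rw [← lie_skew, hQ.σc a C hC, neg_zero]
    have h0 : ⁅C, ⁅E 1, E p⁆⁆ = ⁅C, τ p⁆ := by
      rw [hEE, star_one, one_mul, lie_sub, lie_smul, hsC, smul_zero, sub_zero]
    have h1 : ⁅C, ⁅E 1, E p⁆⁆ = ⁅⁅C, E 1⁆, E p⁆ + ⁅E 1, ⁅C, E p⁆⁆ := leibniz_lie C (E 1) (E p)
    rw [h0, hQ.cE C hC, hQ.cE C hC, neg_lie, lie_neg, hEE, hEE, one_mul, star_one, one_mul,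
      one_mul] at h1
    have hr := hre C hC
    have s1 : star (ρ C) = - ρ C := by
      ext <;> simp [hr]
    have s2 : star p = - p := by
      ext <;> simp [hp]
    rw [h1, star_mul, s1, s2, neg_mul_neg, neg_mul, mul_neg, map_neg, map_neg, map_sub]
    rw [smul_neg]
    abel
  · intro w hw
    obtain ⟨A, hA, hAY⟩ := hG w
    obtain ⟨a, A', hA', rfl⟩ := hkd A hA
    refine ⟨-A', Submodule.neg_mem _ hA', ?_⟩
    intro w' hw'
    have h1 := hAY w'
    rw [add_lie, map_add, LinearMap.add_apply, add_lie, hQ.σc a w' (hWc w' hw'), zero_add] at h1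
    have h2 := hM.inv A' (hk A' hA') w' w
    have h3 : B ⁅w', w⁆ w = - B ⁅w, w'⁆ w := by
      rw [← lie_skew, map_neg, LinearMap.neg_apply]
    rw [h3, neg_lie, map_neg, LinearMap.neg_apply, hM.symm ⁅A', w⁆ w']
    linarith

end GOS
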