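import Pool.Agent.GOS.StC

namespace GOS

open scoped InnerProductSpace Quaternion

theorem thm_QFI (h1 : St_TRI) (h2 : St_RNK) (h3 : St_DCS) (h4 : St_T00) (h5 : St_NI3)
    (h6 : St_NI2) (h7 : St_SP1) (h8 : St_SP2) (h9 : St_DH3) (h10 : St_SP3) (h11 : St_SP4)
    (h12 : St_SP5) : St_QFI := by
  intro g _ _ _ k B c h W σ E τ ρ lam hQ
  rcases h1 g k B c h W σ E τ ρ lam hQ with ⟨hl, hρ⟩ | ⟨u, hu, hu1, hτu, hup⟩ | ⟨hl, hρ⟩
  · by_cases hall : ∀ p : ℍ, τ p ∈ h
    · exact Or.inl (h7 g k B c h W σ E τ ρ lam hQ hl hρ hall)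
    · have hf := h8 g k B c h W σ E τ ρ lam hQ hl hρ hall
      have hk : ∀ A ∈ h, A ∈ k := by
        intro A hA
        have : A ∈ k.toSubmodule := by rw [hQ.kdec]; exact Submodule.mem_sup_right hA
        exact this
      have hact : Act B h W := by
        refine ⟨hQ.model.symm, ?_, hQ.hh, hQ.hWW, fun A hA => hQ.model.inv A (hk A hA)⟩
        intro X hX hX0
        apply hQ.model.pos
        intro hXk
        apply hX0
        have hXk' : X ∈ k.toSubmodule := hXk
        rw [hQ.kdec, Submodule.mem_sup] at hXk'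
        obtain ⟨y, ⟨a, rfl⟩, A, hA, e⟩ := hXk'
        have hAc : A - X ∈ c := by
          rw [hQ.chW]
          exact Submodule.sub_mem _ (Submodule.mem_sup_left hA) (Submodule.mem_sup_right hX)
        have h0 : σ a + E 0 + (A - X) = 0 := by
          rw [map_zero, add_zero, ← e]; abel
        obtain ⟨_, _, h3⟩ := hQ.ind a 0 (A - X) hAc h0
        have hAX : A = X := sub_eq_zero.mp h3
        exact (Submodule.disjoint_def.mp hQ.hW0) X (hAX ▸ hA) hX
      rcases h9 g B h W hact hQ.dimW hf with hd | ⟨hd, hirr⟩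
      · rcases Nat.le_one_iff_eq_zero_or_eq_one.mp hd with hd0 | hd1
        · have : h = ⊥ := Submodule.finrank_eq_zero.mp hd0
          exact Or.inr (Or.inr (h10 g k B c h W σ E τ ρ lam hQ hl hρ this))
        · exact Or.inr (Or.inr (h11 g k B c h W σ E τ ρ lam hQ hl hρ hf hd1))
      · exact Or.inl (h12 g k B c h W σ E τ ρ lam hQ hl hρ hf hd hirr)
  · exact Or.inl (h3 g k B c h W σ E τ ρ lam hQ u hu hu1 hτu hup)
  · rcases h2 g τ with hi | ⟨u, hu, hu1, hτu, hup⟩ | ⟨u, hu, hu1, hτu, hup⟩ | h0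
    · exact Or.inr (Or.inl (h5 g k B c h W σ E τ ρ lam hQ hl hρ hi))
    · exact Or.inr (Or.inl (h6 g k B c h W σ E τ ρ lam hQ hl hρ u hu hu1 hτu hup))
    · exact Or.inl (h3 g k B c h W σ E τ ρ lam hQ u hu hu1 hτu hup)
    · exact Or.inl (h4 g k B c h W σ E τ ρ lam hQ hl h0)

end GOS
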