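import Pool.Agent.GOS.StC

/-!
# Module QM (helper56)
-/

namespace GOS

open scoped InnerProductSpace Quaternion

private theorem QM_in (z w : ℍ) : ⟪z, w⟫_ℝ =
    z.re * w.re + z.imI * w.imI + z.imJ * w.imJ + z.imK * w.imK := by
  rw [Quaternion.inner_def]
  simp [Quaternion.re_mul]

private theorem QM_a (x y q : ℍ) (hq : q.re = 0) : ⟪star y * x, q⟫_ℝ = -⟪x * q, y⟫_ℝ := by
  rw [QM_in, QM_in]
  simp only [Quaternion.re_mul, Quaternion.imI_mul, Quaternion.imJ_mul, Quaternion.imK_mul,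
    Quaternion.re_star, Quaternion.imI_star, Quaternion.imJ_star, Quaternion.imK_star, hq]
  ring

private theorem QM_b (x y q : ℍ) (hq : q.re = 0) : ⟪y * q, x⟫_ℝ = -⟪x * q, y⟫_ℝ := by
  rw [QM_in, QM_in]
  simp only [Quaternion.re_mul, Quaternion.imI_mul, Quaternion.imJ_mul, Quaternion.imK_mul, hq]
  ring

private theorem QM_c (a p q : ℍ) (ha : a.re = 0) :
    ⟪a * p - p * a, q⟫_ℝ = -⟪p, a * q - q * a⟫_ℝ := by
  rw [QM_in, QM_in]
  simp only [Quaternion.re_sub, Quaternion.imI_sub, Quaternion.imJ_sub, Quaternion.imK_sub,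
    Quaternion.re_mul, Quaternion.imI_mul, Quaternion.imJ_mul, Quaternion.imK_mul, ha]
  ring

private theorem QM_re (a q : ℍ) : (a * q - q * a).re = 0 := by
  simp only [Quaternion.re_sub, Quaternion.re_mul]
  ring

theorem thm_QM : St_QM := by
  intro g _ _ _ k B c h W σ E τ ρ lam hQ
  have hWc : ∀ w ∈ W, w ∈ c := by
    intro w hw
    rw [hQ.chW]
    exact Submodule.mem_sup_right hw
  have hhc : ∀ w ∈ h, w ∈ c := by
    intro w hw
    rw [hQ.chW]
    exact Submodule.mem_sup_left hw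
  have hσk : ∀ a, σ a ∈ k.toSubmodule := by
    intro a
    rw [hQ.kdec]
    exact Submodule.mem_sup_left ⟨a, rfl⟩
  have hhk : ∀ A ∈ h, A ∈ k.toSubmodule := by
    intro A hA
    rw [hQ.kdec]
    exact Submodule.mem_sup_right hA
  have hkd : ∀ A ∈ k.toSubmodule, ∃ a, ∃ A' ∈ h, A = σ a + A' := by
    intro A hA
    rw [hQ.kdec] at hA
    obtain ⟨y, ⟨a, rfl⟩, z, hz, rfl⟩ := Submodule.mem_sup.mp hA
    exact ⟨a, z, hz, rfl⟩
  have hmd : ∀ X ∈ LinearMap.range E ⊔ W, ∃ x, ∃ w ∈ W, X = E x + w := by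
    intro X hX
    obtain ⟨y, ⟨a, rfl⟩, z, hz, rfl⟩ := Submodule.mem_sup.mp hX
    exact ⟨a, z, hz, rfl⟩
  have hmm : ∀ x, ∀ w ∈ W, E x + w ∈ LinearMap.range E ⊔ W := by
    intro x w hw
    exact Submodule.add_mem_sup ⟨x, rfl⟩ hw
  refine ⟨?_, ?_, ?_⟩
  · constructor
    · rw [Submodule.disjoint_def]
      intro X hXk hXm
      obtain ⟨a, A, hA, hX1⟩ := hkd X hXk
      obtain ⟨x, w, hw, hX2⟩ := hmd X hXm
      have e1 : σ a + E (-x) + (A - w) = 0 := by
        rw [map_neg]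
        have e2 : σ a + A = E x + w := by rw [← hX1, hX2]
        have e3 : σ a + -E x + (A - w) = σ a + A - (E x + w) := by abel
        rw [e3, e2, sub_self]
      obtain ⟨e2, e3, e4⟩ := hQ.ind a (-x) (A - w) (c.sub_mem (hhc A hA) (hWc w hw)) e1
      have e5 : A = w := sub_eq_zero.mp e4
      have e6 : w ∈ h := e5 ▸ hA
      have e7 : w = 0 := (Submodule.disjoint_def.mp hQ.hW0) w e6 hw
      rw [hX2, e7, neg_eq_zero.mp e3, map_zero, add_zero]
    · rw [codisjoint_iff, eq_top_iff]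
      intro X _
      obtain ⟨a, x, C, hC, hX⟩ := hQ.dec X
      rw [hQ.chW] at hC
      obtain ⟨A, hA, w, hw, rfl⟩ := Submodule.mem_sup.mp hC
      have e1 : X = (σ a + A) + (E x + w) := by
        rw [hX]
        abel
      rw [e1]
      exact Submodule.add_mem_sup (k.toSubmodule.add_mem (hσk a) (hhk A hA)) (hmm x w hw)
  · intro A hA X hX
    obtain ⟨a, A', hA', rfl⟩ := hkd A hA
    obtain ⟨x, w, hw, rfl⟩ := hmd X hX
    rw [add_lie, lie_add, lie_add, hQ.σE, hQ.σc a w (hWc w hw), add_zero, hQ.cE A' (hhc A' hA')]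
    refine Submodule.add_mem _ (Submodule.mem_sup_left ⟨_, rfl⟩) (Submodule.add_mem _ ?_ ?_)
    · exact Submodule.neg_mem _ (Submodule.mem_sup_left ⟨_, rfl⟩)
    · exact Submodule.mem_sup_right (hQ.hWW A' hA' w hw)
  · obtain ⟨q1, a1, b1, c1, d1⟩ : ∃ q : ℍ, q.re = 0 ∧ q.imI = 1 ∧ q.imJ = 0 ∧ q.imK = 0 :=
      ⟨⟨0, 1, 0, 0⟩, rfl, rfl, rfl, rfl⟩
    obtain ⟨q2, a2, b2, c2, d2⟩ : ∃ q : ℍ, q.re = 0 ∧ q.imI = 0 ∧ q.imJ = 1 ∧ q.imK = 0 :=
      ⟨⟨0, 0, 1, 0⟩, rfl, rfl, rfl, rfl⟩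
    obtain ⟨q3, a3, b3, c3, d3⟩ : ∃ q : ℍ, q.re = 0 ∧ q.imI = 0 ∧ q.imJ = 0 ∧ q.imK = 1 :=
      ⟨⟨0, 0, 0, 1⟩, rfl, rfl, rfl, rfl⟩
    obtain ⟨T, hT⟩ : ∃ T : g →ₗ[ℝ] ℍ, ∀ w, T w = B (τ q1) w • q1 + B (τ q2) w • q2 +
        B (τ q3) w • q3 :=
      ⟨(B (τ q1)).smulRight q1 + (B (τ q2)).smulRight q2 + (B (τ q3)).smulRight q3,
        fun w => rfl⟩
    have hTre : ∀ w, (T w).re = 0 := by
      intro w
      rw [hT]
      simp [a1, a2, a3]
    have hTτ : ∀ q w, ⟪q, T w⟫_ℝ = B (τ q) w := by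
      intro q w
      have e1 : q = q.re • (1 : ℍ) + q.imI • q1 + q.imJ • q2 + q.imK • q3 := by
        ext <;> simp [a1, b1, c1, d1, a2, b2, c2, d2, a3, b3, c3, d3]
      have e2 : B (τ q) w = q.imI * B (τ q1) w + q.imJ * B (τ q2) w + q.imK * B (τ q3) w := by
        conv_lhs => rw [e1]
        simp only [map_add, map_smul, hQ.τ1, smul_zero, zero_add, LinearMap.add_apply,
          LinearMap.smul_apply, smul_eq_mul]
      rw [e2, QM_in, hT]
      simp [a1, b1, c1, d1, a2, b2, c2, d2, a3, b3, c3, d3]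
    have hJre : ∀ w ∈ W, ((T + ρ) w).re = 0 := by
      intro w hw
      rw [LinearMap.add_apply, Quaternion.re_add, hTre, hQ.ρre w (hWc w hw), add_zero]
    have hJp : ∀ p w, ⟪p, (T + ρ) w⟫_ℝ = B (τ p) w + ⟪p, ρ w⟫_ℝ := by
      intro p w
      rw [LinearMap.add_apply, inner_add_right, hTτ]
    refine ⟨T + ρ, hJre, fun p _ w _ => hJp p w, ?_, ?_⟩
    · intro x y w hw w' hw'
      have hs := hQ.model.symm
      have hEc : ∀ x, ∀ C ∈ c, B C (E x) = 0 := fun x C hC => by rw [hs, hQ.BEc x C hC]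
      have l1 : ⁅E y, w⁆ = E (y * ρ w) := by
        rw [← lie_skew, hQ.cE w (hWc w hw), neg_neg]
      have l2 : ⁅w', E x⁆ = -E (x * ρ w') := hQ.cE w' (hWc w' hw') x
      have l3 : ⁅E y + w', E x + w⁆ = (τ (star y * x) - lam • σ (y * star x)) + E (y * ρ w) +
          (-E (x * ρ w') + ⁅w', w⁆) := by
        rw [add_lie, lie_add, lie_add, hQ.EEb, l1, l2]
      have k1 : B (lam • σ (y * star x)) (E x + w) = 0 :=
        hQ.model.ker _ (k.toSubmodule.smul_mem _ (hσk _)) _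
      have k2 : ⟪x * ρ w', x⟫_ℝ = 0 := by
        have e1 := QM_b x x (ρ w') (hQ.ρre w' (hWc w' hw'))
        linarith
      rw [l3]
      simp only [map_add, map_sub, map_neg, LinearMap.add_apply, LinearMap.sub_apply,
        LinearMap.neg_apply]
      rw [map_add] at k1
      rw [hEc x _ (hQ.τc _), hEc x _ (hQ.cc w' (hWc w' hw') w (hWc w hw)), hQ.BEE, hQ.BEE, k2,
        hQ.BEc _ w (hWc w hw), hQ.BEc _ w (hWc w hw), ← hTτ, QM_a x y _ (hTre w),
        QM_b x y _ (hQ.ρre w (hWc w hw)), mul_add, inner_add_left]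
      linarith
    · intro A hA w hw
      have hAk : A ∈ k := hhk A hA
      have hAc := hhc A hA
      have hwc := hWc w hw
      have hρA := hQ.ρre A hAc
      have hAw := hQ.hWW A hA w hw
      have key : ∀ p : ℍ, p.re = 0 →
          ⟪p, (T + ρ) ⁅A, w⁆ - (ρ A * (T + ρ) w - (T + ρ) w * ρ A)⟫_ℝ = 0 := by
        intro p hp
        have e1 := hQ.model.inv A hAk (τ p) w
        rw [hQ.cτ A hAc p hp] at e1
        have e2 := hJp (ρ A * p - p * ρ A) w
        have e3 := QM_c (ρ A) p ((T + ρ) w) hρA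
        have e4 := QM_c (ρ A) p (ρ w) hρA
        rw [inner_sub_right, hJp p, hQ.ρlie A hAc w hwc]
        linarith
      have hre : ((T + ρ) ⁅A, w⁆ - (ρ A * (T + ρ) w - (T + ρ) w * ρ A)).re = 0 := by
        rw [Quaternion.re_sub, hJre _ hAw, QM_re, sub_zero]
      have e5 := key _ hre
      rw [inner_self_eq_zero, sub_eq_zero] at e5
      exact e5

end GOS
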