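import Pool.Agent.GOS.StC

/-!
# Module QN3: the linear alternative on `W`
-/

namespace GOS

open scoped InnerProductSpace Quaternion

namespace QN3

variable {g : Type} [LieRing g] [LieAlgebra ℝ g] {k : LieSubalgebra ℝ g}
  {B : g →ₗ[ℝ] g →ₗ[ℝ] ℝ} {c h W : Submodule ℝ g} {σ E τ : ℍ →ₗ[ℝ] g} {ρ : g →ₗ[ℝ] ℍ} {lam : ℝ}

theorem hk (hQ : QD k B c h W σ E τ ρ lam) {A : g} (hA : A ∈ h) : A ∈ k := by
  have h1 : A ∈ k.toSubmodule := by
    rw [hQ.kdec]; exact Submodule.mem_sup_right hA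
  exact h1

theorem act (hQ : QD k B c h W σ E τ ρ lam) : Act B h W where
  symm := hQ.model.symm
  pos := by
    intro X hX hX0
    refine hQ.model.pos X fun hXk => hX0 ?_
    have h1 : X ∈ k.toSubmodule := hXk
    rw [hQ.kdec] at h1
    obtain ⟨_, ⟨a, rfl⟩, A, hA, hs⟩ := Submodule.mem_sup.1 h1
    have h2 : A - X ∈ c := by
      rw [hQ.chW]
      exact Submodule.sub_mem _ (Submodule.mem_sup_left hA) (Submodule.mem_sup_right hX)
    have h3 : σ a + E 0 + (A - X) = 0 := by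
      rw [map_zero, ← hs]; abel
    have h4 := (hQ.ind a 0 _ h2 h3).2.2
    have h5 : A = X := sub_eq_zero.1 h4
    rw [h5] at hA
    exact Submodule.disjoint_def.1 hQ.hW0 X hA hX
  hh := hQ.hh
  hW := hQ.hWW
  inv := fun A hA X Y => hQ.model.inv A (hk hQ hA) X Y

end QN3

open QN3 in
/-- Module QN3 -/
theorem thm_QN3 (h1 : St_TRN) (h2 : St_T1C) (h3 : St_AVL) : St_QN3 := by
  intro g _ _ _ k B c h W σ E τ ρ lam hQ
  obtain ⟨ι, H, b, hF⟩ := h1 g B h W (act hQ) hQ.go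
  have h4 : Module.finrank ℝ (EuclideanSpace ℝ (Fin (Module.finrank ℝ W))) = 3 := by
    rw [finrank_euclideanSpace, Fintype.card_fin, hQ.dimW]
  have h5 := h2 _ H b hF.sit h4
  exact h3 g B h W (act hQ) (fun A hA hA0 => hQ.neg A (hk hQ hA) hA0) _ ι H b hF h5

end GOS
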