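import Pool.Agent.GOS.StC

/-!
# GOS/QNR (helper55): the naturally reductive case of quaternionic type
-/

namespace GOS

open scoped InnerProductSpace Quaternion

/-- `St_QNR`. -/
theorem thm_QNR (h1 : St_EXN) : St_QNR := by
  intro g _ _ _ k B c h W σ E τ ρ lam hQ hc hinv J hJ ψ hψh hψA hψB hψρ
  have hhc : ∀ A ∈ h, A ∈ c := fun A hA => by
    rw [hQ.chW]
    exact Submodule.mem_sup_left hA
  have hWc : ∀ w ∈ W, w ∈ c := fun w hw => by
    rw [hQ.chW]
    exact Submodule.mem_sup_right hw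
  have hhk : ∀ A ∈ h, A ∈ k := fun A hA => by
    have : A ∈ k.toSubmodule := by
      rw [hQ.kdec]
      exact Submodule.mem_sup_right hA
    exact this
  -- the projection onto `W`
  have hEW : ∀ x, ∀ w ∈ W, E x = w → w = 0 := by
    intro x w hw hx
    have h0 : σ 0 + E x + (-w) = 0 := by rw [map_zero, zero_add, hx, add_neg_cancel]
    have h2 := (hQ.ind 0 x (-w) (c.neg_mem (hWc w hw)) h0).2.2
    exact neg_eq_zero.1 h2
  have hcompl : IsCompl W (k.toSubmodule ⊔ LinearMap.range E) := by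
    constructor
    · rw [Submodule.disjoint_def]
      intro w hw hw2
      obtain ⟨A, hA, y, hy, hAy⟩ := Submodule.mem_sup.1 hw2
      obtain ⟨x, rfl⟩ := hy
      have hAm : A ∈ LinearMap.range E ⊔ W := by
        have : A = w - E x := by rw [← hAy]; abel
        rw [this]
        exact Submodule.sub_mem _ (Submodule.mem_sup_right hw)
          (Submodule.mem_sup_left (LinearMap.mem_range_self E x))
      have hA0 : A = 0 := (Submodule.disjoint_def.1 hc.disjoint) A hA hAm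
      rw [hA0, zero_add] at hAy
      exact hEW x w hw hAy
    · rw [codisjoint_iff, sup_comm, sup_assoc]
      exact hc.sup_eq_top
  set P : g →ₗ[ℝ] g := W.projection _ hcompl with hP
  have hPW : ∀ w ∈ W, P w = w := fun w hw => Submodule.projection_apply_left hcompl ⟨w, hw⟩
  have hPE : ∀ x, P (E x) = 0 := fun x =>
    Submodule.projection_apply_right hcompl ⟨E x, Submodule.mem_sup_right (LinearMap.mem_range_self E x)⟩
  have hmem : ∀ X ∈ LinearMap.range E ⊔ W, ∃ x, ∃ w ∈ W, X = E x + w := by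
    intro X hX
    obtain ⟨y, ⟨x, rfl⟩, w, hw, h⟩ := Submodule.mem_sup.1 hX
    exact ⟨x, w, hw, h.symm⟩
  have hφ : ∀ x, ∀ w ∈ W, (ψ ∘ₗ P) (E x + w) = ψ w := by
    intro x w hw
    rw [LinearMap.comp_apply, map_add, hPE, hPW w hw, zero_add]
  refine h1 g k B (LinearMap.range E ⊔ W) hQ.model hc hinv (ψ ∘ₗ P) 0 0 ?_ ?_ ?_ ?_ ?_ ?_ ?_ ?_ ?_ ?_
  · intro X Y
    simp
  · intro A _
    rfl
  · intro X _
    exact Submodule.zero_mem _
  · intro X Y
    simp
  · intro X hX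
    obtain ⟨x, w, hw, rfl⟩ := hmem X hX
    rw [hφ x w hw]
    exact hhk _ (hψh w hw)
  · intro A hA X hX
    obtain ⟨x, w, hw, rfl⟩ := hmem X hX
    have hAk : A ∈ k.toSubmodule := hA
    rw [hQ.kdec] at hAk
    obtain ⟨y, ⟨a, rfl⟩, A', hA', rfl⟩ := Submodule.mem_sup.1 hAk
    rw [hφ x w hw, add_lie, add_lie, lie_add, lie_add, hQ.σE, hQ.σc a w (hWc w hw), hQ.cE A' (hhc A' hA'),
      hQ.σc a _ (hhc _ (hψh w hw)), zero_add, add_zero]
    have e : E (a.im * x) + (-E (x * ρ A') + ⁅A', w⁆) = E (a.im * x - x * ρ A') + ⁅A', w⁆ := by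
      rw [map_sub]
      abel
    rw [e, hφ _ _ (hQ.hWW A' hA' w hw), hψA A' hA' w hw]
  · intro X _
    simp
  · intro A _ X _
    rfl
  · intro X _
    rfl
  · intro X hX Y hY
    obtain ⟨x, w, hw, rfl⟩ := hmem X hX
    obtain ⟨y, w', hw', rfl⟩ := hmem Y hY
    have hψc := hhc _ (hψh w hw)
    have hψW : ⁅ψ w, w⁆ ∈ W := hQ.hWW _ (hψh w hw) w hw
    have e1 : B (-E (x * J w) + ⁅ψ w, w⁆) (E y + w') = - ⟪x * J w, y⟫_ℝ + B ⁅w', w⁆ w := by
      rw [map_add B, LinearMap.add_apply, map_neg B, LinearMap.neg_apply, map_add, map_add, hQ.BEE,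
        hQ.BEc _ _ (hWc w' hw'), hQ.model.symm ⁅ψ w, w⁆ (E y), hQ.BEc _ _ (hWc _ hψW), ← hψB w hw w' hw']
      ring
    rw [hφ x w hw, hJ x y w hw w' hw', lie_add, hQ.cE _ hψc, hψρ w hw, e1]
    simp

end GOS
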