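import Pool.Agent.GOS.StA

/-! # GOS, module R3D: representations of `Im ℍ` on a 3-dimensional space -/

set_option autoImplicit false

namespace GOS

open scoped InnerProductSpace Quaternion

section R3Daux

variable {V : Type} [NormedAddCommGroup V] [InnerProductSpace ℝ V]

lemma R3D_inj (W : Submodule ℝ V) (f : ℍ →ₗ[ℝ] V) (hf : Emb3 W f) (y : ℍ) (h : f y = 0) :
    y.im = 0 := by
  have h1 := hf.iso y y
  rw [h, inner_zero_left] at h1
  exact inner_self_eq_zero.1 h1.symm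

lemma R3D_brk (W : Submodule ℝ V) (f : ℍ →ₗ[ℝ] V) (hf : Emb3 W f) (u v w : ℍ)
    (hu : u.re = 0) (hv : v.re = 0) (hw : w.re = 0)
    (h : ∀ z : ℍ, f (u * (v * z.im - z.im * v).im - (v * z.im - z.im * v).im * u) -
      f (v * (u * z.im - z.im * u).im - (u * z.im - z.im * u).im * v) =
      (2 : ℝ) • f (w * z.im - z.im * w)) :
    u.imJ * v.imK - u.imK * v.imJ = w.imI ∧ u.imK * v.imI - u.imI * v.imK = w.imJ ∧
      u.imI * v.imJ - u.imJ * v.imI = w.imK := by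
  have key : ∀ z : ℍ, ((u * (v * z.im - z.im * v).im - (v * z.im - z.im * v).im * u) -
      (v * (u * z.im - z.im * u).im - (u * z.im - z.im * u).im * v) -
      (2 : ℝ) • (w * z.im - z.im * w)).im = 0 := by
    intro z
    apply R3D_inj W f hf
    rw [map_sub, map_sub, map_smul, h z, sub_self]
  obtain ⟨z1, a0, a1, a2, a3⟩ : ∃ z : ℍ, z.re = 0 ∧ z.imI = 1 ∧ z.imJ = 0 ∧ z.imK = 0 :=
    ⟨⟨0, 1, 0, 0⟩, rfl, rfl, rfl, rfl⟩
  obtain ⟨z2, b0, b1, b2, b3⟩ : ∃ z : ℍ, z.re = 0 ∧ z.imI = 0 ∧ z.imJ = 1 ∧ z.imK = 0 :=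
    ⟨⟨0, 0, 1, 0⟩, rfl, rfl, rfl, rfl⟩
  have k1 := key z1
  have k2 := key z2
  rw [Quaternion.ext_iff] at k1 k2
  simp [hu, hv, hw, a0, a1, a2, a3] at k1
  simp [hu, hv, hw, b0, b1, b2, b3] at k2
  obtain ⟨k11, k12⟩ := k1
  obtain ⟨k21, k22⟩ := k2
  refine ⟨?_, ?_, ?_⟩ <;> nlinarith

lemma R3D_on (u1 u2 u3 v1 v2 v3 w1 w2 w3 : ℝ)
    (p1 : u2 * v3 - u3 * v2 = w1) (p2 : u3 * v1 - u1 * v3 = w2) (p3 : u1 * v2 - u2 * v1 = w3)
    (q1 : v2 * w3 - v3 * w2 = u1) (q2 : v3 * w1 - v1 * w3 = u2) (q3 : v1 * w2 - v2 * w1 = u3)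
    (r1 : w2 * u3 - w3 * u2 = v1) (r2 : w3 * u1 - w1 * u3 = v2) (r3 : w1 * u2 - w2 * u1 = v3) :
    (u1 = 0 ∧ u2 = 0 ∧ u3 = 0 ∧ v1 = 0 ∧ v2 = 0 ∧ v3 = 0 ∧ w1 = 0 ∧ w2 = 0 ∧ w3 = 0) ∨
    (u1 * u1 + u2 * u2 + u3 * u3 = 1 ∧ v1 * v1 + v2 * v2 + v3 * v3 = 1 ∧
      w1 * w1 + w2 * w2 + w3 * w3 = 1 ∧ u1 * v1 + u2 * v2 + u3 * v3 = 0 ∧
      v1 * w1 + v2 * w2 + v3 * w3 = 0 ∧ u1 * w1 + u2 * w2 + u3 * w3 = 0) := by
  have huw : u1 * w1 + u2 * w2 + u3 * w3 = 0 := by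
    linear_combination -u1 * p1 - u2 * p2 - u3 * p3
  have hvw : v1 * w1 + v2 * w2 + v3 * w3 = 0 := by
    linear_combination -v1 * p1 - v2 * p2 - v3 * p3
  have huv : u1 * v1 + u2 * v2 + u3 * v3 = 0 := by
    linear_combination -v1 * q1 - v2 * q2 - v3 * q3
  obtain ⟨U, hU⟩ : ∃ U, U = u1 * u1 + u2 * u2 + u3 * u3 := ⟨_, rfl⟩
  obtain ⟨V, hV⟩ : ∃ V, V = v1 * v1 + v2 * v2 + v3 * v3 := ⟨_, rfl⟩
  obtain ⟨W, hW⟩ : ∃ W, W = w1 * w1 + w2 * w2 + w3 * w3 := ⟨_, rfl⟩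
  have e1 : W = U * V := by
    have : W = (u2 * v3 - u3 * v2) ^ 2 + (u3 * v1 - u1 * v3) ^ 2 + (u1 * v2 - u2 * v1) ^ 2 := by
      rw [p1, p2, p3, hW]; ring
    rw [this, hU, hV]
    linear_combination -(u1 * v1 + u2 * v2 + u3 * v3) * huv
  have e2 : U = V * W := by
    have : U = (v2 * w3 - v3 * w2) ^ 2 + (v3 * w1 - v1 * w3) ^ 2 + (v1 * w2 - v2 * w1) ^ 2 := by
      rw [q1, q2, q3, hU]; ring
    rw [this, hV, hW]
    linear_combination -(v1 * w1 + v2 * w2 + v3 * w3) * hvw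
  have e3 : V = W * U := by
    have : V = (w2 * u3 - w3 * u2) ^ 2 + (w3 * u1 - w1 * u3) ^ 2 + (w1 * u2 - w2 * u1) ^ 2 := by
      rw [r1, r2, r3, hV]; ring
    rw [this, hU, hW]
    linear_combination -(u1 * w1 + u2 * w2 + u3 * w3) * huw
  have sq3 : ∀ a b c : ℝ, 0 ≤ a * a + b * b + c * c := fun a b c =>
    add_nonneg (add_nonneg (mul_self_nonneg a) (mul_self_nonneg b)) (mul_self_nonneg c)
  have hU0 : 0 ≤ U := by rw [hU]; exact sq3 _ _ _
  have hV0 : 0 ≤ V := by rw [hV]; exact sq3 _ _ _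
  have hW0 : 0 ≤ W := by rw [hW]; exact sq3 _ _ _
  have hWW : W * ((U - 1) * (U + 1)) = 0 := by
    linear_combination -e1 - U * e3
  rcases mul_eq_zero.1 hWW with h0 | h0
  · left
    have hu0 : U = 0 := by rw [e2, h0, mul_zero]
    have hv0 : V = 0 := by rw [e3, h0, zero_mul]
    have z : ∀ a b c : ℝ, 0 = a * a + b * b + c * c → a = 0 ∧ b = 0 ∧ c = 0 := by
      intro a b c h
      have ha := mul_self_nonneg a
      have hb := mul_self_nonneg b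
      have hc := mul_self_nonneg c
      exact ⟨mul_self_eq_zero.1 (by linarith), mul_self_eq_zero.1 (by linarith),
        mul_self_eq_zero.1 (by linarith)⟩
    obtain ⟨a1, a2, a3⟩ := z _ _ _ (hu0 ▸ hU)
    obtain ⟨b1, b2, b3⟩ := z _ _ _ (hv0 ▸ hV)
    obtain ⟨c1, c2, c3⟩ := z _ _ _ (h0 ▸ hW)
    exact ⟨a1, a2, a3, b1, b2, b3, c1, c2, c3⟩
  · right
    have hU1 : U = 1 := by
      rcases mul_eq_zero.1 h0 with h | h
      · linarith
      · linarith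
    rw [hU1, one_mul] at e1
    rw [hU1, ← e1] at e2
    have hW1 : (W - 1) * (W + 1) = 0 := by linear_combination -e2
    have hW1' : W = 1 := by
      rcases mul_eq_zero.1 hW1 with h | h
      · linarith
      · linarith
    exact ⟨by rw [← hU, hU1], by rw [← hV, ← e1, hW1'], by rw [← hW, hW1'], huv, hvw, huw⟩

lemma R3D_inner (x y : ℍ) : ⟪x.im, y.im⟫_ℝ = x.imI * y.imI + x.imJ * y.imJ + x.imK * y.imK := by
  rw [Quaternion.inner_def]
  simp
  ring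

/-- the new frame -/
noncomputable def R3D_psi (u v w : ℍ) : ℍ →ₗ[ℝ] ℍ where
  toFun z := z.imI • u + z.imJ • v + z.imK • w
  map_add' x y := by
    simp only [Quaternion.imI_add, Quaternion.imJ_add, Quaternion.imK_add, add_smul]
    abel
  map_smul' r x := by
    simp only [Quaternion.imI_smul, Quaternion.imJ_smul, Quaternion.imK_smul, smul_eq_mul,
      mul_smul, RingHom.id_apply, smul_add]

lemma R3D_psi_apply (u v w z : ℍ) : R3D_psi u v w z = z.imI • u + z.imJ • v + z.imK • w := rfl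

lemma R3D_psi_brk (u v w : ℍ) (hu : u.re = 0) (hv : v.re = 0) (hw : w.re = 0)
    (p1 : u.imJ * v.imK - u.imK * v.imJ = w.imI) (p2 : u.imK * v.imI - u.imI * v.imK = w.imJ)
    (p3 : u.imI * v.imJ - u.imJ * v.imI = w.imK)
    (q1 : v.imJ * w.imK - v.imK * w.imJ = u.imI) (q2 : v.imK * w.imI - v.imI * w.imK = u.imJ)
    (q3 : v.imI * w.imJ - v.imJ * w.imI = u.imK)
    (r1 : w.imJ * u.imK - w.imK * u.imJ = v.imI) (r2 : w.imK * u.imI - w.imI * u.imK = v.imJ)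
    (r3 : w.imI * u.imJ - w.imJ * u.imI = v.imK) (a z : ℍ) :
    a.imI • (u * (R3D_psi u v w z).im - (R3D_psi u v w z).im * u) +
      a.imJ • (v * (R3D_psi u v w z).im - (R3D_psi u v w z).im * v) +
      a.imK • (w * (R3D_psi u v w z).im - (R3D_psi u v w z).im * w) =
      R3D_psi u v w (a.im * z.im - z.im * a.im) := by
  rw [R3D_psi_apply, R3D_psi_apply]
  ext
  · simp [hu, hv, hw]
    ring
  · simp [hu, hv, hw]
    linear_combination 2 * (a.imI * z.imJ - a.imJ * z.imI) * p1 +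
      2 * (a.imJ * z.imK - a.imK * z.imJ) * q1 + 2 * (a.imK * z.imI - a.imI * z.imK) * r1
  · simp [hu, hv, hw]
    linear_combination 2 * (a.imI * z.imJ - a.imJ * z.imI) * p2 +
      2 * (a.imJ * z.imK - a.imK * z.imJ) * q2 + 2 * (a.imK * z.imI - a.imI * z.imK) * r2
  · simp [hu, hv, hw]
    linear_combination 2 * (a.imI * z.imJ - a.imJ * z.imI) * p3 +
      2 * (a.imJ * z.imK - a.imK * z.imJ) * q3 + 2 * (a.imK * z.imI - a.imI * z.imK) * r3

lemma R3D_finrank : Module.finrank ℝ ℍ = 4 := Quaternion.finrank_eq_four ..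

end R3Daux

theorem thm_R3D (h1 : St_SK3) : St_R3D := by
  intro V _ _ _ W s hW hs1 hsW hskew hbr
  obtain ⟨⟨f₀, hf₀⟩, hsk⟩ := h1 V W hW
  obtain ⟨qi, a0, a1, a2, a3⟩ : ∃ z : ℍ, z.re = 0 ∧ z.imI = 1 ∧ z.imJ = 0 ∧ z.imK = 0 :=
    ⟨⟨0, 1, 0, 0⟩, rfl, rfl, rfl, rfl⟩
  obtain ⟨qj, b0, b1, b2, b3⟩ : ∃ z : ℍ, z.re = 0 ∧ z.imI = 0 ∧ z.imJ = 1 ∧ z.imK = 0 :=
    ⟨⟨0, 0, 1, 0⟩, rfl, rfl, rfl, rfl⟩
  obtain ⟨qk, c0, c1, c2, c3⟩ : ∃ z : ℍ, z.re = 0 ∧ z.imI = 0 ∧ z.imJ = 0 ∧ z.imK = 1 :=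
    ⟨⟨0, 0, 0, 1⟩, rfl, rfl, rfl, rfl⟩
  obtain ⟨u, hu, hsu⟩ := hsk f₀ (s qi) hf₀ (hsW qi) (hskew qi)
  obtain ⟨v, hv, hsv⟩ := hsk f₀ (s qj) hf₀ (hsW qj) (hskew qj)
  obtain ⟨w, hw, hsw⟩ := hsk f₀ (s qk) hf₀ (hsW qk) (hskew qk)
  have hmem : ∀ z, f₀ z ∈ W := fun z => by rw [← hf₀.rng]; exact ⟨z, rfl⟩
  have hij : qi.im * qj.im - qj.im * qi.im = (2 : ℝ) • qk := by
    ext <;> simp [a0, a1, a2, a3, b0, b1, b2, b3, c0, c1, c2, c3] <;> norm_num
  have hjk : qj.im * qk.im - qk.im * qj.im = (2 : ℝ) • qi := by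
    ext <;> simp [a0, a1, a2, a3, b0, b1, b2, b3, c0, c1, c2, c3] <;> norm_num
  have hki : qk.im * qi.im - qi.im * qk.im = (2 : ℝ) • qj := by
    ext <;> simp [a0, a1, a2, a3, b0, b1, b2, b3, c0, c1, c2, c3] <;> norm_num
  obtain ⟨p1, p2, p3⟩ := R3D_brk W f₀ hf₀ u v w hu hv hw (by
    intro z
    have := hbr qi qj (f₀ z) (hmem z)
    rw [hij, map_smul, LinearMap.smul_apply, hsu z, hsv z, hsw z, hsu, hsv] at this
    exact this)
  obtain ⟨q1, q2, q3⟩ := R3D_brk W f₀ hf₀ v w u hv hw hu (by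
    intro z
    have := hbr qj qk (f₀ z) (hmem z)
    rw [hjk, map_smul, LinearMap.smul_apply, hsu z, hsv z, hsw z, hsv, hsw] at this
    exact this)
  obtain ⟨r1, r2, r3⟩ := R3D_brk W f₀ hf₀ w u v hw hu hv (by
    intro z
    have := hbr qk qi (f₀ z) (hmem z)
    rw [hki, map_smul, LinearMap.smul_apply, hsu z, hsv z, hsw z, hsw, hsu] at this
    exact this)
  have hsa : ∀ a x, s a x = a.imI • s qi x + a.imJ • s qj x + a.imK • s qk x := by
    intro a x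
    have h2 : a = a.re • (1 : ℍ) + a.imI • qi + a.imJ • qj + a.imK • qk := by
      ext <;> simp [a0, a1, a2, a3, b0, b1, b2, b3, c0, c1, c2, c3]
    conv_lhs => rw [h2]
    simp only [map_add, map_smul, LinearMap.add_apply, LinearMap.smul_apply, hs1,
      LinearMap.zero_apply, smul_zero, zero_add]
  rcases R3D_on _ _ _ _ _ _ _ _ _ p1 p2 p3 q1 q2 q3 r1 r2 r3 with h | h
  · left
    obtain ⟨u1, u2, u3, v1, v2, v3, w1, w2, w3⟩ := h
    have hu' : u = 0 := by ext <;> simp [hu, u1, u2, u3]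
    have hv' : v = 0 := by ext <;> simp [hv, v1, v2, v3]
    have hw' : w = 0 := by ext <;> simp [hw, w1, w2, w3]
    intro a x hx
    rw [← hf₀.rng] at hx
    obtain ⟨z, rfl⟩ := hx
    rw [hsa, hsu, hsv, hsw, hu', hv', hw']
    simp
  · right
    obtain ⟨uu, vv, ww, uv, vw, uw⟩ := h
    have hiso : ∀ z z' : ℍ, ⟪f₀ (R3D_psi u v w z), f₀ (R3D_psi u v w z')⟫_ℝ = ⟪z.im, z'.im⟫_ℝ := by
      intro z z'
      rw [hf₀.iso, R3D_inner, R3D_inner, R3D_psi_apply, R3D_psi_apply]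
      simp
      linear_combination z.imI * z'.imI * uu + z.imJ * z'.imJ * vv + z.imK * z'.imK * ww +
        (z.imI * z'.imJ + z.imJ * z'.imI) * uv + (z.imJ * z'.imK + z.imK * z'.imJ) * vw +
        (z.imI * z'.imK + z.imK * z'.imI) * uw
    refine ⟨f₀ ∘ₗ R3D_psi u v w, ⟨?_, ?_, ?_⟩, ?_⟩
    · rw [LinearMap.comp_apply, R3D_psi_apply]
      simp
    · intro z z'
      exact hiso z z'
    · apply Submodule.eq_of_le_of_finrank_eq
      · rintro _ ⟨z, rfl⟩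
        exact hmem _
      · have h3 := LinearMap.finrank_range_add_finrank_ker (f₀ ∘ₗ R3D_psi u v w)
        have h4 : LinearMap.ker (f₀ ∘ₗ R3D_psi u v w) = Submodule.span ℝ {(1 : ℍ)} := by
          apply le_antisymm
          · intro z hz
            rw [LinearMap.mem_ker, LinearMap.comp_apply] at hz
            have h5 := hiso z z
            rw [hz, inner_zero_left] at h5
            have h6 : z.im = 0 := inner_self_eq_zero.1 h5.symm
            rw [Submodule.mem_span_singleton]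
            refine ⟨z.re, ?_⟩
            rw [Quaternion.ext_iff] at h6
            simp at h6
            ext <;> simp [h6]
          · rw [Submodule.span_le, Set.singleton_subset_iff, SetLike.mem_coe, LinearMap.mem_ker,
              LinearMap.comp_apply, R3D_psi_apply]
            simp
        rw [h4, finrank_span_singleton one_ne_zero, R3D_finrank] at h3
        omega
    · intro a z
      rw [LinearMap.comp_apply, LinearMap.comp_apply, hsa, hsu, hsv, hsw, ← map_smul, ← map_smul,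
        ← map_smul, ← map_add, ← map_add,
        R3D_psi_brk u v w hu hv hw p1 p2 p3 q1 q2 q3 r1 r2 r3]

end GOS
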