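import Pool.Agent.GOS.StC

/-!
# Module RNK: rank alternatives for a linear map on the imaginary quaternions
-/

namespace GOS

open scoped InnerProductSpace Quaternion

namespace RNK

theorem inn (a b : ℍ) : ⟪a, b⟫_ℝ =
    a.re * b.re + a.imI * b.imI + a.imJ * b.imJ + a.imK * b.imK := by
  rw [Quaternion.inner_def, Quaternion.re_mul]
  simp

/-- expansion of an imaginary quaternion with respect to `u`, `v`, `u v` -/
theorem expand {u v p : ℍ} (hu : u.re = 0) (hv : v.re = 0) (hp : p.re = 0)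
    (h1 : ⟪u, u⟫_ℝ = 1) (h2 : ⟪v, v⟫_ℝ = 1) (h3 : ⟪v, u⟫_ℝ = 0) :
    p = ⟪p, u⟫_ℝ • u + ⟪p, v⟫_ℝ • v + ⟪p, u * v⟫_ℝ • (u * v) := by
  rw [inn, hu] at h1
  rw [inn, hv] at h2
  rw [inn, hu, hv] at h3
  rw [inn, inn, inn, hp, hu, hv]
  have hw : (u * v).re = 0 := by
    rw [Quaternion.re_mul, hu, hv]; linarith
  have hI : (u * v).imI = u.imJ * v.imK - u.imK * v.imJ := by
    rw [Quaternion.imI_mul, hu, hv]; ring
  have hJ : (u * v).imJ = u.imK * v.imI - u.imI * v.imK := by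
    rw [Quaternion.imJ_mul, hu, hv]; ring
  have hK : (u * v).imK = u.imI * v.imJ - u.imJ * v.imI := by
    rw [Quaternion.imK_mul, hu, hv]; ring
  have e1 : u.imI * u.imI + u.imJ * u.imJ + u.imK * u.imK = 1 := by linarith
  have e2 : v.imI * v.imI + v.imJ * v.imJ + v.imK * v.imK = 1 := by linarith
  have e3 : v.imI * u.imI + v.imJ * u.imJ + v.imK * u.imK = 0 := by linarith
  ext
  · simp only [Quaternion.re_add, Quaternion.re_smul, hp, hu, hv, hw, smul_eq_mul]
    ring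
  · simp only [Quaternion.imI_add, Quaternion.imI_smul, smul_eq_mul, hI, hJ, hK]
    have key : ((u.imI * u.imI + u.imJ * u.imJ + u.imK * u.imK) *
        (v.imI * v.imI + v.imJ * v.imJ + v.imK * v.imK) -
        (v.imI * u.imI + v.imJ * u.imJ + v.imK * u.imK) ^ 2) * p.imI =
        ((v.imI * v.imI + v.imJ * v.imJ + v.imK * v.imK) *
          (p.imI * u.imI + p.imJ * u.imJ + p.imK * u.imK) -
          (v.imI * u.imI + v.imJ * u.imJ + v.imK * u.imK) *
          (p.imI * v.imI + p.imJ * v.imJ + p.imK * v.imK)) * u.imI +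
        ((u.imI * u.imI + u.imJ * u.imJ + u.imK * u.imK) *
          (p.imI * v.imI + p.imJ * v.imJ + p.imK * v.imK) -
          (v.imI * u.imI + v.imJ * u.imJ + v.imK * u.imK) *
          (p.imI * u.imI + p.imJ * u.imJ + p.imK * u.imK)) * v.imI +
        (p.imI * (u.imJ * v.imK - u.imK * v.imJ) + p.imJ * (u.imK * v.imI - u.imI * v.imK) +
          p.imK * (u.imI * v.imJ - u.imJ * v.imI)) * (u.imJ * v.imK - u.imK * v.imJ) := by ring
    rw [e1, e2, e3] at key
    linear_combination key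
  · simp only [Quaternion.imJ_add, Quaternion.imJ_smul, smul_eq_mul, hI, hJ, hK]
    have key : ((u.imI * u.imI + u.imJ * u.imJ + u.imK * u.imK) *
        (v.imI * v.imI + v.imJ * v.imJ + v.imK * v.imK) -
        (v.imI * u.imI + v.imJ * u.imJ + v.imK * u.imK) ^ 2) * p.imJ =
        ((v.imI * v.imI + v.imJ * v.imJ + v.imK * v.imK) *
          (p.imI * u.imI + p.imJ * u.imJ + p.imK * u.imK) -
          (v.imI * u.imI + v.imJ * u.imJ + v.imK * u.imK) *
          (p.imI * v.imI + p.imJ * v.imJ + p.imK * v.imK)) * u.imJ +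
        ((u.imI * u.imI + u.imJ * u.imJ + u.imK * u.imK) *
          (p.imI * v.imI + p.imJ * v.imJ + p.imK * v.imK) -
          (v.imI * u.imI + v.imJ * u.imJ + v.imK * u.imK) *
          (p.imI * u.imI + p.imJ * u.imJ + p.imK * u.imK)) * v.imJ +
        (p.imI * (u.imJ * v.imK - u.imK * v.imJ) + p.imJ * (u.imK * v.imI - u.imI * v.imK) +
          p.imK * (u.imI * v.imJ - u.imJ * v.imI)) * (u.imK * v.imI - u.imI * v.imK) := by ring
    rw [e1, e2, e3] at key
    linear_combination key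
  · simp only [Quaternion.imK_add, Quaternion.imK_smul, smul_eq_mul, hI, hJ, hK]
    have key : ((u.imI * u.imI + u.imJ * u.imJ + u.imK * u.imK) *
        (v.imI * v.imI + v.imJ * v.imJ + v.imK * v.imK) -
        (v.imI * u.imI + v.imJ * u.imJ + v.imK * u.imK) ^ 2) * p.imK =
        ((v.imI * v.imI + v.imJ * v.imJ + v.imK * v.imK) *
          (p.imI * u.imI + p.imJ * u.imJ + p.imK * u.imK) -
          (v.imI * u.imI + v.imJ * u.imJ + v.imK * u.imK) *
          (p.imI * v.imI + p.imJ * v.imJ + p.imK * v.imK)) * u.imK +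
        ((u.imI * u.imI + u.imJ * u.imJ + u.imK * u.imK) *
          (p.imI * v.imI + p.imJ * v.imJ + p.imK * v.imK) -
          (v.imI * u.imI + v.imJ * u.imJ + v.imK * u.imK) *
          (p.imI * u.imI + p.imJ * u.imJ + p.imK * u.imK)) * v.imK +
        (p.imI * (u.imJ * v.imK - u.imK * v.imJ) + p.imJ * (u.imK * v.imI - u.imI * v.imK) +
          p.imK * (u.imI * v.imJ - u.imJ * v.imI)) * (u.imI * v.imJ - u.imJ * v.imI) := by ring
    rw [e1, e2, e3] at key
    linear_combination key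

/-- normalisation -/
theorem unit_of {g : Type} [AddCommGroup g] [Module ℝ g] (τ : ℍ →ₗ[ℝ] g) {p : ℍ} (hp : p ≠ 0)
    (hr : p.re = 0) (ht : τ p = 0) :
    ∃ u : ℍ, u.re = 0 ∧ ‖u‖ = 1 ∧ τ u = 0 ∧ ∃ r : ℝ, u = r • p := by
  have hn : ‖p‖ ≠ 0 := norm_ne_zero_iff.2 hp
  refine ⟨‖p‖⁻¹ • p, ?_, ?_, ?_, ‖p‖⁻¹, rfl⟩
  · rw [Quaternion.re_smul, hr, smul_zero]
  · rw [norm_smul, norm_inv, norm_norm, inv_mul_cancel₀ hn]
  · rw [map_smul, ht, smul_zero]

end RNK

open RNK in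
/-- Module RNK -/
theorem thm_RNK : St_RNK := by
  intro g _ _ τ
  by_cases h1 : ∀ p : ℍ, p.re = 0 → τ p = 0 → p = 0
  · exact Or.inl h1
  push Not at h1
  obtain ⟨p0, hp0, ht0, hn0⟩ := h1
  obtain ⟨u, hur, hu1, hut, -⟩ := unit_of τ hn0 hp0 ht0
  by_cases h2 : ∀ p : ℍ, p.re = 0 → ⟪p, u⟫_ℝ = 0 → τ p = 0 → p = 0
  · exact Or.inr (Or.inl ⟨u, hur, hu1, hut, h2⟩)
  push Not at h2
  obtain ⟨q0, hq0, hqu, htq, hnq⟩ := h2
  obtain ⟨v, hvr, hv1, hvt, r, hv⟩ := unit_of τ hnq hq0 htq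
  have hvu : ⟪v, u⟫_ℝ = 0 := by
    rw [hv, real_inner_smul_left, hqu, mul_zero]
  have huu : ⟪u, u⟫_ℝ = 1 := by rw [real_inner_self_eq_norm_sq, hu1, one_pow]
  have hvv : ⟪v, v⟫_ℝ = 1 := by rw [real_inner_self_eq_norm_sq, hv1, one_pow]
  have hex : ∀ p : ℍ, p.re = 0 → τ p = ⟪p, u * v⟫_ℝ • τ (u * v) := by
    intro p hp
    have h := congrArg τ (expand hur hvr hp huu hvv hvu)
    rw [map_add, map_add, map_smul, map_smul, map_smul, hut, hvt, smul_zero, smul_zero,
      zero_add, zero_add] at h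
    exact h
  by_cases h3 : τ (u * v) = 0
  · refine Or.inr (Or.inr (Or.inr fun p hp => ?_))
    rw [hex p hp, h3, smul_zero]
  · refine Or.inr (Or.inr (Or.inl ⟨u * v, ?_, ?_, h3, fun p hp hpo => ?_⟩))
    · rw [inn, hur, hvr] at hvu
      rw [Quaternion.re_mul, hur, hvr]
      linarith
    · rw [norm_mul, hu1, hv1, one_mul]
    · rw [hex p hp, hpo, zero_smul]

end GOS
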