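import Pool.Agent.GOS.StC

/-!
# GOS/ROT: rotation of a unit imaginary quaternion to the first unit (helper42)
-/

set_option autoImplicit false

namespace GOS

open scoped InnerProductSpace Quaternion

theorem thm_ROT : St_ROT := by
  rintro ⟨a0, a, b, c⟩ i h0 hn rfl
  have h0' : a0 = 0 := h0
  subst h0'
  have h1 : a ^ 2 + b ^ 2 + c ^ 2 = 1 := by
    have h := Quaternion.normSq_eq_norm_mul_self (⟨0, a, b, c⟩ : ℍ)
    rw [hn, Quaternion.normSq_def'] at h
    have h' : (0 : ℝ) ^ 2 + a ^ 2 + b ^ 2 + c ^ 2 = 1 * 1 := h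
    linarith
  by_cases ha : a = -1
  · subst ha
    have hb : b = 0 := by nlinarith [sq_nonneg b, sq_nonneg c]
    have hc : c = 0 := by nlinarith [sq_nonneg b, sq_nonneg c]
    subst hb
    subst hc
    refine ⟨⟨0, 0, 1, 0⟩, ?_, ?_, ?_⟩ <;> ext <;> simp
  · have ha' : 0 < 2 + 2 * a := by
      have h2 : -1 ≤ a := by nlinarith [sq_nonneg b, sq_nonneg c]
      have h3 : -1 < a := lt_of_le_of_ne h2 (fun h => ha h.symm)
      linarith
    obtain ⟨r, hr, hr2⟩ : ∃ r : ℝ, 0 < r ∧ r ^ 2 = 2 + 2 * a :=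
      ⟨Real.sqrt (2 + 2 * a), Real.sqrt_pos.2 ha', Real.sq_sqrt ha'.le⟩
    have hr0 : r ≠ 0 := hr.ne'
    refine ⟨⟨(1 + a) / r, 0, -c / r, b / r⟩, ?_, ?_, ?_⟩
    · ext <;> simp <;> field_simp <;> first | ring1 | linear_combination h1 - hr2
    · ext <;> simp <;> field_simp <;> first | ring1 | linear_combination h1 - hr2
    · ext <;> simp <;> field_simp <;> first
        | ring1
        | linear_combination -h1 - a * hr2
        | linear_combination -b * hr2
        | linear_combination -c * hr2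

end GOS
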