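import Pool.Agent.GOS.StB

/-!
# GOS, module SCM: skew operators commuting with an irreducible family in dimension six (helper84)
-/

set_option autoImplicit false

namespace GOS

open scoped InnerProductSpace Quaternion

/-- two anticommuting complex structures: the dimension is divisible by four -/
private lemma SCM_four {U : Type} [AddCommGroup U] [Module ℝ U] (I J : Module.End ℝ U)
    (hI : I * I = -1) (hJ : J * J = -1) (hIJ : J * I = -(I * J)) : 4 ∣ Module.finrank ℝ U := by
  let q : QuaternionAlgebra.Basis (Module.End ℝ U) (-1 : ℝ) 0 (-1) :=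
    { i := I
      j := J
      k := I * J
      i_mul_i := by rw [hI]; simp
      j_mul_j := by rw [hJ]; simp
      i_mul_j := rfl
      j_mul_i := by rw [hIJ]; simp }
  let f : ℍ →ₐ[ℝ] Module.End ℝ U := q.liftHom
  letI : Module ℍ U := Module.compHom U (f : ℍ →+* Module.End ℝ U)
  haveI : IsScalarTower ℝ ℍ U := ⟨fun r p u => by
    change f (r • p) u = r • f p u
    rw [map_smul]
    rfl⟩
  have h := Module.finrank_mul_finrank ℝ ℍ U
  rw [Quaternion.finrank_eq_four] at h
  exact ⟨_, h.symm⟩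

theorem thm_SCM (h1 : St_GEN) : St_SCM := by
  intro V _ _ _ H hH U J hU hdim hJ hJs hJH C hCU hCs hCH
  obtain ⟨-, -, -, -, h5⟩ := h1 V H hH
  have hInv : Inv H U := hU.2.1
  -- the scalar `r`
  obtain ⟨r, hr⟩ := h5 U (C ∘ₗ J + J ∘ₗ C) hU
    (fun x hx => by
      change C (J x) + J (C x) ∈ U
      exact U.add_mem (hCU _ (hJ x hx).1) (hJ _ (hCU x hx)).1)
    (fun x hx y hy => by
      change ⟪C (J x) + J (C x), y⟫_ℝ = ⟪x, C (J y) + J (C y)⟫_ℝ
      rw [inner_add_left, inner_add_right, hCs _ (hJ x hx).1 y hy, hJs _ (hCU x hx) y hy,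
        hJs x hx _ (hCU y hy), hCs x hx _ (hJ y hy).1]
      ring)
    (fun A hA x hx => by
      change C (J (A x)) + J (C (A x)) = A (C (J x) + J (C x))
      rw [hJH A hA x hx, hCH A hA x hx, hCH A hA _ (hJ x hx).1, hJH A hA _ (hCU x hx), map_add])
  -- the operator `C' = C + (r/2) J`
  let D : V →ₗ[ℝ] V := C + (r / 2) • J
  have hD : ∀ x, D x = C x + (r / 2) • J x := fun x => rfl
  have hDU : ∀ x ∈ U, D x ∈ U := fun x hx => by
    rw [hD]
    exact U.add_mem (hCU x hx) (U.smul_mem _ (hJ x hx).1)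
  have hDJ : ∀ x ∈ U, D (J x) + J (D x) = 0 := fun x hx => by
    have e := hr x hx
    change C (J x) + J (C x) = r • x at e
    rw [hD, hD, map_add, map_smul, (hJ x hx).2]
    have e2 : C (J x) + (r / 2) • -x + (J (C x) + (r / 2) • -x) =
        (C (J x) + J (C x)) - r • x := by
      module
    rw [e2, e, sub_self]
  have hDs : ∀ x ∈ U, ∀ y ∈ U, ⟪D x, y⟫_ℝ = - ⟪x, D y⟫_ℝ := fun x hx y hy => by
    rw [hD, hD, inner_add_left, inner_add_right, real_inner_smul_left, real_inner_smul_right,
      hCs x hx y hy, hJs x hx y hy]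
    ring
  have hDH : ∀ A ∈ H, ∀ x ∈ U, D (A x) = A (D x) := fun A hA x hx => by
    rw [hD, hD, map_add, map_smul, hCH A hA x hx, hJH A hA x hx]
  obtain ⟨c, hc⟩ := h5 U (D ∘ₗ D) hU
    (fun x hx => by
      change D (D x) ∈ U
      exact hDU _ (hDU x hx))
    (fun x hx y hy => by
      change ⟪D (D x), y⟫_ℝ = ⟪x, D (D y)⟫_ℝ
      rw [hDs _ (hDU x hx) y hy, hDs x hx _ (hDU y hy), neg_neg])
    (fun A hA x hx => by
      change D (D (A x)) = A (D (D x))
      rw [hDH A hA x hx, hDH A hA _ (hDU x hx)])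
  have hc' : ∀ x ∈ U, D (D x) = c • x := hc
  by_cases h0 : ∀ x ∈ U, D x = 0
  · refine ⟨-(r / 2), fun x hx => ?_⟩
    have e := h0 x hx
    rw [hD] at e
    rw [eq_neg_of_add_eq_zero_left e, neg_smul]
  · exfalso
    push Not at h0
    obtain ⟨x, hx, hx0⟩ := h0
    have e1 : ⟪D x, D x⟫_ℝ = -(c * ⟪x, x⟫_ℝ) := by
      rw [hDs x hx _ (hDU x hx), hc' x hx, real_inner_smul_right]
    have e2 : 0 < ⟪D x, D x⟫_ℝ := by
      rw [real_inner_self_eq_norm_sq]
      have := norm_pos_iff.mpr hx0
      positivity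
    have e3 : 0 ≤ ⟪x, x⟫_ℝ := real_inner_self_nonneg
    have hc0 : c < 0 := by
      by_contra h
      push Not at h
      have := mul_nonneg h e3
      linarith
    obtain ⟨d, hd, hdc⟩ : ∃ d : ℝ, d ≠ 0 ∧ d * d = -c :=
      ⟨Real.sqrt (-c), (Real.sqrt_pos.mpr (by linarith)).ne', Real.mul_self_sqrt (by linarith)⟩
    let I' : Module.End ℝ U := d⁻¹ • D.restrict hDU
    let J' : Module.End ℝ U := J.restrict fun x hx => (hJ x hx).1
    have hI : I' * I' = -1 := by
      apply LinearMap.ext
      intro u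
      apply Subtype.ext
      change d⁻¹ • D (d⁻¹ • D u) = -(u : V)
      rw [map_smul, hc' u u.2, smul_smul, smul_smul]
      have e : d⁻¹ * d⁻¹ * c = -1 := by
        have : c = -(d * d) := by rw [hdc, neg_neg]
        rw [this]
        field_simp
      rw [e, neg_one_smul]
    have hJJ : J' * J' = -1 := by
      apply LinearMap.ext
      intro u
      apply Subtype.ext
      exact (hJ u u.2).2
    have hIJ : J' * I' = -(I' * J') := by
      apply LinearMap.ext
      intro u
      apply Subtype.ext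
      change J (d⁻¹ • D u) = -(d⁻¹ • D (J u))
      rw [map_smul, ← smul_neg]
      congr 1
      exact eq_neg_of_add_eq_zero_right (hDJ u u.2)
    have h4 := SCM_four I' J' hI hJJ hIJ
    rw [hdim] at h4
    omega

end GOS
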