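import Pool.Agent.GOS.StA

/-!
# MP_cdb478_gt, module SK3: skew operators of a three-dimensional space are commutators
-/

set_option autoImplicit false

namespace GOS

open scoped InnerProductSpace Quaternion

namespace SK3

variable {V : Type} [NormedAddCommGroup V] [InnerProductSpace ℝ V]

/-- the map `z ↦ z.imI v0 + z.imJ v1 + z.imK v2` -/
def emb (v : Fin 3 → V) : ℍ →ₗ[ℝ] V where
  toFun z := z.imI • v 0 + z.imJ • v 1 + z.imK • v 2
  map_add' z w := by
    simp only [Quaternion.imI_add, Quaternion.imJ_add, Quaternion.imK_add]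
    module
  map_smul' r z := by
    simp only [Quaternion.imI_smul, Quaternion.imJ_smul, Quaternion.imK_smul, smul_eq_mul,
      RingHom.id_apply]
    module

theorem emb_apply (v : Fin 3 → V) (z : ℍ) :
    emb v z = z.imI • v 0 + z.imJ • v 1 + z.imK • v 2 := rfl

/-- the imaginary quaternion with the coordinates `a, b, c` -/
def imq (a b c : ℝ) : ℍ := ⟨0, a, b, c⟩

@[simp] theorem imq_re (a b c : ℝ) : (imq a b c).re = 0 := rfl
@[simp] theorem imq_imI (a b c : ℝ) : (imq a b c).imI = a := rfl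
@[simp] theorem imq_imJ (a b c : ℝ) : (imq a b c).imJ = b := rfl
@[simp] theorem imq_imK (a b c : ℝ) : (imq a b c).imK = c := rfl

theorem inner_im (z w : ℍ) :
    ⟪z.im, w.im⟫_ℝ = z.imI * w.imI + z.imJ * w.imJ + z.imK * w.imK := by
  rw [Quaternion.inner_def]
  simp [Quaternion.re_mul]
  ring

theorem exists_emb [FiniteDimensional ℝ V] (U : Submodule ℝ V) (hU : Module.finrank ℝ U = 3) :
    ∃ e : ℍ →ₗ[ℝ] V, Emb3 U e := by
  let B : OrthonormalBasis (Fin 3) ℝ U := (stdOrthonormalBasis ℝ U).reindex (finCongr hU)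
  have ho : ∀ i j : Fin 3, ⟪(B i : V), (B j : V)⟫_ℝ = if i = j then 1 else 0 := by
    intro i j
    have := (orthonormal_iff_ite.mp B.orthonormal) i j
    rw [← this]
    rfl
  refine ⟨emb fun i => (B i : V), ?_, ?_, ?_⟩
  · rw [emb_apply]
    simp
  · intro z w
    rw [inner_im, emb_apply, emb_apply]
    simp only [inner_add_left, inner_add_right, real_inner_smul_left, real_inner_smul_right, ho]
    simp
    ring
  · refine le_antisymm ?_ ?_
    · rintro _ ⟨z, rfl⟩
      rw [emb_apply]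
      exact U.add_mem (U.add_mem (U.smul_mem _ (B 0).2) (U.smul_mem _ (B 1).2))
        (U.smul_mem _ (B 2).2)
    · intro x hx
      have h1 := B.sum_repr (⟨x, hx⟩ : U)
      have h2 := congrArg (fun u : U => (u : V)) h1
      simp only [Fin.sum_univ_three, Submodule.coe_add, Submodule.coe_smul] at h2
      exact ⟨imq (B.repr ⟨x, hx⟩ 0) (B.repr ⟨x, hx⟩ 1) (B.repr ⟨x, hx⟩ 2), h2⟩

theorem e_expand {U : Submodule ℝ V} {e : ℍ →ₗ[ℝ] V} (he : Emb3 U e) (z : ℍ) :
    e z = z.imI • e (imq 1 0 0) + z.imJ • e (imq 0 1 0) + z.imK • e (imq 0 0 1) := by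
  have h1 : z = z.re • (1 : ℍ) + z.imI • imq 1 0 0 + z.imJ • imq 0 1 0 + z.imK • imq 0 0 1 := by
    ext <;> simp
  conv_lhs => rw [h1]
  rw [map_add, map_add, map_add, map_smul, map_smul, map_smul, map_smul, he.one, smul_zero,
    zero_add]

end SK3

open SK3 in
theorem thm_SK3 : St_SK3 := by
  intro V _ _ _ U hU
  refine ⟨exists_emb U hU, ?_⟩
  intro e A he hA hs
  have hmem : ∀ z, e z ∈ U := fun z => he.rng ▸ LinearMap.mem_range_self e z
  set v1 := e (imq 1 0 0) with hv1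
  set v2 := e (imq 0 1 0) with hv2
  set v3 := e (imq 0 0 1) with hv3
  have m1 : v1 ∈ U := hmem _
  have m2 : v2 ∈ U := hmem _
  have m3 : v3 ∈ U := hmem _
  have s11 : ⟪A v1, v1⟫_ℝ = 0 := by
    have h := hs v1 m1 v1 m1
    rw [real_inner_comm v1 (A v1)] at h
    have h' := real_inner_comm v1 (A v1)
    linarith
  have s22 : ⟪A v2, v2⟫_ℝ = 0 := by
    have h := hs v2 m2 v2 m2
    have h' := real_inner_comm v2 (A v2)
    linarith
  have s33 : ⟪A v3, v3⟫_ℝ = 0 := by
    have h := hs v3 m3 v3 m3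
    have h' := real_inner_comm v3 (A v3)
    linarith
  have s21 : ⟪A v2, v1⟫_ℝ = - ⟪A v1, v2⟫_ℝ := by
    rw [hs v2 m2 v1 m1, real_inner_comm]
  have s32 : ⟪A v3, v2⟫_ℝ = - ⟪A v2, v3⟫_ℝ := by
    rw [hs v3 m3 v2 m2, real_inner_comm]
  have s13 : ⟪A v1, v3⟫_ℝ = - ⟪A v3, v1⟫_ℝ := by
    rw [hs v1 m1 v3 m3, real_inner_comm]
  set c := ⟪A v1, v2⟫_ℝ with hc
  set a := ⟪A v2, v3⟫_ℝ with ha
  set b := ⟪A v3, v1⟫_ℝ with hb
  refine ⟨imq (a / 2) (b / 2) (c / 2), rfl, fun z => ?_⟩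
  have hin : ∀ w : ℍ, ⟪A (e z) - e (imq (a / 2) (b / 2) (c / 2) * z.im -
      z.im * imq (a / 2) (b / 2) (c / 2)), e w⟫_ℝ = 0 := by
    intro w
    rw [inner_sub_left, he.iso, inner_im, e_expand he z, e_expand he w, ← hv1, ← hv2, ← hv3]
    simp only [map_add, map_smul, inner_add_left, inner_add_right, real_inner_smul_left,
      real_inner_smul_right, s11, s22, s33, s21, s32, s13, ← hc, ← ha, ← hb]
    simp [Quaternion.imI_mul, Quaternion.imJ_mul, Quaternion.imK_mul]
    ring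
  have hd : A (e z) - e (imq (a / 2) (b / 2) (c / 2) * z.im -
      z.im * imq (a / 2) (b / 2) (c / 2)) ∈ U := U.sub_mem (hA _ (hmem _)) (hmem _)
  rw [← he.rng] at hd
  obtain ⟨w, hw⟩ := hd
  have h0 := hin w
  rw [← hw, inner_self_eq_zero] at h0
  rw [h0] at hw
  exact sub_eq_zero.mp hw.symm

end GOS
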