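import Pool.Agent.GOS.StA

/-!
# Module SK4: skew operators of a four-dimensional space (helper56)
-/

namespace GOS

open scoped InnerProductSpace Quaternion

private theorem SK4_in (z w : ℍ) : ⟪z, w⟫_ℝ =
    z.re * w.re + z.imI * w.imI + z.imJ * w.imJ + z.imK * w.imK := by
  rw [Quaternion.inner_def]
  simp [Quaternion.re_mul]

theorem thm_SK4 : St_SK4 := by
  intro V _ _ _ U hU
  refine ⟨?_, ?_⟩
  · let b : OrthonormalBasis (Fin 4) ℝ U :=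
      (stdOrthonormalBasis ℝ U).reindex (finCongr hU)
    refine ⟨U.subtype ∘ₗ (b.repr.symm.toLinearEquiv : EuclideanSpace ℝ (Fin 4) →ₗ[ℝ] U) ∘ₗ
      (Quaternion.linearIsometryEquivTuple.toLinearEquiv : ℍ →ₗ[ℝ] EuclideanSpace ℝ (Fin 4)),
      ?_, ?_⟩
    · intro z w
      have h1 : ∀ x y : U, ⟪(U.subtype x : V), U.subtype y⟫_ℝ = ⟪x, y⟫_ℝ := fun x y => rfl
      simp only [LinearMap.comp_apply]
      rw [h1]
      have h2 : ∀ x y : EuclideanSpace ℝ (Fin 4), ⟪(b.repr.symm.toLinearEquiv : EuclideanSpace ℝ (Fin 4) →ₗ[ℝ] U) x,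
          (b.repr.symm.toLinearEquiv : EuclideanSpace ℝ (Fin 4) →ₗ[ℝ] U) y⟫_ℝ = ⟪x, y⟫_ℝ :=
        fun x y => b.repr.symm.inner_map_map x y
      rw [h2]
      exact Quaternion.linearIsometryEquivTuple.inner_map_map z w
    · rw [LinearMap.range_comp, LinearMap.range_comp, LinearEquiv.range, Submodule.map_top,
        LinearEquiv.range, Submodule.map_top, Submodule.range_subtype]
  · intro e A he hA hs
    have hmem : ∀ z : ℍ, e z ∈ U := by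
      intro z
      rw [← he.rng]
      exact ⟨z, rfl⟩
    have hw : ∀ z : ℍ, ∃ w : ℍ, e w = A (e z) := by
      intro z
      have h1 := hA (e z) (hmem z)
      rw [← he.rng] at h1
      exact h1
    obtain ⟨q1, a1, b1, c1, d1⟩ : ∃ q : ℍ, q.re = 0 ∧ q.imI = 1 ∧ q.imJ = 0 ∧ q.imK = 0 :=
      ⟨⟨0, 1, 0, 0⟩, rfl, rfl, rfl, rfl⟩
    obtain ⟨q2, a2, b2, c2, d2⟩ : ∃ q : ℍ, q.re = 0 ∧ q.imI = 0 ∧ q.imJ = 1 ∧ q.imK = 0 :=
      ⟨⟨0, 0, 1, 0⟩, rfl, rfl, rfl, rfl⟩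
    obtain ⟨q3, a3, b3, c3, d3⟩ : ∃ q : ℍ, q.re = 0 ∧ q.imI = 0 ∧ q.imJ = 0 ∧ q.imK = 1 :=
      ⟨⟨0, 0, 0, 1⟩, rfl, rfl, rfl, rfl⟩
    obtain ⟨q0, a0, b0, c0, d0⟩ : ∃ q : ℍ, q.re = 1 ∧ q.imI = 0 ∧ q.imJ = 0 ∧ q.imK = 0 :=
      ⟨⟨1, 0, 0, 0⟩, rfl, rfl, rfl, rfl⟩
    obtain ⟨w0, h0⟩ := hw q0
    obtain ⟨w1, h1⟩ := hw q1
    obtain ⟨w2, h2⟩ := hw q2
    obtain ⟨w3, h3⟩ := hw q3
    have hsk : ∀ x y wx wy : ℍ, e wx = A (e x) → e wy = A (e y) → ⟪wx, y⟫_ℝ = -⟪x, wy⟫_ℝ := by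
      intro x y wx wy hx hy
      rw [← he.iso, ← he.iso, hx, hy]
      exact hs _ (hmem x) _ (hmem y)
    have r00 := hsk _ _ _ _ h0 h0
    have r01 := hsk _ _ _ _ h0 h1
    have r02 := hsk _ _ _ _ h0 h2
    have r03 := hsk _ _ _ _ h0 h3
    have r11 := hsk _ _ _ _ h1 h1
    have r12 := hsk _ _ _ _ h1 h2
    have r13 := hsk _ _ _ _ h1 h3
    have r22 := hsk _ _ _ _ h2 h2
    have r23 := hsk _ _ _ _ h2 h3
    have r33 := hsk _ _ _ _ h3 h3
    simp only [SK4_in, a0, b0, c0, d0, a1, b1, c1, d1, a2, b2, c2, d2, a3, b3, c3, d3, mul_zero,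
      mul_one, zero_mul, one_mul, add_zero, zero_add] at r00 r01 r02 r03 r11 r12 r13 r22 r23 r33
    obtain ⟨p, pa, pb, pc, pd⟩ : ∃ q : ℍ, q.re = 0 ∧ q.imI = (w0.imI + w2.imK) / 2 ∧
        q.imJ = (w0.imJ + w3.imI) / 2 ∧ q.imK = (w0.imK + w1.imJ) / 2 :=
      ⟨⟨0, _, _, _⟩, rfl, rfl, rfl, rfl⟩
    obtain ⟨q, qa, qb, qc, qd⟩ : ∃ q : ℍ, q.re = 0 ∧ q.imI = (w2.imK - w0.imI) / 2 ∧
        q.imJ = (w3.imI - w0.imJ) / 2 ∧ q.imK = (w1.imJ - w0.imK) / 2 :=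
      ⟨⟨0, _, _, _⟩, rfl, rfl, rfl, rfl⟩
    refine ⟨p, q, pa, qa, ?_⟩
    intro z
    have hz : z = z.re • q0 + z.imI • q1 + z.imJ • q2 + z.imK • q3 := by
      ext <;> simp [a0, b0, c0, d0, a1, b1, c1, d1, a2, b2, c2, d2, a3, b3, c3, d3]
    have hAz : A (e z) = e (z.re • w0 + z.imI • w1 + z.imJ • w2 + z.imK • w3) := by
      conv_lhs => rw [hz]
      simp only [map_add, map_smul, h0, h1, h2, h3]
    rw [hAz]
    congr 1
    have s0 : w0.re = 0 := by linarith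
    have s1 : w1.imI = 0 := by linarith
    have s2 : w2.imJ = 0 := by linarith
    have s3 : w3.imK = 0 := by linarith
    have t1 : w1.re = -w0.imI := by linarith
    have t2 : w2.re = -w0.imJ := by linarith
    have t3 : w3.re = -w0.imK := by linarith
    have t4 : w2.imI = -w1.imJ := by linarith
    have t5 : w1.imK = -w3.imI := by linarith
    have t6 : w3.imJ = -w2.imK := by linarith
    ext
    · simp only [Quaternion.re_add, Quaternion.re_sub, Quaternion.re_smul, Quaternion.re_mul,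
        smul_eq_mul, pa, pb, pc, pd, qa, qb, qc, qd, s0, t1, t2, t3]
      ring
    · simp only [Quaternion.imI_add, Quaternion.imI_sub, Quaternion.imI_smul, Quaternion.imI_mul,
        smul_eq_mul, pa, pb, pc, pd, qa, qb, qc, qd, s1, t4]
      ring
    · simp only [Quaternion.imJ_add, Quaternion.imJ_sub, Quaternion.imJ_smul, Quaternion.imJ_mul,
        smul_eq_mul, pa, pb, pc, pd, qa, qb, qc, qd, s2, t6]
      ring
    · simp only [Quaternion.imK_add, Quaternion.imK_sub, Quaternion.imK_smul, Quaternion.imK_mul,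
        smul_eq_mul, pa, pb, pc, pd, qa, qb, qc, qd, s3, t5]
      ring

end GOS
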