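import Pool.Agent.GOS.StA

/-!
# GOS: module SO3 (irreducible invariant subspaces of dimension 3)
-/

set_option autoImplicit false

namespace GOS

open scoped InnerProductSpace Quaternion

section

variable {V : Type} [NormedAddCommGroup V] [InnerProductSpace ℝ V]

theorem so3_im_re (z : ℍ) : z.im.re = 0 := rfl

theorem so3_im_eq {z : ℍ} (h : z.re = 0) : z.im = z := by
  ext
  · exact h.symm
  · rfl
  · rfl
  · rfl

theorem so3_ker (e : ℍ →ₗ[ℝ] V) {U : Submodule ℝ V} (he : Emb3 U e) (z : ℍ) (h : e z = 0) :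
    z.im = 0 := by
  have h1 := he.iso z z
  rw [h, inner_zero_left] at h1
  exact inner_self_eq_zero.1 h1.symm

theorem so3_finrank (e : ℍ →ₗ[ℝ] V) {U : Submodule ℝ V} (he : Emb3 U e) :
    Module.finrank ℝ U = 3 := by
  have h1 := LinearMap.finrank_range_add_finrank_ker e
  rw [Quaternion.finrank_eq_four, he.rng] at h1
  have h2 : LinearMap.ker e = Submodule.span ℝ {(1 : ℍ)} := by
    apply le_antisymm
    · intro z hz
      rw [LinearMap.mem_ker] at hz
      have h3 := so3_ker e he z hz
      rw [Submodule.mem_span_singleton]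
      refine ⟨z.re, ?_⟩
      have h4 := Quaternion.re_add_im z
      rw [h3, add_zero] at h4
      rw [← h4]
      ext <;> simp
    · rw [Submodule.span_singleton_le_iff_mem, LinearMap.mem_ker]
      exact he.one
  rw [h2, finrank_span_singleton one_ne_zero] at h1
  omega

/-- the commutator with imaginary quaternions is imaginary -/
theorem so3_comm_re (q x : ℍ) : (q * x - x * q).re = 0 := by
  simp only [Quaternion.re_sub, Quaternion.re_mul]
  ring

/-- the imaginary quaternions whose commutator is in `H` -/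
def so3_P (H : Submodule ℝ (V →ₗ[ℝ] V)) (e : ℍ →ₗ[ℝ] V) : Submodule ℝ ℍ where
  carrier := {p | p.re = 0 ∧ ∃ A ∈ H, ∀ z : ℍ, A (e z) = e (p * z.im - z.im * p)}
  zero_mem' := ⟨rfl, 0, H.zero_mem, fun z => by
    rw [LinearMap.zero_apply, zero_mul, mul_zero, sub_zero, map_zero]⟩
  add_mem' := by
    rintro p q ⟨hp, A, hA, hA'⟩ ⟨hq, B, hB, hB'⟩
    refine ⟨by rw [Quaternion.re_add, hp, hq, add_zero], A + B, H.add_mem hA hB, fun z => ?_⟩
    rw [LinearMap.add_apply, hA', hB', ← map_add]
    congr 1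
    noncomm_ring
  smul_mem' := by
    rintro c p ⟨hp, A, hA, hA'⟩
    refine ⟨by rw [Quaternion.re_smul, hp, smul_zero], c • A, H.smul_mem c hA, fun z => ?_⟩
    rw [LinearMap.smul_apply, hA', ← map_smul, smul_mul_assoc, mul_smul_comm, smul_sub]

end

/-- `St_SO3`. -/
theorem thm_SO3 (h1 : St_SK3) (h2 : St_LS3) : St_SO3 := by
  intro V _ _ _ H hH U e hU he p hp
  have h3 := so3_finrank e he
  have hlie : ∀ p ∈ so3_P H e, ∀ q ∈ so3_P H e, p * q - q * p ∈ so3_P H e := by
    rintro p ⟨hp, A, hA, hA'⟩ q ⟨hq, B, hB, hB'⟩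
    refine ⟨so3_comm_re p q, A ∘ₗ B - B ∘ₗ A, hH.lie A hA B hB, fun z => ?_⟩
    rw [LinearMap.sub_apply, LinearMap.comp_apply, LinearMap.comp_apply, hB', hA', hA', hB',
      so3_im_eq (so3_comm_re q z.im), so3_im_eq (so3_comm_re p z.im), ← map_sub]
    congr 1
    noncomm_ring
  rcases h2 (so3_P H e) (fun p hp => hp.1) hlie with h | ⟨p₀, hp₀, hne, h⟩
  · exact (h p hp).2
  · exfalso
    have hkill : ∀ A ∈ H, A (e p₀) = 0 := by
      intro A hA
      obtain ⟨q, hq, hq'⟩ := (h1 V U h3).2 e A he (fun x hx => hU.2.1 A hA x hx)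
        (fun x _ y _ => hH.skew A hA x y)
      obtain ⟨t, rfl⟩ := h q ⟨hq, A, hA, hq'⟩
      rw [hq', so3_im_eq hp₀, smul_mul_assoc, mul_smul_comm, sub_self, map_zero]
    have hmem : e p₀ ∈ U := by
      rw [← he.rng]
      exact LinearMap.mem_range_self e p₀
    have hle : Submodule.span ℝ {e p₀} ≤ U := by
      rw [Submodule.span_singleton_le_iff_mem]
      exact hmem
    have hinv : Inv H (Submodule.span ℝ {e p₀}) := by
      intro A hA x hx
      rw [Submodule.mem_span_singleton] at hx
      obtain ⟨c, rfl⟩ := hx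
      rw [map_smul, hkill A hA, smul_zero]
      exact Submodule.zero_mem _
    have hne' : e p₀ ≠ 0 := by
      intro h4
      have h5 := so3_ker e he p₀ h4
      rw [so3_im_eq hp₀] at h5
      exact hne h5
    rcases hU.2.2 _ hle hinv with h4 | h4
    · rw [Submodule.span_singleton_eq_bot] at h4
      exact hne' h4
    · rw [← h4, finrank_span_singleton hne'] at h3
      omega

end GOS
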