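import Pool.Agent.GOS.StA

/-!
# GOS / SO4 (helper90): irreducible subspaces of dimension four
-/

set_option autoImplicit false

namespace GOS

open scoped InnerProductSpace Quaternion

section so4

variable {V : Type} [NormedAddCommGroup V] [InnerProductSpace ℝ V]

private def so4I : ℍ := ⟨0, 1, 0, 0⟩
private def so4J : ℍ := ⟨0, 0, 1, 0⟩
private def so4K : ℍ := ⟨0, 0, 0, 1⟩

private theorem so4I1 : so4I.re = 0 := rfl
private theorem so4I2 : so4I.imI = 1 := rfl
private theorem so4I3 : so4I.imJ = 0 := rfl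
private theorem so4I4 : so4I.imK = 0 := rfl
private theorem so4J1 : so4J.re = 0 := rfl
private theorem so4J2 : so4J.imI = 0 := rfl
private theorem so4J3 : so4J.imJ = 1 := rfl
private theorem so4J4 : so4J.imK = 0 := rfl
private theorem so4K1 : so4K.re = 0 := rfl
private theorem so4K2 : so4K.imI = 0 := rfl
private theorem so4K3 : so4K.imJ = 0 := rfl
private theorem so4K4 : so4K.imK = 1 := rfl

private theorem so4_span (N : Submodule ℝ ℍ) (hi : so4I ∈ N) (hj : so4J ∈ N) (hk : so4K ∈ N) (z : ℍ)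
    (hz : z.re = 0) : z ∈ N := by
  have h : z = z.imI • so4I + z.imJ • so4J + z.imK • so4K := by
    ext <;> simp [so4I1, so4I2, so4I3, so4I4, so4J1, so4J2, so4J3, so4J4, so4K1, so4K2, so4K3, so4K4, hz]
  rw [h]
  exact N.add_mem (N.add_mem (N.smul_mem _ hi) (N.smul_mem _ hj)) (N.smul_mem _ hk)

private theorem so4_jk : so4J * so4K - so4K * so4J = (2 : ℝ) • so4I := by
  ext <;> simp [so4I1, so4I2, so4I3, so4I4, so4J1, so4J2, so4J3, so4J4, so4K1, so4K2, so4K3, so4K4]
  norm_num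

private theorem so4_ki : so4K * so4I - so4I * so4K = (2 : ℝ) • so4J := by
  ext <;> simp [so4I1, so4I2, so4I3, so4I4, so4J1, so4J2, so4J3, so4J4, so4K1, so4K2, so4K3, so4K4]
  norm_num

private theorem so4_ij : so4I * so4J - so4J * so4I = (2 : ℝ) • so4K := by
  ext <;> simp [so4I1, so4I2, so4I3, so4I4, so4J1, so4J2, so4J3, so4J4, so4K1, so4K2, so4K3, so4K4]
  norm_num

/-- an imaginary quaternion which commutes with everything vanishes -/
private theorem so4_com (p : ℍ) (hp : p.re = 0) (h : ∀ x : ℍ, x.re = 0 → p * x = x * p) : p = 0 := by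
  have h1 := h so4I rfl
  have h2 := h so4J rfl
  have e1 := congrArg QuaternionAlgebra.imJ h1
  have e2 := congrArg QuaternionAlgebra.imK h1
  have e3 := congrArg QuaternionAlgebra.imK h2
  simp [so4I1, so4I2, so4I3, so4I4, so4J1, so4J2, so4J3, so4J4] at e1 e2 e3
  ext
  · exact hp
  · change p.imI = 0
    linarith
  · change p.imJ = 0
    linarith
  · change p.imK = 0
    linarith

/-- the commutator with `p` is orthogonal to `p` -/
private theorem so4_orth (p x : ℍ) (t : ℝ) (h : p * x - x * p = t • p) : p * x = x * p := by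
  by_cases hp : p = 0
  · rw [hp]
    simp
  have e0 := congrArg QuaternionAlgebra.re h
  have e1 := congrArg QuaternionAlgebra.imI h
  have e2 := congrArg QuaternionAlgebra.imJ h
  have e3 := congrArg QuaternionAlgebra.imK h
  simp at e0 e1 e2 e3
  have key : t * (p.re ^ 2 + p.imI ^ 2 + p.imJ ^ 2 + p.imK ^ 2) = 0 := by
    linear_combination (-p.re) * e0 - p.imI * e1 - p.imJ * e2 - p.imK * e3
  have hpos : p.re ^ 2 + p.imI ^ 2 + p.imJ ^ 2 + p.imK ^ 2 ≠ 0 := by
    intro h0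
    apply hp
    ext
    · change p.re = 0
      nlinarith [sq_nonneg p.re, sq_nonneg p.imI, sq_nonneg p.imJ, sq_nonneg p.imK]
    · change p.imI = 0
      nlinarith [sq_nonneg p.re, sq_nonneg p.imI, sq_nonneg p.imJ, sq_nonneg p.imK]
    · change p.imJ = 0
      nlinarith [sq_nonneg p.re, sq_nonneg p.imI, sq_nonneg p.imJ, sq_nonneg p.imK]
    · change p.imK = 0
      nlinarith [sq_nonneg p.re, sq_nonneg p.imI, sq_nonneg p.imJ, sq_nonneg p.imK]
  have ht : t = 0 := by
    rcases mul_eq_zero.1 key with h0 | h0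
    · exact h0
    · exact absurd h0 hpos
  rw [ht, zero_smul] at h
  exact sub_eq_zero.1 h

/-- the pairs `(p, q)` which come from `H` -/
private def so4h (H : Submodule ℝ (V →ₗ[ℝ] V)) (e : ℍ →ₗ[ℝ] V) : Submodule ℝ (ℍ × ℍ) where
  carrier := {x | x.1.re = 0 ∧ x.2.re = 0 ∧ ∃ A ∈ H, ∀ z, A (e z) = e (x.1 * z - z * x.2)}
  add_mem' := by
    rintro ⟨p, q⟩ ⟨p', q'⟩ ⟨h1, h2, A, hA, hA'⟩ ⟨h1', h2', B, hB, hB'⟩
    refine ⟨?_, ?_, A + B, H.add_mem hA hB, fun z => ?_⟩
    · change (p + p').re = 0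
      change p.re = 0 at h1
      change p'.re = 0 at h1'
      simp [h1, h1']
    · change (q + q').re = 0
      change q.re = 0 at h2
      change q'.re = 0 at h2'
      simp [h2, h2']
    · rw [LinearMap.add_apply, hA', hB', ← map_add]
      congr 1
      change p * z - z * q + (p' * z - z * q') = (p + p') * z - z * (q + q')
      noncomm_ring
  zero_mem' := ⟨rfl, rfl, 0, H.zero_mem, fun z => by simp⟩
  smul_mem' := by
    rintro c ⟨p, q⟩ ⟨h1, h2, A, hA, hA'⟩
    refine ⟨?_, ?_, c • A, H.smul_mem c hA, fun z => ?_⟩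
    · change (c • p).re = 0
      change p.re = 0 at h1
      simp [h1]
    · change (c • q).re = 0
      change q.re = 0 at h2
      simp [h2]
    · rw [LinearMap.smul_apply, hA', ← map_smul]
      congr 1
      change c • (p * z - z * q) = (c • p) * z - z * (c • q)
      rw [smul_sub, smul_mul_assoc, mul_smul_comm]

private theorem so4_re (p q : ℍ) : (p * q - q * p).re = 0 := by
  simp
  ring

private theorem so4h_lie {H : Submodule ℝ (V →ₗ[ℝ] V)} (hH : SkewLie H) {e : ℍ →ₗ[ℝ] V} {p q p' q' : ℍ}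
    (h : (p, q) ∈ so4h H e) (h' : (p', q') ∈ so4h H e) :
    (p * p' - p' * p, q * q' - q' * q) ∈ so4h H e := by
  obtain ⟨-, -, A, hA, hA'⟩ := h
  obtain ⟨-, -, B, hB, hB'⟩ := h'
  refine ⟨so4_re _ _, so4_re _ _, A ∘ₗ B - B ∘ₗ A, hH.lie A hA B hB, fun z => ?_⟩
  rw [LinearMap.sub_apply, LinearMap.comp_apply, LinearMap.comp_apply, hA', hB', hA', hB', ← map_sub]
  congr 1
  change p * (p' * z - z * q') - (p' * z - z * q') * q - (p' * (p * z - z * q) - (p * z - z * q) * q') =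
    (p * p' - p' * p) * z - z * (q * q' - q' * q)
  noncomm_ring

/-- a Lie ideal of the imaginary quaternions which is not zero is everything -/
private theorem so4_ideal (hLS : St_LS3) (N : Submodule ℝ ℍ) (h0 : ∀ p ∈ N, p.re = 0)
    (hN : ∀ p ∈ N, ∀ q : ℍ, q.re = 0 → p * q - q * p ∈ N) (hne : ∃ p ∈ N, p ≠ 0) :
    ∀ z : ℍ, z.re = 0 → z ∈ N := by
  rcases hLS N h0 (fun p hp q hq => hN p hp q (h0 q hq)) with h | ⟨p₀, -, -, h⟩
  · exact h
  · exfalso
    obtain ⟨p, hp, hp0⟩ := hne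
    obtain ⟨t, ht⟩ := h p hp
    have ht0 : t ≠ 0 := by
      rintro rfl
      exact hp0 (by rw [ht, zero_smul])
    refine hp0 (so4_com p (h0 p hp) fun x hx => ?_)
    obtain ⟨s, hs⟩ := h _ (hN p hp x hx)
    refine so4_orth p x (s * t⁻¹) ?_
    rw [hs, ht, smul_smul, mul_assoc, inv_mul_cancel₀ ht0, mul_one]

private theorem so4_inj {U : Submodule ℝ V} {e : ℍ →ₗ[ℝ] V} (he : Emb4 U e) {x : ℍ} (h : e x = 0) : x = 0 := by
  have h1 := he.iso x x
  rw [h, inner_zero_left] at h1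
  exact inner_self_eq_zero.1 h1.symm

private theorem so4_inner_star (z w : ℍ) : ⟪star z, star w⟫_ℝ = ⟪z, w⟫_ℝ := by
  rw [Quaternion.inner_def, Quaternion.inner_def]
  simp

/-- the case of two lines -/
private theorem so4_lines {U : Submodule ℝ V} {H : Submodule ℝ (V →ₗ[ℝ] V)} {e : ℍ →ₗ[ℝ] V}
    (he : Emb4 U e) (hU : Irr H U) (hall : ∀ A ∈ H, ∃ p q : ℍ, (p, q) ∈ so4h H e ∧ ∀ z, A (e z) = e (p * z - z * q))
    (p₀ q₀ : ℍ) (hp₀ : p₀.re = 0) (hp : p₀ ≠ 0) (hq₀ : q₀.re = 0) (hq : q₀ ≠ 0)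
    (h1 : ∀ p q : ℍ, (p, q) ∈ so4h H e → ∃ t : ℝ, p = t • p₀)
    (h2 : ∀ p q : ℍ, (p, q) ∈ so4h H e → ∃ t : ℝ, q = t • q₀) : False := by
  -- eigenspaces
  have key : ∀ c : ℝ, (∀ x : ℍ, p₀ * x * q₀ = c • x → x = 0) ∨ (∀ x : ℍ, p₀ * x * q₀ = c • x) := by
    intro c
    let W : Submodule ℝ ℍ :=
      { carrier := {x | p₀ * x * q₀ = c • x}
        add_mem' := by
          intro a b ha hb
          change p₀ * (a + b) * q₀ = c • (a + b)
          rw [mul_add, add_mul, ha, hb, smul_add]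
        zero_mem' := by simp
        smul_mem' := by
          intro t a ha
          change p₀ * (t • a) * q₀ = c • (t • a)
          rw [mul_smul_comm, smul_mul_assoc, ha, smul_comm] }
    have hW : Inv H (W.map e) := by
      rintro A hA _ ⟨x, hx, rfl⟩
      obtain ⟨p, q, hpq, hA'⟩ := hall A hA
      obtain ⟨t, rfl⟩ := h1 p q hpq
      obtain ⟨s, rfl⟩ := h2 _ q hpq
      rw [hA']
      refine ⟨_, ?_, rfl⟩
      change p₀ * (t • p₀ * x - x * (s • q₀)) * q₀ = c • (t • p₀ * x - x * (s • q₀))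
      have hx' : p₀ * x * q₀ = c • x := hx
      have e1 : p₀ * (t • p₀ * x - x * (s • q₀)) * q₀ = t • (p₀ * (p₀ * x * q₀)) - s • ((p₀ * x * q₀) * q₀) := by
        rw [smul_mul_assoc, mul_smul_comm, mul_sub, sub_mul, mul_smul_comm, mul_smul_comm, smul_mul_assoc,
          smul_mul_assoc]
        simp only [mul_assoc]
      rw [e1, hx']
      simp only [smul_mul_assoc, mul_smul_comm, smul_sub, smul_smul]
      rw [mul_comm t c, mul_comm s c]
    have hle : W.map e ≤ U := by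
      rw [← he.rng]
      exact LinearMap.map_le_range
    rcases hU.2.2 _ hle hW with h | h
    · left
      intro x hx
      have h3 : e x ∈ W.map e := ⟨x, hx, rfl⟩
      rw [h] at h3
      exact so4_inj he ((Submodule.mem_bot ℝ).1 h3)
    · right
      intro x
      have h3 : e x ∈ W.map e := by
        rw [h, ← he.rng]
        exact ⟨x, rfl⟩
      obtain ⟨y, hy, hy'⟩ := h3
      have h4 : y = x := by
        have h5 : e (y - x) = 0 := by rw [map_sub, hy', sub_self]
        exact sub_eq_zero.1 (so4_inj he h5)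
      rw [← h4]
      exact hy
  -- the second alternative is impossible
  have key2 : ∀ c : ℝ, ¬ ∀ x : ℍ, p₀ * x * q₀ = c • x := by
    intro c h
    have h3 := h 1
    rw [mul_one] at h3
    refine hp (so4_com p₀ hp₀ fun x _ => ?_)
    have h4 : (p₀ * x - x * p₀) * q₀ = 0 := by
      rw [sub_mul, h x, mul_assoc, h3, mul_smul_comm, mul_one, sub_self]
    rcases mul_eq_zero.1 h4 with h5 | h5
    · exact sub_eq_zero.1 h5
    · exact absurd h5 hq
  -- `p₀² = -a`, `q₀² = -b`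
  have hsq : ∀ p : ℍ, p.re = 0 → p * p = (-(p.imI ^ 2 + p.imJ ^ 2 + p.imK ^ 2)) • (1 : ℍ) := by
    intro p hp
    ext <;> simp [hp] <;> ring
  set a : ℝ := p₀.imI ^ 2 + p₀.imJ ^ 2 + p₀.imK ^ 2 with ha
  set b : ℝ := q₀.imI ^ 2 + q₀.imJ ^ 2 + q₀.imK ^ 2 with hb
  have hab : 0 ≤ a * b := by positivity
  set c : ℝ := Real.sqrt (a * b) with hc
  have hcc : c * c = a * b := Real.mul_self_sqrt hab
  rcases key c with h | h
  · rcases key (-c) with h' | h'
    · -- every `x` is a sum of eigenvectors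
      have h6 : ∀ x : ℍ, p₀ * x * q₀ + c • x = 0 := by
        intro x
        apply h
        have e1 : p₀ * (p₀ * x * q₀ + c • x) * q₀ = (p₀ * p₀) * x * (q₀ * q₀) + c • (p₀ * x * q₀) := by
          rw [mul_add, add_mul, mul_smul_comm, smul_mul_assoc]
          simp only [mul_assoc]
        rw [e1, hsq p₀ hp₀, hsq q₀ hq₀, smul_add, smul_smul, hcc, smul_mul_assoc, one_mul, smul_mul_assoc,
          mul_smul_comm, mul_one, smul_smul, neg_mul_neg, add_comm]
      have h7 := h' (1 : ℍ) (by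
        have := h6 1
        rw [neg_smul]
        exact eq_neg_of_add_eq_zero_left this)
      exact one_ne_zero h7
    · exact key2 _ h'
  · exact key2 _ h

end so4

theorem thm_SO4 (hSK : St_SK4) (hLS : St_LS3) (hFIX : St_FIX) : St_SO4 := by
  intro V _ _ _ H hH U hU hdim
  obtain ⟨⟨e, he⟩, hSK'⟩ := hSK V U hdim
  have hall : ∀ A ∈ H, ∃ p q : ℍ, (p, q) ∈ so4h H e ∧ ∀ z, A (e z) = e (p * z - z * q) := by
    intro A hA
    obtain ⟨p, q, h1, h2, h3⟩ := hSK' e A he (fun x hx => hU.2.1 A hA x hx) (fun x _ y _ => hH.skew A hA x y)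
    exact ⟨p, q, ⟨h1, h2, A, hA, h3⟩, h3⟩
  -- the projections
  have hP := hLS ((so4h H e).map (LinearMap.fst ℝ ℍ ℍ)) (by
    rintro _ ⟨x, hx, rfl⟩
    exact hx.1) (by
    rintro _ ⟨x, hx, rfl⟩ _ ⟨y, hy, rfl⟩
    exact ⟨_, so4h_lie hH hx hy, rfl⟩)
  have hQ := hLS ((so4h H e).map (LinearMap.snd ℝ ℍ ℍ)) (by
    rintro _ ⟨x, hx, rfl⟩
    exact hx.2.1) (by
    rintro _ ⟨x, hx, rfl⟩ _ ⟨y, hy, rfl⟩
    exact ⟨_, so4h_lie hH hx hy, rfl⟩)
  -- conclusions
  have fin1 : (∀ p : ℍ, p.re = 0 → (p, (0 : ℍ)) ∈ so4h H e) →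
      ∃ e : ℍ →ₗ[ℝ] V, Emb4 U e ∧ ∀ a : ℍ, a.re = 0 → ∃ A ∈ H, ∀ x : ℍ, A (e x) = e (a * x) := by
    intro h
    refine ⟨e, he, fun a ha => ?_⟩
    obtain ⟨-, -, A, hA, hA'⟩ := h a ha
    refine ⟨A, hA, fun x => ?_⟩
    rw [hA']
    simp
  have fin2 : (∀ q : ℍ, q.re = 0 → ((0 : ℍ), q) ∈ so4h H e) →
      ∃ e : ℍ →ₗ[ℝ] V, Emb4 U e ∧ ∀ a : ℍ, a.re = 0 → ∃ A ∈ H, ∀ x : ℍ, A (e x) = e (a * x) := by
    intro h
    let S : ℍ →ₗ[ℝ] ℍ :=
      { toFun := star
        map_add' := star_add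
        map_smul' := fun c x => by simp }
    refine ⟨e ∘ₗ S, ⟨fun z w => ?_, ?_⟩, fun a ha => ?_⟩
    · change ⟪e (star z), e (star w)⟫_ℝ = _
      rw [he.iso, so4_inner_star]
    · rw [← he.rng]
      refine LinearMap.range_comp_of_range_eq_top e ?_
      rw [LinearMap.range_eq_top]
      intro x
      exact ⟨star x, star_star x⟩
    · obtain ⟨-, -, A, hA, hA'⟩ := h a ha
      refine ⟨A, hA, fun x => ?_⟩
      change A (e (star x)) = e (star (a * x))
      rw [hA', star_mul]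
      congr 1
      have h1 : star a = -a := Quaternion.star_eq_neg.2 ha
      change (0 : ℍ) * star x - star x * a = star x * star a
      rw [h1, zero_mul, zero_sub, mul_neg]
  -- commutators
  have hbr1 : (∀ z : ℍ, z.re = 0 → z ∈ (so4h H e).map (LinearMap.fst ℝ ℍ ℍ)) →
      (∃ q₀ : ℍ, ∀ p q : ℍ, (p, q) ∈ so4h H e → ∃ t : ℝ, q = t • q₀) →
      ∀ p : ℍ, p.re = 0 → (p, (0 : ℍ)) ∈ so4h H e := by
    rintro h ⟨q₀, hq₀⟩
    have h1 : ∀ x y z : ℍ, x.re = 0 → y.re = 0 → x * y - y * x = (2 : ℝ) • z → (z, (0 : ℍ)) ∈ so4h H e := by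
      intro x y z hx hy hxy
      obtain ⟨⟨x', q⟩, hq, hx'⟩ := h x hx
      obtain ⟨⟨y', r⟩, hr, hy'⟩ := h y hy
      change x' = x at hx'
      change y' = y at hy'
      subst hx'
      subst hy'
      have h2 := so4h_lie hH hq hr
      obtain ⟨t, rfl⟩ := hq₀ _ _ hq
      obtain ⟨s, rfl⟩ := hq₀ _ _ hr
      have h3 : (t • q₀) * (s • q₀) - (s • q₀) * (t • q₀) = 0 := by
        simp only [smul_mul_assoc, mul_smul_comm, smul_smul]
        rw [mul_comm t s, sub_self]
      rw [h3, hxy] at h2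
      have h4 := (so4h H e).smul_mem (2⁻¹ : ℝ) h2
      have h5 : (2⁻¹ : ℝ) • ((2 : ℝ) • z, (0 : ℍ)) = (z, 0) := by
        rw [Prod.smul_mk, smul_smul, smul_zero]
        norm_num
      rwa [h5] at h4
    have h2 := so4_span ((so4h H e).comap (LinearMap.inl ℝ ℍ ℍ)) (h1 _ _ _ rfl rfl so4_jk)
      (h1 _ _ _ rfl rfl so4_ki) (h1 _ _ _ rfl rfl so4_ij)
    exact h2
  have hbr2 : (∀ z : ℍ, z.re = 0 → z ∈ (so4h H e).map (LinearMap.snd ℝ ℍ ℍ)) →
      (∃ p₀ : ℍ, ∀ p q : ℍ, (p, q) ∈ so4h H e → ∃ t : ℝ, p = t • p₀) →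
      ∀ q : ℍ, q.re = 0 → ((0 : ℍ), q) ∈ so4h H e := by
    rintro h ⟨q₀, hq₀⟩
    have h1 : ∀ x y z : ℍ, x.re = 0 → y.re = 0 → x * y - y * x = (2 : ℝ) • z → ((0 : ℍ), z) ∈ so4h H e := by
      intro x y z hx hy hxy
      obtain ⟨⟨q, x'⟩, hq, hx'⟩ := h x hx
      obtain ⟨⟨r, y'⟩, hr, hy'⟩ := h y hy
      change x' = x at hx'
      change y' = y at hy'
      subst hx'
      subst hy'
      have h2 := so4h_lie hH hq hr
      obtain ⟨t, rfl⟩ := hq₀ _ _ hq
      obtain ⟨s, rfl⟩ := hq₀ _ _ hr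
      have h3 : (t • q₀) * (s • q₀) - (s • q₀) * (t • q₀) = 0 := by
        simp only [smul_mul_assoc, mul_smul_comm, smul_smul]
        rw [mul_comm t s, sub_self]
      rw [h3, hxy] at h2
      have h4 := (so4h H e).smul_mem (2⁻¹ : ℝ) h2
      have h5 : (2⁻¹ : ℝ) • ((0 : ℍ), (2 : ℝ) • z) = (0, z) := by
        rw [Prod.smul_mk, smul_smul, smul_zero]
        norm_num
      rwa [h5] at h4
    have h2 := so4_span ((so4h H e).comap (LinearMap.inr ℝ ℍ ℍ)) (h1 _ _ _ rfl rfl so4_jk)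
      (h1 _ _ _ rfl rfl so4_ki) (h1 _ _ _ rfl rfl so4_ij)
    exact h2
  rcases hP with hP | ⟨p₀, hp₀, hp, hP⟩
  · rcases hQ with hQ | ⟨q₀, hq₀, hq, hQ⟩
    · -- everything
      by_cases hI : ∃ p : ℍ, (p, (0 : ℍ)) ∈ so4h H e ∧ p ≠ 0
      · refine fin1 fun p hp => ?_
        have h1 := so4_ideal hLS ((so4h H e).comap (LinearMap.inl ℝ ℍ ℍ)) (fun p hp => hp.1)
          (fun p hp q hq => by
            obtain ⟨⟨q', r⟩, hr, hq'⟩ := hP q hq
            change q' = q at hq'
            subst hq'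
            have h2 := so4h_lie hH (show (p, (0 : ℍ)) ∈ so4h H e from hp) hr
            have h3 : (0 : ℍ) * r - r * 0 = 0 := by simp
            rw [h3] at h2
            exact h2) hI p hp
        exact h1
      by_cases hJ : ∃ q : ℍ, ((0 : ℍ), q) ∈ so4h H e ∧ q ≠ 0
      · refine fin2 fun p hp => ?_
        have h1 := so4_ideal hLS ((so4h H e).comap (LinearMap.inr ℝ ℍ ℍ)) (fun p hp => hp.2.1)
          (fun p hp q hq => by
            obtain ⟨⟨r, q'⟩, hr, hq'⟩ := hQ q hq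
            change q' = q at hq'
            subst hq'
            have h2 := so4h_lie hH (show ((0 : ℍ), p) ∈ so4h H e from hp) hr
            have h3 : (0 : ℍ) * r - r * 0 = 0 := by simp
            rw [h3] at h2
            exact h2) hJ p hp
        exact h1
      · -- the graph of an isomorphism
        exfalso
        push Not at hI hJ
        let f : so4h H e →ₗ[ℝ] ℍ := (LinearMap.fst ℝ ℍ ℍ) ∘ₗ (so4h H e).subtype
        have hf : LinearMap.ker f = ⊥ := by
          rw [LinearMap.ker_eq_bot']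
          rintro ⟨⟨p, q⟩, hx⟩ hp
          change p = 0 at hp
          subst hp
          have := hJ q hx
          subst this
          rfl
        obtain ⟨g, hg⟩ := f.exists_leftInverse_of_injective hf
        let θ : ℍ →ₗ[ℝ] ℍ := (LinearMap.snd ℝ ℍ ℍ) ∘ₗ (so4h H e).subtype ∘ₗ g
        have hθ : ∀ p q : ℍ, (p, q) ∈ so4h H e → θ p = q := by
          intro p q h
          have h1 := LinearMap.congr_fun hg ⟨(p, q), h⟩
          change g p = ⟨(p, q), h⟩ at h1
          change ((g p : so4h H e) : ℍ × ℍ).2 = q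
          rw [h1]
        have hθ' : ∀ p : ℍ, p.re = 0 → (p, θ p) ∈ so4h H e := by
          intro p hp
          obtain ⟨⟨p', q⟩, hq, hp'⟩ := hP p hp
          change p' = p at hp'
          subst hp'
          rw [hθ _ _ hq]
          exact hq
        obtain ⟨x₀, hx₀, hx⟩ := hFIX θ (fun p hp => (hθ' p hp).2.1)
          (fun p q hp hq => hθ _ _ (so4h_lie hH (hθ' p hp) (hθ' q hq)))
          ⟨so4I, rfl, fun h => by
            have h1 := hθ' so4I rfl
            rw [h] at h1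
            have h2 := hI so4I h1
            have h3 := congrArg QuaternionAlgebra.imI h2
            rw [so4I2] at h3
            exact one_ne_zero h3⟩
        have hkill : ∀ A ∈ H, A (e x₀) = 0 := by
          intro A hA
          obtain ⟨p, q, hpq, hA'⟩ := hall A hA
          rw [hA', hx p hpq.1, hθ p q hpq, sub_self, map_zero]
        have hne : e x₀ ≠ 0 := fun h => hx₀ (so4_inj he h)
        have hle : Submodule.span ℝ {e x₀} ≤ U := by
          rw [Submodule.span_singleton_le_iff_mem, ← he.rng]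
          exact ⟨x₀, rfl⟩
        rcases hU.2.2 _ hle (fun A hA x hx => by
          obtain ⟨t, rfl⟩ := Submodule.mem_span_singleton.1 hx
          rw [map_smul, hkill A hA, smul_zero]
          exact Submodule.zero_mem _) with h | h
        · exact hne ((Submodule.span_singleton_eq_bot).1 h)
        · rw [← h, finrank_span_singleton hne] at hdim
          omega
    · refine fin1 (hbr1 hP ⟨q₀, fun p q h => hQ q ⟨_, h, rfl⟩⟩)
  · rcases hQ with hQ | ⟨q₀, hq₀, hq, hQ⟩
    · refine fin2 (hbr2 hQ ⟨p₀, fun p q h => hP p ⟨_, h, rfl⟩⟩)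
    · exact (so4_lines he hU hall p₀ q₀ hp₀ hp hq₀ hq (fun p q h => hP p ⟨_, h, rfl⟩)
        fun p q h => hQ q ⟨_, h, rfl⟩).elim

end GOS
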