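import Pool.Agent.GOS.StC

/-!
# Seven-dimensional g.o. spaces (MP_cdb478_gt): module SP1
-/

set_option autoImplicit false

namespace GOS

open scoped InnerProductSpace Quaternion

private theorem sp1_comm_zero (q : ℍ) (hq : q.re = 0)
    (hc : ∀ p : ℍ, p.re = 0 → q * p - p * q = 0) : q = 0 := by
  let p1 : ℍ := ⟨0, 1, 0, 0⟩
  let p2 : ℍ := ⟨0, 0, 1, 0⟩
  have h1 := hc p1 rfl
  have h2 := hc p2 rfl
  have h1j : (q * p1 - p1 * q).imJ = 0 := by rw [h1]; rfl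
  have h1k : (q * p1 - p1 * q).imK = 0 := by rw [h1]; rfl
  have h2k : (q * p2 - p2 * q).imK = 0 := by rw [h2]; rfl
  rw [Quaternion.imJ_sub, Quaternion.imJ_mul, Quaternion.imJ_mul] at h1j
  rw [Quaternion.imK_sub, Quaternion.imK_mul, Quaternion.imK_mul] at h1k h2k
  simp only [p1, p2] at h1j h1k h2k
  ext
  · simpa using hq
  · simp; linarith
  · simp; linarith
  · simp; linarith

theorem thm_SP1 (h1 : St_QM) (h2 : St_QN3) (h3 : St_QNR) : St_SP1 := by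
  intro g _ _ _ k B c h W σ E τ ρ lam hQ hlam hρτ hτh
  obtain ⟨hcompl, hinv, J, hJre, hJ1, hJ2, _hJ3⟩ := h1 g k B c h W σ E τ ρ lam hQ
  obtain ⟨φ, hφh, hφe, hφB⟩ := h2 g k B c h W σ E τ ρ lam hQ
  have hhc : h ≤ c := by rw [hQ.chW]; exact le_sup_left
  have hWc : W ≤ c := by rw [hQ.chW]; exact le_sup_right
  have hhk : ∀ A ∈ h, A ∈ k := by
    intro A hA
    have : A ∈ k.toSubmodule := by
      rw [hQ.kdec]; exact Submodule.mem_sup_right hA
    exact this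
  have hcre : ∀ a b : ℍ, (a * b - b * a).re = 0 := by
    intro a b; simp; ring
  -- `[τ p, w] = 0`
  have hτw : ∀ p : ℍ, p.re = 0 → ∀ w ∈ W, τ (ρ w * p - p * ρ w) = 0 ∧ ⁅τ p, w⁆ = 0 := by
    intro p hp w hw
    have e1 : ⁅w, τ p⁆ = τ (ρ w * p - p * ρ w) := hQ.cτ w (hWc hw) p hp
    have e2 : ⁅τ p, w⁆ ∈ W := hQ.hWW _ (hτh p) w hw
    have e3 : ⁅τ p, w⁆ = -⁅w, τ p⁆ := (lie_skew _ _).symm
    have e4 : ⁅τ p, w⁆ ∈ h := by
      rw [e3, e1]; exact h.neg_mem (hτh _)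
    have e5 : ⁅τ p, w⁆ = 0 := (Submodule.disjoint_def.mp hQ.hW0) _ e4 e2
    refine ⟨?_, e5⟩
    rw [← e1, ← neg_eq_zero, ← e3, e5]
  have hρw : ∀ w ∈ W, ρ w = 0 := by
    intro w hw
    apply sp1_comm_zero _ (hQ.ρre w (hWc hw))
    intro p hp
    have e1 := (hτw p hp w hw).1
    have e2 := hρτ (ρ w * p - p * ρ w) (hcre _ _)
    rw [e1, map_zero] at e2
    rcases smul_eq_zero.mp e2.symm with e3 | e3
    · exact absurd (neg_eq_zero.mp e3) hlam
    · exact e3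
  have hJ0 : ∀ w ∈ W, J w = 0 := by
    intro w hw
    have e1 := hJ1 (J w) (hJre w hw) w hw
    rw [hQ.model.ker _ (hhk _ (hτh _)) w, hρw w hw, inner_zero_right, add_zero] at e1
    exact inner_self_eq_zero.mp e1
  have hρφ : ∀ w ∈ W, (ρ (φ w)).re = 0 := fun w hw => hQ.ρre _ (hhc (hφh w hw))
  have hρP : ∀ q : ℍ, q.re = 0 → ρ ((-lam⁻¹) • τ q) = q := by
    intro q hq
    rw [map_smul, hρτ q hq, smul_smul]
    have : -lam⁻¹ * -lam = 1 := by field_simp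
    rw [this, one_smul]
  refine h3 g k B c h W σ E τ ρ lam hQ hcompl hinv J hJ2
    (φ - ((-lam⁻¹) • τ) ∘ₗ ρ ∘ₗ φ) ?_ ?_ ?_ ?_
  · intro w hw
    simp only [LinearMap.sub_apply, LinearMap.comp_apply, LinearMap.smul_apply]
    exact h.sub_mem (hφh w hw) (h.smul_mem _ (hτh _))
  · intro A hA w hw
    simp only [LinearMap.sub_apply, LinearMap.comp_apply, LinearMap.smul_apply]
    rw [hφe A hA w hw, hQ.ρlie A (hhc hA) _ (hhc (hφh w hw)), lie_sub, lie_smul,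
      hQ.cτ A (hhc hA) _ (hρφ w hw)]
  · intro w hw w' hw'
    simp only [LinearMap.sub_apply, LinearMap.comp_apply, LinearMap.smul_apply]
    rw [sub_lie, smul_lie, (hτw _ (hρφ w hw) w hw).2, smul_zero, sub_zero]
    exact hφB w hw w' hw'
  · intro w hw
    simp only [LinearMap.sub_apply, LinearMap.comp_apply, LinearMap.smul_apply]
    rw [map_sub, hρP _ (hρφ w hw), sub_self, hJ0 w hw]

end GOS
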