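import Pool.Agent.GOS.StC

/-!
# GOS, module SP3: the second family, the case `h = 0` (helper67)
-/

set_option autoImplicit false
set_option linter.unusedSimpArgs false

namespace GOS

open scoped InnerProductSpace Quaternion

attribute [local instance 100] LieRing.ofAssociativeRing

namespace SP3x

/-- the matrices -/
noncomputable def MM (ε μ : ℝ) (a x p : ℍ) : Matrix (Fin 2) (Fin 2) ℍ :=
  !![a.im, μ • x; -((ε * μ) • star x), p.im]

lemma MM_mem (ε μ : ℝ) (hε : ε * ε = 1) (a x p : ℍ) : MM ε μ a x p ∈ sp ε := by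
  change (MM ε μ a x p).conjTranspose * S ε + S ε * MM ε μ a x p = 0
  have h2 : ε ^ 2 = 1 := by rw [pow_two, hε]
  ext i j <;> fin_cases i <;> fin_cases j <;>
    simp [MM, S, Matrix.mul_apply, Fin.sum_univ_two, Matrix.conjTranspose_apply]
  all_goals (ring_nf; try (simp only [h2]; ring))

/-- the elements of the Lie algebra -/
noncomputable def GG (ε μ : ℝ) (hε : ε * ε = 1) (a x p : ℍ) (r : ℝ) : SpR ε :=
  (⟨MM ε μ a x p, MM_mem ε μ hε a x p⟩, r)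

lemma GG_lie (ε μ : ℝ) (hε : ε * ε = 1) (a x p b y q : ℍ) (r r' : ℝ) :
    ⁅GG ε μ hε a x p r, GG ε μ hε b y q r'⁆ = GG ε μ hε
      (a.im * b.im - b.im * a.im - (2 * ε * μ ^ 2) • (x * star y))
      (a.im * y - b.im * x + x * q.im - y * p.im)
      (p.im * q.im - q.im * p.im - (2 * ε * μ ^ 2) • (star x * y)) 0 := by
  refine Prod.ext (Subtype.ext ?_) ?_
  · change MM ε μ a x p * MM ε μ b y q - MM ε μ b y q * MM ε μ a x p = MM ε μ _ _ _
    ext i j <;> fin_cases i <;> fin_cases j <;>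
      simp [MM, Matrix.mul_apply, Fin.sum_univ_two]
    all_goals ring
  · change r * r' - r' * r = 0
    ring

lemma GG_form (ε μ : ℝ) (hε : ε * ε = 1) (α β s : ℝ) (a x p b y q : ℍ) (r r' : ℝ) :
    spB ε α β s (GG ε μ hε a x p r) (GG ε μ hε b y q r') = α * μ ^ 2 * ⟪x, y⟫_ℝ +
      β * (p.imJ * q.imJ + p.imK * q.imK) + (s * p.imI - r) * (s * q.imI - r') := by
  change α * ⟪μ • x, μ • y⟫_ℝ + β * (p.im.imJ * q.im.imJ + p.im.imK * q.im.imK) +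
    (s * p.im.imI - r) * (s * q.im.imI - r') = _
  rw [real_inner_smul_left, real_inner_smul_right]
  simp
  ring

lemma GG_add (ε μ : ℝ) (hε : ε * ε = 1) (a x p b y q : ℍ) (r r' : ℝ) :
    GG ε μ hε (a + b) (x + y) (p + q) (r + r') = GG ε μ hε a x p r + GG ε μ hε b y q r' := by
  refine Prod.ext (Subtype.ext ?_) rfl
  change MM ε μ _ _ _ = MM ε μ a x p + MM ε μ b y q
  ext i j <;> fin_cases i <;> fin_cases j <;> simp [MM]
  all_goals ring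

lemma GG_smul (ε μ : ℝ) (hε : ε * ε = 1) (t : ℝ) (a x p : ℍ) (r : ℝ) :
    GG ε μ hε (t • a) (t • x) (t • p) (t * r) = t • GG ε μ hε a x p r := by
  refine Prod.ext (Subtype.ext ?_) rfl
  change MM ε μ _ _ _ = t • MM ε μ a x p
  ext i j <;> fin_cases i <;> fin_cases j <;> simp [MM]
  all_goals ring

/-- quaternions by coordinates -/
def qq (a b c d : ℝ) : ℍ := ⟨a, b, c, d⟩

@[simp] lemma qq_re (a b c d : ℝ) : (qq a b c d).re = a := rfl
@[simp] lemma qq_imI (a b c d : ℝ) : (qq a b c d).imI = b := rfl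
@[simp] lemma qq_imJ (a b c d : ℝ) : (qq a b c d).imJ = c := rfl
@[simp] lemma qq_imK (a b c d : ℝ) : (qq a b c d).imK = d := rfl

lemma GG_onto (ε μ : ℝ) (hε : ε * ε = 1) (hμ : μ ≠ 0) (s : ℝ) (hs : s ≠ 0) (Z : SpR ε) :
    ∃ x p : ℍ, p.re = 0 ∧ Z - GG ε μ hε 0 x p 0 ∈ spK ε s := by
  obtain ⟨M, hMd⟩ : ∃ M : Matrix (Fin 2) (Fin 2) ℍ, M = Z.1.1 := ⟨_, rfl⟩
  obtain ⟨r, hr⟩ : ∃ r : ℝ, r = Z.2 := ⟨_, rfl⟩
  have hM' : M.conjTranspose * S ε + S ε * M = 0 := by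
    rw [hMd]
    exact Z.1.2
  have e01 : star (M 0 0) * (0 : ℍ) + star (M 1 0) * (ε : ℍ) + (1 * M 0 1 + 0 * M 1 1) = 0 := by
    have k1 := congrFun (congrFun hM' 0) 1
    rw [Matrix.add_apply, Matrix.mul_apply, Matrix.mul_apply, Fin.sum_univ_two,
      Fin.sum_univ_two] at k1
    exact k1
  rw [mul_zero, zero_add, one_mul, zero_mul, add_zero] at e01
  refine ⟨μ⁻¹ • M 0 1, (M 1 1).im - qq 0 (r / s) 0 0, by simp, ?_⟩
  change Z.1.1 0 1 - μ • (μ⁻¹ • M 0 1) = 0 ∧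
    Z.1.1 1 0 - -((ε * μ) • star (μ⁻¹ • M 0 1)) = 0 ∧
    (Z.1.1 1 1 - ((M 1 1).im - qq 0 (r / s) 0 0).im).imJ = 0 ∧
    (Z.1.1 1 1 - ((M 1 1).im - qq 0 (r / s) 0 0).im).imK = 0 ∧
    Z.2 - 0 = s * (Z.1.1 1 1 - ((M 1 1).im - qq 0 (r / s) 0 0).im).imI
  rw [← hMd, ← hr]
  refine ⟨?_, ?_, ?_, ?_, ?_⟩
  · rw [smul_smul, mul_inv_cancel₀ hμ, one_smul, sub_self]
  · have k1 : M 0 1 = -(ε • star (M 1 0)) := by
      have k2 := eq_neg_of_add_eq_zero_right e01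
      rw [k2]
      ext <;> simp <;> ring
    have k3 : (ε * μ) • star (μ⁻¹ • M 0 1) = -M 1 0 := by
      rw [Quaternion.star_smul, smul_smul, mul_assoc, mul_inv_cancel₀ hμ, mul_one, k1, star_neg,
        Quaternion.star_smul, star_star, smul_neg, smul_smul, hε, one_smul]
    rw [k3, neg_neg, sub_self]
  · simp
  · simp
  · simp
    field_simp

section data

variable {g : Type} [LieRing g] [LieAlgebra ℝ g] {k : LieSubalgebra ℝ g}
    {B : g →ₗ[ℝ] g →ₗ[ℝ] ℝ} {c h W : Submodule ℝ g} {σ E τ : ℍ →ₗ[ℝ] g} {ρ : g →ₗ[ℝ] ℍ}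
    {lam : ℝ}

omit [LieAlgebra ℝ g] in
lemma map_im [Module ℝ g] (L : ℍ →ₗ[ℝ] g) (h1 : L 1 = 0) (p : ℍ) : L p = L p.im := by
  have h2 : p = p.re • (1 : ℍ) + p.im := by
    ext <;> simp
  have h3 := congrArg L h2
  rw [map_add, map_smul, h1, smul_zero, zero_add] at h3
  exact h3

/-- the map `P` -/
noncomputable def PP (τ : ℍ →ₗ[ℝ] g) (lam : ℝ) : ℍ →ₗ[ℝ] g := (-lam⁻¹) • τ

variable (H : QD k B c h W σ E τ ρ lam) (hlam : lam ≠ 0)
  (hρ : ∀ p : ℍ, p.re = 0 → ρ (τ p) = (-lam) • p)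

include H in
lemma P_one : PP τ lam 1 = 0 := by
  rw [PP, LinearMap.smul_apply, H.τ1, smul_zero]

include H in
lemma P_mem (p : ℍ) : PP τ lam p ∈ c := by
  rw [PP, LinearMap.smul_apply]
  exact Submodule.smul_mem _ _ (H.τc p)

include H hlam hρ in
lemma ρP (p : ℍ) : ρ (PP τ lam p) = p.im := by
  rw [map_im (PP τ lam) (P_one H) p, PP, LinearMap.smul_apply, map_smul, hρ _ (by simp), smul_smul]
  have h1 : -lam⁻¹ * -lam = 1 := by field_simp
  rw [h1, one_smul]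

include H hlam hρ in
lemma PPl (p q : ℍ) : ⁅PP τ lam p, PP τ lam q⁆ = PP τ lam (p.im * q.im - q.im * p.im) := by
  rw [map_im (PP τ lam) (P_one H) q]
  have h1 := H.cτ _ (P_mem H p) q.im (by simp)
  rw [ρP H hlam hρ] at h1
  have h2 : PP τ lam q.im = (-lam⁻¹) • τ q.im := rfl
  rw [h2, lie_smul, h1]
  rfl

include H hlam hρ in
lemma PE (p x : ℍ) : ⁅PP τ lam p, E x⁆ = -E (x * p.im) := by
  rw [H.cE _ (P_mem H p), ρP H hlam hρ]

include H hlam in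
lemma EE' (x y : ℍ) : ⁅E x, E y⁆ = PP τ lam (-lam • (star x * y)) + σ (-lam • (x * star y)) := by
  rw [H.EEb, PP, LinearMap.smul_apply, map_smul, map_smul, smul_smul]
  have h1 : -lam⁻¹ * -lam = 1 := by field_simp
  rw [h1, one_smul, neg_smul]
  abel

/-- the parametrisation -/
noncomputable def TT (σ E τ : ℍ →ₗ[ℝ] g) (lam : ℝ) : ℍ × ℍ × ℍ →ₗ[ℝ] g :=
  σ ∘ₗ LinearMap.fst ℝ ℍ (ℍ × ℍ) + E ∘ₗ LinearMap.fst ℝ ℍ ℍ ∘ₗ LinearMap.snd ℝ ℍ (ℍ × ℍ) +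
    PP τ lam ∘ₗ LinearMap.snd ℝ ℍ ℍ ∘ₗ LinearMap.snd ℝ ℍ (ℍ × ℍ)

lemma TT_apply (a x p : ℍ) : TT σ E τ lam (a, x, p) = σ a + E x + PP τ lam p := rfl

include H hlam hρ in
lemma TT_lie (a x p b y q : ℍ) : ⁅TT σ E τ lam (a, x, p), TT σ E τ lam (b, y, q)⁆ =
    TT σ E τ lam (a.im * b.im - b.im * a.im - lam • (x * star y),
      a.im * y - b.im * x + x * q.im - y * p.im,
      p.im * q.im - q.im * p.im - lam • (star x * y)) := by
  have h1 : ⁅E x, σ b⁆ = -E (b.im * x) := by rw [← lie_skew, H.σE]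
  have h2 : ⁅E x, PP τ lam q⁆ = E (x * q.im) := by rw [← lie_skew, PE H hlam hρ, neg_neg]
  have h3 : ⁅PP τ lam p, σ b⁆ = 0 := by rw [← lie_skew, H.σc _ _ (P_mem H p), neg_zero]
  have h4 : ⁅σ a, PP τ lam q⁆ = 0 := H.σc _ _ (P_mem H q)
  rw [TT_apply, TT_apply, TT_apply]
  simp only [add_lie, lie_add]
  rw [h1, h2, h3, h4, H.σσ, H.σE, EE' H hlam, PE H hlam hρ, PPl H hlam hρ]
  simp only [map_sub, map_add, map_smul, neg_smul, map_neg]
  abel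

include H hlam hρ in
lemma TT_ker (a x p : ℍ) (h0 : TT σ E τ lam (a, x, p) = 0) : a.im = 0 ∧ x = 0 ∧ p.im = 0 := by
  rw [TT_apply] at h0
  obtain ⟨h1, h2, h3⟩ := H.ind a x _ (P_mem H p) h0
  refine ⟨h1, h2, ?_⟩
  rw [← ρP H hlam hρ, h3, map_zero]

include H hlam hρ in
lemma c_eq [FiniteDimensional ℝ g] (hh : h = ⊥) (C : g) (hC : C ∈ c) : ∃ p, C = PP τ lam p := by
  have hcW : c = W := by rw [H.chW, hh, bot_sup_eq]
  obtain ⟨L, hL⟩ : ∃ L : (Fin 3 → ℝ) →ₗ[ℝ] g, ∀ t, L t = PP τ lam (qq 0 (t 0) (t 1) (t 2)) := by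
    refine ⟨PP τ lam ∘ₗ ⟨⟨fun t => qq 0 (t 0) (t 1) (t 2), ?_⟩, ?_⟩, fun t => rfl⟩
    · intro t t'
      ext <;> simp
    · intro r t
      ext <;> simp
  have hinj : Function.Injective L := by
    rw [injective_iff_map_eq_zero]
    intro t ht
    rw [hL] at ht
    have h1 := ρP H hlam hρ (qq 0 (t 0) (t 1) (t 2))
    rw [ht, map_zero] at h1
    funext i
    fin_cases i
    · have := congrArg QuaternionAlgebra.imI h1
      simpa using this.symm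
    · have := congrArg QuaternionAlgebra.imJ h1
      simpa using this.symm
    · have := congrArg QuaternionAlgebra.imK h1
      simpa using this.symm
  have hle : LinearMap.range L ≤ W := by
    rintro _ ⟨t, rfl⟩
    rw [hL, ← hcW]
    exact P_mem H _
  have heq : LinearMap.range L = W := by
    apply Submodule.eq_of_le_of_finrank_eq hle
    rw [LinearMap.finrank_range_of_inj hinj, H.dimW, Module.finrank_fin_fun]
  rw [hcW, ← heq] at hC
  obtain ⟨t, ht⟩ := hC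
  exact ⟨_, by rw [← ht, hL]⟩

include H hlam hρ in
lemma TT_onto [FiniteDimensional ℝ g] (hh : h = ⊥) : Function.Surjective (TT σ E τ lam) := by
  intro X
  obtain ⟨a, x, C, hC, rfl⟩ := H.dec X
  obtain ⟨p, rfl⟩ := c_eq H hlam hρ hh C hC
  exact ⟨(a, x, p), rfl⟩

include H in
lemma P_coord (p : ℍ) : PP τ lam p = p.imI • PP τ lam (qq 0 1 0 0) +
    p.imJ • PP τ lam (qq 0 0 1 0) + p.imK • PP τ lam (qq 0 0 0 1) := by
  have h2 : p = p.re • (1 : ℍ) + p.imI • qq 0 1 0 0 + p.imJ • qq 0 0 1 0 + p.imK • qq 0 0 0 1 := by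
    ext <;> simp
  have h3 := congrArg (PP τ lam) h2
  rw [map_add, map_add, map_add, map_smul, map_smul, map_smul, map_smul, P_one H, smul_zero,
    zero_add] at h3
  exact h3

include H hlam hρ in
lemma B_P (hh : h = ⊥) : ∃ β : ℝ, 0 < β ∧ ∀ p q : ℍ, B (PP τ lam p) (PP τ lam q) =
    β * (p.imI * q.imI + p.imJ * q.imJ + p.imK * q.imK) := by
  obtain ⟨u, hu⟩ : ∃ u, u = PP τ lam (qq 0 1 0 0) := ⟨_, rfl⟩
  obtain ⟨v, hv⟩ : ∃ v, v = PP τ lam (qq 0 0 1 0) := ⟨_, rfl⟩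
  obtain ⟨w, hw⟩ : ∃ w, w = PP τ lam (qq 0 0 0 1) := ⟨_, rfl⟩
  have hcW : c = W := by rw [H.chW, hh, bot_sup_eq]
  have hgo : ∀ x ∈ c, ∀ y ∈ c, B ⁅y, x⁆ x = 0 := by
    intro x hx y hy
    rw [hcW] at hx hy
    obtain ⟨A, hA, h1⟩ := H.go x hx
    rw [hh, Submodule.mem_bot] at hA
    rw [h1 y hy, hA, zero_lie, map_zero, LinearMap.zero_apply]
  have huc : u ∈ c := hu ▸ P_mem H _
  have hvc : v ∈ c := hv ▸ P_mem H _
  have hwc : w ∈ c := hw ▸ P_mem H _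
  have l1 : ⁅u, v⁆ = (2 : ℝ) • w := by
    rw [hu, hv, hw, PPl H hlam hρ, ← map_smul]
    congr 1
    ext <;> (simp; try norm_num)
  have l2 : ⁅v, w⁆ = (2 : ℝ) • u := by
    rw [hu, hv, hw, PPl H hlam hρ, ← map_smul]
    congr 1
    ext <;> (simp; try norm_num)
  have l3 : ⁅w, u⁆ = (2 : ℝ) • v := by
    rw [hu, hv, hw, PPl H hlam hρ, ← map_smul]
    congr 1
    ext <;> (simp; try norm_num)
  have l4 : ⁅u, w⁆ = (-2 : ℝ) • v := by rw [← lie_skew, l3, neg_smul]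
  have l5 : ⁅v, u⁆ = (-2 : ℝ) • w := by rw [← lie_skew, l1, neg_smul]
  have g1 := hgo v hvc u huc
  have g2 := hgo w hwc v hvc
  have g3 := hgo u huc w hwc
  have g4 := hgo (v + w) (c.add_mem hvc hwc) u huc
  have g5 := hgo (u + w) (c.add_mem huc hwc) v hvc
  have s1 := H.model.symm v w
  have s2 := H.model.symm u w
  have s3 := H.model.symm u v
  simp only [lie_add, l1, l2, l3, l4, l5, map_add, map_smul, LinearMap.add_apply,
    LinearMap.smul_apply, smul_eq_mul] at g1 g2 g3 g4 g5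
  have hwk : w ∉ k := by
    intro hwk
    have h1 : w ∈ k.toSubmodule := hwk
    rw [H.kdec, hh, sup_bot_eq] at h1
    obtain ⟨a, ha⟩ := h1
    have h2 : σ (-a) + E 0 + w = 0 := by
      rw [map_neg, map_zero, ha, add_zero, neg_add_cancel]
    have h3 := (H.ind _ _ _ hwc h2).2.2
    have h4 := ρP H hlam hρ (qq 0 0 0 1)
    rw [← hw, h3, map_zero] at h4
    have h5 := congrArg QuaternionAlgebra.imK h4
    simp at h5
  refine ⟨B w w, H.model.pos w hwk, fun p q => ?_⟩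
  rw [P_coord H p, P_coord H q, ← hu, ← hv, ← hw]
  simp only [map_add, map_smul, LinearMap.add_apply, LinearMap.smul_apply, smul_eq_mul]
  have e1 : B v v = B w w := by linarith
  have e2 : B u u = B w w := by linarith
  have e3 : B w v = 0 := by linarith
  have e4 : B v w = 0 := by linarith
  have e5 : B u w = 0 := by linarith
  have e6 : B w u = 0 := by linarith
  have e7 : B v u = 0 := by linarith
  have e8 : B u v = 0 := by linarith
  rw [e1, e2, e3, e4, e5, e6, e7, e8]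
  ring

include H in
lemma B_TT {β : ℝ} (hβ : ∀ p q : ℍ, B (PP τ lam p) (PP τ lam q) =
    β * (p.imI * q.imI + p.imJ * q.imJ + p.imK * q.imK)) (a x p b y q : ℍ) :
    B (TT σ E τ lam (a, x, p)) (TT σ E τ lam (b, y, q)) = ⟪x, y⟫_ℝ +
      β * (p.imI * q.imI + p.imJ * q.imJ + p.imK * q.imK) := by
  have hσk : ∀ a, σ a ∈ k := by
    intro a
    have h1 : σ a ∈ k.toSubmodule := by
      rw [H.kdec]
      exact Submodule.mem_sup_left ⟨a, rfl⟩
    exact h1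
  have h1 : ∀ a X, B (σ a) X = 0 := fun a X => H.model.ker _ (hσk a) X
  have h2 : ∀ a X, B X (σ a) = 0 := fun a X => by rw [H.model.symm, h1]
  have h3 : ∀ x p, B (E x) (PP τ lam p) = 0 := fun x p => H.BEc x _ (P_mem H p)
  have h4 : ∀ x p, B (PP τ lam p) (E x) = 0 := fun x p => by rw [H.model.symm, h3]
  rw [TT_apply, TT_apply]
  simp only [map_add, LinearMap.add_apply, h1, h2, h3, h4, hβ, H.BEE]
  ring

end data

end SP3x

theorem thm_SP3 : St_SP3 := by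
  intro g _ _ _ k B c h W σ E τ ρ lam H hlam hρ hh
  obtain ⟨β, hβ0, hβ⟩ := SP3x.B_P H hlam hρ hh
  obtain ⟨ε, hε1, hε⟩ : ∃ ε : ℝ, (ε = 1 ∨ ε = -1) ∧ ε * |lam| = lam := by
    rcases lt_or_gt_of_ne hlam with h1 | h1
    · exact ⟨-1, Or.inr rfl, by rw [abs_of_neg h1]; ring⟩
    · exact ⟨1, Or.inl rfl, by rw [abs_of_pos h1]; ring⟩
  have hεε : ε * ε = 1 := by
    rcases hε1 with h1 | h1 <;> rw [h1] <;> norm_num
  obtain ⟨μ, hμ⟩ : ∃ μ : ℝ, μ = Real.sqrt (|lam| / 2) := ⟨_, rfl⟩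
  have habs : 0 < |lam| := abs_pos.2 hlam
  have hμ0 : μ ≠ 0 := by
    rw [hμ]
    exact (Real.sqrt_pos.2 (by positivity)).ne'
  have hμ2 : μ ^ 2 = |lam| / 2 := by
    rw [hμ, Real.sq_sqrt (by positivity)]
  have hlam' : 2 * ε * μ ^ 2 = lam := by
    have h1 : 2 * ε * (|lam| / 2) = ε * |lam| := by ring
    rw [hμ2, h1, hε]
  obtain ⟨s, hs⟩ : ∃ s : ℝ, s = Real.sqrt β := ⟨_, rfl⟩
  have hs0 : s ≠ 0 := by
    rw [hs]
    exact (Real.sqrt_pos.2 hβ0).ne'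
  have hs2 : s ^ 2 = β := by rw [hs, Real.sq_sqrt hβ0.le]
  -- the linear map
  obtain ⟨G, hG⟩ : ∃ G : ℍ × ℍ × ℍ →ₗ[ℝ] SpR ε,
      ∀ a x p, G (a, x, p) = SP3x.GG ε μ hεε a x p 0 := by
    refine ⟨⟨⟨fun v => SP3x.GG ε μ hεε v.1 v.2.1 v.2.2 0, ?_⟩, ?_⟩, fun a x p => rfl⟩
    · intro v v'
      change SP3x.GG ε μ hεε (v.1 + v'.1) (v.2.1 + v'.2.1) (v.2.2 + v'.2.2) 0 = _
      have h1 := SP3x.GG_add ε μ hεε v.1 v.2.1 v.2.2 v'.1 v'.2.1 v'.2.2 0 0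
      rw [add_zero] at h1
      exact h1
    · intro t v
      change SP3x.GG ε μ hεε (t • v.1) (t • v.2.1) (t • v.2.2) 0 = t • SP3x.GG ε μ hεε _ _ _ 0
      have h1 := SP3x.GG_smul ε μ hεε t v.1 v.2.1 v.2.2 0
      rw [mul_zero] at h1
      exact h1
  obtain ⟨R, hR⟩ := LinearMap.exists_rightInverse_of_surjective (SP3x.TT σ E τ lam)
    (LinearMap.range_eq_top.2 (SP3x.TT_onto H hlam hρ hh))
  obtain ⟨f, hf⟩ : ∃ f : g →ₗ[ℝ] SpR ε, ∀ v, f (SP3x.TT σ E τ lam v) = G v := by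
    refine ⟨G ∘ₗ R, fun v => ?_⟩
    have h1 : SP3x.TT σ E τ lam (R (SP3x.TT σ E τ lam v) - v) = 0 := by
      have h2 := LinearMap.congr_fun hR (SP3x.TT σ E τ lam v)
      rw [LinearMap.comp_apply, LinearMap.id_apply] at h2
      rw [map_sub, h2, sub_self]
    have h3 : G (R (SP3x.TT σ E τ lam v) - v) = 0 := by
      rcases hv : R (SP3x.TT σ E τ lam v) - v with ⟨a, x, p⟩
      rw [hv] at h1
      obtain ⟨h4, h5, h6⟩ := SP3x.TT_ker H hlam hρ a x p h1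
      rw [hG]
      refine Prod.ext (Subtype.ext ?_) rfl
      change SP3x.MM ε μ a x p = 0
      rw [SP3x.MM, h4, h5, h6]
      ext i j <;> fin_cases i <;> fin_cases j <;> simp
    rw [LinearMap.comp_apply]
    rw [map_sub] at h3
    exact sub_eq_zero.1 h3
  have hflie : ∀ X Y : g, f ⁅X, Y⁆ = ⁅f X, f Y⁆ := by
    intro X Y
    obtain ⟨⟨a, x, p⟩, rfl⟩ := SP3x.TT_onto H hlam hρ hh X
    obtain ⟨⟨b, y, q⟩, rfl⟩ := SP3x.TT_onto H hlam hρ hh Y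
    rw [SP3x.TT_lie H hlam hρ, hf, hf, hf, hG, hG, hG, SP3x.GG_lie, hlam']
  refine ⟨ε, (μ ^ 2)⁻¹, β, s, hε1, by positivity, hβ0,
    { f with map_lie' := fun {X Y} => hflie X Y }, ?_, ?_⟩
  · intro X Y
    obtain ⟨⟨a, x, p⟩, rfl⟩ := SP3x.TT_onto H hlam hρ hh X
    obtain ⟨⟨b, y, q⟩, rfl⟩ := SP3x.TT_onto H hlam hρ hh Y
    change spB ε (μ ^ 2)⁻¹ β s (f (SP3x.TT σ E τ lam (a, x, p)))
      (f (SP3x.TT σ E τ lam (b, y, q))) = _
    rw [hf, hf, hG, hG, SP3x.GG_form, SP3x.B_TT H hβ, ← hs2]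
    have h1 : (μ ^ 2)⁻¹ * μ ^ 2 = 1 := inv_mul_cancel₀ (by positivity)
    rw [h1]
    ring
  · intro Z
    obtain ⟨x, p, _, hZ⟩ := SP3x.GG_onto ε μ hεε hμ0 s hs0 Z
    refine ⟨SP3x.TT σ E τ lam (0, x, p), ?_⟩
    change Z - f (SP3x.TT σ E τ lam (0, x, p)) ∈ spK ε s
    rw [hf, hG]
    exact hZ

end GOS
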