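import Pool.Agent.GOS.SPX

/-!
# GOS, module SP4 (helper1 for helper15)
-/

set_option autoImplicit false

namespace GOS

open scoped InnerProductSpace Quaternion

namespace SP4x

section coords

variable {g : Type} [LieRing g] [LieAlgebra ℝ g] {k : LieSubalgebra ℝ g}
  {B : g →ₗ[ℝ] g →ₗ[ℝ] ℝ} {c h W : Submodule ℝ g} {σ E : ℍ →ₗ[ℝ] g} {ρ : g →ₗ[ℝ] ℍ}

theorem map_im {τ : ℍ →ₗ[ℝ] g} (h1 : τ 1 = 0) (a : ℍ) : τ a = τ a.im := by
  have h2 : a = a.re • (1 : ℍ) + a.im := by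
    ext <;> simp
  conv_lhs => rw [h2, map_add, map_smul, h1, smul_zero, zero_add]

/-- the coordinates `pa, px, pc` -/
theorem coords (Q : QB k B c h W σ E ρ) : ∃ (pa px : g →ₗ[ℝ] ℍ) (pc : g →ₗ[ℝ] g),
    (∀ X, (pa X).re = 0) ∧ (∀ X, pc X ∈ c) ∧ (∀ X, X = σ (pa X) + E (px X) + pc X) ∧
    ∀ a x : ℍ, ∀ C ∈ c, pa (σ a + E x + C) = a.im ∧ px (σ a + E x + C) = x ∧
      pc (σ a + E x + C) = C := by
  choose fa fx fC hfC hf using Q.dec
  have uniq : ∀ X : g, ∀ a x : ℍ, ∀ C ∈ c, X = σ a + E x + C →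
      (fa X).im = a.im ∧ fx X = x ∧ fC X = C := by
    intro X a x C hC hX
    have h1 := Q.ind (fa X - a) (fx X - x) (fC X - C) (c.sub_mem (hfC X) hC) (by
      rw [map_sub, map_sub]
      have h2 := hf X
      have h3 : σ (fa X) - σ a + (E (fx X) - E x) + (fC X - C) =
          (σ (fa X) + E (fx X) + fC X) - (σ a + E x + C) := by abel
      rw [h3, ← h2, ← hX, sub_self])
    refine ⟨?_, sub_eq_zero.1 h1.2.1, sub_eq_zero.1 h1.2.2⟩
    have h2 := h1.1
    have h3 : (fa X - a).im = (fa X).im - a.im := by ext <;> simp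
    rw [h3, sub_eq_zero] at h2
    exact h2
  let pa : g →ₗ[ℝ] ℍ :=
    { toFun := fun X => (fa X).im
      map_add' := by
        intro X Y
        have h1 := (uniq (X + Y) (fa X + fa Y) (fx X + fx Y) (fC X + fC Y)
          (c.add_mem (hfC X) (hfC Y)) (by
            rw [map_add, map_add]
            conv_lhs => rw [hf X, hf Y]
            abel)).1
        rw [h1]
        ext <;> simp
      map_smul' := by
        intro t X
        have h1 := (uniq (t • X) (t • fa X) (t • fx X) (t • fC X) (c.smul_mem t (hfC X)) (by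
            rw [map_smul, map_smul, ← smul_add, ← smul_add]
            conv_lhs => rw [hf X])).1
        rw [h1]
        ext <;> simp }
  let px : g →ₗ[ℝ] ℍ :=
    { toFun := fx
      map_add' := by
        intro X Y
        exact (uniq (X + Y) (fa X + fa Y) (fx X + fx Y) (fC X + fC Y)
          (c.add_mem (hfC X) (hfC Y)) (by
            rw [map_add, map_add]
            conv_lhs => rw [hf X, hf Y]
            abel)).2.1
      map_smul' := by
        intro t X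
        exact (uniq (t • X) (t • fa X) (t • fx X) (t • fC X) (c.smul_mem t (hfC X)) (by
            rw [map_smul, map_smul, ← smul_add, ← smul_add]
            conv_lhs => rw [hf X])).2.1 }
  let pc : g →ₗ[ℝ] g :=
    { toFun := fC
      map_add' := by
        intro X Y
        exact (uniq (X + Y) (fa X + fa Y) (fx X + fx Y) (fC X + fC Y)
          (c.add_mem (hfC X) (hfC Y)) (by
            rw [map_add, map_add]
            conv_lhs => rw [hf X, hf Y]
            abel)).2.2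
      map_smul' := by
        intro t X
        exact (uniq (t • X) (t • fa X) (t • fx X) (t • fC X) (c.smul_mem t (hfC X)) (by
            rw [map_smul, map_smul, ← smul_add, ← smul_add]
            conv_lhs => rw [hf X])).2.2 }
  refine ⟨pa, px, pc, fun X => by show ((fa X).im).re = 0; simp, hfC, fun X => ?_,
    fun a x C hC => uniq _ a x C hC rfl⟩
  show X = σ (fa X).im + E (fx X) + fC X
  rw [← map_im Q.σ1]
  exact hf X

end coords

section quat

theorem re_conj (v n : ℍ) (hn : n.re = 0) : (star v * n * v).re = 0 := by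
  simp [hn]
  ring

theorem conj_im {v : ℍ} (hv : star v * v = 1) (m : ℍ) :
    (star v * m * v).im = star v * m.im * v := by
  have h1 : m = m.re • (1 : ℍ) + m.im := by
    ext <;> simp
  have h2 : star v * m * v = m.re • (1 : ℍ) + star v * m.im * v := by
    conv_lhs => rw [h1, mul_add, add_mul, mul_smul_comm, smul_mul_assoc, mul_one, hv]
  have h3 : (star v * m.im * v).re = 0 := re_conj v m.im (by simp)
  rw [h2]
  have h4 : (m.re • (1 : ℍ) + star v * m.im * v).im = (star v * m.im * v).im := by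
    ext <;> simp
  rw [h4, SPX.im_eq h3]

theorem inner_mul_right' {v : ℍ} (hv : v * star v = 1) (x y : ℍ) :
    ⟪x * v, y * v⟫_ℝ = ⟪x, y⟫_ℝ := by
  rw [Quaternion.inner_def, Quaternion.inner_def, star_mul, mul_assoc x v, ← mul_assoc v, hv,
    one_mul]

/-- the real part as a linear map -/
noncomputable def reL : ℍ →ₗ[ℝ] ℝ where
  toFun q := q.re
  map_add' := fun x y => by simp
  map_smul' := fun t x => by simp

theorem finrank_im : Module.finrank ℝ (LinearMap.ker reL) = 3 := by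
  have h1 := LinearMap.finrank_range_add_finrank_ker reL
  have h2 : LinearMap.range reL = ⊤ := by
    rw [LinearMap.range_eq_top]
    intro t
    exact ⟨(t : ℍ), by show ((t : ℍ)).re = t; simp⟩
  rw [h2, finrank_top, Module.finrank_self, Quaternion.finrank_eq_four] at h1
  omega

end quat

section lie

variable {g : Type} [LieRing g] [LieAlgebra ℝ g] {k : LieSubalgebra ℝ g}
  {B : g →ₗ[ℝ] g →ₗ[ℝ] ℝ} {c h W : Submodule ℝ g} {σ E τ : ℍ →ₗ[ℝ] g} {ρ : g →ₗ[ℝ] ℍ}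
  {lam : ℝ}

theorem lie_formula (Q : QD k B c h W σ E τ ρ lam) {a x b y : ℍ} {C D : g} (ha : a.re = 0)
    (hb : b.re = 0) (hC : C ∈ c) (hD : D ∈ c) :
    ⁅σ a + E x + C, σ b + E y + D⁆ = σ (a * b - b * a - lam • (x * star y)) +
      E (a * y - b * x + x * ρ D - y * ρ C) + (τ (star x * y) + ⁅C, D⁆) := by
  simp only [add_lie, lie_add]
  rw [Q.σσ, Q.σE, Q.σc a D hD, ← lie_skew (E x) (σ b), Q.σE, Q.EEb, ← lie_skew (E x) D, Q.cE D hD,
    ← lie_skew C (σ b), Q.σc b C hC, Q.cE C hC, SPX.im_eq ha, SPX.im_eq hb]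
  simp only [map_sub, map_add, map_smul, neg_neg, neg_zero]
  abel

theorem B_formula (Q : QD k B c h W σ E τ ρ lam) {a x b y : ℍ} {C D : g}
    (hC : C ∈ c) (hD : D ∈ c) :
    B (σ a + E x + C) (σ b + E y + D) = ⟪x, y⟫_ℝ + B C D := by
  have hσ : ∀ a, σ a ∈ k := by
    intro a
    have h1 : σ a ∈ k.toSubmodule := by
      rw [Q.kdec]
      exact Submodule.mem_sup_left ⟨a, rfl⟩
    exact h1
  have h1 : ∀ a X, B (σ a) X = 0 := fun a X => Q.model.ker _ (hσ a) X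
  have h2 : ∀ a X, B X (σ a) = 0 := fun a X => by rw [Q.model.symm, h1]
  have h3 : B C (E y) = 0 := by rw [Q.model.symm, Q.BEc y C hC]
  simp only [map_add, LinearMap.add_apply]
  rw [h1, h1, h1, h2, h2, h3, Q.BEc x D hD, Q.BEE]
  ring

/-- the section of `ρ` -/
noncomputable def PP (τ : ℍ →ₗ[ℝ] g) (lam : ℝ) : ℍ →ₗ[ℝ] g := (-lam⁻¹) • τ

theorem PP_apply (p : ℍ) : PP τ lam p = (-lam⁻¹) • τ p := rfl

theorem PP_mem (Q : QD k B c h W σ E τ ρ lam) (p : ℍ) : PP τ lam p ∈ c :=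
  c.smul_mem _ (Q.τc p)

theorem PP_im (Q : QD k B c h W σ E τ ρ lam) (p : ℍ) : PP τ lam p = PP τ lam p.im := by
  rw [PP_apply, PP_apply, map_im Q.τ1 p]

theorem ρ_PP (Q : QD k B c h W σ E τ ρ lam) (hlam : lam ≠ 0)
    (hρ : ∀ p : ℍ, p.re = 0 → ρ (τ p) = (-lam) • p) (p : ℍ) : ρ (PP τ lam p) = p.im := by
  rw [PP_apply, map_smul, map_im Q.τ1 p, hρ p.im (by simp), smul_smul, neg_mul_neg,
    inv_mul_cancel₀ hlam, one_smul]

theorem τ_PP (hlam : lam ≠ 0) (p : ℍ) : τ p = PP τ lam ((-lam) • p) := by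
  rw [PP_apply, map_smul, smul_smul, neg_mul_neg, inv_mul_cancel₀ hlam, one_smul]

theorem lie_PP (Q : QD k B c h W σ E τ ρ lam) {C : g} (hC : C ∈ c) (p : ℍ) (hp : p.re = 0) :
    ⁅C, PP τ lam p⁆ = PP τ lam (ρ C * p - p * ρ C) := by
  rw [PP_apply, lie_smul, Q.cτ C hC p hp, PP_apply]

theorem sub_mem_ker (Q : QD k B c h W σ E τ ρ lam) (hlam : lam ≠ 0)
    (hρ : ∀ p : ℍ, p.re = 0 → ρ (τ p) = (-lam) • p) {C : g} (hC : C ∈ c) :
    C - PP τ lam (ρ C) ∈ c ∧ ρ (C - PP τ lam (ρ C)) = 0 := by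
  refine ⟨c.sub_mem hC (PP_mem Q _), ?_⟩
  rw [map_sub, ρ_PP Q hlam hρ, SPX.im_eq (Q.ρre C hC), sub_self]

/-- the elements of `c` in `k` are in `h` -/
theorem mem_h (Q : QD k B c h W σ E τ ρ lam) {C : g} (hC : C ∈ c) (hk : C ∈ k) : C ∈ h := by
  have h1 : C ∈ LinearMap.range σ ⊔ h := by
    rw [← Q.kdec]
    exact hk
  obtain ⟨_, ⟨a, rfl⟩, D, hD, h2⟩ := Submodule.mem_sup.1 h1
  have hDc : D ∈ c := by
    rw [Q.chW]
    exact Submodule.mem_sup_left hD
  have h3 := (Q.ind a 0 (D - C) (c.sub_mem hDc hC) (by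
    rw [map_zero, add_zero, ← h2]
    abel)).2.2
  rw [← sub_eq_zero.1 h3]
  exact hD

/-- the kernel of `ρ` on `c` is a line -/
theorem exists_z [FiniteDimensional ℝ g] (Q : QD k B c h W σ E τ ρ lam) (hlam : lam ≠ 0)
    (hρ : ∀ p : ℍ, p.re = 0 → ρ (τ p) = (-lam) • p) (hh : Module.finrank ℝ h = 1) :
    ∃ z ∈ c, ρ z = 0 ∧ z ≠ 0 ∧ ∀ C ∈ c, ρ C = 0 → ∃ t : ℝ, C = t • z := by
  have h1 : Module.finrank ℝ c = 4 := by
    have h2 := Submodule.finrank_sup_add_finrank_inf_eq h W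
    rw [← Q.chW, Q.hW0.eq_bot, finrank_bot, hh, Q.dimW] at h2
    omega
  let r : c →ₗ[ℝ] ℍ := ρ ∘ₗ c.subtype
  have h2 : LinearMap.range r = LinearMap.ker reL := by
    apply le_antisymm
    · rintro _ ⟨C, rfl⟩
      exact Q.ρre C.1 C.2
    · intro p hp
      have hp' : p.re = 0 := hp
      refine ⟨⟨PP τ lam p, PP_mem Q p⟩, ?_⟩
      show ρ (PP τ lam p) = p
      rw [ρ_PP Q hlam hρ, SPX.im_eq hp']
  have h3 := LinearMap.finrank_range_add_finrank_ker r
  rw [h2, finrank_im, h1] at h3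
  have h4 : Module.finrank ℝ (LinearMap.ker r) = 1 := by omega
  obtain ⟨z, hz, hz'⟩ := finrank_eq_one_iff'.1 h4
  refine ⟨z.1.1, z.1.2, z.2, fun h5 => hz (Subtype.ext (Subtype.ext h5)), fun C hC hC0 => ?_⟩
  obtain ⟨t, ht⟩ := hz' ⟨⟨C, hC⟩, hC0⟩
  exact ⟨t, (congrArg (fun x => x.1.1) ht).symm⟩

theorem z_central (Q : QD k B c h W σ E τ ρ lam) (hlam : lam ≠ 0)
    (hρ : ∀ p : ℍ, p.re = 0 → ρ (τ p) = (-lam) • p) {z : g} (hz : z ∈ c) (hz0 : ρ z = 0)
    (hz' : ∀ C ∈ c, ρ C = 0 → ∃ t : ℝ, C = t • z) {C : g} (hC : C ∈ c) : ⁅z, C⁆ = 0 := by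
  obtain ⟨h1, h2⟩ := sub_mem_ker Q hlam hρ hC
  obtain ⟨t, ht⟩ := hz' _ h1 h2
  have h3 : C = PP τ lam (ρ C) + t • z := by
    rw [← ht]
    abel
  rw [h3, lie_add, lie_smul, lie_self, smul_zero, add_zero, lie_PP Q hz _ (Q.ρre C hC), hz0,
    zero_mul, mul_zero, sub_zero, map_zero]

end lie

end SP4x

open SP4x in
/-- **SP4** -/
theorem thm_SP4 (hROT : St_ROT) : St_SP4 := by
  intro g _ _ _ k B c h W σ E τ ρ lam Q hlam hρ hfa hh1
  have hM := Q.model
  have hhc : ∀ A ∈ h, A ∈ c := fun A hA => by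
    rw [Q.chW]
    exact Submodule.mem_sup_left hA
  have hWc : ∀ w ∈ W, w ∈ c := fun w hw => by
    rw [Q.chW]
    exact Submodule.mem_sup_right hw
  have hhk : ∀ A ∈ h, A ∈ k := fun A hA => by
    have h1 : A ∈ k.toSubmodule := by
      rw [Q.kdec]
      exact Submodule.mem_sup_right hA
    exact h1
  obtain ⟨z₀, hz₀c, hz₀ρ, hz₀, hz₀'⟩ := exists_z Q hlam hρ hh1
  have hcen₀ : ∀ C ∈ c, ⁅z₀, C⁆ = 0 := fun C hC => z_central Q hlam hρ hz₀c hz₀ρ hz₀' hC
  -- the generator of `h`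
  obtain ⟨A₁, hA₁, hA₁'⟩ := finrank_eq_one_iff'.1 hh1
  have hA₁h : (A₁ : g) ∈ h := A₁.2
  have hA₁0 : (A₁ : g) ≠ 0 := fun h1 => hA₁ (Subtype.ext h1)
  have hspan : ∀ C ∈ h, ∃ t : ℝ, t • (A₁ : g) = C := by
    intro C hC
    obtain ⟨t, ht⟩ := hA₁' ⟨C, hC⟩
    exact ⟨t, congrArg Subtype.val ht⟩
  have hp₁ : ρ A₁ ≠ 0 := by
    intro h1
    obtain ⟨t, ht⟩ := hz₀' _ (hhc _ hA₁h) h1
    apply hA₁0
    apply hfa _ hA₁h
    intro w hw
    rw [ht, smul_lie, hcen₀ w (hWc w hw), smul_zero]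
  have hp₁n : 0 < ‖ρ A₁‖ := norm_pos_iff.2 hp₁
  obtain ⟨A, hA⟩ : ∃ A : g, A = ‖ρ A₁‖⁻¹ • (A₁ : g) := ⟨_, rfl⟩
  have hAh : A ∈ h := by
    rw [hA]
    exact h.smul_mem _ hA₁h
  have hAc := hhc A hAh
  have hAk := hhk A hAh
  have hspanA : ∀ C ∈ h, ∃ t : ℝ, C = t • A := by
    intro C hC
    obtain ⟨t, ht⟩ := hspan C hC
    refine ⟨t * ‖ρ A₁‖, ?_⟩
    rw [hA, smul_smul, mul_assoc, mul_inv_cancel₀ hp₁n.ne', mul_one, ht]
  obtain ⟨p₀, hp₀⟩ : ∃ p₀ : ℍ, p₀ = ρ A := ⟨_, rfl⟩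
  have hp₀n : ‖p₀‖ = 1 := by
    rw [hp₀, hA, map_smul, norm_smul, norm_inv, norm_norm, inv_mul_cancel₀ hp₁n.ne']
  have hp₀re : p₀.re = 0 := by
    rw [hp₀]
    exact Q.ρre A hAc
  obtain ⟨I1, hI1⟩ : ∃ q : ℍ, q = ⟨0, 1, 0, 0⟩ := ⟨_, rfl⟩
  obtain ⟨J1, hJ1⟩ : ∃ q : ℍ, q = ⟨0, 0, 1, 0⟩ := ⟨_, rfl⟩
  obtain ⟨K1, hK1⟩ : ∃ q : ℍ, q = ⟨0, 0, 0, 1⟩ := ⟨_, rfl⟩
  have hJ1re : J1.re = 0 := by rw [hJ1]
  have hK1re : K1.re = 0 := by rw [hK1]
  have hIJ : I1 * J1 - J1 * I1 = (2 : ℝ) • K1 := by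
    rw [hI1, hJ1, hK1]
    ext <;> simp <;> norm_num
  have hIK : I1 * K1 - K1 * I1 = (-2 : ℝ) • J1 := by
    rw [hI1, hJ1, hK1]
    ext <;> simp <;> norm_num
  have hJ10 : J1 ≠ 0 := by
    intro h1
    have h2 := congrArg QuaternionAlgebra.imJ h1
    rw [hJ1] at h2
    exact one_ne_zero h2
  have hIJK : ∀ q : ℍ, q.re = 0 → q = q.imI • I1 + q.imJ • J1 + q.imK • K1 := by
    intro q hq
    rw [hI1, hJ1, hK1]
    ext <;> simp [hq]
  obtain ⟨v, hv1, hv2, hv3⟩ := hROT p₀ I1 hp₀re hp₀n hI1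
  -- `z`
  have hz₀k : z₀ ∉ k := by
    intro h1
    obtain ⟨t, ht⟩ := hspanA _ (mem_h Q hz₀c h1)
    have h2 : t • p₀ = 0 := by
      rw [hp₀, ← map_smul, ← ht, hz₀ρ]
    rcases smul_eq_zero.1 h2 with h3 | h3
    · rw [h3, zero_smul] at ht
      exact hz₀ ht
    · rw [h3, norm_zero] at hp₀n
      exact zero_ne_one hp₀n
  have hBz₀ := hM.pos z₀ hz₀k
  obtain ⟨z, hz⟩ : ∃ z : g, z = (Real.sqrt (B z₀ z₀))⁻¹ • z₀ := ⟨_, rfl⟩
  have hsq : 0 < Real.sqrt (B z₀ z₀) := Real.sqrt_pos.2 hBz₀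
  have hzc : z ∈ c := by
    rw [hz]
    exact c.smul_mem _ hz₀c
  have hzρ : ρ z = 0 := by rw [hz, map_smul, hz₀ρ, smul_zero]
  have hBzz : B z z = 1 := by
    rw [hz, map_smul, map_smul, LinearMap.smul_apply, smul_eq_mul, smul_eq_mul]
    have h1 := Real.mul_self_sqrt hBz₀.le
    field_simp
    linarith
  have hz' : ∀ C ∈ c, ρ C = 0 → ∃ t : ℝ, C = t • z := by
    intro C hC hC0
    obtain ⟨t, ht⟩ := hz₀' C hC hC0
    refine ⟨t * Real.sqrt (B z₀ z₀), ?_⟩
    rw [hz, smul_smul, mul_assoc, mul_inv_cancel₀ hsq.ne', mul_one, ht]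
  have hcen : ∀ C ∈ c, ⁅z, C⁆ = 0 := fun C hC => by
    rw [hz, smul_lie, hcen₀ C hC, smul_zero]
  -- notation
  obtain ⟨P, hP⟩ : ∃ P : ℍ →ₗ[ℝ] g, P = PP τ lam := ⟨_, rfl⟩
  have hPc : ∀ p, P p ∈ c := fun p => by rw [hP]; exact PP_mem Q p
  have hPρ : ∀ p : ℍ, p.re = 0 → ρ (P p) = p := fun p hp => by
    rw [hP, ρ_PP Q hlam hρ, SPX.im_eq hp]
  have hPl : ∀ C ∈ c, ∀ p : ℍ, p.re = 0 → ⁅C, P p⁆ = P (ρ C * p - p * ρ C) := fun C hC p hp => by
    rw [hP, lie_PP Q hC p hp]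
  have hdec : ∀ C ∈ c, ∃ t : ℝ, C = P (ρ C) + t • z := by
    intro C hC
    obtain ⟨h1, h2⟩ := sub_mem_ker Q hlam hρ hC
    obtain ⟨t, ht⟩ := hz' _ h1 h2
    refine ⟨t, ?_⟩
    rw [← ht, hP]
    abel
  obtain ⟨s, hs⟩ := hdec A hAc
  rw [← hp₀] at hs
  obtain ⟨j', hj'⟩ : ∃ j' : ℍ, j' = v * J1 * star v := ⟨_, rfl⟩
  obtain ⟨k', hk'⟩ : ∃ k' : ℍ, k' = v * K1 * star v := ⟨_, rfl⟩
  have hj're : j'.re = 0 := by
    have h1 := re_conj (star v) J1 hJ1re
    rw [star_star] at h1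
    rw [hj', h1]
  have hk're : k'.re = 0 := by
    have h1 := re_conj (star v) K1 hK1re
    rw [star_star] at h1
    rw [hk', h1]
  have hmul : ∀ a b : ℍ, (v * a * star v) * (v * b * star v) = v * (a * b) * star v := by
    intro a b
    calc (v * a * star v) * (v * b * star v) = v * a * (star v * v) * b * star v := by
          simp only [mul_assoc]
      _ = v * (a * b) * star v := by rw [hv1, mul_one]; simp only [mul_assoc]
  have hAj : ⁅A, P j'⁆ = (2 : ℝ) • P k' := by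
    rw [hPl A hAc j' hj're, ← hp₀, ← hv3, hj', hmul, hmul, ← map_smul, ← sub_mul, ← mul_sub, hIJ,
      hk', ← smul_mul_assoc, ← mul_smul_comm]
  have hAkk : ⁅A, P k'⁆ = (-2 : ℝ) • P j' := by
    rw [hPl A hAc k' hk're, ← hp₀, ← hv3, hk', hmul, hmul, ← map_smul, ← sub_mul, ← mul_sub, hIK,
      hj', ← smul_mul_assoc, ← mul_smul_comm]
  have hAi : ⁅A, P p₀⁆ = 0 := by
    rw [hPl A hAc p₀ hp₀re, ← hp₀, sub_self, map_zero]
  have hAz : ⁅A, z⁆ = 0 := by
    rw [← lie_skew, hcen A hAc, neg_zero]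
  have hsy := hM.symm
  -- the form
  have hinv := hM.inv A hAk
  have b1 : B (P k') (P j') = 0 := by
    have h1 := hinv (P j') (P j')
    rw [hAj, map_smul, map_smul, LinearMap.smul_apply, smul_eq_mul, smul_eq_mul,
      hsy (P j')] at h1
    linarith
  have b2 : B (P k') (P k') = B (P j') (P j') := by
    have h1 := hinv (P j') (P k')
    rw [hAj, hAkk, map_smul, map_smul, LinearMap.smul_apply, smul_eq_mul, smul_eq_mul] at h1
    linarith
  have b3 : ∀ X, ⁅A, X⁆ = 0 → B (P j') X = 0 := by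
    intro X hX
    have h1 := hinv (P k') X
    rw [hAkk, hX, map_zero, map_smul, LinearMap.smul_apply, smul_eq_mul] at h1
    linarith
  have b4 : ∀ X, ⁅A, X⁆ = 0 → B (P k') X = 0 := by
    intro X hX
    have h1 := hinv (P j') X
    rw [hAj, hX, map_zero, map_smul, LinearMap.smul_apply, smul_eq_mul] at h1
    linarith
  have b5 : B (P p₀) z = -s := by
    have h1 := hM.ker A hAk z
    rw [hs, map_add, map_smul, LinearMap.add_apply, LinearMap.smul_apply, hBzz, smul_eq_mul] at h1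
    linarith
  have b6 : B (P p₀) (P p₀) = s ^ 2 := by
    have h1 := hM.ker A hAk (P p₀)
    rw [hs, map_add, map_smul, LinearMap.add_apply, LinearMap.smul_apply, hsy z, b5,
      smul_eq_mul] at h1
    linarith
  -- `P j'` is in `W`
  have hlieW : ∀ C ∈ c, ⁅A, C⁆ ∈ W := by
    intro C hC
    rw [Q.chW] at hC
    obtain ⟨D, hD, w, hw, rfl⟩ := Submodule.mem_sup.1 hC
    obtain ⟨t, ht⟩ := hspanA D hD
    rw [lie_add, ht, lie_smul, lie_self, smul_zero, zero_add]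
    exact Q.hWW A hAh w hw
  have hjW : P j' ∈ W := by
    have h1 := hlieW _ (hPc k')
    rw [hAkk] at h1
    have h2 := W.smul_mem (-2 : ℝ)⁻¹ h1
    rwa [smul_smul, inv_mul_cancel₀ (by norm_num), one_smul] at h2
  have hj0 : j' ≠ 0 := by
    intro h1
    have h2 : star v * j' * v = J1 := by
      rw [hj']
      calc star v * (v * J1 * star v) * v = (star v * v) * J1 * (star v * v) := by
            simp only [mul_assoc]
        _ = J1 := by rw [hv1, one_mul, mul_one]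
    rw [h1, mul_zero, zero_mul] at h2
    exact hJ10 h2.symm
  have hjk : P j' ∉ k := by
    intro h1
    have h2 := mem_h Q (hPc j') h1
    have h3 := (Submodule.disjoint_def.1 Q.hW0) _ h2 hjW
    have h4 := hPρ j' hj're
    rw [h3, map_zero] at h4
    exact hj0 h4.symm
  have hβ := hM.pos _ hjk
  obtain ⟨β, hβd⟩ : ∃ β : ℝ, β = B (P j') (P j') := ⟨_, rfl⟩
  rw [← hβd] at hβ b2
  -- coordinates
  obtain ⟨pa, px, pc, hpa, hpc, hdc, hsp⟩ := coords Q.toQB
  let vL : ℍ →ₗ[ℝ] ℍ := LinearMap.mulRight ℝ v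
  let cL : ℍ →ₗ[ℝ] ℍ := LinearMap.mulLeft ℝ (star v)
  let pq : g →ₗ[ℝ] ℍ := vL ∘ₗ cL ∘ₗ ρ ∘ₗ pc
  have hpq : ∀ X, pq X = star v * ρ (pc X) * v := fun _ => rfl
  let px' : g →ₗ[ℝ] ℍ := vL ∘ₗ px
  have hpx' : ∀ X, px' X = px X * v := fun _ => rfl
  let pr : g →ₗ[ℝ] ℝ := (B.flip z) ∘ₗ (pc - P ∘ₗ ρ ∘ₗ pc)
  have hpr : ∀ X, pr X = B (pc X - P (ρ (pc X))) z := fun _ => rfl
  have hρre : ∀ X, (ρ (pc X)).re = 0 := fun X => Q.ρre _ (hpc X)
  have hlie : ∀ X Y : g, ⁅X, Y⁆ = σ (pa X * pa Y - pa Y * pa X - lam • (px X * star (px Y))) +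
      E (pa X * px Y - pa Y * px X + px X * ρ (pc Y) - px Y * ρ (pc X)) +
      (τ (star (px X) * px Y) + ⁅pc X, pc Y⁆) := by
    intro X Y
    rw [← lie_formula Q (hpa X) (hpa Y) (hpc X) (hpc Y), ← hdc, ← hdc]
  have hcc : ∀ X Y : g, τ (star (px X) * px Y) + ⁅pc X, pc Y⁆ ∈ c := fun X Y =>
    c.add_mem (Q.τc _) (Q.cc _ (hpc X) _ (hpc Y))
  have hcoord := fun X Y : g => hsp (pa X * pa Y - pa Y * pa X - lam • (px X * star (px Y)))
    (pa X * px Y - pa Y * px X + px X * ρ (pc Y) - px Y * ρ (pc X)) _ (hcc X Y)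
  -- reading off a vector of `c`
  have hread : ∀ C ∈ c, ∀ t : ℝ, C = P (ρ C) + t • z → ∀ q : ℍ, q = star v * ρ C * v →
      C = q.imI • P p₀ + q.imJ • P j' + q.imK • P k' + t • z := by
    intro C hC t ht q hq
    have h1 : ρ C = v * q * star v := by
      rw [hq]
      calc ρ C = (v * star v) * ρ C * (v * star v) := by rw [hv2, one_mul, mul_one]
        _ = v * (star v * ρ C * v) * star v := by simp only [mul_assoc]
    have hqre : q.re = 0 := by
      rw [hq]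
      exact re_conj v _ (Q.ρre C hC)
    have h3 : v * q * star v = q.imI • p₀ + q.imJ • j' + q.imK • k' := by
      conv_lhs => rw [hIJK q hqre]
      rw [mul_add, mul_add, add_mul, add_mul, mul_smul_comm, mul_smul_comm, mul_smul_comm,
        smul_mul_assoc, smul_mul_assoc, smul_mul_assoc, hv3, ← hj', ← hk']
    conv_lhs => rw [ht, h1, h3, map_add, map_add, map_smul, map_smul, map_smul]
  have hprt : ∀ X, ∀ t : ℝ, pc X = P (ρ (pc X)) + t • z → pr X = t := by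
    intro X t ht
    rw [hpr]
    have h1 : pc X - P (ρ (pc X)) = t • z := by
      rw [sub_eq_iff_eq_add, add_comm]
      exact ht
    rw [h1, map_smul, LinearMap.smul_apply, hBzz, smul_eq_mul, mul_one]
  have hprd : ∀ X, pc X = (pq X).imI • P p₀ + (pq X).imJ • P j' + (pq X).imK • P k' +
      pr X • z := by
    intro X
    obtain ⟨t, ht⟩ := hdec _ (hpc X)
    rw [hprt X t ht]
    exact hread _ (hpc X) t ht _ (hpq X)
  refine SPX.sp_case hlam pa px' pq pr hpa ?_ ?_ ?_ ?_ ?_ hβ (s := s) ?_ ?_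
  · intro X
    rw [hpq]
    exact re_conj v _ (hρre X)
  · intro X Y
    rw [hlie X Y, (hcoord X Y).1, hpx', hpx', star_mul, mul_assoc (px X) v, ← mul_assoc v, hv2,
      one_mul]
  · intro X Y
    rw [hpx', hlie X Y, (hcoord X Y).2.1, hpx', hpx', hpq, hpq]
    have h1 : ∀ a b : ℍ, a * v * (star v * b * v) = a * b * v := by
      intro a b
      calc a * v * (star v * b * v) = a * (v * star v) * b * v := by simp only [mul_assoc]
        _ = a * b * v := by rw [hv2, mul_one]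
    rw [h1, h1]
    simp only [add_mul, sub_mul, mul_assoc]
  · intro X Y
    rw [hpq, hlie X Y, (hcoord X Y).2.2, map_add, Q.ρlie _ (hpc X) _ (hpc Y), map_im Q.τ1,
      hρ _ (by simp), hpq, hpq, hpx', hpx', star_mul]
    have h1 : ∀ a b : ℍ, star v * a * v * (star v * b * v) = star v * (a * b) * v := by
      intro a b
      calc star v * a * v * (star v * b * v) = star v * a * (v * star v) * b * v := by
            simp only [mul_assoc]
        _ = star v * (a * b) * v := by rw [hv2, mul_one]; simp only [mul_assoc]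
    have h2 : star v * star (px X) * (px Y * v) = star v * (star (px X) * px Y) * v := by
      simp only [mul_assoc]
    rw [h1, h1, h2, conj_im hv1, mul_add, add_mul, mul_smul_comm, smul_mul_assoc, mul_sub, sub_mul,
      neg_smul]
    abel
  · intro X Y
    obtain ⟨t, ht⟩ := hdec _ (hpc X)
    obtain ⟨t', ht'⟩ := hdec _ (hpc Y)
    have h1 : ⁅pc X, pc Y⁆ = P (ρ (pc X) * ρ (pc Y) - ρ (pc Y) * ρ (pc X)) := by
      conv_lhs => rw [ht']
      rw [lie_add, lie_smul, ← lie_skew (pc X) z, hcen _ (hpc X), neg_zero, smul_zero, add_zero,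
        hPl _ (hpc X) _ (hρre Y)]
    obtain ⟨q, hq⟩ : ∃ q : ℍ, pc ⁅X, Y⁆ = P q := by
      rw [hlie X Y, (hcoord X Y).2.2, h1, τ_PP hlam, ← hP, ← map_add]
      exact ⟨_, rfl⟩
    rw [hpr, hq]
    have h2 : P q - P (ρ (P q)) = 0 := by
      rw [hP, ρ_PP Q hlam hρ, ← PP_im Q, sub_self]
    rw [h2, map_zero, LinearMap.zero_apply]
  · intro X Y
    have h1 : B X Y = ⟪px X, px Y⟫_ℝ + B (pc X) (pc Y) := by
      conv_lhs => rw [hdc X, hdc Y]
      exact B_formula Q (hpc X) (hpc Y)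
    rw [h1, hpx', hpx', inner_mul_right' hv2, add_assoc]
    congr 1
    have c1 := b3 _ hAi
    have c2 := b3 _ hAz
    have c3 := b4 _ hAi
    have c4 := b4 _ hAz
    conv_lhs => rw [hprd X, hprd Y]
    simp only [map_add, map_smul, LinearMap.add_apply, LinearMap.smul_apply, smul_eq_mul]
    rw [hsy (P j') (P k'), hsy (P p₀) (P j'), hsy (P p₀) (P k'), hsy z (P j'), hsy z (P k'),
      hsy z (P p₀), b1, b2, b5, b6, c1, c2, c3, c4, hBzz, ← hβd]
    ring
  · intro x q r hq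
    have hpre : (v * q * star v).re = 0 := by
      have h1 := re_conj (star v) q hq
      rwa [star_star] at h1
    have hCc : P (v * q * star v) + r • z ∈ c := c.add_mem (hPc _) (c.smul_mem _ hzc)
    obtain ⟨-, h2, h3⟩ := hsp 0 (x * star v) _ hCc
    refine ⟨σ 0 + E (x * star v) + (P (v * q * star v) + r • z), ?_⟩
    have hρC : ρ (P (v * q * star v) + r • z) = v * q * star v := by
      rw [map_add, map_smul, hzρ, smul_zero, add_zero, hPρ _ hpre]
    have h4 : pq (σ 0 + E (x * star v) + (P (v * q * star v) + r • z)) = q := by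
      rw [hpq, h3, hρC]
      calc star v * (v * q * star v) * v = (star v * v) * q * (star v * v) := by
            simp only [mul_assoc]
        _ = q := by rw [hv1, one_mul, mul_one]
    have h5 : pr (σ 0 + E (x * star v) + (P (v * q * star v) + r • z)) = r := by
      apply hprt
      rw [h3, hρC]
    rw [h4, h5]
    refine ⟨?_, rfl, rfl, rfl⟩
    rw [hpx', h2, mul_assoc, hv1, mul_one]

end GOS
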