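import Pool.Agent.GOS.StC

/-!
# Seven-dimensional g.o. spaces (MP_cdb478_gt): module SP5
-/

set_option autoImplicit false

namespace GOS

open scoped InnerProductSpace Quaternion

/-- the three imaginary coordinates -/
private def sp5_im : ℍ →ₗ[ℝ] (Fin 3 → ℝ) where
  toFun q := ![q.imI, q.imJ, q.imK]
  map_add' a b := by
    ext i
    fin_cases i <;> simp
  map_smul' r a := by
    ext i
    fin_cases i <;> simp

private theorem sp5_im_inj (a b : ℍ) (ha : a.re = 0) (hb : b.re = 0) (h : sp5_im a = sp5_im b) :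
    a = b := by
  have h0 := congrFun h 0
  have h1 := congrFun h 1
  have h2 := congrFun h 2
  simp only [sp5_im, LinearMap.coe_mk, AddHom.coe_mk, Matrix.cons_val_zero, Matrix.cons_val_one,
    Matrix.cons_val] at h0 h1 h2
  ext
  · rw [ha, hb]
  · exact h0
  · exact h1
  · exact h2

theorem thm_SP5 (h1 : St_QM) (h2 : St_QN3) (h3 : St_QNR) : St_SP5 := by
  intro g _ _ _ k B c h W σ E τ ρ lam hQ hlam hρτ hfaith hdim hirr
  obtain ⟨hcompl, hinv, J, hJre, _, hJ2, hJ3⟩ := h1 g k B c h W σ E τ ρ lam hQ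
  obtain ⟨φ, hφh, hφe, hφB⟩ := h2 g k B c h W σ E τ ρ lam hQ
  have hhc : h ≤ c := by rw [hQ.chW]; exact le_sup_left
  have hWc : W ≤ c := by rw [hQ.chW]; exact le_sup_right
  -- step 2
  have hstep2 : ∀ ψ : g →ₗ[ℝ] g, (∀ w ∈ W, ψ w ∈ h) →
      (∀ A ∈ h, ∀ w ∈ W, ψ ⁅A, w⁆ = ⁅A, ψ w⁆) → ∀ w ∈ W, ⁅ψ w, w⁆ = 0 := by
    intro ψ hψ hψe w hw
    have hW' := hirr (W ⊓ LinearMap.ker ψ) inf_le_left (by
      intro A hA w' hw'
      refine ⟨hQ.hWW A hA w' hw'.1, LinearMap.mem_ker.2 ?_⟩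
      rw [hψe A hA w' hw'.1, LinearMap.mem_ker.1 hw'.2, lie_zero])
    rcases hW' with hb | hb
    · have hmem : ⁅ψ w, w⁆ ∈ W ⊓ LinearMap.ker ψ := by
        refine ⟨hQ.hWW _ (hψ w hw) w hw, LinearMap.mem_ker.2 ?_⟩
        rw [hψe _ (hψ w hw) w hw, lie_self]
      rw [hb] at hmem
      exact (Submodule.mem_bot ℝ).1 hmem
    · have hmem : w ∈ W ⊓ LinearMap.ker ψ := by rw [hb]; exact hw
      rw [LinearMap.mem_ker.1 hmem.2, zero_lie]
  -- step 1
  let R : h →ₗ[ℝ] (Fin 3 → ℝ) := sp5_im ∘ₗ ρ ∘ₗ h.subtype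
  have hRr : ∀ A : h, (ρ (A : g)).re = 0 := fun A => hQ.ρre _ (hhc A.2)
  have hfin : Module.finrank ℝ h = Module.finrank ℝ (Fin 3 → ℝ) := by
    rw [hdim]; simp
  have hRinj : Function.Injective R := by
    have hW' := hirr (W ⊓ LinearMap.ker ρ) inf_le_left (by
      intro A hA w' hw'
      refine ⟨hQ.hWW A hA w' hw'.1, LinearMap.mem_ker.2 ?_⟩
      rw [hQ.ρlie A (hhc hA) w' (hWc hw'.1), LinearMap.mem_ker.1 hw'.2]
      simp)
    rcases hW' with hb | hb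
    · rw [injective_iff_map_eq_zero]
      intro A hA
      have hρA : ρ (A : g) = 0 := sp5_im_inj _ _ (hRr A) rfl (by rw [map_zero]; exact hA)
      have : (A : g) = 0 := by
        apply hfaith _ A.2
        intro w hw
        have hmem : ⁅(A : g), w⁆ ∈ W ⊓ LinearMap.ker ρ := by
          refine ⟨hQ.hWW _ A.2 w hw, LinearMap.mem_ker.2 ?_⟩
          rw [hQ.ρlie _ (hhc A.2) w (hWc hw), hρA]
          simp
        rw [hb] at hmem
        exact (Submodule.mem_bot ℝ).1 hmem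
      exact Subtype.ext this
    · rw [LinearMap.injective_iff_surjective_of_finrank_eq_finrank hfin]
      intro v
      obtain ⟨q, hq0, hqv⟩ : ∃ q : ℍ, q.re = 0 ∧ sp5_im q = v := by
        refine ⟨⟨0, v 0, v 1, v 2⟩, rfl, ?_⟩
        ext i
        fin_cases i <;> rfl
      have hC : (-lam⁻¹) • τ q ∈ c := c.smul_mem _ (hQ.τc _)
      rw [hQ.chW] at hC
      obtain ⟨A, hA, w, hw, hAw⟩ := Submodule.mem_sup.1 hC
      refine ⟨⟨A, hA⟩, ?_⟩
      have hw0 : ρ w = 0 := by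
        have hmem : w ∈ W ⊓ LinearMap.ker ρ := by rw [hb]; exact hw
        exact LinearMap.mem_ker.1 hmem.2
      have hρA : ρ A = q := by
        have e1 : ρ (A + w) = ρ ((-lam⁻¹) • τ q) := by rw [hAw]
        rw [map_add, hw0, add_zero, map_smul, hρτ _ hq0, smul_smul] at e1
        have e2 : -lam⁻¹ * -lam = 1 := by field_simp
        rw [e2, one_smul] at e1
        exact e1
      change sp5_im (ρ A) = v
      rw [hρA, hqv]
  let R' : h ≃ₗ[ℝ] (Fin 3 → ℝ) := LinearEquiv.ofBijective R ⟨hRinj,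
    (LinearMap.injective_iff_surjective_of_finrank_eq_finrank hfin).1 hRinj⟩
  have hρinj : ∀ A ∈ h, ∀ A' ∈ h, ρ A = ρ A' → A = A' := by
    intro A hA A' hA' hρ
    have : (⟨A, hA⟩ : h) = ⟨A', hA'⟩ := hRinj (by
      change sp5_im (ρ A) = sp5_im (ρ A')
      rw [hρ])
    exact congrArg Subtype.val this
  let ψ : g →ₗ[ℝ] g := h.subtype ∘ₗ (R'.symm : (Fin 3 → ℝ) →ₗ[ℝ] h) ∘ₗ sp5_im ∘ₗ J
  have hψh : ∀ w, ψ w ∈ h := fun w => (R'.symm (sp5_im (J w))).2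
  have hρψ : ∀ w ∈ W, ρ (ψ w) = J w := by
    intro w hw
    apply sp5_im_inj _ _ (hQ.ρre _ (hhc (hψh w))) (hJre w hw)
    exact R'.apply_symm_apply (sp5_im (J w))
  have hψe : ∀ A ∈ h, ∀ w ∈ W, ψ ⁅A, w⁆ = ⁅A, ψ w⁆ := by
    intro A hA w hw
    apply hρinj _ (hψh _) _ (hQ.hh A hA _ (hψh w))
    rw [hρψ _ (hQ.hWW A hA w hw), hJ3 A hA w hw, hQ.ρlie A (hhc hA) _ (hhc (hψh w)), hρψ w hw]
  refine h3 g k B c h W σ E τ ρ lam hQ hcompl hinv J hJ2 ψ (fun w _ => hψh w) hψe ?_ hρψ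
  intro w hw w' hw'
  rw [hφB w hw w' hw', hstep2 φ hφh hφe w hw, hstep2 ψ (fun w _ => hψh w) hψe w hw]

end GOS
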