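import Pool.Agent.GOS.StC

/-!
# GOS [T00]: quaternionic type with commuting translations
-/

set_option autoImplicit false

namespace GOS

open scoped InnerProductSpace Quaternion

attribute [local instance 100] LieRing.ofAssociativeRing

section T00aux

/-- the affine map `(v, s) ↦ (p v - v q + s x, 0)` -/
noncomputable def T00aff (p q x : ℍ) : Module.End ℝ (ℍ × ℝ) where
  toFun v := (p * v.1 - v.1 * q + v.2 • x, 0)
  map_add' v w := by
    refine Prod.ext ?_ (add_zero _).symm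
    show p * (v.1 + w.1) - (v.1 + w.1) * q + (v.2 + w.2) • x =
      (p * v.1 - v.1 * q + v.2 • x) + (p * w.1 - w.1 * q + w.2 • x)
    rw [mul_add, add_mul, add_smul]
    abel
  map_smul' r v := by
    refine Prod.ext ?_ (mul_zero _).symm
    show p * (r • v.1) - (r • v.1) * q + (r * v.2) • x = r • (p * v.1 - v.1 * q + v.2 • x)
    rw [mul_smul_comm, smul_mul_assoc, mul_smul, smul_add, smul_sub]

theorem T00aff_apply (p q x y : ℍ) (s : ℝ) :
    T00aff p q x (y, s) = (p * y - y * q + s • x, 0) := rfl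

theorem T00skew (p q : ℍ) (hp : p.re = 0) (hq : q.re = 0) (y z : ℍ) :
    ⟪p * y - y * q, z⟫_ℝ = -⟪y, p * z - z * q⟫_ℝ := by
  rw [Quaternion.inner_def, Quaternion.inner_def]
  simp [hp, hq]
  ring

variable {g : Type} [LieRing g] [LieAlgebra ℝ g]

/-- the enlarged Lie algebra -/
noncomputable def T00G (c : Submodule ℝ g) (hc : ∀ C ∈ c, ∀ C' ∈ c, ⁅C, C'⁆ ∈ c) :
    LieSubalgebra ℝ (Module.End ℝ (ℍ × ℝ) × g) where
  carrier := {X | (∀ v, (X.1 v).2 = 0) ∧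
    (∀ y z : ℍ, ⟪(X.1 (y, 0)).1, z⟫_ℝ = -⟪y, (X.1 (z, 0)).1⟫_ℝ) ∧ X.2 ∈ c}
  add_mem' := by
    rintro X Y ⟨h1, h2, h3⟩ ⟨k1, k2, k3⟩
    refine ⟨fun v => ?_, fun y z => ?_, c.add_mem h3 k3⟩
    · show (X.1 v).2 + (Y.1 v).2 = 0
      rw [h1, k1, add_zero]
    · show ⟪(X.1 (y, 0)).1 + (Y.1 (y, 0)).1, z⟫_ℝ = -⟪y, (X.1 (z, 0)).1 + (Y.1 (z, 0)).1⟫_ℝ
      rw [inner_add_left, inner_add_right, h2, k2, neg_add]
  zero_mem' := by
    refine ⟨fun v => rfl, fun y z => ?_, c.zero_mem⟩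
    show ⟪(0 : ℍ), z⟫_ℝ = -⟪y, (0 : ℍ)⟫_ℝ
    rw [inner_zero_left, inner_zero_right, neg_zero]
  smul_mem' := by
    rintro r X ⟨h1, h2, h3⟩
    refine ⟨fun v => ?_, fun y z => ?_, c.smul_mem r h3⟩
    · show r * (X.1 v).2 = 0
      rw [h1, mul_zero]
    · show ⟪r • (X.1 (y, 0)).1, z⟫_ℝ = -⟪y, r • (X.1 (z, 0)).1⟫_ℝ
      rw [real_inner_smul_left, real_inner_smul_right, h2]
      ring
  lie_mem' := by
    rintro X Y ⟨h1, h2, h3⟩ ⟨k1, k2, k3⟩
    refine ⟨fun v => ?_, fun y z => ?_, hc _ h3 _ k3⟩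
    · show (X.1 (Y.1 v)).2 - (Y.1 (X.1 v)).2 = 0
      rw [h1, k1, sub_zero]
    · have e1 : ∀ u : ℍ, X.1 (u, 0) = ((X.1 (u, 0)).1, 0) := fun u => Prod.ext rfl (h1 _)
      have e2 : ∀ u : ℍ, Y.1 (u, 0) = ((Y.1 (u, 0)).1, 0) := fun u => Prod.ext rfl (k1 _)
      show ⟪(X.1 (Y.1 (y, 0))).1 - (Y.1 (X.1 (y, 0))).1, z⟫_ℝ =
        -⟪y, (X.1 (Y.1 (z, 0))).1 - (Y.1 (X.1 (z, 0))).1⟫_ℝ
      rw [e1 y, e2 y, e1 z, e2 z, inner_sub_left, inner_sub_right, h2, k2, k2, h2]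
      ring

/-- coordinates -/
theorem T00coord {k : LieSubalgebra ℝ g} {B : g →ₗ[ℝ] g →ₗ[ℝ] ℝ} {c h W : Submodule ℝ g}
    {σ E : ℍ →ₗ[ℝ] g} {ρ : g →ₗ[ℝ] ℍ} (hQ : QB k B c h W σ E ρ) :
    ∃ (P Q : g →ₗ[ℝ] ℍ) (R : g →ₗ[ℝ] g), (∀ X, (P X).re = 0) ∧ (∀ X, R X ∈ c) ∧
      (∀ X, X = σ (P X) + E (Q X) + R X) ∧
      ∀ a x : ℍ, a.re = 0 → ∀ C ∈ c, P (σ a + E x + C) = a ∧ Q (σ a + E x + C) = x ∧
        R (σ a + E x + C) = C := by
  have him : ∀ a : ℍ, a.re = 0 → a.im = a := by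
    intro a ha
    ext
    · rw [Quaternion.re_im, ha]
    · rfl
    · rfl
    · rfl
  let Φ : (ℍ × ℍ × c) →ₗ[ℝ] g :=
    (σ ∘ₗ LinearMap.fst ℝ ℍ (ℍ × c)) + (E ∘ₗ LinearMap.fst ℝ ℍ c ∘ₗ LinearMap.snd ℝ ℍ (ℍ × c)) +
      (c.subtype ∘ₗ LinearMap.snd ℝ ℍ c ∘ₗ LinearMap.snd ℝ ℍ (ℍ × c))
  have hΦ : ∀ a x : ℍ, ∀ C : c, Φ (a, x, C) = σ a + E x + C := fun a x C => rfl
  have hsur : LinearMap.range Φ = ⊤ := by
    rw [eq_top_iff]
    intro X _
    obtain ⟨a, x, C, hC, rfl⟩ := hQ.dec X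
    exact ⟨(a, x, ⟨C, hC⟩), rfl⟩
  obtain ⟨s, hs⟩ := Φ.exists_rightInverse_of_surjective hsur
  have hs' : ∀ X, σ (s X).1 + E (s X).2.1 + ((s X).2.2 : g) = X := fun X =>
    LinearMap.congr_fun hs X
  have hσim : ∀ a, σ a = σ a.im := by
    intro a
    have h1 := Quaternion.re_add_im a
    have h2 : a = a.re • (1 : ℍ) + a.im := by
      ext <;> simp
    have h3 := congrArg σ h2
    rw [map_add, map_smul, hQ.σ1, smul_zero, zero_add] at h3
    exact h3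
  refine ⟨{ toFun := fun X => (s X).1.im
            map_add' := fun X Y => by rw [map_add, Prod.fst_add, Quaternion.im_add]
            map_smul' := fun r X => by
              rw [map_smul, Prod.smul_fst, Quaternion.im_smul, RingHom.id_apply] },
    LinearMap.fst ℝ ℍ c ∘ₗ LinearMap.snd ℝ ℍ (ℍ × c) ∘ₗ s,
    c.subtype ∘ₗ LinearMap.snd ℝ ℍ c ∘ₗ LinearMap.snd ℝ ℍ (ℍ × c) ∘ₗ s, ?_, ?_, ?_, ?_⟩
  · intro X
    exact Quaternion.re_im _
  · intro X
    exact (s X).2.2.2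
  · intro X
    show X = σ (s X).1.im + E (s X).2.1 + ((s X).2.2 : g)
    rw [← hσim, hs' X]
  · intro a x ha C hC
    have h1 := hs' (σ a + E x + C)
    have h2 : σ ((s (σ a + E x + C)).1 - a) + E ((s (σ a + E x + C)).2.1 - x) +
        (((s (σ a + E x + C)).2.2 : g) - C) = 0 := by
      rw [map_sub, map_sub, ← sub_eq_zero.2 h1]
      abel
    obtain ⟨h3, h4, h5⟩ := hQ.ind _ _ _ (c.sub_mem (s (σ a + E x + C)).2.2.2 hC) h2
    refine ⟨?_, sub_eq_zero.1 h4, sub_eq_zero.1 h5⟩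
    show (s (σ a + E x + C)).1.im = a
    rw [Quaternion.im_sub, him a ha] at h3
    exact sub_eq_zero.1 h3

end T00aux

/-- [T00] -/
theorem thm_T00 (h1 : St_QN3) (_h2 : St_EXN) : GOS.St_T00 := by
  intro g _ _ _ k B c h W σ E τ ρ lam hQ hlam hτ
  obtain ⟨ψ, hψh, hψe, hψB⟩ := h1 g k B c h W σ E τ ρ lam hQ
  obtain ⟨P, Q, R, hP, hR, hX, hU⟩ := T00coord hQ.toQB
  have hhc : h ≤ c := by rw [hQ.chW]; exact le_sup_left
  have hWc : W ≤ c := by rw [hQ.chW]; exact le_sup_right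
  have hhk : ∀ A ∈ h, A ∈ k := by
    intro A hA
    have : A ∈ k.toSubmodule := by
      rw [hQ.kdec]; exact Submodule.mem_sup_right hA
    exact this
  have hσk : ∀ a, σ a ∈ k := by
    intro a
    have : σ a ∈ k.toSubmodule := by
      rw [hQ.kdec]; exact Submodule.mem_sup_left ⟨a, rfl⟩
    exact this
  have him : ∀ a : ℍ, a.re = 0 → a.im = a := by
    intro a ha
    ext
    · rw [Quaternion.re_im, ha]
    · rfl
    · rfl
    · rfl
  have hEE : ∀ x y, ⁅E x, E y⁆ = 0 := by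
    intro x y
    rw [hQ.EEb, hlam, zero_smul, sub_zero]
    have h2 : star x * y = (star x * y).re • (1 : ℍ) + (star x * y).im := by
      ext <;> simp
    rw [h2, map_add, map_smul, hQ.τ1, smul_zero, zero_add]
    exact hτ _ (Quaternion.re_im _)
  have hck : ∀ C ∈ c, C ∈ k → C ∈ h := by
    intro C hC hCk
    have h2 : C ∈ k.toSubmodule := hCk
    rw [hQ.kdec] at h2
    obtain ⟨X, ⟨a, rfl⟩, A, hA, rfl⟩ := Submodule.mem_sup.1 h2
    have h3 : σ a ∈ c := by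
      have := c.sub_mem hC (hhc hA)
      rwa [add_sub_cancel_right] at this
    have h4 := hQ.ind a 0 (-σ a) (c.neg_mem h3) (by rw [map_zero, add_zero, add_neg_cancel])
    have h5 : a = a.re • (1 : ℍ) + a.im := by
      ext <;> simp
    have h6 : σ a = 0 := by
      rw [h5, map_add, map_smul, hQ.σ1, smul_zero, zero_add, h4.1, map_zero]
    rw [h6, zero_add]
    exact hA
  have hBk : ∀ X, ∀ A ∈ k, B X A = 0 := fun X A hA => by
    rw [hQ.model.symm, hQ.model.ker A hA]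
  -- brackets
  have hbr : ∀ X Y, ⁅X, Y⁆ = σ (P X * P Y - P Y * P X) +
      E (P X * Q Y - P Y * Q X - Q Y * ρ (R X) + Q X * ρ (R Y)) + ⁅R X, R Y⁆ := by
    intro X Y
    have b1 : ⁅σ (P X), σ (P Y)⁆ = σ (P X * P Y - P Y * P X) := by
      rw [hQ.σσ, him _ (hP X), him _ (hP Y)]
    have b2 : ⁅σ (P X), E (Q Y)⁆ = E (P X * Q Y) := by rw [hQ.σE, him _ (hP X)]
    have b3 : ⁅σ (P X), R Y⁆ = 0 := hQ.σc _ _ (hR Y)
    have b4 : ⁅E (Q X), σ (P Y)⁆ = -E (P Y * Q X) := by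
      rw [← lie_skew, hQ.σE, him _ (hP Y)]
    have b5 : ⁅E (Q X), R Y⁆ = E (Q X * ρ (R Y)) := by
      rw [← lie_skew, hQ.cE _ (hR Y), neg_neg]
    have b6 : ⁅R X, σ (P Y)⁆ = 0 := by rw [← lie_skew, hQ.σc _ _ (hR X), neg_zero]
    have b7 : ⁅R X, E (Q Y)⁆ = -E (Q Y * ρ (R X)) := hQ.cE _ (hR X) _
    conv_lhs => rw [hX X, hX Y]
    rw [add_lie, add_lie, lie_add, lie_add, lie_add, lie_add, lie_add, lie_add, b1, b2, b3, b4,
      hEE, b5, b6, b7, map_add, map_sub E, map_sub E]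
    abel
  have hcomp : ∀ X Y, P ⁅X, Y⁆ = P X * P Y - P Y * P X ∧
      Q ⁅X, Y⁆ = P X * Q Y - P Y * Q X - Q Y * ρ (R X) + Q X * ρ (R Y) ∧
      R ⁅X, Y⁆ = ⁅R X, R Y⁆ := by
    intro X Y
    rw [hbr X Y]
    refine hU _ _ ?_ _ (hQ.cc _ (hR X) _ (hR Y))
    simp
    ring
  -- the enlarged Lie algebra
  let G := T00G c hQ.cc
  let t : G →ₗ[ℝ] ℍ :=
    { toFun := fun X => (X.1.1 (0, 1)).1
      map_add' := fun _ _ => rfl
      map_smul' := fun _ _ => rfl }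
  let p₂ : G →ₗ[ℝ] g :=
    { toFun := fun X => X.1.2
      map_add' := fun _ _ => rfl
      map_smul' := fun _ _ => rfl }
  let B₁ : G →ₗ[ℝ] G →ₗ[ℝ] ℝ := (innerₗ ℍ).compl₁₂ t t + B.compl₁₂ p₂ p₂
  have hB₁ : ∀ X Y : G, B₁ X Y = ⟪t X, t Y⟫_ℝ + B X.1.2 Y.1.2 := fun _ _ => rfl
  have e10 : ∀ X : G, X.1.1 (0, 1) = (t X, 0) := fun X => Prod.ext rfl (X.2.1 _)
  have brt : ∀ X Y : G, t ⁅X, Y⁆ = (X.1.1 (t Y, 0)).1 - (Y.1.1 (t X, 0)).1 := by
    intro X Y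
    show (X.1.1 (Y.1.1 (0, 1)) - Y.1.1 (X.1.1 (0, 1))).1 = _
    rw [e10, e10]
    rfl
  have br2 : ∀ X Y : G, (⁅X, Y⁆ : G).1.2 = ⁅X.1.2, Y.1.2⁆ := fun _ _ => rfl
  have hz : ∀ X : G, (X.1.1 ((0 : ℍ), (0 : ℝ))).1 = 0 := fun X => by
    have : X.1.1 ((0 : ℍ), (0 : ℝ)) = 0 := map_zero X.1.1
    rw [this]
    rfl
  let k₁ : LieSubalgebra ℝ G :=
    { carrier := {X | t X = 0 ∧ X.1.2 ∈ h}
      add_mem' := fun {X Y} hX hY => ⟨by rw [map_add, hX.1, hY.1, add_zero],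
        h.add_mem hX.2 hY.2⟩
      zero_mem' := ⟨map_zero t, h.zero_mem⟩
      smul_mem' := fun r X hX => ⟨by rw [map_smul, hX.1, smul_zero], h.smul_mem r hX.2⟩
      lie_mem' := fun {X Y} hX hY => ⟨by rw [brt, hX.1, hY.1, hz, hz, sub_zero],
        hQ.hh _ hX.2 _ hY.2⟩ }
  have hk₁ : ∀ X : G, X ∈ k₁ ↔ t X = 0 ∧ X.1.2 ∈ h := fun _ => Iff.rfl
  let m₁ : Submodule ℝ G :=
    { carrier := {X | (∀ y : ℍ, (X.1.1 (y, (0 : ℝ))).1 = 0) ∧ ∃ w ∈ W, X.1.2 = w - ψ w}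
      add_mem' := by
        rintro X Y ⟨h1, w, hw, h2⟩ ⟨k1, w', hw', k2⟩
        refine ⟨fun y => ?_, w + w', W.add_mem hw hw', ?_⟩
        · show (X.1.1 (y, 0)).1 + (Y.1.1 (y, 0)).1 = 0
          rw [h1, k1, add_zero]
        · show X.1.2 + Y.1.2 = _
          rw [h2, k2, map_add]
          abel
      zero_mem' := ⟨fun y => rfl, 0, W.zero_mem, by rw [map_zero, sub_zero]; rfl⟩
      smul_mem' := by
        rintro r X ⟨h1, w, hw, h2⟩
        refine ⟨fun y => ?_, r • w, W.smul_mem r hw, ?_⟩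
        · show r • (X.1.1 (y, 0)).1 = 0
          rw [h1, smul_zero]
        · show r • X.1.2 = _
          rw [h2, map_smul, smul_sub] }
  have hm₁ : ∀ X : G, X ∈ m₁ ↔ (∀ y : ℍ, (X.1.1 (y, (0 : ℝ))).1 = 0) ∧
      ∃ w ∈ W, X.1.2 = w - ψ w := fun _ => Iff.rfl
  have ey0 : ∀ (X : G) (y : ℍ), X.1.1 (y, (0 : ℝ)) = ((X.1.1 (y, (0 : ℝ))).1, 0) :=
    fun X y => Prod.ext rfl (X.2.1 _)
  have hcompl : IsCompl k₁.toSubmodule m₁ := by
    rw [isCompl_iff]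
    constructor
    · rw [Submodule.disjoint_def]
      intro X hX hX'
      obtain ⟨a1, a2⟩ := (hk₁ X).1 hX
      obtain ⟨b1, w, hw, b2⟩ := (hm₁ X).1 hX'
      have hw0 : w = 0 := by
        refine Submodule.disjoint_def.1 hQ.hW0 w ?_ hw
        have : w = X.1.2 + ψ w := by rw [b2]; abel
        rw [this]
        exact h.add_mem a2 (hψh w hw)
      apply Subtype.ext
      refine Prod.ext ?_ ?_
      · apply LinearMap.ext
        rintro ⟨y, s⟩
        have h5 : ((y, s) : ℍ × ℝ) = (y, 0) + s • (0, 1) := by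
          refine Prod.ext ?_ ?_
          · show y = y + s • (0 : ℍ)
            rw [smul_zero, add_zero]
          · show s = 0 + s * 1
            ring
        rw [h5, map_add, map_smul, ey0, b1, e10, a1]
        show ((0 : ℍ), (0 : ℝ)) + s • ((0 : ℍ), (0 : ℝ)) = 0
        rw [show ((0 : ℍ), (0 : ℝ)) = 0 from rfl, smul_zero, add_zero]
      · show X.1.2 = 0
        rw [b2, hw0, map_zero, sub_zero]
    · rw [codisjoint_iff, eq_top_iff]
      intro X _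
      have h5 : X.1.2 ∈ h ⊔ W := by
        rw [← hQ.chW]
        exact X.2.2.2
      obtain ⟨A, hA, w, hw, hAw⟩ := Submodule.mem_sup.1 h5
      have hY : ((T00aff 0 0 (t X), w - ψ w) : Module.End ℝ (ℍ × ℝ) × g) ∈ G := by
        refine ⟨fun v => rfl, fun y z => ?_, c.sub_mem (hWc hw) (hhc (hψh w hw))⟩
        show ⟪(0 : ℍ) * y - y * 0 + (0 : ℝ) • t X, z⟫_ℝ =
          -⟪y, (0 : ℍ) * z - z * 0 + (0 : ℝ) • t X⟫_ℝ
        rw [zero_mul, mul_zero, zero_mul, mul_zero, zero_smul, sub_zero, add_zero,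
          inner_zero_left, inner_zero_right, neg_zero]
      obtain ⟨Y, hYd⟩ : ∃ Y : G, Y.1 = (T00aff 0 0 (t X), w - ψ w) := ⟨⟨_, hY⟩, rfl⟩
      have hYm : Y ∈ m₁ := by
        rw [hm₁, hYd]
        refine ⟨fun y => ?_, w, hw, rfl⟩
        show (0 : ℍ) * y - y * 0 + (0 : ℝ) • t X = 0
        rw [zero_mul, mul_zero, zero_smul, sub_zero, add_zero]
      have htY : t Y = t X := by
        show (Y.1.1 (0, 1)).1 = t X
        rw [hYd]
        show (0 : ℍ) * 0 - 0 * 0 + (1 : ℝ) • t X = t X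
        rw [mul_zero, sub_zero, one_smul, zero_add]
      have hXY : X - Y ∈ k₁ := by
        rw [hk₁]
        refine ⟨by rw [map_sub, htY, sub_self], ?_⟩
        show X.1.2 - Y.1.2 ∈ h
        rw [hYd, ← hAw]
        have : A + w - (w - ψ w) = A + ψ w := by abel
        show A + w - (w - ψ w) ∈ h
        rw [this]
        exact h.add_mem hA (hψh w hw)
      rw [Submodule.mem_sup]
      exact ⟨X - Y, hXY, Y, hYm, sub_add_cancel _ _⟩
  have hinv : ∀ A ∈ k₁, ∀ X ∈ m₁, ⁅A, X⁆ ∈ m₁ := by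
    intro A hA X hX
    obtain ⟨a1, a2⟩ := (hk₁ A).1 hA
    obtain ⟨b1, w, hw, b2⟩ := (hm₁ X).1 hX
    rw [hm₁]
    refine ⟨fun y => ?_, ⁅A.1.2, w⁆, hQ.hWW _ a2 w hw, ?_⟩
    · show (A.1.1 (X.1.1 (y, 0)) - X.1.1 (A.1.1 (y, 0))).1 = 0
      rw [ey0 X, b1, ey0 A y]
      show (A.1.1 ((0 : ℍ), (0 : ℝ))).1 - (X.1.1 ((A.1.1 (y, 0)).1, (0 : ℝ))).1 = 0
      rw [hz, b1, sub_zero]
    · rw [br2, b2, lie_sub, hψe _ a2 w hw]
  refine ⟨G, inferInstance, inferInstance, k₁, B₁, ?_, ?_, ?_, ?_⟩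
  · exact inferInstanceAs (FiniteDimensional ℝ (T00G c hQ.cc).toSubmodule)
  · -- the model
    refine ⟨fun X Y => ?_, fun X hX => ?_, fun A hA X => ?_, fun A hA X Y => ?_,
      m₁, hcompl, hinv⟩
    · rw [hB₁, hB₁, hQ.model.symm, real_inner_comm]
    · rw [hB₁]
      have h5 : 0 ≤ ⟪t X, t X⟫_ℝ := real_inner_self_nonneg
      by_cases h6 : X.1.2 ∈ h
      · have h7 : t X ≠ 0 := fun h8 => hX ((hk₁ X).2 ⟨h8, h6⟩)
        have h8 : 0 < ⟪t X, t X⟫_ℝ := real_inner_self_pos.2 h7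
        rw [hBk _ _ (hhk _ h6), add_zero]
        exact h8
      · have h7 : X.1.2 ∉ k := fun h8 => h6 (hck _ X.2.2.2 h8)
        have h8 := hQ.model.pos _ h7
        linarith
    · obtain ⟨a1, a2⟩ := (hk₁ A).1 hA
      rw [hB₁, a1, inner_zero_left, hQ.model.ker _ (hhk _ a2), add_zero]
    · obtain ⟨a1, a2⟩ := (hk₁ A).1 hA
      have h5 := hQ.model.inv _ (hhk _ a2) X.1.2 Y.1.2
      have h6 := A.2.2.1 (t X) (t Y)
      rw [hB₁, hB₁, brt, brt, a1, hz, hz, sub_zero, sub_zero, br2, br2]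
      linarith
  · refine ⟨m₁, hcompl, hinv, ?_⟩
    intro X hX Y hY
    obtain ⟨a1, w, hw, a2⟩ := (hm₁ X).1 hX
    obtain ⟨b1, w', hw', b2⟩ := (hm₁ Y).1 hY
    have c1 : ⁅ψ w, ψ w'⁆ ∈ k := hhk _ (hQ.hh _ (hψh w hw) _ (hψh w' hw'))
    have c2 := hQ.model.inv _ (hhk _ (hψh w hw)) w w'
    have c3 := hQ.model.inv _ (hhk _ (hψh w' hw')) w w
    have c4 := hψB w hw w' hw'
    have c5 : B ⁅w, w'⁆ w = -B ⁅w', w⁆ w := by
      rw [← lie_skew w w', map_neg, LinearMap.neg_apply]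
    have c6 : B ⁅w, ψ w'⁆ w = -B ⁅ψ w', w⁆ w := by
      rw [← lie_skew w (ψ w'), map_neg, LinearMap.neg_apply]
    have c7 : B w ⁅ψ w', w⁆ = B ⁅ψ w', w⁆ w := hQ.model.symm _ _
    have c8 : B w ⁅ψ w, w'⁆ = B ⁅ψ w, w'⁆ w := hQ.model.symm _ _
    have c9 : B ⁅⁅ψ w, ψ w'⁆, w⁆ = B ⁅⁅ψ w, ψ w'⁆, w⁆ := rfl
    rw [hB₁, brt, a1, b1, sub_zero, inner_zero_left, zero_add, br2, a2, b2, map_sub,
      hBk _ _ (hhk _ (hψh w hw)), sub_zero, sub_lie, lie_sub, lie_sub, map_sub, map_sub, map_sub,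
      LinearMap.sub_apply, LinearMap.sub_apply, LinearMap.sub_apply,
      hQ.model.ker _ c1, sub_zero]
    linarith
  · -- the homomorphism
    have hmem : ∀ X, ((T00aff (P X) (ρ (R X)) (Q X), R X) : Module.End ℝ (ℍ × ℝ) × g) ∈ G := by
      intro X
      refine ⟨fun v => rfl, fun y z => ?_, hR X⟩
      show ⟪P X * y - y * ρ (R X) + (0 : ℝ) • Q X, z⟫_ℝ =
        -⟪y, P X * z - z * ρ (R X) + (0 : ℝ) • Q X⟫_ℝ
      rw [zero_smul, add_zero, add_zero]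
      exact T00skew _ _ (hP X) (hQ.ρre _ (hR X)) y z
    let f : g →ₗ⁅ℝ⁆ G :=
      { toFun := fun X => ⟨(T00aff (P X) (ρ (R X)) (Q X), R X), hmem X⟩
        map_add' := by
          intro X Y
          apply Subtype.ext
          refine Prod.ext ?_ (map_add R X Y)
          apply LinearMap.ext
          rintro ⟨y, s⟩
          refine Prod.ext ?_ (add_zero _).symm
          show P (X + Y) * y - y * ρ (R (X + Y)) + s • Q (X + Y) =
            (P X * y - y * ρ (R X) + s • Q X) + (P Y * y - y * ρ (R Y) + s • Q Y)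
          rw [map_add, map_add, map_add, map_add, add_mul, mul_add, smul_add]
          abel
        map_smul' := by
          intro r X
          apply Subtype.ext
          refine Prod.ext ?_ (map_smul R r X)
          apply LinearMap.ext
          rintro ⟨y, s⟩
          refine Prod.ext ?_ (mul_zero _).symm
          show P (r • X) * y - y * ρ (R (r • X)) + s • Q (r • X) =
            r • (P X * y - y * ρ (R X) + s • Q X)
          rw [map_smul, map_smul, map_smul, map_smul, smul_mul_assoc, mul_smul_comm, smul_add,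
            smul_sub, smul_comm s r]
        map_lie' := by
          intro X Y
          obtain ⟨d1, d2, d3⟩ := hcomp X Y
          apply Subtype.ext
          refine Prod.ext ?_ d3
          apply LinearMap.ext
          rintro ⟨y, s⟩
          refine Prod.ext ?_ (sub_zero _).symm
          show P ⁅X, Y⁆ * y - y * ρ (R ⁅X, Y⁆) + s • Q ⁅X, Y⁆ =
            (P X * (P Y * y - y * ρ (R Y) + s • Q Y) -
              (P Y * y - y * ρ (R Y) + s • Q Y) * ρ (R X) + (0 : ℝ) • Q X) -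
            (P Y * (P X * y - y * ρ (R X) + s • Q X) -
              (P X * y - y * ρ (R X) + s • Q X) * ρ (R Y) + (0 : ℝ) • Q Y)
          rw [d1, d2, d3, hQ.ρlie _ (hR X) _ (hR Y), zero_smul, zero_smul, add_zero, add_zero]
          simp only [mul_add, mul_sub, add_mul, sub_mul, smul_add, smul_sub, mul_smul_comm,
            smul_mul_assoc, mul_assoc]
          abel }
    refine ⟨f, fun X Y => ?_, fun Z => ?_⟩
    · have h5 : ∀ X, t (f X) = Q X := by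
        intro X
        show P X * 0 - 0 * ρ (R X) + (1 : ℝ) • Q X = Q X
        rw [mul_zero, zero_mul, sub_zero, zero_add, one_smul]
      rw [hB₁, h5, h5]
      show ⟪Q X, Q Y⟫_ℝ + B (R X) (R Y) = B X Y
      conv_rhs => rw [hX X, hX Y]
      have g1 : ∀ a X, B (σ a) X = 0 := fun a X => hQ.model.ker _ (hσk a) X
      have g2 : ∀ a X, B X (σ a) = 0 := fun a X => hBk X _ (hσk a)
      have g3 : ∀ x X, B (E x) (R X) = 0 := fun x X => hQ.BEc _ _ (hR X)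
      have g4 : ∀ x X, B (R X) (E x) = 0 := fun x X => by rw [hQ.model.symm, g3]
      simp only [map_add, LinearMap.add_apply, g1, g2, g3, g4, hQ.BEE, zero_add, add_zero]
    · obtain ⟨d1, d2, d3⟩ := hU 0 (t Z) rfl Z.1.2 Z.2.2.2
      refine ⟨σ 0 + E (t Z) + Z.1.2, ?_⟩
      rw [hk₁]
      have h5 : t (f (σ 0 + E (t Z) + Z.1.2)) = t Z := by
        show P (σ 0 + E (t Z) + Z.1.2) * 0 - 0 * ρ (R (σ 0 + E (t Z) + Z.1.2)) +
          (1 : ℝ) • Q (σ 0 + E (t Z) + Z.1.2) = t Z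
        rw [mul_zero, zero_mul, sub_zero, zero_add, one_smul, d2]
      refine ⟨by rw [map_sub, h5, sub_self], ?_⟩
      show Z.1.2 - R (σ 0 + E (t Z) + Z.1.2) ∈ h
      rw [d3, sub_self]
      exact h.zero_mem

end GOS
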