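import Pool.Agent.GOS.StA

/-!
# Module T1: the alternative in dimension seven
-/

namespace GOS

open scoped InnerProductSpace

/-- **Module T1.** -/
theorem thm_T1 (h1 : St_ABL) (h2 : St_AB2) (h3 : St_T3) (h4 : St_T4) : GOS.St_T1 := by
  intro V _ _ _ H b hS h7
  by_cases h5 : ∃ U : Submodule ℝ V, Irr H U ∧ 5 ≤ Module.finrank ℝ U
  · exact Or.inr (Or.inr h5)
  have hle4 : ∀ U : Submodule ℝ V, Irr H U → Module.finrank ℝ U ≤ 4 := by
    intro U hU
    by_contra h
    exact h5 ⟨U, hU, by omega⟩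
  by_cases hd4 : ∃ U : Submodule ℝ V, Irr H U ∧ Module.finrank ℝ U = 4
  · obtain ⟨U, hU, hf⟩ := hd4
    rcases h4 V H b hS h7 U hU hf with h | h
    · exact Or.inl h
    · exact Or.inr (Or.inl h)
  have hle3 : ∀ U : Submodule ℝ V, Irr H U → Module.finrank ℝ U ≤ 3 := by
    intro U hU
    by_contra h
    have := hle4 U hU
    exact hd4 ⟨U, hU, by omega⟩
  by_cases hd3 : ∃ U : Submodule ℝ V, Irr H U ∧ Module.finrank ℝ U = 3
  · obtain ⟨U, hU, hf⟩ := hd3
    exact Or.inl (h3 V H b hS h7 U hU hf hle3)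
  have hle2 : ∀ U : Submodule ℝ V, Irr H U → Module.finrank ℝ U ≤ 2 := by
    intro U hU
    by_contra h
    have := hle3 U hU
    exact hd3 ⟨U, hU, by omega⟩
  obtain ⟨n, e, e', ho, -, hform⟩ := h2 V H hS.toSkewLie ⊤ (fun _ _ _ _ => Submodule.mem_top)
    (fun U _ hU => hle2 U hU)
  exact Or.inl (h1 V H b hS.symm hS.tan n e e' ho fun A hA x => hform A hA x Submodule.mem_top)

end GOS
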