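import Pool.Agent.GOS.StA

/-!
# Module T1C: the problem in dimension three
-/

namespace GOS

open scoped InnerProductSpace Quaternion

section

variable {V : Type} [NormedAddCommGroup V] [InnerProductSpace ℝ V]

theorem t1c_im {e : ℍ →ₗ[ℝ] V} (he : e 1 = 0) (z : ℍ) : e z = e z.im := by
  have h : z = z.re • (1 : ℍ) + z.im := by ext <;> simp
  have h2 := congrArg e h
  rw [map_add, map_smul, he, smul_zero, zero_add] at h2
  exact h2

/-- the coordinates of a vector with respect to `e i, e j, e k` -/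
noncomputable def t1cP (e : ℍ →ₗ[ℝ] V) : V →ₗ[ℝ] ℍ where
  toFun v := ⟨0, ⟪e ⟨0, 1, 0, 0⟩, v⟫_ℝ, ⟪e ⟨0, 0, 1, 0⟩, v⟫_ℝ, ⟪e ⟨0, 0, 0, 1⟩, v⟫_ℝ⟩
  map_add' v w := by ext <;> simp [inner_add_right]
  map_smul' r v := by ext <;> simp [real_inner_smul_right]

theorem t1cP_re (e : ℍ →ₗ[ℝ] V) (v : V) : (t1cP e v).re = 0 := rfl

theorem t1cP_e {U : Submodule ℝ V} {e : ℍ →ₗ[ℝ] V} (he : Emb3 U e) (z : ℍ) :
    t1cP e (e z) = z.im := by
  have h1 : ⟪e ⟨0, 1, 0, 0⟩, e z⟫_ℝ = z.imI := by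
    rw [he.iso, Quaternion.inner_def]; simp
  have h2 : ⟪e ⟨0, 0, 1, 0⟩, e z⟫_ℝ = z.imJ := by
    rw [he.iso, Quaternion.inner_def]; simp
  have h3 : ⟪e ⟨0, 0, 0, 1⟩, e z⟫_ℝ = z.imK := by
    rw [he.iso, Quaternion.inner_def]; simp
  ext
  · simp [t1cP]
  · simp [t1cP, h1]
  · simp [t1cP, h2]
  · simp [t1cP, h3]

theorem t1c_im_of_re {z : ℍ} (h : z.re = 0) : z.im = z := by
  ext <;> simp [h]

end

/-- **Module T1C.** -/
theorem thm_T1C (h1 : St_GEN) (h2 : St_ABL) (h3 : St_AB2) (h4 : St_SK3) (h5 : St_SO3)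
    (h6 : St_EQ3) : GOS.St_T1C := by
  intro V _ _ _ H b hS hV
  by_cases hd3 : ∃ U : Submodule ℝ V, Irr H U ∧ Module.finrank ℝ U = 3
  · obtain ⟨U, hU, hf⟩ := hd3
    have hUtop : U = ⊤ := Submodule.eq_top_of_finrank_eq (by rw [hf, hV])
    obtain ⟨⟨e, he⟩, -⟩ := h4 V U hf
    have hso := h5 V H hS.toSkewLie U e hU he
    have hPv : ∀ v : V, e (t1cP e v) = v := by
      intro v
      have hv : v ∈ LinearMap.range e := by rw [he.rng, hUtop]; exact Submodule.mem_top
      obtain ⟨z, rfl⟩ := hv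
      rw [t1cP_e he, ← t1c_im he.one]
    let β : ℍ →ₗ[ℝ] ℍ →ₗ[ℝ] ℍ := LinearMap.mk₂ ℝ (fun x y => t1cP e (b (e x) (e y)))
      (fun x x' y => by simp) (fun c x y => by simp) (fun x y y' => by simp)
      (fun c x y => by simp)
    have hβ : ∀ x y, β x y = t1cP e (b (e x) (e y)) := fun x y => rfl
    obtain ⟨κ, hκ⟩ := h6.1 β (fun x y _ _ => t1cP_re e _) (by
      intro a x y ha hx hy
      obtain ⟨A, hA, hAe⟩ := hso a ha
      have hAP : ∀ v : V, t1cP e (A v) = a * t1cP e v - t1cP e v * a := by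
        intro v
        have h := hAe (t1cP e v)
        rw [hPv, t1c_im_of_re (t1cP_re e v)] at h
        rw [h, t1cP_e he, t1c_im_of_re]
        simp only [Quaternion.re_sub, Quaternion.re_mul, ha, t1cP_re]
        ring
      have h := hS.eqv A hA (e x) (e y)
      have hx' := hAe x
      have hy' := hAe y
      rw [t1c_im_of_re hx] at hx'
      rw [t1c_im_of_re hy] at hy'
      have h' := congrArg (t1cP e) h
      rw [hAP, map_add, hx', hy'] at h'
      exact h')
    have hzero : ∀ v w : V, b v w = 0 := by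
      intro v w
      have e1 := hκ _ _ (t1cP_re e v) (t1cP_re e w)
      have e2 := hκ _ _ (t1cP_re e w) (t1cP_re e v)
      rw [hβ, hPv, hPv] at e1
      rw [hβ, hPv, hPv, hS.symm w v] at e2
      have e3 : t1cP e (b v w) = 0 := by
        have h : t1cP e (b v w) + t1cP e (b v w) = 0 := by
          nth_rewrite 1 [e1]
          rw [e2, ← smul_add, sub_add_sub_cancel, sub_self, smul_zero]
        have h2 : (2 : ℝ) • t1cP e (b v w) = 0 := by rw [two_smul]; exact h
        exact (smul_eq_zero.1 h2).resolve_left two_ne_zero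
      rw [← hPv (b v w), e3, map_zero]
    exact ⟨0, fun x => H.zero_mem, fun x => by rw [hzero]; simp⟩
  · have hle2 : ∀ U : Submodule ℝ V, Irr H U → Module.finrank ℝ U ≤ 2 := by
      intro U hU
      by_contra h
      have h3 : Module.finrank ℝ U ≤ 3 := by
        rw [← hV]; exact Submodule.finrank_le U
      exact hd3 ⟨U, hU, by omega⟩
    obtain ⟨n, e, e', ho, -, hform⟩ := h3 V H hS.toSkewLie ⊤ (fun _ _ _ _ => Submodule.mem_top)
      (fun U _ hU => hle2 U hU)
    exact h2 V H b hS.symm hS.tan n e e' ho fun A hA x => hform A hA x Submodule.mem_top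

end GOS
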