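import Pool.Agent.GOS.StA

/-!
# GOS [T3]: irreducible subspaces of dimension three
-/

set_option autoImplicit false

namespace GOS

open scoped InnerProductSpace Quaternion

section T3aux

variable {V : Type} [NormedAddCommGroup V] [InnerProductSpace ℝ V]

/-- the operators `z ↦ e [a.im, z.im]` -/
private noncomputable def T3_L (e : ℍ →ₗ[ℝ] V) : ℍ →ₗ[ℝ] ℍ →ₗ[ℝ] V :=
  LinearMap.mk₂ ℝ (fun a z => e (a.im * z.im - z.im * a.im))
    (fun a a' z => by
      rw [Quaternion.im_add, ← map_add]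
      congr 1
      noncomm_ring)
    (fun r a z => by
      rw [Quaternion.im_smul, smul_mul_assoc, mul_smul_comm, ← smul_sub, map_smul])
    (fun a z z' => by
      rw [Quaternion.im_add, ← map_add]
      congr 1
      noncomm_ring)
    (fun r a z => by
      rw [Quaternion.im_smul, smul_mul_assoc, mul_smul_comm, ← smul_sub, map_smul])

private theorem T3_comm_re (p a : ℍ) : (p * a - a * p).re = 0 := by
  rw [Quaternion.re_sub, Quaternion.re_mul, Quaternion.re_mul]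
  ring

private theorem T3_im_of (a : ℍ) (h : a.re = 0) : a.im = a := by
  ext
  · rw [Quaternion.re_im, h]
  · rfl
  · rfl
  · rfl

/-- the operators `σ` for an irreducible subspace of dimension three -/
private theorem T3_sig [FiniteDimensional ℝ V] (h4 : St_SK3) (h5 : St_SO3) (h6 : St_IDL)
    (H : Submodule ℝ (V →ₗ[ℝ] V)) (hH : SkewLie H) (U : Submodule ℝ V) (hU : Irr H U)
    (hU3 : Module.finrank ℝ U = 3) :
    ∃ (e : ℍ →ₗ[ℝ] V) (σ : ℍ →ₗ[ℝ] V →ₗ[ℝ] V), Emb3 U e ∧ (∀ a, σ a ∈ H) ∧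
      (∀ a z, σ a (e z) = e (a.im * z.im - z.im * a.im)) ∧ σ 1 = 0 ∧
      ∀ a c, σ a ∘ₗ σ c - σ c ∘ₗ σ a = σ (a.im * c.im - c.im * a.im) := by
  obtain ⟨⟨e, he⟩, -⟩ := h4 V U hU3
  have hIe : Inv H (LinearMap.range e) := by
    rw [he.rng]
    exact hU.2.1
  obtain ⟨σ, hσH, hσe, hσ3, hσ4⟩ := h6 V H hH e (T3_L e) hIe (fun a => by
    obtain ⟨A, hA, hAe⟩ := h5 V H hH U e hU he a.im (Quaternion.re_im a)
    exact ⟨A, hA, LinearMap.ext fun x => hAe x⟩)
  have hσx : ∀ a z, σ a (e z) = e (a.im * z.im - z.im * a.im) :=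
    fun a x => LinearMap.congr_fun (hσe a) x
  have hσ1 : σ 1 = 0 := by
    apply hσ4
    apply LinearMap.ext
    intro x
    show e ((1 : ℍ).im * x.im - x.im * (1 : ℍ).im) = 0
    rw [Quaternion.im_one, zero_mul, mul_zero, sub_zero, map_zero]
  refine ⟨e, σ, he, hσH, hσx, hσ1, ?_⟩
  intro a c
  refine hσ3 (σ a) (hσH a) c _ ?_
  apply LinearMap.ext
  intro x
  show σ a (σ c (e x)) - σ c (σ a (e x)) =
    e ((a.im * c.im - c.im * a.im).im * x.im - x.im * (a.im * c.im - c.im * a.im).im)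
  rw [hσx, hσx, hσx, hσx, T3_im_of _ (T3_comm_re _ _), T3_im_of _ (T3_comm_re _ _),
    T3_im_of _ (T3_comm_re _ _), ← map_sub]
  congr 1
  noncomm_ring

/-- invariant lines are killed -/
private theorem T3_line (H : Submodule ℝ (V →ₗ[ℝ] V)) (hH : SkewLie H) (L : Submodule ℝ V)
    [FiniteDimensional ℝ L] (hL : Inv H L) (h1 : Module.finrank ℝ L ≤ 1) :
    ∀ A ∈ H, ∀ t ∈ L, A t = 0 := by
  intro A hA t ht
  by_cases h0 : t = 0
  · rw [h0, map_zero]
  have h2 : Module.finrank ℝ L = 1 := by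
    have h3 : 0 < Module.finrank ℝ L := by
      rw [Module.finrank_pos_iff_exists_ne_zero]
      exact ⟨⟨t, ht⟩, fun h => h0 (congrArg Subtype.val h)⟩
    omega
  have h3 : (⟨t, ht⟩ : L) ≠ 0 := fun h => h0 (congrArg Subtype.val h)
  obtain ⟨c, hc⟩ := (finrank_eq_one_iff_of_nonzero' (⟨t, ht⟩ : L) h3).1 h2
    ⟨A t, hL A hA t ht⟩
  have hc' : c • t = A t := congrArg Subtype.val hc
  have h4 := hH.skew A hA t t
  rw [real_inner_comm t (A t)] at h4
  have h5 : ⟪A t, t⟫_ℝ = 0 := by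
    have h6 : ⟪A t, t⟫_ℝ = ⟪t, A t⟫_ℝ := real_inner_comm _ _
    linarith
  rw [← hc', real_inner_smul_left] at h5
  rcases mul_eq_zero.1 h5 with h6 | h6
  · rw [← hc', h6, zero_smul]
  · exact absurd (inner_self_eq_zero.1 h6) h0

/-- a linear map which kills `1` and the commutators is zero -/
private theorem T3_zero (g : ℍ →ₗ[ℝ] V) (h1 : g 1 = 0)
    (h2 : ∀ a c : ℍ, g (a.im * c.im - c.im * a.im) = 0) (a : ℍ) : g a = 0 := by
  obtain ⟨p, a0, a1, a2, a3⟩ : ∃ z : ℍ, z.re = 0 ∧ z.imI = 1 ∧ z.imJ = 0 ∧ z.imK = 0 :=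
    ⟨⟨0, 1, 0, 0⟩, rfl, rfl, rfl, rfl⟩
  obtain ⟨q, b0, b1, b2, b3⟩ : ∃ z : ℍ, z.re = 0 ∧ z.imI = 0 ∧ z.imJ = 1 ∧ z.imK = 0 :=
    ⟨⟨0, 0, 1, 0⟩, rfl, rfl, rfl, rfl⟩
  obtain ⟨r, c0, c1, c2, c3⟩ : ∃ z : ℍ, z.re = 0 ∧ z.imI = 0 ∧ z.imJ = 0 ∧ z.imK = 1 :=
    ⟨⟨0, 0, 0, 1⟩, rfl, rfl, rfl, rfl⟩
  have h3 : a = a.re • (1 : ℍ) + (a.imI / 2) • (q.im * r.im - r.im * q.im) +
      (a.imJ / 2) • (r.im * p.im - p.im * r.im) +
      (a.imK / 2) • (p.im * q.im - q.im * p.im) := by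
    ext
    · simp [a1, a2, a3, b1, b2, b3, c1, c2, c3]
    · simp [a1, a2, a3, b1, b2, b3, c1, c2, c3]
      ring
    · simp [a1, a2, a3, b1, b2, b3, c1, c2, c3]
      ring
    · simp [a1, a2, a3, b1, b2, b3, c1, c2, c3]
      ring
  rw [h3, map_add, map_add, map_add, map_smul, map_smul, map_smul, map_smul, h1, h2, h2, h2,
    smul_zero, smul_zero, smul_zero, smul_zero, add_zero, add_zero, add_zero]

/-- the operators of the torus case commute -/
private theorem T3_comm (H : Submodule ℝ (V →ₗ[ℝ] V)) (W : Submodule ℝ V) (n : ℕ) (e e' : Fin n → V) (ho : Orthonormal ℝ (Sum.elim e e'))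
    (hm : ∀ i, e i ∈ W ∧ e' i ∈ W)
    (hA : ∀ A ∈ H, ∀ x ∈ W,
      A x = ∑ i, ⟪A (e i), e' i⟫_ℝ • (⟪e i, x⟫_ℝ • e' i - ⟪e' i, x⟫_ℝ • e i)) :
    ∀ A ∈ H, ∀ B ∈ H, ∀ x ∈ W, A (B x) = B (A x) := by
  rw [orthonormal_iff_ite] at ho
  have o1 : ∀ i j, ⟪e i, e j⟫_ℝ = if i = j then (1 : ℝ) else 0 := by
    intro i j
    have := ho (Sum.inl i) (Sum.inl j)
    simpa using this
  have o2 : ∀ i j, ⟪e' i, e' j⟫_ℝ = if i = j then (1 : ℝ) else 0 := by
    intro i j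
    have := ho (Sum.inr i) (Sum.inr j)
    simpa using this
  have o3 : ∀ i j, ⟪e i, e' j⟫_ℝ = 0 := by
    intro i j
    have := ho (Sum.inl i) (Sum.inr j)
    simpa using this
  have o4 : ∀ i j, ⟪e' i, e j⟫_ℝ = 0 := by
    intro i j
    have := ho (Sum.inr i) (Sum.inl j)
    simpa using this
  have f1 : ∀ A ∈ H, ∀ j, A (e j) = ⟪A (e j), e' j⟫_ℝ • e' j := by
    intro A h j
    conv_lhs => rw [hA A h (e j) (hm j).1]
    rw [Finset.sum_eq_single j]
    · rw [o1, o4, if_pos rfl, one_smul, zero_smul, sub_zero]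
    · intro i _ hij
      rw [o1, o4, if_neg hij, zero_smul, zero_smul, sub_zero, smul_zero]
    · intro h'
      exact absurd (Finset.mem_univ j) h'
  have f2 : ∀ A ∈ H, ∀ j, A (e' j) = -(⟪A (e j), e' j⟫_ℝ • e j) := by
    intro A h j
    conv_lhs => rw [hA A h (e' j) (hm j).2]
    rw [Finset.sum_eq_single j]
    · rw [o2, o3, if_pos rfl, one_smul, zero_smul, zero_sub, smul_neg]
    · intro i _ hij
      rw [o2, o3, if_neg hij, zero_smul, zero_smul, sub_zero, smul_zero]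
    · intro h'
      exact absurd (Finset.mem_univ j) h'
  intro A h B h' x hx
  rw [hA B h' x hx, hA A h x hx, map_sum, map_sum]
  refine Finset.sum_congr rfl fun i _ => ?_
  have a1 := f1 A h i
  have a2 := f2 A h i
  have b1 := f1 B h' i
  have b2 := f2 B h' i
  obtain ⟨α, hα⟩ : ∃ α, ⟪A (e i), e' i⟫_ℝ = α := ⟨_, rfl⟩
  obtain ⟨β, hβ⟩ : ∃ β, ⟪B (e i), e' i⟫_ℝ = β := ⟨_, rfl⟩
  rw [hα] at a1 a2
  rw [hβ] at b1 b2
  rw [hα, hβ, map_smul, map_smul, map_sub, map_sub, map_smul, map_smul, map_smul, map_smul,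
    a1, a2, b1, b2]
  module

end T3aux

/-- [T3] -/
theorem thm_T3 (h1 : St_GEN) (h2 : St_ABL) (h3 : St_AB2) (h4 : St_SK3) (h5 : St_SO3)
    (h6 : St_IDL) (h7 : St_R3D) (h8 : St_LM3) (h9 : St_T3X) : GOS.St_T3 := by
  intro V _ _ _ H b hS h7' U hU hU3 hle
  have hH : SkewLie H := hS.toSkewLie
  obtain ⟨e, σ, he, hσH, hσe, hσ1, hσσ⟩ := T3_sig h4 h5 h6 H hH U hU hU3
  have hIU : Inv H U := hU.2.1
  have hW : Inv H Uᗮ := (h1 V H hH).1 U hIU
  have hW4 : Module.finrank ℝ Uᗮ = 4 := by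
    have := U.finrank_add_finrank_orthogonal
    omega
  by_cases hA : ∃ U' : Submodule ℝ V, U' ≤ Uᗮ ∧ Irr H U' ∧ Module.finrank ℝ U' = 3
  · obtain ⟨U', hU'W, hU', hU'3⟩ := hA
    have hIU' : Inv H U' := hU'.2.1
    have hUU' : U ≤ U'ᗮ := fun u hu => (Submodule.mem_orthogonal _ _).2 fun v hv =>
      (Submodule.mem_orthogonal' _ _).1 (hU'W hv) u hu
    rcases h7 V U' σ hU'3 hσ1 (fun a w hw => hIU' (σ a) (hσH a) w hw)
      (fun a x _ y _ => hH.skew (σ a) (hσH a) x y)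
      (fun a c w _ => LinearMap.congr_fun (hσσ a c) w) with hk | ⟨f, hf, hfa⟩
    swap
    · exact h9 V H b hS h7' U U' e f σ he hIU hf hIU' hU'W hσH hσe hfa
    obtain ⟨e', σ', he', hσH', hσe', hσ1', hσσ'⟩ := T3_sig h4 h5 h6 H hH U' hU' hU'3
    rcases h7 V U σ' hU3 hσ1' (fun a w hw => hIU (σ' a) (hσH' a) w hw)
      (fun a x _ y _ => hH.skew (σ' a) (hσH' a) x y)
      (fun a c w _ => LinearMap.congr_fun (hσσ' a c) w) with hk' | ⟨f', hf', hfa'⟩
    swap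
    · exact h9 V H b hS h7' U' U e' f' σ' he' hIU' hf' hIU hUU' hσH' hσe' hfa'
    -- the line
    have hIL : Inv H (Uᗮ ⊓ U'ᗮ) := fun A hA x hx =>
      ⟨hW A hA x hx.1, (h1 V H hH).1 U' hIU' A hA x hx.2⟩
    have hL1 : Module.finrank ℝ (Uᗮ ⊓ U'ᗮ : Submodule ℝ V) ≤ 1 := by
      have k1 := (U ⊔ U').finrank_add_finrank_orthogonal
      rw [← Submodule.inf_orthogonal] at k1
      have k2 := Submodule.finrank_sup_add_finrank_inf_eq U U'
      have k3 : U ⊓ U' = ⊥ := by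
        rw [eq_bot_iff]
        intro x hx
        have := (Submodule.mem_orthogonal' _ _).1 (hU'W hx.2) x hx.1
        rw [Submodule.mem_bot]
        exact inner_self_eq_zero.1 this
      rw [k3, finrank_bot] at k2
      omega
    have hline := T3_line H hH _ hIL hL1
    have hdec : ∀ w ∈ Uᗮ, ∃ u' ∈ U', ∃ t ∈ (Uᗮ ⊓ U'ᗮ : Submodule ℝ V), w = u' + t := by
      intro w hw
      obtain ⟨u', hu', t, ht, rfl⟩ := U'.exists_add_mem_mem_orthogonal w
      refine ⟨u', hu', t, ⟨?_, ht⟩, rfl⟩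
      have := Uᗮ.sub_mem hw (hU'W hu')
      rwa [add_sub_cancel_left] at this
    have hkW : ∀ a, ∀ w ∈ Uᗮ, σ a w = 0 := by
      intro a w hw
      obtain ⟨u', hu', t, ht, rfl⟩ := hdec w hw
      rw [map_add, hk a u' hu', hline (σ a) (hσH a) t ht, add_zero]
    have hkW' : ∀ a, ∀ w ∈ U'ᗮ, σ' a w = 0 := by
      intro a w hw
      obtain ⟨u, hu, t, ht, rfl⟩ := U.exists_add_mem_mem_orthogonal w
      have ht' : t ∈ U'ᗮ := by
        have := U'ᗮ.sub_mem hw (hUU' hu)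
        rwa [add_sub_cancel_left] at this
      rw [map_add, hk' a u hu, hline (σ' a) (hσH' a) t ⟨ht, ht'⟩, add_zero]
    have hb1 := h8 V H b hS U e σ he hIU hσH hσe hkW
    have hb2 := h8 V H b hS U' e' σ' he' hIU' hσH' hσe' hkW'
    refine ⟨0, fun x => H.zero_mem, fun x => ?_⟩
    show b x x = 0
    obtain ⟨u, hu, w, hw, rfl⟩ := U.exists_add_mem_mem_orthogonal x
    obtain ⟨u', hu', t, ht, rfl⟩ := hdec w hw
    obtain ⟨A, hA, hAt⟩ := hS.tan t
    have k1 : b (u + (u' + t)) (u + (u' + t)) = b t (u + (u' + t)) := by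
      rw [map_add b u, LinearMap.add_apply, hb1 u hu, zero_add, map_add b u',
        LinearMap.add_apply, hb2 u' hu', zero_add]
    rw [k1, hS.symm, map_add b u, LinearMap.add_apply, hb1 u hu, zero_add, map_add b u',
      LinearMap.add_apply, hb2 u' hu', zero_add, hAt]
    exact hline A hA t ht
  · have hW2 : ∀ U' : Submodule ℝ V, U' ≤ Uᗮ → Irr H U' → Module.finrank ℝ U' ≤ 2 := by
      intro U' hU'1 hU'2
      have k1 := hle U' hU'2
      have k2 : Module.finrank ℝ U' ≠ 3 := fun h => hA ⟨U', hU'1, hU'2, h⟩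
      omega
    obtain ⟨n, v, v', ho, hm, hform⟩ := h3 V H hH Uᗮ hW hW2
    have hcomm := T3_comm H Uᗮ n v v' ho hm hform
    have hkW : ∀ a, ∀ w ∈ Uᗮ, σ a w = 0 := by
      intro a w hw
      refine T3_zero ((LinearMap.applyₗ w).comp σ) ?_ ?_ a
      · show σ 1 w = 0
        rw [hσ1, LinearMap.zero_apply]
      · intro a c
        show σ (a.im * c.im - c.im * a.im) w = 0
        rw [← hσσ]
        show σ a (σ c w) - σ c (σ a w) = 0
        rw [hcomm (σ a) (hσH a) (σ c) (hσH c) w hw, sub_self]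
    have hb1 := h8 V H b hS U e σ he hIU hσH hσe hkW
    -- the ideal of the operators vanishing on `U`
    obtain ⟨N, hN⟩ : ∃ N : Submodule ℝ (V →ₗ[ℝ] V), ∀ A, A ∈ N ↔ A ∈ H ∧ ∀ u ∈ U, A u = 0 :=
      ⟨{ carrier := {A | A ∈ H ∧ ∀ u ∈ U, A u = 0}
         zero_mem' := ⟨H.zero_mem, fun u _ => rfl⟩
         add_mem' := fun {A B} hA hB => ⟨H.add_mem hA.1 hB.1, fun u hu => by
           rw [LinearMap.add_apply, hA.2 u hu, hB.2 u hu, add_zero]⟩
         smul_mem' := fun r A hA => ⟨H.smul_mem r hA.1, fun u hu => by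
           rw [LinearMap.smul_apply, hA.2 u hu, smul_zero]⟩ }, fun A => Iff.rfl⟩
    have htan : ∀ x, ∃ A ∈ N, b x x = A x := by
      intro x
      obtain ⟨u, hu, w, hw, rfl⟩ := U.exists_add_mem_mem_orthogonal x
      obtain ⟨A, hA, hAw⟩ := hS.tan w
      obtain ⟨p, hp, hpe⟩ := (h4 V U hU3).2 e A he (hIU A hA)
        (fun x _ y _ => hH.skew A hA x y)
      have hAU : ∀ u ∈ U, (A - σ p) u = 0 := by
        intro u hu
        rw [← he.rng] at hu
        obtain ⟨z, rfl⟩ := hu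
        rw [LinearMap.sub_apply, hpe, hσe, T3_im_of p hp, sub_self]
      refine ⟨A - σ p, (hN _).2 ⟨H.sub_mem hA (hσH p), hAU⟩, ?_⟩
      rw [map_add (A - σ p), hAU u hu, zero_add, LinearMap.sub_apply, hkW p w hw, sub_zero,
        ← hAw]
      rw [map_add b u, LinearMap.add_apply, hb1 u hu, zero_add, hS.symm, map_add b u,
        LinearMap.add_apply, hb1 u hu, zero_add]
    obtain ⟨φ, hφ, hφb⟩ := h2 V N b hS.symm htan n v v' ho (by
      intro A hA x
      obtain ⟨hAH, hAU⟩ := (hN A).1 hA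
      obtain ⟨u, hu, w, hw, rfl⟩ := U.exists_add_mem_mem_orthogonal x
      rw [map_add, hAU u hu, zero_add, hform A hAH w hw]
      refine Finset.sum_congr rfl fun i _ => ?_
      rw [inner_add_right, inner_add_right,
        (Submodule.mem_orthogonal' _ _).1 (hm i).1 u hu,
        (Submodule.mem_orthogonal' _ _).1 (hm i).2 u hu, zero_add, zero_add])
    exact ⟨φ, fun x => ((hN _).1 (hφ x)).1, hφb⟩

end GOS
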