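import Pool.Agent.GOS.StA

/-!
# Module T3X (helper56)
-/

namespace GOS

open scoped InnerProductSpace Quaternion

private theorem T3X_in (z w : ℍ) : ⟪z, w⟫_ℝ =
    z.re * w.re + z.imI * w.imI + z.imJ * w.imJ + z.imK * w.imK := by
  rw [Quaternion.inner_def]
  simp [Quaternion.re_mul]

private theorem T3X_im (z : ℍ) (h : z.re = 0) : z.im = z := by
  ext
  · simp [h]
  · simp
  · simp
  · simp

section lem

variable {V : Type} [NormedAddCommGroup V] [InnerProductSpace ℝ V] [FiniteDimensional ℝ V]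
  {U : Submodule ℝ V} {e : ℍ →ₗ[ℝ] V}

private theorem T3X_re (he : Emb3 U e) (v : V) : (LinearMap.adjoint e v).re = 0 := by
  have h1 : ⟪LinearMap.adjoint e v, (1 : ℍ)⟫_ℝ = 0 := by
    rw [LinearMap.adjoint_inner_left, he.one, inner_zero_right]
  rw [T3X_in] at h1
  simpa using h1

private theorem T3X_eim (he : Emb3 U e) (z : ℍ) : e z.im = e z := by
  have h1 : z = z.re • (1 : ℍ) + z.im := by
    ext <;> simp
  conv_rhs => rw [h1]
  rw [map_add, map_smul, he.one, smul_zero, zero_add]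

private theorem T3X_ae (he : Emb3 U e) (z : ℍ) : LinearMap.adjoint e (e z) = z.im := by
  refine ext_inner_right ℝ fun w => ?_
  rw [LinearMap.adjoint_inner_left, he.iso, T3X_in, T3X_in]
  simp

private theorem T3X_mem (he : Emb3 U e) (z : ℍ) : e z ∈ U := by
  rw [← he.rng]
  exact ⟨z, rfl⟩

private theorem T3X_perp (he : Emb3 U e) (v : V) (hv : v ∈ Uᗮ) : LinearMap.adjoint e v = 0 := by
  refine ext_inner_right ℝ fun w => ?_
  rw [LinearMap.adjoint_inner_left, inner_zero_left]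
  exact (Submodule.mem_orthogonal' U v).mp hv _ (T3X_mem he w)

private theorem T3X_dim (he : Emb3 U e) : Module.finrank ℝ U = 3 := by
  have h1 := LinearMap.finrank_range_add_finrank_ker e
  have h2 : LinearMap.ker e = Submodule.span ℝ {(1 : ℍ)} := by
    ext z
    rw [LinearMap.mem_ker, Submodule.mem_span_singleton]
    constructor
    · intro hz
      refine ⟨z.re, ?_⟩
      have h3 := he.iso z z
      rw [hz, inner_zero_left, T3X_in] at h3
      simp at h3
      have a1 : z.imI = 0 := by nlinarith [sq_nonneg z.imI, sq_nonneg z.imJ, sq_nonneg z.imK]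
      have a2 : z.imJ = 0 := by nlinarith [sq_nonneg z.imI, sq_nonneg z.imJ, sq_nonneg z.imK]
      have a3 : z.imK = 0 := by nlinarith [sq_nonneg z.imI, sq_nonneg z.imJ, sq_nonneg z.imK]
      ext
      · simp
      · simp [a1]
      · simp [a2]
      · simp [a3]
    · rintro ⟨c, rfl⟩
      rw [map_smul, he.one, smul_zero]
  rw [h2, finrank_span_singleton (one_ne_zero), Quaternion.finrank_eq_four, he.rng] at h1
  omega

/-- the projection commutes with the action -/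
private theorem T3X_eq (he : Emb3 U e) (S : V →ₗ[ℝ] V) (a : ℍ) (ha : a.re = 0)
    (hs : ∀ x y : V, ⟪S x, y⟫_ℝ = - ⟪x, S y⟫_ℝ)
    (hS : ∀ z, S (e z) = e (a.im * z.im - z.im * a.im)) (v : V) :
    LinearMap.adjoint e (S v) = a * LinearMap.adjoint e v - LinearMap.adjoint e v * a := by
  refine ext_inner_right ℝ fun z => ?_
  have hr := T3X_re he v
  rw [LinearMap.adjoint_inner_left, hs, hS, ← LinearMap.adjoint_inner_left]
  generalize LinearMap.adjoint e v = p at hr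
  rw [T3X_im a ha, T3X_in, T3X_in]
  simp only [Quaternion.re_sub, Quaternion.imI_sub, Quaternion.imJ_sub, Quaternion.imK_sub,
    Quaternion.re_mul, Quaternion.imI_mul, Quaternion.imJ_mul, Quaternion.imK_mul,
    Quaternion.re_im, Quaternion.imI_im, Quaternion.imJ_im, Quaternion.imK_im, ha, hr]
  ring

end lem

private theorem T3X_bil {V : Type} [NormedAddCommGroup V] [InnerProductSpace ℝ V]
    (q1 : ∀ β : ℍ →ₗ[ℝ] ℍ →ₗ[ℝ] ℍ, (∀ x y : ℍ, x.re = 0 → y.re = 0 → (β x y).re = 0) →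
      (∀ a x y : ℍ, a.re = 0 → x.re = 0 → y.re = 0 →
        a * β x y - β x y * a = β (a * x - x * a) y + β x (a * y - y * a)) →
      ∃ κ : ℝ, ∀ x y : ℍ, x.re = 0 → y.re = 0 → β x y = κ • (x * y - y * x))
    (σ : ℍ →ₗ[ℝ] V →ₗ[ℝ] V) (b : V →ₗ[ℝ] V →ₗ[ℝ] V) (e1 e2 : ℍ →ₗ[ℝ] V) (g : V →ₗ[ℝ] ℍ)
    (hg0 : ∀ v, (g v).re = 0) (hg : ∀ a v, a.re = 0 → g (σ a v) = a * g v - g v * a)
    (h1 : ∀ a z, a.re = 0 → z.re = 0 → σ a (e1 z) = e1 (a * z - z * a))
    (h2 : ∀ a z, a.re = 0 → z.re = 0 → σ a (e2 z) = e2 (a * z - z * a))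
    (hb : ∀ a x y, σ a (b x y) = b (σ a x) y + b x (σ a y)) :
    ∃ κ : ℝ, ∀ x y : ℍ, x.re = 0 → y.re = 0 → g (b (e1 x) (e2 y)) = κ • (x * y - y * x) := by
  obtain ⟨κ, hκ⟩ := q1 ((b.compl₁₂ e1 e2).compr₂ g) (fun x y _ _ => hg0 _)
    (fun a x y ha hx hy => by
      simp only [LinearMap.compr₂_apply, LinearMap.compl₁₂_apply]
      rw [← hg _ _ ha, hb, h1 a x ha hx, h2 a y ha hy, map_add])
  exact ⟨κ, fun x y hx hy => hκ x y hx hy⟩

private theorem T3X_lin {V : Type} [NormedAddCommGroup V] [InnerProductSpace ℝ V]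
    (q2 : ∀ η : ℍ →ₗ[ℝ] ℍ, (∀ z : ℍ, z.re = 0 → (η z).re = 0) →
      (∀ a z : ℍ, a.re = 0 → z.re = 0 → a * η z - η z * a = η (a * z - z * a)) →
      ∃ c : ℝ, ∀ z : ℍ, z.re = 0 → η z = c • z)
    (σ : ℍ →ₗ[ℝ] V →ₗ[ℝ] V) (b : V →ₗ[ℝ] V →ₗ[ℝ] V) (e1 : ℍ →ₗ[ℝ] V) (g : V →ₗ[ℝ] ℍ)
    (hg0 : ∀ v, (g v).re = 0) (hg : ∀ a v, a.re = 0 → g (σ a v) = a * g v - g v * a)
    (h1 : ∀ a z, a.re = 0 → z.re = 0 → σ a (e1 z) = e1 (a * z - z * a))
    (hb : ∀ a x y, σ a (b x y) = b (σ a x) y + b x (σ a y)) (w : V) (hw : ∀ a, σ a w = 0) :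
    ∃ c : ℝ, ∀ x : ℍ, x.re = 0 → g (b (e1 x) w) = c • x := by
  obtain ⟨κ, hκ⟩ := q2 (g ∘ₗ (b.flip w) ∘ₗ e1) (fun x _ => hg0 _)
    (fun a x ha hx => by
      simp only [LinearMap.comp_apply, LinearMap.flip_apply]
      rw [← hg _ _ ha, hb, h1 a x ha hx, hw, map_zero, add_zero])
  exact ⟨κ, fun x hx => hκ x hx⟩

theorem thm_T3X (h1 : St_GEN) (h2 : St_EQ3) : St_T3X := by
  intro V _ _ _ H b hb h7 U U' e f σ he hU hf hU' hUU' hσ hσe hσf
  obtain ⟨q1, q2⟩ := h2
  have hsk := hb.skew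
  -- the orthogonal complement of the sum is a line
  have hinf : U ⊓ U' = ⊥ := by
    rw [eq_bot_iff]
    intro x hx
    have h3 := (Submodule.mem_orthogonal' U x).mp (hUU' hx.2) x hx.1
    rw [inner_self_eq_zero] at h3
    rw [h3]
    exact Submodule.zero_mem _
  have hd6 : Module.finrank ℝ (U ⊔ U' : Submodule ℝ V) = 6 := by
    have h3 := Submodule.finrank_sup_add_finrank_inf_eq U U'
    rw [hinf, finrank_bot, T3X_dim he, T3X_dim hf] at h3
    omega
  have hd1 : Module.finrank ℝ ((U ⊔ U')ᗮ : Submodule ℝ V) = 1 := by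
    have h3 := Submodule.finrank_add_finrank_orthogonal (U ⊔ U')
    omega
  have hInv : Inv H (U ⊔ U') := by
    intro A hA x hx
    obtain ⟨y, hy, z, hz, rfl⟩ := Submodule.mem_sup.mp hx
    rw [map_add]
    exact Submodule.add_mem_sup (hU A hA y hy) (hU' A hA z hz)
  have hInv' : Inv H (U ⊔ U')ᗮ := (h1 V H hb.toSkewLie).1 _ hInv
  have hkill : ∀ w ∈ (U ⊔ U')ᗮ, ∀ A ∈ H, A w = 0 := by
    obtain ⟨v, hv0, hv⟩ := finrank_eq_one_iff'.mp hd1
    intro w hw A hA
    obtain ⟨c, hc⟩ := hv ⟨A w, hInv' A hA w hw⟩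
    obtain ⟨d, hd⟩ := hv ⟨w, hw⟩
    have hc' : c • (v : V) = A w := congrArg Subtype.val hc
    have hd' : d • (v : V) = w := congrArg Subtype.val hd
    obtain ⟨c1, hc1⟩ := hv ⟨A v, hInv' A hA v v.2⟩
    have hc1' : c1 • (v : V) = A v := congrArg Subtype.val hc1
    have h3 := hsk A hA v v
    rw [← hc1', inner_smul_left, inner_smul_right] at h3
    simp only [conj_trivial] at h3
    have h4 : ⟪(v : V), (v : V)⟫_ℝ ≠ 0 := by
      intro h5
      rw [inner_self_eq_zero] at h5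
      exact hv0 (Subtype.ext h5)
    have h5 : c1 = 0 := by
      have h6 : c1 * ⟪(v : V), (v : V)⟫_ℝ = 0 := by linarith
      rcases mul_eq_zero.mp h6 with h7 | h7
      · exact h7
      · exact absurd h7 h4
    rw [← hd', map_smul, ← hc1', h5, zero_smul, smul_zero]
  -- decomposition
  have hef : ∀ z, LinearMap.adjoint e (f z) = 0 := fun z => T3X_perp he _ (hUU' (T3X_mem hf z))
  have hfe : ∀ z, LinearMap.adjoint f (e z) = 0 := by
    intro z
    refine T3X_perp hf _ ?_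
    rw [Submodule.mem_orthogonal]
    intro u hu
    exact (Submodule.mem_orthogonal' U u).mp (hUU' hu) _ (T3X_mem he z)
  have hres : ∀ v : V, v - e (LinearMap.adjoint e v) - f (LinearMap.adjoint f v) ∈
      (U ⊔ U')ᗮ := by
    intro v
    have key : ∀ u ∈ U ⊔ U', ⟪u, v - e (LinearMap.adjoint e v) - f (LinearMap.adjoint f v)⟫_ℝ = 0 := by
      intro u hu
      obtain ⟨y, hy, z, hz, rfl⟩ := Submodule.mem_sup.mp hu
      rw [← he.rng] at hy
      rw [← hf.rng] at hz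
      obtain ⟨x, rfl⟩ := hy
      obtain ⟨x', rfl⟩ := hz
      rw [inner_add_left, ← LinearMap.adjoint_inner_right, ← LinearMap.adjoint_inner_right,
        map_sub, map_sub, map_sub, map_sub, T3X_ae he, T3X_ae hf, hef, hfe,
        T3X_im _ (T3X_re he v), T3X_im _ (T3X_re hf v)]
      simp
    exact (Submodule.mem_orthogonal _ _).mpr key
  have hbt : ∀ w ∈ (U ⊔ U')ᗮ, ∀ X Y, ⟪b X Y, w⟫_ℝ = 0 := by
    intro w hw X Y
    have h3 : ∀ X, ⟪b X X, w⟫_ℝ = 0 := by
      intro X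
      obtain ⟨A, hA, hAX⟩ := hb.tan X
      rw [hAX, hsk A hA, hkill w hw A hA, inner_zero_right, neg_zero]
    have h4 := h3 (X + Y)
    simp only [map_add, LinearMap.add_apply, inner_add_left] at h4
    rw [h3 X, h3 Y, hb.symm Y X] at h4
    linarith
  have hdec : ∀ X Y, b X Y = e (LinearMap.adjoint e (b X Y)) +
      f (LinearMap.adjoint f (b X Y)) := by
    intro X Y
    have h3 := hres (b X Y)
    have h4 : ⟪b X Y - e (LinearMap.adjoint e (b X Y)) - f (LinearMap.adjoint f (b X Y)),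
        b X Y - e (LinearMap.adjoint e (b X Y)) - f (LinearMap.adjoint f (b X Y))⟫_ℝ = 0 := by
      nth_rewrite 1 [sub_sub]
      rw [inner_sub_left, hbt _ h3 X Y, inner_add_left,
        (Submodule.mem_orthogonal _ _).mp h3 _ (Submodule.mem_sup_left (T3X_mem he _)),
        (Submodule.mem_orthogonal _ _).mp h3 _ (Submodule.mem_sup_right (T3X_mem hf _))]
      simp
    rw [inner_self_eq_zero, sub_sub, sub_eq_zero] at h4
    exact h4
  -- equivariance
  have heq : ∀ a v, a.re = 0 → LinearMap.adjoint e (σ a v) =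
      a * LinearMap.adjoint e v - LinearMap.adjoint e v * a := fun a v ha =>
    T3X_eq he (σ a) a ha (hsk _ (hσ a)) (hσe a) v
  have hfq : ∀ a v, a.re = 0 → LinearMap.adjoint f (σ a v) =
      a * LinearMap.adjoint f v - LinearMap.adjoint f v * a := fun a v ha =>
    T3X_eq hf (σ a) a ha (hsk _ (hσ a)) (hσf a) v
  have hσe' : ∀ a z, a.re = 0 → z.re = 0 → σ a (e z) = e (a * z - z * a) := by
    intro a z ha hz
    rw [hσe, T3X_im a ha, T3X_im z hz]
  have hσf' : ∀ a z, a.re = 0 → z.re = 0 → σ a (f z) = f (a * z - z * a) := by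
    intro a z ha hz
    rw [hσf, T3X_im a ha, T3X_im z hz]
  have hbσ : ∀ a x y, σ a (b x y) = b (σ a x) y + b x (σ a y) := fun a => hb.eqv _ (hσ a)
  have hre := T3X_re he
  have hrf := T3X_re hf
  have hsym0 : ∀ (e1 : ℍ →ₗ[ℝ] V) (g : V →ₗ[ℝ] ℍ),
      (∃ κ : ℝ, ∀ x y : ℍ, x.re = 0 → y.re = 0 → g (b (e1 x) (e1 y)) = κ • (x * y - y * x)) →
      ∀ x : ℍ, x.re = 0 → g (b (e1 x) (e1 x)) = 0 := by
    rintro e1 g ⟨κ, hκ⟩ x hx
    rw [hκ x x hx hx, sub_self, smul_zero]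
  have hbe : ∀ x : ℍ, x.re = 0 → b (e x) (e x) = 0 := by
    intro x hx
    rw [hdec (e x) (e x), hsym0 e _ (T3X_bil q1 σ b e e _ hre heq hσe' hσe' hbσ) x hx,
      hsym0 e _ (T3X_bil q1 σ b e e _ hrf hfq hσe' hσe' hbσ) x hx, map_zero, map_zero, add_zero]
  have hbf : ∀ x : ℍ, x.re = 0 → b (f x) (f x) = 0 := by
    intro x hx
    rw [hdec (f x) (f x), hsym0 f _ (T3X_bil q1 σ b f f _ hre heq hσf' hσf' hbσ) x hx,
      hsym0 f _ (T3X_bil q1 σ b f f _ hrf hfq hσf' hσf' hbσ) x hx, map_zero, map_zero, add_zero]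
  have hbw : ∀ w ∈ (U ⊔ U')ᗮ, b w w = 0 := by
    intro w hw
    obtain ⟨A, hA, hAX⟩ := hb.tan w
    rw [hAX, hkill w hw A hA]
  have hXX : ∀ X, ⟪b X X, X⟫_ℝ = 0 := by
    intro X
    obtain ⟨A, hA, hAX⟩ := hb.tan X
    rw [hAX]
    have h3 := hsk A hA X X
    rw [real_inner_comm] at h3
    have h4 := real_inner_comm X (A X)
    linarith
  -- mixed terms with the line
  have hmix : ∀ w ∈ (U ⊔ U')ᗮ, (∀ x : ℍ, x.re = 0 → b (e x) w = 0) ∧
      (∀ x : ℍ, x.re = 0 → b (f x) w = 0) := by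
    intro w hw
    have hkw : ∀ a, σ a w = 0 := fun a => hkill w hw _ (hσ a)
    have gen : ∀ (U₁ U₂ : Submodule ℝ V) (e1 e2 : ℍ →ₗ[ℝ] V), Emb3 U₁ e1 → Emb3 U₂ e2 →
        Inv H U₁ → (∀ z, LinearMap.adjoint e2 (e1 z) = 0) →
        (∀ v, v ∈ U₁ → v ∈ U ⊔ U') →
        (∀ a v, a.re = 0 → LinearMap.adjoint e1 (σ a v) =
          a * LinearMap.adjoint e1 v - LinearMap.adjoint e1 v * a) →
        (∀ a z, a.re = 0 → z.re = 0 → σ a (e1 z) = e1 (a * z - z * a)) →
        (∀ x : ℍ, x.re = 0 → b (e1 x) (e1 x) = 0) →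
        ∀ x : ℍ, x.re = 0 → LinearMap.adjoint e1 (b (e1 x) w) = 0 ∧
          LinearMap.adjoint e2 (b (e1 x) w) = 0 := by
      intro U₁ U₂ e1 e2 he1 he2 hI h21 hle heq1 hσ1 hb1 x hx
      have hexp : b (e1 x + w) (e1 x + w) = (2 : ℝ) • b (e1 x) w := by
        simp only [map_add, LinearMap.add_apply]
        rw [hb1 x hx, hbw w hw, hb.symm w (e1 x), two_smul]
        abel
      constructor
      · obtain ⟨c, hc⟩ := T3X_lin q2 σ b e1 _ (T3X_re he1) heq1 hσ1 hbσ w hkw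
        rw [hc x hx]
        have h3 := hXX (e1 x + w)
        rw [hexp, inner_smul_left, inner_add_right, hbt w hw, add_zero,
          ← LinearMap.adjoint_inner_left, hc x hx, inner_smul_left] at h3
        simp only [conj_trivial] at h3
        have h4 : c * ⟪x, x⟫_ℝ = 0 := by linarith
        rcases mul_eq_zero.mp h4 with h5 | h5
        · rw [h5, zero_smul]
        · rw [inner_self_eq_zero] at h5
          rw [h5, smul_zero]
      · obtain ⟨A, hA, hAX⟩ := hb.tan (e1 x + w)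
        rw [hexp, map_add, hkill w hw A hA, add_zero] at hAX
        have h3 : A (e1 x) ∈ U₁ := hI A hA _ (T3X_mem he1 x)
        rw [← he1.rng] at h3
        obtain ⟨z, hz⟩ := h3
        rw [← hz] at hAX
        have h4 := congrArg (LinearMap.adjoint e2) hAX
        rw [h21, map_smul] at h4
        rcases smul_eq_zero.mp h4 with h5 | h5
        · norm_num at h5
        · exact h5
    constructor
    · intro x hx
      obtain ⟨g1, g2⟩ := gen U U' e f he hf hU hfe (fun v hv => Submodule.mem_sup_left hv) heq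
        hσe' hbe x hx
      rw [hdec (e x) w, g1, g2, map_zero, map_zero, add_zero]
    · intro x hx
      obtain ⟨g1, g2⟩ := gen U' U f e hf he hU' hef (fun v hv => Submodule.mem_sup_right hv) hfq
        hσf' hbf x hx
      rw [hdec (f x) w, g1, g2, map_zero, map_zero, add_zero]
  obtain ⟨κ₁, hκ₁⟩ := T3X_bil q1 σ b e f _ hre heq hσe' hσf' hbσ
  obtain ⟨κ₂, hκ₂⟩ := T3X_bil q1 σ b e f _ hrf hfq hσe' hσf' hbσ
  refine ⟨σ ∘ₗ ((2 * κ₂) • LinearMap.adjoint e - (2 * κ₁) • LinearMap.adjoint f),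
    fun x => hσ _, ?_⟩
  intro X
  have hx := hre X
  have hy := hrf X
  have hw := hres X
  set x := LinearMap.adjoint e X with hxdef
  set y := LinearMap.adjoint f X with hydef
  set w := X - e x - f y with hwdef
  have hX : X = e x + f y + w := by
    rw [hwdef]
    abel
  have ha : ((2 * κ₂) • x - (2 * κ₁) • y).re = 0 := by
    rw [Quaternion.re_sub, Quaternion.re_smul, Quaternion.re_smul, hx, hy]
    simp
  have hL : (σ ∘ₗ ((2 * κ₂) • LinearMap.adjoint e - (2 * κ₁) • LinearMap.adjoint f)) X =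
      σ ((2 * κ₂) • x - (2 * κ₁) • y) := rfl
  rw [hL]
  have hb1 : b X X = (2 : ℝ) • b (e x) (f y) := by
    obtain ⟨m1, m2⟩ := hmix w hw
    rw [hX]
    simp only [map_add, LinearMap.add_apply]
    rw [hbe x hx, hbf y hy, hbw w hw, m1 x hx, m2 y hy, hb.symm w (e x), hb.symm w (f y),
      m1 x hx, m2 y hy, hb.symm (f y) (e x), two_smul]
    abel
  rw [hb1, hdec (e x) (f y), hκ₁ x y hx hy, hκ₂ x y hx hy]
  have hR : σ ((2 * κ₂) • x - (2 * κ₁) • y) X =
      σ ((2 * κ₂) • x - (2 * κ₁) • y) (e x) + σ ((2 * κ₂) • x - (2 * κ₁) • y) (f y) := by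
    conv_lhs => rw [hX]
    rw [map_add, map_add, hkill w hw _ (hσ _), add_zero]
  rw [hR, hσe' _ x ha hx, hσf' _ y ha hy, smul_add, ← map_smul, ← map_smul]
  congr 2
  · rw [sub_mul, mul_sub, smul_mul_assoc, smul_mul_assoc, mul_smul_comm, mul_smul_comm]
    module
  · rw [sub_mul, mul_sub, smul_mul_assoc, smul_mul_assoc, mul_smul_comm, mul_smul_comm]
    module

end GOS
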