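import Pool.Agent.GOS.StA

/-!
# Module T4X: the quaternionic subspace with a three-dimensional complement
-/

namespace GOS

open scoped InnerProductSpace Quaternion

namespace T4Xaux

lemma im_of_re {a : ℍ} (h : a.re = 0) : a.im = a := by
  ext <;> simp [h]

theorem ipq (x y : ℍ) : ⟪x, y⟫_ℝ = x.re * y.re + x.imI * y.imI + x.imJ * y.imJ + x.imK * y.imK := by
  rw [Quaternion.inner_def]
  simp only [Quaternion.re_mul, Quaternion.re_star, Quaternion.imI_star, Quaternion.imJ_star,
    Quaternion.imK_star]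
  ring

end T4Xaux

open T4Xaux

theorem thm_T4X (h1 : St_GEN) (h2 : St_EQ1) (h3 : St_EQ3) : St_T4X := by
  intro V _ _ _ H b hS U e f σ he hU hf hσ hσe hσf
  obtain ⟨-, g2, g3, -, -⟩ := h1 V H hS.toSkewLie
  obtain ⟨q1, q2, q3⟩ := h2
  obtain ⟨r1, -⟩ := h3
  have g1 : Inv H Uᗮ := (h1 V H hS.toSkewLie).1 U hU
  set E : V →ₗ[ℝ] ℍ := LinearMap.adjoint e with hE
  set F : V →ₗ[ℝ] ℍ := LinearMap.adjoint f with hF
  have heU : ∀ x, e x ∈ U := fun x => he.rng ▸ LinearMap.mem_range_self e x
  have hfU : ∀ x, f x ∈ Uᗮ := fun x => hf.rng ▸ LinearMap.mem_range_self f x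
  have hEe : ∀ x, E (e x) = x := by
    intro x
    refine ext_inner_right ℝ fun z => ?_
    rw [hE, LinearMap.adjoint_inner_left, he.iso]
  have hFf : ∀ x, F (f x) = x.im := by
    intro x
    refine ext_inner_right ℝ fun z => ?_
    rw [hF, LinearMap.adjoint_inner_left, hf.iso, ipq, ipq]
    simp
  have hE0 : ∀ w ∈ Uᗮ, E w = 0 := by
    intro w hw
    refine ext_inner_right ℝ fun z => ?_
    rw [hE, LinearMap.adjoint_inner_left, inner_zero_left]
    exact (Submodule.mem_orthogonal' U w).1 hw _ (heU z)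
  have hF0 : ∀ w ∈ U, F w = 0 := by
    intro w hw
    refine ext_inner_right ℝ fun z => ?_
    rw [hF, LinearMap.adjoint_inner_left, inner_zero_left]
    exact (Submodule.mem_orthogonal U (f z)).1 (hfU z) _ hw
  have hFre : ∀ v, (F v).re = 0 := by
    intro v
    have h : ⟪F v, (1 : ℍ)⟫_ℝ = ⟪v, f 1⟫_ℝ := by rw [hF, LinearMap.adjoint_inner_left]
    rw [hf.one, inner_zero_right, ipq] at h
    simpa using h
  have hfim : ∀ z : ℍ, f z.im = f z := by
    intro z
    have h : z = z.re • (1 : ℍ) + z.im := by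
      ext <;> simp
    conv_rhs => rw [h, map_add, map_smul, hf.one, smul_zero, zero_add]
  have hdec : ∀ v, v = e (E v) + f (F v) := by
    intro v
    obtain ⟨u, hu, w, hw, rfl⟩ := U.exists_add_mem_mem_orthogonal v
    obtain ⟨x, rfl⟩ : ∃ x, e x = u := by
      rw [← he.rng] at hu; exact hu
    obtain ⟨z, rfl⟩ : ∃ z, f z = w := by
      rw [← hf.rng] at hw; exact hw
    rw [map_add E, map_add F, hEe, hFf, hE0 _ (hfU z), hF0 _ (heU x), add_zero, zero_add, hfim]
  have hcom : ∀ a z : ℍ, (a * z - z * a).re = 0 := by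
    intro a z
    simp only [Quaternion.re_sub, Quaternion.re_mul]
    ring
  have hσd : ∀ a : ℍ, a.re = 0 → ∀ v, σ a v = e (a * E v) + f (a * F v - F v * a) := by
    intro a ha v
    conv_lhs => rw [hdec v, map_add, hσe, hσf, im_of_re ha, im_of_re (hFre v)]
  have hEσ : ∀ a : ℍ, a.re = 0 → ∀ v, E (σ a v) = a * E v := by
    intro a ha v
    rw [hσd a ha, map_add, hEe, hE0 _ (hfU _), add_zero]
  have hFσ : ∀ a : ℍ, a.re = 0 → ∀ v, F (σ a v) = a * F v - F v * a := by
    intro a ha v
    rw [hσd a ha, map_add, hFf, hF0 _ (heU _), zero_add, im_of_re (hcom a _)]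
  have hσe' : ∀ a : ℍ, a.re = 0 → ∀ x, σ a (e x) = e (a * x) := by
    intro a ha x
    rw [hσe, im_of_re ha]
  have hσf' : ∀ a z : ℍ, a.re = 0 → z.re = 0 → σ a (f z) = f (a * z - z * a) := by
    intro a z ha hz
    rw [hσf, im_of_re ha, im_of_re hz]
  -- (i) the part on `U × U`
  have hb1 : ∀ x y, b (e x) (e y) = 0 := by
    intro x y
    have hβ := q1 ((b.compl₁₂ e e).compr₂ E) (by
      intro a x y ha
      simp only [LinearMap.compr₂_apply, LinearMap.compl₁₂_apply]
      rw [← hEσ a ha, hS.eqv _ (hσ a), hσe' a ha, hσe' a ha, map_add]) x y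
    simp only [LinearMap.compr₂_apply, LinearMap.compl₁₂_apply] at hβ
    have hm := g2 b U hS hU _ (heU x) _ (heU y)
    rw [hdec (b (e x) (e y)), hβ, hF0 _ hm, map_zero, map_zero, add_zero]
  -- (ii) the part on `Uᗮ × Uᗮ`
  have hb2 : ∀ z w : ℍ, z.re = 0 → w.re = 0 → b (f z) (f w) = 0 := by
    obtain ⟨κ, hκ⟩ := r1 ((b.compl₁₂ f f).compr₂ F) (by
      intro x y _ _
      exact hFre _) (by
      intro a x y ha hx hy
      simp only [LinearMap.compr₂_apply, LinearMap.compl₁₂_apply]
      rw [← hFσ a ha, hS.eqv _ (hσ a), hσf' a x ha hx, hσf' a y ha hy, map_add])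
    simp only [LinearMap.compr₂_apply, LinearMap.compl₁₂_apply] at hκ
    intro z w hz hw
    have h5 := hκ z w hz hw
    have h6 := hκ w z hw hz
    rw [hS.symm (f w) (f z), h5] at h6
    have h7 : F (b (f z) (f w)) = 0 := by
      rw [h5]
      have h8 : κ • (z * w - w * z) + κ • (z * w - w * z) = 0 := by
        nth_rw 2 [h6]
        rw [← smul_add]
        have : z * w - w * z + (w * z - z * w) = 0 := by abel
        rw [this, smul_zero]
      have h9 : (2 : ℝ) • (κ • (z * w - w * z)) = 0 := by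
        rw [two_smul]; exact h8
      exact (smul_eq_zero.1 h9).resolve_left two_ne_zero
    have hm := g2 b Uᗮ hS g1 _ (hfU z) _ (hfU w)
    rw [hdec (b (f z) (f w)), h7, hE0 _ hm, map_zero, map_zero, add_zero]
  -- (iii) the mixed part
  have hη := q2 ((b.compl₁₂ e f).compr₂ F) (by
      intro x y _
      exact hFre _) (by
      intro a x z ha hz
      simp only [LinearMap.compr₂_apply, LinearMap.compl₁₂_apply]
      rw [← hFσ a ha, hS.eqv _ (hσ a), hσe' a ha, hσf' a z ha hz, map_add])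
  simp only [LinearMap.compr₂_apply, LinearMap.compl₁₂_apply] at hη
  obtain ⟨q, hq⟩ := q3 ((b.compl₁₂ e f).compr₂ E) (by
      intro a x z ha hz
      simp only [LinearMap.compr₂_apply, LinearMap.compl₁₂_apply]
      rw [← hEσ a ha, hS.eqv _ (hσ a), hσe' a ha, hσf' a z ha hz, map_add])
  simp only [LinearMap.compr₂_apply, LinearMap.compl₁₂_apply] at hq
  have hb3 : ∀ x z : ℍ, z.re = 0 → b (e x) (f z) = e (z * x * q) := by
    intro x z hz
    rw [hdec (b (e x) (f z)), hη x z hz, hq x z hz, map_zero, add_zero]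
  have hbb : ∀ x z : ℍ, z.re = 0 → b (e x + f z) (e x + f z) = (2 : ℝ) • e (z * x * q) := by
    intro x z hz
    rw [map_add, map_add, LinearMap.add_apply, LinearMap.add_apply, hb1, hb2 z z hz hz,
      hS.symm (f z) (e x), hb3 x z hz, two_smul]
    abel
  have hqim : q.im = 0 := by
    have h := g3 b U hS hU (e 1) (heU 1) (f q.im) (hfU _)
    rw [hbb 1 q.im (by simp), real_inner_smul_left, he.iso, ipq] at h
    simp only [Quaternion.re_mul, Quaternion.imI_mul, Quaternion.imJ_mul, Quaternion.imK_mul,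
      Quaternion.re_im, Quaternion.imI_im, Quaternion.imJ_im, Quaternion.imK_im,
      Quaternion.re_one, Quaternion.imI_one, Quaternion.imJ_one, Quaternion.imK_one] at h
    have h' : q.imI ^ 2 + q.imJ ^ 2 + q.imK ^ 2 = 0 := by nlinarith
    have hI : q.imI = 0 := by nlinarith [sq_nonneg q.imI, sq_nonneg q.imJ, sq_nonneg q.imK]
    have hJ : q.imJ = 0 := by nlinarith [sq_nonneg q.imI, sq_nonneg q.imJ, sq_nonneg q.imK]
    have hK : q.imK = 0 := by nlinarith [sq_nonneg q.imI, sq_nonneg q.imJ, sq_nonneg q.imK]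
    ext <;> simp [hI, hJ, hK]
  have hqre : ∀ y : ℍ, y * q = q.re • y := by
    intro y
    have h : q = q.re • (1 : ℍ) := by
      have h0 : q = q.re • (1 : ℍ) + q.im := by ext <;> simp
      rw [hqim, add_zero] at h0
      exact h0
    conv_lhs => rw [h]
    rw [mul_smul_comm, mul_one]
  refine ⟨(2 * q.re) • (σ ∘ₗ F), ?_, ?_⟩
  · intro x
    rw [LinearMap.smul_apply, LinearMap.comp_apply]
    exact H.smul_mem _ (hσ _)
  · intro X
    rw [LinearMap.smul_apply, LinearMap.comp_apply, LinearMap.smul_apply]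
    have h5 : σ (F X) X = e (F X * E X) := by
      rw [hσd (F X) (hFre X) X, sub_self, map_zero, add_zero]
    rw [h5]
    conv_lhs => rw [hdec X]
    rw [hbb _ _ (hFre X), hqre, map_smul, smul_smul]

end GOS
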