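import Pool.Agent.GOS.StC

/-!
# Seven-dimensional g.o. spaces (MP_cdb478_gt): module TRI
-/

namespace GOS.TRIx

open scoped InnerProductSpace Quaternion

/-- The space of coordinates. -/
abbrev V := EuclideanSpace ℝ (Fin 3)

/-- Imaginary quaternion with given coordinates. -/
noncomputable def emb : V →ₗ[ℝ] ℍ where
  toFun v := ⟨0, v 0, v 1, v 2⟩
  map_add' _ _ := QuaternionAlgebra.ext (add_zero (0 : ℝ)).symm rfl rfl rfl
  map_smul' c _ := QuaternionAlgebra.ext (mul_zero c).symm rfl rfl rfl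

@[simp] lemma emb_re (v : V) : (emb v).re = 0 := rfl
@[simp] lemma emb_imI (v : V) : (emb v).imI = v 0 := rfl
@[simp] lemma emb_imJ (v : V) : (emb v).imJ = v 1 := rfl
@[simp] lemma emb_imK (v : V) : (emb v).imK = v 2 := rfl

/-- Coordinates of a quaternion. -/
noncomputable def crd : ℍ →ₗ[ℝ] V where
  toFun p := !₂[p.imI, p.imJ, p.imK]
  map_add' u v := by ext i; fin_cases i <;> simp
  map_smul' c v := by ext i; fin_cases i <;> simp

@[simp] lemma crd_0 (p : ℍ) : crd p 0 = p.imI := rfl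
@[simp] lemma crd_1 (p : ℍ) : crd p 1 = p.imJ := rfl
@[simp] lemma crd_2 (p : ℍ) : crd p 2 = p.imK := rfl

lemma emb_crd (p : ℍ) (hp : p.re = 0) : emb (crd p) = p := by
  ext <;> simp [hp]

lemma inn_emb (u v : V) : ⟪emb u, emb v⟫_ℝ = ⟪u, v⟫_ℝ := by
  rw [Quaternion.inner_def, PiLp.inner_apply]
  simp [Fin.sum_univ_three]
  ring

lemma inn_V (u v : V) : ⟪u, v⟫_ℝ = u 0 * v 0 + u 1 * v 1 + u 2 * v 2 := by
  rw [PiLp.inner_apply]
  simp [Fin.sum_univ_three]
  ring

/-- Twice the vector product. -/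
lemma bra (f : OrthonormalBasis (Fin 3) ℝ V) (i j k : Fin 3) (hij : i ≠ j) (hik : i ≠ k)
    (hjk : j ≠ k) :
    ∃ t : ℝ, t ≠ 0 ∧ emb (f i) * emb (f j) - emb (f j) * emb (f i) = t • emb (f k) := by
  set c : V := crd (emb (f i) * emb (f j) - emb (f j) * emb (f i)) with hc
  have hre : (emb (f i) * emb (f j) - emb (f j) * emb (f i)).re = 0 := by
    simp
    ring
  have hcc : emb c = emb (f i) * emb (f j) - emb (f j) * emb (f i) := emb_crd _ hre
  have hi : ⟪f i, c⟫_ℝ = 0 := by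
    rw [inn_V, hc]
    simp
    ring
  have hj : ⟪f j, c⟫_ℝ = 0 := by
    rw [inn_V, hc]
    simp
    ring
  have hsum : c = ⟪f k, c⟫_ℝ • f k := by
    have h := f.sum_repr' c
    have h2 : ∀ l, l ≠ k → ⟪f l, c⟫_ℝ • f l = 0 := by
      intro l hl
      have : l = i ∨ l = j := by omega
      rcases this with rfl | rfl
      · rw [hi, zero_smul]
      · rw [hj, zero_smul]
    rw [Finset.sum_eq_single k (fun l _ hl => h2 l hl) (by simp)] at h
    exact h.symm
  refine ⟨⟪f k, c⟫_ℝ, ?_, ?_⟩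
  · intro h0
    rw [h0, zero_smul] at hsum
    have h1 : ⟪f i, f i⟫_ℝ = 1 := by rw [real_inner_self_eq_norm_sq, f.norm_eq_one]; norm_num
    have h2 : ⟪f j, f j⟫_ℝ = 1 := by rw [real_inner_self_eq_norm_sq, f.norm_eq_one]; norm_num
    have h3 : ⟪f i, f j⟫_ℝ = 0 := f.inner_eq_zero hij
    rw [inn_V] at h1 h2 h3
    have c0 : c 0 = 0 := by rw [hsum]; rfl
    have c1 : c 1 = 0 := by rw [hsum]; rfl
    have c2 : c 2 = 0 := by rw [hsum]; rfl
    rw [hc] at c0 c1 c2
    simp at c0 c1 c2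
    nlinarith [h1, h2, h3, c0, c1, c2, sq_nonneg (c 0)]
  · rw [← hcc, ← map_smul, ← hsum]

end GOS.TRIx

namespace GOS

open scoped InnerProductSpace Quaternion
open TRIx

theorem thm_TRI (h1 : St_BSY) : St_TRI := by
  intro g _ _ _ k B c h W σ E τ ρ lam hQ
  obtain ⟨hsym, htr, hrel⟩ := h1 g k B c h W σ E τ ρ lam hQ
  have hre : ∀ p, (ρ (τ p)).re = 0 := fun p => hQ.ρre _ (hQ.τc p)
  set b : V →ₗ[ℝ] V := crd ∘ₗ ρ ∘ₗ τ ∘ₗ emb with hb
  have hbe : ∀ v, emb (b v) = ρ (τ (emb v)) := fun v => emb_crd _ (hre _)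
  have hbs : b.IsSymmetric := by
    intro u v
    rw [← inn_emb, ← inn_emb, hbe, hbe]
    exact hsym _ _ rfl rfl
  have hn : Module.finrank ℝ V = 3 := by simp [V]
  set f := hbs.eigenvectorBasis hn with hf
  set μ := hbs.eigenvalues hn with hμ
  have hfe : ∀ i, ρ (τ (emb (f i))) = μ i • emb (f i) := by
    intro i
    rw [← hbe, ← map_smul]
    congr 1
    exact hbs.apply_eigenvectorBasis hn i
  have hf0 : ∀ i, emb (f i) ≠ 0 := by
    intro i h0
    have : ⟪emb (f i), emb (f i)⟫_ℝ = 0 := by rw [h0, inner_zero_left]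
    rw [inn_emb, real_inner_self_eq_norm_sq, f.norm_eq_one] at this
    norm_num at this
  have hexp : ∀ p : ℍ, p.re = 0 → p = ∑ l, ⟪f l, crd p⟫_ℝ • emb (f l) := by
    intro p hp
    have := congrArg emb (f.sum_repr' (crd p))
    rw [map_sum, emb_crd p hp] at this
    simp only [map_smul] at this
    exact this.symm
  have key : ∀ i j k, i ≠ j → i ≠ k → j ≠ k → μ i ≠ μ j → τ (emb (f k)) = 0 := by
    intro i j k hij hik hjk hne
    obtain ⟨t, ht, htt⟩ := bra f i j k hij hik hjk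
    have h := hrel (emb (f i)) (emb (f j)) rfl rfl
    rw [hfe, hfe] at h
    have h2 : (μ j • emb (f j)) * emb (f i) - emb (f i) * (μ j • emb (f j)) +
        ((μ i • emb (f i)) * emb (f j) - emb (f j) * (μ i • emb (f i))) =
        ((μ i - μ j) * t) • emb (f k) := by
      rw [mul_smul, ← htt]
      simp only [smul_mul_assoc, mul_smul_comm, smul_sub, sub_smul]
      abel
    rw [h2, map_smul] at h
    rcases smul_eq_zero.mp h with h | h
    · rcases mul_eq_zero.mp h with h | h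
      · exact absurd (sub_eq_zero.mp h) hne
      · exact absurd h ht
    · exact h
  by_cases hall : ∀ i j, μ i = μ j
  · -- all eigenvalues equal
    have hb1 : ∀ p : ℍ, p.re = 0 → ρ (τ p) = μ 0 • p := by
      intro p hp
      have e1 : ρ (τ p) = ∑ l, ρ (τ (⟪f l, crd p⟫_ℝ • emb (f l))) := by
        rw [← map_sum, ← map_sum, ← hexp p hp]
      have e2 : μ 0 • p = ∑ l, μ 0 • (⟪f l, crd p⟫_ℝ • emb (f l)) := by
        rw [← Finset.smul_sum, ← hexp p hp]
      rw [e1, e2]
      refine Finset.sum_congr rfl fun l _ => ?_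
      rw [map_smul, map_smul, hfe, hall l 0, smul_comm]
    have h3 : μ 0 = -lam := by
      have a1 : (ρ (τ ⟨0, 1, 0, 0⟩)).imI = μ 0 * 1 := congrArg (·.imI) (hb1 ⟨0, 1, 0, 0⟩ rfl)
      have a2 : (ρ (τ ⟨0, 0, 1, 0⟩)).imJ = μ 0 * 1 := congrArg (·.imJ) (hb1 ⟨0, 0, 1, 0⟩ rfl)
      have a3 : (ρ (τ ⟨0, 0, 0, 1⟩)).imK = μ 0 * 1 := congrArg (·.imK) (hb1 ⟨0, 0, 0, 1⟩ rfl)
      linarith
    by_cases hl : lam = 0
    · right; right
      refine ⟨hl, fun p => ?_⟩
      have hp : p = (p.re) • (1 : ℍ) + p.im := by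
        ext <;> simp
      rw [hp, map_add, map_smul, hQ.τ1, smul_zero, zero_add, hb1 _ (by simp), h3, hl]
      simp
    · left
      exact ⟨hl, fun p hp => by rw [hb1 p hp, h3]⟩
  · push Not at hall
    obtain ⟨i, j, hij⟩ := hall
    have hne : i ≠ j := fun h => hij (by rw [h])
    obtain ⟨k, hik, hjk⟩ : ∃ k, i ≠ k ∧ j ≠ k :=
      (by decide : ∀ i j : Fin 3, ∃ k, i ≠ k ∧ j ≠ k) i j
    have hk : τ (emb (f k)) = 0 := key i j k hne hik hjk hij
    have hk0 : μ k = 0 := by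
      have := hfe k
      rw [hk, map_zero] at this
      rcases smul_eq_zero.mp this.symm with h | h
      · exact h
      · exact absurd h (hf0 k)
    have fin : ∀ i j : Fin 3, i ≠ j → i ≠ k → j ≠ k → μ i ≠ 0 →
        (∃ u : ℍ, u.re = 0 ∧ ‖u‖ = 1 ∧ τ u ≠ 0 ∧
          ∀ p : ℍ, p.re = 0 → ⟪p, u⟫_ℝ = 0 → τ p = 0) := by
      intro i j hij hik hjk hi0
      have hj : τ (emb (f j)) = 0 := key i k j hik hij hjk.symm (by rw [hk0]; exact hi0)
      refine ⟨emb (f i), rfl, ?_, ?_, ?_⟩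
      · have : ⟪emb (f i), emb (f i)⟫_ℝ = 1 := by
          rw [inn_emb, real_inner_self_eq_norm_sq, f.norm_eq_one]; norm_num
        rw [real_inner_self_eq_norm_sq] at this
        nlinarith [norm_nonneg (emb (f i))]
      · intro h0
        have := hfe i
        rw [h0, map_zero] at this
        rcases smul_eq_zero.mp this.symm with h | h
        · exact hi0 h
        · exact hf0 i h
      · intro p hp hpu
        have e1 : τ p = ∑ l, τ (⟪f l, crd p⟫_ℝ • emb (f l)) := by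
          rw [← map_sum, ← hexp p hp]
        rw [e1]
        refine Finset.sum_eq_zero fun l _ => ?_
        rw [map_smul]
        have : l = i ∨ l = j ∨ l = k := by omega
        rcases this with rfl | rfl | rfl
        · rw [← inn_emb, emb_crd p hp, real_inner_comm, hpu, zero_smul]
        · rw [hj, smul_zero]
        · rw [hk, smul_zero]
    right; left
    by_cases hi0 : μ i = 0
    · have hj0 : μ j ≠ 0 := fun h => hij (by rw [hi0, h])
      exact fin j i hne.symm hjk hik hj0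
    · exact fin i j hne hik hjk hi0

end GOS
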