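import Pool.Agent.GOS.StB

/-!
# GOS [TRN]: from the Lie algebra to the linear algebra
-/

set_option autoImplicit false

namespace GOS

open scoped InnerProductSpace Quaternion

/-- orthonormal bases for a positive form -/
private theorem TRN_basis {g : Type} [AddCommGroup g] [Module ℝ g] [FiniteDimensional ℝ g]
    (B : g →ₗ[ℝ] g →ₗ[ℝ] ℝ) (W : Submodule ℝ g) (hs : ∀ X Y, B X Y = B Y X)
    (hp : ∀ X ∈ W, X ≠ 0 → 0 < B X X) :
    ∃ w : Fin (Module.finrank ℝ W) → g, (∀ i, w i ∈ W) ∧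
      (∀ i j, B (w i) (w j) = if i = j then 1 else 0) ∧
      ∀ X ∈ W, X = ∑ i, B (w i) X • w i := by
  let c : InnerProductSpace.Core ℝ W :=
    { inner := fun x y => B (x : g) (y : g)
      conj_inner_symm := fun x y => by
        show B (y : g) (x : g) = B (x : g) (y : g)
        exact hs _ _
      re_inner_nonneg := fun x => by
        show 0 ≤ B (x : g) (x : g)
        by_cases h : (x : g) = 0
        · rw [h, map_zero]
        · exact (hp x x.2 h).le
      add_left := fun x y z => by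
        show B ((x : g) + (y : g)) (z : g) = B (x : g) (z : g) + B (y : g) (z : g)
        rw [map_add, LinearMap.add_apply]
      smul_left := fun x y r => by
        show B (r • (x : g)) (y : g) = r * B (x : g) (y : g)
        rw [map_smul, LinearMap.smul_apply, smul_eq_mul]
      definite := fun x h => by
        have h' : B (x : g) (x : g) = 0 := h
        by_contra h0
        exact (hp x x.2 fun h1 => h0 (Subtype.ext h1)).ne' h' }
  letI : NormedAddCommGroup W := c.toNormedAddCommGroup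
  letI : InnerProductSpace ℝ W := InnerProductSpace.ofCore c.toCore
  have hin : ∀ x y : W, ⟪x, y⟫_ℝ = B (x : g) (y : g) := fun x y => rfl
  let v := stdOrthonormalBasis ℝ W
  refine ⟨fun i => (v i : g), fun i => (v i).2, fun i j => ?_, fun X hX => ?_⟩
  · rw [← hin]
    exact (orthonormal_iff_ite.mp v.orthonormal) i j
  · have h1 := v.sum_repr' (⟨X, hX⟩ : W)
    have h2 : W.subtype (∑ i, ⟪v i, (⟨X, hX⟩ : W)⟫_ℝ • v i) = X := by
      rw [h1]
      rfl
    rw [map_sum] at h2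
    exact h2.symm

/-- coordinates -/
private noncomputable def TRN_iota {g : Type} [AddCommGroup g] [Module ℝ g] {n : ℕ}
    (w : Fin n → g) : EuclideanSpace ℝ (Fin n) →ₗ[ℝ] g where
  toFun x := ∑ i, x i • w i
  map_add' x y := by
    rw [← Finset.sum_add_distrib]
    refine Finset.sum_congr rfl fun i _ => ?_
    rw [PiLp.add_apply, add_smul]
  map_smul' r x := by
    rw [RingHom.id_apply, Finset.smul_sum]
    refine Finset.sum_congr rfl fun i _ => ?_
    rw [PiLp.smul_apply, smul_smul, smul_eq_mul]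

private noncomputable def TRN_pi {g : Type} [AddCommGroup g] [Module ℝ g]
    (B : g →ₗ[ℝ] g →ₗ[ℝ] ℝ) {n : ℕ} (w : Fin n → g) : g →ₗ[ℝ] EuclideanSpace ℝ (Fin n) where
  toFun X := WithLp.toLp 2 fun i => B (w i) X
  map_add' X Y := by
    ext i
    show B (w i) (X + Y) = B (w i) X + B (w i) Y
    rw [map_add]
  map_smul' r X := by
    ext i
    show B (w i) (r • X) = r • B (w i) X
    rw [map_smul]

/-- [TRN] -/
theorem thm_TRN : St_TRN := by
  intro g _ _ _ B h W hA hG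
  obtain ⟨w, hw, hww, hW⟩ := TRN_basis B W hA.symm hA.pos
  let V := EuclideanSpace ℝ (Fin (Module.finrank ℝ W))
  let ι : V →ₗ[ℝ] g := TRN_iota w
  let π : g →ₗ[ℝ] V := TRN_pi B w
  have hι : ∀ x, ι x = ∑ i, x i • w i := fun x => rfl
  have hιW : ∀ x, ι x ∈ W := by
    intro x
    rw [hι]
    exact W.sum_mem fun i _ => W.smul_mem _ (hw i)
  have hιπ : ∀ X ∈ W, ι (π X) = X := fun X hX => (hW X hX).symm
  have hwι : ∀ i x, B (w i) (ι x) = x i := by
    intro i x
    rw [hι, map_sum, Finset.sum_eq_single i]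
    · rw [map_smul, hww, if_pos rfl, smul_eq_mul, mul_one]
    · intro j _ hj
      rw [map_smul, hww, if_neg (Ne.symm hj), smul_zero]
    · intro hi
      exact absurd (Finset.mem_univ i) hi
  have hBι : ∀ x Z, B (ι x) Z = ∑ i, x i * B (w i) Z := by
    intro x Z
    rw [hι, map_sum, LinearMap.sum_apply]
    refine Finset.sum_congr rfl fun i _ => ?_
    rw [map_smul, LinearMap.smul_apply, smul_eq_mul]
  have hiso : ∀ x y, B (ι x) (ι y) = ⟪x, y⟫_ℝ := by
    intro x y
    rw [hBι, PiLp.inner_apply]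
    refine Finset.sum_congr rfl fun i _ => ?_
    rw [hwι]
    show x i * y i = y i * x i
    exact mul_comm _ _
  have hinj : ∀ x y, ι x = ι y → x = y := by
    intro x y hxy
    ext i
    rw [← hwι i x, ← hwι i y, hxy]
  have hnd : ∀ X ∈ W, (∀ Z ∈ W, B X Z = 0) → X = 0 := by
    intro X hX h0
    by_contra hne
    exact (hA.pos X hX hne).ne' (h0 X hX)
  -- the linear forms
  let F : g → g → g → ℝ := fun X Y Z => B ⁅Z, X⁆ Y + B ⁅Z, Y⁆ X
  have hF : ∀ X Y Z, F X Y Z = B ⁅Z, X⁆ Y + B ⁅Z, Y⁆ X := fun X Y Z => rfl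
  let b : V →ₗ[ℝ] V →ₗ[ℝ] V := LinearMap.mk₂ ℝ
    (fun x y => WithLp.toLp 2 fun i => 1 / 2 * F (ι x) (ι y) (w i))
    (fun x x' y => by
      ext i
      show 1 / 2 * F (ι (x + x')) (ι y) (w i) =
        1 / 2 * F (ι x) (ι y) (w i) + 1 / 2 * F (ι x') (ι y) (w i)
      rw [hF, hF, hF, map_add, lie_add, map_add B, LinearMap.add_apply, map_add (B ⁅w i, ι y⁆)]
      ring)
    (fun r x y => by
      ext i
      show 1 / 2 * F (ι (r • x)) (ι y) (w i) = r * (1 / 2 * F (ι x) (ι y) (w i))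
      rw [hF, hF, map_smul, lie_smul, map_smul B, LinearMap.smul_apply, map_smul (B ⁅w i, ι y⁆),
        smul_eq_mul, smul_eq_mul]
      ring)
    (fun x y y' => by
      ext i
      show 1 / 2 * F (ι x) (ι (y + y')) (w i) =
        1 / 2 * F (ι x) (ι y) (w i) + 1 / 2 * F (ι x) (ι y') (w i)
      rw [hF, hF, hF, map_add, lie_add, map_add B, LinearMap.add_apply, map_add (B ⁅w i, ι x⁆)]
      ring)
    (fun r x y => by
      ext i
      show 1 / 2 * F (ι x) (ι (r • y)) (w i) = r * (1 / 2 * F (ι x) (ι y) (w i))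
      rw [hF, hF, map_smul, lie_smul, map_smul B, LinearMap.smul_apply, map_smul (B ⁅w i, ι x⁆),
        smul_eq_mul, smul_eq_mul]
      ring)
  have hb : ∀ x y i, (b x y) i = 1 / 2 * F (ι x) (ι y) (w i) := fun x y i => rfl
  have hbd : ∀ x y, ∀ Z ∈ W, 2 * B (ι (b x y)) Z = B ⁅Z, ι x⁆ (ι y) + B ⁅Z, ι y⁆ (ι x) := by
    intro x y Z hZ
    have h1 : B ⁅Z, ι x⁆ (ι y) + B ⁅Z, ι y⁆ (ι x) =
        ∑ i, B (w i) Z * F (ι x) (ι y) (w i) := by
      have h2 : ∀ X Y, B ⁅Z, X⁆ Y = ∑ i, B (w i) Z * B ⁅w i, X⁆ Y := by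
        intro X Y
        conv_lhs => rw [hW Z hZ]
        rw [sum_lie, map_sum, LinearMap.sum_apply]
        refine Finset.sum_congr rfl fun i _ => ?_
        rw [smul_lie, map_smul, LinearMap.smul_apply, smul_eq_mul]
      rw [h2, h2, ← Finset.sum_add_distrib]
      refine Finset.sum_congr rfl fun i _ => ?_
      rw [hF, mul_add]
    rw [h1, hBι, Finset.mul_sum]
    refine Finset.sum_congr rfl fun i _ => ?_
    rw [hb]
    ring
  -- the operators
  let H : Submodule ℝ (V →ₗ[ℝ] V) :=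
    { carrier := {A | ∃ X ∈ h, ∀ x, ι (A x) = ⁅X, ι x⁆}
      add_mem' := by
        rintro A A' ⟨X, hX, h1⟩ ⟨X', hX', h2⟩
        refine ⟨X + X', h.add_mem hX hX', fun x => ?_⟩
        rw [LinearMap.add_apply, map_add, h1, h2, add_lie]
      zero_mem' := by
        refine ⟨0, h.zero_mem, fun x => ?_⟩
        rw [LinearMap.zero_apply, map_zero, zero_lie]
      smul_mem' := by
        rintro r A ⟨X, hX, h1⟩
        refine ⟨r • X, h.smul_mem r hX, fun x => ?_⟩
        rw [LinearMap.smul_apply, map_smul, h1, smul_lie] }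
  have hH : ∀ A, A ∈ H ↔ ∃ X ∈ h, ∀ x, ι (A x) = ⁅X, ι x⁆ := fun A => Iff.rfl
  have hlift : ∀ X ∈ h, ∃ A ∈ H, ∀ x, ι (A x) = ⁅X, ι x⁆ := by
    intro X hX
    have h1 : ∀ x, ι ((π ∘ₗ (LieAlgebra.ad ℝ g X) ∘ₗ ι) x) = ⁅X, ι x⁆ := fun x =>
      hιπ _ (hA.hW X hX _ (hιW x))
    exact ⟨π ∘ₗ (LieAlgebra.ad ℝ g X) ∘ₗ ι, ⟨X, hX, h1⟩, h1⟩
  refine ⟨ι, H, b, hiso, ?_, hbd, hH, hlift, ?_⟩
  · apply le_antisymm
    · rintro _ ⟨x, rfl⟩
      exact hιW x
    · intro X hX
      exact ⟨π X, hιπ X hX⟩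
  refine { skew := ?_, lie := ?_, symm := ?_, eqv := ?_, tan := ?_ }
  · rintro A ⟨X, hX, h1⟩ x y
    rw [← hiso, ← hiso, h1, h1]
    linear_combination hA.inv X hX (ι x) (ι y)
  · rintro A ⟨X, hX, h1⟩ A' ⟨X', hX', h2⟩
    refine ⟨⁅X, X'⁆, hA.hh X hX X' hX', fun x => ?_⟩
    show ι (A (A' x) - A' (A x)) = ⁅⁅X, X'⁆, ι x⁆
    rw [map_sub, h1, h2, h2, h1, lie_lie]
  · intro x y
    ext i
    rw [hb, hb, hF, hF, add_comm]
  · rintro A ⟨X, hX, h1⟩ x y
    have h2 : ι (A (b x y)) - ι (b (A x) y + b x (A y)) = 0 := by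
      apply hnd
      · exact W.sub_mem (hιW _) (hιW _)
      · intro Z hZ
        rw [map_sub, LinearMap.sub_apply, map_add, map_add, LinearMap.add_apply, h1]
        have e1 := hbd (A x) y Z hZ
        have e2 := hbd x (A y) Z hZ
        have e3 := hbd x y ⁅X, Z⁆ (hA.hW X hX Z hZ)
        have e4 := hA.inv X hX (ι (b x y)) Z
        rw [h1] at e1 e2
        have e5 := hA.inv X hX ⁅Z, ι y⁆ (ι x)
        have e6 := hA.inv X hX ⁅Z, ι x⁆ (ι y)
        rw [leibniz_lie, map_add, LinearMap.add_apply] at e5 e6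
        linarith
    exact hinj _ _ (sub_eq_zero.mp h2)
  · intro x
    obtain ⟨X, hX, h1⟩ := hG (ι x) (hιW x)
    obtain ⟨A, hAH, h2⟩ := hlift X hX
    refine ⟨A, hAH, ?_⟩
    have h3 : ι (b x x) - ι (A x) = 0 := by
      apply hnd
      · exact W.sub_mem (hιW _) (hιW _)
      · intro Z hZ
        rw [map_sub, LinearMap.sub_apply, h2]
        have e1 := hbd x x Z hZ
        have e2 := h1 Z hZ
        linarith
    exact hinj _ _ (sub_eq_zero.mp h3)

end GOS
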