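import Pool.Agent.GOS.StC

/-!
# GOS/VH0: if ρτ = 0 then τ(ℍ) meets h in zero (helper42, after the plan of helper15)
-/

set_option autoImplicit false

namespace GOS

open scoped InnerProductSpace Quaternion

private theorem VH0_re (a b : ℍ) : (a * b - b * a).re = 0 := by
  simp only [Quaternion.re_sub, Quaternion.re_mul]
  ring

theorem thm_VH0 : St_VH0 := by
  intro g _ _ _ k B c h W σ E τ ρ lam hD hρ p hp
  -- reduction to imaginary p
  have hpim : τ p = τ p.im := by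
    have h1 : p = (p.re : ℝ) • (1 : ℍ) + p.im := by
      ext <;> simp
    have h2 : τ p = τ ((p.re : ℝ) • (1 : ℍ) + p.im) := congrArg τ h1
    rw [h2, map_add, map_smul, hD.τ1, smul_zero, zero_add]
  have him : (p.im).re = 0 := Quaternion.re_im p
  have hhc : h ≤ c := by
    rw [hD.chW]
    exact le_sup_left
  have hWc : W ≤ c := by
    rw [hD.chW]
    exact le_sup_right
  have hhk : ∀ A ∈ h, A ∈ k := by
    intro A hA
    have h1 : A ∈ k.toSubmodule := by
      rw [hD.kdec]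
      exact (le_sup_right : h ≤ LinearMap.range σ ⊔ h) hA
    exact h1
  have hAk : τ p ∈ k := hhk _ hp
  have hAc : τ p ∈ c := hhc hp
  have hW : ∀ w ∈ W, ⁅τ p, w⁆ ∈ k := by
    intro w hw
    have h1 : ⁅w, τ p⁆ = τ (ρ w * p.im - p.im * ρ w) := by
      rw [hpim]
      exact hD.cτ w (hWc hw) p.im him
    have h2 : ⁅τ p, w⁆ = - τ (ρ w * p.im - p.im * ρ w) := by
      rw [← h1, lie_skew]
    have h3 : ⁅τ p, ⁅τ p, w⁆⁆ = 0 := by
      rw [h2, lie_neg, hD.cτ (τ p) hAc _ (VH0_re _ _), hρ, zero_mul, mul_zero, sub_zero, map_zero, neg_zero]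
    have h4 := hD.model.inv (τ p) hAk w ⁅τ p, w⁆
    rw [h3, map_zero, add_zero] at h4
    by_contra hno
    exact absurd h4 (hD.model.pos _ hno).ne'
  refine hD.effp (τ p) hAk ?_
  intro X
  obtain ⟨a, x, C, hC, rfl⟩ := hD.dec X
  rw [hD.chW, Submodule.mem_sup] at hC
  obtain ⟨A', hA', w, hw, rfl⟩ := hC
  rw [lie_add, lie_add, lie_add]
  have e1 : ⁅τ p, σ a⁆ = 0 := by
    rw [← lie_skew, hD.σc a (τ p) hAc, neg_zero]
  have e2 : ⁅τ p, E x⁆ = 0 := by
    rw [hD.cE (τ p) hAc, hρ, mul_zero, map_zero, neg_zero]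
  rw [e1, e2, add_zero, zero_add]
  exact k.add_mem (hhk _ (hD.hh _ hp _ hA')) (hW w hw)

end GOS
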