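import Pool.Agent.GOS.GEN
import Pool.Agent.GOS.ABL
import Pool.Agent.GOS.AB2
import Pool.Agent.GOS.SK3
import Pool.Agent.GOS.SK4
import Pool.Agent.GOS.LS3
import Pool.Agent.GOS.SO3
import Pool.Agent.GOS.FIX
import Pool.Agent.GOS.SO4
import Pool.Agent.GOS.IDL
import Pool.Agent.GOS.R3D
import Pool.Agent.GOS.EQ1
import Pool.Agent.GOS.EQ3
import Pool.Agent.GOS.LM3
import Pool.Agent.GOS.T3X
import Pool.Agent.GOS.T3
import Pool.Agent.GOS.T4X
import Pool.Agent.GOS.T4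
import Pool.Agent.GOS.T1
import Pool.Agent.GOS.T1C
import Pool.Agent.GOS.EFF
import Pool.Agent.GOS.KND
import Pool.Agent.GOS.CPL
import Pool.Agent.GOS.TRN
import Pool.Agent.GOS.AVL
import Pool.Agent.GOS.EXN
import Pool.Agent.GOS.KIR
import Pool.Agent.GOS.D5V
import Pool.Agent.GOS.SCM
import Pool.Agent.GOS.D6V
import Pool.Agent.GOS.D6A
import Pool.Agent.GOS.D6B
import Pool.Agent.GOS.D6C
import Pool.Agent.GOS.D6D
import Pool.Agent.GOS.CIR
import Pool.Agent.GOS.QLI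
import Pool.Agent.GOS.AS1
import Pool.Agent.GOS.QB1
import Pool.Agent.GOS.QB2
import Pool.Agent.GOS.QB3
import Pool.Agent.GOS.QM
import Pool.Agent.GOS.QNR
import Pool.Agent.GOS.QN3
import Pool.Agent.GOS.BSY
import Pool.Agent.GOS.TRI
import Pool.Agent.GOS.RNK
import Pool.Agent.GOS.DCS
import Pool.Agent.GOS.T00
import Pool.Agent.GOS.VH0
import Pool.Agent.GOS.NI0
import Pool.Agent.GOS.NI3
import Pool.Agent.GOS.NI2
import Pool.Agent.GOS.SP1
import Pool.Agent.GOS.SP2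
import Pool.Agent.GOS.DH3
import Pool.Agent.GOS.SP3
import Pool.Agent.GOS.ROT
import Pool.Agent.GOS.SP4
import Pool.Agent.GOS.SP5
import Pool.Agent.GOS.QFI
import Pool.Agent.GOS.FIN
import Pool.Agent.GOS.CV1
import Pool.Agent.GOS.CV2

/-!
# Seven-dimensional g.o. spaces: assembly
-/

namespace GOS

theorem classification : Classification := by
  have so3 := thm_SO3 thm_SK3 thm_LS3
  have so4 := thm_SO4 thm_SK4 thm_LS3 thm_FIX
  have ab2 := thm_AB2 thm_GEN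
  have r3d := thm_R3D thm_SK3
  have lm3 := thm_LM3 thm_GEN thm_EQ3
  have t3x := thm_T3X thm_GEN thm_EQ3
  have t4x := thm_T4X thm_GEN thm_EQ1 thm_EQ3
  have t3 := thm_T3 thm_GEN thm_ABL ab2 thm_SK3 so3 thm_IDL r3d lm3 t3x
  have t4 := thm_T4 thm_GEN thm_SK4 so4 thm_IDL r3d t4x
  have t1 := thm_T1 thm_ABL ab2 t3 t4
  have t1c := thm_T1C thm_GEN thm_ABL ab2 thm_SK3 so3 thm_EQ3
  have cpl := thm_CPL thm_KND
  have d5v := thm_D5V thm_GEN
  have scm := thm_SCM thm_GEN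
  have d6v := thm_D6V thm_GEN
  have d6a := thm_D6A scm
  have d6d := thm_D6D d6a thm_D6B thm_D6C thm_EXN
  have cir := thm_CIR thm_KIR d5v d6v d6d thm_EXN
  have as1 := thm_AS1 cpl thm_TRN thm_AVL thm_EXN t1 cir thm_QLI
  have qb1 := thm_QB1 thm_SK4
  have qb2 := thm_QB2 thm_EQ1
  have qnr := thm_QNR thm_EXN
  have qn3 := thm_QN3 thm_TRN t1c thm_AVL
  have tri := thm_TRI thm_BSY
  have dcs := thm_DCS thm_QM qn3 thm_EXN
  have t00 := thm_T00 qn3 thm_EXN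
  have ni3 := thm_NI3 thm_VH0 thm_NI0
  have ni2 := thm_NI2 thm_VH0 thm_NI0
  have sp1 := thm_SP1 thm_QM qn3 qnr
  have dh3 := thm_DH3 thm_SK3 thm_LS3
  have sp4 := thm_SP4 thm_ROT
  have sp5 := thm_SP5 thm_QM qn3 qnr
  have qfi := thm_QFI tri thm_RNK dcs t00 ni3 ni2 sp1 thm_SP2 dh3 thm_SP3 sp4 sp5
  exact thm_FIN thm_EFF thm_KND as1 qb1 qb2 thm_QB3 qfi

theorem converse : Converse := ⟨thm_CV1, thm_CV2⟩

end GOS
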