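import Pool.Agent.GOS.StB

/-!
# Module QLI: lifting the quaternionic data to the Lie algebra
-/

namespace GOS

open scoped InnerProductSpace Quaternion

namespace QLI

variable {g : Type} [LieRing g] [LieAlgebra ℝ g] {V : Type} [NormedAddCommGroup V]
  [InnerProductSpace ℝ V] {k : LieSubalgebra ℝ g} {B : g →ₗ[ℝ] g →ₗ[ℝ] ℝ}
  {m : Submodule ℝ g} {ι : V →ₗ[ℝ] g} {H : Submodule ℝ (V →ₗ[ℝ] V)} {b : V →ₗ[ℝ] V →ₗ[ℝ] V}

/-- an element of `k` which kills the image of `ι` is zero -/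
theorem uniq (he : EffP k) (hr : Red k m) (hf : Fr B k.toSubmodule m ι H b) {X : g}
    (hX : X ∈ k) (h0 : ∀ x, ⁅X, ι x⁆ = 0) : X = 0 := by
  refine he X hX fun Y => ?_
  have hY : Y ∈ k.toSubmodule ⊔ m := by
    rw [hr.isCompl.sup_eq_top]; exact Submodule.mem_top
  obtain ⟨c, hc, d, hd, rfl⟩ := Submodule.mem_sup.1 hY
  rw [← hf.rng] at hd
  obtain ⟨x, rfl⟩ := hd
  rw [lie_add, h0, add_zero]
  exact k.lie_mem hX hc

theorem uniq' (he : EffP k) (hr : Red k m) (hf : Fr B k.toSubmodule m ι H b) {X Y : g}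
    (hX : X ∈ k) (hY : Y ∈ k) (h0 : ∀ x, ⁅X, ι x⁆ = ⁅Y, ι x⁆) : X = Y := by
  refine sub_eq_zero.1 (uniq he hr hf (k.sub_mem hX hY) fun x => ?_)
  rw [sub_lie, h0, sub_self]

/-- the lift of a linear family of operators -/
theorem lift (he : EffP k) (hr : Red k m) (hf : Fr B k.toSubmodule m ι H b)
    (s : ℍ →ₗ[ℝ] V →ₗ[ℝ] V) (hs : ∀ a, s a ∈ H) :
    ∃ σ : ℍ →ₗ[ℝ] g, (∀ a, σ a ∈ k) ∧ ∀ a x, ⁅σ a, ι x⁆ = ι (s a x) := by
  have h1 : ∀ a, ∃ X : g, X ∈ k ∧ ∀ x, ι (s a x) = ⁅X, ι x⁆ := by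
    intro a
    obtain ⟨X, hX, h⟩ := (hf.mem (s a)).1 (hs a)
    exact ⟨X, hX, h⟩
  choose f hfk hfx using h1
  refine ⟨{ toFun := f, map_add' := ?_, map_smul' := ?_ }, hfk, fun a x => (hfx a x).symm⟩
  · intro a c
    refine uniq' he hr hf (hfk _) (k.add_mem (hfk a) (hfk c)) fun x => ?_
    rw [← hfx, add_lie, ← hfx, ← hfx, map_add, LinearMap.add_apply, map_add]
  · intro r a
    refine uniq' he hr hf (hfk _) (k.smul_mem r (hfk a)) fun x => ?_
    rw [← hfx, smul_lie]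
    change ι ((s (r • a)) x) = r • ⁅f a, ι x⁆
    rw [← hfx, map_smul, LinearMap.smul_apply, map_smul]

theorem inj (hf : Fr B k.toSubmodule m ι H b) : Function.Injective ι := by
  rw [← LinearMap.ker_eq_bot, LinearMap.ker_eq_bot']
  intro x hx
  have h := hf.iso x x
  rw [hx, map_zero] at h
  exact inner_self_eq_zero.1 h.symm

theorem inj4 {U : Submodule ℝ V} {e : ℍ →ₗ[ℝ] V} (h4 : Emb4 U e) : Function.Injective e := by
  rw [← LinearMap.ker_eq_bot, LinearMap.ker_eq_bot']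
  intro x hx
  have h := h4.iso x x
  rw [hx, inner_zero_left] at h
  exact inner_self_eq_zero.1 h.symm

end QLI

open QLI in
/-- Module QLI -/
theorem thm_QLI : St_QLI := by
  intro g _ _ _ V _ _ _ k B m ι H b hM he hr hf hV hQ
  obtain ⟨U, e, s, h4, hU, hsH, hsE, hsW, hs1, hsI⟩ := hQ
  obtain ⟨σ, hσk, hσ⟩ := QLI.lift he hr hf s hsH
  have hιI : Function.Injective ι := QLI.inj hf
  have heI : Function.Injective e := QLI.inj4 h4
  have hUo : ∀ A ∈ H, ∀ v ∈ Uᗮ, A v ∈ Uᗮ := by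
    intro A hA v hv
    rw [Submodule.mem_orthogonal]
    intro u hu
    have h1 := hf.sit.skew A hA u v
    have h2 : ⟪A u, v⟫_ℝ = 0 := (Submodule.mem_orthogonal U v).1 hv (A u) (hU A hA u hu)
    rw [h2] at h1
    linarith
  have heU : ∀ x, e x ∈ U := fun x => by rw [← h4.rng]; exact ⟨x, rfl⟩
  refine ⟨Uᗮ.map ι, σ, ι ∘ₗ e, ?_⟩
  refine
    { σk := hσk
      σ1 := ?_
      σE := ?_
      σW := ?_
      ideal := ?_
      EE := ?_
      EW := ?_
      dimW := ?_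
      compl := ?_
      kE := ?_
      kW := ?_ }
  · refine uniq he hr hf (hσk 1) fun x => ?_
    rw [hσ, hs1, LinearMap.zero_apply, map_zero]
  · intro a x
    rw [LinearMap.comp_apply, hσ, hsE, LinearMap.comp_apply]
  · rintro a w ⟨v, hv, rfl⟩
    rw [hσ, hsW a v hv, map_zero]
  · intro A hA a
    obtain ⟨A', hA', hAx⟩ := hf.lift A hA
    obtain ⟨a', ha'⟩ := hsI A' hA' a
    refine ⟨a', uniq' he hr hf (k.lie_mem hA (hσk a)) (hσk a') fun x => ?_⟩
    rw [hσ, ← ha', lie_lie, hσ, ← hAx, ← hAx, hσ, LinearMap.sub_apply, map_sub,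
      LinearMap.comp_apply, LinearMap.comp_apply]
  · intro x y
    rw [LinearMap.comp_apply, LinearMap.comp_apply, hf.iso, h4.iso]
  · rintro x w ⟨v, hv, rfl⟩
    rw [LinearMap.comp_apply, hf.iso]
    exact (Submodule.mem_orthogonal U v).1 hv (e x) (heU x)
  · have h1 : Module.finrank ℝ (Uᗮ.map ι) = Module.finrank ℝ Uᗮ :=
      (LinearEquiv.finrank_eq (Submodule.equivMapOfInjective ι hιI Uᗮ)).symm
    have h2 : Module.finrank ℝ U = 4 := by
      rw [← h4.rng, LinearMap.finrank_range_of_inj heI, Quaternion.finrank_eq_four]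
    have h3 := Submodule.finrank_add_finrank_orthogonal U
    omega
  · have h1 : LinearMap.range (ι ∘ₗ e) ⊔ Uᗮ.map ι = m := by
      rw [LinearMap.range_comp, h4.rng, ← Submodule.map_sup,
        Submodule.sup_orthogonal_of_hasOrthogonalProjection, Submodule.map_top, hf.rng]
    rw [h1]
    exact hr.isCompl
  · intro A hA x
    obtain ⟨A', hA', hAx⟩ := hf.lift A hA
    have h1 : A' (e x) ∈ U := hU A' hA' _ (heU x)
    rw [← h4.rng] at h1
    obtain ⟨y, hy⟩ := h1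
    refine ⟨y, ?_⟩
    rw [LinearMap.comp_apply, LinearMap.comp_apply, hy, hAx]
  · rintro A hA w ⟨v, hv, rfl⟩
    obtain ⟨A', hA', hAx⟩ := hf.lift A hA
    rw [← hAx]
    exact ⟨A' v, hUo A' hA' v hv, rfl⟩

end GOS
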