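import Pool.Agent.GOS.StC

/-!
# GOS/SP2: `h` acts faithfully on `W` (helper42, after the plan of helper15)
-/

set_option autoImplicit false
set_option linter.unusedSimpArgs false
set_option linter.unnecessarySeqFocus false

namespace GOS

open scoped InnerProductSpace Quaternion

private theorem SP2_span (S : Submodule ℝ ℍ) (q : ℍ) (hq0 : q.re = 0) (hq : q ≠ 0)
    (h1 : ∀ p : ℍ, p.re = 0 → q * p - p * q ∈ S)
    (h2 : ∀ v ∈ S, v.re = 0 → ∀ p : ℍ, p.re = 0 → v * p - p * v ∈ S) :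
    ∀ p : ℍ, p.re = 0 → p ∈ S := by
  obtain ⟨i, hi⟩ : ∃ i : ℍ, i = ⟨0, 1, 0, 0⟩ := ⟨_, rfl⟩
  obtain ⟨j, hj⟩ : ∃ j : ℍ, j = ⟨0, 0, 1, 0⟩ := ⟨_, rfl⟩
  obtain ⟨k, hk⟩ : ∃ k : ℍ, k = ⟨0, 0, 0, 1⟩ := ⟨_, rfl⟩
  have hi0 : i.re = 0 := by rw [hi]
  have hj0 : j.re = 0 := by rw [hj]
  have hk0 : k.re = 0 := by rw [hk]
  have key : ∀ e f : ℍ, e.re = 0 → f.re = 0 → (q * e - e * q) * f - f * (q * e - e * q) ∈ S := by
    intro e f he hf
    refine h2 _ (h1 e he) ?_ f hf
    simp only [Quaternion.re_sub, Quaternion.re_mul]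
    ring
  have ebi : (4 * q.imJ) • i ∈ S := by
    have e : (4 * q.imJ) • i = (q * i - i * q) * j - j * (q * i - i * q) := by
      ext <;> simp [hq0, hi, hj, hk] <;> ring
    rw [e]
    exact key i j hi0 hj0
  have eci : (4 * q.imK) • i ∈ S := by
    have e : (4 * q.imK) • i = (q * i - i * q) * k - k * (q * i - i * q) := by
      ext <;> simp [hq0, hi, hj, hk] <;> ring
    rw [e]
    exact key i k hi0 hk0
  have eak : (4 * q.imI) • k ∈ S := by
    have e : (4 * q.imI) • k = (q * k - k * q) * i - i * (q * k - k * q) := by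
      ext <;> simp [hq0, hi, hj, hk] <;> ring
    rw [e]
    exact key k i hk0 hi0
  have div : ∀ (t : ℝ) (v : ℍ), t ≠ 0 → (4 * t) • v ∈ S → v ∈ S := by
    intro t v ht hv
    have h4 : (4 * t) ≠ 0 := mul_ne_zero (by norm_num) ht
    have h := S.smul_mem (4 * t)⁻¹ hv
    rwa [smul_smul, inv_mul_cancel₀ h4, one_smul] at h
  have ij : i ∈ S → k ∈ S := by
    intro h
    have e : k = (1 / 2 : ℝ) • (i * j - j * i) := by
      ext <;> simp [hi, hj, hk]; norm_num
    rw [e]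
    exact S.smul_mem _ (h2 i h hi0 j hj0)
  have jk : j ∈ S → i ∈ S := by
    intro h
    have e : i = (1 / 2 : ℝ) • (j * k - k * j) := by
      ext <;> simp [hi, hj, hk]; norm_num
    rw [e]
    exact S.smul_mem _ (h2 j h hj0 k hk0)
  have ki : k ∈ S → j ∈ S := by
    intro h
    have e : j = (1 / 2 : ℝ) • (k * i - i * k) := by
      ext <;> simp [hi, hj, hk]; norm_num
    rw [e]
    exact S.smul_mem _ (h2 k h hk0 i hi0)
  have all : i ∈ S ∧ j ∈ S ∧ k ∈ S := by
    by_cases ha : q.imI = 0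
    · by_cases hb : q.imJ = 0
      · by_cases hc : q.imK = 0
        · exact absurd (by ext <;> simp [hq0, ha, hb, hc]) hq
        · have h := div _ _ hc eci
          exact ⟨h, ki (ij h), ij h⟩
      · have h := div _ _ hb ebi
        exact ⟨h, ki (ij h), ij h⟩
    · have h := div _ _ ha eak
      exact ⟨jk (ki h), ki h, h⟩
  intro p hp
  have e : p = p.imI • i + p.imJ • j + p.imK • k := by
    ext <;> simp [hi, hj, hk, hp]
  rw [e]
  exact S.add_mem (S.add_mem (S.smul_mem _ all.1) (S.smul_mem _ all.2.1)) (S.smul_mem _ all.2.2)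

theorem thm_SP2 : St_SP2 := by
  intro g _ _ _ k B c h W σ E τ ρ lam hD hlam hτ hnot A hA hAW
  have hhc : h ≤ c := by
    rw [hD.chW]
    exact le_sup_left
  have hWc : W ≤ c := by
    rw [hD.chW]
    exact le_sup_right
  have hhk : ∀ A ∈ h, A ∈ k := by
    intro A hA
    have h1 : A ∈ k.toSubmodule := by
      rw [hD.kdec]
      exact (le_sup_right : h ≤ LinearMap.range σ ⊔ h) hA
    exact h1
  -- the ideal I
  let I : Submodule ℝ g :=
    { carrier := {X | X ∈ h ∧ ∀ w ∈ W, ⁅X, w⁆ = 0}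
      add_mem' := by
        rintro X Y ⟨hX, hX'⟩ ⟨hY, hY'⟩
        refine ⟨h.add_mem hX hY, fun w hw => ?_⟩
        rw [add_lie, hX' w hw, hY' w hw, add_zero]
      zero_mem' := ⟨h.zero_mem, fun w _ => zero_lie w⟩
      smul_mem' := by
        rintro t X ⟨hX, hX'⟩
        refine ⟨h.smul_mem t hX, fun w hw => ?_⟩
        rw [smul_lie, hX' w hw, smul_zero] }
  have hI : ∀ X ∈ I, ∀ C ∈ c, ⁅X, C⁆ ∈ I := by
    rintro X ⟨hX, hX'⟩ C hC
    rw [hD.chW, Submodule.mem_sup] at hC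
    obtain ⟨A', hA', w, hw, rfl⟩ := hC
    rw [lie_add, hX' w hw, add_zero]
    refine ⟨hD.hh _ hX _ hA', fun w' hw' => ?_⟩
    rw [lie_lie, hX' w' hw', lie_zero, hX' _ (hD.hWW _ hA' _ hw'), sub_zero]
  have hAI : A ∈ I := ⟨hA, hAW⟩
  by_cases hq : ρ A = 0
  · -- A kills everything modulo k
    refine hD.effp A (hhk A hA) ?_
    intro X
    obtain ⟨a, x, C, hC, rfl⟩ := hD.dec X
    have hC' := (hI A hAI C hC).1
    rw [lie_add, lie_add]
    have e1 : ⁅A, σ a⁆ = 0 := by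
      rw [← lie_skew, hD.σc a A (hhc hA), neg_zero]
    have e2 : ⁅A, E x⁆ = 0 := by
      rw [hD.cE A (hhc hA), hq, mul_zero, map_zero, neg_zero]
    rw [e1, e2, add_zero, zero_add]
    exact hhk _ hC'
  · exfalso
    refine hnot ?_
    have hS : ∀ p : ℍ, p.re = 0 → p ∈ I.comap τ := by
      refine SP2_span (I.comap τ) (ρ A) (hD.ρre A (hhc hA)) hq ?_ ?_
      · intro p hp
        show τ (ρ A * p - p * ρ A) ∈ I
        rw [← hD.cτ A (hhc hA) p hp]
        exact hI A hAI _ (hD.τc p)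
      · intro v hv hv0 p hp
        have h1 : τ v ∈ I := hv
        have h2 := hI _ h1 _ (hD.τc p)
        rw [hD.cτ (τ v) (hD.τc v) p hp, hτ v hv0, smul_mul_assoc, mul_smul_comm, ← smul_sub, map_smul] at h2
        have h3 := I.smul_mem (-lam)⁻¹ h2
        rw [smul_smul, inv_mul_cancel₀ (neg_ne_zero.2 hlam), one_smul] at h3
        exact h3
    intro p
    have hpim : τ p = τ p.im := by
      have h1 : p = (p.re : ℝ) • (1 : ℍ) + p.im := by
        ext <;> simp
      have h2 : τ p = τ ((p.re : ℝ) • (1 : ℍ) + p.im) := congrArg τ h1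
      rw [h2, map_add, map_smul, hD.τ1, smul_zero, zero_add]
    rw [hpim]
    exact (hS p.im (Quaternion.re_im p)).1

end GOS
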