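import Mathlib

/-!
# Seven-dimensional g.o. spaces (MP_cdb478_gt): the linear algebra part (statements)

`V` is a finite-dimensional real inner product space, `H` a space of skew operators of `V`
closed under commutators, `b : V × V → V` a symmetric bilinear map which is `H`-equivariant and
tangent: `b(x,x) ∈ H x` for every `x`.  For `dim V = 7` we show (`St_T1`) that
* `b(x,x) = φ(x) x` with a linear map `φ : V → H`, or
* the pair is of quaternionic type (`Qt`), or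
* there is an irreducible invariant subspace of dimension at least `5`.

Module `XXX` must prove `theorem thm_XXX (h₁ : St_YYY) ... : St_XXX`, where the hypotheses are
those named in the docstring of `St_XXX`.

Quaternions: `a.im` is the imaginary part, `⟪x, y⟫_ℝ = (x * star y).re` (`Quaternion.inner_def`).
We write `[a,b] = ab - ba`; for imaginary quaternions `ab = -⟪a,b⟫ + a × b`, `[a,b] = 2 a × b`.
-/

namespace GOS

open scoped InnerProductSpace Quaternion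

section defs

variable {V : Type} [NormedAddCommGroup V] [InnerProductSpace ℝ V]

/-- `H` is a Lie algebra of skew operators of `V`. -/
structure SkewLie (H : Submodule ℝ (V →ₗ[ℝ] V)) : Prop where
  skew : ∀ A ∈ H, ∀ x y : V, ⟪A x, y⟫_ℝ = - ⟪x, A y⟫_ℝ
  lie : ∀ A ∈ H, ∀ A' ∈ H, A ∘ₗ A' - A' ∘ₗ A ∈ H

/-- The situation: `b` symmetric, `H`-equivariant and tangent. -/
structure Sit (H : Submodule ℝ (V →ₗ[ℝ] V)) (b : V →ₗ[ℝ] V →ₗ[ℝ] V) : Prop extends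
    SkewLie H where
  symm : ∀ x y, b x y = b y x
  eqv : ∀ A ∈ H, ∀ x y, A (b x y) = b (A x) y + b x (A y)
  tan : ∀ x, ∃ A ∈ H, b x x = A x

/-- `U` is invariant. -/
def Inv (H : Submodule ℝ (V →ₗ[ℝ] V)) (U : Submodule ℝ V) : Prop :=
  ∀ A ∈ H, ∀ x ∈ U, A x ∈ U

/-- `U` is irreducible. -/
def Irr (H : Submodule ℝ (V →ₗ[ℝ] V)) (U : Submodule ℝ V) : Prop :=
  U ≠ ⊥ ∧ Inv H U ∧ ∀ U' : Submodule ℝ V, U' ≤ U → Inv H U' → U' = ⊥ ∨ U' = U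

/-- `b(x,x) = φ(x) x` with `φ : V → H` linear. -/
def Lin (H : Submodule ℝ (V →ₗ[ℝ] V)) (b : V →ₗ[ℝ] V →ₗ[ℝ] V) : Prop :=
  ∃ φ : V →ₗ[ℝ] V →ₗ[ℝ] V, (∀ x, φ x ∈ H) ∧ ∀ x, b x x = φ x x

/-- `e` is an isometry from the imaginary quaternions onto `U` (extended by `e(1) = 0`). -/
structure Emb3 (U : Submodule ℝ V) (e : ℍ →ₗ[ℝ] V) : Prop where
  one : e 1 = 0
  iso : ∀ z w : ℍ, ⟪e z, e w⟫_ℝ = ⟪z.im, w.im⟫_ℝ
  rng : LinearMap.range e = U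

/-- `e` is an isometry from the quaternions onto `U`. -/
structure Emb4 (U : Submodule ℝ V) (e : ℍ →ₗ[ℝ] V) : Prop where
  iso : ∀ z w : ℍ, ⟪e z, e w⟫_ℝ = ⟪z, w⟫_ℝ
  rng : LinearMap.range e = U

/-- Quaternionic type: `V = ℍ ⊕ Uᗮ`, and `H` contains an ideal `{σ(a)}` which acts on `ℍ` by left
multiplication with imaginary quaternions and on `Uᗮ` by zero. -/
def Qt (H : Submodule ℝ (V →ₗ[ℝ] V)) : Prop :=
  ∃ (U : Submodule ℝ V) (e : ℍ →ₗ[ℝ] V) (σ : ℍ →ₗ[ℝ] V →ₗ[ℝ] V),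
    Emb4 U e ∧ Inv H U ∧ (∀ a, σ a ∈ H) ∧ (∀ a x, σ a (e x) = e (a.im * x)) ∧
    (∀ a, ∀ w ∈ Uᗮ, σ a w = 0) ∧ σ 1 = 0 ∧
    ∀ A ∈ H, ∀ a, ∃ a', A ∘ₗ σ a - σ a ∘ₗ A = σ a'

end defs

/-- **Module GEN** (no hypotheses).
(1) `⟪A w, u⟫ = -⟪w, A u⟫ = 0`.
(2) For `x ∈ U`: `b(x,x) = A x ∈ U`; polarise.
(3) `b(x,x) = A x` with `x = u + w`; `⟪A u, u⟫ = 0` and `A w ∈ Uᗮ`.
(4) Take a nonzero invariant subspace of `U` of minimal dimension.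
(5) `S` restricted to `U` is a symmetric operator of `U`, so it has an eigenvector in `U`; the
eigenspace `{x ∈ U | S x = c x}` is invariant and nonzero, so it is `U`. -/
def St_GEN : Prop :=
  ∀ (V : Type) [NormedAddCommGroup V] [InnerProductSpace ℝ V] [FiniteDimensional ℝ V]
    (H : Submodule ℝ (V →ₗ[ℝ] V)), SkewLie H →
    (∀ U : Submodule ℝ V, Inv H U → Inv H Uᗮ) ∧
    (∀ (b : V →ₗ[ℝ] V →ₗ[ℝ] V) (U : Submodule ℝ V), Sit H b → Inv H U →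
      ∀ x ∈ U, ∀ y ∈ U, b x y ∈ U) ∧
    (∀ (b : V →ₗ[ℝ] V →ₗ[ℝ] V) (U : Submodule ℝ V), Sit H b → Inv H U →
      ∀ u ∈ U, ∀ w ∈ Uᗮ, ⟪b (u + w) (u + w), u⟫_ℝ = 0) ∧
    (∀ U : Submodule ℝ V, Inv H U → U ≠ ⊥ → ∃ U' : Submodule ℝ V, U' ≤ U ∧ Irr H U') ∧
    (∀ (U : Submodule ℝ V) (S : V →ₗ[ℝ] V), Irr H U → (∀ x ∈ U, S x ∈ U) →
      (∀ x ∈ U, ∀ y ∈ U, ⟪S x, y⟫_ℝ = ⟪x, S y⟫_ℝ) →
      (∀ A ∈ H, ∀ x ∈ U, S (A x) = A (S x)) → ∃ c : ℝ, ∀ x ∈ U, S x = c • x)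

/-- **Module ABL** (no hypotheses): the torus case.
`(e i, e' i)` is an orthonormal family of pairs, `P i` the plane they span, and every `A ∈ H` acts
by `A x = ∑ λ_i(A) (⟪e i, x⟫ e' i - ⟪e' i, x⟫ e i)`, `λ_i(A) = ⟪A (e i), e' i⟫`.
Proof.  Put `J_i x = ⟪e i, x⟫ e' i - ⟪e' i, x⟫ e i`.
(a) For each `i` there is a linear `f_i : V → ℝ` with `P_i b(x,x) = f_i(x) J_i x`, that is
`⟪b(x,x), e i⟫ = -f_i(x) ⟪e' i, x⟫` and `⟪b(x,x), e' i⟫ = f_i(x) ⟪e i, x⟫`.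
Indeed write `α(x) = ⟪b(x,x), e i⟫`, `β(x) = ⟪b(x,x), e' i⟫` (quadratic forms),
`s = ⟪e i, x⟫`, `t = ⟪e' i, x⟫`.  By tangency `s α(x) + t β(x) = 0` for all `x`.  Let
`x = s e + t e' + u` with `u ⟂ e, e'` (`e = e i`, `e' = e' i`).  Expand
`α(x) = α(e)s² + 2α(e,e')st + α(e')t² + 2sα(e,u) + 2tα(e',u) + α(u)` and likewise `β`.  Comparing
coefficients in `sα + tβ = 0` (polynomials in `s, t`, and `u` replaced by `r u`):
`α(e,e) = 0`, `2α(e,e') + β(e,e) = 0`, `α(e',e') + 2β(e,e') = 0`, `β(e',e') = 0`,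
`α(e,u) = 0`, `α(e',u) + β(e,u) = 0`, `β(e',u) = 0`, `α(u,u) = 0`, `β(u,u) = 0`.
So `f_i(x) = s β(e,e) + t·2β(e,e') + 2β(e,u)` works: linear in `x`
(`f_i(x) = β(e,e)⟪e,x⟫ + 2β(e,e')⟪e',x⟫ + 2β(e, x - ⟪e,x⟫e - ⟪e',x⟫e')`).
(b) If all `J_i x ≠ 0` then `b(x,x) = A x` gives `f_i(x) = λ_i(A)` for all `i`; so
`(f_i(x))_i ∈ Λ := {(λ_i(A))_i | A ∈ H}`, a linear subspace of `ι → ℝ`.  The set of these `x` spans
`V` (the bad vectors lie in a finite union of proper subspaces; concretely with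
`x₀ = ∑ e i` every `y` has `y + r x₀` good for some large `r`, and `x₀` is good), hence
`(f_i(x))_i ∈ Λ` for every `x`.
(c) Also `b(x,x)` is the sum of its components in the `P_i` (as `b(x,x) = A x`).  Choose a linear
right inverse `s : Λ → H` of `A ↦ (λ_i(A))_i` and put `φ(x) = s((f_i(x))_i)`. -/
def St_ABL : Prop :=
  ∀ (V : Type) [NormedAddCommGroup V] [InnerProductSpace ℝ V] [FiniteDimensional ℝ V]
    (H : Submodule ℝ (V →ₗ[ℝ] V)) (b : V →ₗ[ℝ] V →ₗ[ℝ] V), (∀ x y, b x y = b y x) →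
    (∀ x, ∃ A ∈ H, b x x = A x) →
    ∀ (n : ℕ) (e e' : Fin n → V), Orthonormal ℝ (Sum.elim e e') →
    (∀ A ∈ H, ∀ x, A x = ∑ i, ⟪A (e i), e' i⟫_ℝ • (⟪e i, x⟫_ℝ • e' i - ⟪e' i, x⟫_ℝ • e i)) →
    Lin H b

/-- **Module AB2** (hypothesis `St_GEN`).
Induction on `finrank W`.  Let `W₀ = {x ∈ W | A x = 0 for all A ∈ H}`.  If `W₀ = W` take `n = 0`.
Otherwise `W ⊓ W₀ᗮ` is invariant and nonzero, so it contains an irreducible `U` (GEN 4), of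
dimension at most `2`; if `dim U = 1` then (skewness) `H U = 0`, so `U ≤ W₀`, contradiction; so
`dim U = 2`; take an orthonormal basis `(e, e')` of `U`; skewness gives `A e = ⟪A e, e'⟫ e'`,
`A e' = -⟪A e, e'⟫ e`.  Apply induction to `W ⊓ Uᗮ`. -/
def St_AB2 : Prop :=
  ∀ (V : Type) [NormedAddCommGroup V] [InnerProductSpace ℝ V] [FiniteDimensional ℝ V]
    (H : Submodule ℝ (V →ₗ[ℝ] V)), SkewLie H →
    ∀ W : Submodule ℝ V, Inv H W →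
    (∀ U : Submodule ℝ V, U ≤ W → Irr H U → Module.finrank ℝ U ≤ 2) →
    ∃ (n : ℕ) (e e' : Fin n → V), Orthonormal ℝ (Sum.elim e e') ∧
      (∀ i, e i ∈ W ∧ e' i ∈ W) ∧
      ∀ A ∈ H, ∀ x ∈ W,
        A x = ∑ i, ⟪A (e i), e' i⟫_ℝ • (⟪e i, x⟫_ℝ • e' i - ⟪e' i, x⟫_ℝ • e i)

/-- **Module SK3** (no hypotheses).  (1) An orthonormal basis of `U`.
(2) If `v₁,v₂,v₃ = e(i), e(j), e(k)` and `A v₂ = ∑ ...`, skewness gives three real numbers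
`⟪A e(i), e(j)⟫ = 2 c`, `⟪A e(j), e(k)⟫ = 2 a`, `⟪A e(k), e(i)⟫ = 2 b`; `p = a i + b j + c k` works
(`[k,i] = 2j`, `[i,j] = 2k`, `[j,k] = 2i`). -/
def St_SK3 : Prop :=
  ∀ (V : Type) [NormedAddCommGroup V] [InnerProductSpace ℝ V] [FiniteDimensional ℝ V]
    (U : Submodule ℝ V), Module.finrank ℝ U = 3 →
    (∃ e : ℍ →ₗ[ℝ] V, Emb3 U e) ∧
    ∀ (e : ℍ →ₗ[ℝ] V) (A : V →ₗ[ℝ] V), Emb3 U e → (∀ x ∈ U, A x ∈ U) →
      (∀ x ∈ U, ∀ y ∈ U, ⟪A x, y⟫_ℝ = - ⟪x, A y⟫_ℝ) →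
      ∃ p : ℍ, p.re = 0 ∧ ∀ z : ℍ, A (e z) = e (p * z.im - z.im * p)

/-- **Module SK4** (no hypotheses).  (1) An orthonormal basis of `U`.
(2) Skewness: with `v₀,v₁,v₂,v₃ = e(1), e(i), e(j), e(k)` and `m_{ab} = ⟪A v_b, v_a⟫`
(skew-symmetric in `a, b`), put
`p = ½((m₁₀ + m₃₂) i + (m₂₀ + m₁₃) j + (m₃₀ + m₂₁) k)` and
`q = ½((m₃₂ - m₁₀) i + (m₁₃ - m₂₀) j + (m₂₁ - m₃₀) k)`. (Check: `A v₀ = e(p - q)` etc.; the signs
must be verified by the prover, existence is clear because the maps `x ↦ px - xq` form a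
6-dimensional space of skew operators.) -/
def St_SK4 : Prop :=
  ∀ (V : Type) [NormedAddCommGroup V] [InnerProductSpace ℝ V] [FiniteDimensional ℝ V]
    (U : Submodule ℝ V), Module.finrank ℝ U = 4 →
    (∃ e : ℍ →ₗ[ℝ] V, Emb4 U e) ∧
    ∀ (e : ℍ →ₗ[ℝ] V) (A : V →ₗ[ℝ] V), Emb4 U e → (∀ x ∈ U, A x ∈ U) →
      (∀ x ∈ U, ∀ y ∈ U, ⟪A x, y⟫_ℝ = - ⟪x, A y⟫_ℝ) →
      ∃ p q : ℍ, p.re = 0 ∧ q.re = 0 ∧ ∀ z : ℍ, A (e z) = e (p * z - z * q)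

/-- **Module LS3** (no hypotheses).  A Lie subalgebra of the imaginary quaternions is everything
or lies in a line: if `u, v ∈ P` are linearly independent then `w = [u,v] ∈ P` is nonzero and
orthogonal to both, so `u, v, w` span the 3-dimensional space of imaginary quaternions. -/
def St_LS3 : Prop :=
  ∀ P : Submodule ℝ ℍ, (∀ p ∈ P, p.re = 0) → (∀ p ∈ P, ∀ q ∈ P, p * q - q * p ∈ P) →
    (∀ z : ℍ, z.re = 0 → z ∈ P) ∨
    ∃ p₀ : ℍ, p₀.re = 0 ∧ p₀ ≠ 0 ∧ ∀ p ∈ P, ∃ t : ℝ, p = t • p₀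

/-- **Module SO3** (hypotheses `St_SK3`, `St_LS3`).
`P = {p | p.re = 0 and some A ∈ H satisfies A(e z) = e([p, z]) for all z}` is a Lie subalgebra of
the imaginary quaternions (the commutator of the operators for `p, q` is the one for `[p,q]`); if
it is not everything it lies in `ℝ p₀`; then `e(p₀)` is killed by every `A ∈ H` (each `A ∈ H`
preserves `U` and is of the form `ad p` there by SK3), so the line `ℝ e(p₀)` is invariant,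
contradicting irreducibility and dimension `3`. -/
def St_SO3 : Prop :=
  ∀ (V : Type) [NormedAddCommGroup V] [InnerProductSpace ℝ V] [FiniteDimensional ℝ V]
    (H : Submodule ℝ (V →ₗ[ℝ] V)), SkewLie H → ∀ (U : Submodule ℝ V) (e : ℍ →ₗ[ℝ] V),
    Irr H U → Emb3 U e → ∀ p : ℍ, p.re = 0 →
    ∃ A ∈ H, ∀ z : ℍ, A (e z) = e (p * z.im - z.im * p)

/-- **Module FIX** (no hypotheses).  `θ` is a nonzero Lie endomorphism of the imaginary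
quaternions.
(a) `u = θ(i), v = θ(j), w = θ(k)` satisfy `[u,v] = 2w, [v,w] = 2u, [w,u] = 2v`, that is
`u × v = w` etc.  So they are mutually orthogonal, `|w| = |u||v|` etc.; as they are not all zero
none is zero and all are unit vectors.  In particular `uv = w, vu = -w`, `u² = -1` etc.
(b) Let `T(x) = i x u + j x v + k x w`.  Then `T(T(x)) = 3x - 2T(x)`: the three squares give
`e² x u² = x` each; `i(j x v)u + j(i x u)v = (ij) x (vu) + (ji) x (uv) = -2 k x w`, and so on.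
(c) `T` is not the identity: with `F(y) = ∑_{x ∈ {1,i,j,k}} star x * y * x`... use
`∑_{x ∈ {1,i,j,k}} star x * T x = ∑_e (∑_x star x * e * x) θ(e) = 0` because
`∑_x star x * e * x = 0` for `e` imaginary, whereas `∑_x star x * x = 4`.
(d) Take `x₁` with `T x₁ ≠ x₁` and `x₀ = T x₁ - x₁`; then `T x₀ = -3 x₀` and `x₀ ≠ 0`.
(e) Let `s_e x = e x - x θ(e)` (skew on `ℍ`).  `s_e² x = -2x - 2 e x θ(e)`, so
`∑_e s_e² x₀ = -6 x₀ - 2 T x₀ = 0`, hence `∑ |s_e x₀|² = -⟪∑ s_e² x₀, x₀⟫ = 0` and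
`e x₀ = x₀ θ(e)` for `e = i, j, k`. -/
def St_FIX : Prop :=
  ∀ θ : ℍ →ₗ[ℝ] ℍ, (∀ p, p.re = 0 → (θ p).re = 0) →
    (∀ p q : ℍ, p.re = 0 → q.re = 0 → θ (p * q - q * p) = θ p * θ q - θ q * θ p) →
    (∃ p : ℍ, p.re = 0 ∧ θ p ≠ 0) →
    ∃ x₀ : ℍ, x₀ ≠ 0 ∧ ∀ a : ℍ, a.re = 0 → a * x₀ = x₀ * θ a

/-- **Module SO4** (hypotheses `St_SK4`, `St_LS3`, `St_FIX`).
Take `e₁` with `Emb4 U e₁`.  Let `𝔥 = {(p,q) | p, q imaginary, some A ∈ H has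
A(e₁ z) = e₁(pz - zq)}`; it is closed under addition, scalars and
`[(p,q),(p',q')] = ([p,p'],[q,q'])`, and every `A ∈ H` is of this form on `U`.
`P = {p | (p,q) ∈ 𝔥}`, `Q = {q | (p,q) ∈ 𝔥}` are Lie subalgebras of `Im ℍ`.
(1) `P ⊆ ℝp₀` and `Q ⊆ ℝq₀` (nonzero `p₀, q₀`, normalise to unit length): the symmetric
involution `x ↦ p₀ x q₀` commutes with all `x ↦ px - xq`, `p ∈ ℝp₀, q ∈ ℝq₀`; its eigenspaces
`{x | p₀ x q₀ = ± x}` are invariant, both proper (if `p₀ x q₀ = ± x` for all `x`, `x = 1` gives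
`q₀ = ∓ p₀`... then `x p₀ = p₀ x` for all `x`, impossible); contradiction with irreducibility.
(2) `P ⊆ ℝp₀` and `Q = Im ℍ`: for `q = [q₁,q₂]` with `(p₁,q₁),(p₂,q₂) ∈ 𝔥`, the commutator is
`(0,[q₁,q₂])`; commutators span `Im ℍ`, so `(0,q) ∈ 𝔥` for all `q`.  Then `e = e₁ ∘ star` works:
for `a` imaginary take `A` with `A(e₁ z) = -e₁(z a)`; `A(e x) = -e₁(star x * a) = e₁(star (a x))`.
(3) `P = Im ℍ`, `Q ⊆ ℝq₀`: likewise `(p,0) ∈ 𝔥` for all `p`, and `e = e₁` works.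
(4) `P = Q = Im ℍ`.  `I = {p | (p,0) ∈ 𝔥}` is an ideal of `Im ℍ` (bracket with elements of `𝔥`), so
it is `0` or everything (an ideal containing `u ≠ 0` contains `[u,v], [[u,v],u]`, ...: everything);
if everything, `e = e₁`.  Likewise `{q | (0,q) ∈ 𝔥}`.  If both are `0`, `𝔥` is the graph of a
bijective Lie endomorphism `θ`, and by FIX there is `x₀ ≠ 0` with `a x₀ = x₀ θ(a)`, so every
element of `H` kills `e₁(x₀)`, contradicting irreducibility in dimension `4`. -/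
def St_SO4 : Prop :=
  ∀ (V : Type) [NormedAddCommGroup V] [InnerProductSpace ℝ V] [FiniteDimensional ℝ V]
    (H : Submodule ℝ (V →ₗ[ℝ] V)), SkewLie H → ∀ U : Submodule ℝ V,
    Irr H U → Module.finrank ℝ U = 4 →
    ∃ e : ℍ →ₗ[ℝ] V, Emb4 U e ∧ ∀ a : ℍ, a.re = 0 → ∃ A ∈ H, ∀ x : ℍ, A (e x) = e (a * x)

/-- **Module IDL** (no hypotheses): ideals complementary to a kernel.
Let `Q(A,B) = ∑ ⟪A v_i, B v_i⟫` for the standard orthonormal basis of `V`: a positive definite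
symmetric form on operators with `Q(A ∘ X - X ∘ A, N) = -Q(X, A ∘ N - N ∘ A)` for skew `A`
(it is `-trace` on skew operators).  Let `𝔫 = {A ∈ H | A ∘ e = 0}` and
`𝔭 = {A ∈ H | Q(A,N) = 0 for all N ∈ 𝔫}`.  `A ↦ A ∘ e` is injective on `𝔭` and has the same image
on `𝔭` as on `H` (`H = 𝔫 ⊕ 𝔭`).  `σ(a)` is the unique element of `𝔭` with `σ(a) ∘ e = L(a)`;
uniqueness gives linearity and the last property.
For `A ∈ H` and `N ∈ 𝔫`: `[A,N] ∘ e = A ∘ (N ∘ e) - N ∘ (A ∘ e) = 0` as `A ∘ e` has image in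
`range e` and `N` kills `range e`; so `[A,𝔫] ⊆ 𝔫`, and therefore `[A,𝔭] ⊆ 𝔭`.  Hence
`[A,σ(a)] ∈ 𝔭`, and if its composition with `e` is `L(a')` it equals `σ(a')`. -/
def St_IDL : Prop :=
  ∀ (V : Type) [NormedAddCommGroup V] [InnerProductSpace ℝ V] [FiniteDimensional ℝ V]
    (H : Submodule ℝ (V →ₗ[ℝ] V)), SkewLie H →
    ∀ (e : ℍ →ₗ[ℝ] V) (L : ℍ →ₗ[ℝ] ℍ →ₗ[ℝ] V), Inv H (LinearMap.range e) →
    (∀ a, ∃ A ∈ H, A ∘ₗ e = L a) →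
    ∃ σ : ℍ →ₗ[ℝ] V →ₗ[ℝ] V, (∀ a, σ a ∈ H) ∧ (∀ a, σ a ∘ₗ e = L a) ∧
      (∀ A ∈ H, ∀ a a', (A ∘ₗ σ a - σ a ∘ₗ A) ∘ₗ e = L a' → A ∘ₗ σ a - σ a ∘ₗ A = σ a') ∧
      (∀ a, L a = 0 → σ a = 0)

/-- **Module R3D** (hypothesis `St_SK3`): representations of `Im ℍ` on a 3-dimensional space.
Take `f₀` with `Emb3 W f₀`.  By SK3, `s(a)(f₀ z) = f₀([ψ(a), z])` with `ψ(a)` imaginary; `ψ(a)` is
unique (`[p,z] = 0` for all imaginary `z` forces `p = 0`), hence `ψ` is linear, `ψ(1) = 0`, and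
`ψ([a,b]) = [ψ(a),ψ(b)]`.  As in FIX (a), either `ψ = 0` (first alternative) or
`ψ(i), ψ(j), ψ(k)` are orthonormal with `ψ(i) × ψ(j) = ψ(k)` etc.  Then `f = f₀ ∘ ψ` is an isometry
of `Im ℍ` onto `W` and `s(a) f(z) = f₀([ψ a, ψ z]) = f₀(ψ[a,z]) = f([a,z])`. -/
def St_R3D : Prop :=
  ∀ (V : Type) [NormedAddCommGroup V] [InnerProductSpace ℝ V] [FiniteDimensional ℝ V]
    (W : Submodule ℝ V) (s : ℍ →ₗ[ℝ] V →ₗ[ℝ] V), Module.finrank ℝ W = 3 → s 1 = 0 →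
    (∀ a, ∀ w ∈ W, s a w ∈ W) →
    (∀ a, ∀ x ∈ W, ∀ y ∈ W, ⟪s a x, y⟫_ℝ = - ⟪x, s a y⟫_ℝ) →
    (∀ a c : ℍ, ∀ w ∈ W, s a (s c w) - s c (s a w) = s (a.im * c.im - c.im * a.im) w) →
    (∀ a, ∀ w ∈ W, s a w = 0) ∨
    ∃ f : ℍ →ₗ[ℝ] V, Emb3 W f ∧ ∀ a z, s a (f z) = f (a.im * z.im - z.im * a.im)

/-- **Module EQ1** (no hypotheses).  Equivariant maps.
(1) `β : ℍ × ℍ → ℍ`, `aβ(x,y) = β(ax,y) + β(x,ay)`: apply twice with `a² = -1`: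
`-β = -2β + 2β(ax,ay)`, so `β(ax,ay) = ½β(x,y)`; apply this twice: `β(x,y) = ¼β(x,y)`.
(2) `η : ℍ × Im ℍ → Im ℍ`, `[a,η(x,z)] = η(ax,z) + η(x,[a,z])`: take `z` a unit and `a = z`:
`[z,η(x,z)] = η(zx,z)`, twice: `[z,[z,η(x,z)]] = -η(x,z)`; the left side is `-4` times the part of
`η(x,z)` orthogonal to `z`; so `η(x,z) = 0`.
(3) `δ : ℍ × Im ℍ → ℍ`, `aδ(x,z) = δ(ax,z) + δ(x,[a,z])`.  Put `g(z) = δ(1,z)`.  `x = 1`:
`δ(a,z) = a g(z) - g([a,z])`.  For unit orthogonal `z ⟂ a`, the equation with `(a,x,z) := (z,a,z)`,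
`zδ(a,z) = δ(za,z)`, gives `g(a) = -z g(z × a)`.  Hence with `q = -i g(i)`:
`g(i) = iq`, `g(k) = -j g(i) = kq`, `g(j) = -i g(k) = jq`; so `g(z) = zq` and
`δ(a,z) = azq - [a,z]q = zaq`; also `δ(1,z) = zq`.
(The prover may evaluate everything on `1, i, j, k` and compare the four components.) -/
def St_EQ1 : Prop :=
  (∀ β : ℍ →ₗ[ℝ] ℍ →ₗ[ℝ] ℍ,
    (∀ a x y : ℍ, a.re = 0 → a * β x y = β (a * x) y + β x (a * y)) → ∀ x y, β x y = 0) ∧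
  (∀ η : ℍ →ₗ[ℝ] ℍ →ₗ[ℝ] ℍ, (∀ x z : ℍ, z.re = 0 → (η x z).re = 0) →
    (∀ a x z : ℍ, a.re = 0 → z.re = 0 →
      a * η x z - η x z * a = η (a * x) z + η x (a * z - z * a)) →
    ∀ x z : ℍ, z.re = 0 → η x z = 0) ∧
  (∀ δ : ℍ →ₗ[ℝ] ℍ →ₗ[ℝ] ℍ,
    (∀ a x z : ℍ, a.re = 0 → z.re = 0 → a * δ x z = δ (a * x) z + δ x (a * z - z * a)) →
    ∃ q : ℍ, ∀ x z : ℍ, z.re = 0 → δ x z = z * x * q)

/-- **Module EQ3** (no hypotheses).
(1) `β : Im ℍ × Im ℍ → Im ℍ` equivariant is `κ[x,y]`.  Symmetric part `γ`: `[z,γ(z,z)] = 0`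
(take `a = z`), so `γ(z,z) = c z` for unit `z`; with `a` a unit orthogonal to `z` and `u = a × z`,
`2cu = [a,γ(z,z)] = 2γ([a,z],z) = 4γ(u,z)`, so `γ(u,z) = (c/2)u`; exchanging roles `γ(z,u)` is a
multiple of `z`; so `c = 0`, `γ = 0`.  Antisymmetric part: `u = β(i,j)`, `a = k` gives
`[k,u] = 2β(j,j) - 2β(i,i) = 0`, `u = κk`; `a = i`: `β(i,k) = ½[i,u] = -κj`; `a = j`:
`β(j,k) = ½[j,u] = κi`.
(2) `η : Im ℍ → Im ℍ` commuting with all `ad a` is a scalar: `a = z` gives `η(z) ∥ z`; a linear map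
with every vector an eigenvector is a scalar.
(Again one may compare components on `i, j, k`.) -/
def St_EQ3 : Prop :=
  (∀ β : ℍ →ₗ[ℝ] ℍ →ₗ[ℝ] ℍ, (∀ x y : ℍ, x.re = 0 → y.re = 0 → (β x y).re = 0) →
    (∀ a x y : ℍ, a.re = 0 → x.re = 0 → y.re = 0 →
      a * β x y - β x y * a = β (a * x - x * a) y + β x (a * y - y * a)) →
    ∃ κ : ℝ, ∀ x y : ℍ, x.re = 0 → y.re = 0 → β x y = κ • (x * y - y * x)) ∧
  (∀ η : ℍ →ₗ[ℝ] ℍ, (∀ z : ℍ, z.re = 0 → (η z).re = 0) →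
    (∀ a z : ℍ, a.re = 0 → z.re = 0 → a * η z - η z * a = η (a * z - z * a)) →
    ∃ c : ℝ, ∀ z : ℍ, z.re = 0 → η z = c • z)

/-- **Module LM3** (hypotheses `St_GEN`, `St_EQ3`).
`u = e(z)`.  (1) For `u, u' ∈ U`: `b(u,u') ∈ U` (GEN 2), so `b(e z, e z') = e(γ(z,z'))` with `γ`
symmetric equivariant with imaginary values; by EQ3 (1) `γ = κ[·,·]`, and it is symmetric, so `0`.
(2) For `w ∈ Uᗮ`: `σ(a) b(e z, w) = b(e[a,z], w)` as `σ(a) w = 0`.  The `Uᗮ`-component of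
`σ(a)(...)` vanishes, so the `Uᗮ`-component of `b(e[a,z],w)` is `0`; the `[a,z]` span `Im ℍ`.
So `b(e z, w) = e(η(z))`, `[a,η(z)] = η([a,z])`, `η(z) = c z` by EQ3 (2).  GEN (3) with `u = e z`:
`0 = ⟪b(u,u) + 2b(u,w) + b(w,w), u⟫ = 2c|z|²` (`b(w,w) ∈ Uᗮ`).  So `c = 0`.
(Here `P_U`, the orthogonal projection, composed with `e⁻¹` is
`v ↦ ∑_{d ∈ {i,j,k}} ⟪v, e d⟫ d`.) -/
def St_LM3 : Prop :=
  ∀ (V : Type) [NormedAddCommGroup V] [InnerProductSpace ℝ V] [FiniteDimensional ℝ V]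
    (H : Submodule ℝ (V →ₗ[ℝ] V)) (b : V →ₗ[ℝ] V →ₗ[ℝ] V), Sit H b →
    ∀ (U : Submodule ℝ V) (e : ℍ →ₗ[ℝ] V) (σ : ℍ →ₗ[ℝ] V →ₗ[ℝ] V), Emb3 U e → Inv H U →
    (∀ a, σ a ∈ H) → (∀ a z, σ a (e z) = e (a.im * z.im - z.im * a.im)) →
    (∀ a, ∀ w ∈ Uᗮ, σ a w = 0) → ∀ u ∈ U, ∀ v, b u v = 0

/-- **Module T3X** (hypotheses `St_GEN`, `St_EQ3`).  `V = e(Im ℍ) ⊕ f(Im ℍ) ⊕ ℝ t`,
`t` a unit vector orthogonal to `U` and `U'`; `σ(a) t = 0` (the line `ℝ t = (U ⊔ U')ᗮ` is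
invariant and `σ(a)` is skew), and `A t = 0` for all `A ∈ H`.
`b(e x, e x') = 0`, `b(f y, f y') = 0` as in LM3 (1).  `b(t,t) = A t = 0`.
`b(e x, t) ∈ U ⊕ ℝt` (GEN 2 for the invariant subspace `U ⊔ ℝt`): the `t`-component `ℓ(x)`
satisfies `ℓ([a,x]) = 0`, so `ℓ = 0`; the `U`-component is `e(c x)` by EQ3 (2) and GEN (3) for
`u = e x, w = t` gives `c = 0`.  Same for `b(f y, t) = 0`.
`b(e x, f y) ∈ U ⊕ U'` (GEN 2 for `U ⊔ U'`), `= e(κ₁[x,y]) + f(κ₂[x,y])` by EQ3 (1) applied to the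
two components.  So for `X = e x + f y + τ t`:
`b(X,X) = 2κ₁ e([x,y]) + 2κ₂ f([x,y]) = σ(2κ₂ x - 2κ₁ y) X`
(`e([2κ₂x - 2κ₁y, x]) = e(2κ₁[x,y])`, `f([2κ₂x - 2κ₁y, y]) = f(2κ₂[x,y])`, `σ(a) t = 0`). -/
def St_T3X : Prop :=
  ∀ (V : Type) [NormedAddCommGroup V] [InnerProductSpace ℝ V] [FiniteDimensional ℝ V]
    (H : Submodule ℝ (V →ₗ[ℝ] V)) (b : V →ₗ[ℝ] V →ₗ[ℝ] V), Sit H b →
    Module.finrank ℝ V = 7 →
    ∀ (U U' : Submodule ℝ V) (e f : ℍ →ₗ[ℝ] V) (σ : ℍ →ₗ[ℝ] V →ₗ[ℝ] V), Emb3 U e → Inv H U →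
    Emb3 U' f → Inv H U' → U' ≤ Uᗮ →
    (∀ a, σ a ∈ H) → (∀ a z, σ a (e z) = e (a.im * z.im - z.im * a.im)) →
    (∀ a z, σ a (f z) = f (a.im * z.im - z.im * a.im)) → Lin H b

/-- **Module T3** (hypotheses `St_GEN`, `St_ABL`, `St_AB2`, `St_SK3`, `St_SO3`, `St_IDL`,
`St_R3D`, `St_LM3`, `St_T3X`).
`dim U = 3`, all irreducible subspaces have dimension at most `3`.  Take `e` with `Emb3 U e`;
by SO3 and IDL (with `L(a) z = e([a.im, z.im])`) there is `σ` with values in `H`,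
`σ(a)(e z) = e([a,z])`, `σ(1) = 0`, and `[σ a, σ c] = σ([a,c])` on `V` (third property of IDL).
`W = Uᗮ` has dimension `4`.
(A) Suppose `W` contains an irreducible `U'` of dimension `3`.  R3D for `σ` on `U'`.
 (A1) If `σ(a) f(z) = f([a,z])`: T3X.
 (A2) If `σ` kills `U'`: it also kills the line `W ⊓ U'ᗮ` (skew, dimension 1), so `σ` kills `W`.
 Let `σ'` be the same construction for `U'` (with `e'`).  R3D for `σ'` on `U`: if
 `σ'(a) f'(z) = f'([a,z])` with `Emb3 U f'`, then T3X with the roles of `U, U'` exchanged.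
 If `σ'` kills `U`, it also kills the line, so it kills `U'ᗮ`.  By LM3 for `σ`: `b(u,v) = 0` for
 `u ∈ U`; by LM3 for `σ'`: `b(u',v) = 0` for `u' ∈ U'`; and `b(t,t) = A t = 0` for `t` in the line.
 So `b = 0` and `φ = 0` works.
(B) Otherwise all irreducible subspaces of `W` have dimension at most `2`.  AB2 gives an orthonormal
family `e i, e' i` in `W`; by its formula any two elements of `H` commute on `W`, so
`σ([a,c]) = [σ a, σ c]` is `0` on `W`, and `σ` kills `W`.  By LM3 `b(u,v) = 0` for `u ∈ U`.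
Let `𝔫 = {A ∈ H | A = 0 on U}`.  For `A ∈ H` there is `a` with `A = σ(a)` on `U` (SK3), so
`A - σ(a) ∈ 𝔫` agrees with `A` on `W`.  For `x = u + w`: `b(x,x) = b(w,w) = A w = (A - σ(a)) x`
with `A - σ(a) ∈ 𝔫`; the formula of AB2 holds for `A ∈ 𝔫` and all `x ∈ V` (both sides vanish on
`U`).  ABL for `(V, 𝔫, b)` gives `φ` with values in `𝔫 ⊆ H`. -/
def St_T3 : Prop :=
  ∀ (V : Type) [NormedAddCommGroup V] [InnerProductSpace ℝ V] [FiniteDimensional ℝ V]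
    (H : Submodule ℝ (V →ₗ[ℝ] V)) (b : V →ₗ[ℝ] V →ₗ[ℝ] V), Sit H b →
    Module.finrank ℝ V = 7 → ∀ U : Submodule ℝ V, Irr H U → Module.finrank ℝ U = 3 →
    (∀ U' : Submodule ℝ V, Irr H U' → Module.finrank ℝ U' ≤ 3) → Lin H b

/-- **Module T4X** (hypotheses `St_GEN`, `St_EQ1`, `St_EQ3`).  `V = e(ℍ) ⊕ f(Im ℍ)`.
`b(e x, e y) ∈ U` (GEN 2) is `e(β(x,y))` with `β` as in EQ1 (1): `0`.
`b(f z, f z') ∈ Uᗮ` is `f(γ(z,z'))`, symmetric: `0` by EQ3 (1).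
`b(e x, f z) = e(δ(x,z)) + f(η(x,z))`; EQ1 (2) gives `η = 0`, EQ1 (3) gives `δ(x,z) = z x q`.
So `b(X,X) = 2 e(z x q)` for `X = e x + f z`.  GEN (3) with `u = e x`, `w = f z`:
`0 = ⟪z x q, x⟫ = (z x q star x).re` for all `x`, imaginary `z`; with `x = 1`: the imaginary part
of `q` is `0`.  So `q` is real and `b(X,X) = 2q e(z x) = σ(2q z) X`
(`σ(a) f(z) = f([a,z]) = 0` for `a = 2qz`).  `φ(X) = 2q σ(z)`, `z = f⁻¹(P X)` linear in `X`. -/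
def St_T4X : Prop :=
  ∀ (V : Type) [NormedAddCommGroup V] [InnerProductSpace ℝ V] [FiniteDimensional ℝ V]
    (H : Submodule ℝ (V →ₗ[ℝ] V)) (b : V →ₗ[ℝ] V →ₗ[ℝ] V), Sit H b →
    ∀ (U : Submodule ℝ V) (e f : ℍ →ₗ[ℝ] V) (σ : ℍ →ₗ[ℝ] V →ₗ[ℝ] V), Emb4 U e → Inv H U →
    Emb3 Uᗮ f → (∀ a, σ a ∈ H) → (∀ a x, σ a (e x) = e (a.im * x)) →
    (∀ a z, σ a (f z) = f (a.im * z.im - z.im * a.im)) → Lin H b

/-- **Module T4** (hypotheses `St_GEN`, `St_SK4`, `St_SO4`, `St_IDL`, `St_R3D`, `St_T4X`).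
SO4 gives `e`; IDL with `L(a) x = e(a.im x)` gives `σ`.  For `A ∈ H`, SK4 gives
`A(e x) = e(px - xq)`, and `[A,σ(a)](e x) = e([p,a]x)`, so `[A,σ(a)] = σ([p,a])` by the third
property of IDL; in particular `[σ a, σ c] = σ([a,c])`.  `Uᗮ` has dimension `3` and is invariant
(GEN 1).  R3D for `σ` on `Uᗮ`: if `σ` kills `Uᗮ` we have `Qt H`; otherwise T4X. -/
def St_T4 : Prop :=
  ∀ (V : Type) [NormedAddCommGroup V] [InnerProductSpace ℝ V] [FiniteDimensional ℝ V]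
    (H : Submodule ℝ (V →ₗ[ℝ] V)) (b : V →ₗ[ℝ] V →ₗ[ℝ] V), Sit H b →
    Module.finrank ℝ V = 7 → ∀ U : Submodule ℝ V, Irr H U → Module.finrank ℝ U = 4 →
    Lin H b ∨ Qt H

/-- **Module T1** (hypotheses `St_ABL`, `St_AB2`, `St_T3`, `St_T4`).
If no irreducible subspace has dimension at least `5`: if one has dimension `4` use T4; otherwise
if one has dimension `3` use T3; otherwise AB2 with `W = ⊤` and ABL. -/
def St_T1 : Prop :=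
  ∀ (V : Type) [NormedAddCommGroup V] [InnerProductSpace ℝ V] [FiniteDimensional ℝ V]
    (H : Submodule ℝ (V →ₗ[ℝ] V)) (b : V →ₗ[ℝ] V →ₗ[ℝ] V), Sit H b →
    Module.finrank ℝ V = 7 →
    Lin H b ∨ Qt H ∨ ∃ U : Submodule ℝ V, Irr H U ∧ 5 ≤ Module.finrank ℝ U

/-- **Module T1C** (hypotheses `St_GEN`, `St_ABL`, `St_AB2`, `St_SK3`, `St_SO3`, `St_EQ3`):
the same problem in dimension `3` has only the linear alternative.  If there is an irreducible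
subspace of dimension `3` it is `V`, `H` contains all skew operators (SO3), `b = 0` by EQ3 (1)
(symmetric), `φ = 0`.  Otherwise irreducible subspaces have dimension at most `2`
(dimension at most `3` in any case): AB2 with `W = ⊤` and ABL. -/
def St_T1C : Prop :=
  ∀ (V : Type) [NormedAddCommGroup V] [InnerProductSpace ℝ V] [FiniteDimensional ℝ V]
    (H : Submodule ℝ (V →ₗ[ℝ] V)) (b : V →ₗ[ℝ] V →ₗ[ℝ] V), Sit H b →
    Module.finrank ℝ V = 3 → Lin H b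

end GOS
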