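import Pool.Agent.GOS.Text
import Pool.Agent.GOS.StA

/-!
# Seven-dimensional g.o. spaces (MP_cdb478_gt): the Lie algebra part (statements)

Conventions as in `StA.lean`: module `XXX` proves `thm_XXX (h₁ : St_YYY) ... : St_XXX` with the
hypotheses named in the docstring.  `K = killingForm ℝ g`; it is invariant:
`K([X,Y],Z) = K(X,[Y,Z])` (`LieModule.traceForm_apply_lie_apply`), hence
`K([A,X],Y) = -K(X,[A,Y])`.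
-/

namespace GOS

open scoped InnerProductSpace Quaternion

section defs

variable {g : Type} [LieRing g] [LieAlgebra ℝ g]

/-- Pointwise effectivity. -/
def EffP (k : LieSubalgebra ℝ g) : Prop := ∀ A ∈ k, (∀ X, ⁅A, X⁆ ∈ k) → A = 0

/-- `m` is the Killing-orthogonal complement of `k`, and `K` is negative definite on `k`. -/
structure Red (k : LieSubalgebra ℝ g) (m : Submodule ℝ g) : Prop where
  neg : ∀ A ∈ k, A ≠ 0 → killingForm ℝ g A A < 0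
  isCompl : IsCompl k.toSubmodule m
  inv : ∀ A ∈ k, ∀ X ∈ m, ⁅A, X⁆ ∈ m
  orth : ∀ A ∈ k, ∀ X ∈ m, killingForm ℝ g A X = 0

/-- `h` acts on `W` by operators which are skew for `B`. -/
structure Act (B : g →ₗ[ℝ] g →ₗ[ℝ] ℝ) (h W : Submodule ℝ g) : Prop where
  symm : ∀ X Y, B X Y = B Y X
  pos : ∀ X ∈ W, X ≠ 0 → 0 < B X X
  hh : ∀ A ∈ h, ∀ A' ∈ h, ⁅A, A'⁆ ∈ h
  hW : ∀ A ∈ h, ∀ X ∈ W, ⁅A, X⁆ ∈ W
  inv : ∀ A ∈ h, ∀ X Y, B ⁅A, X⁆ Y + B X ⁅A, Y⁆ = 0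

/-- The g.o. condition on `W` with respect to `h`. -/
def GOW (B : g →ₗ[ℝ] g →ₗ[ℝ] ℝ) (h W : Submodule ℝ g) : Prop :=
  ∀ X ∈ W, ∃ A ∈ h, ∀ Y ∈ W, B ⁅Y, X⁆ X = B ⁅A, X⁆ Y

/-- The g.o. condition on `W` holds with `A = φ(X)` linear and equivariant. -/
def LinE (B : g →ₗ[ℝ] g →ₗ[ℝ] ℝ) (h W : Submodule ℝ g) : Prop :=
  ∃ φ : g →ₗ[ℝ] g, (∀ X ∈ W, φ X ∈ h) ∧ (∀ A ∈ h, ∀ X ∈ W, φ ⁅A, X⁆ = ⁅A, φ X⁆) ∧
    ∀ X ∈ W, ∀ Y ∈ W, B ⁅Y, X⁆ X = B ⁅φ X, X⁆ Y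

/-- A frame: `ι` is an isometry of `V` onto `(W, B)`, `H` is the image of `h` in the skew
operators of `V`, and `B(b(x,y),Z) = ½(B([Z,x],y) + B([Z,y],x))` for `Z ∈ W`. -/
structure Fr (B : g →ₗ[ℝ] g →ₗ[ℝ] ℝ) (h W : Submodule ℝ g) {V : Type} [NormedAddCommGroup V]
    [InnerProductSpace ℝ V] (ι : V →ₗ[ℝ] g) (H : Submodule ℝ (V →ₗ[ℝ] V))
    (b : V →ₗ[ℝ] V →ₗ[ℝ] V) : Prop where
  iso : ∀ x y, B (ι x) (ι y) = ⟪x, y⟫_ℝ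
  rng : LinearMap.range ι = W
  bdef : ∀ x y, ∀ Z ∈ W, 2 * B (ι (b x y)) Z = B ⁅Z, ι x⁆ (ι y) + B ⁅Z, ι y⁆ (ι x)
  mem : ∀ A, A ∈ H ↔ ∃ X ∈ h, ∀ x, ι (A x) = ⁅X, ι x⁆
  lift : ∀ X ∈ h, ∃ A ∈ H, ∀ x, ι (A x) = ⁅X, ι x⁆
  sit : Sit H b

/-- `U` is an irreducible `ad k`-invariant subspace. -/
def IrrK (k : LieSubalgebra ℝ g) (U : Submodule ℝ g) : Prop :=
  U ≠ ⊥ ∧ (∀ A ∈ k, ∀ x ∈ U, ⁅A, x⁆ ∈ U) ∧
    ∀ U' : Submodule ℝ g, U' ≤ U → (∀ A ∈ k, ∀ x ∈ U', ⁅A, x⁆ ∈ U') → U' = ⊥ ∨ U' = U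

/-- Data of quaternionic type, first form: `m = E(ℍ) ⊕ W`, and `σ(Im ℍ)` is an ideal of `k` acting
on `E(ℍ)` by left multiplications and trivially on `W`. -/
structure QA (k : LieSubalgebra ℝ g) (B : g →ₗ[ℝ] g →ₗ[ℝ] ℝ) (W : Submodule ℝ g)
    (σ E : ℍ →ₗ[ℝ] g) : Prop where
  σk : ∀ a, σ a ∈ k
  σ1 : σ 1 = 0
  σE : ∀ a x, ⁅σ a, E x⁆ = E (a.im * x)
  σW : ∀ a, ∀ w ∈ W, ⁅σ a, w⁆ = 0
  ideal : ∀ A ∈ k, ∀ a, ∃ a', ⁅A, σ a⁆ = σ a'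
  EE : ∀ x y, B (E x) (E y) = ⟪x, y⟫_ℝ
  EW : ∀ x, ∀ w ∈ W, B (E x) w = 0
  dimW : Module.finrank ℝ W = 3
  compl : IsCompl k.toSubmodule (LinearMap.range E ⊔ W)
  kE : ∀ A ∈ k, ∀ x, ∃ y, ⁅A, E x⁆ = E y
  kW : ∀ A ∈ k, ∀ w ∈ W, ⁅A, w⁆ ∈ W

end defs

/-- **Module EFF** (no hypotheses).  Let `m` be the invariant complement of `IsModel.compl` and
`I = {A ∈ k | [A,X] ∈ k for all X}`.  For `A ∈ I` and `X ∈ m`: `[A,X] ∈ k ∩ m = 0`.  So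
`I = {A ∈ k | [A,m] = 0}`, and this is an ideal of `g`: for `X ∈ m`, `[X,A] = 0 ∈ I`; for `C ∈ k`,
`[C,A] ∈ k` and `[[C,A],X] = [C,[A,X]] - [A,[C,X]] = 0`.  By `Eff`, `I = 0`. -/
def St_EFF : Prop :=
  ∀ (g : Type) [LieRing g] [LieAlgebra ℝ g] (k : LieSubalgebra ℝ g)
    (B : g →ₗ[ℝ] g →ₗ[ℝ] ℝ), IsModel k B → Eff k → EffP k

/-- **Module KND** (no hypotheses).  Let `m` be the invariant complement and `A ∈ k`.  `ad A`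
preserves `k` and `m`, so `K(A,A) = tr((ad A)²|k) + tr((ad A)²|m)`.
On `m` (with inner product `B`) `ad A` is skew, so `tr((ad A)²|m) = -∑ |[A,eᵢ]|² ≤ 0`
(`B`-orthonormal basis of `m`), with equality iff `[A,m] = 0`, iff `A = 0` (then `[A,g] ⊆ k`).
So `Q(A,A') = -tr(ad A ad A'|m)` is an inner product on `k`; it is invariant,
`Q([C,A],A') + Q(A,[C,A']) = 0` (trace of commutators), so `ad A|k` is skew for `Q` and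
`tr((ad A)²|k) ≤ 0` in the same way.
(An alternative for the trace of the square of a skew operator `T` on a real vector space with an
inner product given by a form: take an orthonormal basis for the form, or realise the form as an
`InnerProductSpace.Core`.) -/
def St_KND : Prop :=
  ∀ (g : Type) [LieRing g] [LieAlgebra ℝ g] [FiniteDimensional ℝ g] (k : LieSubalgebra ℝ g)
    (B : g →ₗ[ℝ] g →ₗ[ℝ] ℝ), IsModel k B → EffP k →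
    ∀ A ∈ k, A ≠ 0 → killingForm ℝ g A A < 0

/-- **Module CPL** (hypothesis `St_KND`).  `m = {X | K(A,X) = 0 for all A ∈ k}`.  As `K` is negative
definite on `k`, `k ∩ m = 0` and `k + m = g` (nondegenerate restriction:
`LinearMap.BilinForm.isCompl_orthogonal_of_restrict_nondegenerate` or a dimension count).
`K(A',[A,X]) = K([A',A],X) = 0` gives invariance. -/
def St_CPL : Prop :=
  ∀ (g : Type) [LieRing g] [LieAlgebra ℝ g] [FiniteDimensional ℝ g] (k : LieSubalgebra ℝ g)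
    (B : g →ₗ[ℝ] g →ₗ[ℝ] ℝ), IsModel k B → EffP k → ∃ m : Submodule ℝ g, Red k m

/-- **Module TRN** (no hypotheses).  `B` restricted to `W` is an inner product; take a
`B`-orthonormal basis `w_i` of `W` and `ι(x) = ∑ x_i w_i`.  `H = {A | ∃ X ∈ h, ι ∘ A = ad X ∘ ι}`
(a submodule).  Since `ad X` preserves `W = ι(V)`, every `X ∈ h` has such an `A` (`lift`);
skewness from `Act.inv`; commutators from Jacobi and `Act.hh`.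
`b(x,y) = ∑_i ½(B([w_i, ιx], ιy) + B([w_i, ιy], ιx)) δ_i`, so `bdef` holds for `Z = w_i`, hence for
`Z ∈ W`.  Symmetry is clear.  Tangency: `B(ι b(x,x), Y) = B([Y,ιx],ιx) = B([A,ιx],Y)` for all
`Y ∈ W`, `A ∈ h` from `GOW`, so `ι b(x,x) = [A, ιx]`.
Equivariance: for `A ∈ h` (operator `A_V`), `Z ∈ W`, `X = ιx`, `Y = ιy`:
`2B(ι A_V b(x,y), Z) = 2B([A,ι b(x,y)],Z) = -2B(ι b(x,y),[A,Z]) =
-B([[A,Z],X],Y) - B([[A,Z],Y],X)`, and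
`2B(ι(b(A_V x,y) + b(x,A_V y)),Z) = B([Z,[A,X]],Y) + B([Z,Y],[A,X]) + B([Z,X],[A,Y]) +
B([Z,[A,Y]],X)`.  They agree because `B([Z,X],[A,Y]) = -B([A,[Z,X]],Y)` and
`[A,[Z,X]] = [[A,Z],X] + [Z,[A,X]]` (and the same with `X, Y` exchanged). -/
def St_TRN : Prop :=
  ∀ (g : Type) [LieRing g] [LieAlgebra ℝ g] [FiniteDimensional ℝ g]
    (B : g →ₗ[ℝ] g →ₗ[ℝ] ℝ) (h W : Submodule ℝ g), Act B h W → GOW B h W →
    ∃ (ι : EuclideanSpace ℝ (Fin (Module.finrank ℝ W)) →ₗ[ℝ] g)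
      (H : Submodule ℝ (EuclideanSpace ℝ (Fin (Module.finrank ℝ W)) →ₗ[ℝ]
        EuclideanSpace ℝ (Fin (Module.finrank ℝ W))))
      (b : EuclideanSpace ℝ (Fin (Module.finrank ℝ W)) →ₗ[ℝ]
        EuclideanSpace ℝ (Fin (Module.finrank ℝ W)) →ₗ[ℝ]
        EuclideanSpace ℝ (Fin (Module.finrank ℝ W))), Fr B h W ι H b

/-- **Module AVL** (no hypotheses): from a linear `φ` to an equivariant one.
Step 1.  Every `A ∈ H` has a lift `X ∈ h` (`Fr.mem`); choosing lifts on a basis of `H` (or a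
linear right inverse), `φ₀ : g → g` linear with `φ₀(ι x) ∈ h` a lift of `φ(x)`; then for
`X = ιx ∈ W`, `Y ∈ W`: `B([Y,X],X) = B(ι b(x,x),Y) = B(ι(φ(x)x),Y) = B([φ₀X,X],Y)`.
Step 2.  Let `𝒰 = Hom(W,h)`, with the inner product `⟨φ,ψ⟩ = -∑ K(φ w_i, ψ w_i)`, `w_i` a
`B`-orthonormal basis of `W` (`K` is negative definite on `h`).  `h` acts on `𝒰` by
`(A·φ)(X) = [A,φX] - φ[A,X]`, and this action is skew (invariance of `K`, skewness of `ad A` on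
`W`).  Let `𝒰₀ = {φ | B([φX,X],Y) = 0 for all X, Y ∈ W}`, a linear subspace.
If `φ ∈ 𝒰₀` then `A·φ ∈ 𝒰₀`: from `[φX,X] = 0` for all `X ∈ W` (it is in `W` and `B` is positive
there) apply `ad A` to get `[[A,φX],X] + [φX,[A,X]] = 0`, and the polarised identity
`[φX,[A,X]] + [φ[A,X],X] = 0`; subtract: `[(A·φ)X,X] = 0`.
Also `A·φ₀ ∈ 𝒰₀`: let `q(X) ∈ W` be defined by `B(q(X),Y) = B([Y,X],X)` for `Y ∈ W`; it is the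
quadratic map `ι b(x,x)`, equivariant (`Sit.eqv`), and `[φ₀X,X] = q(X)`; apply `ad A`:
`[[A,φ₀X],X] + [φ₀X,[A,X]] = dq_X([A,X]) = [φ₀X,[A,X]] + [φ₀[A,X],X]`; so `[(A·φ₀)X,X] = 0`.
Write `φ₀ = φ₁ + u` with `u ∈ 𝒰₀`, `φ₁ ⟂ 𝒰₀`.  `A·φ₁ ⟂ 𝒰₀` (skewness, invariance of `𝒰₀`) and
`A·φ₁ = A·φ₀ - A·u ∈ 𝒰₀`, so `A·φ₁ = 0`.  Extend `φ₁` to `g`. -/
def St_AVL : Prop :=
  ∀ (g : Type) [LieRing g] [LieAlgebra ℝ g] [FiniteDimensional ℝ g]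
    (B : g →ₗ[ℝ] g →ₗ[ℝ] ℝ) (h W : Submodule ℝ g), Act B h W →
    (∀ A ∈ h, A ≠ 0 → killingForm ℝ g A A < 0) →
    ∀ (V : Type) [NormedAddCommGroup V] [InnerProductSpace ℝ V] [FiniteDimensional ℝ V]
      (ι : V →ₗ[ℝ] g) (H : Submodule ℝ (V →ₗ[ℝ] V)) (b : V →ₗ[ℝ] V →ₗ[ℝ] V),
    Fr B h W ι H b → Lin H b → LinE B h W

/-- **Module EXN** (no hypotheses): the criterion for natural reductivity, after adding a skew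
derivation `D` to the group.  `g₁ = g × ℝ` with `[(X,s),(Y,t)] = ([X,Y] + s DY - t DX, 0)`
(a semidirect product; Mathlib has `LieAlgebra.SemiDirectSum`, or use a type synonym),
`k₁ = k × ℝ`, `B₁((X,s),(Y,t)) = B(X,Y)`, `f(X) = (X,0)`.
`IsModel`: complement `m × 0`; invariance under `(0,1)` is the skewness of `D`.
`IsNR`: `m₁ = {(X - φX, -c(X)) | X ∈ m}`.  Complement of `k₁`: clear.  Invariance:
`[(A,0),(X - φX,-cX)] = ([A,X] - [A,φX] + c(X) D A, 0) = ([A,X] - φ[A,X], 0)` and `c([A,X]) = 0`;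
`[(0,1),(X - φX,-cX)] = (DX - DφX, 0) = (DX, 0)` and `φ(DX) = 0`, `c(DX) = 0`.
For `X, Y ∈ m`: `B₁([(X-φX,-cX),(Y-φY,-cY)],(X-φX,-cX)) =
B([X,Y] - [φX,Y] - [X,φY] + [φX,φY] - cX D(Y - φY) + cY D(X - φX), X - φX)`
`= B([X,Y],X) - B([φX,Y],X) + B([φY,X],X) - cX B(DY,X) + cY B(DX,X)`
`= B([X,Y],X) + B([φX,X],Y) + cX B(DX,Y) = 0` (`B` kills `k`, `B([φY,X],X) = 0 = B(DX,X)`). -/
def St_EXN : Prop :=
  ∀ (g : Type) [LieRing g] [LieAlgebra ℝ g] [FiniteDimensional ℝ g] (k : LieSubalgebra ℝ g)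
    (B : g →ₗ[ℝ] g →ₗ[ℝ] ℝ) (m : Submodule ℝ g), IsModel k B → IsCompl k.toSubmodule m →
    (∀ A ∈ k, ∀ X ∈ m, ⁅A, X⁆ ∈ m) →
    ∀ (φ D : g →ₗ[ℝ] g) (c : g →ₗ[ℝ] ℝ),
    (∀ X Y, D ⁅X, Y⁆ = ⁅D X, Y⁆ + ⁅X, D Y⁆) → (∀ A ∈ k, D A = 0) → (∀ X ∈ m, D X ∈ m) →
    (∀ X Y, B (D X) Y + B X (D Y) = 0) → (∀ X ∈ m, φ X ∈ k) →
    (∀ A ∈ k, ∀ X ∈ m, φ ⁅A, X⁆ = ⁅A, φ X⁆) → (∀ X ∈ m, φ (D X) = 0) →
    (∀ A ∈ k, ∀ X ∈ m, c ⁅A, X⁆ = 0) → (∀ X ∈ m, c (D X) = 0) →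
    (∀ X ∈ m, ∀ Y ∈ m, B ⁅Y, X⁆ X = B ⁅φ X, X⁆ Y + c X * B (D X) Y) → NatRed k B

/-- **Module KIR** (no hypotheses).  `m` has dimension `7`, `U ≤ m` irreducible of dimension `≥ 5`.
Let `U' = {y ∈ m | B(u,y) = 0 for all u ∈ U}`, an invariant complement of `U` in `m`, of
dimension `≤ 2`.
(1) `K(U,U') = 0`: let `T : U → U'` be defined by `B(Tx,y) = K(x,y)`, `y ∈ U'`; it commutes with
`ad k`; its kernel is invariant and nonzero (dimensions), so it is `U`.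
(2) `K(x,y) = κ B(x,y)` on `U`: the `B`-symmetric operator `S` of `U` with `B(Sx,y) = K(x,y)`
commutes with `ad k`, an eigenspace is invariant.
(3) So `K(x,Z) = κ B(x,Z)` for `x ∈ U` and every `Z ∈ g` (`Z = A + u + u'`, `Red.orth`,
`IsModel.ker`).  For `x, y ∈ U`: `κ B([y,x],x) = K([y,x],x) = K(y,[x,x]) = 0`.
If `κ ≠ 0` we are done.
(4) `κ = 0`: `U ≤ R`, the radical of the Killing form, an ideal which is solvable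
(`LieAlgebra.killingCompl_top_le_radical`).  `K(R,k) = 0`, and `K` is negative definite on `k`, so
`R ≤ m` (write `X = A + M`; `0 = K(A,X) = K(A,A)`).  Let `R₀ = R`, `R_{i+1} = [R_i,R_i]`
(ideals of `g`, contained in `m`, eventually `0`).  Suppose `U ≤ R_i`.  Then `[U,U] ⊆ R_{i+1}`.
If `R_{i+1}` has `B`-orthogonal projection to `U` equal to zero, i.e. `R_{i+1} ≤ U'`, then
`B([y,x],x) = 0`, done.  Otherwise its projection is `U` (invariant, nonzero), so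
`dim R_{i+1} ≥ 5`, and `dim(R_{i+1} ∩ U) ≥ 5 + 5 - 7 > 0`, so `U ≤ R_{i+1}`.  By induction either
we are done or `U ≤ R_i` for all `i`, which contradicts `R_i = 0` for large `i`. -/
def St_KIR : Prop :=
  ∀ (g : Type) [LieRing g] [LieAlgebra ℝ g] [FiniteDimensional ℝ g] (k : LieSubalgebra ℝ g)
    (B : g →ₗ[ℝ] g →ₗ[ℝ] ℝ) (m : Submodule ℝ g), IsModel k B → Red k m →
    Module.finrank ℝ m = 7 → ∀ U : Submodule ℝ g, U ≤ m → IrrK k U →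
    5 ≤ Module.finrank ℝ U →
    (∀ x ∈ U, ∀ y ∈ U, B ⁅y, x⁆ x = 0) ∧
    (∀ x ∈ U, ∀ y ∈ m, (∀ u ∈ U, B u y = 0) → killingForm ℝ g x y = 0)

/-- **Module D5V** (hypothesis `St_GEN`).  `V = U ⊕ W`, `dim U = 5`, `dim W = 2`.
Every `A ∈ H` acts on `W` as `λ(A) j`, `j` a rotation by a right angle.
(1) `b(x,w)_W = 0`: for fixed `w' ∈ W`... the map `U → Hom(W,W)`, `x ↦ (w ↦ b(x,w)_W)` is
equivariant (action on `Hom(W,W)`: `T ↦ AT - TA`), its kernel is an invariant subspace of `U`,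
nonzero as `dim Hom(W,W) = 4 < 5`, so it is `U`.
(2) `b(x,w)_U = β_w x`, `β_w` skew: GEN (3) for `x + w`: `0 = ⟪b(x,x) + 2b(x,w) + b(w,w), x⟫ =
2⟪β_w x, x⟫` (`b(w,w) ∈ W` by GEN 2).  Equivariance: `A β_w - β_w A = β_{Aw}`.
Let `H' = {A ∈ H | λ(A) = 0}`.  An operator of `U` which is skew and commutes with the action of an
irreducible family is `0` in odd dimension: its square is symmetric, so a scalar `-c²` (Schur,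
GEN 5), and if `c ≠ 0` the determinant gives `(-c²)^5 = det(T)² > 0`, impossible.
(2a) If `λ = 0` on `H`: `β_w` commutes with `H`, so `β_w = 0`.
(2b) Otherwise `H = ℝZ ⊕ H'` with `Z` orthogonal to `H'` for `Q(A,A') = -tr(AA')`
(`Q(A,A) > 0` for `A ≠ 0`); `[H,H] ⊆ H'` (`λ` is additive and kills commutators), so
`Q([Z,A],A') = Q(Z,[A,A']) = 0` for `A, A' ∈ H'`, hence `[Z,A] = 0`: `Z` commutes with `H`, so
`Z|U = 0` by the odd-dimensional remark.  Therefore the invariant subspaces of `U` for `H'` and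
for `H` are the same, `β_w` commutes with `H'` on `U`, so `β_w = 0` (same remark for `H'`).
(3) `b(w,w) ∈ W` and `b(w,w) = A w = λ(A) j w`.  If `λ = 0`, it is `0`.  If `Z` with
`Z = λ j` on `W`, `λ ≠ 0`: equivariance under `j`: `j b(w,w) = 2b(jw,w)`; apply again:
`-b(w,w) = 2b(-w,w) + 2b(jw,jw)`, i.e. `b(w,w) = 2b(jw,jw)`; twice: `b(w,w) = 4b(w,w)`; so `0`. -/
def St_D5V : Prop :=
  ∀ (V : Type) [NormedAddCommGroup V] [InnerProductSpace ℝ V] [FiniteDimensional ℝ V]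
    (H : Submodule ℝ (V →ₗ[ℝ] V)) (b : V →ₗ[ℝ] V →ₗ[ℝ] V), Sit H b →
    Module.finrank ℝ V = 7 → ∀ U : Submodule ℝ V, Irr H U → Module.finrank ℝ U = 5 →
    (∀ x ∈ U, b x x = 0) → ∀ x, b x x = 0

/-- **Module SCM** (hypothesis `St_GEN`): skew operators commuting with `H` on an irreducible space
of dimension `6` with a complex structure `J` are multiples of `J`.
`CJ + JC` is symmetric on `U` and commutes with `H`, so it is a scalar `r` (GEN 5).  Put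
`C' = C + (r/2) J`: then `C'J + JC' = 0`, `C'` is skew and commutes with `H`, so `C'² = -d²`
(GEN 5).  If `d ≠ 0`, `I = C'/d` satisfies `I² = -1`, `IJ = -JI`: for a unit vector `x ∈ U` the
vectors `x, Jx, Ix, IJx` are orthonormal and span an `I,J`-invariant subspace; its orthogonal
complement in `U` has dimension `2`, is `I,J`-invariant and contains, by the same argument, four
orthonormal vectors: contradiction.  So `C' = 0`, `C = -(r/2) J` on `U`. -/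
def St_SCM : Prop :=
  ∀ (V : Type) [NormedAddCommGroup V] [InnerProductSpace ℝ V] [FiniteDimensional ℝ V]
    (H : Submodule ℝ (V →ₗ[ℝ] V)), SkewLie H → ∀ (U : Submodule ℝ V) (J : V →ₗ[ℝ] V),
    Irr H U → Module.finrank ℝ U = 6 → (∀ x ∈ U, J x ∈ U ∧ J (J x) = -x) →
    (∀ x ∈ U, ∀ y ∈ U, ⟪J x, y⟫_ℝ = - ⟪x, J y⟫_ℝ) → (∀ A ∈ H, ∀ x ∈ U, J (A x) = A (J x)) →
    ∀ C : V →ₗ[ℝ] V, (∀ x ∈ U, C x ∈ U) → (∀ x ∈ U, ∀ y ∈ U, ⟪C x, y⟫_ℝ = - ⟪x, C y⟫_ℝ) →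
    (∀ A ∈ H, ∀ x ∈ U, C (A x) = A (C x)) → ∃ s : ℝ, ∀ x ∈ U, C x = s • J x

/-- **Module D6V** (hypothesis `St_GEN`).  `V = U ⊕ ℝt`, `t` a unit vector, `A t = 0` for `A ∈ H`
(skew on a line).  `b(t,t) = A t = 0`.  For `x ∈ U`: `⟪b(x,t),t⟫` is a linear form `ℓ` on `U` with
`ℓ(A x) = 0`; its kernel is invariant and not `0`, so `ℓ = 0`.  So `b(x,t) = ½ C x ∈ U`,
`C` commutes with `H` (equivariance, `A t = 0`) and is skew by GEN (3) for `x + t`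
(`0 = ⟪b(x,x) + 2b(x,t) + b(t,t), x⟫ = ⟪C x, x⟫`).  `C²` is symmetric, so a scalar `-c²` with
`c ≥ 0` (GEN 5).  If `c = 0` then `C = 0` and `b(x + τt, x + τt) = 0`.  Otherwise `J = C/c` on `U`,
`J t = 0`. -/
def St_D6V : Prop :=
  ∀ (V : Type) [NormedAddCommGroup V] [InnerProductSpace ℝ V] [FiniteDimensional ℝ V]
    (H : Submodule ℝ (V →ₗ[ℝ] V)) (b : V →ₗ[ℝ] V →ₗ[ℝ] V), Sit H b →
    Module.finrank ℝ V = 7 → ∀ U : Submodule ℝ V, Irr H U → Module.finrank ℝ U = 6 →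
    (∀ x ∈ U, b x x = 0) → (∀ x, b x x = 0) ∨
    ∃ (J : V →ₗ[ℝ] V) (t : V) (c : ℝ), c ≠ 0 ∧ ‖t‖ = 1 ∧ t ∈ Uᗮ ∧ J t = 0 ∧
      (∀ x ∈ U, J x ∈ U ∧ J (J x) = -x) ∧ (∀ x y, ⟪J x, y⟫_ℝ = - ⟪x, J y⟫_ℝ) ∧
      (∀ A ∈ H, ∀ x, J (A x) = A (J x)) ∧ (∀ A ∈ H, A t = 0) ∧
      ∀ x ∈ U, ∀ τ : ℝ, b (x + τ • t) (x + τ • t) = (τ * c) • J x

/-- The data of the case `dim U = 6`, `b ≠ 0`. -/
structure D6 {g : Type} [LieRing g] [LieAlgebra ℝ g] {V : Type} [NormedAddCommGroup V]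
    [InnerProductSpace ℝ V] (k : LieSubalgebra ℝ g) (B : g →ₗ[ℝ] g →ₗ[ℝ] ℝ)
    (m : Submodule ℝ g) (ι : V →ₗ[ℝ] g) (H : Submodule ℝ (V →ₗ[ℝ] V)) (b : V →ₗ[ℝ] V →ₗ[ℝ] V)
    (U : Submodule ℝ V) (J : V →ₗ[ℝ] V) (t : V) (c : ℝ) : Prop where
  model : IsModel k B
  effp : EffP k
  red : Red k m
  fr : Fr B k.toSubmodule m ι H b
  dimV : Module.finrank ℝ V = 7
  irr : Irr H U
  dimU : Module.finrank ℝ U = 6
  alt : ∀ x ∈ U, ∀ y ∈ U, B ⁅ι y, ι x⁆ (ι x) = 0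
  ort : ∀ x ∈ U, ∀ y ∈ Uᗮ, killingForm ℝ g (ι x) (ι y) = 0
  c0 : c ≠ 0
  t1 : ‖t‖ = 1
  tU : t ∈ Uᗮ
  Jt : J t = 0
  JU : ∀ x ∈ U, J x ∈ U ∧ J (J x) = -x
  Jskew : ∀ x y, ⟪J x, y⟫_ℝ = - ⟪x, J y⟫_ℝ
  JH : ∀ A ∈ H, ∀ x, J (A x) = A (J x)
  Ht : ∀ A ∈ H, A t = 0
  bf : ∀ x ∈ U, ∀ τ : ℝ, b (x + τ • t) (x + τ • t) = (τ * c) • J x

/-- **Module D6A** (hypothesis `St_SCM`).  Write `x` for `ι x`.  For `x ∈ U`, `Z ∈ m`, polarising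
`bf`: `2b(x,t) = c Jx`, so by `Fr.bdef`
`c B(Jx,Z) = B([Z,x],t) + B([Z,t],x)`.   (∗)
`[t,A] = 0` for `A ∈ k` (as `[A,ι t] = ι(A t) = 0`, `Fr.lift`).
(1) `[t,x] ∈ m` for `x ∈ U`: `K([t,x],A) = K(t,[x,A]) = -K(t,[A,x]) = 0` by `ort` (`[A,x] ∈ ι U`);
an element `X = A₀ + M` with `K(X,k) = 0` has `A₀ = 0` by `Red.neg`, `Red.orth`.
(∗) with `Z = t`: `B([t,x],t) = 0`.  So `[t,x] = Ex` with `E : U → U`; `E` commutes with `H`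
(Jacobi and `[A,t] = 0`).
(2) `ω(x,y) = B([x,y],t)`, `x, y ∈ U`, is alternating and invariant: `ω(x,y) = ⟪Fx,y⟫`, `F` skew,
commuting with `H`; SCM: `F = e₀ J`.
(3) (∗) with `Z = z ∈ U`: `c⟪Jx,z⟫ = ω(z,x) + B([z,t],x) = e₀⟪Jz,x⟫ - ⟪Ez,x⟫`, so
`⟪Ez,x⟫ = (e₀ + c)⟪Jz,x⟫`, `E = d₀ J` with `d₀ = e₀ + c`. -/
def St_D6A : Prop :=
  ∀ (g : Type) [LieRing g] [LieAlgebra ℝ g] [FiniteDimensional ℝ g]
    (V : Type) [NormedAddCommGroup V] [InnerProductSpace ℝ V] [FiniteDimensional ℝ V]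
    (k : LieSubalgebra ℝ g) (B : g →ₗ[ℝ] g →ₗ[ℝ] ℝ) (m : Submodule ℝ g) (ι : V →ₗ[ℝ] g)
    (H : Submodule ℝ (V →ₗ[ℝ] V)) (b : V →ₗ[ℝ] V →ₗ[ℝ] V) (U : Submodule ℝ V) (J : V →ₗ[ℝ] V)
    (t : V) (c : ℝ), D6 k B m ι H b U J t c →
    (∀ A ∈ k, ⁅A, ι t⁆ = 0) ∧ ∃ d₀ e₀ : ℝ, d₀ = e₀ + c ∧
      (∀ x ∈ U, ⁅ι t, ι x⁆ = d₀ • ι (J x)) ∧
      (∀ x ∈ U, ∀ y ∈ U, B ⁅ι x, ι y⁆ (ι t) = e₀ * ⟪J x, y⟫_ℝ)

/-- **Module D6B** (no hypotheses).  Case `[t,x] = 0`, `B([x,y],t) = e₀⟪Jx,y⟫`, `e₀ ≠ 0`.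
`θ(x,y,z) = B([x,y],z)` on `U` is alternating (`D6.alt`).  The `t`-component of the Jacobi identity
for `x, y, z ∈ U`: write `[x,y] = A + u + e₀⟪Jx,y⟫t`, `A ∈ k`, `u ∈ U`, `⟪u,z'⟫ = θ(x,y,z')`;
`B([[x,y],z],t) = B([u,z],t) + 0 + 0 = e₀⟪Ju,z⟫ = -e₀ θ(x,y,Jz)` (`[A,z] ∈ ι U`, `[t,z] = 0`).
Hence `θ(x,y,Jz) + θ(y,z,Jx) + θ(z,x,Jy) = 0`, i.e.
`θ(Jx,y,z) + θ(x,Jy,z) + θ(x,y,Jz) = 0`.   (∗∗)
Put `s = θ(x,y,z)`, `a = θ(Jx,Jy,z)`, `b = θ(Jx,y,Jz)`, `c = θ(x,Jy,Jz)`.  (∗∗) at `(Jx,y,z)`,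
`(x,Jy,z)`, `(x,y,Jz)`: `a + b = s`, `a + c = s`, `b + c = s`; so `a = s/2`.  Apply this at
`(Jx,Jy,z)`: `θ(JJx,JJy,z) = s = a/2 = s/4`; so `s = 0`. -/
def St_D6B : Prop :=
  ∀ (g : Type) [LieRing g] [LieAlgebra ℝ g] [FiniteDimensional ℝ g]
    (V : Type) [NormedAddCommGroup V] [InnerProductSpace ℝ V] [FiniteDimensional ℝ V]
    (k : LieSubalgebra ℝ g) (B : g →ₗ[ℝ] g →ₗ[ℝ] ℝ) (m : Submodule ℝ g) (ι : V →ₗ[ℝ] g)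
    (H : Submodule ℝ (V →ₗ[ℝ] V)) (b : V →ₗ[ℝ] V →ₗ[ℝ] V) (U : Submodule ℝ V) (J : V →ₗ[ℝ] V)
    (t : V) (c : ℝ), D6 k B m ι H b U J t c → (∀ x ∈ U, ⁅ι t, ι x⁆ = 0) →
    ∀ e₀ : ℝ, e₀ ≠ 0 → (∀ x ∈ U, ∀ y ∈ U, B ⁅ι x, ι y⁆ (ι t) = e₀ * ⟪J x, y⟫_ℝ) →
    ∀ x ∈ U, ∀ y ∈ U, ∀ z ∈ U, B ⁅ι x, ι y⁆ (ι z) = 0

/-- **Module D6C** (no hypotheses).  Continuing D6B: for `x, y ∈ U`, `[x,y] = A_{xy} + e₀⟪Jx,y⟫t`
with `A_{xy} ∈ k`.  Jacobi for `x, y, z ∈ U` (and `[t,z] = 0`): `[A_{xy},z] + [A_{yz},x] +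
[A_{zx},y] = 0`.  Put `R(x,y,z,w) = B([A_{xy},z],w)`: antisymmetric in `(x,y)` and in `(z,w)`, and
cyclic sum zero in `(x,y,z)`; hence `R(x,y,z,w) = R(z,w,x,y)` (the standard four-term argument).
`J` commutes with `A_{xy}` on `U` and is skew with square `-1`, so `R(x,y,Jz,Jw) = R(x,y,z,w)`;
by pair symmetry `R(Jz,Jw,x,y) = R(z,w,x,y)` for all `x, y ∈ U`.  So `A_{Jz,Jw} - A_{zw} ∈ k` kills
`ι U` (its values are in `ι U` and `B`-orthogonal to `ι U`) and `ι t`, hence `m`; so it is `0` by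
`EffP` (`[A,k] ⊆ k`, `[A,m] = 0`).  Also `e₀⟪JJz,Jw⟫ = e₀⟪Jz,w⟫`.  So `[Jz,Jw] = [z,w]`; replace `w`
by `Jw`: `-[Jz,w] = [z,Jw]`. -/
def St_D6C : Prop :=
  ∀ (g : Type) [LieRing g] [LieAlgebra ℝ g] [FiniteDimensional ℝ g]
    (V : Type) [NormedAddCommGroup V] [InnerProductSpace ℝ V] [FiniteDimensional ℝ V]
    (k : LieSubalgebra ℝ g) (B : g →ₗ[ℝ] g →ₗ[ℝ] ℝ) (m : Submodule ℝ g) (ι : V →ₗ[ℝ] g)
    (H : Submodule ℝ (V →ₗ[ℝ] V)) (b : V →ₗ[ℝ] V →ₗ[ℝ] V) (U : Submodule ℝ V) (J : V →ₗ[ℝ] V)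
    (t : V) (c : ℝ), D6 k B m ι H b U J t c → (∀ x ∈ U, ⁅ι t, ι x⁆ = 0) →
    ∀ e₀ : ℝ, (∀ x ∈ U, ∀ y ∈ U, B ⁅ι x, ι y⁆ (ι t) = e₀ * ⟪J x, y⟫_ℝ) →
    (∀ x ∈ U, ∀ y ∈ U, ∀ z ∈ U, B ⁅ι x, ι y⁆ (ι z) = 0) →
    ∀ x ∈ U, ∀ y ∈ U, ⁅ι (J x), ι y⁆ + ⁅ι x, ι (J y)⁆ = 0

/-- **Module D6D** (hypotheses `St_D6A`, `St_D6B`, `St_D6C`, `St_EXN`).
Let `D : g → g` be the linear map with `D(ι v) = ι(J v)` (`v ∈ V`) and `D = 0` on `k`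
(`g = k ⊕ m`, `m = ι V`).  It is a derivation:
(1) if `d₀ ≠ 0`, `D = d₀⁻¹ ad(ι t)` (check on `k`, on `ι U` and on `ι t`);
(2) if `d₀ = 0`, then `e₀ = -c ≠ 0`; D6B and D6C apply.  `D[A,A'] = 0`;
`D[A,ι v] = D ι(A v) = ι(J A v) = ι(A J v) = [A,D ι v]`; `D[ι t,ι x] = 0 = [0,ι x] + [ι t,ι Jx]`;
for `x, y ∈ U`: `[ι x,ι y] ∈ k + ℝ ι t` by D6B, so `D[ι x,ι y] = 0 = [ι Jx,ι y] + [ι x,ι Jy]`.
`B(DX,Y) + B(X,DY) = 0` and `D m ⊆ m` are clear.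
EXN with `φ = 0` and `c(X) = c B(ι t, X)`: `c([A,X]) = c B(ι t,[A,X]) = -c B([A,ι t],X) = 0`,
`c(DX) = 0` (`J v ∈ U`), and for `X = ι(x + τt)`: `B([Y,X],X) = B(ι b(v,v),Y) = τ c B(ι Jx,Y) =
c(X) B(DX,Y)`. -/
def St_D6D : Prop :=
  ∀ (g : Type) [LieRing g] [LieAlgebra ℝ g] [FiniteDimensional ℝ g]
    (V : Type) [NormedAddCommGroup V] [InnerProductSpace ℝ V] [FiniteDimensional ℝ V]
    (k : LieSubalgebra ℝ g) (B : g →ₗ[ℝ] g →ₗ[ℝ] ℝ) (m : Submodule ℝ g) (ι : V →ₗ[ℝ] g)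
    (H : Submodule ℝ (V →ₗ[ℝ] V)) (b : V →ₗ[ℝ] V →ₗ[ℝ] V) (U : Submodule ℝ V) (J : V →ₗ[ℝ] V)
    (t : V) (c : ℝ), D6 k B m ι H b U J t c → NatRed k B

/-- **Module CIR** (hypotheses `St_KIR`, `St_D5V`, `St_D6V`, `St_D6D`, `St_EXN`).
`U` irreducible of dimension `≥ 5` in `V` (`dim V = 7`).  `ι U` is `IrrK`; KIR gives
`B([y,x],x) = 0` on `ι U`, hence `b(x,x) = 0` for `x ∈ U`: `b(x,x) = A x ∈ U` and
`2⟪b(x,x),z⟫ = 2B([ιz,ιx],ιx) = 0` for `z ∈ U`.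
If `dim U = 7` then `b = 0`; if `5`, D5V gives `b = 0`; if `6`, D6V gives `b = 0` or the data `D6`
(`ort` from the second part of KIR), and D6D applies.
If `b(x,x) = 0` for all `x`: `B([Y,X],X) = 0` on `m`, EXN with `φ = 0, D = 0, c = 0`. -/
def St_CIR : Prop :=
  ∀ (g : Type) [LieRing g] [LieAlgebra ℝ g] [FiniteDimensional ℝ g]
    (V : Type) [NormedAddCommGroup V] [InnerProductSpace ℝ V] [FiniteDimensional ℝ V]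
    (k : LieSubalgebra ℝ g) (B : g →ₗ[ℝ] g →ₗ[ℝ] ℝ) (m : Submodule ℝ g) (ι : V →ₗ[ℝ] g)
    (H : Submodule ℝ (V →ₗ[ℝ] V)) (b : V →ₗ[ℝ] V →ₗ[ℝ] V) (U : Submodule ℝ V),
    IsModel k B → EffP k → Red k m → Fr B k.toSubmodule m ι H b → Module.finrank ℝ V = 7 →
    Irr H U → 5 ≤ Module.finrank ℝ U → NatRed k B

/-- **Module QLI** (no hypotheses): lifting `Qt H` to the Lie algebra.
With `U, e, σ_V` from `Qt`: `E = ι ∘ e`, `W = ι(Uᗮ)`.  An element of `k` acting as zero on `m` is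
`0` (`EffP`, `[A,k] ⊆ k`), so every `A_V ∈ H` has a unique `X ∈ k` with `ι ∘ A_V = ad X ∘ ι`, and
`A_V ↦ X` is linear (choose the lifts of `σ_V(i), σ_V(j), σ_V(k)` and extend linearly, `σ 1 = 0`).
`[A,σ a] ∈ k` acts as `[A_V,σ_V a] = σ_V a'`, so it equals `σ a'` by uniqueness. -/
def St_QLI : Prop :=
  ∀ (g : Type) [LieRing g] [LieAlgebra ℝ g] [FiniteDimensional ℝ g]
    (V : Type) [NormedAddCommGroup V] [InnerProductSpace ℝ V] [FiniteDimensional ℝ V]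
    (k : LieSubalgebra ℝ g) (B : g →ₗ[ℝ] g →ₗ[ℝ] ℝ) (m : Submodule ℝ g) (ι : V →ₗ[ℝ] g)
    (H : Submodule ℝ (V →ₗ[ℝ] V)) (b : V →ₗ[ℝ] V →ₗ[ℝ] V),
    IsModel k B → EffP k → Red k m → Fr B k.toSubmodule m ι H b → Module.finrank ℝ V = 7 →
    Qt H → ∃ (W : Submodule ℝ g) (σ E : ℍ →ₗ[ℝ] g), QA k B W σ E

/-- **Module AS1** (hypotheses `St_CPL`, `St_TRN`, `St_AVL`, `St_EXN`, `St_T1`, `St_CIR`,
`St_QLI`).  `Red k m` from CPL; `dim m = 7`; `Act B k m` and `GOW B k m` (from `IsGO`: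
`0 = B([X + A,Y],X) = B([X,Y],X) + B([A,Y],X)`, so `B([Y,X],X) = B([A,Y],X) = B([-A,X],Y)`); TRN;
T1 gives `Lin H b` (then AVL: `LinE B k m`, then EXN with `D = 0, c = 0`), or `Qt H` (QLI), or an
irreducible subspace of dimension at least `5` (CIR). -/
def St_AS1 : Prop :=
  ∀ (g : Type) [LieRing g] [LieAlgebra ℝ g] [FiniteDimensional ℝ g] (k : LieSubalgebra ℝ g)
    (B : g →ₗ[ℝ] g →ₗ[ℝ] ℝ), IsModel k B → EffP k → IsGO k B →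
    Module.finrank ℝ g = Module.finrank ℝ k + 7 →
    NatRed k B ∨ ∃ (W : Submodule ℝ g) (σ E : ℍ →ₗ[ℝ] g), QA k B W σ E

end GOS
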