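import Pool.Agent.GOS.StB

/-!
# Seven-dimensional g.o. spaces (MP_cdb478_gt): quaternionic type (statements)

Conventions as in `StA.lean`.  `[a,b] = ab - ba` for quaternions; imaginary means `re = 0`;
`i, j, k` are `⟨0,1,0,0⟩, ⟨0,0,1,0⟩, ⟨0,0,0,1⟩`; `⟪x, y⟫_ℝ = (x * star y).re`.
Useful: `⟪xp, y⟫ = ⟪x, y p̄⟫`, `⟪px, y⟫ = ⟪x, p̄ y⟫`; for imaginary `p, q, r`:
`⟪[p,q], r⟫ = ⟪p, [q,r]⟫`.
-/

namespace GOS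

open scoped InnerProductSpace Quaternion

section defs

variable {g : Type} [LieRing g] [LieAlgebra ℝ g]

/-- Data of quaternionic type, second form: `h` and `c = h ⊕ W` are the centralizers of `σ(Im ℍ)`
in `k` and in `g`; `g = σ(Im ℍ) ⊕ E(ℍ) ⊕ c`, and `[C, E x] = - E (x ρ(C))` for `C ∈ c`. -/
structure QB (k : LieSubalgebra ℝ g) (B : g →ₗ[ℝ] g →ₗ[ℝ] ℝ) (c h W : Submodule ℝ g)
    (σ E : ℍ →ₗ[ℝ] g) (ρ : g →ₗ[ℝ] ℍ) : Prop where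
  σ1 : σ 1 = 0
  dec : ∀ X : g, ∃ a x : ℍ, ∃ C ∈ c, X = σ a + E x + C
  ind : ∀ a x : ℍ, ∀ C ∈ c, σ a + E x + C = 0 → a.im = 0 ∧ x = 0 ∧ C = 0
  chW : c = h ⊔ W
  hW0 : Disjoint h W
  kdec : k.toSubmodule = LinearMap.range σ ⊔ h
  dimW : Module.finrank ℝ W = 3
  σσ : ∀ a b, ⁅σ a, σ b⁆ = σ (a.im * b.im - b.im * a.im)
  σE : ∀ a x, ⁅σ a, E x⁆ = E (a.im * x)
  σc : ∀ a, ∀ C ∈ c, ⁅σ a, C⁆ = 0
  cc : ∀ C ∈ c, ∀ C' ∈ c, ⁅C, C'⁆ ∈ c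
  hh : ∀ A ∈ h, ∀ A' ∈ h, ⁅A, A'⁆ ∈ h
  hWW : ∀ A ∈ h, ∀ w ∈ W, ⁅A, w⁆ ∈ W
  cE : ∀ C ∈ c, ∀ x, ⁅C, E x⁆ = - E (x * ρ C)
  BEE : ∀ x y, B (E x) (E y) = ⟪x, y⟫_ℝ
  BEc : ∀ x, ∀ C ∈ c, B (E x) C = 0

/-- Data of quaternionic type, final form. -/
structure QD (k : LieSubalgebra ℝ g) (B : g →ₗ[ℝ] g →ₗ[ℝ] ℝ) (c h W : Submodule ℝ g)
    (σ E τ : ℍ →ₗ[ℝ] g) (ρ : g →ₗ[ℝ] ℍ) (lam : ℝ) : Prop extends QB k B c h W σ E ρ where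
  model : IsModel k B
  effp : EffP k
  neg : ∀ A ∈ k, A ≠ 0 → killingForm ℝ g A A < 0
  τ1 : τ 1 = 0
  τc : ∀ p, τ p ∈ c
  EEb : ∀ x y, ⁅E x, E y⁆ = τ (star x * y) - lam • σ (x * star y)
  ρre : ∀ C ∈ c, (ρ C).re = 0
  ρlie : ∀ C ∈ c, ∀ C' ∈ c, ρ ⁅C, C'⁆ = ρ C * ρ C' - ρ C' * ρ C
  cτ : ∀ C ∈ c, ∀ p : ℍ, p.re = 0 → ⁅C, τ p⁆ = τ (ρ C * p - p * ρ C)
  go : ∀ w ∈ W, ∃ A ∈ h, ∀ w' ∈ W, B ⁅w', w⁆ w = B ⁅A, w⁆ w'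

/-- The space is isometric (locally) to a member of the nilpotent family. -/
def NilCase (k : LieSubalgebra ℝ g) (B : g →ₗ[ℝ] g →ₗ[ℝ] ℝ) : Prop :=
  ∃ τ' : ℍ →ₗ[ℝ] EuclideanSpace ℝ (Fin 3), SameSpace ⊥ (Nil.form τ') k B

/-- The space is isometric (locally) to a member of the second family. -/
def SpCase (k : LieSubalgebra ℝ g) (B : g →ₗ[ℝ] g →ₗ[ℝ] ℝ) : Prop :=
  ∃ ε α β s : ℝ, (ε = 1 ∨ ε = -1) ∧ 0 < α ∧ 0 < β ∧ SameSpace k B (spK ε s) (spB ε α β s)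

end defs

/-- **Module QB1** (hypothesis `St_SK4`).  Put `h = {A ∈ k | [A,σ a] = 0 for all a}`,
`c = {X | [σ a, X] = 0 for all a}`.
(1) An element `A ∈ k` with `[A,E x] = 0`, `[A,w] = 0` for all `x`, `w ∈ W` is `0` (`EffP`:
`[A,k] ⊆ k`, `[A,m] = 0`, `g = k ⊕ m`, `m = E(ℍ) ⊕ W`).
`[σ a,σ b]` acts on `E(ℍ)` as `[a.im,b.im]` and on `W` as `0`, so `σσ`.  `σ a = 0` implies
`a.im = 0` (act on `E 1`); `E` is injective by `EE`.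
(2) Let `A ∈ k`.  `[A,E x] = E(T x)` with `T` linear and skew (`IsModel.inv`, `EE`), so by SK4
(applied to `V = ℍ`, `U = ⊤`, `e = id`) `T x = p x - x q` with `p, q` imaginary.  `A - σ(p)` acts
on `E(ℍ)` by `x ↦ -xq`, so `[A - σ p,σ a]` kills `E(ℍ)`; it kills `W` since
`[A,[σ a,w]] - [σ a,[A,w]] = 0` (`kW`, `σW`) and the same for `σ p`.  So `[A - σ p,σ a] = 0` and
`A - σ p ∈ h`: `k = σ(Im ℍ) + h`, and for `A ∈ h` (where `p` is determined: `A` commutes with the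
`σ a`, so `T` commutes with left multiplications and `T x = x T(1)`), `[A,E x] = -E(x ρ(A))` with
`ρ(A) := -T(1)`.
(3) `W ⊆ c`, `h ⊆ c`; `h ∩ W = 0` (`k ∩ m = 0`); `g = σ(Im ℍ) + E(ℍ) + (h + W)`; and if
`σ a + E x + C = 0` with `C ∈ c`, bracket with `σ b`: `σ([b,a.im]) + E(b x) = 0` for imaginary `b`,
the two terms are in `k` and `m`, so `x = 0` and `[b,a.im] = 0` for all `b`, `a.im = 0`, `C = 0`.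
Hence `c = h ⊕ W` (an element of `c` is `σ a + E x + C'` with `C' ∈ h + W`, and then `a.im = 0`,
`x = 0`).
(4) `cc`, `hh`: centralizers are closed under brackets (Jacobi).  `hWW`: `kW`.  `BEc`: `EW` and
`B(E x, A) = 0` for `A ∈ k`.
(5) For `w ∈ W` put `F(x) = [w,E x] = σ(α(x)) + E(β(x)) + γ(x)` with `α(x)` imaginary,
`γ(x) ∈ c` (linear in `x`, by `dec`, `ind`).  `[σ a,F(x)] = F(ax)` for imaginary `a` (Jacobi,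
`[σ a,w] = 0`): `[a,α(x)] = α(ax)`, `aβ(x) = β(ax)`, `0 = γ(ax)`.  Taking `y = a(-a y)` for a unit
`a`: `γ = 0`.  For a unit `a`: `[a,[a,α(x)]] = α(a²x) = -α(x)`, but `[a,[a,v]]` is `-4` times the
part of `v` orthogonal to `a`, so `α(x) = 0`.  And `β(x) = xβ(1)`.  So `[w,E x] = E(xβ(1))`,
`ρ(w) := -β(1)`, linear in `w`.  Define `ρ` on `c = h ⊕ W` by these formulas (equivalently
`E(ρ(C)) = -[C,E 1]`) and extend it linearly to `g`. -/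
def St_QB1 : Prop :=
  ∀ (g : Type) [LieRing g] [LieAlgebra ℝ g] [FiniteDimensional ℝ g] (k : LieSubalgebra ℝ g)
    (B : g →ₗ[ℝ] g →ₗ[ℝ] ℝ), IsModel k B → EffP k →
    ∀ (W : Submodule ℝ g) (σ E : ℍ →ₗ[ℝ] g), QA k B W σ E →
    ∃ (c h : Submodule ℝ g) (ρ : g →ₗ[ℝ] ℍ), QB k B c h W σ E ρ

/-- **Module QB2** (hypothesis `St_EQ1`).  `β(x,y) = [E x,E y] = σ(s(x,y)) + E(ε(x,y)) + γ(x,y)`
with `s(x,y)` imaginary, `γ(x,y) ∈ c` (bilinear by `dec`, `ind`), alternating.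
`[σ a,β(x,y)] = β(ax,y) + β(x,ay)` for imaginary `a` (Jacobi) gives:
(1) `aε(x,y) = ε(ax,y) + ε(x,ay)`, so `ε = 0` by EQ1 (1).
(2) `0 = γ(ax,y) + γ(x,ay)`: so `γ(x,y) = γ(1,x̄ y)` (for `x = x₀ + a`: `γ(a,y) = -γ(1,ay)`), and
`γ(1,1) = 0`; put `τ(p) = γ(1,p)`.
(3) `[a,s(x,y)] = s(ax,y) + s(x,ay)`.  Put `u(y) = s(1,y)`, `u(1) = 0`.  `x = 1`:
`s(a,y) = [a,u(y)] - u(ay)`.  `0 = s(a,a) = [a,u(a)] - u(a²) = [a,u(a)]`: `u(a) ∥ a` for all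
imaginary `a`, so `u(a) = lam a` with `lam` real.  Then `s(1,y) = lam y.im`,
`s(a,y) = lam([a,y.im] - (ay).im)`, and this is `-lam (x ȳ).im` for `x = 1` and `x = a` (with
`y = y₀ + b`: `[a,b] - y₀a - ½[a,b] = ½[a,b] - y₀a = -(a ȳ).im`).  As `σ 1 = 0`,
`σ(s(x,y)) = -lam σ(x ȳ)`. -/
def St_QB2 : Prop :=
  ∀ (g : Type) [LieRing g] [LieAlgebra ℝ g] [FiniteDimensional ℝ g] (k : LieSubalgebra ℝ g)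
    (B : g →ₗ[ℝ] g →ₗ[ℝ] ℝ) (c h W : Submodule ℝ g) (σ E : ℍ →ₗ[ℝ] g) (ρ : g →ₗ[ℝ] ℍ),
    QB k B c h W σ E ρ → ∃ (τ : ℍ →ₗ[ℝ] g) (lam : ℝ), τ 1 = 0 ∧ (∀ p, τ p ∈ c) ∧
      ∀ x y, ⁅E x, E y⁆ = τ (star x * y) - lam • σ (x * star y)

/-- **Module QB3** (no hypotheses).
`ρlie` (no condition on real parts): `[[C,C'],E x] = [C,[C',E x]] - [C',[C,E x]]
= E(xρ(C')ρ(C)) - E(xρ(C)ρ(C'))`, and `E` is injective (`BEE`).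
`ρre`: for `A ∈ h ⊆ k`: `0 = B([A,E 1],E 1) = -⟪ρ(A),1⟫`.  For `w ∈ W`: by `IsGO` there is `A ∈ k`
with `B([E 1,Y],E 1) + B([A,Y],E 1) = 0` for all `Y`; take `Y = w`: `[A,w] ∈ W` for `A ∈ k`
(`A = σ a + A'`, `A' ∈ h`), so the second term is `B([A,w],E 1) = 0` (`BEc`), and the first is
`-B([w,E 1],E 1) = B(E(ρ w),E 1) = (ρ w).re`.
`cτ`: for `C ∈ c`, `ρ = ρ(C)` imaginary, `p` imaginary:
`[C,τ p] = [C,τ p - lam σ(p̄)] = [C,[E 1,E p]] = -[E(ρ),E p] - [E 1,E(pρ)]`, and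
`[E(ρ),E p] = τ(ρ̄ p) - lam σ(ρ p̄) = -τ(ρp) + lam σ(ρp)`,
`[E 1,E(pρ)] = τ(pρ) - lam σ((pρ)‾) = τ(pρ) - lam σ(ρp)` (`(pρ)‾ = ρ̄ p̄ = ρp`); the sum is
`[C,τ p] = τ(ρp) - τ(pρ)`.
`go`: for `w ∈ W`, `IsGO` for `X = w` gives `A ∈ k` with `B([w,Y],w) + B([A,Y],w) = 0` for all `Y`;
for `Y = w' ∈ W`: `B([w',w],w) = B([A,w'],w) = -B(w',[A,w])`; write `A = σ a + A'`, `[σ a,w] = 0`;
so `-A' ∈ h` works. -/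
def St_QB3 : Prop :=
  ∀ (g : Type) [LieRing g] [LieAlgebra ℝ g] [FiniteDimensional ℝ g] (k : LieSubalgebra ℝ g)
    (B : g →ₗ[ℝ] g →ₗ[ℝ] ℝ) (c h W : Submodule ℝ g) (σ E τ : ℍ →ₗ[ℝ] g) (ρ : g →ₗ[ℝ] ℍ)
    (lam : ℝ), IsModel k B → EffP k → (∀ A ∈ k, A ≠ 0 → killingForm ℝ g A A < 0) → IsGO k B →
    QB k B c h W σ E ρ → τ 1 = 0 → (∀ p, τ p ∈ c) →
    (∀ x y, ⁅E x, E y⁆ = τ (star x * y) - lam • σ (x * star y)) →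
    QD k B c h W σ E τ ρ lam

/-- **Module QM** (no hypotheses).  `m = E(ℍ) + W` is a complement of `k` (from `dec`, `ind`,
`chW`, `hW0`, `kdec`), invariant under `k`.
`J(w) = B(τ i,w) i + B(τ j,w) j + B(τ k,w) k + ρ(w)`.
(c) `B([E y + w',E x + w],E x + w)`: `B([E y,E x],E x) = 0` (`[E y,E x] ∈ σ(ℍ) + c`, `BEc`, `ker`),
`B([E y,E x],w) = B(τ(ȳ x),w) = ⟪ȳ x,τ*w⟫ = ⟪x,y τ*w⟫` (`τ*w` the part of `J(w)` without `ρ(w)`,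
`⟪q,τ*w⟫ = B(τ q,w)` for all `q` since `τ 1 = 0`), `B([E y,w],E x) = B(E(yρ(w)),E x) = ⟪x,yρ(w)⟫`,
`B([E y,w],w) = 0`, `B([w',E x],E x) = -⟪xρ(w'),x⟫ = 0` (`ρ(w')` imaginary),
`B([w',E x],w) = 0`, `B([w',w],E x) = 0`, `B([w',w],w)`.  Sum: `⟪x,yJ(w)⟫ + B([w',w],w)` and
`⟪x,yJ(w)⟫ = -⟪xJ(w),y⟫`.
(d) For `A ∈ h`, `p` imaginary: `⟪p,τ*[A,w]⟫ = B(τ p,[A,w]) = -B([A,τ p],w) = -B(τ[ρA,p],w) =
-⟪[ρA,p],τ*w⟫ = ⟪p,[ρA,τ*w]⟫`, and `ρ[A,w] = [ρA,ρw]`. -/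
def St_QM : Prop :=
  ∀ (g : Type) [LieRing g] [LieAlgebra ℝ g] [FiniteDimensional ℝ g] (k : LieSubalgebra ℝ g)
    (B : g →ₗ[ℝ] g →ₗ[ℝ] ℝ) (c h W : Submodule ℝ g) (σ E τ : ℍ →ₗ[ℝ] g) (ρ : g →ₗ[ℝ] ℍ)
    (lam : ℝ), QD k B c h W σ E τ ρ lam →
    IsCompl k.toSubmodule (LinearMap.range E ⊔ W) ∧
    (∀ A ∈ k, ∀ X ∈ LinearMap.range E ⊔ W, ⁅A, X⁆ ∈ LinearMap.range E ⊔ W) ∧
    ∃ J : g →ₗ[ℝ] ℍ, (∀ w ∈ W, (J w).re = 0) ∧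
      (∀ p : ℍ, p.re = 0 → ∀ w ∈ W, ⟪p, J w⟫_ℝ = B (τ p) w + ⟪p, ρ w⟫_ℝ) ∧
      (∀ x y : ℍ, ∀ w ∈ W, ∀ w' ∈ W,
        B ⁅E y + w', E x + w⁆ (E x + w) = - ⟪x * J w, y⟫_ℝ + B ⁅w', w⁆ w) ∧
      (∀ A ∈ h, ∀ w ∈ W, J ⁅A, w⁆ = ρ A * J w - J w * ρ A)

/-- **Module QNR** (hypothesis `St_EXN`).  Let `φ(E x + w) = ψ(w)` (`m = E(ℍ) ⊕ W`, extended by `0`
on `k`).  `φ` is equivariant: for `σ a`: `[σ a,E x + w] = E(ax)`, `φ` of it is `0 = [σ a,ψ w]`; for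
`A ∈ h`: `ψ[A,w] = [A,ψ w]`.  `B([φX,X],Y)` for `X = E x + w`, `Y = E y + w'`:
`[ψ w,E x] = -E(xρ(ψ w)) = -E(xJ(w))`, so it is `-⟪xJ(w),y⟫ + B([ψ w,w],w')`, which is
`B([Y,X],X)` by the third property of `J`.  EXN with `D = 0`, `c = 0`, `m = E(ℍ) ⊔ W`. -/
def St_QNR : Prop :=
  ∀ (g : Type) [LieRing g] [LieAlgebra ℝ g] [FiniteDimensional ℝ g] (k : LieSubalgebra ℝ g)
    (B : g →ₗ[ℝ] g →ₗ[ℝ] ℝ) (c h W : Submodule ℝ g) (σ E τ : ℍ →ₗ[ℝ] g) (ρ : g →ₗ[ℝ] ℍ)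
    (lam : ℝ), QD k B c h W σ E τ ρ lam →
    IsCompl k.toSubmodule (LinearMap.range E ⊔ W) →
    (∀ A ∈ k, ∀ X ∈ LinearMap.range E ⊔ W, ⁅A, X⁆ ∈ LinearMap.range E ⊔ W) →
    ∀ J : g →ₗ[ℝ] ℍ, (∀ x y : ℍ, ∀ w ∈ W, ∀ w' ∈ W,
        B ⁅E y + w', E x + w⁆ (E x + w) = - ⟪x * J w, y⟫_ℝ + B ⁅w', w⁆ w) →
    ∀ ψ : g →ₗ[ℝ] g, (∀ w ∈ W, ψ w ∈ h) → (∀ A ∈ h, ∀ w ∈ W, ψ ⁅A, w⁆ = ⁅A, ψ w⁆) →
    (∀ w ∈ W, ∀ w' ∈ W, B ⁅w', w⁆ w = B ⁅ψ w, w⁆ w') → (∀ w ∈ W, ρ (ψ w) = J w) →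
    NatRed k B

/-- **Module QN3** (hypotheses `St_TRN`, `St_T1C`, `St_AVL`).  `Act B h W` (`pos`: `W ∩ k = 0`, as
`W ∩ (σ(ℍ) + h) = 0` by `ind` and `hW0`), `GOW B h W` is `QD.go`.  TRN gives a frame on
`EuclideanSpace ℝ (Fin 3)`, T1C gives `Lin`, AVL (with `QD.neg`, `h ⊆ k`) gives `LinE B h W`. -/
def St_QN3 : Prop :=
  ∀ (g : Type) [LieRing g] [LieAlgebra ℝ g] [FiniteDimensional ℝ g] (k : LieSubalgebra ℝ g)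
    (B : g →ₗ[ℝ] g →ₗ[ℝ] ℝ) (c h W : Submodule ℝ g) (σ E τ : ℍ →ₗ[ℝ] g) (ρ : g →ₗ[ℝ] ℍ)
    (lam : ℝ), QD k B c h W σ E τ ρ lam → LinE B h W

/-- **Module BSY** (no hypotheses).  Put `β(p) = ρ(τ p)` (imaginary).
`[[E x,E y],E z] = E(-lam (x ȳ).im z - z β(x̄ y))`.  The Jacobi identity for `x = p`, `y = q`
imaginary and `z = 1` gives `-3lam p×q - β(p×q) - pβ(q) + qβ(p) = 0`
(`(p q̄).im = -p×q`, `(p̄ q).im = -p×q`; `[[E q,E 1],E p] ↦ -(lam q p) - pβ(q̄)`,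
`[[E 1,E p],E q] ↦ lam p q - qβ(p)`; sum of the three with signs as displayed).
Real part: `⟪p,βq⟫ = ⟪q,βp⟫`.  Imaginary part:
`β(p×q) + p×β(q) + β(p)×q = -3lam p×q`; with `(p,q) = (i,j)` and the scalar product with `k`:
`⟪βk,k⟫ + ⟪βj,j⟫ + ⟪βi,i⟫ = -3lam`.
Third: `[τ q,τ p] = τ([β q,p])` and antisymmetry. -/
def St_BSY : Prop :=
  ∀ (g : Type) [LieRing g] [LieAlgebra ℝ g] [FiniteDimensional ℝ g] (k : LieSubalgebra ℝ g)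
    (B : g →ₗ[ℝ] g →ₗ[ℝ] ℝ) (c h W : Submodule ℝ g) (σ E τ : ℍ →ₗ[ℝ] g) (ρ : g →ₗ[ℝ] ℍ)
    (lam : ℝ), QD k B c h W σ E τ ρ lam →
    (∀ p q : ℍ, p.re = 0 → q.re = 0 → ⟪ρ (τ p), q⟫_ℝ = ⟪p, ρ (τ q)⟫_ℝ) ∧
    (ρ (τ ⟨0, 1, 0, 0⟩)).imI + (ρ (τ ⟨0, 0, 1, 0⟩)).imJ + (ρ (τ ⟨0, 0, 0, 1⟩)).imK = -3 * lam ∧
    (∀ p q : ℍ, p.re = 0 → q.re = 0 →
      τ (ρ (τ q) * p - p * ρ (τ q) + (ρ (τ p) * q - q * ρ (τ p))) = 0)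

/-- **Module TRI** (hypothesis `St_BSY`).  `β = ρτ` is a symmetric operator of `Im ℍ`; take an
orthonormal eigenbasis `e₁, e₂, e₃` of `Im ℍ` with eigenvalues `b₁, b₂, b₃` (change the sign of
`e₃` if necessary so that `e₁ × e₂ = e₃` etc.; signs do not matter).  The third relation of BSY for
`p = e₂, q = e₁`: `τ(b₁[e₁,e₂] + b₂[e₂,e₁]) = 0`, so `(b₁ - b₂)τ(e₃) = 0`; cyclically.
If `b₁ = b₂ = b₃ =: b`: `3b = -3lam`; first alternative if `lam ≠ 0`, third if `lam = 0`.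
Otherwise two eigenvalues differ, say `b₁ ≠ b₂` (permute): `τ(e₃) = 0`, so `b₃ = 0`; one of
`b₁, b₂` is nonzero, say `b₁ ≠ 0 = b₃`: then `(b₃ - b₁)τ(e₂) = 0` gives `τ(e₂) = 0`.  So `τ`
vanishes on `e₂, e₃`, and `τ(e₁) ≠ 0` as `b₁ ≠ 0`: second alternative with `u = e₁`. -/
def St_TRI : Prop :=
  ∀ (g : Type) [LieRing g] [LieAlgebra ℝ g] [FiniteDimensional ℝ g] (k : LieSubalgebra ℝ g)
    (B : g →ₗ[ℝ] g →ₗ[ℝ] ℝ) (c h W : Submodule ℝ g) (σ E τ : ℍ →ₗ[ℝ] g) (ρ : g →ₗ[ℝ] ℍ)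
    (lam : ℝ), QD k B c h W σ E τ ρ lam →
    (lam ≠ 0 ∧ ∀ p : ℍ, p.re = 0 → ρ (τ p) = (-lam) • p) ∨
    (∃ u : ℍ, u.re = 0 ∧ ‖u‖ = 1 ∧ τ u ≠ 0 ∧ ∀ p : ℍ, p.re = 0 → ⟪p, u⟫_ℝ = 0 → τ p = 0) ∨
    (lam = 0 ∧ ∀ p : ℍ, ρ (τ p) = 0)

/-- **Module RNK** (no hypotheses): rank alternatives for a linear map on `Im ℍ`, by the dimension
`0, 1, 2, 3` of the kernel. -/
def St_RNK : Prop :=
  ∀ (g : Type) [AddCommGroup g] [Module ℝ g] (τ : ℍ →ₗ[ℝ] g),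
    (∀ p : ℍ, p.re = 0 → τ p = 0 → p = 0) ∨
    (∃ u : ℍ, u.re = 0 ∧ ‖u‖ = 1 ∧ τ u = 0 ∧
      ∀ p : ℍ, p.re = 0 → ⟪p, u⟫_ℝ = 0 → τ p = 0 → p = 0) ∨
    (∃ u : ℍ, u.re = 0 ∧ ‖u‖ = 1 ∧ τ u ≠ 0 ∧ ∀ p : ℍ, p.re = 0 → ⟪p, u⟫_ℝ = 0 → τ p = 0) ∨
    (∀ p : ℍ, p.re = 0 → τ p = 0)

/-- **Module DCS** (hypotheses `St_QM`, `St_QN3`, `St_EXN`): `τ` of rank one.
(1) `ρ(c) ⊆ ℝu`: for `C ∈ c`, `p ⟂ u` imaginary: `0 = [C,τ p] = τ([ρC,p]) = ⟪[ρC,p],u⟫ τ(u)`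
(`τ(q) = ⟪q,u⟫τ(u)` for imaginary `q`), so `0 = ⟪[ρC,p],u⟫ = ⟪p,[u,ρC]⟫` for all `p ⟂ u`, and
`[u,ρC] ⟂ u`; so `[u,ρC] = 0` and `ρC ∈ ℝu`.
(2) Let `D(E x) = E(xu)`, `D = 0` on `σ(ℍ)` and on `c`.  It is a derivation:
`D[E x,E y] = 0` (`[E x,E y] ∈ σ(ℍ) + c`) and `[E(xu),E y] + [E x,E(yu)] =
τ(ū x̄ y + x̄ y u) - lam σ(x u ȳ + x ū ȳ) = τ([z,u])`, `z = x̄ y`, and `[z,u]` is imaginary
orthogonal to `u`: `0`.  `D[C,E x] = -E(xρ(C)u) = -E(xuρ(C)) = [C,D E x]` as `ρ(C) ∈ ℝu`.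
`D[σ a,E x] = E(axu) = [σ a,D E x]`; the other brackets are in `σ(ℍ) + c`.  `D` is skew for `B`
(`⟪xu,y⟫ + ⟪x,yu⟫ = 0`), `D k = 0`, `D m ⊆ m`.
(3) With `ψ` from QN3 (`LinE B h W`) and `J` from QM put `φ(E x + w) = ψ(w)`,
`c(E x + w) = ⟪ρ(ψ w),u⟫ - ⟪J w,u⟫` (`0` on `k`).  `J w ∈ ℝu`: for `p ⟂ u`,
`⟪p,J w⟫ = B(τ p,w) + ⟪p,ρ w⟫ = 0`.  `φ` is equivariant (as in QNR), `φ(DX) = 0`, `c(DX) = 0`
(`DX ∈ E(ℍ)`), `c([A,X]) = 0` for `A ∈ k`: for `A = σ a` clear; for `A ∈ h`: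
`ρ(ψ[A,w]) = ρ[A,ψ w] = [ρA,ρ(ψ w)] = 0` and `J[A,w] = [ρA,J w] = 0` (all in `ℝu`).
Finally `B([φX,X],Y) + c(X)B(DX,Y) = -⟪xρ(ψ w),y⟫ + B([ψ w,w],w') + c(X)⟪xu,y⟫ =
-⟪J w,u⟫⟪xu,y⟫ + B([w',w],w) = B([Y,X],X)`.  EXN. -/
def St_DCS : Prop :=
  ∀ (g : Type) [LieRing g] [LieAlgebra ℝ g] [FiniteDimensional ℝ g] (k : LieSubalgebra ℝ g)
    (B : g →ₗ[ℝ] g →ₗ[ℝ] ℝ) (c h W : Submodule ℝ g) (σ E τ : ℍ →ₗ[ℝ] g) (ρ : g →ₗ[ℝ] ℍ)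
    (lam : ℝ), QD k B c h W σ E τ ρ lam →
    ∀ u : ℍ, u.re = 0 → ‖u‖ = 1 → τ u ≠ 0 →
    (∀ p : ℍ, p.re = 0 → ⟪p, u⟫_ℝ = 0 → τ p = 0) → NatRed k B

/-- **Module T00** (hypotheses `St_QN3`, `St_EXN`): `τ = 0`, `lam = 0`, so `[E x,E y] = 0`.
Let `T` be the Lie algebra of operators `F` of `ℍ × ℝ` with `(F v).2 = 0` and
`y ↦ (F(y,0)).1` skew (affine skew maps of `ℍ`; a Lie subalgebra of `Module.End ℝ (ℍ × ℝ)`; any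
other model of `𝔰𝔬(4) ⋉ ℍ` will do), and `g₁ = T × c` (`c` as a Lie subalgebra of `g`).
`f(σ a + E x + C) = (F, C)` with `F(y,s) = (a.im y - yρ(C) + s x, 0)`.  Lie homomorphism:
`[σ a,E x] = E(a.im x)`, `[C,E x] = -E(xρ(C))`, `[E x,E y] = 0`, `ρlie`, `[σ a,C] = 0`.
`k₁ = {(F,A) | F(0,1) = 0, A ∈ h}`, `B₁((F,C),(F',C')) = ⟪F(0,1),F'(0,1)⟫ + B(C,C')`.
`IsModel k₁ B₁` (positivity: if `C ∉ h` then `C = A + w`, `w ≠ 0`, `B(C,C) = B(w,w) > 0`;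
complement `m₁ = {(F,w) | F(y,0) = 0, w ∈ W}`).  `f` preserves the forms, and `g₁ = f(g) + k₁`.
With `ψ` from QN3, `φ₁(F,w) = (0,ψ(w))` on `m₁` is equivariant and
`B₁([Y,X],X) = B([w',w],w) = B([ψ w,w],w') = B₁([φ₁X,X],Y)` (translations commute).  EXN for `g₁`
(`D = 0`, `c = 0`) gives `NatRed k₁ B₁`, and `SameSpace` is transitive (compose the homomorphisms),
so `NatRed k B`.  (Alternatively exhibit the complement `{(F,w) - (0,ψ w)}` directly.) -/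
def St_T00 : Prop :=
  ∀ (g : Type) [LieRing g] [LieAlgebra ℝ g] [FiniteDimensional ℝ g] (k : LieSubalgebra ℝ g)
    (B : g →ₗ[ℝ] g →ₗ[ℝ] ℝ) (c h W : Submodule ℝ g) (σ E τ : ℍ →ₗ[ℝ] g) (ρ : g →ₗ[ℝ] ℍ)
    (lam : ℝ), QD k B c h W σ E τ ρ lam → lam = 0 → (∀ p : ℍ, p.re = 0 → τ p = 0) → NatRed k B

/-- **Module VH0** (no hypotheses): if `ρτ = 0` then `τ(ℍ) ∩ h = 0`.
Let `A = τ p ∈ h` (`p` imaginary, as `τ 1 = 0`).  For `w ∈ W`: `[A,w] = -[w,τ p] = -τ([ρw,p])`, and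
`[A,[A,w]] = -[τ p,τ([ρw,p])] = -τ([ρτp,·]) = 0`.  `ad A` is skew for `B`, so
`B([A,w],[A,w]) = -B(w,[A,[A,w]]) = 0`, `[A,w] ∈ W` and `W ∩ k = 0`, so `[A,w] = 0`.
`[A,E x] = -E(xρ(A)) = 0`, `[A,σ a] = 0`, `[A,h] ⊆ h`.  So `[A,g] ⊆ k`, `A = 0` by `EffP`. -/
def St_VH0 : Prop :=
  ∀ (g : Type) [LieRing g] [LieAlgebra ℝ g] [FiniteDimensional ℝ g] (k : LieSubalgebra ℝ g)
    (B : g →ₗ[ℝ] g →ₗ[ℝ] ℝ) (c h W : Submodule ℝ g) (σ E τ : ℍ →ₗ[ℝ] g) (ρ : g →ₗ[ℝ] ℍ)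
    (lam : ℝ), QD k B c h W σ E τ ρ lam → (∀ p : ℍ, ρ (τ p) = 0) → ∀ p : ℍ, τ p ∈ h → τ p = 0

/-- **Module NI0** (no hypotheses): the recognition of the nilpotent family.  `v₁, v₂, v₃ ∈ c` are
`B`-orthonormal, `ρ(v_i) = 0`, `[v_i,v_j] = 0`, `lam = 0`, `τ(p)` is in the span of the `v_i`.
Let `τ'(p) = (B(τ p,v_i))_i`.  Then `τ p = ∑ τ'(p)_i v_i`.  `f(x,v) = E x + ∑ v_i v_i` is a Lie
homomorphism from `Nil τ'` (`[E x,E y] = τ(x̄ y)`, `[v_i,E x] = -E(xρ(v_i)) = 0`; note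
`τ 1 = 0`, so `τ'(q) = τ'(q.im)`), `B(f X,f Y)` is the standard form, and `g = k + f(Nil τ')`: the
span of `E(ℍ)` and the `v_i` has dimension `7` and meets `k` in `0` (`B` is positive definite on
it), and `finrank g = finrank k + 7` by QB (`g = k ⊕ E(ℍ) ⊕ W`). -/
def St_NI0 : Prop :=
  ∀ (g : Type) [LieRing g] [LieAlgebra ℝ g] [FiniteDimensional ℝ g] (k : LieSubalgebra ℝ g)
    (B : g →ₗ[ℝ] g →ₗ[ℝ] ℝ) (c h W : Submodule ℝ g) (σ E τ : ℍ →ₗ[ℝ] g) (ρ : g →ₗ[ℝ] ℍ)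
    (lam : ℝ), QD k B c h W σ E τ ρ lam → lam = 0 →
    ∀ v : Fin 3 → g, (∀ i, v i ∈ c) → (∀ i j, B (v i) (v j) = if i = j then 1 else 0) →
    (∀ i, ρ (v i) = 0) → (∀ i j, ⁅v i, v j⁆ = 0) →
    (∀ p : ℍ, τ p ∈ Submodule.span ℝ (Set.range v)) → NilCase k B

/-- **Module NI3** (hypotheses `St_VH0`, `St_NI0`): `τ` injective on `Im ℍ`.
`V₀ = τ(Im ℍ) ⊆ c` has dimension `3`, `V₀ ∩ h = 0`, hence `V₀ ∩ k = 0` (`c ∩ k = h`) and `B` is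
positive definite on `V₀`; take a `B`-orthonormal basis `v_i`.  `ρ = 0` on `V₀`;
`[τ p,τ q] = τ([ρτp,q]) = 0`.  NI0. -/
def St_NI3 : Prop :=
  ∀ (g : Type) [LieRing g] [LieAlgebra ℝ g] [FiniteDimensional ℝ g] (k : LieSubalgebra ℝ g)
    (B : g →ₗ[ℝ] g →ₗ[ℝ] ℝ) (c h W : Submodule ℝ g) (σ E τ : ℍ →ₗ[ℝ] g) (ρ : g →ₗ[ℝ] ℍ)
    (lam : ℝ), QD k B c h W σ E τ ρ lam → lam = 0 → (∀ p : ℍ, ρ (τ p) = 0) →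
    (∀ p : ℍ, p.re = 0 → τ p = 0 → p = 0) → NilCase k B

/-- **Module NI2** (hypotheses `St_VH0`, `St_NI0`): `τ u = 0`, `τ` injective on `u^⊥`.
(1) `ρ(c) ⊆ ℝu`: `0 = [C,τ u] = τ([ρC,u])` and `[ρC,u] ⟂ u`, so `[ρC,u] = 0`.  Write
`ρ(C) = r(C)u`.
(2) `V₀ = τ(u^⊥)` is 2-dimensional, `V₀ ∩ k = 0` (VH0), `ρ = 0` and brackets are `0` on `V₀`,
`[c,V₀] ⊆ V₀` (`[C,τ p] = r(C)τ([u,p])`).
(3) If `A ∈ h` and `r(A) = 0` then `A = 0`: for `v ∈ V₀`, `v = A_v + w_v` (`A_v ∈ h`, `w_v ∈ W`),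
`0 = [A,v] = [A,A_v] + [A,w_v]`, so `[A,w_v] = 0`; the `w_v` form a 2-dimensional subspace `W₀` of
`W` (`V₀ ∩ h = 0`); `[A,·]` on `W` is skew and kills `W₀`, its values are `B`-orthogonal to `W₀` and
`B([A,w₁],w₁) = 0` for `w₁ ∈ W` orthogonal to `W₀`; so `[A,W] = 0`.  `[A,E x] = 0`.  So
`[A,g] ⊆ k`, `A = 0`.
(4) Case `h = 0`: `c = W`, `QD.go` gives `B([w',w],w) = 0` on `W`, so (polarised)
`B([w,w'],w'') = -B([w,w''],w')`.  Let `w₁ ∈ W` be a unit vector `B`-orthogonal to `V₀`.  For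
`w ∈ W`, `v ∈ V₀`: `B([w,w₁],v) = -B([w,v],w₁) = 0` and `B([w,w₁],w₁) = 0`, so `[w,w₁] = 0`.  Then
`0 = [w₁,τ p] = r(w₁)τ([u,p])`, `p ⟂ u`, so `r(w₁) = 0`.  Put `X₁ = w₁`.
(5) Case `h ≠ 0`: by (3) `h = ℝA₁` with `r(A₁) ≠ 0`.  `[A₁,V₀] = V₀` (`[u,·]` is bijective on
`u^⊥`), and for `v = tA₁ + w_v`, `[A₁,v] = [A₁,w_v] ∈ W`; so `V₀ ⊆ W`.  Let `w₁ ∈ W` be a unit
vector orthogonal to `V₀` and `X₁ = w₁ - (r(w₁)/r(A₁))A₁`: `ρ(X₁) = 0`, `[X₁,τ p] = 0`.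
(6) NI0 with `v = (v₁,v₂,X₁)`, `v₁, v₂` a `B`-orthonormal basis of `V₀`. -/
def St_NI2 : Prop :=
  ∀ (g : Type) [LieRing g] [LieAlgebra ℝ g] [FiniteDimensional ℝ g] (k : LieSubalgebra ℝ g)
    (B : g →ₗ[ℝ] g →ₗ[ℝ] ℝ) (c h W : Submodule ℝ g) (σ E τ : ℍ →ₗ[ℝ] g) (ρ : g →ₗ[ℝ] ℍ)
    (lam : ℝ), QD k B c h W σ E τ ρ lam → lam = 0 → (∀ p : ℍ, ρ (τ p) = 0) →
    ∀ u : ℍ, u.re = 0 → ‖u‖ = 1 → τ u = 0 →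
    (∀ p : ℍ, p.re = 0 → ⟪p, u⟫_ℝ = 0 → τ p = 0 → p = 0) → NilCase k B

/-- **Module SP1** (hypotheses `St_QM`, `St_QN3`, `St_QNR`).  `lam ≠ 0`, `ρτ = -lam`, and
`τ p ∈ h` for all `p`.  Put `P(p) = -lam⁻¹ τ(p)`; `ρ(P p) = p` for imaginary `p`,
`[C,P p] = P([ρC,p])`.  For `w ∈ W` and imaginary `p`: `[P p,w] ∈ W` (`hWW`) and
`[P p,w] = -P([ρw,p]) ∈ h`, so it is `0`; applying `ρ`: `[p,ρw] = 0` for all `p`, so `ρ(w) = 0`.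
`B(τ p,w) = 0` as `τ p ∈ k`.  So `J(w) = 0` (QM).  Let `ψ₀` be from QN3 and
`ψ(w) = ψ₀(w) - P(ρ(ψ₀ w)) ∈ h`.  `ρ(ψ w) = 0 = J(w)`; `[P(q),w] = 0`, so
`B([ψ w,w],w') = B([ψ₀w,w],w')`; equivariance: `P(ρ[A,X]) = P([ρA,ρX]) = [A,P(ρX)]`.  QNR. -/
def St_SP1 : Prop :=
  ∀ (g : Type) [LieRing g] [LieAlgebra ℝ g] [FiniteDimensional ℝ g] (k : LieSubalgebra ℝ g)
    (B : g →ₗ[ℝ] g →ₗ[ℝ] ℝ) (c h W : Submodule ℝ g) (σ E τ : ℍ →ₗ[ℝ] g) (ρ : g →ₗ[ℝ] ℍ)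
    (lam : ℝ), QD k B c h W σ E τ ρ lam → lam ≠ 0 →
    (∀ p : ℍ, p.re = 0 → ρ (τ p) = (-lam) • p) → (∀ p : ℍ, τ p ∈ h) → NatRed k B

/-- **Module SP2** (no hypotheses): if not all `τ p ∈ h`, then `h` acts faithfully on `W`.
Let `I = {A ∈ h | [A,W] = 0}`: an ideal of `c = h + W` (`[h,I] ⊆ I` by Jacobi and `hWW`).
`ρ(I)` is an ideal of `Im ℍ` (`ρ(c) = Im ℍ`), so it is `0` or `Im ℍ` (an ideal containing `v ≠ 0`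
contains `[v,q]` for all `q`, which span `v^⊥`, and brackets of those, so everything).
If `ρ(I) = 0`: `A ∈ I` kills `E(ℍ)`, `W`, `σ(ℍ)`, so `[A,g] ⊆ k`, `A = 0`.
If `ρ(I) = Im ℍ`: for imaginary `p, q` choose `A ∈ I` with `ρ(A) = q`; with
`P(p) = -lam⁻¹τ(p) ∈ c`: `[A,P p] = P([q,p]) ∈ I ⊆ h`; brackets span, so all `P(p) ∈ h`,
contradiction. -/
def St_SP2 : Prop :=
  ∀ (g : Type) [LieRing g] [LieAlgebra ℝ g] [FiniteDimensional ℝ g] (k : LieSubalgebra ℝ g)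
    (B : g →ₗ[ℝ] g →ₗ[ℝ] ℝ) (c h W : Submodule ℝ g) (σ E τ : ℍ →ₗ[ℝ] g) (ρ : g →ₗ[ℝ] ℍ)
    (lam : ℝ), QD k B c h W σ E τ ρ lam → lam ≠ 0 →
    (∀ p : ℍ, p.re = 0 → ρ (τ p) = (-lam) • p) → (¬ ∀ p : ℍ, τ p ∈ h) →
    ∀ A ∈ h, (∀ w ∈ W, ⁅A, w⁆ = 0) → A = 0

/-- **Module DH3** (hypotheses `St_SK3`, `St_LS3`): if `h` acts faithfully on `W` (`dim W = 3`,
skew operators) then `dim h ≤ 1`, or `dim h = 3` and `W` is irreducible under `h`.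
Give `W` the inner product `B`; transport to `V = EuclideanSpace ℝ (Fin 3)`, and by SK3 to
`Im ℍ`: every `A ∈ h` acts as `z ↦ [p(A),z]` with `p : h → Im ℍ` linear, injective (faithful),
`p([A,A']) = [p(A),p(A')]`.  By LS3 the image is `Im ℍ` (then an invariant subspace of `W`
containing `z ≠ 0` contains all `[p,z]`, i.e. `z^⊥`, and then everything) or contained in a line. -/
def St_DH3 : Prop :=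
  ∀ (g : Type) [LieRing g] [LieAlgebra ℝ g] [FiniteDimensional ℝ g]
    (B : g →ₗ[ℝ] g →ₗ[ℝ] ℝ) (h W : Submodule ℝ g), Act B h W → Module.finrank ℝ W = 3 →
    (∀ A ∈ h, (∀ w ∈ W, ⁅A, w⁆ = 0) → A = 0) →
    Module.finrank ℝ h ≤ 1 ∨ (Module.finrank ℝ h = 3 ∧
      ∀ W' : Submodule ℝ g, W' ≤ W → (∀ A ∈ h, ∀ w ∈ W', ⁅A, w⁆ ∈ W') → W' = ⊥ ∨ W' = W)

/-- **Module SP3** (no hypotheses): the case `h = 0`.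
`P(p) = -lam⁻¹τ(p)`, `ρ(P p) = p`, `[P p,P q] = P([p,q])` (`cτ`).  `c = W` has dimension `3` and
`P` is injective on `Im ℍ`, so `W = P(Im ℍ)`.  `QD.go` (`A = 0`): `B([w',w],w) = 0` on `W`;
with `w = P(p)`: `B` is `ad`-invariant on `W`, so `B(P p,P q) = β'⟪p,q⟫`, `β' > 0`
(`B([P i,P j],P j) = 0` gives `B(P k,P j) = 0`, and cyclically; polarised:
`B([P i,P j],P k) + B([P i,P k],P j) = 0` gives `B(P k,P k) = B(P j,P j)`, etc.).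
Let `ε = sign(lam)`, `μ = sqrt(|lam|/2)` (so `lam = 2εμ²`), `α = 2/|lam| = μ⁻²`, `β = β'`,
`s = sqrt β'`.  `f(σ a + E x + P p) = (M, 0)`, `M = [[a.im, μ x],[-ε μ x̄, p]]`
(`!![a.im, μ • x; -(ε*μ) • star x, p]`).  It is a Lie homomorphism into `sp ε × ℝ`:
`[σ a,E x] = E(ax)`, `[P p,E x] = -E(xp)`, and `[E x,E y] = τ(x̄ y) - lam σ(x ȳ) =
-lam P((x̄ y).im) - lam σ(x ȳ)`, while the commutator of the matrices of `E x`, `E y` is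
`-εμ²·diag(x ȳ - y x̄, x̄ y - ȳ x) = -2εμ²·diag((x ȳ).im,(x̄ y).im)`.
`B₁(f X,f Y) = αμ²⟪x,y⟫ + β(p_jq_j + p_kq_k) + s²p_iq_i = B(X,Y)`.  For `Z = (M,r) ∈ sp ε × ℝ`
choose `X` with `Z - f X ∈ spK`: `M = [[a,y],[-εȳ,q]]`; take `X = E(μ⁻¹y) + P(p)` with
`p = q - (r/s) i`: `Z - f X = (diag(a,(r/s)i), r) ∈ spK ε s`. -/
def St_SP3 : Prop :=
  ∀ (g : Type) [LieRing g] [LieAlgebra ℝ g] [FiniteDimensional ℝ g] (k : LieSubalgebra ℝ g)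
    (B : g →ₗ[ℝ] g →ₗ[ℝ] ℝ) (c h W : Submodule ℝ g) (σ E τ : ℍ →ₗ[ℝ] g) (ρ : g →ₗ[ℝ] ℍ)
    (lam : ℝ), QD k B c h W σ E τ ρ lam → lam ≠ 0 →
    (∀ p : ℍ, p.re = 0 → ρ (τ p) = (-lam) • p) → h = ⊥ → SpCase k B

/-- **Module ROT** (no hypotheses): a unit imaginary quaternion `u` can be rotated to `i`: there is
`v` with `|v| = 1` and `v i v̄ = u` (if `u ≠ -i` take `v = (1 - u i)/|1 - u i|`... any of the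
standard formulas; for `u = -i` take `v = j`). -/
def St_ROT : Prop :=
  ∀ u i : ℍ, u.re = 0 → ‖u‖ = 1 → i = ⟨0, 1, 0, 0⟩ →
    ∃ v : ℍ, star v * v = 1 ∧ v * star v = 1 ∧ v * i * star v = u

/-- **Module SP4** (hypothesis `St_ROT`): the case `dim h = 1`, `h` faithful on `W`.
`P` as in SP3.  `c₀ = {C ∈ c | ρ(C) = 0}`; every `C ∈ c` is `P(ρ C) + C₀` with `C₀ ∈ c₀`, and
`[c₀,P(p)] = P([0,p]) = 0`; `dim c = 4`, so `dim c₀ = 1`, `c₀ = ℝz`.  `h = ℝA`,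
`A = P(p₀) + ζz`.  If `p₀ = 0` then `A` commutes with `P(Im ℍ)` and `z`, so with `c ⊇ W`:
contradiction with faithfulness (`A ≠ 0`).  Scale `A` so that `|p₀| = 1`.  By ROT there is a unit
`v` with `v i v̄ = p₀`; replace `E(x)` by `E'(x) = E(x v̄)`, `P(p)` by `P'(p) = P(v p v̄)` (`σ` is
unchanged); so from now on `A = P(i) + ζz`.  (Check: `[P'(p),E'(x)] = -E(x v̄ v p v̄) = -E'(xp)`,
`[E'x,E'y] = -lam P((v x̄ y v̄).im) - lam σ(x v̄ v ȳ) = -lam P'((x̄ y).im) - lam σ(x ȳ)`.)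
`W` is an `ad A`-invariant complement of `ℝA` in `c = span(P i,P j,P k,z)`; `ad A` kills
`P i, z` and maps `P j ↦ 2P k`, `P k ↦ -2P j`.  So `P j, P k ∈ [A,c] = [A,W] ⊆ W`, and
`B(P j,P k) = 0`, `B(P j,P j) = B(P k,P k) =: β > 0` (invariance), and `B(P j,X) = 0 = B(P k,X)` for
`X ∈ span(P i,z)` (`B(P j,X) = -½B([A,P k],X) = ½B(P k,[A,X]) = 0`).
On `span(P i,z)` the form `B` is positive semidefinite with kernel `ℝA` (`B(A,·) = 0`, `B > 0` off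
`k`).  `z ∉ ℝA`, so `B(z,z) > 0`; scale `z` so that `B(z,z) = 1`; then `A = P i + ζz` for some
real `ζ`; put `s = ζ`.  From `B(P i + sz,·) = 0`: `B(P i,z) = -s`, `B(P i,P i) = s²`; so
`B(p₁P i + r z,q₁P i + r'z) = (sp₁ - r)(sq₁ - r')`.
With `ε, μ, α` as in SP3: `f(σ a + E x + P(p) + r z) = (!![a.im, μx; -εμx̄, p], r)` is a Lie
homomorphism (as in SP3, `z` is central in `g`: it commutes with `σ(ℍ)`, with `E(ℍ)` as `ρ(z) = 0`,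
and with `c`), preserves the forms, and is onto. -/
def St_SP4 : Prop :=
  ∀ (g : Type) [LieRing g] [LieAlgebra ℝ g] [FiniteDimensional ℝ g] (k : LieSubalgebra ℝ g)
    (B : g →ₗ[ℝ] g →ₗ[ℝ] ℝ) (c h W : Submodule ℝ g) (σ E τ : ℍ →ₗ[ℝ] g) (ρ : g →ₗ[ℝ] ℍ)
    (lam : ℝ), QD k B c h W σ E τ ρ lam → lam ≠ 0 →
    (∀ p : ℍ, p.re = 0 → ρ (τ p) = (-lam) • p) →
    (∀ A ∈ h, (∀ w ∈ W, ⁅A, w⁆ = 0) → A = 0) → Module.finrank ℝ h = 1 → SpCase k B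

/-- **Module SP5** (hypotheses `St_QM`, `St_QN3`, `St_QNR`): the case `dim h = 3`, `W` irreducible
under `h`, `h` faithful on `W`.
(1) `ρ` is injective on `h`: let `N = {A ∈ h | ρ(A) = 0}`, `c₀ = {C ∈ c | ρC = 0}` (an ideal of
`c`).  `W ∩ c₀` is `h`-invariant, so it is `0` or `W`.  For `A ∈ N`, `w ∈ W`: `ρ[A,w] = [0,ρw] = 0`,
so `[A,w] ∈ W ∩ c₀`.  If `W ∩ c₀ = 0`, `N` kills `W` and `N = 0` by faithfulness.  If `W ≤ c₀`, then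
`ρ(h) = ρ(c) = Im ℍ` (`ρ(P p) = p` for `P = -lam⁻¹τ`), so `ρ|h` is injective as `dim h = 3`.
So `ρ : h → Im ℍ` is bijective.
(2) If `ψ : W → h` is `h`-equivariant then `[ψ w,w] = 0` for all `w ∈ W`: `ker ψ` is invariant, so
`ψ = 0` or `ψ` is injective; `ψ([ψ w,w]) = [ψ w,ψ w] = 0`.
(3) Let `ψ₀` be from QN3; by (2) `B([w',w],w) = B([ψ₀w,w],w') = 0`.  Let `J` be from QM and
`ψ(w) = (ρ|h)⁻¹(J w)`: equivariant (`J[A,w] = [ρA,Jw]`), so `[ψ w,w] = 0` by (2).  QNR. -/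
def St_SP5 : Prop :=
  ∀ (g : Type) [LieRing g] [LieAlgebra ℝ g] [FiniteDimensional ℝ g] (k : LieSubalgebra ℝ g)
    (B : g →ₗ[ℝ] g →ₗ[ℝ] ℝ) (c h W : Submodule ℝ g) (σ E τ : ℍ →ₗ[ℝ] g) (ρ : g →ₗ[ℝ] ℍ)
    (lam : ℝ), QD k B c h W σ E τ ρ lam → lam ≠ 0 →
    (∀ p : ℍ, p.re = 0 → ρ (τ p) = (-lam) • p) →
    (∀ A ∈ h, (∀ w ∈ W, ⁅A, w⁆ = 0) → A = 0) → Module.finrank ℝ h = 3 →
    (∀ W' : Submodule ℝ g, W' ≤ W → (∀ A ∈ h, ∀ w ∈ W', ⁅A, w⁆ ∈ W') → W' = ⊥ ∨ W' = W) →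
    NatRed k B

/-- **Module QFI** (hypotheses `St_TRI`, `St_RNK`, `St_DCS`, `St_T00`, `St_NI3`, `St_NI2`,
`St_SP1`, `St_SP2`, `St_DH3`, `St_SP3`, `St_SP4`, `St_SP5`): assembly.
TRI (i): if all `τ p ∈ h`, SP1; otherwise SP2 gives faithfulness and DH3 (with `Act B h W` as in
QN3) gives `dim h = 0` (SP3), `1` (SP4) or `3` (SP5).  TRI (ii): DCS.  TRI (iii): RNK for `τ`:
NI3, NI2, DCS, T00. -/
def St_QFI : Prop :=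
  ∀ (g : Type) [LieRing g] [LieAlgebra ℝ g] [FiniteDimensional ℝ g] (k : LieSubalgebra ℝ g)
    (B : g →ₗ[ℝ] g →ₗ[ℝ] ℝ) (c h W : Submodule ℝ g) (σ E τ : ℍ →ₗ[ℝ] g) (ρ : g →ₗ[ℝ] ℍ)
    (lam : ℝ), QD k B c h W σ E τ ρ lam → NatRed k B ∨ NilCase k B ∨ SpCase k B

/-- **Module FIN** (hypotheses `St_EFF`, `St_KND`, `St_AS1`, `St_QB1`, `St_QB2`, `St_QB3`,
`St_QFI`): the classification. -/
def St_FIN : Prop := Classification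

/-- **Module CV1** (no hypotheses): every member of the nilpotent family is a g.o. space.
`g = Im ℍ × ℍ × ℝ³` with `[(a,x,v),(b,y,w)] = ([a,b], ay - bx, τ((x̄ y).im))` (a semidirect product:
`D_a(x,v) = (ax,0)` is a derivation of `Nil τ` as `(ax)‾ y + x̄ (ay) = -x̄ a y + x̄ a y = 0`; use
`EuclideanSpace ℝ (Fin 3)` or the subspace `re = 0` for `Im ℍ`), `k = {(a,0,0)}`,
`B = ⟪x,y⟫ + ⟪v,w⟫`, complement `{(0,x,v)}`.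
`Eff`: an ideal in `k` containing `(a,0,0)` contains `(0,ax,0)` for all `x`, so `a = 0`.
`IsGO`: let `X = (a,x,v)`; we need `A = (b,0,0)` with `B([X + A,Y],X) = 0` for `Y = (d,y,w)`:
`[X + A,Y] = (.., (a+b)y - dx, τ((x̄ y).im))`; `B(..,X) = ⟪(a+b)y,x⟫ - ⟪dx,x⟫ + ⟪τ((x̄ y).im),v⟫ =
⟪y,-(a+b)x⟫ + ⟪x̄ y,t⟫` with `t = τ*v` imaginary (`⟪p,t⟫ = ⟪τ p,v⟫` for imaginary `p`), and
`⟪x̄ y,t⟫ = ⟪y,xt⟫`; so we need `(a + b)x = xt`: `b = x t x⁻¹ - a` if `x ≠ 0` (imaginary), `b = -a`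
if `x = 0`.  `f(x,v) = (0,x,v)`. -/
def St_CV1 : Prop :=
  ∀ τ : ℍ →ₗ[ℝ] EuclideanSpace ℝ (Fin 3),
    ∃ (g : Type) (_ : LieRing g) (_ : LieAlgebra ℝ g) (k : LieSubalgebra ℝ g)
      (B : g →ₗ[ℝ] g →ₗ[ℝ] ℝ), FiniteDimensional ℝ g ∧ IsModel k B ∧ Eff k ∧ IsGO k B ∧
      Module.finrank ℝ g = Module.finrank ℝ k + 7 ∧ SameSpace ⊥ (Nil.form τ) k B

/-- **Module CV2** (no hypotheses): every member of the second family is a g.o. space.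
Write an element of `sp ε × ℝ` as `(a,x,p,r)` (matrix `[[a,x],[-εx̄,p]]`, `a, p` imaginary); then
`[(a,x,p,r),(b,y,q,r')] = ([a,b] - 2ε(x ȳ).im, ay + xq - bx - yp, [p,q] - 2ε(x̄ y).im, 0)`.
`k = {(a,0,ti,ts)}`, complement `m = {(0,x,p,r) | s r = - p_i}`... any invariant complement, e.g.
`{(0,x,p,r) | p_i + s r = 0}` (`(i, s)` and `(p_i,r)` orthogonal in `ℝ²`).
`IsGO`: for `X = (a,x,p,r)` let `d = s p_i - r` and `X' = X - A₀` with `A₀ = (a,0,p_i i,s p_i) ∈ k`: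
`X' = (0,x,p',-d)` with `p' = p_j j + p_k k`.  It suffices to find `A = (b,0,ti,ts)` with
`B([X' + A,Y],X') = 0` for all `Y` (`B(·,X) = B(·,X')`, then use `A - A₀`).
`Y = (e,y,q,r')`: `[X',Y] = (.., xq - ex - yp', [p',q] - 2ε(x̄ y).im, 0)`,
`[A,Y] = (.., by - y t i, [ti,q], 0)`.
`B(Z,X') = α⟪Z_x,x⟫ + β⟪(Z_p)_{jk},p'⟫ + (s(Z_p)_i - Z_r)d`.  So the condition is
`α⟪xq - ex - yp' + by - t y i,x⟫ + β⟪[p',q] - 2ε(x̄ y).im + t[i,q],p'⟫ +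
s d ([p',q] - 2ε(x̄ y).im)_i = 0`.
`e`-terms: `⟪ex,x⟫ = 0`.  `q`-terms: `⟪xq,x⟫ = 0`, `⟪[p',q],p'⟫ = 0`,
`βt⟪[i,q],p'⟫ + s d⟪[p',q],i⟫ = ⟪q, βt[p',i] + s d[i,p']⟫ = (βt - sd)⟪q,[p',i]⟫`: choose
`t = sd/β`.  `y`-terms: `⟪y, α(x p' - b x + t x i) - 2ε x(β p' + s d i)⟫`
(`⟪-yp',x⟫ = ⟪y,xp'⟫`, `⟪by,x⟫ = -⟪y,bx⟫`, `⟪-yi,x⟫ = ⟪y,xi⟫`, `⟪x̄ y,p'⟫ = ⟪y,xp'⟫`): choose `b` with
`b x = x(p' + t i - (2ε/α)(β p' + s d i))`, possible for `x ≠ 0` with `b` imaginary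
(`b = x(...)x⁻¹`).
`Eff`: an ideal inside `k` containing `(a,0,ti,ts)`: bracket with `(0,x,0,0)` gives
`(0,ax - t x i,0,0)` in it, so `ax = t x i` for all `x`; `x = 1`: `a = ti`; `x = j`: `tij = tji`,
`t = 0`.  `finrank`: `11 = 4 + 7`. -/
def St_CV2 : Prop :=
  ∀ ε α β s : ℝ, (ε = 1 ∨ ε = -1) → 0 < α → 0 < β →
    IsModel (spK ε s) (spB ε α β s) ∧ Eff (spK ε s) ∧ IsGO (spK ε s) (spB ε α β s) ∧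
    Module.finrank ℝ (SpR ε) = Module.finrank ℝ (spK ε s) + 7

end GOS
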