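import Pool.Agent.GOS.Text
import Pool.Agent.GOS.Defs

/-!
# Seven-dimensional g.o. spaces (MP_cdb478_gt): normal form of the nilpotent family (statement)
-/

namespace GOS

open scoped InnerProductSpace Quaternion

/-- **Module SVD** (no hypotheses): singular values of `τ : Im ℍ → ℝ³`, with a rotation of `Im ℍ`
extended to an automorphism `φ` of the quaternions.
Proof.  Let `Q(p,q) = ⟪τ p, τ q⟫` on `Im ℍ` (dimension 3, `re = 0`): a symmetric positive
semidefinite form.  Take an orthonormal eigenbasis `u₁, u₂, u₃` with eigenvalues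
`μ₁ ≥ μ₂ ≥ μ₃ ≥ 0` (`Matrix.IsHermitian.eigenvalues₀` is antitone; or sort by hand, or choose `u₁`
maximising `‖τ u‖` on the unit sphere of `Im ℍ`, then `u₂` maximising it on `u₁^⊥`).
Replace `u₃` by `u₁ * u₂`, which is `± u₃` (for orthonormal imaginary `u₁, u₂` the product is
imaginary, of norm one and orthogonal to both, and `u₁² = u₂² = -1`, `u₁u₂ = -u₂u₁`).  Put
`φ(x) = x.re + x.imI u₁ + x.imJ u₂ + x.imK u₁u₂`: it is multiplicative, isometric and commutes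
with `star`.  The vectors `τ(u_a)` are mutually orthogonal with norms `l_a = sqrt μ_a`; choose an
orthonormal basis `z` of `ℝ³` with `τ(u_a) = l_a z_a` (normalise the nonzero ones and complete). -/
def St_SVD : Prop :=
  ∀ τ : ℍ →ₗ[ℝ] EuclideanSpace ℝ (Fin 3),
    ∃ (φ : ℍ →ₗ[ℝ] ℍ) (z : Fin 3 → EuclideanSpace ℝ (Fin 3)) (l₁ l₂ l₃ : ℝ),
      l₂ ≤ l₁ ∧ l₃ ≤ l₂ ∧ 0 ≤ l₃ ∧ Orthonormal ℝ z ∧
      (∀ x y, φ (x * y) = φ x * φ y) ∧ (∀ x, φ (star x) = star (φ x)) ∧ (∀ x, ‖φ x‖ = ‖x‖) ∧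
      (∀ x, φ x.im = (φ x).im) ∧
      ∀ x : ℍ, τ (φ x.im) = (l₁ * x.imI) • z 0 + (l₂ * x.imJ) • z 1 + (l₃ * x.imK) • z 2

end GOS
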