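import Pool.Agent.GOS.StA

/-!
# GOS [T4]: irreducible subspaces of dimension four
-/

set_option autoImplicit false

namespace GOS

open scoped InnerProductSpace Quaternion

/-- the operators `x ↦ e (a.im * x)` -/
private noncomputable def T4_L {V : Type} [NormedAddCommGroup V] [InnerProductSpace ℝ V]
    (e : ℍ →ₗ[ℝ] V) : ℍ →ₗ[ℝ] ℍ →ₗ[ℝ] V :=
  LinearMap.mk₂ ℝ (fun a x => e (a.im * x))
    (fun a a' x => by rw [Quaternion.im_add, add_mul, map_add])
    (fun r a x => by rw [Quaternion.im_smul, smul_mul_assoc, map_smul])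
    (fun a x x' => by rw [mul_add, map_add])
    (fun r a x => by rw [mul_smul_comm, map_smul])

private theorem T4_comm_re (p a : ℍ) : (p * a - a * p).re = 0 := by
  rw [Quaternion.re_sub, Quaternion.re_mul, Quaternion.re_mul]
  ring

private theorem T4_im_of (a : ℍ) (h : a.re = 0) : a.im = a := by
  ext
  · rw [Quaternion.re_im, h]
  · rfl
  · rfl
  · rfl

/-- [T4] -/
theorem thm_T4 (h1 : St_GEN) (h2 : St_SK4) (h3 : St_SO4) (h4 : St_IDL) (h5 : St_R3D)
    (h6 : St_T4X) : St_T4 := by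
  intro V _ _ _ H b hS h7 U hU hU4
  have hH : SkewLie H := hS.toSkewLie
  obtain ⟨e, he, hea⟩ := h3 V H hH U hU hU4
  have hIe : Inv H (LinearMap.range e) := by
    rw [he.rng]
    exact hU.2.1
  obtain ⟨σ, hσH, hσe, hσ3, hσ4⟩ := h4 V H hH e (T4_L e) hIe (fun a => by
    obtain ⟨A, hA, hAe⟩ := hea a.im (Quaternion.re_im a)
    exact ⟨A, hA, LinearMap.ext fun x => hAe x⟩)
  have hσx : ∀ a x, σ a (e x) = e (a.im * x) := fun a x => LinearMap.congr_fun (hσe a) x
  have hσ1 : σ 1 = 0 := by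
    apply hσ4
    apply LinearMap.ext
    intro x
    show e ((1 : ℍ).im * x) = 0
    rw [Quaternion.im_one, zero_mul, map_zero]
  have hσA : ∀ A ∈ H, ∀ a, ∃ a', A ∘ₗ σ a - σ a ∘ₗ A = σ a' := by
    intro A hA a
    obtain ⟨p, q, hp, hq, hpq⟩ := (h2 V U hU4).2 e A he (hU.2.1 A hA)
      (fun x _ y _ => hH.skew A hA x y)
    refine ⟨p * a.im - a.im * p, hσ3 A hA a _ ?_⟩
    apply LinearMap.ext
    intro x
    show A (σ a (e x)) - σ a (A (e x)) = e ((p * a.im - a.im * p).im * x)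
    rw [hσx, hpq, hpq, hσx, T4_im_of _ (T4_comm_re _ _), ← map_sub]
    congr 1
    noncomm_ring
  have hσσ : ∀ a c, σ a ∘ₗ σ c - σ c ∘ₗ σ a = σ (a.im * c.im - c.im * a.im) := by
    intro a c
    refine hσ3 (σ a) (hσH a) c _ ?_
    apply LinearMap.ext
    intro x
    show σ a (σ c (e x)) - σ c (σ a (e x)) = e ((a.im * c.im - c.im * a.im).im * x)
    rw [hσx, hσx, hσx, hσx, T4_im_of _ (T4_comm_re _ _), ← map_sub]
    congr 1
    noncomm_ring
  have hW : Inv H Uᗮ := (h1 V H hH).1 U hU.2.1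
  have hW3 : Module.finrank ℝ Uᗮ = 3 := by
    have := U.finrank_add_finrank_orthogonal
    omega
  rcases h5 V Uᗮ σ hW3 hσ1 (fun a w hw => hW (σ a) (hσH a) w hw)
    (fun a x _ y _ => hH.skew (σ a) (hσH a) x y)
    (fun a c w _ => LinearMap.congr_fun (hσσ a c) w) with h | ⟨f, hf, hfa⟩
  · exact Or.inr ⟨U, e, σ, he, hU.2.1, hσH, hσx, h, hσ1, hσA⟩
  · exact Or.inl (h6 V H b hS U e f σ he hU.2.1 hf hσH hσx hfa)

end GOS
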