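import Mathlib

/-!
# Seven-dimensional g.o. spaces (MP_cdb478_gt): the definitions of the final statement

A connected homogeneous Riemannian manifold `M = G/K` is described, up to local isometry, by
`(𝔤, 𝔨, B)`: the Lie algebra of `G`, the isotropy algebra, and the pull-back `B` to `𝔤` of the
inner product of `T_o M = 𝔤/𝔨`.
-/

namespace GOS

open scoped InnerProductSpace Quaternion

section general

variable {g g' : Type} [LieRing g] [LieAlgebra ℝ g] [LieRing g'] [LieAlgebra ℝ g']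

/-- `(g, k, B)` describes a homogeneous Riemannian space: `B` is symmetric, vanishes on `k`, is
positive off `k` and `ad k`-invariant, and `k` has an `ad k`-invariant complement. -/
structure IsModel (k : LieSubalgebra ℝ g) (B : g →ₗ[ℝ] g →ₗ[ℝ] ℝ) : Prop where
  symm : ∀ X Y, B X Y = B Y X
  pos : ∀ X, X ∉ k → 0 < B X X
  ker : ∀ A ∈ k, ∀ X, B A X = 0
  inv : ∀ A ∈ k, ∀ X Y, B ⁅A, X⁆ Y + B X ⁅A, Y⁆ = 0
  compl : ∃ m : Submodule ℝ g, IsCompl k.toSubmodule m ∧ ∀ A ∈ k, ∀ X ∈ m, ⁅A, X⁆ ∈ m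

/-- `k` contains no nonzero ideal of `g`. -/
def Eff (k : LieSubalgebra ℝ g) : Prop :=
  ∀ I : LieIdeal ℝ g, (∀ X ∈ I, X ∈ k) → I = ⊥

/-- The g.o. condition (geodesic lemma): every `X` has a modification `X + A`, `A ∈ k`, which is a
geodesic vector, that is, the orbit of its one-parameter group is a geodesic. -/
def IsGO (k : LieSubalgebra ℝ g) (B : g →ₗ[ℝ] g →ₗ[ℝ] ℝ) : Prop :=
  ∀ X, ∃ A ∈ k, ∀ Y, B ⁅X + A, Y⁆ X = 0

/-- Natural reductivity with respect to `G`. -/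
def IsNR (k : LieSubalgebra ℝ g) (B : g →ₗ[ℝ] g →ₗ[ℝ] ℝ) : Prop :=
  ∃ m : Submodule ℝ g, IsCompl k.toSubmodule m ∧ (∀ A ∈ k, ∀ X ∈ m, ⁅A, X⁆ ∈ m) ∧
    ∀ X ∈ m, ∀ Y ∈ m, B ⁅X, Y⁆ X = 0

/-- `(g, k, B)` and `(g', k', B')` describe the same Riemannian space, the action of the first
group being the restriction of the action of the second along `f`. -/
def SameSpace (_k : LieSubalgebra ℝ g) (B : g →ₗ[ℝ] g →ₗ[ℝ] ℝ)
    (k' : LieSubalgebra ℝ g') (B' : g' →ₗ[ℝ] g' →ₗ[ℝ] ℝ) : Prop :=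
  ∃ f : g →ₗ⁅ℝ⁆ g', (∀ X Y, B' (f X) (f Y) = B X Y) ∧ ∀ Z, ∃ X, Z - f X ∈ k'

/-- The space is naturally reductive with respect to some transitive group of isometries (which
contains the given one). -/
def NatRed (k : LieSubalgebra ℝ g) (B : g →ₗ[ℝ] g →ₗ[ℝ] ℝ) : Prop :=
  ∃ (g₁ : Type) (_ : LieRing g₁) (_ : LieAlgebra ℝ g₁) (k₁ : LieSubalgebra ℝ g₁)
    (B₁ : g₁ →ₗ[ℝ] g₁ →ₗ[ℝ] ℝ), FiniteDimensional ℝ g₁ ∧ IsModel k₁ B₁ ∧ IsNR k₁ B₁ ∧
    SameSpace k B k₁ B₁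

end general

/-! ### The nilpotent family -/

/-- The 2-step nilpotent Lie algebra `ℍ × ℝ³` with `[(x,v),(y,w)] = (0, τ(Im(x̄ y)))`, where
`τ : Im ℍ → ℝ³` is linear. -/
def Nil (_τ : ℍ →ₗ[ℝ] EuclideanSpace ℝ (Fin 3)) : Type := ℍ × EuclideanSpace ℝ (Fin 3)

namespace Nil

variable (τ : ℍ →ₗ[ℝ] EuclideanSpace ℝ (Fin 3))

noncomputable instance : AddCommGroup (Nil τ) :=
  inferInstanceAs (AddCommGroup (ℍ × EuclideanSpace ℝ (Fin 3)))

noncomputable instance : Module ℝ (Nil τ) :=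
  inferInstanceAs (Module ℝ (ℍ × EuclideanSpace ℝ (Fin 3)))

/-- Imaginary part as a linear map. -/
noncomputable def imL : ℍ →ₗ[ℝ] ℍ where
  toFun := fun a => a.im
  map_add' := by intro a b; ext <;> simp
  map_smul' := by intro a b; ext <;> simp

noncomputable instance : Bracket (Nil τ) (Nil τ) where
  bracket := fun X Y => (0, τ (imL (star X.1 * Y.1)))

theorem bracket_def (X Y : Nil τ) : ⁅X, Y⁆ = (0, τ (imL (star X.1 * Y.1))) := rfl

noncomputable instance : LieRing (Nil τ) where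
  add_lie := by
    intro X Y Z
    change ((0 : ℍ), τ (imL (star (X.1 + Y.1) * Z.1))) =
      ((0 : ℍ) + 0, τ (imL (star X.1 * Z.1)) + τ (imL (star Y.1 * Z.1)))
    rw [star_add, add_mul, map_add, map_add, add_zero]
  lie_add := by
    intro X Y Z
    change ((0 : ℍ), τ (imL (star X.1 * (Y.1 + Z.1)))) =
      ((0 : ℍ) + 0, τ (imL (star X.1 * Y.1)) + τ (imL (star X.1 * Z.1)))
    rw [mul_add, map_add, map_add, add_zero]
  lie_self := by
    intro X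
    have h : imL (star X.1 * X.1) = 0 := by
      ext <;> simp [imL] <;> ring
    change ((0 : ℍ), τ (imL (star X.1 * X.1))) = 0
    rw [h, map_zero]; rfl
  leibniz_lie := by
    intro X Y Z
    change ((0 : ℍ), τ (imL (star X.1 * 0))) =
      ((0 : ℍ) + 0, τ (imL (star (0 : ℍ) * Z.1)) + τ (imL (star Y.1 * 0)))
    simp

noncomputable instance : LieAlgebra ℝ (Nil τ) where
  lie_smul := by
    intro t X Y
    change ((0 : ℍ), τ (imL (star X.1 * (t • Y.1)))) =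
      (t • (0 : ℍ), t • τ (imL (star X.1 * Y.1)))
    rw [mul_smul_comm, map_smul, map_smul, smul_zero]

/-- The standard inner product of `ℍ × ℝ³`. -/
noncomputable def form : Nil τ →ₗ[ℝ] Nil τ →ₗ[ℝ] ℝ :=
  LinearMap.mk₂ ℝ (fun X Y : Nil τ => ⟪X.1, Y.1⟫_ℝ + ⟪X.2, Y.2⟫_ℝ)
    (by intro X Y Z
        change ⟪X.1 + Y.1, Z.1⟫_ℝ + ⟪X.2 + Y.2, Z.2⟫_ℝ = _
        rw [inner_add_left, inner_add_left]; ring)
    (by intro t X Y
        change ⟪t • X.1, Y.1⟫_ℝ + ⟪t • X.2, Y.2⟫_ℝ = _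
        rw [real_inner_smul_left, real_inner_smul_left, smul_eq_mul]; ring)
    (by intro X Y Z
        change ⟪X.1, Y.1 + Z.1⟫_ℝ + ⟪X.2, Y.2 + Z.2⟫_ℝ = _
        rw [inner_add_right, inner_add_right]; ring)
    (by intro t X Y
        change ⟪X.1, t • Y.1⟫_ℝ + ⟪X.2, t • Y.2⟫_ℝ = _
        rw [real_inner_smul_right, real_inner_smul_right, smul_eq_mul]; ring)

end Nil

/-! ### The family `(SO(5) × SO(2))/U(2)`, `(SO(4,1) × SO(2))/U(2)` -/

section SpFamily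

attribute [local instance 100] LieRing.ofAssociativeRing

/-- `diag(1, ε)`. -/
noncomputable def S (ε : ℝ) : Matrix (Fin 2) (Fin 2) ℍ := !![1, 0; 0, (ε : ℍ)]

/-- `𝔰𝔭(2)` for `ε = 1` and `𝔰𝔭(1,1)` for `ε = -1`: the quaternionic `2 × 2` matrices `M` with
`M* S + S M = 0`, where `S = diag(1, ε)`. -/
noncomputable def sp (ε : ℝ) : LieSubalgebra ℝ (Matrix (Fin 2) (Fin 2) ℍ) where
  carrier := {M | M.conjTranspose * S ε + S ε * M = 0}
  add_mem' := by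
    intro M N hM hN
    simp only [Set.mem_ofPred_eq] at *
    rw [Matrix.conjTranspose_add, add_mul, mul_add]
    have : M.conjTranspose * S ε + N.conjTranspose * S ε + (S ε * M + S ε * N) =
        (M.conjTranspose * S ε + S ε * M) + (N.conjTranspose * S ε + S ε * N) := by abel
    rw [this, hM, hN, add_zero]
  zero_mem' := by simp
  smul_mem' := by
    intro t M hM
    simp only [Set.mem_ofPred_eq] at *
    have h : (t • M).conjTranspose = t • M.conjTranspose := by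
      ext1 i j
      rw [Matrix.conjTranspose_apply, Matrix.smul_apply, Matrix.smul_apply,
        Matrix.conjTranspose_apply, Quaternion.star_smul]
    rw [h, smul_mul_assoc, mul_smul_comm, ← smul_add, hM, smul_zero]
  lie_mem' := by
    intro M N hM hN
    simp only [Set.mem_ofPred_eq] at *
    have hM' : M.conjTranspose * S ε = - (S ε * M) := eq_neg_of_add_eq_zero_left hM
    have hN' : N.conjTranspose * S ε = - (S ε * N) := eq_neg_of_add_eq_zero_left hN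
    rw [Ring.lie_def, Matrix.conjTranspose_sub, Matrix.conjTranspose_mul,
      Matrix.conjTranspose_mul, sub_mul, Matrix.mul_assoc, Matrix.mul_assoc, hM', hN',
      Matrix.mul_neg, Matrix.mul_neg, ← Matrix.mul_assoc, ← Matrix.mul_assoc, hM', hN']
    noncomm_ring

/-- The Lie algebra `𝔰𝔭(2) ⊕ ℝ` or `𝔰𝔭(1,1) ⊕ ℝ`. -/
def SpR (ε : ℝ) : Type := sp ε × ℝ

noncomputable instance (ε : ℝ) : LieRing (SpR ε) := inferInstanceAs (LieRing (sp ε × ℝ))

noncomputable instance (ε : ℝ) : LieAlgebra ℝ (SpR ε) :=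
  inferInstanceAs (LieAlgebra ℝ (sp ε × ℝ))

/-- The isotropy algebra: `(diag(a, t i), t s)` with `a ∈ Im ℍ`, `t ∈ ℝ`; it is isomorphic to
`𝔲(2)`. -/
noncomputable def spK (ε s : ℝ) : LieSubalgebra ℝ (SpR ε) where
  carrier := {X | X.1.1 0 1 = 0 ∧ X.1.1 1 0 = 0 ∧ (X.1.1 1 1).imJ = 0 ∧ (X.1.1 1 1).imK = 0 ∧
    X.2 = s * (X.1.1 1 1).imI}
  add_mem' := by
    rintro X Y ⟨h1, h2, h3, h4, h5⟩ ⟨k1, k2, k3, k4, k5⟩
    refine ⟨?_, ?_, ?_, ?_, ?_⟩
    · change X.1.1 0 1 + Y.1.1 0 1 = 0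
      rw [h1, k1, add_zero]
    · change X.1.1 1 0 + Y.1.1 1 0 = 0
      rw [h2, k2, add_zero]
    · change (X.1.1 1 1 + Y.1.1 1 1).imJ = 0
      rw [Quaternion.imJ_add, h3, k3, add_zero]
    · change (X.1.1 1 1 + Y.1.1 1 1).imK = 0
      rw [Quaternion.imK_add, h4, k4, add_zero]
    · change X.2 + Y.2 = s * (X.1.1 1 1 + Y.1.1 1 1).imI
      rw [Quaternion.imI_add, h5, k5]; ring
  zero_mem' := by
    refine ⟨rfl, rfl, rfl, rfl, ?_⟩
    change (0 : ℝ) = s * 0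
    rw [mul_zero]
  smul_mem' := by
    rintro t X ⟨h1, h2, h3, h4, h5⟩
    refine ⟨?_, ?_, ?_, ?_, ?_⟩
    · change t • X.1.1 0 1 = 0
      rw [h1, smul_zero]
    · change t • X.1.1 1 0 = 0
      rw [h2, smul_zero]
    · change (t • X.1.1 1 1).imJ = 0
      rw [Quaternion.imJ_smul, h3, smul_zero]
    · change (t • X.1.1 1 1).imK = 0
      rw [Quaternion.imK_smul, h4, smul_zero]
    · change t • X.2 = s * (t • X.1.1 1 1).imI
      rw [Quaternion.imI_smul, h5, smul_eq_mul, smul_eq_mul]; ring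
  lie_mem' := by
    rintro X Y ⟨h1, h2, h3, h4, h5⟩ ⟨k1, k2, k3, k4, k5⟩
    have e (i j : Fin 2) : ⁅X, Y⁆.1.1 i j = X.1.1 i 0 * Y.1.1 0 j + X.1.1 i 1 * Y.1.1 1 j -
        (Y.1.1 i 0 * X.1.1 0 j + Y.1.1 i 1 * X.1.1 1 j) := by
      change (X.1.1 * Y.1.1 - Y.1.1 * X.1.1) i j = _
      rw [Matrix.sub_apply, Matrix.mul_apply, Matrix.mul_apply, Fin.sum_univ_two,
        Fin.sum_univ_two]
    have e2 : ⁅X, Y⁆.2 = 0 := by
      change X.2 * Y.2 - Y.2 * X.2 = 0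
      ring
    refine ⟨?_, ?_, ?_, ?_, ?_⟩
    · rw [e, h1, k1]; simp
    · rw [e, h2, k2]; simp
    · rw [e, h1, h2, k1, k2]; simp [h3, h4, k3, k4]
    · rw [e, h1, h2, k1, k2]; simp [h3, h4, k3, k4]
    · rw [e, e2, h1, h2, k1, k2]; simp [h3, h4, k3, k4]; ring_nf; simp

/-- The metric: with `x = M₀₁`, `p = M₁₁` and `r` the component in `ℝ`,
`B = α |x|² + β (p_j² + p_k²) + (s p_i - r)²`. -/
noncomputable def spB (ε α β s : ℝ) : SpR ε →ₗ[ℝ] SpR ε →ₗ[ℝ] ℝ :=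
  LinearMap.mk₂ ℝ (fun X Y : SpR ε => α * ⟪X.1.1 0 1, Y.1.1 0 1⟫_ℝ +
      β * ((X.1.1 1 1).imJ * (Y.1.1 1 1).imJ + (X.1.1 1 1).imK * (Y.1.1 1 1).imK) +
      (s * (X.1.1 1 1).imI - X.2) * (s * (Y.1.1 1 1).imI - Y.2))
    (by intro X Y Z
        change α * ⟪X.1.1 0 1 + Y.1.1 0 1, Z.1.1 0 1⟫_ℝ + β *
          ((X.1.1 1 1 + Y.1.1 1 1).imJ * _ + (X.1.1 1 1 + Y.1.1 1 1).imK * _) +
          (s * (X.1.1 1 1 + Y.1.1 1 1).imI - (X.2 + Y.2)) * _ = _
        rw [inner_add_left, Quaternion.imI_add, Quaternion.imJ_add, Quaternion.imK_add]; ring)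
    (by intro t X Y
        change α * ⟪t • X.1.1 0 1, Y.1.1 0 1⟫_ℝ + β *
          ((t • X.1.1 1 1).imJ * _ + (t • X.1.1 1 1).imK * _) +
          (s * (t • X.1.1 1 1).imI - (t • X.2)) * _ = _
        rw [real_inner_smul_left, Quaternion.imI_smul, Quaternion.imJ_smul,
          Quaternion.imK_smul]; simp only [smul_eq_mul]; ring)
    (by intro X Y Z
        change α * ⟪X.1.1 0 1, Y.1.1 0 1 + Z.1.1 0 1⟫_ℝ + β *
          (_ * (Y.1.1 1 1 + Z.1.1 1 1).imJ + _ * (Y.1.1 1 1 + Z.1.1 1 1).imK) +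
          _ * (s * (Y.1.1 1 1 + Z.1.1 1 1).imI - (Y.2 + Z.2)) = _
        rw [inner_add_right, Quaternion.imI_add, Quaternion.imJ_add, Quaternion.imK_add]; ring)
    (by intro t X Y
        change α * ⟪X.1.1 0 1, t • Y.1.1 0 1⟫_ℝ + β *
          (_ * (t • Y.1.1 1 1).imJ + _ * (t • Y.1.1 1 1).imK) +
          _ * (s * (t • Y.1.1 1 1).imI - (t • Y.2)) = _
        rw [real_inner_smul_right, Quaternion.imI_smul, Quaternion.imJ_smul,
          Quaternion.imK_smul]; simp only [smul_eq_mul]; ring)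

end SpFamily

/-- The classification statement. -/
def Classification : Prop :=
  ∀ (g : Type) [LieRing g] [LieAlgebra ℝ g] [FiniteDimensional ℝ g] (k : LieSubalgebra ℝ g)
    (B : g →ₗ[ℝ] g →ₗ[ℝ] ℝ), IsModel k B → Eff k → IsGO k B →
    Module.finrank ℝ g = Module.finrank ℝ k + 7 →
    NatRed k B ∨
    (∃ τ : ℍ →ₗ[ℝ] EuclideanSpace ℝ (Fin 3), SameSpace ⊥ (Nil.form τ) k B) ∨
    (∃ ε α β s : ℝ, (ε = 1 ∨ ε = -1) ∧ 0 < α ∧ 0 < β ∧
      SameSpace k B (spK ε s) (spB ε α β s))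

/-- Every member of the two families is a g.o. space of dimension seven. -/
def Converse : Prop :=
  (∀ τ : ℍ →ₗ[ℝ] EuclideanSpace ℝ (Fin 3),
    ∃ (g : Type) (_ : LieRing g) (_ : LieAlgebra ℝ g) (k : LieSubalgebra ℝ g)
      (B : g →ₗ[ℝ] g →ₗ[ℝ] ℝ), FiniteDimensional ℝ g ∧ IsModel k B ∧ Eff k ∧ IsGO k B ∧
      Module.finrank ℝ g = Module.finrank ℝ k + 7 ∧ SameSpace ⊥ (Nil.form τ) k B) ∧
  (∀ ε α β s : ℝ, (ε = 1 ∨ ε = -1) → 0 < α → 0 < β →
    IsModel (spK ε s) (spB ε α β s) ∧ Eff (spK ε s) ∧ IsGO (spK ε s) (spB ε α β s) ∧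
    Module.finrank ℝ (SpR ε) = Module.finrank ℝ (spK ε s) + 7)

end GOS
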